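import Pool.Agent.H481.SG4

/-!
Trigonometric polynomials on the circle with their means, and functions of `N` points which are
combinations of products `F conj G` of polynomials of bounded degree.
-/

open MvPolynomial Finset MeasureTheory
open Pool.Agent.R319.UM

namespace Pool.Agent.H481.AC

noncomputable section

/-! ### trigonometric polynomials -/

/-- `f` is a trigonometric polynomial of degree at most `n` with mean `μ` -/
def LP (n : ℕ) (μ : ℂ) (f : ℂ → ℂ) : Prop :=
  ∃ a b : ℕ → ℂ, a 0 + b 0 = μ ∧ ∀ w : ℂ, ‖w‖ = 1 →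
    f w = ∑ k ∈ range (n + 1), (a k * w ^ k + b k * (starRingEnd ℂ) w ^ k)

variable {n : ℕ} {μ μ' : ℂ} {f g : ℂ → ℂ}

lemma LP.add (hf : LP n μ f) (hg : LP n μ' g) : LP n (μ + μ') (fun w => f w + g w) := by
  obtain ⟨a, b, h1, h2⟩ := hf
  obtain ⟨a', b', h1', h2'⟩ := hg
  refine ⟨fun k => a k + a' k, fun k => b k + b' k, ?_, fun w hw => ?_⟩
  · rw [← h1, ← h1']
    ring
  · beta_reduce
    rw [h2 w hw, h2' w hw, ← Finset.sum_add_distrib]
    exact Finset.sum_congr rfl fun k _ => by ring

lemma LP.smul (c : ℂ) (hf : LP n μ f) : LP n (c * μ) (fun w => c * f w) := by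
  obtain ⟨a, b, h1, h2⟩ := hf
  refine ⟨fun k => c * a k, fun k => c * b k, ?_, fun w hw => ?_⟩
  · rw [← h1]
    ring
  · beta_reduce
    rw [h2 w hw, Finset.mul_sum]
    exact Finset.sum_congr rfl fun k _ => by ring

lemma LP.congr (hf : LP n μ f) (h : ∀ w : ℂ, ‖w‖ = 1 → g w = f w) : LP n μ g := by
  obtain ⟨a, b, h1, h2⟩ := hf
  exact ⟨a, b, h1, fun w hw => by rw [h w hw, h2 w hw]⟩

lemma LP.const (n : ℕ) (c : ℂ) : LP n c (fun _ => c) := by
  refine ⟨fun k => if k = 0 then c else 0, fun _ => 0, by simp, fun w _ => ?_⟩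
  simp

lemma LP.zero (n : ℕ) : LP n 0 (fun _ => 0) := LP.const n 0

lemma LP.sum {ι : Type*} (s : Finset ι) (μ : ι → ℂ) (f : ι → ℂ → ℂ)
    (h : ∀ i ∈ s, LP n (μ i) (f i)) : LP n (∑ i ∈ s, μ i) (fun w => ∑ i ∈ s, f i w) := by
  classical
  induction s using Finset.induction_on with
  | empty => simpa using LP.zero n
  | insert a s ha ih =>
    simp only [Finset.sum_insert ha]
    exact (h a (Finset.mem_insert_self _ _)).add
      (ih fun i hi => h i (Finset.mem_insert_of_mem hi))

lemma mul_conj_unit {w : ℂ} (hw : ‖w‖ = 1) : w * (starRingEnd ℂ) w = 1 := by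
  rw [Complex.mul_conj, Complex.normSq_eq_norm_sq, hw]
  norm_num

/-- monomials -/
lemma LP.mon (n j l : ℕ) (hj : j ≤ n) (hl : l ≤ n) :
    LP n (if j = l then 1 else 0) (fun w => w ^ j * (starRingEnd ℂ) w ^ l) := by
  by_cases h : l ≤ j
  · refine ⟨fun k => if k = j - l then 1 else 0, fun _ => 0, ?_, fun w hw => ?_⟩
    · by_cases hjl : j = l
      · rw [if_pos hjl]
        simp [hjl]
      · rw [if_neg hjl]
        have : ¬ (0 = j - l) := by omega
        simp [this]
    · have e : w ^ j * (starRingEnd ℂ) w ^ l = w ^ (j - l) := by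
        have h1 : w ^ j = w ^ (j - l) * w ^ l := by
          rw [← pow_add]
          congr 1
          omega
        rw [h1, mul_assoc, ← mul_pow, mul_conj_unit hw, one_pow, mul_one]
      beta_reduce
      rw [e]
      simp only [ite_mul, one_mul, zero_mul, add_zero]
      rw [Finset.sum_ite_eq' (range (n + 1)) (j - l), if_pos (mem_range.2 (by omega))]
  · refine ⟨fun _ => 0, fun k => if k = l - j then 1 else 0, ?_, fun w hw => ?_⟩
    · have hjl : j ≠ l := by omega
      rw [if_neg hjl]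
      have : ¬ (0 = l - j) := by omega
      simp [this]
    · have e : w ^ j * (starRingEnd ℂ) w ^ l = (starRingEnd ℂ) w ^ (l - j) := by
        have h1 : (starRingEnd ℂ) w ^ l = (starRingEnd ℂ) w ^ j * (starRingEnd ℂ) w ^ (l - j) := by
          rw [← pow_add]
          congr 1
          omega
        rw [h1, ← mul_assoc, ← mul_pow, mul_conj_unit hw, one_pow, one_mul]
      beta_reduce
      rw [e]
      simp only [ite_mul, one_mul, zero_mul, zero_add]
      rw [Finset.sum_ite_eq' (range (n + 1)) (l - j), if_pos (mem_range.2 (by omega))]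

/-- rotation -/
lemma LP.rot {u : ℂ} (hu : ‖u‖ = 1) (hf : LP n μ f) : LP n μ (fun w => f (w * u)) := by
  obtain ⟨a, b, h1, h2⟩ := hf
  refine ⟨fun k => a k * u ^ k, fun k => b k * (starRingEnd ℂ) u ^ k, by simpa using h1,
    fun w hw => ?_⟩
  beta_reduce
  rw [h2 (w * u) (by rw [norm_mul, hw, hu, one_mul])]
  refine Finset.sum_congr rfl fun k _ => ?_
  rw [map_mul, mul_pow, mul_pow]
  ring

/-- a root of unity -/
def rt (K : ℕ) (x : Fin K) : ℂ := Complex.exp (2 * Real.pi * Complex.I / K) ^ (x : ℕ)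

lemma rt_norm (K : ℕ) (x : Fin K) : ‖rt K x‖ = 1 := by
  unfold rt
  rw [norm_pow]
  have : (2 * Real.pi * Complex.I / K : ℂ) = ((2 * Real.pi / K : ℝ) : ℂ) * Complex.I := by
    push_cast
    ring
  rw [this, Complex.norm_exp_ofReal_mul_I, one_pow]

/-- the mean over the roots of unity -/
lemma LP.mean {K : ℕ} (hK : n < K) (hf : LP n μ f) :
    ∑ x : Fin K, f (rt K x) = K * μ := by
  obtain ⟨a, b, h1, h2⟩ := hf
  have hK0 : 0 < K := by omega
  have e1 : ∀ k < K, ∑ x : Fin K, rt K x ^ k = if k = 0 then (K : ℂ) else 0 := by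
    intro k hk
    have := one_disc hK0 hk hK0
    simp only [pow_zero, map_one, mul_one] at this
    exact this
  have e2 : ∀ k < K, ∑ x : Fin K, (starRingEnd ℂ) (rt K x) ^ k = if k = 0 then (K : ℂ) else 0 := by
    intro k hk
    have := congrArg (starRingEnd ℂ) (e1 k hk)
    rw [map_sum] at this
    simp only [map_pow] at this
    rw [this]
    split_ifs <;> simp
  calc ∑ x : Fin K, f (rt K x) = ∑ x : Fin K, ∑ k ∈ range (n + 1),
        (a k * rt K x ^ k + b k * (starRingEnd ℂ) (rt K x) ^ k) :=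
        Finset.sum_congr rfl fun x _ => h2 _ (rt_norm K x)
    _ = ∑ k ∈ range (n + 1), (a k * ∑ x : Fin K, rt K x ^ k +
        b k * ∑ x : Fin K, (starRingEnd ℂ) (rt K x) ^ k) := by
        rw [Finset.sum_comm]
        refine Finset.sum_congr rfl fun k _ => ?_
        rw [Finset.sum_add_distrib, Finset.mul_sum, Finset.mul_sum]
    _ = ∑ k ∈ range (n + 1), (if k = 0 then (K : ℂ) * (a 0 + b 0) else 0) := by
        refine Finset.sum_congr rfl fun k hk => ?_
        rw [mem_range] at hk
        rw [e1 k (by omega), e2 k (by omega)]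
        split_ifs with h
        · rw [h]
          ring
        · ring
    _ = K * μ := by
        rw [Finset.sum_ite_eq' (range (n + 1)) 0, if_pos (mem_range.2 (by omega)), h1]

/-! ### functions of the points -/

variable {N : ℕ}

/-- combinations of products `F conj G` of polynomials of total degree at most `d` -/
inductive TP (d : ℕ) : ((Fin N → ℂ) → ℂ) → Prop
  | base (F G : MvPolynomial (Fin N) ℂ) (hF : F.totalDegree ≤ d) (hG : G.totalDegree ≤ d) :
      TP d (fun z => eval z F * (starRingEnd ℂ) (eval z G))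
  | add (f g : (Fin N → ℂ) → ℂ) : TP d f → TP d g → TP d (fun z => f z + g z)
  | congr (f g : (Fin N → ℂ) → ℂ) : TP d f →
      (∀ z : Fin N → ℂ, (∀ i, ‖z i‖ = 1) → g z = f z) → TP d g

lemma TP.mono {d d' : ℕ} (h : d ≤ d') {f : (Fin N → ℂ) → ℂ} (hf : TP d f) : TP d' f := by
  induction hf with
  | base F G hF hG => exact TP.base F G (hF.trans h) (hG.trans h)
  | add f g _ _ ih1 ih2 => exact TP.add f g ih1 ih2
  | congr f g _ hc ih => exact TP.congr f g ih hc

lemma TP.const (d : ℕ) (c : ℂ) : TP d (fun _ : Fin N → ℂ => c) := by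
  refine TP.congr _ _ (TP.base (C c) 1 (by simp) (by simp)) fun z _ => ?_
  simp

lemma TP.smul {d : ℕ} (c : ℂ) {f : (Fin N → ℂ) → ℂ} (hf : TP d f) :
    TP d (fun z => c * f z) := by
  induction hf with
  | base F G hF hG =>
    refine TP.congr _ _ (TP.base (C c * F) G ?_ hG) fun z _ => ?_
    · refine (totalDegree_mul _ _).trans ?_
      rw [totalDegree_C, zero_add]
      exact hF
    · rw [map_mul, eval_C]
      ring
  | add f g _ _ ih1 ih2 =>
    refine TP.congr _ _ (TP.add _ _ ih1 ih2) fun z _ => ?_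
    ring
  | congr f g _ hc ih =>
    refine TP.congr _ _ ih fun z hz => ?_
    rw [hc z hz]

lemma TP.mul_base {d d' : ℕ} (F G : MvPolynomial (Fin N) ℂ) (hF : F.totalDegree ≤ d)
    (hG : G.totalDegree ≤ d) {g : (Fin N → ℂ) → ℂ} (hg : TP d' g) :
    TP (d + d') (fun z => eval z F * (starRingEnd ℂ) (eval z G) * g z) := by
  induction hg with
  | base F' G' hF' hG' =>
    refine TP.congr _ _ (TP.base (F * F') (G * G') ?_ ?_) fun z _ => ?_
    · exact (totalDegree_mul _ _).trans (Nat.add_le_add hF hF')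
    · exact (totalDegree_mul _ _).trans (Nat.add_le_add hG hG')
    · simp only [map_mul]
      ring
  | add f g _ _ ih1 ih2 =>
    refine TP.congr _ _ (TP.add _ _ ih1 ih2) fun z _ => ?_
    ring
  | congr f g _ hc ih =>
    refine TP.congr _ _ ih fun z hz => ?_
    rw [hc z hz]

lemma TP.mul {d d' : ℕ} {f g : (Fin N → ℂ) → ℂ} (hf : TP d f) (hg : TP d' g) :
    TP (d + d') (fun z => f z * g z) := by
  induction hf with
  | base F G hF hG => exact TP.mul_base F G hF hG hg
  | add f f' _ _ ih1 ih2 =>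
    refine TP.congr _ _ (TP.add _ _ ih1 ih2) fun z _ => ?_
    ring
  | congr f f' _ hc ih =>
    refine TP.congr _ _ ih fun z hz => ?_
    rw [hc z hz]

lemma TP.sum {ι : Type*} {d : ℕ} (s : Finset ι) (f : ι → (Fin N → ℂ) → ℂ)
    (h : ∀ i ∈ s, TP d (f i)) : TP d (fun z => ∑ i ∈ s, f i z) := by
  classical
  induction s using Finset.induction_on with
  | empty => simpa using TP.const d 0
  | insert a s ha ih =>
    simp only [Finset.sum_insert ha]
    exact TP.add _ _ (h a (Finset.mem_insert_self _ _))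
      (ih fun i hi => h i (Finset.mem_insert_of_mem hi))

lemma TP.prod {ι : Type*} {d : ℕ} (s : Finset ι) (f : ι → (Fin N → ℂ) → ℂ)
    (h : ∀ i ∈ s, TP d (f i)) : TP (s.card * d) (fun z => ∏ i ∈ s, f i z) := by
  classical
  induction s using Finset.induction_on with
  | empty => simpa using TP.const 0 1
  | insert a s ha ih =>
    simp only [Finset.prod_insert ha]
    rw [Finset.card_insert_of_notMem ha]
    have := (h a (Finset.mem_insert_self _ _)).mul
      (ih fun i hi => h i (Finset.mem_insert_of_mem hi))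
    refine TP.mono ?_ this
    rw [add_mul, one_mul, add_comm]

/-- a trigonometric polynomial of a quotient of two points -/
lemma LP.tp {n : ℕ} {μ : ℂ} {f : ℂ → ℂ} (hf : LP n μ f) (i j : Fin N) :
    TP n (fun z => f (z i * (starRingEnd ℂ) (z j))) := by
  obtain ⟨a, b, -, h2⟩ := hf
  have h : TP n (fun z : Fin N → ℂ => ∑ k ∈ range (n + 1),
      (a k * (z i ^ k * (starRingEnd ℂ) (z j ^ k)) +
        b k * (z j ^ k * (starRingEnd ℂ) (z i ^ k)))) := by
    refine TP.sum _ _ fun k hk => ?_
    rw [mem_range] at hk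
    have hX : ∀ i : Fin N, ((X i : MvPolynomial (Fin N) ℂ) ^ k).totalDegree ≤ n := by
      intro i
      rw [totalDegree_X_pow]
      omega
    have hb : ∀ i j : Fin N, TP n (fun z : Fin N → ℂ => z i ^ k * (starRingEnd ℂ) (z j ^ k)) := by
      intro i j
      refine TP.congr _ _ (TP.base (X i ^ k) (X j ^ k) (hX i) (hX j)) fun z _ => ?_
      simp
    exact TP.add _ _ (TP.smul _ (hb i j)) (TP.smul _ (hb j i))
  refine TP.congr _ _ h fun z hz => ?_
  rw [h2 _ (by rw [norm_mul, Complex.norm_conj, hz, hz, one_mul])]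
  refine Finset.sum_congr rfl fun k _ => ?_
  rw [map_mul, Complex.conj_conj, mul_pow, mul_pow, map_pow, map_pow]
  ring

lemma TP.integrable {d : ℕ} {f : (Fin N → ℂ) → ℂ} (hf : TP d f) {ν : Measure (Fin N → ℂ)}
    [IsProbabilityMeasure ν] (h1 : ∀ᵐ z ∂ν, ∀ i, ‖z i‖ = 1) : Integrable f ν := by
  induction hf with
  | base F G hF hG => exact poly_int h1 F G
  | add f g _ _ ih1 ih2 => exact ih1.add ih2
  | congr f g _ hc ih =>
    refine ih.congr ?_
    filter_upwards [h1] with z hz
    exact (hc z hz).symm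

/-- the mean over the grid -/
def E0 (N K : ℕ) (f : (Fin N → ℂ) → ℂ) : ℂ := ∑ k : Fin N → Fin K, (SG.gw N K k : ℂ) * f (gz K k)

/-- the means of functions in `TP R` agree -/
lemma TP.mean {R K : ℕ} (hN : 0 < N) (hK : N + R ≤ K) {f : (Fin N → ℂ) → ℂ} (hf : TP R f)
    {ν : Measure (Fin N → ℂ)} [IsProbabilityMeasure ν] (h1 : ∀ᵐ z ∂ν, ∀ i, ‖z i‖ = 1)
    (hm : ∀ F G : MvPolynomial (Fin N) ℂ, F.totalDegree ≤ R → G.totalDegree ≤ R →
      ∫ z, eval z F * (starRingEnd ℂ) (eval z G) ∂ν =
        cue (fun z => eval z F * (starRingEnd ℂ) (eval z G))) :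
    ∫ z, f z ∂ν = E0 N K f := by
  induction hf with
  | base F G hF hG =>
    rw [hm F G hF hG, SG.cue_eq_gmean hN hK F G hF hG, SG.gmean_eq]
    rfl
  | add f g hf hg ih1 ih2 =>
    rw [integral_add (hf.integrable h1) (hg.integrable h1), ih1, ih2]
    unfold E0
    rw [← Finset.sum_add_distrib]
    exact Finset.sum_congr rfl fun k _ => by ring
  | congr f g hf hc ih =>
    have e1 : ∫ z, g z ∂ν = ∫ z, f z ∂ν := by
      refine integral_congr_ae ?_
      filter_upwards [h1] with z hz
      exact hc z hz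
    rw [e1, ih]
    unfold E0
    refine Finset.sum_congr rfl fun k _ => ?_
    rw [hc _ (SG.gz_unit' K k)]

end

end Pool.Agent.H481.AC
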