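import Pool.Agent.H481.AC9

/-!
The laws on two grids: the accuracy is optimal.
-/

open Finset MeasureTheory
open Pool.Agent.R319.UM

namespace Pool.Agent.H481.AC

noncomputable section

variable {N : ℕ}

lemma ang_ee {t : ℝ} (h0 : 0 < t) (h1 : t ≤ 2 * Real.pi) : ang (ee t) = t := by
  have hpi := Real.pi_pos
  have harg : ∀ y : ℝ, -Real.pi < y → y ≤ Real.pi → (ee y).arg = y := by
    intro y hy1 hy2
    rw [ee_eq]
    push_cast
    exact Complex.arg_cos_add_sin_mul_I ⟨hy1, hy2⟩
  unfold ang
  rcases le_or_gt t Real.pi with h | h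
  · rw [harg t (by linarith) h, if_pos h0]
  · have e : ee t = ee (t - 2 * Real.pi) := by
      have := ee_per (t - 2 * Real.pi)
      rw [sub_add_cancel] at this
      exact this
    rw [e, harg _ (by linarith) (by linarith), if_neg (by linarith)]
    ring

/-- the number of the steps from `y` to `x` -/
def cc {D : ℕ} (x y : Fin D) : ℕ := if (y : ℕ) < x then x - y else D + x - y

lemma cc_pos {D : ℕ} (x y : Fin D) : 1 ≤ cc x y ∧ cc x y ≤ D := by
  unfold cc
  have := x.2
  have := y.2
  split_ifs with h <;> omega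

lemma rt_eq {D : ℕ} (x : Fin D) : rt D x = ee (2 * Real.pi * x / D) := by
  have h : rt D x = ze D ^ (x : ℕ) := rfl
  rw [h, ze_eq, ee_pow]
  congr 1
  ring

lemma ang_rt {D : ℕ} (x y : Fin D) :
    ang (rt D x * (starRingEnd ℂ) (rt D y)) = 2 * Real.pi * cc x y / D := by
  have hpi := Real.pi_pos
  have hD : 0 < D := x.pos
  have hD0 : (0 : ℝ) < D := by exact_mod_cast hD
  obtain ⟨c1, c2⟩ := cc_pos x y
  have hc1 : (1 : ℝ) ≤ cc x y := by exact_mod_cast c1
  have hc2 : (cc x y : ℝ) ≤ D := by exact_mod_cast c2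
  have e : rt D x * (starRingEnd ℂ) (rt D y) = ee (2 * Real.pi * cc x y / D) := by
    rw [rt_eq, rt_eq, ee_conj, ← ee_add]
    unfold cc
    split_ifs with h
    · rw [Nat.cast_sub h.le]
      congr 1
      ring
    · have hy := y.2
      rw [Nat.cast_sub (by omega)]
      push_cast
      rw [← ee_per]
      congr 1
      field_simp
      ring
  rw [e]
  refine ang_ee (by positivity) ?_
  rw [div_le_iff₀ hD0]
  exact mul_le_mul_of_nonneg_left hc2 (by positivity)

lemma lt_ang {D : ℕ} (hN : 0 < N) {s : ℝ} (hs : 0 ≤ s) (x y : Fin D) :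
    2 * Real.pi * s / N < ang (rt D x * (starRingEnd ℂ) (rt D y)) ↔
      ⌊s * D / N⌋₊ < cc x y := by
  have hpi := Real.pi_pos
  have hD0 : (0 : ℝ) < D := by exact_mod_cast x.pos
  have hN0 : (0 : ℝ) < N := by exact_mod_cast hN
  rw [ang_rt, Nat.floor_lt (by positivity), div_lt_div_iff₀ hN0 hD0, div_lt_iff₀ hN0]
  constructor
  · intro h
    have h2 : (2 * Real.pi) * (s * D) < (2 * Real.pi) * (cc x y * N) := by linarith
    exact lt_of_mul_lt_mul_left h2 (by positivity)
  · intro h
    have h2 := mul_lt_mul_of_pos_left h (show 0 < 2 * Real.pi by positivity)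
    linarith

/-- the count on the grid depends only on the integral part -/
lemma grid_floor {D : ℕ} (hN : 0 < N) {s t : ℝ} (hs : 0 ≤ s) (ht : 0 ≤ t)
    (h : ⌊s * D / N⌋₊ = ⌊t * D / N⌋₊) (k : Fin N → Fin D) :
    longGaps (2 * Real.pi * s / N) (gz D k) = longGaps (2 * Real.pi * t / N) (gz D k) := by
  classical
  unfold longGaps
  congr 1
  refine Finset.filter_congr fun j _ => ?_
  refine and_congr_right fun _ => forall_congr' fun i => ?_
  have e : ∀ i, gz D k i = rt D (k i) := fun _ => rfl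
  rw [e, e, lt_ang hN hs, lt_ang hN ht, h]

/-- all the points are counted if the length is `0` -/
lemma grid_zero {D : ℕ} (hN : 0 < N) (k : Fin N → Fin D) (hk : Function.Injective (gz D k)) :
    longGaps (2 * Real.pi * 0 / N) (gz D k) = N := by
  classical
  unfold longGaps
  rw [Finset.filter_true_of_mem, card_univ, Fintype.card_fin]
  intro j _
  refine ⟨fun i hij h => ?_, fun i => ?_⟩
  · exact (ne_of_lt hij) (hk h)
  · have e : ∀ i, gz D k i = rt D (k i) := fun _ => rfl
    rw [e, e, lt_ang hN le_rfl]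
    rw [zero_mul, zero_div, Nat.floor_zero]
    exact (cc_pos _ _).1

/-- the packing bound -/
lemma grid_pack {D : ℕ} (hN : 0 < N) {s : ℝ} (hs : 0 ≤ s) (k : Fin N → Fin D) :
    longGaps (2 * Real.pi * s / N) (gz D k) * (⌊s * D / N⌋₊ + 1) ≤ D := by
  classical
  set q := ⌊s * D / N⌋₊ with hq
  set A : Finset (Fin N) := univ.filter fun j => (∀ i, i < j → gz D k i ≠ gz D k j) ∧
    ∀ i, 2 * Real.pi * s / N < ang (gz D k i * (starRingEnd ℂ) (gz D k j)) with hA
  have hAc : longGaps (2 * Real.pi * s / N) (gz D k) = A.card := rfl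
  have e : ∀ i, gz D k i = rt D (k i) := fun _ => rfl
  have hmem : ∀ j ∈ A, ∀ i, q < cc (k i) (k j) := by
    intro j hj i
    rw [hA, Finset.mem_filter] at hj
    have h := hj.2.2 i
    rw [e, e, lt_ang hN hs] at h
    exact h
  have hinj : ∀ i ∈ A, ∀ j ∈ A, k i = k j → i = j := by
    intro i hi j hj hij
    by_contra hne
    rw [hA, Finset.mem_filter] at hi hj
    rcases lt_or_gt_of_ne hne with h | h
    · exact hj.2.1 i h (by rw [e, e, hij])
    · exact hi.2.1 j h (by rw [e, e, hij])
  have h1 : (A ×ˢ range (q + 1)).card ≤ (range D).card := by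
    refine Finset.card_le_card_of_injOn (fun p => ((k p.1 : ℕ) + p.2) % D) ?_ ?_
    · intro p hp
      have hp' := Finset.mem_coe.1 hp
      rw [Finset.mem_product] at hp'
      rw [Finset.mem_coe, mem_range]
      exact Nat.mod_lt _ (k p.1).pos
    · rintro ⟨i, a⟩ hp ⟨j, b⟩ hp' heq
      rw [Finset.mem_coe, Finset.mem_product, mem_range] at hp hp'
      obtain ⟨hi, ha⟩ := hp
      obtain ⟨hj, hb⟩ := hp'
      beta_reduce at heq
      simp only at hi ha hj hb heq
      have hmod : ((k i : ℕ) + a) % D = ((k j : ℕ) + b) % D := heq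
      have hki := (k i).2
      have hkj := (k j).2
      have h2 := hmem i hi i
      have c1 := hmem i hi j
      have c2 := hmem j hj i
      have c3 : q < D := by
        have := (cc_pos (k i) (k i)).2
        omega
      unfold cc at c1 c2
      -- `k i + a ≡ k j + b`
      have key : (k i : ℕ) = k j := by
        by_contra hne
        have h3 : ((k i : ℕ) + a) = ((k j : ℕ) + b) ∨ ((k i : ℕ) + a) = ((k j : ℕ) + b) + D ∨
            ((k i : ℕ) + a) + D = ((k j : ℕ) + b) := by
          have m1 := Nat.div_add_mod ((k i : ℕ) + a) D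
          have m2 := Nat.div_add_mod ((k j : ℕ) + b) D
          have m3 : ((k i : ℕ) + a) / D ≤ 1 := by
            rw [← Nat.lt_succ_iff, Nat.div_lt_iff_lt_mul (by omega)]
            omega
          have m4 : ((k j : ℕ) + b) / D ≤ 1 := by
            rw [← Nat.lt_succ_iff, Nat.div_lt_iff_lt_mul (by omega)]
            omega
          rw [hmod] at m1
          have hu := Nat.le_one_iff_eq_zero_or_eq_one.1 m3
          have hv := Nat.le_one_iff_eq_zero_or_eq_one.1 m4
          rcases hu with hu | hu <;> rcases hv with hv | hv <;> rw [hu] at m1 <;>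
            rw [hv] at m2 <;> simp only [Nat.mul_zero, Nat.mul_one, Nat.zero_add] at m1 m2 <;> omega
        split_ifs at c1 c2 <;> omega
      have hij : i = j := hinj i hi j hj (Fin.ext key)
      subst hij
      have hab : a = b := by
        have h3 := Nat.ModEq.add_left_cancel' (k i : ℕ) (show Nat.ModEq D ((k i : ℕ) + a)
          ((k i : ℕ) + b) from hmod)
        unfold Nat.ModEq at h3
        rw [Nat.mod_eq_of_lt (by omega), Nat.mod_eq_of_lt (by omega)] at h3
        exact h3
      rw [hab]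
  rw [Finset.card_product, card_range, card_range] at h1
  rw [hAc]
  exact h1

/-! ### the two laws -/

/-- the proportion of the gaps longer than `s` for the law on the grid -/
def SS (N D : ℕ) (s : ℝ) : ℝ := (∫ z, (longGaps (2 * Real.pi * s / N) z : ℝ) ∂(SG.glaw N D)) / N

lemma inj_of_gw {D : ℕ} {k : Fin N → Fin D} (hk : SG.gw N D k ≠ 0) :
    Function.Injective (gz D k) := by
  by_contra h
  apply hk
  unfold SG.gw
  rw [V2_zero h, zero_div]

lemma SS_floor {D : ℕ} (hN : 0 < N) {s t : ℝ} (hs : 0 ≤ s) (ht : 0 ≤ t)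
    (h : ⌊s * D / N⌋₊ = ⌊t * D / N⌋₊) : SS N D s = SS N D t := by
  unfold SS
  congr 1
  refine integral_congr_ae ?_
  refine IN.fl_ae fun k _ => ?_
  beta_reduce
  rw [grid_floor hN hs ht h]

lemma SS_zero {D : ℕ} (hN : 0 < N) (hD : N ≤ D) : SS N D 0 = 1 := by
  have hN0 : (N : ℝ) ≠ 0 := by exact_mod_cast hN.ne'
  have := SG.glaw_prob hN hD
  unfold SS
  have h : ∫ z, (longGaps (2 * Real.pi * 0 / N) z : ℝ) ∂(SG.glaw N D) =
      ∫ _z, (N : ℝ) ∂(SG.glaw N D) := by
    refine integral_congr_ae ?_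
    refine IN.fl_ae fun k hk => ?_
    beta_reduce
    rw [grid_zero hN k (inj_of_gw hk)]
  rw [h, integral_const]
  simp [hN0]

lemma SS_pack {D : ℕ} (hN : 0 < N) (hD : N ≤ D) {s : ℝ} (hs : 0 ≤ s) :
    SS N D s * (N * ((⌊s * D / N⌋₊ : ℝ) + 1)) ≤ D := by
  have hN0 : (0 : ℝ) < N := by exact_mod_cast hN
  have := SG.glaw_prob hN hD
  have h : ∫ z, (longGaps (2 * Real.pi * s / N) z : ℝ) ∂(SG.glaw N D) ≤
      ∫ _z, (D : ℝ) / ((⌊s * D / N⌋₊ : ℝ) + 1) ∂(SG.glaw N D) := by
    refine integral_mono_ae (longGaps_int _ _) (integrable_const _) ?_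
    refine IN.fl_ae fun k _ => ?_
    beta_reduce
    rw [le_div_iff₀ (by positivity)]
    exact_mod_cast grid_pack hN hs k
  rw [integral_const, probReal_univ, one_smul] at h
  unfold SS
  rw [le_div_iff₀ (by positivity)] at h
  calc _ = (∫ z, (longGaps (2 * Real.pi * s / N) z : ℝ) ∂(SG.glaw N D)) *
        ((⌊s * D / N⌋₊ : ℝ) + 1) := by field_simp
    _ ≤ D := h

/-- **two laws with different spacings** -/
theorem two_laws (hN : 3 ≤ N) {D : ℕ} (hD : N ≤ D) : ∃ s : ℝ, 0 ≤ s ∧ s ≤ 2 ∧
    (N : ℝ) / (8 * D) < |SS N D s - SS N (D + 1) s| := by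
  by_contra hcon
  push Not at hcon
  have hN' : 0 < N := by omega
  have hN0 : (0 : ℝ) < N := by exact_mod_cast hN'
  have hN3 : (3 : ℝ) ≤ N := by exact_mod_cast hN
  have hD' : 0 < D := by omega
  have hD0 : (0 : ℝ) < D := by exact_mod_cast hD'
  set δ : ℝ := (N : ℝ) / (8 * D) with hδ
  set q := ⌊2 * (D : ℝ) / N⌋₊ with hq
  have hq1 : (q : ℝ) ≤ 2 * D / N := Nat.floor_le (by positivity)
  have hq2 : 2 * (D : ℝ) / N < q + 1 := Nat.lt_floor_add_one _
  have hqD : q < D := by
    have h1 : 2 * (D : ℝ) / N < D := by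
      rw [div_lt_iff₀ hN0]
      nlinarith
    have h2 : (q : ℝ) < D := lt_of_le_of_lt hq1 h1
    exact_mod_cast h2
  -- one step
  have step : ∀ k, 1 ≤ k → k ≤ q →
      SS N D (((k - 1 : ℕ) : ℝ) * N / D) - SS N D ((k : ℝ) * N / D) ≤ 2 * δ := by
    intro k hk1 hk
    have hk0 : (0 : ℝ) < k := by exact_mod_cast hk1
    have hkq : (k : ℝ) ≤ q := by exact_mod_cast hk
    have hkD : (k : ℝ) < D := by exact_mod_cast (lt_of_le_of_lt hk hqD)
    have hcast : ((k - 1 : ℕ) : ℝ) = k - 1 := by
      rw [Nat.cast_sub hk1]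
      push_cast
      rfl
    set t : ℝ := (k : ℝ) * N / (D + 1) with ht
    set u : ℝ := (k : ℝ) * N / D with hu
    have ht0 : 0 ≤ t := by positivity
    have hu0 : 0 ≤ u := by positivity
    have hu2 : u ≤ 2 := by
      rw [hu, div_le_iff₀ hD0]
      have h1 : (k : ℝ) ≤ 2 * D / N := hkq.trans hq1
      rw [le_div_iff₀ hN0] at h1
      exact h1
    have htu : t ≤ u := by
      rw [ht, hu]
      gcongr
      linarith
    have e1 : SS N D (((k - 1 : ℕ) : ℝ) * N / D) = SS N D t := by
      refine SS_floor hN' (by positivity) ht0 ?_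
      have a1 : ((k - 1 : ℕ) : ℝ) * N / D * D / N = ((k - 1 : ℕ) : ℝ) := by field_simp
      have a2 : t * D / N = k * D / (D + 1) := by
        rw [ht]
        field_simp
      rw [a1, Nat.floor_natCast, a2]
      symm
      rw [Nat.floor_eq_iff (by positivity), hcast]
      constructor
      · rw [le_div_iff₀ (by positivity)]
        nlinarith
      · rw [div_lt_iff₀ (by positivity)]
        nlinarith
    have e2 : SS N (D + 1) t = SS N (D + 1) u := by
      refine SS_floor hN' ht0 hu0 ?_
      have a1 : t * ((D + 1 : ℕ) : ℝ) / N = k := by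
        rw [ht]
        push_cast
        field_simp
      have a2 : u * ((D + 1 : ℕ) : ℝ) / N = k * (D + 1) / D := by
        rw [hu]
        push_cast
        field_simp
      rw [a1, Nat.floor_natCast, a2]
      symm
      rw [Nat.floor_eq_iff (by positivity)]
      constructor
      · rw [le_div_iff₀ hD0]
        nlinarith
      · rw [div_lt_iff₀ hD0]
        nlinarith
    have b1 := hcon t ht0 (htu.trans hu2)
    have b2 := hcon u hu0 hu2
    rw [abs_le] at b1 b2
    rw [e1]
    rw [e2] at b1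
    linarith [b1.1, b1.2, b2.1, b2.2]
  -- summation
  have tele : ∀ k, k ≤ q → SS N D 0 - SS N D ((k : ℝ) * N / D) ≤ 2 * δ * k := by
    intro k
    induction k with
    | zero =>
      intro _
      simp
    | succ k ih =>
      intro hk
      have h1 := ih (by omega)
      have h2 := step (k + 1) (by omega) hk
      have e : k + 1 - 1 = k := by omega
      rw [e] at h2
      push_cast at h2 ⊢
      linarith
  have h1 := tele q le_rfl
  rw [SS_zero hN' hD] at h1
  have h2 := SS_pack hN' hD (s := (q : ℝ) * N / D) (by positivity)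
  have a1 : (q : ℝ) * N / D * D / N = q := by field_simp
  rw [a1, Nat.floor_natCast] at h2
  have h3 : 2 * (D : ℝ) < N * (q + 1) := by
    rw [div_lt_iff₀ hN0] at hq2
    linarith
  have h4 : 2 * δ * q ≤ 1 / 2 := by
    calc 2 * δ * q ≤ 2 * δ * (2 * D / N) :=
          mul_le_mul_of_nonneg_left hq1 (by positivity)
      _ = 1 / 2 := by
          rw [hδ]
          field_simp
          norm_num
  have h5 : (1 : ℝ) / 2 ≤ SS N D ((q : ℝ) * N / D) := by linarith
  have h6 : (1 : ℝ) / 2 * (N * (q + 1)) ≤ SS N D ((q : ℝ) * N / D) * (N * (q + 1)) :=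
    mul_le_mul_of_nonneg_right h5 (by positivity)
  linarith

end

end Pool.Agent.H481.AC
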