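import Pool.Agent.H481.AC10

/-!
The tail of the spacing distribution, and a bound which is uniform in the length.
-/

open Finset MeasureTheory
open Pool.Agent.R319.UM

namespace Pool.Agent.H481.AC

noncomputable section

variable {N : ℕ}

/-- no point in the arc -/
def phi (ℓ : ℝ) (w : ℂ) : ℝ := by
  classical
  exact if 0 < an w ∧ an w ≤ ℓ then 0 else 1

lemma gaps_up (ℓ : ℝ) (z : Fin N → ℂ) :
    (longGaps ℓ z : ℝ) ≤ ∑ j, ∏ i ∈ univ.erase j, phi ℓ (z i * (starRingEnd ℂ) (z j)) := by
  classical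
  have hcard : (longGaps ℓ z : ℝ) = ∑ j, if ((∀ i, i < j → z i ≠ z j) ∧
      ∀ i, ℓ < ang (z i * (starRingEnd ℂ) (z j))) then (1 : ℝ) else 0 := by
    unfold longGaps
    rw [Finset.card_filter]
    push_cast
    rfl
  rw [hcard]
  refine Finset.sum_le_sum fun j _ => ?_
  split_ifs with h
  · refine le_of_eq (Finset.prod_eq_one fun i hi => ?_).symm
    unfold phi
    rw [if_neg]
    rintro ⟨h2, h3⟩
    have h4 := h.2 i
    rw [ang_eq h2] at h4
    linarith
  · refine Finset.prod_nonneg fun i _ => ?_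
    unfold phi
    split_ifs <;> norm_num

lemma an_of_ang {u : ℂ} (h : ang u < 2 * Real.pi) : 0 < an u ∧ an u = ang u := by
  unfold ang an at *
  have hp := Complex.neg_pi_lt_arg u
  have hpi := Real.pi_pos
  by_cases h0 : 0 < u.arg
  · rw [if_pos h0, if_pos h0.le]
    exact ⟨h0, rfl⟩
  · rw [if_neg h0] at h ⊢
    have h1 : ¬ 0 ≤ u.arg := by
      intro h2
      linarith
    rw [if_neg h1]
    exact ⟨by linarith, rfl⟩

lemma count_lower {K : ℕ} (hN : 0 < N) {s : ℝ} (hs : 0 ≤ s) (hsN : s < N) (u : Fin K) :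
    ∑ x : Fin K, phi (2 * Real.pi * s / N) (rt K x * (starRingEnd ℂ) (rt K u)) ≤
      K * (1 - s / N + 1 / K) := by
  classical
  have hpi := Real.pi_pos
  have hN0 : (0 : ℝ) < N := by exact_mod_cast hN
  have hK : 0 < K := u.pos
  have hK0 : (0 : ℝ) < K := by exact_mod_cast hK
  set q := ⌊s * K / N⌋₊ with hq
  have hq1 : (q : ℝ) ≤ s * K / N := Nat.floor_le (by positivity)
  have hq2 : s * K / N < q + 1 := Nat.lt_floor_add_one _
  have hqK : q < K := by
    rw [hq, Nat.floor_lt (by positivity), div_lt_iff₀ hN0]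
    nlinarith
  set A : Finset (Fin K) := univ.filter fun x => 0 < an (rt K x * (starRingEnd ℂ) (rt K u)) ∧
    an (rt K x * (starRingEnd ℂ) (rt K u)) ≤ 2 * Real.pi * s / N with hA
  have h1 : (range q).card ≤ A.card := by
    refine Finset.card_le_card_of_injOn
      (fun c => (⟨((u : ℕ) + c + 1) % K, Nat.mod_lt _ hK⟩ : Fin K)) ?_ ?_
    · intro c hc
      rw [Finset.mem_coe, mem_range] at hc
      beta_reduce
      set x : Fin K := ⟨((u : ℕ) + c + 1) % K, Nat.mod_lt _ hK⟩ with hx
      have hcc : cc x u = c + 1 := by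
        have hu := u.2
        have hxv : (x : ℕ) = ((u : ℕ) + c + 1) % K := rfl
        unfold cc
        rcases lt_or_ge ((u : ℕ) + c + 1) K with h | h
        · rw [Nat.mod_eq_of_lt h] at hxv
          rw [if_pos (by omega)]
          omega
        · have h2 : ((u : ℕ) + c + 1) % K = (u : ℕ) + c + 1 - K := by
            rw [Nat.mod_eq_sub_mod h, Nat.mod_eq_of_lt (by omega)]
          rw [h2] at hxv
          rw [if_neg (by omega)]
          omega
      have hang := ang_rt x u
      rw [hcc] at hang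
      have hcq : ((c + 1 : ℕ) : ℝ) ≤ q := by exact_mod_cast hc
      have hqK' : (q : ℝ) < K := by exact_mod_cast hqK
      have hlt : ang (rt K x * (starRingEnd ℂ) (rt K u)) < 2 * Real.pi := by
        rw [hang, div_lt_iff₀ hK0]
        exact mul_lt_mul_of_pos_left (by linarith) (by positivity)
      obtain ⟨a1, a2⟩ := an_of_ang hlt
      rw [hA, Finset.mem_coe, Finset.mem_filter]
      refine ⟨Finset.mem_univ _, a1, ?_⟩
      rw [a2, hang, div_le_div_iff₀ hK0 hN0]
      have h3 : ((c + 1 : ℕ) : ℝ) ≤ s * K / N := hcq.trans hq1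
      rw [le_div_iff₀ hN0] at h3
      nlinarith
    · intro c hc c' hc' heq
      rw [Finset.mem_coe, mem_range] at hc hc'
      have h2 : ((u : ℕ) + c + 1) % K = ((u : ℕ) + c' + 1) % K := congrArg Fin.val heq
      have h3 : ((u : ℕ) + 1 + c) % K = ((u : ℕ) + 1 + c') % K := by
        have e1 : (u : ℕ) + 1 + c = (u : ℕ) + c + 1 := by ring
        have e2 : (u : ℕ) + 1 + c' = (u : ℕ) + c' + 1 := by ring
        rw [e1, e2, h2]
      have h4 := Nat.ModEq.add_left_cancel' ((u : ℕ) + 1) (show Nat.ModEq K ((u : ℕ) + 1 + c)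
          ((u : ℕ) + 1 + c') from h3)
      unfold Nat.ModEq at h4
      rw [Nat.mod_eq_of_lt (by omega), Nat.mod_eq_of_lt (by omega)] at h4
      exact h4
  rw [card_range] at h1
  have h2 : ∑ x : Fin K, phi (2 * Real.pi * s / N) (rt K x * (starRingEnd ℂ) (rt K u)) =
      K - A.card := by
    have h3 : ∀ x : Fin K, phi (2 * Real.pi * s / N) (rt K x * (starRingEnd ℂ) (rt K u)) =
        1 - if (0 < an (rt K x * (starRingEnd ℂ) (rt K u)) ∧
          an (rt K x * (starRingEnd ℂ) (rt K u)) ≤ 2 * Real.pi * s / N) then (1 : ℝ) else 0 := by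
      intro x
      unfold phi
      split_ifs <;> norm_num
    simp only [h3]
    rw [Finset.sum_sub_distrib, hA, Finset.card_filter]
    push_cast
    simp
  rw [h2]
  have h3 : (q : ℝ) ≤ A.card := by exact_mod_cast h1
  have e : (K : ℝ) * (1 - s / N + 1 / K) = K - s * K / N + 1 := by
    field_simp
  rw [e]
  linarith

/-- the tail of the spacing distribution on the grid -/
theorem tail {K : ℕ} (hN : 0 < N) (hK : N ≤ K) {s : ℝ} (hs : 0 ≤ s) :
    SS N K s ≤ Real.exp (2 - s) := by
  have hN0 : (0 : ℝ) < N := by exact_mod_cast hN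
  have hK' : 0 < K := by omega
  have hK0 : (0 : ℝ) < K := by exact_mod_cast hK'
  have hNK : (N : ℝ) ≤ K := by exact_mod_cast hK
  by_cases hsN : s < N
  · have h1 := seen hN hK' (phi (2 * Real.pi * s / N)) (fun w _ => by
      unfold phi
      split_ifs <;> norm_num) (c := 1 - s / N + 1 / K) (count_lower hN hs hsN)
    have h2 : (∫ z, (longGaps (2 * Real.pi * s / N) z : ℝ) ∂(SG.glaw N K)) ≤
        N * (1 - s / N + 1 / K + 1 / N) ^ N := by
      refine le_trans ?_ h1
      unfold SG.glaw
      rw [IN.fl_int (SG.gw_nonneg K)]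
      refine Finset.sum_le_sum fun k _ => ?_
      rw [smul_eq_mul]
      exact mul_le_mul_of_nonneg_left (gaps_up _ _) (SG.gw_nonneg K k)
    unfold SS
    rw [div_le_iff₀ hN0]
    refine h2.trans ?_
    rw [mul_comm]
    refine mul_le_mul_of_nonneg_right ?_ hN0.le
    have h3 : 1 - s / N + 1 / K + 1 / N ≤ Real.exp (-(s / N) + 1 / K + 1 / N) := by
      have := Real.add_one_le_exp (-(s / N) + 1 / K + 1 / N)
      linarith
    have hb : 0 ≤ 1 - s / N + 1 / K + 1 / N := by
      have : s / N ≤ 1 := by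
        rw [div_le_one hN0]
        exact hsN.le
      have h4 : (0 : ℝ) ≤ 1 / K := by positivity
      have h5 : (0 : ℝ) ≤ 1 / N := by positivity
      linarith
    calc (1 - s / N + 1 / K + 1 / N) ^ N ≤ (Real.exp (-(s / N) + 1 / K + 1 / N)) ^ N :=
          pow_le_pow_left₀ hb h3 N
      _ = Real.exp (N * (-(s / N) + 1 / K + 1 / N)) := (Real.exp_nat_mul _ _).symm
      _ ≤ _ := by
          refine Real.exp_le_exp.2 ?_
          have e : (N : ℝ) * (-(s / N) + 1 / K + 1 / N) = -s + N / K + 1 := by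
            field_simp
          rw [e]
          have : (N : ℝ) / K ≤ 1 := by
            rw [div_le_one hK0]
            exact hNK
          linarith
  · push Not at hsN
    unfold SS
    simp only [longGaps_zero hN hsN, Nat.cast_zero, integral_zero, zero_div]
    positivity

lemma longGaps_anti {ℓ ℓ' : ℝ} (h : ℓ ≤ ℓ') (z : Fin N → ℂ) : longGaps ℓ' z ≤ longGaps ℓ z := by
  classical
  unfold longGaps
  refine Finset.card_le_card fun j hj => ?_
  rw [Finset.mem_filter] at hj ⊢
  exact ⟨hj.1, hj.2.1, fun i => lt_of_le_of_lt h (hj.2.2 i)⟩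

/-- **the uniform bound** -/
theorem uniform (hN : 0 < N) {R : ℕ} (hR : 0 < R) {s : ℝ} (hs : 0 ≤ s)
    (ν : Measure (Fin N → ℂ)) (hν : IsProbabilityMeasure ν)
    (h1 : ∀ᵐ z ∂ν, ∀ i, ‖z i‖ = 1)
    (hm : ∀ F G : MvPolynomial (Fin N) ℂ, F.totalDegree ≤ R → G.totalDegree ≤ R →
      ∫ z, MvPolynomial.eval z F * (starRingEnd ℂ) (MvPolynomial.eval z G) ∂ν =
        cue (fun z => MvPolynomial.eval z F * (starRingEnd ℂ) (MvPolynomial.eval z G)))
    (ν' : Measure (Fin N → ℂ)) (hν' : IsProbabilityMeasure ν')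
    (h1' : ∀ᵐ z ∂ν', ∀ i, ‖z i‖ = 1)
    (hm' : ∀ F G : MvPolynomial (Fin N) ℂ, F.totalDegree ≤ R → G.totalDegree ≤ R →
      ∫ z, MvPolynomial.eval z F * (starRingEnd ℂ) (MvPolynomial.eval z G) ∂ν' =
        cue (fun z => MvPolynomial.eval z F * (starRingEnd ℂ) (MvPolynomial.eval z G))) :
    |(∫ z, (longGaps (2 * Real.pi * s / N) z : ℝ) ∂ν) / N -
      (∫ z, (longGaps (2 * Real.pi * s / N) z : ℝ) ∂ν') / N| ≤
        16010 * ((N : ℝ) / R) ^ (1 / 5 : ℝ) := by
  have hN0 : (0 : ℝ) < N := by exact_mod_cast hN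
  have hR0 : (0 : ℝ) < R := by exact_mod_cast hR
  have hpi := Real.pi_pos
  set x : ℝ := (N : ℝ) / R with hx
  have hx0 : 0 < x := by positivity
  by_cases hx1 : x < 1
  · set s₀ : ℝ := -Real.log x / 5 with hs₀
    have hlog : Real.log x < 0 := Real.log_neg hx0 hx1
    have hs₀0 : 0 ≤ s₀ := by
      rw [hs₀]
      linarith
    have e1 : Real.exp (-s₀) = x ^ (1 / 5 : ℝ) := by
      rw [hs₀, Real.rpow_def_of_pos hx0]
      congr 1
      ring
    have e2 : Real.exp (4 * s₀) * x = x ^ (1 / 5 : ℝ) := by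
      rw [hs₀, Real.rpow_def_of_pos hx0]
      conv_lhs => rw [← Real.exp_log hx0]
      rw [Real.log_exp, ← Real.exp_add]
      congr 1
      ring
    have hy0 : 0 < x ^ (1 / 5 : ℝ) := Real.rpow_pos_of_pos hx0 _
    rcases le_or_gt s s₀ with h | h
    · have h2 := upper hN hR hs ν hν h1 hm ν' hν' h1' hm'
      refine h2.trans ?_
      have h3 : Real.exp (4 * s) ≤ Real.exp (4 * s₀) := Real.exp_le_exp.2 (by linarith)
      calc 16000 * Real.exp (4 * s) * x ≤ 16000 * (Real.exp (4 * s₀) * x) := by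
            rw [mul_assoc]
            gcongr
        _ = 16000 * x ^ (1 / 5 : ℝ) := by rw [e2]
        _ ≤ _ := by
            refine mul_le_mul_of_nonneg_right (by norm_num) hy0.le
    · have key : ∀ μ : Measure (Fin N → ℂ), IsProbabilityMeasure μ →
          (∀ᵐ z ∂μ, ∀ i, ‖z i‖ = 1) →
          (∀ F G : MvPolynomial (Fin N) ℂ, F.totalDegree ≤ R → G.totalDegree ≤ R →
          ∫ z, MvPolynomial.eval z F * (starRingEnd ℂ) (MvPolynomial.eval z G) ∂μ =
            cue (fun z => MvPolynomial.eval z F * (starRingEnd ℂ) (MvPolynomial.eval z G))) →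
          0 ≤ (∫ z, (longGaps (2 * Real.pi * s / N) z : ℝ) ∂μ) / N ∧
          (∫ z, (longGaps (2 * Real.pi * s / N) z : ℝ) ∂μ) / N ≤
            16010 * x ^ (1 / 5 : ℝ) := by
        intro μ hμ m1 mm
        refine ⟨(share_bound hN _ μ hμ).1, ?_⟩
        have hle : (∫ z, (longGaps (2 * Real.pi * s / N) z : ℝ) ∂μ) / N ≤
            (∫ z, (longGaps (2 * Real.pi * s₀ / N) z : ℝ) ∂μ) / N := by
          refine div_le_div_of_nonneg_right ?_ hN0.le
          refine integral_mono (longGaps_int _ μ) (longGaps_int _ μ) fun z => ?_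
          have h3 : 2 * Real.pi * s₀ / N ≤ 2 * Real.pi * s / N := by
            rw [div_le_div_iff_of_pos_right hN0]
            exact mul_le_mul_of_nonneg_left h.le (by positivity)
          have h4 := longGaps_anti h3 z
          beta_reduce
          exact_mod_cast h4
        have h2 := upper hN hR hs₀0 μ hμ m1 mm (SG.glaw N (N + R))
          (SG.glaw_prob hN (by omega)) (SG.glaw_unit _)
          (fun F G hF hG => SG.glaw_mom hN le_rfl F G hF hG)
        have h3 := tail (N := N) (K := N + R) hN (by omega) hs₀0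
        unfold SS at h3
        have e3 : Real.exp (2 - s₀) = Real.exp 2 * x ^ (1 / 5 : ℝ) := by
          rw [← e1, ← Real.exp_add]
          congr 1
        have e4 : 16000 * Real.exp (4 * s₀) * (N / R) = 16000 * x ^ (1 / 5 : ℝ) := by
          rw [← e2]
          ring
        rw [e4, abs_le] at h2
        rw [e3] at h3
        have h5 : Real.exp 2 ≤ 10 := by
          have he := Real.exp_one_lt_d9
          have he0 := Real.exp_pos 1
          have h6 : Real.exp 2 = Real.exp 1 ^ 2 := by
            rw [← Real.exp_nat_mul]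
            norm_num
          rw [h6]
          nlinarith
        have h6 := mul_le_mul_of_nonneg_right h5 hy0.le
        linarith [h2.2]
      obtain ⟨a1, a2⟩ := key ν hν h1 hm
      obtain ⟨b1, b2⟩ := key ν' hν' h1' hm'
      rw [abs_le]
      constructor <;> linarith
  · push Not at hx1
    have hy : 1 ≤ x ^ (1 / 5 : ℝ) := Real.one_le_rpow hx1 (by norm_num)
    obtain ⟨a1, a2⟩ := share_bound hN (2 * Real.pi * s / N) ν hν
    obtain ⟨b1, b2⟩ := share_bound hN (2 * Real.pi * s / N) ν' hν'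
    rw [abs_le]
    constructor <;> linarith

end

end Pool.Agent.H481.AC
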