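import Pool.Agent.H481.AC1

/-!
Selberg's majorant of an arc between two nodes: the trigonometric polynomial and its closed form.
-/

open Finset MeasureTheory
open Pool.Agent.R319.UM

namespace Pool.Agent.H481.AC

noncomputable section

lemma LP.mono {n n' : ℕ} (h : n ≤ n') {μ : ℂ} {f : ℂ → ℂ} (hf : LP n μ f) : LP n' μ f := by
  obtain ⟨a, b, h1, h2⟩ := hf
  refine ⟨fun k => if k ≤ n then a k else 0, fun k => if k ≤ n then b k else 0, by simpa using h1,
    fun w hw => ?_⟩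
  rw [h2 w hw]
  have hsub : range (n + 1) ⊆ range (n' + 1) := Finset.range_subset_range.2 (by omega)
  rw [← Finset.sum_subset hsub]
  · refine Finset.sum_congr rfl fun k hk => ?_
    rw [mem_range] at hk
    beta_reduce
    rw [if_pos (by omega), if_pos (by omega)]
  · intro k _ hk
    rw [mem_range] at hk
    beta_reduce
    rw [if_neg (by omega), if_neg (by omega)]
    ring

lemma LP.star {n : ℕ} {μ : ℂ} {f : ℂ → ℂ} (hf : LP n μ f) :
    LP n μ (fun w => f ((starRingEnd ℂ) w)) := by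
  obtain ⟨a, b, h1, h2⟩ := hf
  refine ⟨b, a, by rw [← h1]; ring, fun w hw => ?_⟩
  beta_reduce
  rw [h2 _ (by rw [Complex.norm_conj, hw]), Complex.conj_conj]
  exact Finset.sum_congr rfl fun k _ => by ring

/-- the geometric sum -/
def Dn (n : ℕ) (w : ℂ) : ℂ := ∑ j ∈ range n, w ^ j

/-- Fejér's kernel -/
def Ph (n : ℕ) (w : ℂ) : ℂ := ((n : ℂ) ^ 2)⁻¹ * (Dn n w * (starRingEnd ℂ) (Dn n w))

/-- the conjugate part -/
def Kf (n : ℕ) (w : ℂ) : ℂ :=
  -(Complex.I / 4) * ((w + 1) * Dn n w * (1 - (starRingEnd ℂ) w ^ n))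

/-- the primitive root -/
def ze (n : ℕ) : ℂ := Complex.exp (2 * Real.pi * Complex.I / n)

lemma ze_norm (n : ℕ) : ‖ze n‖ = 1 := by
  unfold ze
  have : (2 * Real.pi * Complex.I / n : ℂ) = ((2 * Real.pi / n : ℝ) : ℂ) * Complex.I := by
    push_cast
    ring
  rw [this, Complex.norm_exp_ofReal_mul_I]

/-- Selberg's majorant of the arc from `1` to the `p`-th node -/
def Vs (n p : ℕ) (w : ℂ) : ℂ :=
  ∑ k ∈ range (p + 1), Ph n (w * (starRingEnd ℂ) (ze n) ^ k) +
    ((Real.pi : ℂ) * n)⁻¹ * (Kf n w + (-1) * Kf n (w * (starRingEnd ℂ) (ze n) ^ p))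

lemma Ph_lp' {n : ℕ} (hn : 1 ≤ n) : LP (n - 1) ((n : ℂ)⁻¹) (Ph n) := by
  have h : LP (n - 1) (∑ j ∈ range n, ∑ l ∈ range n, if j = l then 1 else 0)
      (fun w => ∑ j ∈ range n, ∑ l ∈ range n, w ^ j * (starRingEnd ℂ) w ^ l) := by
    refine LP.sum _ _ _ fun j hj => LP.sum _ _ _ fun l hl => ?_
    rw [mem_range] at hj hl
    exact LP.mon _ _ _ (by omega) (by omega)
  have h2 := h.smul ((n : ℂ) ^ 2)⁻¹
  have hn0 : (n : ℂ) ≠ 0 := by
    have : n ≠ 0 := by omega
    exact_mod_cast this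
  have e : ((n : ℂ) ^ 2)⁻¹ * (∑ j ∈ range n, ∑ l ∈ range n, if j = l then (1 : ℂ) else 0) =
      (n : ℂ)⁻¹ := by
    have : ∑ j ∈ range n, ∑ l ∈ range n, (if j = l then (1 : ℂ) else 0) = n := by
      have h3 : ∀ j ∈ range n, ∑ l ∈ range n, (if j = l then (1 : ℂ) else 0) = 1 := by
        intro j hj
        rw [Finset.sum_ite_eq (range n) j, if_pos hj]
      rw [Finset.sum_congr rfl h3]
      simp
    rw [this]
    field_simp
  rw [e] at h2
  refine h2.congr fun w _ => ?_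
  unfold Ph Dn
  rw [map_sum, Finset.sum_mul_sum]
  simp only [map_pow]

lemma Ph_lp {n : ℕ} (hn : 1 ≤ n) : LP n ((n : ℂ)⁻¹) (Ph n) := (Ph_lp' hn).mono (by omega)

lemma Kf_lp {n : ℕ} (hn : 1 ≤ n) : LP n 0 (Kf n) := by
  have h : LP n (∑ j ∈ range n, (((if j + 1 = 0 then 1 else 0) + (if j = 0 then 1 else 0)) +
      (-1) * ((if j + 1 = n then 1 else 0) + (if j = n then 1 else 0))))
      (fun w => ∑ j ∈ range n, ((w ^ (j + 1) * (starRingEnd ℂ) w ^ 0 +
        w ^ j * (starRingEnd ℂ) w ^ 0) +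
        (-1) * (w ^ (j + 1) * (starRingEnd ℂ) w ^ n + w ^ j * (starRingEnd ℂ) w ^ n))) := by
    refine LP.sum _ _ _ fun j hj => ?_
    rw [mem_range] at hj
    exact ((LP.mon n (j + 1) 0 (by omega) (by omega)).add (LP.mon n j 0 (by omega) (by omega))).add
      (((LP.mon n (j + 1) n (by omega) le_rfl).add (LP.mon n j n (by omega) le_rfl)).smul (-1))
  have h2 := h.smul (-(Complex.I / 4))
  have e : (∑ j ∈ range n, (((if j + 1 = 0 then (1 : ℂ) else 0) + (if j = 0 then 1 else 0)) +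
      (-1) * ((if j + 1 = n then 1 else 0) + (if j = n then 1 else 0)))) = 0 := by
    rw [Finset.sum_add_distrib, Finset.sum_add_distrib, ← Finset.mul_sum, Finset.sum_add_distrib]
    have e1 : ∑ j ∈ range n, (if j + 1 = 0 then (1 : ℂ) else 0) = 0 :=
      Finset.sum_eq_zero fun j _ => if_neg (by omega)
    have e2 : ∑ j ∈ range n, (if j = 0 then (1 : ℂ) else 0) = 1 := by
      rw [Finset.sum_ite_eq' (range n) 0, if_pos (mem_range.2 (by omega))]
    have e3 : ∑ j ∈ range n, (if j + 1 = n then (1 : ℂ) else 0) = 1 := by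
      rw [Finset.sum_eq_single (n - 1)]
      · rw [if_pos (by omega)]
      · intro j _ hj
        rw [if_neg (by omega)]
      · intro h
        exact absurd (mem_range.2 (by omega)) h
    have e4 : ∑ j ∈ range n, (if j = n then (1 : ℂ) else 0) = 0 :=
      Finset.sum_eq_zero fun j hj => if_neg (by rw [mem_range] at hj; omega)
    rw [e1, e2, e3, e4]
    ring
  rw [e, mul_zero] at h2
  refine h2.congr fun w _ => ?_
  unfold Kf Dn
  rw [Finset.mul_sum, Finset.sum_mul]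
  congr 1
  refine Finset.sum_congr rfl fun j _ => ?_
  ring

lemma cpow_norm (n k : ℕ) : ‖(starRingEnd ℂ) (ze n) ^ k‖ = 1 := by
  rw [norm_pow, Complex.norm_conj, ze_norm, one_pow]

lemma Vs_lp {n : ℕ} (hn : 1 ≤ n) (p : ℕ) : LP n (((p : ℂ) + 1) / n) (Vs n p) := by
  have h1 : LP n (∑ _k ∈ range (p + 1), (n : ℂ)⁻¹)
      (fun w => ∑ k ∈ range (p + 1), Ph n (w * (starRingEnd ℂ) (ze n) ^ k)) :=
    LP.sum _ _ _ fun k _ => (Ph_lp hn).rot (cpow_norm n k)
  have h2 : LP n (((Real.pi : ℂ) * n)⁻¹ * (0 + (-1) * 0))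
      (fun w => ((Real.pi : ℂ) * n)⁻¹ * (Kf n w + (-1) * Kf n (w * (starRingEnd ℂ) (ze n) ^ p))) :=
    ((Kf_lp hn).add (((Kf_lp hn).rot (cpow_norm n p)).smul (-1))).smul _
  have h3 := h1.add h2
  have e : ∑ _k ∈ range (p + 1), (n : ℂ)⁻¹ + ((Real.pi : ℂ) * n)⁻¹ * (0 + (-1) * 0) =
      ((p : ℂ) + 1) / n := by
    rw [Finset.sum_const, card_range, nsmul_eq_mul]
    push_cast
    ring
  rw [e] at h3
  exact h3

/-- the sum over all the nodes -/
lemma Ph_sum {n : ℕ} (hn : 1 ≤ n) {w : ℂ} (hw : ‖w‖ = 1) :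
    ∑ k ∈ range n, Ph n (w * (starRingEnd ℂ) (ze n) ^ k) = 1 := by
  have h1 : LP (n - 1) ((n : ℂ)⁻¹) (fun u => Ph n ((starRingEnd ℂ) u * w)) :=
    ((Ph_lp' hn).rot hw).star
  have h2 := h1.mean (K := n) (by omega)
  have hn0 : (n : ℂ) ≠ 0 := by
    have : n ≠ 0 := by omega
    exact_mod_cast this
  rw [mul_inv_cancel₀ hn0] at h2
  rw [← h2, ← Fin.sum_univ_eq_sum_range (fun k => Ph n (w * (starRingEnd ℂ) (ze n) ^ k)) n]
  refine Finset.sum_congr rfl fun x _ => ?_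
  unfold rt ze
  rw [map_pow, mul_comm]

/-! ### closed forms -/

/-- the point `e^{iy}` -/
def ee (y : ℝ) : ℂ := Complex.exp (Complex.I * y)

lemma ee_norm (y : ℝ) : ‖ee y‖ = 1 := by
  unfold ee
  rw [mul_comm, Complex.norm_exp_ofReal_mul_I]

lemma ee_add (x y : ℝ) : ee (x + y) = ee x * ee y := by
  unfold ee
  rw [← Complex.exp_add]
  congr 1
  push_cast
  ring

lemma ee_conj (y : ℝ) : (starRingEnd ℂ) (ee y) = ee (-y) := by
  unfold ee
  rw [← Complex.exp_conj]
  congr 1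
  simp

lemma ee_pow (y : ℝ) (n : ℕ) : ee y ^ n = ee (n * y) := by
  unfold ee
  rw [← Complex.exp_nat_mul]
  congr 1
  push_cast
  ring

lemma ee_half (y : ℝ) : ee y = ee (y / 2) * ee (y / 2) := by
  rw [← ee_add]
  congr 1
  ring

lemma ee_eq (y : ℝ) : ee y = Real.cos y + Real.sin y * Complex.I := by
  unfold ee
  rw [mul_comm, Complex.exp_mul_I, Complex.ofReal_cos, Complex.ofReal_sin]

lemma ee_inv (y : ℝ) : ee y * ee (-y) = 1 := by
  rw [← ee_add]
  unfold ee
  simp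

lemma ee_sub_one (y : ℝ) : ee y - 1 = ee (y / 2) * (2 * Complex.I * Real.sin (y / 2)) := by
  have h1 := ee_inv (y / 2)
  have h2 : ee (y / 2) - ee (-(y / 2)) = 2 * Complex.I * Real.sin (y / 2) := by
    rw [ee_eq, ee_eq, Real.cos_neg, Real.sin_neg]
    push_cast
    ring
  rw [← h2, ee_half y]
  linear_combination h1

lemma ee_add_one (y : ℝ) : ee y + 1 = ee (y / 2) * (2 * Real.cos (y / 2)) := by
  have h1 := ee_inv (y / 2)
  have h2 : ee (y / 2) + ee (-(y / 2)) = 2 * Real.cos (y / 2) := by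
    rw [ee_eq, ee_eq, Real.cos_neg, Real.sin_neg]
    push_cast
    ring
  rw [← h2, ee_half y]
  linear_combination -h1

lemma ee_ne (y : ℝ) : ee y ≠ 0 := Complex.exp_ne_zero _

lemma normSq_sub_one (y : ℝ) :
    (ee y - 1) * (starRingEnd ℂ) (ee y - 1) = ((4 * Real.sin (y / 2) ^ 2 : ℝ) : ℂ) := by
  rw [ee_sub_one, map_mul, map_mul, map_mul, Complex.conj_I, Complex.conj_ofReal, ee_conj]
  have h1 := ee_inv (y / 2)
  have h2 : (starRingEnd ℂ) 2 = 2 := by
    have := Complex.conj_ofReal 2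
    push_cast at this
    exact this
  rw [h2]
  push_cast
  have hI : Complex.I * Complex.I = -1 := Complex.I_mul_I
  linear_combination (-(4 : ℂ) * Complex.I * Complex.I * Complex.sin (y / 2) ^ 2) * h1 -
    (4 : ℂ) * Complex.sin (y / 2) ^ 2 * hI

/-- Fejér's kernel in real form -/
def PR (n : ℕ) (y : ℝ) : ℝ :=
  if Real.sin (y / 2) = 0 then 1 else Real.sin (n * y / 2) ^ 2 / (n ^ 2 * Real.sin (y / 2) ^ 2)

/-- the conjugate part in real form -/
def KR (n : ℕ) (y : ℝ) : ℝ := Real.sin (n * y / 2) ^ 2 * (Real.cos (y / 2) / Real.sin (y / 2))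

lemma sin_zero_ee {y : ℝ} (h : Real.sin (y / 2) = 0) : ee y = 1 := by
  have := ee_sub_one y
  rw [h] at this
  push_cast at this
  rw [mul_zero, mul_zero] at this
  exact sub_eq_zero.1 this

lemma Ph_val {n : ℕ} (hn : 1 ≤ n) (y : ℝ) : Ph n (ee y) = PR n y := by
  have hn0 : (n : ℂ) ≠ 0 := by
    have : n ≠ 0 := by omega
    exact_mod_cast this
  unfold PR
  split_ifs with h
  · rw [sin_zero_ee h]
    unfold Ph Dn
    simp only [one_pow, Finset.sum_const, card_range, nsmul_eq_mul, mul_one, Complex.conj_natCast]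
    push_cast
    field_simp
  · have h1 : Dn n (ee y) * (ee y - 1) = ee y ^ n - 1 := geom_sum_mul _ _
    have h2 : (Dn n (ee y) * (starRingEnd ℂ) (Dn n (ee y))) *
        ((ee y - 1) * (starRingEnd ℂ) (ee y - 1)) =
        (ee y ^ n - 1) * (starRingEnd ℂ) (ee y ^ n - 1) := by
      rw [← h1, map_mul]
      ring
    rw [ee_pow, normSq_sub_one, normSq_sub_one] at h2
    have hs : ((Real.sin (y / 2) : ℝ) : ℂ) ≠ 0 := by exact_mod_cast h
    unfold Ph
    push_cast at h2 ⊢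
    push_cast at hs
    rw [eq_div_iff (mul_ne_zero (pow_ne_zero 2 hn0) (pow_ne_zero 2 hs))]
    field_simp
    linear_combination h2 / 4

lemma Kf_val (n : ℕ) (y : ℝ) : Kf n (ee y) = KR n y := by
  unfold KR
  by_cases h : Real.sin (y / 2) = 0
  · rw [sin_zero_ee h, h]
    unfold Kf
    simp
  · have h1 : Dn n (ee y) * (ee y - 1) = ee y ^ n - 1 := geom_sum_mul _ _
    have h2 := normSq_sub_one (n * y)
    rw [← ee_pow, map_sub, map_pow, map_one] at h2
    have h3 : Kf n (ee y) * (ee y - 1) =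
        Complex.I * (ee y + 1) * ((Real.sin (n * y / 2) ^ 2 : ℝ) : ℂ) := by
      have : Kf n (ee y) * (ee y - 1) = -(Complex.I / 4) * (ee y + 1) *
          ((Dn n (ee y) * (ee y - 1)) * (1 - (starRingEnd ℂ) (ee y) ^ n)) := by
        unfold Kf
        ring
      rw [this, h1]
      push_cast at h2 ⊢
      linear_combination (Complex.I / 4) * (ee y + 1) * h2
    rw [ee_sub_one, ee_add_one] at h3
    have hs : ((Real.sin (y / 2) : ℝ) : ℂ) ≠ 0 := by exact_mod_cast h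
    have h4 : Kf n (ee y) * (Real.sin (y / 2) : ℝ) =
        (Real.cos (y / 2) : ℝ) * ((Real.sin (n * y / 2) ^ 2 : ℝ) : ℂ) := by
      have h5 : (2 * Complex.I * ee (y / 2)) * (Kf n (ee y) * (Real.sin (y / 2) : ℝ)) =
          (2 * Complex.I * ee (y / 2)) * ((Real.cos (y / 2) : ℝ) *
            ((Real.sin (n * y / 2) ^ 2 : ℝ) : ℂ)) := by
        linear_combination h3
      exact mul_left_cancel₀ (mul_ne_zero (mul_ne_zero two_ne_zero Complex.I_ne_zero)
        (ee_ne _)) h5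
    rw [← eq_div_iff hs] at h4
    rw [h4]
    push_cast
    ring

/-- the majorant in real form -/
def VR (n p : ℕ) (x : ℝ) : ℝ :=
  ∑ k ∈ range (p + 1), PR n (x - 2 * Real.pi * k / n) +
    (Real.pi * n)⁻¹ * (KR n x - KR n (x - 2 * Real.pi * p / n))

lemma ze_eq (n : ℕ) : ze n = ee (2 * Real.pi / n) := by
  unfold ze ee
  congr 1
  push_cast
  ring

lemma shift_eq (n k : ℕ) (x : ℝ) :
    ee x * (starRingEnd ℂ) (ze n) ^ k = ee (x - 2 * Real.pi * k / n) := by
  rw [ze_eq, ee_conj, ee_pow, ← ee_add]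
  congr 1
  ring

lemma Vs_val {n : ℕ} (hn : 1 ≤ n) (p : ℕ) (x : ℝ) : Vs n p (ee x) = VR n p x := by
  unfold Vs VR
  simp only [shift_eq, Ph_val hn, Kf_val]
  push_cast
  ring

lemma PR_sum {n : ℕ} (hn : 1 ≤ n) (x : ℝ) :
    ∑ k ∈ range n, PR n (x - 2 * Real.pi * k / n) = 1 := by
  have h := Ph_sum hn (ee_norm x)
  simp only [shift_eq, Ph_val hn] at h
  exact_mod_cast h

end

end Pool.Agent.H481.AC
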