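import Pool.Agent.H481.AC2

/-!
Selberg's majorant of an arc between two nodes: the inequalities.
-/

open Finset

namespace Pool.Agent.H481.AC

noncomputable section

/-- the cotangent -/
def ct (u : ℝ) : ℝ := Real.cos u / Real.sin u

/-- the square of the cosecant -/
def cs (u : ℝ) : ℝ := 1 / Real.sin u ^ 2

lemma ct_sub {a b : ℝ} (ha : Real.sin a ≠ 0) (hb : Real.sin b ≠ 0) :
    ct a - ct b = Real.sin (b - a) / (Real.sin a * Real.sin b) := by
  unfold ct
  rw [Real.sin_sub]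
  field_simp

lemma ct_anti {a b : ℝ} (ha : 0 < a) (hab : a ≤ b) (hb : b < Real.pi) : ct b ≤ ct a := by
  have h1 : 0 < Real.sin a := Real.sin_pos_of_pos_of_lt_pi ha (by linarith)
  have h2 : 0 < Real.sin b := Real.sin_pos_of_pos_of_lt_pi (by linarith) hb
  have h3 := ct_sub h1.ne' h2.ne'
  have h4 : 0 ≤ Real.sin (b - a) := Real.sin_nonneg_of_nonneg_of_le_pi (by linarith) (by linarith)
  have h5 : 0 ≤ ct a - ct b := by
    rw [h3]
    positivity
  linarith

lemma trap {a b : ℝ} (hb : 0 < b) (hab : b ≤ a) (ha : a < Real.pi) :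
    ct b - ct a ≤ (a - b) / 2 * (cs a + cs b) := by
  have h1 : 0 < Real.sin a := Real.sin_pos_of_pos_of_lt_pi (by linarith) ha
  have h2 : 0 < Real.sin b := Real.sin_pos_of_pos_of_lt_pi hb (by linarith)
  rw [ct_sub h2.ne' h1.ne']
  have h4 : Real.sin (a - b) ≤ a - b := Real.sin_le (by linarith)
  have h5 : 2 * (1 / Real.sin b * (1 / Real.sin a)) ≤ cs a + cs b := by
    unfold cs
    have := sq_nonneg (1 / Real.sin a - 1 / Real.sin b)
    have e1 : 1 / Real.sin a ^ 2 = (1 / Real.sin a) ^ 2 := by rw [one_div_pow]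
    have e2 : 1 / Real.sin b ^ 2 = (1 / Real.sin b) ^ 2 := by rw [one_div_pow]
    rw [e1, e2]
    nlinarith
  calc Real.sin (a - b) / (Real.sin b * Real.sin a)
      ≤ (a - b) / (Real.sin b * Real.sin a) := by gcongr
    _ = (a - b) / 2 * (2 * (1 / Real.sin b * (1 / Real.sin a))) := by field_simp
    _ ≤ (a - b) / 2 * (cs a + cs b) := mul_le_mul_of_nonneg_left h5 (by linarith)

lemma mid {a δ : ℝ} (hδ : 0 ≤ δ) (h1 : δ < a) (h2 : a + δ < Real.pi) :
    2 * δ * cs a ≤ ct (a - δ) - ct (a + δ) := by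
  have ha : 0 < Real.sin a := Real.sin_pos_of_pos_of_lt_pi (by linarith) (by linarith)
  have hm : 0 < Real.sin (a - δ) := Real.sin_pos_of_pos_of_lt_pi (by linarith) (by linarith)
  have hp : 0 < Real.sin (a + δ) := Real.sin_pos_of_pos_of_lt_pi (by linarith) (by linarith)
  have hδ2 : δ < Real.pi / 2 := by linarith
  have hc : 0 < Real.cos δ := Real.cos_pos_of_mem_Ioo ⟨by linarith [Real.pi_pos], hδ2⟩
  have htan : δ * Real.cos δ ≤ Real.sin δ := by
    have h3 := Real.le_tan hδ hδ2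
    rw [Real.tan_eq_sin_div_cos, le_div_iff₀ hc] at h3
    exact h3
  rw [ct_sub hm.ne' hp.ne']
  have e1 : a + δ - (a - δ) = 2 * δ := by ring
  rw [e1]
  have e2 : Real.sin (a - δ) * Real.sin (a + δ) = Real.sin a ^ 2 - Real.sin δ ^ 2 := by
    rw [Real.sin_sub, Real.sin_add]
    have e3 := Real.sin_sq_add_cos_sq a
    have e4 := Real.sin_sq_add_cos_sq δ
    have e5 : Real.cos δ ^ 2 = 1 - Real.sin δ ^ 2 := by linarith
    have e6 : Real.cos a ^ 2 = 1 - Real.sin a ^ 2 := by linarith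
    ring_nf
    rw [e5, e6]
    ring
  have hD : 0 < Real.sin a ^ 2 - Real.sin δ ^ 2 := by rw [← e2]; positivity
  rw [e2, Real.sin_two_mul]
  unfold cs
  rw [mul_one_div, div_le_div_iff₀ (by positivity) hD]
  have e4 := Real.sin_sq_add_cos_sq δ
  have hs1 : Real.sin a ^ 2 ≤ 1 := Real.sin_sq_le_one a
  -- `sin² a (2δ - 2 sin δ cos δ) ≤ 2 δ sin² δ`
  have h5 : Real.sin δ * Real.cos δ ≤ δ := by
    have h6 : Real.sin δ ≤ δ := Real.sin_le hδ
    have h7 : Real.cos δ ≤ 1 := Real.cos_le_one δ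
    have h8 : 0 ≤ Real.sin δ := Real.sin_nonneg_of_nonneg_of_le_pi hδ (by linarith)
    nlinarith
  have h6 : Real.sin a ^ 2 * (δ - Real.sin δ * Real.cos δ) ≤ 1 * (δ - Real.sin δ * Real.cos δ) :=
    mul_le_mul_of_nonneg_right hs1 (by linarith)
  have h7 : δ * Real.cos δ * Real.cos δ ≤ Real.sin δ * Real.cos δ :=
    mul_le_mul_of_nonneg_right htan hc.le
  have h8 : δ * Real.cos δ * Real.cos δ = δ - δ * Real.sin δ ^ 2 := by
    have : Real.cos δ * Real.cos δ = 1 - Real.sin δ ^ 2 := by nlinarith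
    rw [mul_assoc, this]
    ring
  nlinarith

/-! ### the majorant -/

lemma PR_nonneg (n : ℕ) (y : ℝ) : 0 ≤ PR n y := by
  unfold PR
  split_ifs
  · norm_num
  · positivity

lemma sin_shift {n : ℕ} (hn : 1 ≤ n) (x : ℝ) (k : ℕ) :
    Real.sin (n * (x - 2 * Real.pi * k / n) / 2) ^ 2 = Real.sin (n * x / 2) ^ 2 := by
  have hn0 : (n : ℝ) ≠ 0 := by
    have : n ≠ 0 := by omega
    exact_mod_cast this
  have e : n * (x - 2 * Real.pi * k / n) / 2 = n * x / 2 - k * Real.pi := by
    field_simp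
  rw [e, Real.sin_sub_nat_mul_pi, mul_pow, ← pow_mul, mul_comm k 2, pow_mul]
  norm_num

lemma sin_half_zero {n : ℕ} (hn : 1 ≤ n) {x : ℝ} {k : ℕ}
    (h : Real.sin ((x - 2 * Real.pi * k / n) / 2) = 0) : Real.sin (n * x / 2) = 0 := by
  have h1 := sin_shift hn x k
  obtain ⟨m, hm⟩ := Real.sin_eq_zero_iff.1 h
  have e : n * (x - 2 * Real.pi * k / n) / 2 = ((n * m : ℤ) : ℝ) * Real.pi := by
    push_cast
    linear_combination (-(n : ℝ)) * hm
  rw [e, Real.sin_int_mul_pi] at h1
  have : Real.sin (n * x / 2) ^ 2 = 0 := by rw [← h1]; norm_num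
  exact pow_eq_zero_iff two_ne_zero |>.1 this

/-- the majorant at the nodes -/
lemma VR_node {n : ℕ} (hn : 1 ≤ n) (p : ℕ) {x : ℝ} (h : Real.sin (n * x / 2) = 0) :
    0 ≤ VR n p x ∧ (0 ≤ x → x ≤ 2 * Real.pi * p / n → 1 ≤ VR n p x) := by
  have hn0 : (0 : ℝ) < n := by exact_mod_cast hn
  have hK1 : KR n x = 0 := by
    unfold KR
    rw [h]
    ring
  have hK2 : KR n (x - 2 * Real.pi * p / n) = 0 := by
    unfold KR
    rw [sin_shift hn, h]
    ring
  unfold VR
  rw [hK1, hK2, sub_self, mul_zero, add_zero]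
  refine ⟨Finset.sum_nonneg fun k _ => PR_nonneg n _, fun h0 h1 => ?_⟩
  obtain ⟨m, hm⟩ := Real.sin_eq_zero_iff.1 h
  have hpi := Real.pi_pos
  have hx : x = 2 * Real.pi * m / n := by
    field_simp
    linarith
  have hm0 : 0 ≤ m := by
    by_contra hc
    push Not at hc
    have : (m : ℝ) < 0 := by exact_mod_cast hc
    have h2 : (m : ℝ) * Real.pi < 0 := mul_neg_of_neg_of_pos this hpi
    rw [hm] at h2
    have : 0 ≤ n * x / 2 := by positivity
    linarith
  have hmp : m ≤ p := by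
    rw [hx, div_le_div_iff_of_pos_right hn0] at h1
    have : (m : ℝ) ≤ p := le_of_mul_le_mul_left h1 (by positivity)
    exact_mod_cast this
  obtain ⟨k, rfl⟩ := Int.eq_ofNat_of_zero_le hm0
  have hk : k ∈ range (p + 1) := by
    rw [mem_range]
    have : k ≤ p := by exact_mod_cast hmp
    omega
  refine le_trans ?_ (Finset.single_le_sum (f := fun k : ℕ => PR n (x - 2 * Real.pi * k / n))
    (fun k _ => PR_nonneg n _) hk)
  have : x - 2 * Real.pi * k / n = 0 := by
    rw [hx]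
    push_cast
    ring
  rw [this]
  unfold PR
  simp

/-- the closed form away from the nodes -/
lemma VR_form {n : ℕ} (hn : 1 ≤ n) (p : ℕ) {x : ℝ} (h : Real.sin (n * x / 2) ≠ 0) :
    VR n p x = Real.sin (n * x / 2) ^ 2 * (((n : ℝ) ^ 2)⁻¹ *
      ∑ k ∈ range (p + 1), cs ((x - 2 * Real.pi * k / n) / 2) +
      (Real.pi * n)⁻¹ * (ct (x / 2) - ct ((x - 2 * Real.pi * p / n) / 2))) := by
  unfold VR KR
  rw [sin_shift hn]
  have h1 : ∀ k : ℕ, PR n (x - 2 * Real.pi * k / n) = Real.sin (n * x / 2) ^ 2 *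
      (((n : ℝ) ^ 2)⁻¹ * cs ((x - 2 * Real.pi * k / n) / 2)) := by
    intro k
    unfold PR cs
    rw [if_neg fun h2 => h (sin_half_zero hn h2), sin_shift hn]
    rw [div_eq_mul_inv, mul_inv, one_div]
  simp only [h1]
  rw [← Finset.mul_sum, ← Finset.mul_sum]
  unfold ct
  ring

/-- **outside the arc** -/
lemma VR_out {n : ℕ} (hn : 1 ≤ n) (p : ℕ) {x : ℝ} (h0 : 2 * Real.pi * p / n < x)
    (h1 : x < 2 * Real.pi) : 0 ≤ VR n p x := by
  by_cases h : Real.sin (n * x / 2) = 0
  · exact (VR_node hn p h).1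
  have hn0 : (0 : ℝ) < n := by exact_mod_cast hn
  have hpi := Real.pi_pos
  rw [VR_form hn p h]
  refine mul_nonneg (sq_nonneg _) ?_
  set g : ℕ → ℝ := fun k => cs ((x - 2 * Real.pi * k / n) / 2) with hg
  have hgn : ∀ k, 0 ≤ g k := fun k => by
    rw [hg]
    unfold cs
    positivity
  -- the telescoping inequality
  have key : ∀ q ≤ p, ct ((x - 2 * Real.pi * q / n) / 2) - ct (x / 2) ≤
      Real.pi / n * (∑ k ∈ range (q + 1), g k - g q / 2) := by
    intro q
    induction q with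
    | zero =>
      intro _
      have e : (x - 2 * Real.pi * (0 : ℕ) / n) / 2 = x / 2 := by push_cast; ring
      rw [e, sub_self, Finset.sum_range_one]
      have := hgn 0
      have h2 : 0 ≤ g 0 - g 0 / 2 := by linarith
      positivity
    | succ q ih =>
      intro hq
      have h2 := ih (by omega)
      have hqp : ((q + 1 : ℕ) : ℝ) ≤ p := by exact_mod_cast hq
      have hle : 2 * Real.pi * ((q + 1 : ℕ) : ℝ) / n ≤ 2 * Real.pi * p / n := by
        rw [div_le_div_iff_of_pos_right hn0]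
        exact mul_le_mul_of_nonneg_left hqp (by positivity)
      have hstep : (x - 2 * Real.pi * q / n) / 2 - (x - 2 * Real.pi * ((q + 1 : ℕ) : ℝ) / n) / 2 =
          Real.pi / n := by
        push_cast
        field_simp
        ring
      have hpn : 0 < Real.pi / n := by positivity
      have hq0 : 0 ≤ 2 * Real.pi * (q : ℝ) / n := by positivity
      have h3 := trap (a := (x - 2 * Real.pi * q / n) / 2)
        (b := (x - 2 * Real.pi * ((q + 1 : ℕ) : ℝ) / n) / 2) (by linarith) (by linarith)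
        (by linarith)
      rw [hstep] at h3
      rw [Finset.sum_range_succ]
      have e1 : cs ((x - 2 * Real.pi * q / n) / 2) = g q := rfl
      have e2 : cs ((x - 2 * Real.pi * ((q + 1 : ℕ) : ℝ) / n) / 2) = g (q + 1) := rfl
      rw [e1, e2] at h3
      calc _ ≤ Real.pi / n * (∑ k ∈ range (q + 1), g k - g q / 2) +
            Real.pi / n / 2 * (g q + g (q + 1)) := by linarith
        _ = _ := by ring
  have h2 := key p le_rfl
  have h3 : ct ((x - 2 * Real.pi * p / n) / 2) - ct (x / 2) ≤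
      Real.pi / n * ∑ k ∈ range (p + 1), g k := by
    refine h2.trans (mul_le_mul_of_nonneg_left ?_ (by positivity))
    have := hgn p
    linarith
  have h4 : (Real.pi * n)⁻¹ * (ct ((x - 2 * Real.pi * p / n) / 2) - ct (x / 2)) ≤
      (Real.pi * n)⁻¹ * (Real.pi / n * ∑ k ∈ range (p + 1), g k) :=
    mul_le_mul_of_nonneg_left h3 (by positivity)
  have e : (Real.pi * n)⁻¹ * (Real.pi / n * ∑ k ∈ range (p + 1), g k) =
      ((n : ℝ) ^ 2)⁻¹ * ∑ k ∈ range (p + 1), g k := by
    field_simp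
  rw [e] at h4
  have e2 : (Real.pi * n)⁻¹ * (ct (x / 2) - ct ((x - 2 * Real.pi * p / n) / 2)) =
      -((Real.pi * n)⁻¹ * (ct ((x - 2 * Real.pi * p / n) / 2) - ct (x / 2))) := by ring
  rw [e2]
  linarith

/-- **inside the arc** -/
lemma VR_in {n : ℕ} (hn : 1 ≤ n) {p : ℕ} (hp : p < n) {x : ℝ} (h0 : 0 ≤ x)
    (h1 : x ≤ 2 * Real.pi * p / n) : 1 ≤ VR n p x := by
  by_cases h : Real.sin (n * x / 2) = 0
  · exact (VR_node hn p h).2 h0 h1
  have hn0 : (0 : ℝ) < n := by exact_mod_cast hn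
  have hpi := Real.pi_pos
  have hx0 : 0 < x := by
    rcases h0.eq_or_lt with h2 | h2
    · rw [← h2] at h
      simp at h
    · exact h2
  have hxp : x < 2 * Real.pi * p / n := by
    rcases h1.eq_or_lt with h2 | h2
    · exfalso
      apply h
      rw [h2]
      have e : n * (2 * Real.pi * p / n) / 2 = (p : ℝ) * Real.pi := by field_simp
      rw [e, Real.sin_nat_mul_pi]
    · exact h2
  have hpn' : (p : ℝ) + 1 ≤ n := by exact_mod_cast hp
  rw [VR_form hn p h]
  set S := Real.sin (n * x / 2) ^ 2 with hS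
  have hSpos : 0 < S := by positivity
  set g : ℕ → ℝ := fun k => cs ((x - 2 * Real.pi * k / n) / 2) with hg
  -- the total sum
  have htot : S * (((n : ℝ) ^ 2)⁻¹ * ∑ k ∈ range n, g k) = 1 := by
    have h2 := PR_sum hn x
    have h3 : ∀ k : ℕ, PR n (x - 2 * Real.pi * k / n) = S * (((n : ℝ) ^ 2)⁻¹ * g k) := by
      intro k
      rw [hS, hg]
      unfold PR cs
      beta_reduce
      rw [if_neg fun h2 => h (sin_half_zero hn h2), sin_shift hn]
      rw [div_eq_mul_inv, mul_inv, one_div]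
    simp only [h3] at h2
    rw [← Finset.mul_sum, ← Finset.mul_sum] at h2
    exact h2
  -- the telescoping inequality
  set β : ℝ → ℝ := fun k => (2 * Real.pi * k / n - x) / 2 with hβ
  have hgβ : ∀ k : ℕ, g k = cs (β k) := by
    intro k
    rw [hg, hβ]
    unfold cs
    have : (x - 2 * Real.pi * k / n) / 2 = -((2 * Real.pi * k / n - x) / 2) := by ring
    beta_reduce
    rw [this, Real.sin_neg]
    ring
  set d := Real.pi / (2 * n) with hd
  have hd0 : 0 < d := by positivity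
  have hβstep : ∀ k : ℝ, β (k + 1) = β k + 2 * d := by
    intro k
    rw [hβ, hd]
    field_simp
    ring
  have hβmono : ∀ a b : ℝ, a ≤ b → β a ≤ β b := by
    intro a b hab
    rw [hβ]
    beta_reduce
    have : 2 * Real.pi * a / n ≤ 2 * Real.pi * b / n := by
      rw [div_le_div_iff_of_pos_right hn0]
      exact mul_le_mul_of_nonneg_left hab (by positivity)
    linarith
  have hβp : 0 < β p := by
    rw [hβ]
    beta_reduce
    linarith
  have hβn : β n = Real.pi - x / 2 := by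
    rw [hβ]
    field_simp
  have key : ∀ m : ℕ, p + m + 1 ≤ n → 2 * d * ∑ k ∈ Ico (p + 1) (p + m + 1), g k ≤
      ct (β p + d) - ct (β ((p + m : ℕ) : ℝ) + d) := by
    intro m
    induction m with
    | zero =>
      intro _
      simp
    | succ m ih =>
      intro hm
      have h2 := ih (by omega)
      have hm' : ((p + m + 1 : ℕ) : ℝ) + 1 ≤ n := by exact_mod_cast hm
      have e1 : p + (m + 1) + 1 = (p + m + 1) + 1 := by ring
      rw [e1, Finset.sum_Ico_succ_top (by omega)]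
      have e2 : β ((p + m + 1 : ℕ) : ℝ) = β ((p + m : ℕ) : ℝ) + 2 * d := by
        rw [← hβstep]
        push_cast
        rfl
      have h3 : β ((p + m + 1 : ℕ) : ℝ) + d < Real.pi := by
        have h4 : β ((p + m + 1 : ℕ) : ℝ) + 2 * d ≤ β n := by
          rw [← hβstep]
          exact hβmono _ _ hm'
        rw [hβn] at h4
        linarith
      have h5 : d < β ((p + m + 1 : ℕ) : ℝ) := by
        rw [e2]
        have : β p ≤ β ((p + m : ℕ) : ℝ) := hβmono _ _ (by push_cast; linarith [Nat.cast_nonneg (α := ℝ) m])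
        linarith
      have h6 := mid hd0.le h5 h3
      rw [← hgβ] at h6
      have e3 : β ((p + m + 1 : ℕ) : ℝ) - d = β ((p + m : ℕ) : ℝ) + d := by rw [e2]; ring
      rw [e3] at h6
      have e4 : p + (m + 1) = p + m + 1 := by ring
      rw [e4, mul_add]
      linarith
  obtain ⟨m, hm⟩ : ∃ m, n = p + m + 1 := ⟨n - p - 1, by omega⟩
  have h2 := key m (by omega)
  rw [← hm] at h2
  have h3 : β ((p + m : ℕ) : ℝ) + 2 * d = β n := by
    rw [← hβstep, hm]
    push_cast
    rfl
  have h4 : ct (β p + d) ≤ ct (β p) := by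
    refine ct_anti hβp (by linarith) ?_
    have h5 : β p ≤ β ((p + m : ℕ) : ℝ) :=
      hβmono _ _ (by push_cast; linarith [Nat.cast_nonneg (α := ℝ) m])
    rw [hβn] at h3
    linarith
  have h5 : ct (β n) ≤ ct (β ((p + m : ℕ) : ℝ) + d) := by
    refine ct_anti ?_ (by linarith) (by rw [hβn]; linarith)
    have h5 : β p ≤ β ((p + m : ℕ) : ℝ) :=
      hβmono _ _ (by push_cast; linarith [Nat.cast_nonneg (α := ℝ) m])
    linarith
  have h6 : ct (β n) = -ct (x / 2) := by
    rw [hβn]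
    unfold ct
    rw [Real.cos_pi_sub, Real.sin_pi_sub]
    ring
  have h7 : ct ((x - 2 * Real.pi * p / n) / 2) = -ct (β p) := by
    have : (x - 2 * Real.pi * p / n) / 2 = -β p := by
      rw [hβ]
      ring
    rw [this]
    unfold ct
    rw [Real.cos_neg, Real.sin_neg]
    ring
  have h8 : 2 * d * ∑ k ∈ Ico (p + 1) n, g k ≤ ct (x / 2) - ct ((x - 2 * Real.pi * p / n) / 2) := by
    rw [h7]
    linarith
  have h9 : ∑ k ∈ range n, g k = ∑ k ∈ range (p + 1), g k + ∑ k ∈ Ico (p + 1) n, g k :=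
    (Finset.sum_range_add_sum_Ico _ (by omega)).symm
  have h10 : (Real.pi * n)⁻¹ * (2 * d * ∑ k ∈ Ico (p + 1) n, g k) ≤
      (Real.pi * n)⁻¹ * (ct (x / 2) - ct ((x - 2 * Real.pi * p / n) / 2)) :=
    mul_le_mul_of_nonneg_left h8 (by positivity)
  have e : (Real.pi * n)⁻¹ * (2 * d * ∑ k ∈ Ico (p + 1) n, g k) =
      ((n : ℝ) ^ 2)⁻¹ * ∑ k ∈ Ico (p + 1) n, g k := by
    rw [hd]
    field_simp
  rw [e] at h10
  rw [h9, mul_add] at htot
  calc (1 : ℝ) = S * (((n : ℝ) ^ 2)⁻¹ * ∑ k ∈ range (p + 1), g k +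
        ((n : ℝ) ^ 2)⁻¹ * ∑ k ∈ Ico (p + 1) n, g k) := htot.symm
    _ ≤ _ := by
      apply mul_le_mul_of_nonneg_left _ hSpos.le
      linarith

end

end Pool.Agent.H481.AC
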