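import Pool.Agent.H481.AC3

/-!
Majorants and minorants of arcs.
-/

open Finset MeasureTheory
open Pool.Agent.R319.UM

namespace Pool.Agent.H481.AC

noncomputable section

/-- the angle in `[0, 2π)` -/
def an (w : ℂ) : ℝ := if 0 ≤ w.arg then w.arg else w.arg + 2 * Real.pi

lemma an_nonneg (w : ℂ) : 0 ≤ an w := by
  unfold an
  split_ifs with h
  · exact h
  · have := Complex.neg_pi_lt_arg w
    linarith [Real.pi_pos]

lemma an_lt (w : ℂ) : an w < 2 * Real.pi := by
  unfold an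
  split_ifs with h
  · have := Complex.arg_le_pi w
    linarith [Real.pi_pos]
  · push Not at h
    linarith

lemma ee_an {w : ℂ} (hw : ‖w‖ = 1) : ee (an w) = w := by
  have h := Complex.norm_mul_exp_arg_mul_I w
  rw [hw] at h
  push_cast at h
  rw [one_mul] at h
  unfold ee an
  split_ifs
  · rw [mul_comm, h]
  · push_cast
    have : Complex.I * (w.arg + 2 * Real.pi) = w.arg * Complex.I + 2 * Real.pi * Complex.I := by
      ring
    rw [this, Complex.exp_add, h, Complex.exp_two_pi_mul_I, mul_one]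

lemma ee_per (x : ℝ) : ee (x + 2 * Real.pi) = ee x := by
  unfold ee
  have : Complex.I * ((x + 2 * Real.pi : ℝ) : ℂ) = Complex.I * x + 2 * Real.pi * Complex.I := by
    push_cast
    ring
  rw [this, Complex.exp_add, Complex.exp_two_pi_mul_I, mul_one]

/-- the majorant -/
lemma maj {n : ℕ} (hn : 1 ≤ n) {ℓ : ℝ} (h0 : 0 ≤ ℓ) (h1 : ℓ < 2 * Real.pi) :
    ∃ (fp : ℂ → ℝ) (a : ℝ), LP n (a : ℂ) (fun w => (fp w : ℂ)) ∧
      (∀ w, ‖w‖ = 1 → 0 ≤ fp w ∧ (an w ≤ ℓ → 1 ≤ fp w)) ∧
      a ≤ ℓ / (2 * Real.pi) + 2 / n := by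
  have hpi := Real.pi_pos
  have hn0 : (0 : ℝ) < n := by exact_mod_cast hn
  set p := ⌈(n : ℝ) * ℓ / (2 * Real.pi)⌉₊ with hp
  have hp1 : (n : ℝ) * ℓ / (2 * Real.pi) ≤ p := Nat.le_ceil _
  have hp2 : (p : ℝ) < (n : ℝ) * ℓ / (2 * Real.pi) + 1 := Nat.ceil_lt_add_one (by positivity)
  have hmean : ((p : ℝ) + 1) / n ≤ ℓ / (2 * Real.pi) + 2 / n := by
    rw [div_le_iff₀ hn0]
    have e : (ℓ / (2 * Real.pi) + 2 / n) * n = (n : ℝ) * ℓ / (2 * Real.pi) + 2 := by
      field_simp
    rw [e]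
    linarith
  have hℓp : ℓ ≤ 2 * Real.pi * p / n := by
    rw [le_div_iff₀ hn0]
    rw [div_le_iff₀ (by positivity)] at hp1
    linarith
  by_cases hpn : p < n
  · refine ⟨fun w => (Vs n p w).re, ((p : ℝ) + 1) / n, ?_, ?_, hmean⟩
    · have h2 := Vs_lp hn p
      have e : (((((p : ℝ) + 1) / n : ℝ)) : ℂ) = ((p : ℂ) + 1) / n := by push_cast; ring
      rw [e]
      refine h2.congr fun w hw => ?_
      beta_reduce
      rw [← ee_an hw, Vs_val hn, Complex.ofReal_re]
    · intro w hw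
      have e : (Vs n p w).re = VR n p (an w) := by
        conv_lhs => rw [← ee_an hw]
        rw [Vs_val hn, Complex.ofReal_re]
      beta_reduce
      rw [e]
      refine ⟨?_, fun h => VR_in hn hpn (an_nonneg w) (h.trans hℓp)⟩
      rcases le_or_gt (an w) (2 * Real.pi * p / n) with h | h
      · exact zero_le_one.trans (VR_in hn hpn (an_nonneg w) h)
      · exact VR_out hn p h (an_lt w)
  · refine ⟨fun _ => 1, 1, ?_, fun w _ => ⟨zero_le_one, fun _ => le_rfl⟩, ?_⟩
    · have h2 := LP.const n (1 : ℂ)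
      simpa using h2
    · refine le_trans ?_ hmean
      rw [le_div_iff₀ hn0, one_mul]
      push Not at hpn
      have : (n : ℝ) ≤ p := by exact_mod_cast hpn
      linarith

/-- the minorant -/
lemma mino {n : ℕ} (hn : 1 ≤ n) {ℓ : ℝ} (h0 : 0 ≤ ℓ) (h1 : ℓ < 2 * Real.pi) :
    ∃ (fm : ℂ → ℝ) (b : ℝ), LP n (b : ℂ) (fun w => (fm w : ℂ)) ∧
      (∀ w, ‖w‖ = 1 → fm w ≤ 1 ∧ (an w = 0 ∨ ℓ ≤ an w → fm w ≤ 0)) ∧
      ℓ / (2 * Real.pi) - 2 / n ≤ b := by
  have hpi := Real.pi_pos
  have hn0 : (0 : ℝ) < n := by exact_mod_cast hn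
  set p := ⌊(n : ℝ) * ℓ / (2 * Real.pi)⌋₊ with hp
  have hp1 : (p : ℝ) ≤ (n : ℝ) * ℓ / (2 * Real.pi) := Nat.floor_le (by positivity)
  have hp2 : (n : ℝ) * ℓ / (2 * Real.pi) < p + 1 := Nat.lt_floor_add_one _
  have hmean : ℓ / (2 * Real.pi) - 2 / n ≤ ((p : ℝ) - 1) / n := by
    rw [le_div_iff₀ hn0]
    have e : (ℓ / (2 * Real.pi) - 2 / n) * n = (n : ℝ) * ℓ / (2 * Real.pi) - 2 := by
      field_simp
    rw [e]
    linarith
  have hℓp : 2 * Real.pi * p / n ≤ ℓ := by
    rw [div_le_iff₀ hn0]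
    rw [le_div_iff₀ (by positivity)] at hp1
    linarith
  have hpn : p < n := by
    have h2 : (n : ℝ) * ℓ / (2 * Real.pi) < n := by
      rw [div_lt_iff₀ (by positivity)]
      exact mul_lt_mul_of_pos_left h1 hn0
    have h3 : (p : ℝ) < n := lt_of_le_of_lt hp1 h2
    exact_mod_cast h3
  by_cases hp0 : p = 0
  · refine ⟨fun _ => 0, 0, ?_, fun w _ => ⟨zero_le_one, fun _ => le_rfl⟩, ?_⟩
    · have h2 := LP.const n (0 : ℂ)
      simpa using h2
    · refine hmean.trans ?_
      rw [hp0]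
      rw [div_le_iff₀ hn0]
      push_cast
      linarith
  · have hp1' : 1 ≤ p := by omega
    have hq : n - p < n := by omega
    have hcast : ((n - p : ℕ) : ℝ) = n - p := by
      rw [Nat.cast_sub hpn.le]
    have hL : 2 * Real.pi * ((n - p : ℕ) : ℝ) / n = 2 * Real.pi - 2 * Real.pi * p / n := by
      rw [hcast]
      field_simp
    refine ⟨fun w => 1 - (Vs n (n - p) (w * (starRingEnd ℂ) (ze n) ^ p)).re,
      ((p : ℝ) - 1) / n, ?_, ?_, hmean⟩
    · have h2 := (LP.const n (1 : ℂ)).add (((Vs_lp hn (n - p)).rot (cpow_norm n p)).smul (-1))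
      have e : (((((p : ℝ) - 1) / n : ℝ)) : ℂ) = 1 + (-1) * ((((n - p : ℕ) : ℂ) + 1) / n) := by
        have hcast' : ((n - p : ℕ) : ℂ) = n - p := by
          rw [Nat.cast_sub hpn.le]
        rw [hcast']
        have hn1 : (n : ℂ) ≠ 0 := by
          have : n ≠ 0 := by omega
          exact_mod_cast this
        push_cast
        field_simp
        ring
      rw [e]
      refine h2.congr fun w hw => ?_
      beta_reduce
      rw [← ee_an hw, shift_eq, Vs_val hn, Complex.ofReal_re]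
      push_cast
      ring
    · intro w hw
      have e : (Vs n (n - p) (w * (starRingEnd ℂ) (ze n) ^ p)).re =
          VR n (n - p) (an w - 2 * Real.pi * p / n) := by
        conv_lhs => rw [← ee_an hw]
        rw [shift_eq, Vs_val hn, Complex.ofReal_re]
      have e' : (Vs n (n - p) (w * (starRingEnd ℂ) (ze n) ^ p)).re =
          VR n (n - p) (an w - 2 * Real.pi * p / n + 2 * Real.pi) := by
        conv_lhs => rw [← ee_an hw]
        rw [shift_eq, ← ee_per, Vs_val hn, Complex.ofReal_re]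
      beta_reduce
      have hy0 := an_nonneg w
      have hy1 := an_lt w
      have hpos : 0 < 2 * Real.pi * (p : ℝ) / n := by
        have : (0 : ℝ) < p := by exact_mod_cast hp1'
        positivity
      have hc1 : 2 * Real.pi * p / n ≤ an w →
          1 ≤ (Vs n (n - p) (w * (starRingEnd ℂ) (ze n) ^ p)).re := by
        intro h
        rw [e]
        exact VR_in hn hq (by linarith) (by rw [hL]; linarith)
      have hc2 : an w = 0 →
          1 ≤ (Vs n (n - p) (w * (starRingEnd ℂ) (ze n) ^ p)).re := by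
        intro h
        rw [e', h]
        refine VR_in hn hq ?_ ?_
        · linarith
        · rw [hL]
          linarith
      refine ⟨?_, fun h => ?_⟩
      · rcases le_or_gt (2 * Real.pi * p / n) (an w) with h | h
        · have := hc1 h
          linarith
        · rcases hy0.eq_or_lt with h2 | h2
          · have := hc2 h2.symm
            linarith
          · have := VR_out hn (n - p) (x := an w - 2 * Real.pi * p / n + 2 * Real.pi)
              (by rw [hL]; linarith) (by linarith)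
            rw [← e'] at this
            linarith
      · rcases h with h | h
        · have := hc2 h
          linarith
        · have := hc1 (hℓp.trans h)
          linarith

/-- majorant and minorant of the arc of length `ℓ` -/
theorem arc (n : ℕ) {ℓ : ℝ} (h0 : 0 ≤ ℓ) (h1 : ℓ < 2 * Real.pi) :
    ∃ (fp fm : ℂ → ℝ) (a b : ℝ), 1 ≤ n →
      (LP n (a : ℂ) (fun w => (fp w : ℂ)) ∧ LP n (b : ℂ) (fun w => (fm w : ℂ)) ∧
      (∀ w, ‖w‖ = 1 → 0 ≤ fp w ∧ fm w ≤ fp w ∧ (an w ≤ ℓ → 1 ≤ fp w) ∧ fm w ≤ 1 ∧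
        (an w = 0 ∨ ℓ ≤ an w → fm w ≤ 0)) ∧
      a ≤ ℓ / (2 * Real.pi) + 2 / n ∧ a - b ≤ 4 / n) := by
  by_cases hn : 1 ≤ n
  · obtain ⟨fp, a, h2, h3, h4⟩ := maj hn h0 h1
    obtain ⟨fm, b, h2', h3', h4'⟩ := mino hn h0 h1
    refine ⟨fp, fm, a, b, fun _ => ⟨h2, h2', fun w hw => ?_, h4, ?_⟩⟩
    · obtain ⟨a1, a2⟩ := h3 w hw
      obtain ⟨b1, b2⟩ := h3' w hw
      refine ⟨a1, ?_, a2, b1, b2⟩
      rcases le_or_gt (an w) ℓ with h | h
      · exact b1.trans (a2 h)
      · exact (b2 (Or.inr h.le)).trans a1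
    · have : (4 : ℝ) / n = 2 / n + 2 / n := by ring
      linarith
  · exact ⟨fun _ => 0, fun _ => 0, 0, 0, fun h => absurd h hn⟩

end

end Pool.Agent.H481.AC
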