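import Pool.Agent.H481.AC4

/-!
The generating function of the points seen from a point.
-/

open Finset MeasureTheory
open Pool.Agent.R319.UM

namespace Pool.Agent.H481.AC

noncomputable section

variable {N K : ℕ}

open scoped ComplexOrder in
/-- the arithmetic-geometric inequality for the eigenvalues -/
lemma psd_det (hN : 0 < N) (A : Matrix (Fin N) (Fin N) ℂ) (hA : A.PosSemidef) {a : ℝ}
    (ha : 0 < a) (hd : ∀ i, A i i = a) : ∃ D : ℝ, A.det = D ∧ D ≤ a ^ N := by
  have hH : A.IsHermitian := hA.1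
  have hN0 : (N : ℝ) ≠ 0 := by exact_mod_cast hN.ne'
  refine ⟨∏ i, hH.eigenvalues i, ?_, ?_⟩
  · rw [hH.det_eq_prod_eigenvalues]
    push_cast
    rfl
  · have htr : ∑ i, hH.eigenvalues i = N * a := by
      have h1 := hH.trace_eq_sum_eigenvalues
      have h2 : A.trace = ((N * a : ℝ) : ℂ) := by
        unfold Matrix.trace
        simp only [Matrix.diag_apply, hd, Finset.sum_const, card_univ, Fintype.card_fin,
          nsmul_eq_mul]
        push_cast
        rfl
      rw [h2] at h1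
      have h3 : ((N * a : ℝ) : ℂ) = ((∑ i, hH.eigenvalues i : ℝ) : ℂ) := by
        rw [h1]
        push_cast
        rfl
      exact_mod_cast h3.symm
    have h0 : ∀ i, 0 ≤ hH.eigenvalues i := hA.eigenvalues_nonneg
    have h1 : ∏ i, hH.eigenvalues i ≤ ∏ i : Fin N, (a * Real.exp (hH.eigenvalues i / a - 1)) := by
      refine Finset.prod_le_prod (fun i _ => h0 i) fun i _ => ?_
      have h2 := Real.add_one_le_exp (hH.eigenvalues i / a - 1)
      have h3 : hH.eigenvalues i = a * (hH.eigenvalues i / a - 1 + 1) := by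
        field_simp
        ring
      calc hH.eigenvalues i = a * (hH.eigenvalues i / a - 1 + 1) := h3
        _ ≤ _ := mul_le_mul_of_nonneg_left h2 ha.le
    refine h1.trans ?_
    rw [Finset.prod_mul_distrib, Finset.prod_const, ← Real.exp_sum, Finset.sum_sub_distrib,
      ← Finset.sum_div, htr]
    simp only [card_univ, Fintype.card_fin, Finset.sum_const, nsmul_eq_mul, mul_one]
    have : (N : ℝ) * a / a - N = 0 := by
      field_simp
      ring
    rw [this, Real.exp_zero, mul_one]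

/-- the Toeplitz matrix -/
def mm (w : Fin K → ℝ) (N : ℕ) : Matrix (Fin N) (Fin N) ℂ := fun a b =>
  ∑ x : Fin K, (w x : ℂ) * (rt K x ^ (a : ℕ) * (starRingEnd ℂ) (rt K x ^ (b : ℕ)))

open scoped ComplexOrder in
lemma mm_psd (w : Fin K → ℝ) (hw : ∀ x, 0 ≤ w x) : (mm w N).PosSemidef := by
  have e : mm w N = ∑ x : Fin K, (w x : ℂ) • Matrix.vecMulVec (fun a : Fin N => rt K x ^ (a : ℕ))
      (star (fun a : Fin N => rt K x ^ (a : ℕ))) := by
    ext a b
    rw [Matrix.sum_apply]
    unfold mm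
    refine Finset.sum_congr rfl fun x _ => ?_
    rw [Matrix.smul_apply, Matrix.vecMulVec_apply, smul_eq_mul]
    rfl
  rw [e]
  refine Matrix.posSemidef_sum _ fun x _ => ?_
  refine (Matrix.posSemidef_vecMulVec_self_star _).smul ?_
  exact_mod_cast hw x

lemma mm_diag (w : Fin K → ℝ) (i : Fin N) : mm w N i i = ((∑ x, w x : ℝ) : ℂ) := by
  unfold mm
  push_cast
  refine Finset.sum_congr rfl fun x _ => ?_
  rw [SB.unit_pow (rt_norm K x), mul_one]

/-- the mean of a product over the grid -/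
theorem gprod (hN : 0 < N) (w : Fin K → ℝ) (hw : ∀ x, 0 ≤ w x) (hpos : 0 < ∑ x, w x) :
    ∑ k : Fin N → Fin K, SG.gw N K k * ∏ i, w (k i) ≤ ((∑ x, w x) / K) ^ N := by
  obtain ⟨D, hD1, hD2⟩ := psd_det hN (mm w N) (mm_psd w hw) hpos (mm_diag w)
  have hNf : (N.factorial : ℝ) ≠ 0 := by exact_mod_cast N.factorial_ne_zero
  have h1 : ∑ k : Fin N → Fin K, (∏ i, w (k i)) * V2 (gz K k) = N.factorial * D := by
    have h2 := SB.sum_V2 (N := N) (rt K) (fun _ x => (w x : ℂ))
    have h3 : ∀ σ : Equiv.Perm (Fin N), ∑ ρ : Equiv.Perm (Fin N), ((Equiv.Perm.sign ρ : ℤ) : ℂ) *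
        ∏ k, ∑ x, (w x : ℂ) * (rt K x ^ (σ k : ℕ) * (starRingEnd ℂ) (rt K x ^ (σ (ρ k) : ℕ))) =
        (mm w N).det := by
      intro σ
      rw [← Matrix.det_submatrix_equiv_self σ, ← Matrix.det_transpose, Matrix.det_apply']
      rfl
    simp only [h3] at h2
    rw [Finset.sum_const, Finset.card_univ, Fintype.card_perm, Fintype.card_fin, nsmul_eq_mul,
      hD1] at h2
    have h4 : ((∑ k : Fin N → Fin K, (∏ i, w (k i)) * V2 (gz K k) : ℝ) : ℂ) =
        ((N.factorial * D : ℝ) : ℂ) := by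
      push_cast
      rw [← h2]
      rfl
    exact_mod_cast h4
  have h5 : ∑ k : Fin N → Fin K, SG.gw N K k * ∏ i, w (k i) = D / (K : ℝ) ^ N := by
    have : ∀ k : Fin N → Fin K, SG.gw N K k * ∏ i, w (k i) =
        ((∏ i, w (k i)) * V2 (gz K k)) * (N.factorial * (K : ℝ) ^ N)⁻¹ := by
      intro k
      unfold SG.gw
      rw [div_eq_mul_inv]
      ring
    simp only [this]
    rw [← Finset.sum_mul, h1, mul_inv, div_eq_mul_inv]
    field_simp
  rw [h5, div_pow]
  gcongr

/-- a product of sums -/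
lemma prod_ge {ι : Type*} [DecidableEq ι] (s : Finset ι) (a b : ι → ℝ) (ha : ∀ i ∈ s, 0 ≤ a i)
    (hb : ∀ i ∈ s, 0 ≤ b i) :
    ∑ j ∈ s, b j * ∏ i ∈ s.erase j, a i ≤ ∏ i ∈ s, (a i + b i) := by
  induction s using Finset.induction_on with
  | empty => simp
  | insert c s hc ih =>
    have ih' := ih (fun i hi => ha i (Finset.mem_insert_of_mem hi))
      (fun i hi => hb i (Finset.mem_insert_of_mem hi))
    have hac := ha c (Finset.mem_insert_self _ _)
    have hbc := hb c (Finset.mem_insert_self _ _)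
    rw [Finset.sum_insert hc, Finset.prod_insert hc, Finset.erase_insert hc]
    have e : ∀ j ∈ s, b j * ∏ i ∈ (insert c s).erase j, a i =
        a c * (b j * ∏ i ∈ s.erase j, a i) := by
      intro j hj
      have hjc : c ≠ j := fun h => hc (h ▸ hj)
      rw [Finset.erase_insert_of_ne hjc, Finset.prod_insert]
      · ring
      · intro h
        exact hc (Finset.mem_of_mem_erase h)
    rw [Finset.sum_congr rfl e, ← Finset.mul_sum]
    have h1 : ∏ i ∈ s, a i ≤ ∏ i ∈ s, (a i + b i) :=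
      Finset.prod_le_prod (fun i hi => ha i (Finset.mem_insert_of_mem hi)) fun i hi => by
        have := hb i (Finset.mem_insert_of_mem hi)
        linarith
    have h2 := mul_le_mul_of_nonneg_left h1 hbc
    have h3 := mul_le_mul_of_nonneg_left ih' hac
    linarith

/-- the points seen from a point -/
theorem seen (hN : 0 < N) (hK : 0 < K) (φ : ℂ → ℝ) (h0 : ∀ w, ‖w‖ = 1 → 0 ≤ φ w) {c : ℝ}
    (hc : ∀ u : Fin K, ∑ x : Fin K, φ (rt K x * (starRingEnd ℂ) (rt K u)) ≤ K * c) :
    ∑ k : Fin N → Fin K, SG.gw N K k *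
      (∑ j, ∏ i ∈ univ.erase j, φ (gz K k i * (starRingEnd ℂ) (gz K k j))) ≤
      N * (c + 1 / N) ^ N := by
  have hN0 : (0 : ℝ) < N := by exact_mod_cast hN
  have hK0 : (0 : ℝ) < K := by exact_mod_cast hK
  have hu : ∀ u x : Fin K, ‖rt K x * (starRingEnd ℂ) (rt K u)‖ = 1 := fun u x => by
    rw [norm_mul, Complex.norm_conj, rt_norm, rt_norm, one_mul]
  -- the weights
  have h1 : ∀ u : Fin K, ∑ k : Fin N → Fin K, SG.gw N K k *
      ∏ i, (φ (rt K (k i) * (starRingEnd ℂ) (rt K u)) + if k i = u then (K : ℝ) / N else 0) ≤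
      (c + 1 / N) ^ N := by
    intro u
    have hs : ∑ x : Fin K, (φ (rt K x * (starRingEnd ℂ) (rt K u)) +
        if x = u then (K : ℝ) / N else 0) ≤ K * (c + 1 / N) := by
      rw [Finset.sum_add_distrib, Finset.sum_ite_eq' univ u, if_pos (Finset.mem_univ _)]
      have := hc u
      have e : (K : ℝ) * (c + 1 / N) = K * c + K / N := by ring
      rw [e]
      linarith
    have hs0 : 0 < ∑ x : Fin K, (φ (rt K x * (starRingEnd ℂ) (rt K u)) +
        if x = u then (K : ℝ) / N else 0) := by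
      rw [Finset.sum_add_distrib, Finset.sum_ite_eq' univ u, if_pos (Finset.mem_univ _)]
      have h3 : 0 ≤ ∑ x : Fin K, φ (rt K x * (starRingEnd ℂ) (rt K u)) :=
        Finset.sum_nonneg fun x _ => h0 _ (hu u x)
      positivity
    have h2 := gprod (N := N) hN (fun x : Fin K => φ (rt K x * (starRingEnd ℂ) (rt K u)) +
        if x = u then (K : ℝ) / N else 0) (fun x => by
          have := h0 _ (hu u x)
          split_ifs
          · positivity
          · linarith) hs0
    refine h2.trans (pow_le_pow_left₀ (by positivity) ?_ N)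
    rw [div_le_iff₀ hK0]
    linarith
  have h2 : ∀ k : Fin N → Fin K, (K : ℝ) / N *
      ∑ j, ∏ i ∈ univ.erase j, φ (gz K k i * (starRingEnd ℂ) (gz K k j)) ≤
      ∑ u : Fin K, ∏ i, (φ (rt K (k i) * (starRingEnd ℂ) (rt K u)) +
        if k i = u then (K : ℝ) / N else 0) := by
    intro k
    have h3 : ∀ u : Fin K, ∑ j, (if k j = u then (K : ℝ) / N else 0) *
        ∏ i ∈ univ.erase j, φ (rt K (k i) * (starRingEnd ℂ) (rt K u)) ≤
        ∏ i, (φ (rt K (k i) * (starRingEnd ℂ) (rt K u)) +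
        if k i = u then (K : ℝ) / N else 0) := fun u =>
      prod_ge univ _ _ (fun i _ => h0 _ (hu u (k i))) (fun i _ => by
        split_ifs
        · positivity
        · exact le_rfl)
    refine le_trans (le_of_eq ?_) (Finset.sum_le_sum fun u _ => h3 u)
    rw [Finset.sum_comm, Finset.mul_sum]
    refine Finset.sum_congr rfl fun j _ => ?_
    simp only [ite_mul, zero_mul]
    rw [Finset.sum_ite_eq univ (k j), if_pos (Finset.mem_univ _)]
    rfl
  have h4 : (K : ℝ) / N * ∑ k : Fin N → Fin K, SG.gw N K k *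
      (∑ j, ∏ i ∈ univ.erase j, φ (gz K k i * (starRingEnd ℂ) (gz K k j))) ≤
      K * (c + 1 / N) ^ N := by
    calc _ = ∑ k : Fin N → Fin K, SG.gw N K k * ((K : ℝ) / N *
          ∑ j, ∏ i ∈ univ.erase j, φ (gz K k i * (starRingEnd ℂ) (gz K k j))) := by
          rw [Finset.mul_sum]
          exact Finset.sum_congr rfl fun k _ => by ring
      _ ≤ ∑ k : Fin N → Fin K, SG.gw N K k * ∑ u : Fin K,
          ∏ i, (φ (rt K (k i) * (starRingEnd ℂ) (rt K u)) +
            if k i = u then (K : ℝ) / N else 0) :=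
          Finset.sum_le_sum fun k _ => mul_le_mul_of_nonneg_left (h2 k) (SG.gw_nonneg K k)
      _ = ∑ u : Fin K, ∑ k : Fin N → Fin K, SG.gw N K k *
          ∏ i, (φ (rt K (k i) * (starRingEnd ℂ) (rt K u)) +
            if k i = u then (K : ℝ) / N else 0) := by
          rw [Finset.sum_comm]
          exact Finset.sum_congr rfl fun k _ => Finset.mul_sum _ _ _
      _ ≤ ∑ _u : Fin K, (c + 1 / N : ℝ) ^ N := Finset.sum_le_sum fun u _ => h1 u
      _ = K * (c + 1 / N) ^ N := by
          rw [Finset.sum_const, card_univ, Fintype.card_fin, nsmul_eq_mul]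
  have h5 := mul_le_mul_of_nonneg_left h4 (div_pos hN0 hK0).le
  have e1 : (N : ℝ) / K * ((K : ℝ) / N * ∑ k : Fin N → Fin K, SG.gw N K k *
      (∑ j, ∏ i ∈ univ.erase j, φ (gz K k i * (starRingEnd ℂ) (gz K k j)))) =
      ∑ k : Fin N → Fin K, SG.gw N K k *
      (∑ j, ∏ i ∈ univ.erase j, φ (gz K k i * (starRingEnd ℂ) (gz K k j))) := by
    field_simp
  have e2 : (N : ℝ) / K * (K * (c + 1 / N) ^ N) = N * (c + 1 / N) ^ N := by
    field_simp
  rwa [e1, e2] at h5

/-- the elementary symmetric functions of the points seen from a point -/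
theorem seen_es (hN : 0 < N) (hK : 0 < K) (g : ℂ → ℝ) (h0 : ∀ w, ‖w‖ = 1 → 0 ≤ g w) {c τ : ℝ}
    (hτ : 0 < τ) (hc0 : 0 ≤ c)
    (hc : ∀ u : Fin K, ∑ x : Fin K, g (rt K x * (starRingEnd ℂ) (rt K u)) = K * c) (m : ℕ) :
    ∑ k : Fin N → Fin K, SG.gw N K k *
      (∑ j, ∑ T ∈ (univ.erase j).powersetCard m,
        ∏ i ∈ T, g (gz K k i * (starRingEnd ℂ) (gz K k j))) ≤
      N * ((τ⁻¹) ^ m * Real.exp (τ * (N * c) + 1)) := by
  have hN0 : (0 : ℝ) < N := by exact_mod_cast hN
  have hgz : ∀ (k : Fin N → Fin K) i j, ‖gz K k i * (starRingEnd ℂ) (gz K k j)‖ = 1 := by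
    intro k i j
    rw [norm_mul, Complex.norm_conj, SG.gz_unit', SG.gz_unit', one_mul]
  have h1 := seen hN hK (fun w => 1 + τ * g w) (fun w hw => by
    have := h0 w hw
    positivity) (c := 1 + τ * c) (fun u => by
      rw [Finset.sum_add_distrib, ← Finset.mul_sum, hc u]
      refine le_of_eq ?_
      simp
      ring)
  have h2 : ∀ (k : Fin N → Fin K) (j : Fin N), ∑ T ∈ (univ.erase j).powersetCard m,
      ∏ i ∈ T, g (gz K k i * (starRingEnd ℂ) (gz K k j)) ≤
      (τ⁻¹) ^ m * ∏ i ∈ univ.erase j, (1 + τ * g (gz K k i * (starRingEnd ℂ) (gz K k j))) := by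
    intro k j
    rw [Finset.prod_one_add]
    have h3 : ∑ T ∈ (univ.erase j).powersetCard m,
        ∏ i ∈ T, (τ * g (gz K k i * (starRingEnd ℂ) (gz K k j))) ≤
        ∑ T ∈ (univ.erase j).powerset,
        ∏ i ∈ T, (τ * g (gz K k i * (starRingEnd ℂ) (gz K k j))) := by
      refine Finset.sum_le_sum_of_subset_of_nonneg ?_ fun T _ _ => ?_
      · intro T hT
        rw [Finset.mem_powersetCard] at hT
        exact Finset.mem_powerset.2 hT.1
      · exact Finset.prod_nonneg fun i _ => mul_nonneg hτ.le (h0 _ (hgz k i j))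
    have h4 : ∑ T ∈ (univ.erase j).powersetCard m,
        ∏ i ∈ T, (τ * g (gz K k i * (starRingEnd ℂ) (gz K k j))) =
        τ ^ m * ∑ T ∈ (univ.erase j).powersetCard m,
        ∏ i ∈ T, g (gz K k i * (starRingEnd ℂ) (gz K k j)) := by
      rw [Finset.mul_sum]
      refine Finset.sum_congr rfl fun T hT => ?_
      rw [Finset.mem_powersetCard] at hT
      rw [Finset.prod_mul_distrib, Finset.prod_const, hT.2]
    rw [h4] at h3
    calc _ = (τ⁻¹) ^ m * (τ ^ m * ∑ T ∈ (univ.erase j).powersetCard m,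
          ∏ i ∈ T, g (gz K k i * (starRingEnd ℂ) (gz K k j))) := by
          rw [← mul_assoc, ← mul_pow, inv_mul_cancel₀ hτ.ne', one_pow, one_mul]
      _ ≤ _ := mul_le_mul_of_nonneg_left h3 (by positivity)
  calc _ ≤ ∑ k : Fin N → Fin K, SG.gw N K k * (∑ j, (τ⁻¹) ^ m *
        ∏ i ∈ univ.erase j, (1 + τ * g (gz K k i * (starRingEnd ℂ) (gz K k j)))) :=
        Finset.sum_le_sum fun k _ => mul_le_mul_of_nonneg_left
          (Finset.sum_le_sum fun j _ => h2 k j) (SG.gw_nonneg K k)
    _ = (τ⁻¹) ^ m * ∑ k : Fin N → Fin K, SG.gw N K k * (∑ j,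
        ∏ i ∈ univ.erase j, (1 + τ * g (gz K k i * (starRingEnd ℂ) (gz K k j)))) := by
        rw [Finset.mul_sum]
        refine Finset.sum_congr rfl fun k _ => ?_
        rw [← Finset.mul_sum]
        ring
    _ ≤ (τ⁻¹) ^ m * (N * (1 + τ * c + 1 / N) ^ N) :=
        mul_le_mul_of_nonneg_left h1 (by positivity)
    _ ≤ _ := by
        have h5 : (1 + τ * c + 1 / N : ℝ) ^ N ≤ Real.exp (τ * (N * c) + 1) := by
          have h6 := Real.add_one_le_exp ((τ * (N * c) + 1) / N)
          have e : 1 + τ * c + 1 / N = (τ * (N * c) + 1) / N + 1 := by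
            field_simp
            ring
          rw [e]
          calc _ ≤ (Real.exp ((τ * (N * c) + 1) / N)) ^ N :=
                pow_le_pow_left₀ (by positivity) h6 N
            _ = _ := by
                rw [← Real.exp_nat_mul]
                congr 1
                field_simp
        calc _ ≤ (τ⁻¹) ^ m * (N * Real.exp (τ * (N * c) + 1)) := by gcongr
          _ = _ := by ring

end

end Pool.Agent.H481.AC
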