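import Pool.Agent.H481.AC5

/-!
The inclusion-exclusion formula with majorants, and the bound for its error.
-/

open Finset MeasureTheory
open Pool.Agent.R319.UM

namespace Pool.Agent.H481.AC

noncomputable section

variable {N K : ℕ}

lemma LP.meanR {n : ℕ} (hK : n < K) {a : ℝ} {f : ℂ → ℝ} (hf : LP n (a : ℂ) (fun w => (f w : ℂ)))
    {u : ℂ} (hu : ‖u‖ = 1) : ∑ x : Fin K, f (rt K x * u) = K * a := by
  have h := (hf.rot hu).mean hK
  exact_mod_cast h

/-- the difference of two products -/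
lemma prod_diff {ι : Type*} [DecidableEq ι] (s : Finset ι) (f d x : ι → ℝ)
    (h0 : ∀ i ∈ s, 0 ≤ x i) (h1 : ∀ i ∈ s, x i ≤ f i) (h2 : ∀ i ∈ s, d i ≤ x i) :
    0 ≤ ∏ i ∈ s, f i - ∏ i ∈ s, x i ∧
      ∏ i ∈ s, f i - ∏ i ∈ s, x i ≤ ∑ i ∈ s, (f i - d i) * ∏ l ∈ s.erase i, f l := by
  induction s using Finset.induction_on with
  | empty => simp
  | insert c s hc ih =>
    obtain ⟨i1, i2⟩ := ih (fun i hi => h0 i (Finset.mem_insert_of_mem hi))
      (fun i hi => h1 i (Finset.mem_insert_of_mem hi))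
      (fun i hi => h2 i (Finset.mem_insert_of_mem hi))
    have c0 := h0 c (Finset.mem_insert_self _ _)
    have c1 := h1 c (Finset.mem_insert_self _ _)
    have c2 := h2 c (Finset.mem_insert_self _ _)
    have hf0 : 0 ≤ ∏ i ∈ s, f i := Finset.prod_nonneg fun i hi =>
      (h0 i (Finset.mem_insert_of_mem hi)).trans (h1 i (Finset.mem_insert_of_mem hi))
    rw [Finset.prod_insert hc, Finset.prod_insert hc, Finset.sum_insert hc,
      Finset.erase_insert hc]
    have e : ∀ i ∈ s, (f i - d i) * ∏ l ∈ (insert c s).erase i, f l =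
        f c * ((f i - d i) * ∏ l ∈ s.erase i, f l) := by
      intro i hi
      have hic : c ≠ i := fun h => hc (h ▸ hi)
      rw [Finset.erase_insert_of_ne hic, Finset.prod_insert]
      · ring
      · intro h
        exact hc (Finset.mem_of_mem_erase h)
    rw [Finset.sum_congr rfl e, ← Finset.mul_sum]
    have e2 : f c * ∏ i ∈ s, f i - x c * ∏ i ∈ s, x i =
        (f c - x c) * ∏ i ∈ s, f i + x c * (∏ i ∈ s, f i - ∏ i ∈ s, x i) := by ring
    rw [e2]
    constructor
    · have : 0 ≤ f c - x c := by linarith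
      positivity
    · have a1 : (f c - x c) * ∏ i ∈ s, f i ≤ (f c - d c) * ∏ i ∈ s, f i :=
        mul_le_mul_of_nonneg_right (by linarith) hf0
      have a2 : x c * (∏ i ∈ s, f i - ∏ i ∈ s, x i) ≤
          f c * (∏ i ∈ s, f i - ∏ i ∈ s, x i) := mul_le_mul_of_nonneg_right c1 i1
      have a3 : f c * (∏ i ∈ s, f i - ∏ i ∈ s, x i) ≤
          f c * ∑ i ∈ s, (f i - d i) * ∏ l ∈ s.erase i, f l :=
        mul_le_mul_of_nonneg_left i2 (c0.trans c1)
      linarith

variable (fp fm : ℕ → ℂ → ℝ)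

/-- the main term for the set `T` -/
def PT (T : Finset (Fin N)) (z : Fin N → ℂ) (j : Fin N) : ℝ :=
  ∏ i ∈ T, fp T.card (z i * (starRingEnd ℂ) (z j))

/-- the error for the set `T` -/
def QT (T : Finset (Fin N)) (z : Fin N → ℂ) (j : Fin N) : ℝ :=
  ∑ i ∈ T, (fp T.card (z i * (starRingEnd ℂ) (z j)) - fm T.card (z i * (starRingEnd ℂ) (z j))) *
    ∏ l ∈ T.erase i, fp T.card (z l * (starRingEnd ℂ) (z j))

/-- the main term -/
def WW (z : Fin N → ℂ) : ℝ := ∑ j, ∑ T ∈ (univ.erase j).powerset, (-1) ^ T.card * PT fp T z j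

/-- the error term -/
def DD (z : Fin N → ℂ) : ℝ := ∑ j, ∑ T ∈ (univ.erase j).powerset, QT fp fm T z j

/-- the sandwich -/
lemma sand (z : Fin N → ℂ) (x : Fin N → Fin N → ℝ)
    (h0 : ∀ i j, i ≠ j → 0 ≤ x i j)
    (h1 : ∀ m, 1 ≤ m → m < N → ∀ i j, i ≠ j → x i j ≤ fp m (z i * (starRingEnd ℂ) (z j)))
    (h2 : ∀ m, 1 ≤ m → m < N → ∀ i j, i ≠ j → fm m (z i * (starRingEnd ℂ) (z j)) ≤ x i j) :
    |∑ j, ∏ i ∈ univ.erase j, (1 - x i j) - WW fp z| ≤ DD fp fm z := by
  have e1 : ∀ j, ∏ i ∈ univ.erase j, (1 - x i j) =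
      ∑ T ∈ (univ.erase j).powerset, (-1) ^ T.card * ∏ i ∈ T, x i j := by
    intro j
    have h3 : ∀ i ∈ univ.erase j, 1 - x i j = 1 + (-1) * x i j := fun i _ => by ring
    rw [Finset.prod_congr rfl h3, Finset.prod_one_add]
    refine Finset.sum_congr rfl fun T _ => ?_
    rw [Finset.prod_mul_distrib, Finset.prod_const]
  unfold WW DD
  rw [← Finset.sum_sub_distrib]
  refine (Finset.abs_sum_le_sum_abs _ _).trans (Finset.sum_le_sum fun j _ => ?_)
  rw [e1, ← Finset.sum_sub_distrib]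
  refine (Finset.abs_sum_le_sum_abs _ _).trans (Finset.sum_le_sum fun T hT => ?_)
  rw [← mul_sub, abs_mul, abs_pow, abs_neg, abs_one, one_pow, one_mul]
  rw [Finset.mem_powerset] at hT
  by_cases hc : T.card = 0
  · rw [Finset.card_eq_zero] at hc
    subst hc
    unfold PT QT
    simp
  · have hlt : T.card < N := by
      have h3 := Finset.card_le_card hT
      rw [Finset.card_erase_of_mem (Finset.mem_univ j), card_univ, Fintype.card_fin] at h3
      have := j.pos
      omega
    have hne : ∀ i ∈ T, i ≠ j := fun i hi => Finset.ne_of_mem_erase (hT hi)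
    obtain ⟨a1, a2⟩ := prod_diff T (fun i => fp T.card (z i * (starRingEnd ℂ) (z j)))
      (fun i => fm T.card (z i * (starRingEnd ℂ) (z j))) (fun i => x i j)
      (fun i hi => h0 i j (hne i hi)) (fun i hi => h1 _ (by omega) hlt i j (hne i hi))
      (fun i hi => h2 _ (by omega) hlt i j (hne i hi))
    rw [abs_sub_comm, abs_of_nonneg]
    · exact a2
    · exact a1

/-- the main term is a trigonometric polynomial -/
lemma WW_tp {R : ℕ} (a : ℕ → ℝ) (hfp : ∀ m, 1 ≤ m → m < N →
    LP (R / m) (a m : ℂ) (fun w => (fp m w : ℂ))) :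
    TP R (fun z : Fin N → ℂ => (WW fp z : ℂ)) := by
  have h : TP R (fun z : Fin N → ℂ => ∑ j : Fin N, ∑ T ∈ (univ.erase j).powerset,
      ((-1) ^ T.card * ∏ i ∈ T, (fp T.card (z i * (starRingEnd ℂ) (z j)) : ℂ))) := by
    refine TP.sum _ _ fun j _ => TP.sum _ _ fun T hT => TP.smul _ ?_
    rw [Finset.mem_powerset] at hT
    by_cases hc : T.card = 0
    · rw [Finset.card_eq_zero] at hc
      subst hc
      simpa using TP.const R 1
    · have hlt : T.card < N := by
        have h3 := Finset.card_le_card hT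
        rw [Finset.card_erase_of_mem (Finset.mem_univ j), card_univ, Fintype.card_fin] at h3
        have := j.pos
        omega
      have h4 := TP.prod (d := R / T.card) T
        (fun i => fun z : Fin N → ℂ => (fp T.card (z i * (starRingEnd ℂ) (z j)) : ℂ))
        (fun i _ => (hfp _ (by omega) hlt).tp i j)
      exact TP.mono (Nat.mul_div_le R T.card) h4
  refine TP.congr _ _ h fun z _ => ?_
  unfold WW PT
  push_cast
  rfl

/-- the error term is a trigonometric polynomial -/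
lemma DD_tp {R : ℕ} (a b : ℕ → ℝ) (hfp : ∀ m, 1 ≤ m → m < N →
    LP (R / m) (a m : ℂ) (fun w => (fp m w : ℂ))) (hfm : ∀ m, 1 ≤ m → m < N →
    LP (R / m) (b m : ℂ) (fun w => (fm m w : ℂ))) :
    TP R (fun z : Fin N → ℂ => (DD fp fm z : ℂ)) := by
  have h : TP R (fun z : Fin N → ℂ => ∑ j : Fin N, ∑ T ∈ (univ.erase j).powerset,
      ∑ i ∈ T, (((fp T.card (z i * (starRingEnd ℂ) (z j)) : ℂ) +
        (-1) * (fm T.card (z i * (starRingEnd ℂ) (z j)) : ℂ)) *
        ∏ l ∈ T.erase i, (fp T.card (z l * (starRingEnd ℂ) (z j)) : ℂ))) := by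
    refine TP.sum _ _ fun j _ => TP.sum _ _ fun T hT => TP.sum _ _ fun i hi => ?_
    rw [Finset.mem_powerset] at hT
    have hc : 1 ≤ T.card := Finset.card_pos.2 ⟨i, hi⟩
    have hlt : T.card < N := by
      have h3 := Finset.card_le_card hT
      rw [Finset.card_erase_of_mem (Finset.mem_univ j), card_univ, Fintype.card_fin] at h3
      have := j.pos
      omega
    have h4 := TP.prod (d := R / T.card) (T.erase i)
      (fun i => fun z : Fin N → ℂ => (fp T.card (z i * (starRingEnd ℂ) (z j)) : ℂ))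
      (fun i _ => (hfp _ hc hlt).tp i j)
    have h5 : TP (R / T.card) (fun z : Fin N → ℂ =>
        ((fp T.card (z i * (starRingEnd ℂ) (z j)) : ℂ) +
        (-1) * (fm T.card (z i * (starRingEnd ℂ) (z j)) : ℂ))) :=
      TP.add _ _ ((hfp _ hc hlt).tp i j) (TP.smul _ ((hfm _ hc hlt).tp i j))
    have h6 := h5.mul h4
    refine TP.mono ?_ h6
    rw [Finset.card_erase_of_mem hi]
    have h7 := Nat.mul_div_le R T.card
    have h8 : R / T.card + (T.card - 1) * (R / T.card) = T.card * (R / T.card) := by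
      obtain ⟨c, hc⟩ : ∃ c, T.card = c + 1 := ⟨T.card - 1, by omega⟩
      rw [hc]
      simp
      ring
    omega
  refine TP.congr _ _ h fun z _ => ?_
  unfold DD QT
  push_cast
  refine Finset.sum_congr rfl fun j _ => Finset.sum_congr rfl fun T _ =>
    Finset.sum_congr rfl fun i _ => ?_
  ring

/-- the bound for one level of the error -/
lemma level (hN : 0 < N) {n : ℕ} (hn : 1 ≤ n) (hK : n < K) {m : ℕ} {a b s M : ℝ}
    (hfp : LP n (a : ℂ) (fun w => (fp m w : ℂ))) (hfm : LP n (b : ℂ) (fun w => (fm m w : ℂ)))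
    (hpos : ∀ w, ‖w‖ = 1 → 0 ≤ fp m w ∧ fm m w ≤ fp m w)
    (ha : a ≤ s / N + 2 / n) (hab : a - b ≤ 4 / n)
    (hM : 4 * (s + 2 * N / n + 1) + 1 ≤ M) :
    ∑ k : Fin N → Fin K, SG.gw N K k * (∑ j, ∑ T ∈ (univ.erase j).powersetCard m,
      QT fp fm T (gz K k) j) ≤ (4 * N / n) * (N * ((4⁻¹ : ℝ) ^ m * Real.exp M)) := by
  have hN0 : (0 : ℝ) < N := by exact_mod_cast hN
  have hn0 : (0 : ℝ) < n := by exact_mod_cast hn
  have hK0 : 0 < K := by omega
  have hK0' : (0 : ℝ) < K := by exact_mod_cast hK0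
  set t : ℝ := n / (4 * N) with ht
  have ht0 : 0 < t := by positivity
  set g : ℂ → ℝ := fun w => fp m w + t * (fp m w - fm m w) with hg
  have hgz : ∀ (k : Fin N → Fin K) i j, ‖gz K k i * (starRingEnd ℂ) (gz K k j)‖ = 1 := by
    intro k i j
    rw [norm_mul, Complex.norm_conj, SG.gz_unit', SG.gz_unit', one_mul]
  have hg0 : ∀ w, ‖w‖ = 1 → 0 ≤ g w := by
    intro w hw
    obtain ⟨h1, h2⟩ := hpos w hw
    rw [hg]
    have : 0 ≤ t * (fp m w - fm m w) := mul_nonneg ht0.le (by linarith)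
    beta_reduce
    linarith
  have hgm : ∀ u : Fin K, ∑ x : Fin K, g (rt K x * (starRingEnd ℂ) (rt K u)) =
      K * (a + t * (a - b)) := by
    intro u
    have hu : ‖(starRingEnd ℂ) (rt K u)‖ = 1 := by rw [Complex.norm_conj, rt_norm]
    have h1 := hfp.meanR hK hu
    have h2 := hfm.meanR hK hu
    rw [hg]
    beta_reduce
    rw [Finset.sum_add_distrib, ← Finset.mul_sum, Finset.sum_sub_distrib, h1, h2]
    ring
  have hc0 : 0 ≤ a + t * (a - b) := by
    have h1 := hgm ⟨0, hK0⟩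
    have h2 : 0 ≤ ∑ x : Fin K, g (rt K x * (starRingEnd ℂ) (rt K ⟨0, hK0⟩)) :=
      Finset.sum_nonneg fun x _ => hg0 _ (by
        rw [norm_mul, Complex.norm_conj, rt_norm, rt_norm, one_mul])
    rw [h1] at h2
    exact nonneg_of_mul_nonneg_right h2 hK0'
  have h1 := seen_es hN hK0 g hg0 (τ := 4) (by norm_num) hc0 hgm m
  have h2 : ∀ (k : Fin N → Fin K) (j : Fin N), ∀ T ∈ (univ.erase j).powersetCard m,
      QT fp fm T (gz K k) j ≤ t⁻¹ * ∏ i ∈ T, g (gz K k i * (starRingEnd ℂ) (gz K k j)) := by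
    intro k j T hT
    rw [Finset.mem_powersetCard] at hT
    have h3 := prod_ge T (fun i => fp m (gz K k i * (starRingEnd ℂ) (gz K k j)))
      (fun i => t * (fp m (gz K k i * (starRingEnd ℂ) (gz K k j)) -
        fm m (gz K k i * (starRingEnd ℂ) (gz K k j))))
      (fun i _ => (hpos _ (hgz k i j)).1)
      (fun i _ => mul_nonneg ht0.le (by linarith [(hpos _ (hgz k i j)).2]))
    have h4 : ∑ j_1 ∈ T, t * (fp m (gz K k j_1 * (starRingEnd ℂ) (gz K k j)) -
        fm m (gz K k j_1 * (starRingEnd ℂ) (gz K k j))) *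
        ∏ i ∈ T.erase j_1, fp m (gz K k i * (starRingEnd ℂ) (gz K k j)) =
        t * QT fp fm T (gz K k) j := by
      unfold QT
      rw [hT.2, Finset.mul_sum]
      exact Finset.sum_congr rfl fun i _ => by ring
    rw [h4] at h3
    calc QT fp fm T (gz K k) j = t⁻¹ * (t * QT fp fm T (gz K k) j) := by
          rw [← mul_assoc, inv_mul_cancel₀ ht0.ne', one_mul]
      _ ≤ _ := mul_le_mul_of_nonneg_left h3 (by positivity)
  calc _ ≤ ∑ k : Fin N → Fin K, SG.gw N K k * (∑ j, ∑ T ∈ (univ.erase j).powersetCard m,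
        t⁻¹ * ∏ i ∈ T, g (gz K k i * (starRingEnd ℂ) (gz K k j))) :=
        Finset.sum_le_sum fun k _ => mul_le_mul_of_nonneg_left
          (Finset.sum_le_sum fun j _ => Finset.sum_le_sum fun T hT => h2 k j T hT)
          (SG.gw_nonneg K k)
    _ = t⁻¹ * ∑ k : Fin N → Fin K, SG.gw N K k * (∑ j, ∑ T ∈ (univ.erase j).powersetCard m,
        ∏ i ∈ T, g (gz K k i * (starRingEnd ℂ) (gz K k j))) := by
        rw [Finset.mul_sum]
        refine Finset.sum_congr rfl fun k _ => ?_
        simp only [← Finset.mul_sum]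
        ring
    _ ≤ t⁻¹ * (N * ((4⁻¹ : ℝ) ^ m * Real.exp (4 * (N * (a + t * (a - b))) + 1))) :=
        mul_le_mul_of_nonneg_left h1 (by positivity)
    _ ≤ _ := by
        have e1 : t⁻¹ = 4 * N / n := by
          rw [ht, inv_div]
        rw [e1]
        have h3 : 4 * (N * (a + t * (a - b))) + 1 ≤ M := by
          have h4 : t * (a - b) ≤ t * (4 / n) := mul_le_mul_of_nonneg_left hab ht0.le
          have h5 : t * (4 / n) = 1 / N := by
            rw [ht]
            field_simp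
          have h6 : N * (a + t * (a - b)) ≤ N * ((s / N + 2 / n) + 1 / N) :=
            mul_le_mul_of_nonneg_left (by linarith) hN0.le
          have h7 : N * ((s / N + 2 / n) + 1 / N) = s + 2 * N / n + 1 := by
            field_simp
          rw [h7] at h6
          linarith
        gcongr

end

end Pool.Agent.H481.AC
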