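import Pool.Agent.H481.AC6

/-!
The error of the inclusion-exclusion formula, and the count of the long gaps.
-/

open Finset MeasureTheory
open Pool.Agent.R319.UM

namespace Pool.Agent.H481.AC

noncomputable section

variable {N K : ℕ}

lemma geo_bound (M : ℕ) : ∑ m ∈ range M, (m : ℝ) * (Real.exp 1 / 4) ^ m ≤ 6.65 := by
  have he := Real.exp_one_lt_d9
  have he0 := Real.exp_pos 1
  set q := Real.exp 1 / 4 with hq
  have hq0 : 0 ≤ q := by positivity
  have hq1 : q < 0.68 := by
    rw [hq]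
    linarith
  have hn : ‖q‖ < 1 := by
    rw [Real.norm_of_nonneg hq0]
    linarith
  have h1 := hasSum_coe_mul_geometric_of_norm_lt_one hn
  refine (sum_le_hasSum (range M) (fun m _ => by positivity) h1).trans ?_
  rw [div_le_iff₀ (by nlinarith)]
  nlinarith

lemma exp_five : Real.exp 5 ≤ 148.5 := by
  have he := Real.exp_one_lt_d9
  have he0 := Real.exp_pos 1
  have h1 : Real.exp 5 = Real.exp 1 ^ 5 := by
    rw [← Real.exp_nat_mul]
    norm_num
  rw [h1]
  calc Real.exp 1 ^ 5 ≤ (2.7182818286 : ℝ) ^ 5 := pow_le_pow_left₀ he0.le he.le 5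
    _ ≤ _ := by norm_num

/-- **the error term** -/
theorem DD_bound (hN : 0 < N) {R : ℕ} (hR : 16 * N ≤ R) {s : ℝ} {fp fm : ℕ → ℂ → ℝ}
    {a b : ℕ → ℝ}
    (hfp : ∀ m, 1 ≤ m → m < N → LP (R / m) (a m : ℂ) (fun w => (fp m w : ℂ)))
    (hfm : ∀ m, 1 ≤ m → m < N → LP (R / m) (b m : ℂ) (fun w => (fm m w : ℂ)))
    (hpos : ∀ m, 1 ≤ m → m < N → ∀ w, ‖w‖ = 1 → 0 ≤ fp m w ∧ fm m w ≤ fp m w)
    (ha : ∀ m, 1 ≤ m → m < N → a m ≤ s / N + 2 / (R / m : ℕ))
    (hab : ∀ m, 1 ≤ m → m < N → a m - b m ≤ 4 / (R / m : ℕ)) :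
    ∑ k : Fin N → Fin (N + R), SG.gw N (N + R) k * DD fp fm (gz (N + R) k) ≤
      7950 * Real.exp (4 * s) * (N ^ 2 / R) := by
  have hN0 : (0 : ℝ) < N := by exact_mod_cast hN
  have hR0 : 0 < R := by omega
  have hR0' : (0 : ℝ) < R := by exact_mod_cast hR0
  have hR' : 16 * (N : ℝ) ≤ R := by exact_mod_cast hR
  have e1 : ∀ z : Fin N → ℂ, DD fp fm z = ∑ m ∈ range N, ∑ j : Fin N,
      ∑ T ∈ (univ.erase j).powersetCard m, QT fp fm T z j := by
    intro z
    unfold DD
    rw [Finset.sum_comm]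
    refine Finset.sum_congr rfl fun j _ => ?_
    rw [Finset.sum_powerset, Finset.card_erase_of_mem (Finset.mem_univ j), card_univ,
      Fintype.card_fin]
    have : N - 1 + 1 = N := by omega
    rw [this]
  have e2 : ∑ k : Fin N → Fin (N + R), SG.gw N (N + R) k * DD fp fm (gz (N + R) k) =
      ∑ m ∈ range N, ∑ k : Fin N → Fin (N + R), SG.gw N (N + R) k * (∑ j : Fin N,
        ∑ T ∈ (univ.erase j).powersetCard m, QT fp fm T (gz (N + R) k) j) := by
    rw [Finset.sum_comm]
    refine Finset.sum_congr rfl fun k _ => ?_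
    rw [e1, Finset.mul_sum]
  rw [e2]
  have h1 : ∀ m ∈ range N, ∑ k : Fin N → Fin (N + R), SG.gw N (N + R) k * (∑ j : Fin N,
      ∑ T ∈ (univ.erase j).powersetCard m, QT fp fm T (gz (N + R) k) j) ≤
      8 * (N ^ 2 / R) * Real.exp (4 * s + 5) * ((m : ℝ) * (Real.exp 1 / 4) ^ m) := by
    intro m hm
    rw [mem_range] at hm
    rcases Nat.eq_zero_or_pos m with h0 | hm1
    · subst h0
      refine le_of_eq ?_
      rw [Finset.sum_eq_zero]
      · simp
      · intro k _
        rw [Finset.sum_eq_zero, mul_zero]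
        intro j _
        simp [QT]
    · have hm0 : (0 : ℝ) < m := by exact_mod_cast hm1
      have hmN : (m : ℝ) < N := by exact_mod_cast hm
      have hn1 : 1 ≤ R / m := by
        rw [Nat.le_div_iff_mul_le hm1]
        omega
      have hn0 : (0 : ℝ) < (R / m : ℕ) := by exact_mod_cast hn1
      have hn2 : (R : ℝ) ≤ 2 * m * (R / m : ℕ) := by
        have h2 : R < m * (R / m + 1) := by
          have := Nat.lt_mul_div_succ R hm1
          exact this
        have h3 : R ≤ 2 * m * (R / m) := by nlinarith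
        exact_mod_cast h3
      have hNn : (N : ℝ) / (R / m : ℕ) ≤ 2 * m * (N / R) := by
        rw [div_le_iff₀ hn0]
        have : 2 * m * ((N : ℝ) / R) * (R / m : ℕ) = (N / R) * (2 * m * (R / m : ℕ)) := by ring
        rw [this]
        calc (N : ℝ) = (N / R) * R := by field_simp
          _ ≤ _ := mul_le_mul_of_nonneg_left hn2 (by positivity)
      have hNR : (N : ℝ) / R ≤ 1 / 16 := by
        rw [div_le_iff₀ hR0']
        linarith
      have hM : 4 * (s + 2 * N / (R / m : ℕ) + 1) + 1 ≤ 4 * s + 5 + m := by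
        have h2 : 2 * (N : ℝ) / (R / m : ℕ) = 2 * (N / (R / m : ℕ)) := by ring
        rw [h2]
        have h3 : 2 * m * ((N : ℝ) / R) ≤ 2 * m * (1 / 16) :=
          mul_le_mul_of_nonneg_left hNR (by positivity)
        linarith
      have h2 := level fp fm hN hn1 (K := N + R) (by
          have := Nat.div_le_self R m
          omega) (hfp m hm1 hm) (hfm m hm1 hm) (hpos m hm1 hm) (ha m hm1 hm) (hab m hm1 hm) hM
      refine h2.trans ?_
      have e3 : Real.exp (4 * s + 5 + m) = Real.exp (4 * s + 5) * Real.exp 1 ^ m := by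
        rw [Real.exp_add, ← Real.exp_nat_mul, mul_one]
      rw [e3]
      calc 4 * (N : ℝ) / (R / m : ℕ) * (N * ((4⁻¹ : ℝ) ^ m * (Real.exp (4 * s + 5) *
            Real.exp 1 ^ m)))
          = (N / (R / m : ℕ)) * (4 * N * Real.exp (4 * s + 5) * (Real.exp 1 / 4) ^ m) := by
            rw [div_pow, inv_pow]
            ring
        _ ≤ (2 * m * (N / R)) * (4 * N * Real.exp (4 * s + 5) * (Real.exp 1 / 4) ^ m) :=
            mul_le_mul_of_nonneg_right hNn (by positivity)
        _ = _ := by ring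
  refine (Finset.sum_le_sum h1).trans ?_
  rw [← Finset.mul_sum, Real.exp_add]
  have h2 := geo_bound N
  have h3 := exp_five
  have h4 : 0 < Real.exp (4 * s) := Real.exp_pos _
  calc 8 * ((N : ℝ) ^ 2 / R) * (Real.exp (4 * s) * Real.exp 5) *
        ∑ m ∈ range N, (m : ℝ) * (Real.exp 1 / 4) ^ m
      ≤ 8 * ((N : ℝ) ^ 2 / R) * (Real.exp (4 * s) * 148.5) * 6.65 := by gcongr
    _ = 7900.2 * Real.exp (4 * s) * (N ^ 2 / R) := by ring
    _ ≤ _ := by gcongr; norm_num

/-! ### gaps -/

/-- the angle from `1` to `u` counterclockwise, in `(0, 2π]` -/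
def ang (u : ℂ) : ℝ := if 0 < u.arg then u.arg else u.arg + 2 * Real.pi

open Classical in
/-- the number of the distinct points which are followed by a gap longer than `ℓ` -/
def longGaps (ℓ : ℝ) (z : Fin N → ℂ) : ℕ :=
  (univ.filter fun j => (∀ i, i < j → z i ≠ z j) ∧
    ∀ i, ℓ < ang (z i * (starRingEnd ℂ) (z j))).card

lemma an_one : an 1 = 0 := by
  unfold an
  simp

lemma ang_one : ang 1 = 2 * Real.pi := by
  unfold ang
  simp

lemma ang_eq {u : ℂ} (h : 0 < an u) : ang u = an u := by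
  unfold ang an at *
  by_cases h0 : 0 < u.arg
  · rw [if_pos h0, if_pos h0.le]
  · by_cases h1 : 0 ≤ u.arg
    · rw [if_pos h1] at h
      exact absurd h h0
    · rw [if_neg h0, if_neg h1]

/-- the sandwich for the number of the long gaps -/
lemma gaps_sand {ℓ : ℝ} (h0 : 0 ≤ ℓ) (h1 : ℓ < 2 * Real.pi) {fp fm : ℕ → ℂ → ℝ}
    (hp : ∀ m, 1 ≤ m → m < N → ∀ w, ‖w‖ = 1 → 0 ≤ fp m w ∧ fm m w ≤ fp m w ∧
      (an w ≤ ℓ → 1 ≤ fp m w) ∧ fm m w ≤ 1 ∧ (an w = 0 ∨ ℓ ≤ an w → fm m w ≤ 0))
    {z : Fin N → ℂ} (hz : ∀ i, ‖z i‖ = 1) :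
    |(longGaps ℓ z : ℝ) - WW fp z| ≤ DD fp fm z := by
  classical
  have hu : ∀ i j, ‖z i * (starRingEnd ℂ) (z j)‖ = 1 := fun i j => by
    rw [norm_mul, Complex.norm_conj, hz, hz, one_mul]
  have hjj : ∀ j, z j * (starRingEnd ℂ) (z j) = 1 := fun j => mul_conj_unit (hz j)
  set xc : Fin N → Fin N → ℝ := fun i j =>
    if an (z i * (starRingEnd ℂ) (z j)) ≤ ℓ then 1 else 0 with hxc
  set xo : Fin N → Fin N → ℝ := fun i j =>
    if 0 < an (z i * (starRingEnd ℂ) (z j)) ∧ an (z i * (starRingEnd ℂ) (z j)) ≤ ℓ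
      then 1 else 0 with hxo
  have sc := sand fp fm z xc (fun i j _ => by rw [hxc]; beta_reduce; split_ifs <;> norm_num)
    (fun m hm1 hm i j _ => by
      obtain ⟨a1, a2, a3, a4, a5⟩ := hp m hm1 hm _ (hu i j)
      rw [hxc]
      beta_reduce
      split_ifs with h
      · exact a3 h
      · exact a1)
    (fun m hm1 hm i j _ => by
      obtain ⟨a1, a2, a3, a4, a5⟩ := hp m hm1 hm _ (hu i j)
      rw [hxc]
      beta_reduce
      split_ifs with h
      · exact a4
      · push Not at h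
        exact a5 (Or.inr h.le))
  have so := sand fp fm z xo (fun i j _ => by rw [hxo]; beta_reduce; split_ifs <;> norm_num)
    (fun m hm1 hm i j _ => by
      obtain ⟨a1, a2, a3, a4, a5⟩ := hp m hm1 hm _ (hu i j)
      rw [hxo]
      beta_reduce
      split_ifs with h
      · exact a3 h.2
      · exact a1)
    (fun m hm1 hm i j _ => by
      obtain ⟨a1, a2, a3, a4, a5⟩ := hp m hm1 hm _ (hu i j)
      rw [hxo]
      beta_reduce
      split_ifs with h
      · exact a4
      · rcases (an_nonneg (z i * (starRingEnd ℂ) (z j))).eq_or_lt with h2 | h2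
        · exact a5 (Or.inl h2.symm)
        · refine a5 (Or.inr ?_)
          by_contra h3
          exact h ⟨h2, by linarith⟩)
  have hcard : (longGaps ℓ z : ℝ) = ∑ j, if ((∀ i, i < j → z i ≠ z j) ∧
      ∀ i, ℓ < ang (z i * (starRingEnd ℂ) (z j))) then (1 : ℝ) else 0 := by
    unfold longGaps
    rw [Finset.card_filter]
    push_cast
    rfl
  have lo : ∑ j, ∏ i ∈ univ.erase j, (1 - xc i j) ≤ (longGaps ℓ z : ℝ) := by
    rw [hcard]
    refine Finset.sum_le_sum fun j _ => ?_
    have hx01 : ∀ i, 0 ≤ 1 - xc i j ∧ 1 - xc i j ≤ 1 := by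
      intro i
      rw [hxc]
      beta_reduce
      split_ifs <;> norm_num
    split_ifs with h
    · exact Finset.prod_le_one (fun i _ => (hx01 i).1) fun i _ => (hx01 i).2
    · refine le_of_eq ?_
      by_contra hne
      apply h
      have h2 : ∀ i, i ≠ j → ℓ < an (z i * (starRingEnd ℂ) (z j)) := by
        intro i hij
        by_contra h3
        push Not at h3
        apply hne
        refine Finset.prod_eq_zero (Finset.mem_erase.2 ⟨hij, Finset.mem_univ i⟩) ?_
        rw [hxc]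
        beta_reduce
        rw [if_pos h3, sub_self]
      refine ⟨fun i hij h3 => ?_, fun i => ?_⟩
      · have h4 := h2 i (ne_of_lt hij)
        rw [h3, hjj, an_one] at h4
        linarith
      · by_cases hij : i = j
        · rw [hij, hjj, ang_one]
          exact h1
        · have h4 := h2 i hij
          rw [ang_eq (lt_of_le_of_lt h0 h4)]
          exact h4
  have up : (longGaps ℓ z : ℝ) ≤ ∑ j, ∏ i ∈ univ.erase j, (1 - xo i j) := by
    rw [hcard]
    refine Finset.sum_le_sum fun j _ => ?_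
    split_ifs with h
    · refine le_of_eq (Finset.prod_eq_one fun i hi => ?_).symm
      rw [hxo]
      beta_reduce
      rw [if_neg, sub_zero]
      rintro ⟨h2, h3⟩
      have h4 := h.2 i
      rw [ang_eq h2] at h4
      linarith
    · refine Finset.prod_nonneg fun i _ => ?_
      rw [hxo]
      beta_reduce
      split_ifs <;> norm_num
  rw [abs_le] at sc so ⊢
  constructor
  · linarith [sc.1]
  · linarith [so.2]

end

end Pool.Agent.H481.AC
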