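import Pool.Agent.H481.AC7

/-!
The mean number of the long gaps for the laws with given correlations.
-/

open Finset MeasureTheory
open Pool.Agent.R319.UM

namespace Pool.Agent.H481.AC

noncomputable section

variable {N : ℕ}

lemma ang_meas : Measurable ang := by
  unfold ang
  refine Measurable.ite ?_ Complex.measurable_arg (Complex.measurable_arg.add_const _)
  exact measurableSet_lt measurable_const Complex.measurable_arg

lemma longGaps_eq (ℓ : ℝ) (z : Fin N → ℂ) : (longGaps ℓ z : ℝ) =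
    ∑ j, Set.indicator {z : Fin N → ℂ | (∀ i, i < j → z i ≠ z j) ∧
      ∀ i, ℓ < ang (z i * (starRingEnd ℂ) (z j))} (fun _ => (1 : ℝ)) z := by
  classical
  unfold longGaps
  rw [Finset.card_filter]
  push_cast
  refine Finset.sum_congr rfl fun j _ => ?_
  rw [Set.indicator_apply]
  rfl

lemma longGaps_meas (ℓ : ℝ) : Measurable fun z : Fin N → ℂ => (longGaps ℓ z : ℝ) := by
  simp only [longGaps_eq]
  refine Finset.measurable_sum _ fun j _ => Measurable.indicator measurable_const ?_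
  have e : {z : Fin N → ℂ | (∀ i, i < j → z i ≠ z j) ∧
      ∀ i, ℓ < ang (z i * (starRingEnd ℂ) (z j))} =
      (⋂ i, ⋂ (_ : i < j), {z : Fin N → ℂ | z i ≠ z j}) ∩
      ⋂ i, {z : Fin N → ℂ | ℓ < ang (z i * (starRingEnd ℂ) (z j))} := by
    ext z
    simp
  rw [e]
  refine MeasurableSet.inter (MeasurableSet.iInter fun i => MeasurableSet.iInter fun _ => ?_)
    (MeasurableSet.iInter fun i => ?_)
  · exact (measurableSet_eq_fun (measurable_pi_apply i) (measurable_pi_apply j)).compl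
  · refine measurableSet_lt measurable_const (ang_meas.comp ?_)
    exact (measurable_pi_apply i).mul (continuous_star.measurable.comp (measurable_pi_apply j))

lemma longGaps_le (ℓ : ℝ) (z : Fin N → ℂ) : longGaps ℓ z ≤ N := by
  classical
  unfold longGaps
  refine (Finset.card_filter_le _ _).trans ?_
  rw [card_univ, Fintype.card_fin]

lemma longGaps_int (ℓ : ℝ) (ν : Measure (Fin N → ℂ)) [IsProbabilityMeasure ν] :
    Integrable (fun z : Fin N → ℂ => (longGaps ℓ z : ℝ)) ν := by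
  refine Integrable.of_bound (longGaps_meas ℓ).aestronglyMeasurable (N : ℝ)
    (Filter.Eventually.of_forall fun z => ?_)
  rw [Real.norm_of_nonneg (Nat.cast_nonneg _)]
  exact_mod_cast longGaps_le ℓ z

/-- **the determination of the mean number of the long gaps** -/
theorem class_bound (hN : 0 < N) {R : ℕ} (hR : 16 * N ≤ R) {s : ℝ} (hs : 0 ≤ s) (hsN : s < N) :
    ∃ c : ℝ, ∀ (ν : Measure (Fin N → ℂ)), IsProbabilityMeasure ν →
      (∀ᵐ z ∂ν, ∀ i, ‖z i‖ = 1) →
      (∀ F G : MvPolynomial (Fin N) ℂ, F.totalDegree ≤ R → G.totalDegree ≤ R →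
      ∫ z, MvPolynomial.eval z F * (starRingEnd ℂ) (MvPolynomial.eval z G) ∂ν =
        cue (fun z => MvPolynomial.eval z F * (starRingEnd ℂ) (MvPolynomial.eval z G))) →
      |∫ z, (longGaps (2 * Real.pi * s / N) z : ℝ) ∂ν - c| ≤
        7950 * Real.exp (4 * s) * (N ^ 2 / R) := by
  have hN0 : (0 : ℝ) < N := by exact_mod_cast hN
  have hpi := Real.pi_pos
  set ℓ : ℝ := 2 * Real.pi * s / N with hℓ
  have h0 : 0 ≤ ℓ := by positivity
  have h1 : ℓ < 2 * Real.pi := by
    rw [hℓ, div_lt_iff₀ hN0]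
    exact mul_lt_mul_of_pos_left hsN (by positivity)
  have hℓs : ℓ / (2 * Real.pi) = s / N := by
    rw [hℓ]
    field_simp
  choose fp fm a b h using fun m : ℕ => arc (R / m) h0 h1
  have hn : ∀ m, 1 ≤ m → m < N → 1 ≤ R / m := by
    intro m hm1 hm
    rw [Nat.le_div_iff_mul_le hm1]
    omega
  have hfp : ∀ m, 1 ≤ m → m < N → LP (R / m) (a m : ℂ) (fun w => (fp m w : ℂ)) :=
    fun m hm1 hm => (h m (hn m hm1 hm)).1
  have hfm : ∀ m, 1 ≤ m → m < N → LP (R / m) (b m : ℂ) (fun w => (fm m w : ℂ)) :=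
    fun m hm1 hm => (h m (hn m hm1 hm)).2.1
  have hp : ∀ m, 1 ≤ m → m < N → ∀ w, ‖w‖ = 1 → 0 ≤ fp m w ∧ fm m w ≤ fp m w ∧
      (an w ≤ ℓ → 1 ≤ fp m w) ∧ fm m w ≤ 1 ∧ (an w = 0 ∨ ℓ ≤ an w → fm m w ≤ 0) :=
    fun m hm1 hm => (h m (hn m hm1 hm)).2.2.1
  have ha : ∀ m, 1 ≤ m → m < N → a m ≤ s / N + 2 / (R / m : ℕ) := by
    intro m hm1 hm
    rw [← hℓs]
    exact (h m (hn m hm1 hm)).2.2.2.1
  have hab : ∀ m, 1 ≤ m → m < N → a m - b m ≤ 4 / (R / m : ℕ) :=
    fun m hm1 hm => (h m (hn m hm1 hm)).2.2.2.2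
  have hD := DD_bound hN hR hfp hfm
    (fun m hm1 hm w hw => ⟨(hp m hm1 hm w hw).1, (hp m hm1 hm w hw).2.1⟩) ha hab
  refine ⟨∑ k : Fin N → Fin (N + R), SG.gw N (N + R) k * WW fp (gz (N + R) k), ?_⟩
  intro ν hν h1 hm
  have tW := WW_tp (N := N) fp (R := R) a hfp
  have tD := DD_tp (N := N) fp fm (R := R) a b hfp hfm
  have iW : Integrable (fun z : Fin N → ℂ => WW fp z) ν := by
    have := (tW.integrable h1).re
    simpa using this
  have iD : Integrable (fun z : Fin N → ℂ => DD fp fm z) ν := by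
    have := (tD.integrable h1).re
    simpa using this
  have eW : ∫ z, WW fp z ∂ν =
      ∑ k : Fin N → Fin (N + R), SG.gw N (N + R) k * WW fp (gz (N + R) k) := by
    have h2 := tW.mean hN (le_refl (N + R)) h1 hm
    rw [integral_complex_ofReal] at h2
    unfold E0 at h2
    beta_reduce at h2
    exact_mod_cast h2
  have eD : ∫ z, DD fp fm z ∂ν =
      ∑ k : Fin N → Fin (N + R), SG.gw N (N + R) k * DD fp fm (gz (N + R) k) := by
    have h2 := tD.mean hN (le_refl (N + R)) h1 hm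
    rw [integral_complex_ofReal] at h2
    unfold E0 at h2
    beta_reduce at h2
    exact_mod_cast h2
  rw [← eW, ← integral_sub (longGaps_int ℓ ν) iW]
  refine (abs_integral_le_integral_abs).trans ?_
  refine le_trans ?_ hD
  rw [← eD]
  refine integral_mono_ae ((longGaps_int ℓ ν).sub iW).abs iD ?_
  filter_upwards [h1] with z hz
  exact gaps_sand h0 (by assumption) hp hz

end

end Pool.Agent.H481.AC
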