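import Pool.Agent.H481.AC8

/-!
The law of the eigenvalues as a measure.
-/

open Finset MeasureTheory
open Pool.Agent.R319.UM

namespace Pool.Agent.H481.AC

noncomputable section

variable {N : ℕ}

lemma ez_cont : Continuous (ez : (Fin N → ℝ) → (Fin N → ℂ)) := by
  unfold ez
  fun_prop

lemma V2_cont : Continuous (V2 : (Fin N → ℂ) → ℝ) := by
  unfold V2
  fun_prop

/-- the density -/
def den (N : ℕ) (θ : Fin N → ℝ) : ENNReal :=
  ENNReal.ofReal (((N.factorial : ℝ) * (2 * Real.pi) ^ N)⁻¹ * V2 (ez θ))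

/-- the law of the eigenvalues -/
def haarLaw (N : ℕ) : Measure (Fin N → ℂ) :=
  Measure.map ez ((volume.restrict (box N)).withDensity (den N))

lemma den_meas : Measurable (den N) := by
  unfold den
  exact (((V2_cont.comp ez_cont).measurable).const_mul _).ennreal_ofReal

theorem haar_int {f : (Fin N → ℂ) → ℂ} (hf : Measurable f) :
    ∫ z, f z ∂(haarLaw N) = cue f := by
  unfold haarLaw
  rw [integral_map ez_cont.measurable.aemeasurable hf.aestronglyMeasurable,
    integral_withDensity_eq_integral_toReal_smul den_meas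
      (Filter.Eventually.of_forall fun θ => ENNReal.ofReal_lt_top)]
  unfold cue
  rw [← integral_const_mul]
  refine integral_congr_ae (Filter.Eventually.of_forall fun θ => ?_)
  have h0 : 0 ≤ ((N.factorial : ℝ) * (2 * Real.pi) ^ N)⁻¹ * V2 (ez θ) := by
    unfold V2
    positivity
  beta_reduce
  unfold den
  rw [ENNReal.toReal_ofReal h0, Complex.real_smul]
  push_cast
  ring

lemma haar_prob (hN : 0 < N) : IsProbabilityMeasure (haarLaw N) := by
  have h1 := haar_int (N := N) (f := fun _ => (1 : ℂ)) measurable_const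
  have hNf : (N.factorial : ℂ) ≠ 0 := by exact_mod_cast N.factorial_ne_zero
  have h2 := SB.cue_one hN
  have h3 : cue (N := N) (fun z => MvPolynomial.eval z (1 : MvPolynomial (Fin N) ℂ) *
      (starRingEnd ℂ) (MvPolynomial.eval z (1 : MvPolynomial (Fin N) ℂ))) = 1 := by
    apply mul_left_cancel₀ hNf
    rw [h2, mul_one]
  simp only [map_one, mul_one] at h3
  rw [h3, integral_const] at h1
  have h4 : (haarLaw N).real Set.univ = 1 := by
    rw [Complex.real_smul, mul_one] at h1
    exact_mod_cast h1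
  constructor
  unfold Measure.real at h4
  exact (ENNReal.toReal_eq_one_iff _).1 h4

lemma haar_unit : ∀ᵐ z ∂(haarLaw N), ∀ i, ‖z i‖ = 1 := by
  unfold haarLaw
  rw [ae_map_iff ez_cont.measurable.aemeasurable]
  · refine Filter.Eventually.of_forall fun θ i => ?_
    unfold ez
    rw [mul_comm, Complex.norm_exp_ofReal_mul_I]
  · have : {z : Fin N → ℂ | ∀ i, ‖z i‖ = 1} = ⋂ i, {z : Fin N → ℂ | ‖z i‖ = 1} := by
      ext z
      simp
    rw [this]
    exact MeasurableSet.iInter fun i =>
      measurableSet_eq_fun (measurable_pi_apply i).norm measurable_const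

lemma haar_mom (F G : MvPolynomial (Fin N) ℂ) :
    ∫ z, MvPolynomial.eval z F * (starRingEnd ℂ) (MvPolynomial.eval z G) ∂(haarLaw N) =
      cue (fun z => MvPolynomial.eval z F * (starRingEnd ℂ) (MvPolynomial.eval z G)) := by
  refine haar_int ?_
  exact ((MvPolynomial.continuous_eval F).mul
    (Complex.continuous_conj.comp (MvPolynomial.continuous_eval G))).measurable

lemma haar_gaps (ℓ : ℝ) :
    ((∫ z, (longGaps ℓ z : ℝ) ∂(haarLaw N) : ℝ) : ℂ) =
      cue (N := N) (fun z => (longGaps ℓ z : ℂ)) := by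
  rw [← haar_int]
  · rw [← integral_complex_ofReal]
    simp
  · have := (longGaps_meas (N := N) ℓ)
    have h2 : Measurable fun z : Fin N → ℂ => ((longGaps ℓ z : ℝ) : ℂ) :=
      Complex.measurable_ofReal.comp this
    simpa using h2

lemma share_bound (hN : 0 < N) (ℓ : ℝ) (μ : Measure (Fin N → ℂ)) (_ : IsProbabilityMeasure μ) :
    0 ≤ (∫ z, (longGaps ℓ z : ℝ) ∂μ) / N ∧ (∫ z, (longGaps ℓ z : ℝ) ∂μ) / N ≤ 1 := by
  have hN0 : (0 : ℝ) < N := by exact_mod_cast hN
  constructor
  · have : 0 ≤ ∫ z, (longGaps ℓ z : ℝ) ∂μ := integral_nonneg fun z => Nat.cast_nonneg _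
    positivity
  · rw [div_le_one hN0]
    have h2 : ∫ z, (longGaps ℓ z : ℝ) ∂μ ≤ ∫ _z, (N : ℝ) ∂μ :=
      integral_mono (longGaps_int _ μ) (integrable_const _) fun z => by
        have := longGaps_le ℓ z
        beta_reduce
        exact_mod_cast this
    simpa using h2

lemma longGaps_zero (hN : 0 < N) {s : ℝ} (hsN : N ≤ s) (z : Fin N → ℂ) :
    longGaps (2 * Real.pi * s / N) z = 0 := by
  classical
  have hN0 : (0 : ℝ) < N := by exact_mod_cast hN
  have hpi := Real.pi_pos
  unfold longGaps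
  rw [Finset.card_eq_zero, Finset.filter_eq_empty_iff]
  intro j _ h
  have h2 := h.2 j
  have h3 : ang (z j * (starRingEnd ℂ) (z j)) ≤ 2 * Real.pi := by
    unfold ang
    have h5 := Complex.arg_le_pi (z j * (starRingEnd ℂ) (z j))
    split_ifs with h4
    · linarith
    · linarith
  have h4 : 2 * Real.pi ≤ 2 * Real.pi * s / N := by
    rw [le_div_iff₀ hN0]
    exact mul_le_mul_of_nonneg_left hsN (by positivity)
  linarith

/-- **the upper bound** -/
theorem upper (hN : 0 < N) {R : ℕ} (hR : 0 < R) {s : ℝ} (hs : 0 ≤ s)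
    (ν : Measure (Fin N → ℂ)) (hν : IsProbabilityMeasure ν)
    (h1 : ∀ᵐ z ∂ν, ∀ i, ‖z i‖ = 1)
    (hm : ∀ F G : MvPolynomial (Fin N) ℂ, F.totalDegree ≤ R → G.totalDegree ≤ R →
      ∫ z, MvPolynomial.eval z F * (starRingEnd ℂ) (MvPolynomial.eval z G) ∂ν =
        cue (fun z => MvPolynomial.eval z F * (starRingEnd ℂ) (MvPolynomial.eval z G)))
    (ν' : Measure (Fin N → ℂ)) (hν' : IsProbabilityMeasure ν')
    (h1' : ∀ᵐ z ∂ν', ∀ i, ‖z i‖ = 1)
    (hm' : ∀ F G : MvPolynomial (Fin N) ℂ, F.totalDegree ≤ R → G.totalDegree ≤ R →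
      ∫ z, MvPolynomial.eval z F * (starRingEnd ℂ) (MvPolynomial.eval z G) ∂ν' =
        cue (fun z => MvPolynomial.eval z F * (starRingEnd ℂ) (MvPolynomial.eval z G))) :
    |(∫ z, (longGaps (2 * Real.pi * s / N) z : ℝ) ∂ν) / N -
      (∫ z, (longGaps (2 * Real.pi * s / N) z : ℝ) ∂ν') / N| ≤
        16000 * Real.exp (4 * s) * (N / R) := by
  have hN0 : (0 : ℝ) < N := by exact_mod_cast hN
  have hR0 : (0 : ℝ) < R := by exact_mod_cast hR
  have hpi := Real.pi_pos
  by_cases hRN : 16 * N ≤ R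
  · by_cases hsN : s < N
    · obtain ⟨c, hc⟩ := class_bound hN hRN hs hsN
      have a1 := hc ν hν h1 hm
      have a2 := hc ν' hν' h1' hm'
      rw [← sub_div, abs_div, abs_of_pos hN0, div_le_iff₀ hN0]
      have e : 16000 * Real.exp (4 * s) * (N / R) * N =
          16000 * Real.exp (4 * s) * ((N : ℝ) ^ 2 / R) := by ring
      rw [e]
      have h4 : 0 < Real.exp (4 * s) := Real.exp_pos _
      have h5 : 0 ≤ Real.exp (4 * s) * ((N : ℝ) ^ 2 / R) := by positivity
      rw [abs_le] at a1 a2 ⊢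
      constructor <;> linarith [a1.1, a1.2, a2.1, a2.2]
    · push Not at hsN
      simp only [longGaps_zero hN hsN, Nat.cast_zero, integral_zero, zero_div, sub_self, abs_zero]
      positivity
  · push Not at hRN
    have hRN' : (R : ℝ) < 16 * N := by exact_mod_cast hRN
    have a1 := share_bound hN (2 * Real.pi * s / N) ν hν
    have a2 := share_bound hN (2 * Real.pi * s / N) ν' hν'
    have h3 : (1 : ℝ) ≤ 16000 * Real.exp (4 * s) * (N / R) := by
      have h4 : 1 ≤ Real.exp (4 * s) := Real.one_le_exp (by positivity)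
      have h5 : (1 : ℝ) / 16 ≤ N / R := by
        rw [div_le_div_iff₀ (by norm_num) hR0]
        linarith
      calc (1 : ℝ) ≤ 16000 * 1 * (1 / 16) := by norm_num
        _ ≤ _ := by gcongr
    refine le_trans ?_ h3
    rw [abs_le]
    constructor <;> linarith [a1.1, a1.2, a2.1, a2.2]

end

end Pool.Agent.H481.AC
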