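import Pool.Agent.H481.MG6

/-!
The laws on cosets of the roots of unity.
-/

open MvPolynomial Finset MeasureTheory
open Pool.Agent.R319.UM

namespace Pool.Agent.H481.FF

open AC

noncomputable section

variable {N : ℕ}

/-- product weights against a monomial, with positions which depend on the slot -/
lemma sum_monG {X : Type*} [Fintype X] (pos : Fin N → X → ℂ) (d e : Fin N → ℕ) :
    ∑ x : Fin N → X, mon d e (fun k => pos k (x k)) =
      ∏ k, ∑ x, (pos k x ^ d k * (starRingEnd ℂ) (pos k x ^ e k)) := by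
  classical
  rw [Finset.prod_univ_sum, Fintype.piFinset_univ]
  rfl

lemma sum_expandG {X : Type*} [Fintype X] (pos : Fin N → X → ℂ) (P Q : MvPolynomial (Fin N) ℂ) :
    ∑ x : Fin N → X, (eval (fun k => pos k (x k)) P *
        (starRingEnd ℂ) (eval (fun k => pos k (x k)) Q)) =
      ∑ d ∈ P.support, ∑ e ∈ Q.support, P.coeff d * (starRingEnd ℂ) (Q.coeff e) *
        ∏ k, ∑ x, (pos k x ^ d k * (starRingEnd ℂ) (pos k x ^ e k)) := by
  simp only [expand, ← sum_monG]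
  simp only [Finset.mul_sum]
  rw [Finset.sum_comm]
  refine Finset.sum_congr rfl fun d _ => ?_
  rw [Finset.sum_comm]

/-- the positions -/
def cz (c : Fin N → ℂ) (D : ℕ) (x : Fin N → Fin D) : Fin N → ℂ := fun k => c k * rt D (x k)

lemma coset_mom {c : ℂ} (hc : ‖c‖ = 1) {D a b : ℕ} (ha : a < D) (hb : b < D) :
    ∑ x : Fin D, ((c * rt D x) ^ a * (starRingEnd ℂ) ((c * rt D x) ^ b)) =
      ∑ x : Fin D, (rt D x ^ a * (starRingEnd ℂ) (rt D x ^ b)) := by
  have h : ∑ x : Fin D, (rt D x ^ a * (starRingEnd ℂ) (rt D x ^ b)) =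
      if a = b then (D : ℂ) else 0 := one_disc (by omega) ha hb
  have e : ∀ x : Fin D, (c * rt D x) ^ a * (starRingEnd ℂ) ((c * rt D x) ^ b) =
      (c ^ a * (starRingEnd ℂ) (c ^ b)) * (rt D x ^ a * (starRingEnd ℂ) (rt D x ^ b)) := by
    intro x
    rw [mul_pow, mul_pow, map_mul]
    ring
  simp only [e, ← Finset.mul_sum]
  rw [h]
  by_cases hab : a = b
  · subst hab
    rw [SB.unit_pow hc, one_mul]
  · rw [if_neg hab, mul_zero]

/-- the means over the cosets -/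
theorem swapC {c : Fin N → ℂ} (hc : ∀ i, ‖c i‖ = 1) {D : ℕ} (P Q : MvPolynomial (Fin N) ℂ)
    (hP : ∀ j, P.degreeOf j < D) (hQ : ∀ j, Q.degreeOf j < D) :
    ∑ x : Fin N → Fin D, (eval (cz c D x) P * (starRingEnd ℂ) (eval (cz c D x) Q)) =
      ∑ x : Fin N → Fin D, (eval (gz D x) P * (starRingEnd ℂ) (eval (gz D x) Q)) := by
  have h1 := sum_expandG (fun k (x : Fin D) => c k * rt D x) P Q
  have h2 := sum_expandG (fun (_ : Fin N) (x : Fin D) => rt D x) P Q
  have e1 : ∀ x : Fin N → Fin D, cz c D x = fun k => c k * rt D (x k) := fun _ => rfl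
  have e2 : ∀ x : Fin N → Fin D, gz D x = fun k => rt D (x k) := fun _ => rfl
  simp only [e1, e2]
  rw [h1, h2]
  refine Finset.sum_congr rfl fun d hd => Finset.sum_congr rfl fun e he => ?_
  congr 1
  refine Finset.prod_congr rfl fun k _ => coset_mom (hc k) ?_ ?_
  · exact lt_of_le_of_lt (MvPolynomial.monomial_le_degreeOf k hd) (hP k)
  · exact lt_of_le_of_lt (MvPolynomial.monomial_le_degreeOf k he) (hQ k)

/-- the weights -/
def cw (c : Fin N → ℂ) (D : ℕ) (x : Fin N → Fin D) : ℝ :=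
  V2 (cz c D x) / (N.factorial * (D : ℝ) ^ N)

lemma cw_nonneg (c : Fin N → ℂ) (D : ℕ) (x : Fin N → Fin D) : 0 ≤ cw c D x := by
  unfold cw V2
  positivity

/-- the mean -/
lemma cw_mean (hN : 0 < N) {c : Fin N → ℂ} (hc : ∀ i, ‖c i‖ = 1) {R D : ℕ} (hD : N + R ≤ D)
    (F G : MvPolynomial (Fin N) ℂ) (hF : F.totalDegree ≤ R) (hG : G.totalDegree ≤ R) :
    ∑ x : Fin N → Fin D, (cw c D x : ℂ) *
      (eval (cz c D x) F * (starRingEnd ℂ) (eval (cz c D x) G)) =
      cue (fun z => eval z F * (starRingEnd ℂ) (eval z G)) := by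
  have hd : ∀ P : MvPolynomial (Fin N) ℂ, P.totalDegree ≤ R →
      ∀ j, (P * VP N).degreeOf j < D := by
    intro P hP j
    refine lt_of_le_of_lt (MvPolynomial.degreeOf_mul_le _ _ _) ?_
    have h1 := MvPolynomial.degreeOf_le_totalDegree P j
    have h2 := VP_deg hN j
    omega
  have e : ∀ z : Fin N → ℂ, MvPolynomial.eval z (F * VP N) *
      (starRingEnd ℂ) (MvPolynomial.eval z (G * VP N)) =
      (V2 z : ℂ) * (MvPolynomial.eval z F * (starRingEnd ℂ) (MvPolynomial.eval z G)) := by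
    intro z
    rw [← VP_eval, map_mul, map_mul, map_mul]
    ring
  have h := swapC hc (F * VP N) (G * VP N) (hd F hF) (hd G hG)
  simp only [e] at h
  rw [SG.cue_eq_gmean hN hD F G hF hG, SG.gmean_eq]
  unfold cw SG.gw
  have e2 : ∀ (v : ℝ) (s : ℂ), ((v / (N.factorial * (D : ℝ) ^ N) : ℝ) : ℂ) * s =
      ((N.factorial : ℂ) * (D : ℂ) ^ N)⁻¹ * ((v : ℂ) * s) := by
    intro v s
    push_cast
    ring
  simp only [e2]
  rw [← Finset.mul_sum, ← Finset.mul_sum, h]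

lemma cw_sum (hN : 0 < N) {c : Fin N → ℂ} (hc : ∀ i, ‖c i‖ = 1) {D : ℕ} (hD : N ≤ D) :
    ∑ x : Fin N → Fin D, cw c D x = 1 := by
  have h := cw_mean hN hc (R := 0) (by omega : N + 0 ≤ D) 1 1 (by simp) (by simp)
  have h2 := SB.cue_one hN
  have hNf : (N.factorial : ℂ) ≠ 0 := by exact_mod_cast N.factorial_ne_zero
  have h3 : cue (N := N) (fun z => MvPolynomial.eval z (1 : MvPolynomial (Fin N) ℂ) *
      (starRingEnd ℂ) (MvPolynomial.eval z (1 : MvPolynomial (Fin N) ℂ))) = 1 := by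
    apply mul_left_cancel₀ hNf
    rw [h2, mul_one]
  rw [h3] at h
  simp only [map_one, mul_one] at h
  exact_mod_cast h

/-- the law on the cosets -/
def claw (c : Fin N → ℂ) (D : ℕ) : Measure (Fin N → ℂ) := IN.fl (cw c D) (cz c D)

lemma claw_prob (hN : 0 < N) {c : Fin N → ℂ} (hc : ∀ i, ‖c i‖ = 1) {D : ℕ} (hD : N ≤ D) :
    IsProbabilityMeasure (claw c D) := IN.fl_prob (cw_nonneg c D) (cw_sum hN hc hD)

lemma claw_mom (hN : 0 < N) {c : Fin N → ℂ} (hc : ∀ i, ‖c i‖ = 1) {R D : ℕ} (hD : N + R ≤ D)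
    (F G : MvPolynomial (Fin N) ℂ) (hF : F.totalDegree ≤ R) (hG : G.totalDegree ≤ R) :
    ∫ z, eval z F * (starRingEnd ℂ) (eval z G) ∂(claw c D) =
      cue (fun z => eval z F * (starRingEnd ℂ) (eval z G)) := by
  rw [← cw_mean hN hc hD F G hF hG]
  unfold claw
  rw [IN.fl_int (cw_nonneg c D)]
  exact Finset.sum_congr rfl fun k _ => Complex.real_smul

lemma cz_norm {c : Fin N → ℂ} (hc : ∀ i, ‖c i‖ = 1) {D : ℕ} (x : Fin N → Fin D) (i : Fin N) :
    ‖cz c D x i‖ = 1 := by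
  unfold cz
  rw [norm_mul, hc, rt_norm, one_mul]

lemma claw_unit {c : Fin N → ℂ} (hc : ∀ i, ‖c i‖ = 1) (D : ℕ) :
    ∀ᵐ z ∂(claw c D), ∀ i, ‖z i‖ = 1 := IN.fl_ae fun x _ i => cz_norm hc x i

lemma cz_pow (c : Fin N → ℂ) {D : ℕ} (hD : 0 < D) (x : Fin N → Fin D) (i : Fin N) :
    cz c D x i ^ D = c i ^ D := by
  have h : rt D (x i) ^ D = 1 := SG.gz_pow' hD x i
  unfold cz
  rw [mul_pow, h, mul_one]

lemma claw_pow (c : Fin N → ℂ) {D : ℕ} (hD : 0 < D) :
    ∀ᵐ z ∂(claw c D), ∀ i, z i ^ D = c i ^ D := IN.fl_ae fun x _ i => cz_pow c hD x i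

/-- roots of unimodular numbers -/
lemma root_exists {D : ℕ} (hD : 0 < D) (u : Fin N → ℂ) (hu : ∀ i, ‖u i‖ = 1) :
    ∃ c : Fin N → ℂ, (∀ i, ‖c i‖ = 1) ∧ ∀ i, c i ^ D = u i := by
  have h : ∀ i, ∃ c : ℂ, ‖c‖ = 1 ∧ c ^ D = u i := by
    intro i
    refine ⟨Complex.exp (((u i).arg / D : ℝ) * Complex.I), Complex.norm_exp_ofReal_mul_I _, ?_⟩
    have hD0 : (D : ℂ) ≠ 0 := by exact_mod_cast hD.ne'
    rw [← Complex.exp_nat_mul]
    have e : (D : ℂ) * ((((u i).arg / D : ℝ) : ℂ) * Complex.I) = ((u i).arg : ℂ) * Complex.I := by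
      push_cast
      field_simp
    rw [e]
    have h2 := Complex.norm_mul_exp_arg_mul_I (u i)
    rw [hu i, Complex.ofReal_one, one_mul] at h2
    exact h2
  choose c hc using h
  exact ⟨c, fun i => (hc i).1, fun i => (hc i).2⟩

end

end Pool.Agent.H481.FF
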