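import Pool.Agent.H481.FF1

/-!
The powers of the points beyond the range can have any law.
-/

open MvPolynomial Finset MeasureTheory
open Pool.Agent.R319.UM

namespace Pool.Agent.H481.FF

open AC

noncomputable section

variable {N : ℕ}

/-- a root of a unimodular vector -/
def cc (D : ℕ) (u : Fin N → ℂ) : Fin N → ℂ := fun i =>
  Complex.exp (((u i).arg / D : ℝ) * Complex.I)

lemma cc_norm (D : ℕ) (u : Fin N → ℂ) (i : Fin N) : ‖cc D u i‖ = 1 :=
  Complex.norm_exp_ofReal_mul_I _

lemma cc_pow {D : ℕ} (hD : 0 < D) {u : Fin N → ℂ} (hu : ∀ i, ‖u i‖ = 1) (i : Fin N) :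
    cc D u i ^ D = u i := by
  have hD0 : (D : ℂ) ≠ 0 := by exact_mod_cast hD.ne'
  unfold cc
  rw [← Complex.exp_nat_mul]
  have e : (D : ℂ) * ((((u i).arg / D : ℝ) : ℂ) * Complex.I) = ((u i).arg : ℂ) * Complex.I := by
    push_cast
    field_simp
  rw [e]
  have h2 := Complex.norm_mul_exp_arg_mul_I (u i)
  rw [hu i, Complex.ofReal_one, one_mul] at h2
  exact h2

lemma cc_meas (D : ℕ) : Measurable (cc D : (Fin N → ℂ) → Fin N → ℂ) := by
  refine measurable_pi_lambda _ fun i => ?_
  unfold cc
  refine Complex.measurable_exp.comp (Measurable.mul_const ?_ _)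
  refine Complex.measurable_ofReal.comp (Measurable.div_const ?_ _)
  exact Complex.measurable_arg.comp (measurable_pi_apply i)

lemma pos_meas (D : ℕ) (x : Fin N → Fin D) :
    Measurable fun u : Fin N → ℂ => cz (cc D u) D x := by
  refine measurable_pi_lambda _ fun i => ?_
  unfold cz
  exact Measurable.mul_const ((measurable_pi_apply i).comp (cc_meas D)) _

lemma V2_meas : Measurable (V2 : (Fin N → ℂ) → ℝ) := by
  unfold V2
  fun_prop

lemma w_meas (D : ℕ) (x : Fin N → Fin D) :
    Measurable fun u : Fin N → ℂ => cw (cc D u) D x := by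
  unfold cw
  exact (V2_meas.comp (pos_meas D x)).div_const _

/-- the mixture of the laws on the cosets -/
def mlaw (μ : Measure (Fin N → ℂ)) (D : ℕ) : Measure (Fin N → ℂ) :=
  ∑ x : Fin N → Fin D, Measure.map (fun u => cz (cc D u) D x)
    (μ.withDensity fun u => ENNReal.ofReal (cw (cc D u) D x))

variable {μ : Measure (Fin N → ℂ)}

lemma w_total (hN : 0 < N) {D : ℕ} (hD : N ≤ D) (u : Fin N → ℂ) :
    ∑ x : Fin N → Fin D, ENNReal.ofReal (cw (cc D u) D x) = 1 := by
  rw [← ENNReal.ofReal_sum_of_nonneg fun x _ => cw_nonneg _ _ _,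
    cw_sum hN (cc_norm D u) hD, ENNReal.ofReal_one]

lemma dens_sum (hN : 0 < N) {D : ℕ} (hD : N ≤ D) (μ : Measure (Fin N → ℂ)) :
    ∑ x : Fin N → Fin D, μ.withDensity (fun u => ENNReal.ofReal (cw (cc D u) D x)) = μ := by
  classical
  have h : ∀ s : Finset (Fin N → Fin D),
      ∑ x ∈ s, μ.withDensity (fun u => ENNReal.ofReal (cw (cc D u) D x)) =
        μ.withDensity (fun u => ∑ x ∈ s, ENNReal.ofReal (cw (cc D u) D x)) := by
    intro s
    induction s using Finset.induction_on with
    | empty => simp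
    | insert a s ha ih =>
      rw [Finset.sum_insert ha, ih]
      simp only [Finset.sum_insert ha]
      have := withDensity_add_left (μ := μ)
        (f := fun u => ENNReal.ofReal (cw (cc D u) D a)) (w_meas D a).ennreal_ofReal
        (fun u => ∑ x ∈ s, ENNReal.ofReal (cw (cc D u) D x))
      exact this.symm
  rw [h univ]
  simp only [w_total hN hD]
  exact withDensity_one

lemma w_le (hN : 0 < N) {D : ℕ} (hD : N ≤ D) (u : Fin N → ℂ) (x : Fin N → Fin D) :
    cw (cc D u) D x ≤ 1 := by
  rw [← cw_sum hN (cc_norm D u) hD]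
  exact Finset.single_le_sum (f := fun x => cw (cc D u) D x)
    (fun x _ => cw_nonneg _ _ _) (Finset.mem_univ x)

lemma mlaw_prob (hN : 0 < N) {D : ℕ} (hD : N ≤ D) [IsProbabilityMeasure μ] :
    IsProbabilityMeasure (mlaw μ D) := by
  constructor
  unfold mlaw
  rw [Measure.coe_finsetSum, Finset.sum_apply]
  have e : ∀ x : Fin N → Fin D, (Measure.map (fun u => cz (cc D u) D x)
    (μ.withDensity fun u => ENNReal.ofReal (cw (cc D u) D x))) Set.univ =
    (μ.withDensity fun u => ENNReal.ofReal (cw (cc D u) D x)) Set.univ := by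
    intro x
    rw [Measure.map_apply (pos_meas D x) MeasurableSet.univ, Set.preimage_univ]
  simp only [e]
  have h := congrArg (fun m : Measure (Fin N → ℂ) => m Set.univ) (dens_sum hN hD μ)
  simp only [Measure.coe_finsetSum, Finset.sum_apply] at h
  rw [h, measure_univ]

lemma mlaw_unit (μ : Measure (Fin N → ℂ)) (D : ℕ) : ∀ᵐ z ∂(mlaw μ D), ∀ i, ‖z i‖ = 1 := by
  unfold mlaw
  rw [Filter.Eventually, MeasureTheory.mem_ae_iff, Measure.coe_finsetSum, Finset.sum_apply]
  refine Finset.sum_eq_zero fun x _ => ?_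
  have hm : MeasurableSet {z : Fin N → ℂ | ∀ i, ‖z i‖ = 1} := by
    have : {z : Fin N → ℂ | ∀ i, ‖z i‖ = 1} = ⋂ i, {z | ‖z i‖ = 1} := by
      ext z
      simp
    rw [this]
    exact MeasurableSet.iInter fun i => (isClosed_eq (by fun_prop) continuous_const).measurableSet
  rw [Measure.map_apply (pos_meas D x) hm.compl]
  have : (fun u : Fin N → ℂ => cz (cc D u) D x) ⁻¹' {z : Fin N → ℂ | ∀ i, ‖z i‖ = 1}ᶜ = ∅ := by
    ext u
    simp only [Set.mem_preimage, Set.mem_compl_iff, Set.mem_ofPred_eq, Set.mem_empty_iff_false,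
      iff_false, not_not]
    exact cz_norm (cc_norm D u) x
  rw [this, measure_empty]

/-- integration -/
lemma mlaw_int (hN : 0 < N) {D : ℕ} (hD : N ≤ D) [IsProbabilityMeasure μ]
    {f : (Fin N → ℂ) → ℂ} (hf : Continuous f) :
    ∫ z, f z ∂(mlaw μ D) = ∫ u, ∑ x : Fin N → Fin D, (cw (cc D u) D x : ℂ) *
      f (cz (cc D u) D x) ∂μ := by
  have hcpt : IsCompact (Set.univ.pi fun _ : Fin N => Metric.sphere (0 : ℂ) 1) :=
    isCompact_univ_pi fun _ => isCompact_sphere 0 1
  obtain ⟨C, hC⟩ := hcpt.exists_bound_of_continuousOn hf.continuousOn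
  have hbd : ∀ (u : Fin N → ℂ) (x : Fin N → Fin D), ‖f (cz (cc D u) D x)‖ ≤ C := by
    intro u x
    refine hC _ ?_
    intro i _
    rw [mem_sphere_zero_iff_norm]
    exact cz_norm (cc_norm D u) x i
  have hfm : ∀ x : Fin N → Fin D, Measurable fun u : Fin N → ℂ => f (cz (cc D u) D x) :=
    fun x => hf.measurable.comp (pos_meas D x)
  have hint : ∀ x : Fin N → Fin D, Integrable (fun u => (cw (cc D u) D x : ℂ) *
      f (cz (cc D u) D x)) μ := by
    intro x
    refine Integrable.of_bound ?_ C (Filter.Eventually.of_forall fun u => ?_)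
    · exact ((Complex.measurable_ofReal.comp (w_meas D x)).mul (hfm x)).aestronglyMeasurable
    · rw [norm_mul, Complex.norm_real, Real.norm_of_nonneg (cw_nonneg _ _ _)]
      calc cw (cc D u) D x * ‖f (cz (cc D u) D x)‖ ≤ 1 * C :=
            mul_le_mul (w_le hN hD u x) (hbd u x) (norm_nonneg _) zero_le_one
        _ = C := one_mul C
  have hfin : ∀ x : Fin N → Fin D, IsFiniteMeasure
      (μ.withDensity fun u => ENNReal.ofReal (cw (cc D u) D x)) := by
    intro x
    constructor
    rw [withDensity_apply _ MeasurableSet.univ]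
    refine lt_of_le_of_lt (lintegral_mono (g := fun _ => 1) fun u => ?_) ?_
    · exact ENNReal.ofReal_le_one.2 (w_le hN hD u x)
    · simp
  have hint2 : ∀ x : Fin N → Fin D, Integrable f (Measure.map (fun u => cz (cc D u) D x)
      (μ.withDensity fun u => ENNReal.ofReal (cw (cc D u) D x))) := by
    intro x
    have := hfin x
    rw [integrable_map_measure hf.aestronglyMeasurable (pos_meas D x).aemeasurable]
    exact Integrable.of_bound (hfm x).aestronglyMeasurable C
      (Filter.Eventually.of_forall fun u => hbd u x)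
  unfold mlaw
  rw [integral_finsetSum_measure fun x _ => hint2 x,
    integral_finsetSum _ fun x _ => hint x]
  refine Finset.sum_congr rfl fun x _ => ?_
  rw [integral_map (pos_meas D x).aemeasurable hf.aestronglyMeasurable,
    integral_withDensity_eq_integral_toReal_smul (w_meas D x).ennreal_ofReal
      (Filter.Eventually.of_forall fun u => ENNReal.ofReal_lt_top)]
  refine integral_congr_ae (Filter.Eventually.of_forall fun u => ?_)
  simp only
  rw [ENNReal.toReal_ofReal (cw_nonneg _ _ _), Complex.real_smul]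

/-- the moments -/
theorem mlaw_mom (hN : 0 < N) {R D : ℕ} (hD : N + R ≤ D) [IsProbabilityMeasure μ]
    (F G : MvPolynomial (Fin N) ℂ) (hF : F.totalDegree ≤ R) (hG : G.totalDegree ≤ R) :
    ∫ z, eval z F * (starRingEnd ℂ) (eval z G) ∂(mlaw μ D) =
      cue (fun z => eval z F * (starRingEnd ℂ) (eval z G)) := by
  have hc : Continuous fun z : Fin N → ℂ => eval z F * (starRingEnd ℂ) (eval z G) :=
    (poly_cont F).mul (Complex.continuous_conj.comp (poly_cont G))
  rw [mlaw_int hN (by omega) hc]
  simp only [cw_mean hN (cc_norm D _) hD F G hF hG]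
  simp

/-- **the powers have the prescribed law** -/
theorem mlaw_map (hN : 0 < N) {D : ℕ} (hD : N ≤ D) (hμ : ∀ᵐ u ∂μ, ∀ i, ‖u i‖ = 1) :
    Measure.map (fun z : Fin N → ℂ => fun i => z i ^ D) (mlaw μ D) = μ := by
  have hD0 : 0 < D := by omega
  have hpm : Measurable fun z : Fin N → ℂ => fun i => z i ^ D := by fun_prop
  unfold mlaw
  have e1 : ∀ s : Finset (Fin N → Fin D), Measure.map (fun z : Fin N → ℂ => fun i => z i ^ D)
      (∑ x ∈ s, Measure.map (fun u => cz (cc D u) D x)
        (μ.withDensity fun u => ENNReal.ofReal (cw (cc D u) D x))) =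
      ∑ x ∈ s, μ.withDensity (fun u => ENNReal.ofReal (cw (cc D u) D x)) := by
    classical
    intro s
    induction s using Finset.induction_on with
    | empty => simp
    | insert a s ha ih =>
      rw [Finset.sum_insert ha, Finset.sum_insert ha, Measure.map_add _ _ hpm, ih]
      congr 1
      rw [Measure.map_map hpm (pos_meas D a)]
      have hae : (fun z : Fin N → ℂ => fun i => z i ^ D) ∘ (fun u => cz (cc D u) D a)
          =ᵐ[μ.withDensity fun u => ENNReal.ofReal (cw (cc D u) D a)] id := by
        refine (withDensity_absolutelyContinuous _ _).ae_eq ?_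
        filter_upwards [hμ] with u hu
        funext i
        simp only [Function.comp_apply, id]
        rw [cz_pow _ hD0, cc_pow hD0 hu]
      rw [Measure.map_congr hae, Measure.map_id]
  rw [e1 univ, dens_sum hN hD μ]

end

end Pool.Agent.H481.FF
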