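import Pool.Agent.H481.FF2

/-!
The form factor between `R` and `N + R`.
-/

open MvPolynomial Finset MeasureTheory
open Pool.Agent.R319.UM

namespace Pool.Agent.H481.FF

open AC

noncomputable section

variable {N : ℕ}

/-- the form factor -/
def ffac (ν : Measure (Fin N → ℂ)) (k : ℤ) : ℝ := ∫ z, ‖∑ i, z i ^ k‖ ^ 2 ∂ν

/-- sums over two slots do not depend on the slots -/
lemma slot_sum (h : ℕ → ℕ → ℂ) {i j i' j' : Fin N} (hij : i ≠ j) (hij' : i' ≠ j') :
    ∑ σ : Equiv.Perm (Fin N), h (σ i) (σ j) = ∑ σ : Equiv.Perm (Fin N), h (σ i') (σ j') := by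
  classical
  -- a permutation with `τ i' = i`, `τ j' = j`
  have hex : ∃ τ : Equiv.Perm (Fin N), τ i' = i ∧ τ j' = j := by
    refine ⟨Equiv.swap (Equiv.swap i' i j') j * Equiv.swap i' i, ?_, ?_⟩
    · rw [Equiv.Perm.mul_apply, Equiv.swap_apply_left, Equiv.swap_apply_of_ne_of_ne _ hij]
      intro h
      have h2 := congrArg (Equiv.swap i' i) h
      rw [Equiv.swap_apply_right, Equiv.swap_apply_self] at h2
      exact hij' h2
    · rw [Equiv.Perm.mul_apply, Equiv.swap_apply_left]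
  obtain ⟨τ, h1, h2⟩ := hex
  rw [← Equiv.sum_comp (Equiv.mulRight τ) (fun σ : Equiv.Perm (Fin N) => h (σ i') (σ j'))]
  refine Finset.sum_congr rfl fun σ _ => ?_
  simp only [Equiv.coe_mulRight, Equiv.Perm.mul_apply, h1, h2]

lemma X_deg (i : Fin N) (r : ℕ) : ((X i : MvPolynomial (Fin N) ℂ) ^ r).totalDegree ≤ r :=
  (totalDegree_X_pow i r).le

/-- the pair moment -/
lemma cue_pair (hN : 2 ≤ N) {r : ℕ} (hr : 0 < r) (i j : Fin N) :
    cue (N := N) (fun z => eval z ((X i : MvPolynomial (Fin N) ℂ) ^ r) *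
      (starRingEnd ℂ) (eval z ((X j : MvPolynomial (Fin N) ℂ) ^ r))) =
      if i = j then (1 : ℂ) else -(((N : ℂ) - (min r N : ℕ)) / ((N : ℂ) * (N - 1))) := by
  classical
  have hNf : (N.factorial : ℂ) ≠ 0 := by exact_mod_cast N.factorial_ne_zero
  have h := SB.cue_as_grid (by omega) (R := r) (K := N + r) (le_refl _) _ _ (X_deg i r) (X_deg j r)
  simp only [map_pow, eval_X] at h ⊢
  have hp := SB.pair_mom hr (le_refl (N + r)) i j
  simp only [map_pow] at hp
  rw [hp] at h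
  apply mul_left_cancel₀ hNf
  rw [h]
  by_cases hij : i = j
  · rw [if_pos hij, if_pos hij, mul_one]
  · rw [if_neg hij, if_neg hij]
    have hs := SB.slots (N := N) (fun a b => if a + r = b then (1 : ℂ) else 0)
      (fun a => if_neg (by omega))
    rw [SB.count_shift] at hs
    set S := ∑ σ : Equiv.Perm (Fin N), (if (σ i : ℕ) + r = σ j then (1 : ℂ) else 0) with hS
    have e1 : ∀ i' : Fin N, ∑ j' ∈ univ.erase i', ∑ σ : Equiv.Perm (Fin N),
        (if (σ i' : ℕ) + r = σ j' then (1 : ℂ) else 0) = (N - 1) * S := by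
      intro i'
      have : ∀ j' ∈ univ.erase i', ∑ σ : Equiv.Perm (Fin N),
          (if (σ i' : ℕ) + r = σ j' then (1 : ℂ) else 0) = S := by
        intro j' hj'
        exact slot_sum (fun a b => if a + r = b then (1 : ℂ) else 0)
          (Finset.ne_of_mem_erase hj').symm hij
      rw [Finset.sum_congr rfl this, Finset.sum_const, Finset.card_erase_of_mem (Finset.mem_univ _),
        Finset.card_univ, Fintype.card_fin, nsmul_eq_mul, Nat.cast_sub (by omega), Nat.cast_one]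
    simp only [e1] at hs
    rw [Finset.sum_const, Finset.card_univ, Fintype.card_fin, nsmul_eq_mul] at hs
    have hN0 : (N : ℂ) ≠ 0 := by exact_mod_cast (show N ≠ 0 by omega)
    have hN1 : (N : ℂ) - 1 ≠ 0 := by
      have : ((N - 1 : ℕ) : ℂ) ≠ 0 := by exact_mod_cast (show N - 1 ≠ 0 by omega)
      rwa [Nat.cast_sub (by omega), Nat.cast_one] at this
    field_simp
    linear_combination -hs

/-- the norm of a power sum -/
lemma nsq {k : ℕ} {z : Fin N → ℂ} : ((‖∑ i, z i ^ (k : ℤ)‖ ^ 2 : ℝ) : ℂ) =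
    ∑ i, ∑ j, z i ^ k * (starRingEnd ℂ) (z j ^ k) := by
  simp only [zpow_natCast]
  rw [← Complex.normSq_eq_norm_sq, ← Complex.mul_conj, map_sum, Finset.sum_mul_sum]

/-- the class -/
def Cls (N R : ℕ) (ν : Measure (Fin N → ℂ)) : Prop :=
  ∀ F G : MvPolynomial (Fin N) ℂ, F.totalDegree ≤ R → G.totalDegree ≤ R →
    ∫ z, eval z F * (starRingEnd ℂ) (eval z G) ∂ν =
      cue (fun z => eval z F * (starRingEnd ℂ) (eval z G))

variable {R : ℕ} {ν : Measure (Fin N → ℂ)}

/-- the values inside the range -/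
theorem inside (hN : 0 < N) (hm : Cls N R ν) {k : ℕ} (hk : 0 < k) (hkR : k ≤ R) :
    ffac ν k = (min k N : ℕ) := by
  have hdeg : (psum (Fin N) ℂ k).totalDegree ≤ R := by
    refine le_trans ?_ hkR
    unfold psum
    refine (totalDegree_finsetSum _ _).trans (Finset.sup_le fun i _ => ?_)
    exact (totalDegree_X_pow i k).le
  have h := hm _ _ hdeg hdeg
  rw [SB.form_factor hN hk] at h
  have e : ∀ z : Fin N → ℂ, ((‖∑ i, z i ^ (k : ℤ)‖ ^ 2 : ℝ) : ℂ) =
      eval z (psum (Fin N) ℂ k) * (starRingEnd ℂ) (eval z (psum (Fin N) ℂ k)) := by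
    intro z
    rw [nsq, eval_psum, map_sum, Finset.sum_mul_sum]
  simp only [← e] at h
  have h2 : ∫ z, ((‖∑ i, z i ^ (k : ℤ)‖ ^ 2 : ℝ) : ℂ) ∂ν =
      ((∫ z, ‖∑ i, z i ^ (k : ℤ)‖ ^ 2 ∂ν : ℝ) : ℂ) := integral_ofReal
  rw [h2] at h
  have h4 : ((ffac ν k : ℝ) : ℂ) = (((min k N : ℕ) : ℝ) : ℂ) := by
    rw [Complex.ofReal_natCast]
    exact h
  exact Complex.ofReal_injective h4

/-- the form factor if the powers `z_i ^ D` are deterministic -/
theorem det_ff (hN : 2 ≤ N) [IsProbabilityMeasure ν] (h1 : ∀ᵐ z ∂ν, ∀ i, ‖z i‖ = 1)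
    (hm : Cls N R ν) {D : ℕ} {u : Fin N → ℂ} (hu : ∀ i, ‖u i‖ = 1)
    (hD : ∀ᵐ z ∂ν, ∀ i, z i ^ D = u i) {k r : ℕ} (hk : k + r = D) (hr : 0 < r) (hrR : r ≤ R) :
    ffac ν k = N + (N - (min r N : ℕ)) / (N * (N - 1)) * (N - ‖∑ i, u i‖ ^ 2) := by
  classical
  have hpt : ∀ᵐ z ∂ν, ((‖∑ i, z i ^ (k : ℤ)‖ ^ 2 : ℝ) : ℂ) =
      ∑ i, ∑ j, (u i * (starRingEnd ℂ) (u j)) *
        (eval z ((X j : MvPolynomial (Fin N) ℂ) ^ r) *
          (starRingEnd ℂ) (eval z ((X i : MvPolynomial (Fin N) ℂ) ^ r))) := by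
    filter_upwards [h1, hD] with z hz hzD
    rw [nsq]
    refine Finset.sum_congr rfl fun i _ => Finset.sum_congr rfl fun j _ => ?_
    have key : ∀ i, z i ^ k = u i * (starRingEnd ℂ) (z i ^ r) := by
      intro i
      have h2 := SB.unit_pow (hz i) r
      rw [← hzD i, ← hk, pow_add]
      linear_combination -(z i ^ k) * h2
    rw [key i, key j]
    simp only [map_mul, map_pow, eval_X, Complex.conj_conj]
    ring
  have hint : ∀ i j : Fin N, Integrable (fun z : Fin N → ℂ => (u i * (starRingEnd ℂ) (u j)) *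
        (eval z ((X j : MvPolynomial (Fin N) ℂ) ^ r) *
          (starRingEnd ℂ) (eval z ((X i : MvPolynomial (Fin N) ℂ) ^ r)))) ν :=
    fun i j => (poly_int h1 _ _).const_mul _
  have h2 : ((ffac ν k : ℝ) : ℂ) = ∑ i, ∑ j, (u i * (starRingEnd ℂ) (u j)) *
      (if j = i then (1 : ℂ) else -(((N : ℂ) - (min r N : ℕ)) / ((N : ℂ) * (N - 1)))) := by
    unfold ffac
    have h3 : ∫ z, ((‖∑ i, z i ^ (k : ℤ)‖ ^ 2 : ℝ) : ℂ) ∂ν =
      ((∫ z, ‖∑ i, z i ^ (k : ℤ)‖ ^ 2 ∂ν : ℝ) : ℂ) := integral_ofReal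
    rw [← h3, integral_congr_ae hpt, integral_finsetSum _ fun i _ =>
      integrable_finsetSum _ fun j _ => hint i j]
    refine Finset.sum_congr rfl fun i _ => ?_
    rw [integral_finsetSum _ fun j _ => hint i j]
    refine Finset.sum_congr rfl fun j _ => ?_
    rw [integral_const_mul, hm _ _ ((X_deg j r).trans hrR) ((X_deg i r).trans hrR),
      cue_pair hN hr]
  set b : ℂ := (N - (min r N : ℕ)) / (N * (N - 1)) with hb
  have e1 : ∀ i j : Fin N, (u i * (starRingEnd ℂ) (u j)) * (if j = i then 1 else -b) =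
      -b * (u i * (starRingEnd ℂ) (u j)) + if j = i then (1 + b) else 0 := by
    intro i j
    by_cases hij : j = i
    · subst hij
      have h4 := SB.unit_pow (hu j) 1
      rw [pow_one] at h4
      rw [if_pos rfl, if_pos rfl]
      linear_combination (1 + b) * h4
    · rw [if_neg hij, if_neg hij]
      ring
  simp only [e1, Finset.sum_add_distrib, ← Finset.mul_sum] at h2
  have e2 : ∑ i : Fin N, ∑ j : Fin N, (if j = i then (1 + b) else 0) = N * (1 + b) := by
    simp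
    ring
  have e3 : ∑ i, u i * ∑ j, (starRingEnd ℂ) (u j) = ((‖∑ i, u i‖ ^ 2 : ℝ) : ℂ) := by
    rw [← Finset.sum_mul, ← map_sum, Complex.mul_conj, Complex.normSq_eq_norm_sq]
  rw [e2, e3] at h2
  have h5 : ((ffac ν k : ℝ) : ℂ) = ((N + (N - (min r N : ℕ)) / (N * (N - 1)) *
      (N - ‖∑ i, u i‖ ^ 2) : ℝ) : ℂ) := by
    rw [h2, hb]
    simp only [Complex.ofReal_add, Complex.ofReal_mul, Complex.ofReal_div, Complex.ofReal_sub,
      Complex.ofReal_natCast, Complex.ofReal_one]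
    ring
  exact Complex.ofReal_injective h5

/-- unimodular vectors with a prescribed norm of the sum -/
lemma sum_exists (hN : 2 ≤ N) {v : ℝ} (hv0 : 0 ≤ v) (hv1 : v ≤ (N : ℝ) ^ 2) :
    ∃ u : Fin N → ℂ, (∀ i, ‖u i‖ = 1) ∧ ‖∑ i, u i‖ ^ 2 = v := by
  set g : ℝ → ℝ := fun t => ‖∑ i : Fin N, Complex.exp ((2 * Real.pi * t * i / N : ℝ) * Complex.I)‖ ^ 2
    with hg
  have hc : Continuous g := by
    rw [hg]
    fun_prop
  have g0 : g 0 = (N : ℝ) ^ 2 := by
    simp [hg]
  have g1 : g 1 = 0 := by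
    have hz : ∑ i : Fin N, Complex.exp ((2 * Real.pi * 1 * i / N : ℝ) * Complex.I) = 0 := by
      have h := one_disc (M := N) (by omega) (a := 1) (b := 0) (by omega) (by omega)
      simp only [pow_zero, map_one, mul_one, pow_one, one_ne_zero, if_false] at h
      rw [← h]
      refine Finset.sum_congr rfl fun i _ => ?_
      rw [← Complex.exp_nat_mul]
      congr 1
      push_cast
      ring
    rw [hg]
    beta_reduce
    rw [hz]
    simp
  have hmem : v ∈ Set.Icc (g 1) (g 0) := by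
    rw [g0, g1]
    exact ⟨hv0, hv1⟩
  obtain ⟨t, _, ht⟩ := intermediate_value_Icc' zero_le_one hc.continuousOn hmem
  exact ⟨fun i => Complex.exp ((2 * Real.pi * t * i / N : ℝ) * Complex.I),
    fun i => Complex.norm_exp_ofReal_mul_I _, ht⟩

/-- **between the range and `N + R`** -/
theorem between (hN : 2 ≤ N) {k : ℕ} (hNk : N ≤ k) (hRk : R < k) (hkR : k < N + R) {y : ℝ}
    (hy0 : (N : ℝ) + R - k ≤ y) (hy1 : y ≤ N + ((k : ℝ) - R) / (N - 1)) :
    ∃ ν : Measure (Fin N → ℂ), IsProbabilityMeasure ν ∧ (∀ᵐ z ∂ν, ∀ i, ‖z i‖ = 1) ∧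
      Cls N R ν ∧ ffac ν k = y := by
  have hN2 : (2 : ℝ) ≤ N := by exact_mod_cast hN
  have hkr : (0 : ℝ) < (k : ℝ) - R := by
    have : (R : ℝ) < k := by exact_mod_cast hRk
    linarith
  have hN1 : (0 : ℝ) < (N : ℝ) - 1 := by linarith
  set v : ℝ := N - (y - N) * (N * (N - 1)) / (k - R) with hv
  have hv0 : 0 ≤ v := by
    rw [hv, sub_nonneg, div_le_iff₀ hkr]
    have h2 : (y - N) * (N - 1) ≤ k - R := by
      have : y - N ≤ ((k : ℝ) - R) / (N - 1) := by linarith
      rwa [le_div_iff₀ hN1] at this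
    nlinarith
  have hv1 : v ≤ (N : ℝ) ^ 2 := by
    have h2 : -((N : ℝ) ^ 2 - N) * (k - R) ≤ (y - N) * (N * (N - 1)) := by
      have : -((k : ℝ) - R) ≤ y - N := by linarith
      nlinarith [mul_pos (show (0 : ℝ) < N by linarith) hN1]
    have h3 : -((N : ℝ) ^ 2 - N) ≤ (y - N) * (N * (N - 1)) / (k - R) := by
      rw [le_div_iff₀ hkr]
      exact h2
    rw [hv]
    linarith
  obtain ⟨u, hu, hus⟩ := sum_exists hN hv0 hv1
  have hD0 : 0 < N + R := by omega
  have hc := cc_norm (N + R) u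
  have hprob := claw_prob (by omega) hc (show N ≤ N + R by omega)
  refine ⟨claw (cc (N + R) u) (N + R), hprob, claw_unit hc _,
    fun F G hF hG => claw_mom (by omega) hc (le_refl _) F G hF hG, ?_⟩
  have hpw : ∀ᵐ z ∂(claw (cc (N + R) u) (N + R)), ∀ i, z i ^ (N + R) = u i := by
    filter_upwards [claw_pow (cc (N + R) u) hD0] with z hz i
    rw [hz i, cc_pow hD0 hu]
  rw [det_ff hN (claw_unit hc _) (fun F G hF hG => claw_mom (by omega) hc (le_refl _) F G hF hG)
    hu hpw (show k + (N + R - k) = N + R by omega) (by omega) (by omega), hus, hv]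
  have e1 : ((min (N + R - k) N : ℕ) : ℝ) = N + R - k := by
    rw [min_eq_left (by omega), Nat.cast_sub (by omega)]
    push_cast
    ring
  rw [e1]
  field_simp
  ring

end

end Pool.Agent.H481.FF
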