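import Pool.Agent.H481.FF3

/-!
The averages of the form factor over windows.
-/

open MvPolynomial Finset MeasureTheory
open Pool.Agent.R319.UM

namespace Pool.Agent.H481.FF

open AC MG

noncomputable section

variable {N R L : ℕ}

/-- the sum over a window -/
def wsum (L : ℕ) (k : ℤ) (z : Fin N → ℂ) : ℝ :=
  ∑ a ∈ range L, ∑ b ∈ range L, ‖∑ i, z i ^ (k + a - b)‖ ^ 2

lemma conj_inv {w : ℂ} (hw : ‖w‖ = 1) : (starRingEnd ℂ) w = w⁻¹ := (Complex.inv_eq_conj hw).symm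

/-- the window sum of the powers of a unimodular number -/
lemma win (L : ℕ) (k : ℤ) {w : ℂ} (hw : ‖w‖ = 1) :
    ∑ a ∈ range L, ∑ b ∈ range L, w ^ (k + a - b) = w ^ k * ((‖Dn L w‖ ^ 2 : ℝ) : ℂ) := by
  have hw0 : w ≠ 0 := by
    intro h
    rw [h, norm_zero] at hw
    exact zero_ne_one hw
  rw [← Complex.normSq_eq_norm_sq, ← Complex.mul_conj]
  unfold Dn
  rw [map_sum, Finset.sum_mul_sum, Finset.mul_sum]
  refine Finset.sum_congr rfl fun a _ => ?_
  rw [Finset.mul_sum]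
  refine Finset.sum_congr rfl fun b _ => ?_
  rw [map_pow, conj_inv hw, inv_pow, zpow_sub₀ hw0, zpow_add₀ hw0, zpow_natCast, zpow_natCast]
  field_simp

lemma wsum_eq (L : ℕ) (k : ℤ) {z : Fin N → ℂ} (hz : ∀ i, ‖z i‖ = 1) :
    ((wsum L k z : ℝ) : ℂ) = ∑ i, ∑ j, (z i * (starRingEnd ℂ) (z j)) ^ k *
      ((‖Dn L (z i * (starRingEnd ℂ) (z j))‖ ^ 2 : ℝ) : ℂ) := by
  have h1 : ∀ m : ℤ, ((‖∑ i, z i ^ m‖ ^ 2 : ℝ) : ℂ) =
      ∑ i, ∑ j, (z i * (starRingEnd ℂ) (z j)) ^ m := by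
    intro m
    rw [← Complex.normSq_eq_norm_sq, ← Complex.mul_conj, map_sum, Finset.sum_mul_sum]
    refine Finset.sum_congr rfl fun i _ => Finset.sum_congr rfl fun j _ => ?_
    rw [mul_zpow, map_zpow₀]
  have h2 : ∀ i j, ‖z i * (starRingEnd ℂ) (z j)‖ = 1 := fun i j => (pair_norm hz i j).1
  unfold wsum
  rw [Complex.ofReal_sum]
  simp only [Complex.ofReal_sum, h1]
  have e1 : ∀ a ∈ range L, ∑ b ∈ range L, ∑ i, ∑ j, (z i * (starRingEnd ℂ) (z j)) ^ (k + a - b) =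
      ∑ i, ∑ j, ∑ b ∈ range L, (z i * (starRingEnd ℂ) (z j)) ^ (k + a - b) := by
    intro a _
    rw [Finset.sum_comm]
    refine Finset.sum_congr rfl fun i _ => ?_
    rw [Finset.sum_comm]
  rw [Finset.sum_congr rfl e1, Finset.sum_comm]
  refine Finset.sum_congr rfl fun i _ => ?_
  rw [Finset.sum_comm]
  refine Finset.sum_congr rfl fun j _ => ?_
  exact win L k (h2 i j)

/-- the diagonal -/
lemma split (L : ℕ) (g : ℂ → ℂ) {z : Fin N → ℂ} (hz : ∀ i, ‖z i‖ = 1) (hg : g 1 = 1) :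
    ∑ i, ∑ j, g (z i * (starRingEnd ℂ) (z j)) *
      ((‖Dn L (z i * (starRingEnd ℂ) (z j))‖ ^ 2 : ℝ) : ℂ) =
      (N : ℂ) * (L : ℂ) ^ 2 + ∑ i, ∑ j, (if i = j then (0 : ℂ) else
        g (z i * (starRingEnd ℂ) (z j)) *
          ((‖Dn L (z i * (starRingEnd ℂ) (z j))‖ ^ 2 : ℝ) : ℂ)) := by
  classical
  have e : ∀ i j : Fin N, g (z i * (starRingEnd ℂ) (z j)) *
      ((‖Dn L (z i * (starRingEnd ℂ) (z j))‖ ^ 2 : ℝ) : ℂ) =
      (if j = i then (L : ℂ) ^ 2 else 0) + (if i = j then (0 : ℂ) else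
        g (z i * (starRingEnd ℂ) (z j)) *
          ((‖Dn L (z i * (starRingEnd ℂ) (z j))‖ ^ 2 : ℝ) : ℂ)) := by
    intro i j
    by_cases hij : i = j
    · subst hij
      rw [if_pos rfl, if_pos rfl, mul_conj_unit (hz i), hg, Dn_one]
      simp
    · rw [if_neg (Ne.symm hij), if_neg hij, zero_add]
  rw [Finset.sum_congr rfl fun i _ => Finset.sum_congr rfl fun j _ => e i j]
  simp only [Finset.sum_add_distrib]
  congr 1
  simp

/-- the test function -/
def fL (L : ℕ) (w : ℂ) : ℝ := ‖Dn L w‖ ^ 2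

/-- **the window sums are near to `N L²`** -/
lemma wsum_near (L : ℕ) (k : ℤ) {z : Fin N → ℂ} (hz : ∀ i, ‖z i‖ = 1) :
    |wsum L k z - N * (L : ℝ) ^ 2| ≤ YY (fL L) z := by
  have h := wsum_eq L k hz
  rw [split L (fun w => w ^ k) hz (one_zpow k)] at h
  have h2 : ((wsum L k z - N * (L : ℝ) ^ 2 : ℝ) : ℂ) = ∑ i, ∑ j, (if i = j then (0 : ℂ) else
        (z i * (starRingEnd ℂ) (z j)) ^ k *
          ((‖Dn L (z i * (starRingEnd ℂ) (z j))‖ ^ 2 : ℝ) : ℂ)) := by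
    rw [Complex.ofReal_sub, h]
    push_cast
    ring
  have h3 : |wsum L k z - N * (L : ℝ) ^ 2| = ‖((wsum L k z - N * (L : ℝ) ^ 2 : ℝ) : ℂ)‖ := by
    rw [Complex.norm_real, Real.norm_eq_abs]
  rw [h3, h2]
  unfold YY
  refine (norm_sum_le _ _).trans (Finset.sum_le_sum fun i _ => ?_)
  refine (norm_sum_le _ _).trans (Finset.sum_le_sum fun j _ => ?_)
  by_cases hij : i = j
  · rw [if_pos hij, if_pos hij, norm_zero]
  · rw [if_neg hij, if_neg hij, norm_mul, norm_zpow, (pair_norm hz i j).1, one_zpow, one_mul,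
      Complex.norm_real, Real.norm_of_nonneg (by positivity)]
    exact le_rfl

/-- the extremal case -/
lemma wsum_grid (L : ℕ) (k : ℕ) {z : Fin N → ℂ} (hz : ∀ i, ‖z i‖ = 1) (hk : ∀ i, z i ^ k = 1) :
    wsum L k z = N * (L : ℝ) ^ 2 + YY (fL L) z := by
  have h := wsum_eq L k hz
  rw [split L (fun w => w ^ (k : ℤ)) hz (one_zpow _)] at h
  have e : ∀ i j, (z i * (starRingEnd ℂ) (z j)) ^ (k : ℤ) = 1 := by
    intro i j
    rw [zpow_natCast, mul_pow, ← map_pow, hk, hk, map_one, mul_one]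
  simp only [e, one_mul] at h
  have h2 : ((wsum L k z : ℝ) : ℂ) = ((N * (L : ℝ) ^ 2 + YY (fL L) z : ℝ) : ℂ) := by
    rw [h]
    unfold YY fL
    push_cast
    congr 1
    refine Finset.sum_congr rfl fun i _ => Finset.sum_congr rfl fun j _ => ?_
    split_ifs <;> simp
  exact_mod_cast h2

/-! ### the mean -/

lemma fL_lp (hL : 1 ≤ L) : ∃ μ : ℂ, LP (L - 1) μ (fun w => (fL L w : ℂ)) := by
  refine ⟨_, ((Ph_lpR hL).smul ((L : ℂ) ^ 2)).congr fun w _ => ?_⟩
  have hL0 : (L : ℂ) ≠ 0 := by exact_mod_cast (show L ≠ 0 by omega)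
  unfold fL PhR
  push_cast
  field_simp

/-- counting -/
lemma count4 (hNL : N ≤ L) (c d : Fin N) : ∑ a : Fin L, ∑ b : Fin L,
    (if (a : ℕ) + c = b + d then (1 : ℂ) else 0) = (L : ℂ) - |((c : ℕ) : ℝ) - (d : ℕ)| := by
  have hc := c.2
  have hd := d.2
  rcases le_total (c : ℕ) d with h | h
  · have e : ∀ a b : Fin L, (if (a : ℕ) + c = b + d then (1 : ℂ) else 0) =
        if (b : ℕ) + (d - c : ℕ) = a then 1 else 0 := by
      intro a b
      congr 1
      apply propext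
      omega
    simp only [e]
    rw [Finset.sum_comm, SB.count_shift, min_eq_left (by omega), abs_of_nonpos (by
      have : ((c : ℕ) : ℝ) ≤ (d : ℕ) := by exact_mod_cast h
      linarith), Nat.cast_sub h]
    push_cast
    ring
  · have e : ∀ a b : Fin L, (if (a : ℕ) + c = b + d then (1 : ℂ) else 0) =
        if (a : ℕ) + (c - d : ℕ) = b then 1 else 0 := by
      intro a b
      congr 1
      apply propext
      omega
    simp only [e]
    rw [SB.count_shift, min_eq_left (by omega), abs_of_nonneg (by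
      have : ((d : ℕ) : ℝ) ≤ (c : ℕ) := by exact_mod_cast h
      linarith), Nat.cast_sub h]
    push_cast
    ring

lemma abs_sum (n : ℕ) : ∑ c ∈ range n, ∑ d ∈ range n, |(c : ℝ) - d| =
    (n : ℝ) * ((n : ℝ) ^ 2 - 1) / 3 := by
  have h1 : ∀ n : ℕ, ∑ d ∈ range n, |(n : ℝ) - d| = (n : ℝ) * (n + 1) / 2 := by
    intro n
    have e : ∀ d ∈ range n, |(n : ℝ) - d| = n - d := by
      intro d hd
      rw [mem_range] at hd
      have : (d : ℝ) < n := by exact_mod_cast hd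
      exact abs_of_pos (by linarith)
    rw [Finset.sum_congr rfl e, Finset.sum_sub_distrib, Finset.sum_const, card_range,
      nsmul_eq_mul]
    have h2 : ∀ m : ℕ, ∑ d ∈ range m, (d : ℝ) = (m : ℝ) * (m - 1) / 2 := by
      intro m
      induction m with
      | zero => simp
      | succ m ih => rw [Finset.sum_range_succ, ih]; push_cast; ring
    rw [h2]
    ring
  induction n with
  | zero => simp
  | succ n ih =>
    rw [Finset.sum_range_succ]
    simp only [Finset.sum_range_succ]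
    rw [Finset.sum_add_distrib, ih, h1]
    have e : ∑ c ∈ range n, |(c : ℝ) - n| = ∑ d ∈ range n, |(n : ℝ) - d| :=
      Finset.sum_congr rfl fun c _ => abs_sub_comm _ _
    rw [e, h1, sub_self, abs_zero]
    push_cast
    ring

/-- the fourth moment -/
lemma four (hN : 0 < N) (hNL : N ≤ L) {K : ℕ} (hK : L + N ≤ K + 1) :
    ∑ x : Fin K, fL L (rt K x) * ‖Dn N (rt K x)‖ ^ 2 =
      K * ((N : ℝ) ^ 2 * L - (N : ℝ) * ((N : ℝ) ^ 2 - 1) / 3) := by
  have hpt : ∀ w : ℂ, ((fL L w * ‖Dn N w‖ ^ 2 : ℝ) : ℂ) =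
      ∑ c : Fin N, ∑ d : Fin N, ∑ a : Fin L, ∑ b : Fin L,
        (w ^ ((a : ℕ) + c) * (starRingEnd ℂ) (w ^ ((b : ℕ) + d))) := by
    intro w
    have hD : ∀ n : ℕ, Dn n w = ∑ a : Fin n, w ^ (a : ℕ) := by
      intro n
      unfold Dn
      exact (Fin.sum_univ_eq_sum_range (fun a => w ^ a) n).symm
    have h1 : ((fL L w * ‖Dn N w‖ ^ 2 : ℝ) : ℂ) =
        (Dn N w * (starRingEnd ℂ) (Dn N w)) * (Dn L w * (starRingEnd ℂ) (Dn L w)) := by
      unfold fL
      rw [Complex.mul_conj, Complex.mul_conj, Complex.normSq_eq_norm_sq,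
        Complex.normSq_eq_norm_sq]
      push_cast
      ring
    rw [h1, hD N, hD L, map_sum, map_sum, Finset.sum_mul_sum, Finset.sum_mul_sum,
      Finset.sum_mul]
    refine Finset.sum_congr rfl fun c _ => ?_
    rw [Finset.sum_mul]
    refine Finset.sum_congr rfl fun d _ => ?_
    rw [Finset.mul_sum]
    refine Finset.sum_congr rfl fun a _ => ?_
    rw [Finset.mul_sum]
    refine Finset.sum_congr rfl fun b _ => ?_
    rw [pow_add, pow_add, map_mul]
    ring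
  have h2 : ((∑ x : Fin K, fL L (rt K x) * ‖Dn N (rt K x)‖ ^ 2 : ℝ) : ℂ) =
      ((K * ((N : ℝ) ^ 2 * L - (N : ℝ) * ((N : ℝ) ^ 2 - 1) / 3) : ℝ) : ℂ) := by
    rw [Complex.ofReal_sum]
    simp only [hpt]
    have e1 : ∑ x : Fin K, ∑ c : Fin N, ∑ d : Fin N, ∑ a : Fin L, ∑ b : Fin L,
        (rt K x ^ ((a : ℕ) + c) * (starRingEnd ℂ) (rt K x ^ ((b : ℕ) + d))) =
        ∑ c : Fin N, ∑ d : Fin N, (K : ℂ) * ((L : ℂ) - |((c : ℕ) : ℝ) - (d : ℕ)|) := by
      rw [Finset.sum_comm]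
      refine Finset.sum_congr rfl fun c _ => ?_
      rw [Finset.sum_comm]
      refine Finset.sum_congr rfl fun d _ => ?_
      rw [Finset.sum_comm, ← count4 hNL c d, Finset.mul_sum]
      refine Finset.sum_congr rfl fun a _ => ?_
      rw [Finset.sum_comm, Finset.mul_sum]
      refine Finset.sum_congr rfl fun b _ => ?_
      have h3 : ∑ x : Fin K, (rt K x ^ ((a : ℕ) + c) *
          (starRingEnd ℂ) (rt K x ^ ((b : ℕ) + d))) =
          if (a : ℕ) + c = b + d then (K : ℂ) else 0 :=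
        one_disc (by omega) (by have := a.2; have := c.2; omega)
          (by have := b.2; have := d.2; omega)
      rw [h3]
      split_ifs <;> simp
    rw [e1]
    have e2 : ∑ c : Fin N, ∑ d : Fin N, (K : ℂ) * ((L : ℂ) - |((c : ℕ) : ℝ) - (d : ℕ)|) =
        (K : ℂ) * ((N : ℂ) ^ 2 * L - ((∑ c ∈ range N, ∑ d ∈ range N, |(c : ℝ) - d| : ℝ) : ℂ)) := by
      simp only [← Finset.mul_sum, Finset.sum_sub_distrib]
      congr 1
      rw [Finset.sum_const, Finset.sum_const, Finset.card_univ, Fintype.card_fin, nsmul_eq_mul,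
        nsmul_eq_mul]
      congr 1
      · ring
      · rw [Complex.ofReal_sum, ← Fin.sum_univ_eq_sum_range (fun c =>
          ((∑ d ∈ range N, |(c : ℝ) - d| : ℝ) : ℂ)) N]
        refine Finset.sum_congr rfl fun c _ => ?_
        rw [Complex.ofReal_sum, ← Fin.sum_univ_eq_sum_range (fun d =>
          ((|((c : ℕ) : ℝ) - d| : ℝ) : ℂ)) N]
    rw [e2, abs_sum]
    push_cast
    ring
  exact_mod_cast h2

/-- the mean of the off-diagonal part -/
lemma off_mean (hN : 0 < N) (hNL : N ≤ L) {K : ℕ} (hK : L + N ≤ K + 1) (hNK : N ≤ K) :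
    EG N K (YY (fL L)) = (N : ℝ) * ((N : ℝ) ^ 2 - 1) / 3 := by
  have hK0 : 0 < K := by omega
  have hKr : (K : ℝ) ≠ 0 := by exact_mod_cast hK0.ne'
  rw [EG_YY hNK hK0, div_eq_iff hKr]
  have e : ∀ x : Fin K, fL L (rt K x) * rho N (rt K x) =
      (N : ℝ) ^ 2 * ‖Dn L (rt K x)‖ ^ 2 - fL L (rt K x) * ‖Dn N (rt K x)‖ ^ 2 := by
    intro x
    unfold rho fL
    ring
  simp only [e]
  rw [Finset.sum_sub_distrib, ← Finset.mul_sum, sum_Dn (by omega) (by omega), four hN hNL hK]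
  ring

/-! ### the class -/

variable {ν : Measure (Fin N → ℂ)}

/-- the average of the form factor over a window -/
def avg (ν : Measure (Fin N → ℂ)) (L : ℕ) (k : ℤ) : ℝ :=
  (∑ a ∈ range L, ∑ b ∈ range L, ffac ν (k + a - b)) / (L : ℝ) ^ 2

lemma pw_meas (i : Fin N) (m : ℤ) : Measurable fun z : Fin N → ℂ => z i ^ m := by
  rcases m with n | n
  · simp only [Int.ofNat_eq_natCast, zpow_natCast]
    exact (measurable_pi_apply i).pow_const n
  · simp only [zpow_negSucc]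
    exact ((measurable_pi_apply i).pow_const (n + 1)).inv

lemma ff_int [IsProbabilityMeasure ν] (h1 : ∀ᵐ z ∂ν, ∀ i, ‖z i‖ = 1) (m : ℤ) :
    Integrable (fun z : Fin N → ℂ => ‖∑ i, z i ^ m‖ ^ 2) ν := by
  refine Integrable.of_bound ?_ ((N : ℝ) ^ 2) ?_
  · refine Measurable.aestronglyMeasurable ?_
    exact ((Finset.measurable_sum _ fun i _ => pw_meas i m).norm).pow_const 2
  · filter_upwards [h1] with z hz
    rw [Real.norm_of_nonneg (by positivity)]
    refine pow_le_pow_left₀ (norm_nonneg _) ?_ 2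
    refine (norm_sum_le _ _).trans ?_
    simp [norm_zpow, hz]

lemma avg_int [IsProbabilityMeasure ν] (h1 : ∀ᵐ z ∂ν, ∀ i, ‖z i‖ = 1) (L : ℕ) (k : ℤ) :
    ∑ a ∈ range L, ∑ b ∈ range L, ffac ν (k + a - b) = ∫ z, wsum L k z ∂ν := by
  unfold ffac wsum
  rw [integral_finsetSum _ fun a _ => integrable_finsetSum _ fun b _ => ff_int h1 _]
  refine Finset.sum_congr rfl fun a _ => ?_
  rw [integral_finsetSum _ fun b _ => ff_int h1 _]

lemma wsum_int [IsProbabilityMeasure ν] (h1 : ∀ᵐ z ∂ν, ∀ i, ‖z i‖ = 1) (L : ℕ) (k : ℤ) :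
    Integrable (wsum (N := N) L k) ν := by
  unfold wsum
  exact integrable_finsetSum _ fun a _ => integrable_finsetSum _ fun b _ => ff_int h1 _

lemma YY_mean (hN : 0 < N) (hNL : N ≤ L) (hLR : L ≤ R + 1) [IsProbabilityMeasure ν]
    (h1 : ∀ᵐ z ∂ν, ∀ i, ‖z i‖ = 1) (hm : Cls N R ν) :
    Integrable (YY (N := N) (fL L)) ν ∧
      ∫ z, YY (fL L) z ∂ν = (N : ℝ) * ((N : ℝ) ^ 2 - 1) / 3 := by
  obtain ⟨μ, hF⟩ := fL_lp (L := L) (by omega)
  have t : TP R (fun z : Fin N → ℂ => ((YY (fL L) z : ℝ) : ℂ)) :=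
    (TP_YY hF).mono (by omega)
  refine ⟨real_int h1 t, ?_⟩
  rw [real_mean hN (le_refl (N + R)) h1 hm t]
  exact off_mean hN hNL (by omega) (by omega)

/-- **the averages** -/
theorem avg_near (hN : 0 < N) (hNL : N ≤ L) (hLR : L ≤ R + 1) [IsProbabilityMeasure ν]
    (h1 : ∀ᵐ z ∂ν, ∀ i, ‖z i‖ = 1) (hm : Cls N R ν) (k : ℤ) :
    |avg ν L k - N| ≤ (N : ℝ) * ((N : ℝ) ^ 2 - 1) / (3 * (L : ℝ) ^ 2) := by
  have hL0 : (0 : ℝ) < L := by exact_mod_cast (show 0 < L by omega)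
  obtain ⟨i1, m1⟩ := YY_mean hN hNL hLR h1 hm
  have h2 : |∫ z, wsum L k z ∂ν - N * (L : ℝ) ^ 2| ≤ (N : ℝ) * ((N : ℝ) ^ 2 - 1) / 3 := by
    have e : ∫ z, wsum L k z ∂ν - N * (L : ℝ) ^ 2 = ∫ z, (wsum L k z - N * (L : ℝ) ^ 2) ∂ν := by
      rw [integral_sub (wsum_int h1 L k) (integrable_const _)]
      simp
    rw [e, ← m1]
    refine (abs_integral_le_integral_abs).trans ?_
    refine integral_mono_ae ((wsum_int h1 L k).sub (integrable_const _)).abs i1 ?_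
    filter_upwards [h1] with z hz
    exact wsum_near L k hz
  unfold avg
  rw [avg_int h1]
  have e2 : (∫ z, wsum L k z ∂ν) / (L : ℝ) ^ 2 - N =
      (∫ z, wsum L k z ∂ν - N * (L : ℝ) ^ 2) / (L : ℝ) ^ 2 := by
    field_simp
  rw [e2, abs_div, abs_of_pos (show (0 : ℝ) < (L : ℝ) ^ 2 by positivity),
    div_le_iff₀ (by positivity)]
  refine h2.trans (le_of_eq ?_)
  field_simp

/-- the extremal case -/
theorem avg_grid (hN : 0 < N) (hNL : N ≤ L) (hLR : L ≤ R + 1) [IsProbabilityMeasure ν]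
    (h1 : ∀ᵐ z ∂ν, ∀ i, ‖z i‖ = 1) (hm : Cls N R ν) {k : ℕ} (hk : ∀ᵐ z ∂ν, ∀ i, z i ^ k = 1) :
    avg ν L k = N + (N : ℝ) * ((N : ℝ) ^ 2 - 1) / (3 * (L : ℝ) ^ 2) := by
  have hL0 : (0 : ℝ) < L := by exact_mod_cast (show 0 < L by omega)
  obtain ⟨i1, m1⟩ := YY_mean hN hNL hLR h1 hm
  have h2 : ∫ z, wsum L k z ∂ν = N * (L : ℝ) ^ 2 + (N : ℝ) * ((N : ℝ) ^ 2 - 1) / 3 := by
    rw [← m1]
    have e : ∫ z, wsum L k z ∂ν = ∫ z, (N * (L : ℝ) ^ 2 + YY (fL L) z) ∂ν := by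
      refine integral_congr_ae ?_
      filter_upwards [h1, hk] with z hz hzk
      exact wsum_grid L k hz hzk
    rw [e, integral_add (integrable_const _) i1]
    simp
  unfold avg
  rw [avg_int h1, h2]
  field_simp

end

end Pool.Agent.H481.FF
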