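import Pool.Agent.H481.FF4

/-!
The form factor of the laws on cosets at all frequencies.
-/

open MvPolynomial Finset MeasureTheory
open Pool.Agent.R319.UM

namespace Pool.Agent.H481.FG

open AC FF

noncomputable section

variable {N : ℕ}

lemma sum_monT {X : Type*} [Fintype X] (pos : Fin N → X → ℂ) (T : Fin N → X → ℂ)
    (d e : Fin N → ℕ) :
    ∑ x : Fin N → X, (∏ k, T k (x k)) * mon d e (fun k => pos k (x k)) =
      ∏ k, ∑ x, T k x * (pos k x ^ d k * (starRingEnd ℂ) (pos k x ^ e k)) := by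
  classical
  rw [Finset.prod_univ_sum, Fintype.piFinset_univ]
  refine Finset.sum_congr rfl fun x _ => ?_
  rw [Finset.prod_mul_distrib]
  rfl

lemma sum_V2G {X : Type*} [Fintype X] (pos : Fin N → X → ℂ) (T : Fin N → X → ℂ) :
    ∑ x : Fin N → X, (∏ k, T k (x k)) * (V2 (fun k => pos k (x k)) : ℂ) =
      ∑ σ : Equiv.Perm (Fin N), ∑ ρ : Equiv.Perm (Fin N), ((Equiv.Perm.sign ρ : ℤ) : ℂ) *
        ∏ k, ∑ x, T k x * (pos k x ^ (σ k : ℕ) *
          (starRingEnd ℂ) (pos k x ^ (σ (ρ k) : ℕ))) := by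
  simp only [SB.V2_perm, Finset.mul_sum]
  rw [Finset.sum_comm]
  refine Finset.sum_congr rfl fun σ _ => ?_
  rw [Finset.sum_comm]
  rw [← Equiv.sum_comp (Equiv.mulLeft σ)]
  refine Finset.sum_congr rfl fun ρ _ => ?_
  have h := sum_monT pos T (fun k => (σ k : ℕ)) (fun k => (σ (ρ k) : ℕ))
  simp only [Equiv.coe_mulLeft, Equiv.Perm.coe_mul, Function.comp_apply, Equiv.Perm.sign_mul]
  rw [← h, Finset.mul_sum]
  refine Finset.sum_congr rfl fun x _ => ?_
  have hs : ((Equiv.Perm.sign σ : ℤ) : ℂ) * ((Equiv.Perm.sign σ : ℤ) : ℂ) = 1 := by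
    rcases Int.units_eq_one_or (Equiv.Perm.sign σ) with h | h <;> rw [h] <;> simp
  push_cast
  linear_combination (∏ k, T k (x k)) * ((Equiv.Perm.sign ρ : ℤ) : ℂ) *
    mon (fun k => (σ k : ℕ)) (fun k => (σ (ρ k) : ℕ)) (fun k => pos k (x k)) * hs

lemma rt_pow {D : ℕ} (hD : 0 < D) (x : Fin D) : rt D x ^ D = 1 :=
  SG.gz_pow' hD (fun _ : Fin 1 => x) 0

lemma cm0 {c : ℂ} (hc : ‖c‖ = 1) {D a b : ℕ} (ha : a < D) (hb : b < D) :
    ∑ x : Fin D, (D : ℂ)⁻¹ * ((c * rt D x) ^ a * (starRingEnd ℂ) ((c * rt D x) ^ b)) =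
      if a = b then 1 else 0 := by
  have hDc : (D : ℂ) ≠ 0 := by exact_mod_cast (show D ≠ 0 by omega)
  have h : ∑ x : Fin D, (rt D x ^ a * (starRingEnd ℂ) (rt D x ^ b)) =
      if a = b then (D : ℂ) else 0 := one_disc (by omega) ha hb
  rw [← Finset.mul_sum, coset_mom hc ha hb, h]
  split_ifs <;> simp [hDc]

lemma cm1 {c : ℂ} (hc : ‖c‖ = 1) {D a b k : ℕ} (ha : a < D) (hb : b < D) (hk : k < D) :
    ∑ x : Fin D, (D : ℂ)⁻¹ * ((c * rt D x) ^ (a + k) * (starRingEnd ℂ) ((c * rt D x) ^ b)) =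
      if a + k = b then 1 else if a + k = b + D then c ^ D else 0 := by
  rcases lt_or_ge (a + k) D with h | h
  · rw [cm0 hc h hb]
    by_cases h1 : a + k = b
    · rw [if_pos h1, if_pos h1]
    · rw [if_neg h1, if_neg h1, if_neg (by omega)]
  · obtain ⟨m, hm⟩ : ∃ m, a + k = D + m := ⟨a + k - D, by omega⟩
    have e : ∀ x : Fin D, (D : ℂ)⁻¹ * ((c * rt D x) ^ (a + k) *
        (starRingEnd ℂ) ((c * rt D x) ^ b)) =
        c ^ D * ((D : ℂ)⁻¹ * ((c * rt D x) ^ m * (starRingEnd ℂ) ((c * rt D x) ^ b))) := by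
      intro x
      rw [hm, pow_add, mul_pow c (rt D x) D, rt_pow (by omega) x]
      ring
    simp only [e]
    rw [← Finset.mul_sum, cm0 hc (by omega) hb, if_neg (by omega : ¬ a + k = b)]
    by_cases h1 : m = b
    · rw [if_pos h1, if_pos (by omega), mul_one]
    · rw [if_neg h1, if_neg (by omega), mul_zero]

lemma cm2 {c : ℂ} (hc : ‖c‖ = 1) {D a b k : ℕ} (ha : a < D) (hb : b < D) (hk : k < D) :
    ∑ x : Fin D, (D : ℂ)⁻¹ * ((c * rt D x) ^ b * (starRingEnd ℂ) ((c * rt D x) ^ (a + k))) =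
      if a + k = b then 1 else if a + k = b + D then (starRingEnd ℂ) (c ^ D) else 0 := by
  have h := congrArg (starRingEnd ℂ) (cm1 hc ha hb hk)
  rw [map_sum] at h
  simp only [map_mul, map_inv₀, Complex.conj_conj, Complex.conj_natCast] at h
  rw [apply_ite (starRingEnd ℂ), apply_ite (starRingEnd ℂ), map_one, map_zero] at h
  rw [← h]
  refine Finset.sum_congr rfl fun x _ => ?_
  ring

/-- the weights -/
def shc (c : Fin N → ℂ) (D : ℕ) (i j : Fin N) (k : ℕ) (r : Fin N) (x : Fin D) : ℂ :=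
  (D : ℂ)⁻¹ * ((if r = i then (c r * rt D x) ^ k else 1) *
    (if r = j then (starRingEnd ℂ) ((c r * rt D x) ^ k) else 1))

/-- the pair moment on cosets -/
lemma pair_c {c : Fin N → ℂ} (hc : ∀ i, ‖c i‖ = 1) {D k : ℕ} (hND : N ≤ D) (hk : 0 < k)
    (hkD : k < D) {i j : Fin N} (hij : i ≠ j) :
    ∑ x : Fin N → Fin D, (∏ _r : Fin N, (D : ℂ)⁻¹) *
        ((cz c D x i ^ k * (starRingEnd ℂ) (cz c D x j ^ k)) * (V2 (cz c D x) : ℂ)) =
      - ∑ σ : Equiv.Perm (Fin N), ((if (σ i : ℕ) + k = σ j then (1 : ℂ) else 0) +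
        (c i ^ D * (starRingEnd ℂ) (c j ^ D)) * (if (σ j : ℕ) + (D - k) = σ i then 1 else 0)) := by
  classical
  have e0 : ∀ x : Fin N → Fin D, (∏ _r : Fin N, (D : ℂ)⁻¹) *
        ((cz c D x i ^ k * (starRingEnd ℂ) (cz c D x j ^ k)) * (V2 (cz c D x) : ℂ)) =
      (∏ r, shc c D i j k r (x r)) * (V2 (fun r => c r * rt D (x r)) : ℂ) := by
    intro x
    unfold shc
    rw [Finset.prod_mul_distrib, Finset.prod_mul_distrib, Finset.prod_ite_eq',
      Finset.prod_ite_eq', if_pos (Finset.mem_univ _), if_pos (Finset.mem_univ _)]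
    have : cz c D x = fun r => c r * rt D (x r) := rfl
    rw [this]
    ring
  simp only [e0]
  rw [sum_V2G (fun r (x : Fin D) => c r * rt D x) (shc c D i j k), ← Finset.sum_neg_distrib]
  have hlt : ∀ a : Fin N, (a : ℕ) < D := fun a => by have := a.2; omega
  refine Finset.sum_congr rfl fun σ _ => ?_
  have hoth : ∀ (r : Fin N) (a b : ℕ), r ≠ i → r ≠ j → a < D → b < D →
      ∑ x : Fin D, shc c D i j k r x * ((c r * rt D x) ^ a *
        (starRingEnd ℂ) ((c r * rt D x) ^ b)) = if a = b then 1 else 0 := by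
    intro r a b hri hrj ha hb
    rw [← cm0 (hc r) ha hb]
    refine Finset.sum_congr rfl fun x _ => ?_
    unfold shc
    rw [if_neg hri, if_neg hrj]
    ring
  have hi : ∀ (a b : ℕ), a < D → b < D →
      ∑ x : Fin D, shc c D i j k i x * ((c i * rt D x) ^ a *
        (starRingEnd ℂ) ((c i * rt D x) ^ b)) =
        if a + k = b then 1 else if a + k = b + D then c i ^ D else 0 := by
    intro a b ha hb
    rw [← cm1 (hc i) ha hb hkD]
    refine Finset.sum_congr rfl fun x _ => ?_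
    unfold shc
    rw [if_pos rfl, if_neg hij, pow_add]
    ring
  have hj : ∀ (a b : ℕ), a < D → b < D →
      ∑ x : Fin D, shc c D i j k j x * ((c j * rt D x) ^ a *
        (starRingEnd ℂ) ((c j * rt D x) ^ b)) =
        if b + k = a then 1 else if b + k = a + D then (starRingEnd ℂ) (c j ^ D) else 0 := by
    intro a b ha hb
    rw [← cm2 (hc j) hb ha hkD]
    refine Finset.sum_congr rfl fun x _ => ?_
    unfold shc
    rw [if_pos rfl, if_neg (Ne.symm hij), pow_add, map_mul]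
    ring
  rw [Finset.sum_eq_single (Equiv.swap i j)]
  · rw [Equiv.Perm.sign_swap hij]
    have hS : ∀ (f : Fin N → ℂ), ∏ k, f k = f i * (f j * ∏ k ∈ (univ.erase i).erase j, f k) := by
      intro f
      rw [← Finset.mul_prod_erase univ _ (Finset.mem_univ i),
        ← Finset.mul_prod_erase (univ.erase i) _
          (Finset.mem_erase.2 ⟨fun h => hij h.symm, Finset.mem_univ j⟩)]
    rw [hS, Finset.prod_eq_one]
    · rw [Equiv.swap_apply_left, Equiv.swap_apply_right, hi _ _ (hlt _) (hlt _),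
        hj _ _ (hlt _) (hlt _), mul_one]
      have h3 := (σ i).2
      have h4 := (σ j).2
      by_cases h : (σ i : ℕ) + k = σ j
      · rw [if_pos h, if_pos h, if_pos h, if_neg (by omega)]
        push_cast
        ring
      · rw [if_neg h, if_neg h, if_neg h]
        by_cases h2 : (σ j : ℕ) + (D - k) = σ i
        · rw [if_pos h2, if_pos (by omega), if_pos (by omega)]
          push_cast
          ring
        · rw [if_neg h2, if_neg (by omega)]
          push_cast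
          ring
    · intro r hr
      rw [Finset.mem_erase, Finset.mem_erase] at hr
      rw [hoth r _ _ hr.2.1 hr.1 (hlt _) (hlt _), Equiv.swap_apply_of_ne_of_ne hr.2.1 hr.1,
        if_pos rfl]
  · intro ρ _ hρ
    by_cases h1 : ρ = 1
    · rw [Finset.prod_eq_zero (Finset.mem_univ i), mul_zero]
      have e9 : σ (ρ i) = σ i := by rw [h1]; rfl
      rw [hi _ _ (hlt _) (hlt _), e9, if_neg (by omega), if_neg (by omega)]
    · have : ∃ r, r ≠ i ∧ r ≠ j ∧ ρ r ≠ r := by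
        by_contra hc
        push Not at hc
        rcases SB.perm_two hc with h | h
        · exact h1 h
        · exact hρ h
      obtain ⟨r, hri, hrj, hr⟩ := this
      rw [Finset.prod_eq_zero (Finset.mem_univ r), mul_zero]
      rw [hoth r _ _ hri hrj (hlt _) (hlt _), if_neg]
      intro h
      exact hr (σ.injective (Fin.ext (by omega))).symm
  · simp

/-- counting permutations -/
lemma count_perm (hN : 2 ≤ N) (k : ℕ) (hk : 0 < k) {i j : Fin N} (hij : i ≠ j) :
    ((N : ℂ) * (N - 1)) * ∑ σ : Equiv.Perm (Fin N), (if (σ i : ℕ) + k = σ j then (1 : ℂ) else 0) =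
      (N.factorial : ℂ) * ((N : ℂ) - (min k N : ℕ)) := by
  classical
  have hs := SB.slots (N := N) (fun a b => if a + k = b then (1 : ℂ) else 0)
    (fun a => if_neg (by omega))
  rw [SB.count_shift] at hs
  set S := ∑ σ : Equiv.Perm (Fin N), (if (σ i : ℕ) + k = σ j then (1 : ℂ) else 0) with hS
  have e1 : ∀ i' : Fin N, ∑ j' ∈ univ.erase i', ∑ σ : Equiv.Perm (Fin N),
      (if (σ i' : ℕ) + k = σ j' then (1 : ℂ) else 0) = (N - 1) * S := by
    intro i'
    have : ∀ j' ∈ univ.erase i', ∑ σ : Equiv.Perm (Fin N),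
        (if (σ i' : ℕ) + k = σ j' then (1 : ℂ) else 0) = S := by
      intro j' hj'
      exact slot_sum (fun a b => if a + k = b then (1 : ℂ) else 0)
        (Finset.ne_of_mem_erase hj').symm hij
    rw [Finset.sum_congr rfl this, Finset.sum_const, Finset.card_erase_of_mem (Finset.mem_univ _),
      Finset.card_univ, Fintype.card_fin, nsmul_eq_mul, Nat.cast_sub (by omega), Nat.cast_one]
  simp only [e1] at hs
  rw [Finset.sum_const, Finset.card_univ, Fintype.card_fin, nsmul_eq_mul] at hs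
  linear_combination hs

/-- the pair means of the law on the cosets -/
lemma pair_law (hN : 2 ≤ N) {c : Fin N → ℂ} (hc : ∀ i, ‖c i‖ = 1) {D k : ℕ} (hND : N ≤ D)
    (hk : 0 < k) (hkD : k < D) {i j : Fin N} (hij : i ≠ j) :
    ∑ x : Fin N → Fin D, (cw c D x : ℂ) * (cz c D x i ^ k * (starRingEnd ℂ) (cz c D x j ^ k)) =
      -((((N : ℂ) - (min k N : ℕ)) + (c i ^ D * (starRingEnd ℂ) (c j ^ D)) *
        ((N : ℂ) - (min (D - k) N : ℕ))) / ((N : ℂ) * (N - 1))) := by
  have hNf : (N.factorial : ℂ) ≠ 0 := by exact_mod_cast N.factorial_ne_zero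
  have hN0 : (N : ℂ) ≠ 0 := by exact_mod_cast (show N ≠ 0 by omega)
  have hN1 : (N : ℂ) - 1 ≠ 0 := by
    have : ((N - 1 : ℕ) : ℂ) ≠ 0 := by exact_mod_cast (show N - 1 ≠ 0 by omega)
    rwa [Nat.cast_sub (by omega), Nat.cast_one] at this
  have h := pair_c hc hND hk hkD hij
  have h1 := count_perm hN k hk hij
  have h2 := count_perm hN (D - k) (by omega) (Ne.symm hij)
  rw [Finset.sum_add_distrib, ← Finset.mul_sum (s := (univ : Finset (Equiv.Perm (Fin N))))
    (f := fun σ => if (σ j : ℕ) + (D - k) = σ i then (1 : ℂ) else 0)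
    (a := c i ^ D * (starRingEnd ℂ) (c j ^ D))] at h
  set S1 := ∑ σ : Equiv.Perm (Fin N), (if (σ i : ℕ) + k = σ j then (1 : ℂ) else 0)
  set S2 := ∑ σ : Equiv.Perm (Fin N), (if (σ j : ℕ) + (D - k) = σ i then (1 : ℂ) else 0)
  have e : ∀ x : Fin N → Fin D, (cw c D x : ℂ) *
      (cz c D x i ^ k * (starRingEnd ℂ) (cz c D x j ^ k)) =
      (N.factorial : ℂ)⁻¹ * ((∏ _r : Fin N, (D : ℂ)⁻¹) *
        ((cz c D x i ^ k * (starRingEnd ℂ) (cz c D x j ^ k)) * (V2 (cz c D x) : ℂ))) := by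
    intro x
    unfold cw
    rw [Finset.prod_const, Finset.card_univ, Fintype.card_fin]
    push_cast
    rw [div_eq_mul_inv, mul_inv, inv_pow]
    ring
  simp only [e]
  rw [← Finset.mul_sum, h]
  have hA : S1 = (N.factorial : ℂ) * ((N : ℂ) - (min k N : ℕ)) / ((N : ℂ) * (N - 1)) := by
    rw [eq_div_iff (mul_ne_zero hN0 hN1)]
    linear_combination h1
  have hB : S2 = (N.factorial : ℂ) * ((N : ℂ) - (min (D - k) N : ℕ)) / ((N : ℂ) * (N - 1)) := by
    rw [eq_div_iff (mul_ne_zero hN0 hN1)]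
    linear_combination h2
  rw [hA, hB]
  field_simp

/-- **the form factor of the law on the cosets** -/
theorem ff_coset (hN : 2 ≤ N) {c : Fin N → ℂ} (hc : ∀ i, ‖c i‖ = 1) {D k : ℕ} (hND : N ≤ D)
    (hk : 0 < k) (hkD : k < D) :
    ffac (claw c D) k = (min k N : ℕ) - ((N : ℝ) - (min (D - k) N : ℕ)) *
      (‖∑ i, c i ^ D‖ ^ 2 - N) / (N * (N - 1)) := by
  classical
  have hN0 : (N : ℂ) ≠ 0 := by exact_mod_cast (show N ≠ 0 by omega)
  have hN1 : (N : ℂ) - 1 ≠ 0 := by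
    have : ((N - 1 : ℕ) : ℂ) ≠ 0 := by exact_mod_cast (show N - 1 ≠ 0 by omega)
    rwa [Nat.cast_sub (by omega), Nat.cast_one] at this
  have h1 : ((ffac (claw c D) k : ℝ) : ℂ) = ∑ i, ∑ j, ∑ x : Fin N → Fin D, (cw c D x : ℂ) *
      (cz c D x i ^ k * (starRingEnd ℂ) (cz c D x j ^ k)) := by
    have h3 : ∫ z, ((‖∑ i, z i ^ (k : ℤ)‖ ^ 2 : ℝ) : ℂ) ∂(claw c D) =
      ((∫ z, ‖∑ i, z i ^ (k : ℤ)‖ ^ 2 ∂(claw c D) : ℝ) : ℂ) := integral_ofReal
    unfold ffac
    rw [← h3]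
    unfold claw
    rw [IN.fl_int (cw_nonneg c D)]
    have e : ∀ x : Fin N → Fin D, cw c D x • ((‖∑ i, cz c D x i ^ (k : ℤ)‖ ^ 2 : ℝ) : ℂ) =
        ∑ i, ∑ j, (cw c D x : ℂ) * (cz c D x i ^ k * (starRingEnd ℂ) (cz c D x j ^ k)) := by
      intro x
      rw [nsq, Complex.real_smul, Finset.mul_sum]
      refine Finset.sum_congr rfl fun i _ => ?_
      rw [Finset.mul_sum]
    rw [Finset.sum_congr rfl fun x _ => e x, Finset.sum_comm]
    refine Finset.sum_congr rfl fun i _ => ?_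
    rw [Finset.sum_comm]
  set p : ℂ := (N : ℂ) - (min k N : ℕ) with hp
  set q : ℂ := (N : ℂ) - (min (D - k) N : ℕ) with hq
  have h2 : ∀ i j : Fin N, ∑ x : Fin N → Fin D, (cw c D x : ℂ) *
      (cz c D x i ^ k * (starRingEnd ℂ) (cz c D x j ^ k)) =
      -((p + (c i ^ D * (starRingEnd ℂ) (c j ^ D)) * q) / ((N : ℂ) * (N - 1))) +
        if j = i then 1 + (p + q) / ((N : ℂ) * (N - 1)) else 0 := by
    intro i j
    by_cases hij : j = i
    · subst hij
      rw [if_pos rfl]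
      have h5 : c j ^ D * (starRingEnd ℂ) (c j ^ D) = 1 := SB.unit_pow (hc j) D
      have h6 : ∀ x : Fin N → Fin D, cz c D x j ^ k * (starRingEnd ℂ) (cz c D x j ^ k) = 1 :=
        fun x => SB.unit_pow (cz_norm hc x j) k
      simp only [h6, mul_one]
      rw [h5]
      have h7 : ∑ x : Fin N → Fin D, (cw c D x : ℂ) = 1 := by
        exact_mod_cast cw_sum (by omega) hc hND
      rw [h7]
      ring
    · rw [pair_law hN hc hND hk hkD (Ne.symm hij), if_neg hij, add_zero]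
  rw [Finset.sum_congr rfl fun i _ => Finset.sum_congr rfl fun j _ => h2 i j] at h1
  have e3 : ∑ i, ∑ j, (c i ^ D * (starRingEnd ℂ) (c j ^ D)) = ((‖∑ i, c i ^ D‖ ^ 2 : ℝ) : ℂ) := by
    rw [← Finset.sum_mul_sum, ← map_sum, Complex.mul_conj, Complex.normSq_eq_norm_sq]
  have e4 : ∑ i : Fin N, ∑ j : Fin N,
      (-((p + (c i ^ D * (starRingEnd ℂ) (c j ^ D)) * q) / ((N : ℂ) * (N - 1))) +
        if j = i then 1 + (p + q) / ((N : ℂ) * (N - 1)) else 0) =
      -(((N : ℂ) ^ 2 * p + ((‖∑ i, c i ^ D‖ ^ 2 : ℝ) : ℂ) * q) / ((N : ℂ) * (N - 1))) +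
        N * (1 + (p + q) / ((N : ℂ) * (N - 1))) := by
    rw [← e3]
    simp only [Finset.sum_add_distrib, Finset.sum_neg_distrib, ← Finset.sum_div,
      ← Finset.sum_mul, Finset.sum_const, Finset.card_univ, Fintype.card_fin, nsmul_eq_mul,
      Finset.sum_ite_eq', Finset.mem_univ, if_true]
    ring
  rw [e4] at h1
  have h5 : ((ffac (claw c D) k : ℝ) : ℂ) = (((min k N : ℕ) - ((N : ℝ) - (min (D - k) N : ℕ)) *
      (‖∑ i, c i ^ D‖ ^ 2 - N) / (N * (N - 1)) : ℝ) : ℂ) := by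
    rw [h1]
    simp only [Complex.ofReal_sub, Complex.ofReal_mul, Complex.ofReal_div,
      Complex.ofReal_natCast, Complex.ofReal_one]
    rw [← hq]
    have hp2 : ((min k N : ℕ) : ℂ) = N - p := by rw [hp]; ring
    rw [hp2]
    field_simp
    ring
  exact Complex.ofReal_injective h5

end

end Pool.Agent.H481.FG
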