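import Pool.Agent.H481.TM2

/-!
Antisymmetric functions on the lattice of the exponents: the commutation relation of the
multiplication by the power sums and its adjoint (Diaconis-Shahshahani without characters).
-/

open Finset MeasureTheory
open Pool.Agent.R319.UM

namespace Pool.Agent.H481.GA

noncomputable section

variable {N : ℕ}

/-- finite support -/
def FS (A : (Fin N → ℤ) → ℂ) : Prop := (Function.support A).Finite

/-- the inner product -/
def ip (A B : (Fin N → ℤ) → ℂ) : ℂ := ∑' d, A d * (starRingEnd ℂ) (B d)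

/-- the unit vectors -/
def un (j : Fin N) (l : ℤ) : Fin N → ℤ := Pi.single j l

/-- multiplication by a power sum -/
def Tm (l : ℤ) (A : (Fin N → ℤ) → ℂ) : (Fin N → ℤ) → ℂ := fun d => ∑ j, A (d - un j l)

lemma un_neg (j : Fin N) (l : ℤ) : un j (-l) = -un j l := by
  unfold un
  rw [Pi.single_neg]

lemma FS_shift {A : (Fin N → ℤ) → ℂ} (hA : FS A) (v : Fin N → ℤ) : FS (fun d => A (d - v)) := by
  unfold FS at *
  have : Function.support (fun d => A (d - v)) = (fun d => d + v) '' Function.support A := by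
    ext d
    simp only [Function.mem_support, Set.mem_image]
    constructor
    · intro h
      exact ⟨d - v, h, sub_add_cancel d v⟩
    · rintro ⟨e, he, rfl⟩
      rwa [add_sub_cancel_right]
  rw [this]
  exact hA.image _

lemma FS_sum {ι : Type*} (s : Finset ι) {f : ι → (Fin N → ℤ) → ℂ} (h : ∀ i ∈ s, FS (f i)) :
    FS (fun d => ∑ i ∈ s, f i d) := by
  unfold FS at *
  refine (Set.Finite.biUnion s.finite_toSet h).subset ?_
  intro d hd
  rw [Function.mem_support] at hd
  obtain ⟨i, hi, h2⟩ := Finset.exists_ne_zero_of_sum_ne_zero hd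
  exact Set.mem_biUnion hi h2

lemma FS_smul {A : (Fin N → ℤ) → ℂ} (hA : FS A) (c : ℂ) : FS (fun d => c * A d) := by
  unfold FS at *
  refine hA.subset ?_
  intro d hd
  rw [Function.mem_support] at hd ⊢
  exact right_ne_zero_of_mul hd

lemma FS_Tm {A : (Fin N → ℤ) → ℂ} (hA : FS A) (l : ℤ) : FS (Tm l A) :=
  FS_sum univ fun j _ => FS_shift hA (un j l)

lemma FS_mul_left {A : (Fin N → ℤ) → ℂ} (hA : FS A) (B : (Fin N → ℤ) → ℂ) :
    FS (fun d => A d * B d) := by
  unfold FS at *
  refine hA.subset ?_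
  intro d hd
  rw [Function.mem_support] at hd ⊢
  exact left_ne_zero_of_mul hd

lemma FS_summable {A : (Fin N → ℤ) → ℂ} (hA : FS A) : Summable A :=
  summable_of_hasFiniteSupport hA

lemma ip_sum_left {ι : Type*} (s : Finset ι) (f : ι → (Fin N → ℤ) → ℂ) (h : ∀ i ∈ s, FS (f i))
    (B : (Fin N → ℤ) → ℂ) : ip (fun d => ∑ i ∈ s, f i d) B = ∑ i ∈ s, ip (f i) B := by
  unfold ip
  rw [← Summable.tsum_finsetSum fun i hi => FS_summable (FS_mul_left (h i hi) _)]
  refine tsum_congr fun d => ?_
  rw [Finset.sum_mul]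

lemma ip_conj (A B : (Fin N → ℤ) → ℂ) : (starRingEnd ℂ) (ip A B) = ip B A := by
  unfold ip
  rw [Complex.conj_tsum]
  refine tsum_congr fun d => ?_
  rw [map_mul, Complex.conj_conj, mul_comm]

lemma ip_sum_right {ι : Type*} (s : Finset ι) (f : ι → (Fin N → ℤ) → ℂ) (h : ∀ i ∈ s, FS (f i))
    (A : (Fin N → ℤ) → ℂ) : ip A (fun d => ∑ i ∈ s, f i d) = ∑ i ∈ s, ip A (f i) := by
  rw [← ip_conj, ip_sum_left s f h, map_sum]
  exact Finset.sum_congr rfl fun i _ => ip_conj _ _

lemma ip_smul_left (c : ℂ) (A B : (Fin N → ℤ) → ℂ) : ip (fun d => c * A d) B = c * ip A B := by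
  unfold ip
  rw [← tsum_mul_left]
  exact tsum_congr fun d => by ring

lemma ip_smul_right (c : ℂ) (A B : (Fin N → ℤ) → ℂ) :
    ip A (fun d => c * B d) = (starRingEnd ℂ) c * ip A B := by
  rw [← ip_conj, ip_smul_left, map_mul, ip_conj]

lemma ip_shift (A B : (Fin N → ℤ) → ℂ) (v : Fin N → ℤ) :
    ip (fun d => A (d - v)) B = ip A (fun d => B (d + v)) := by
  unfold ip
  rw [← (Equiv.subRight v).tsum_eq (fun d => A d * (starRingEnd ℂ) (B (d + v)))]
  refine tsum_congr fun d => ?_
  simp

/-- the adjoint -/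
lemma ip_Tm {A B : (Fin N → ℤ) → ℂ} (hA : FS A) (hB : FS B) (l : ℤ) :
    ip (Tm l A) B = ip A (Tm (-l) B) := by
  have h1 : ip (Tm l A) B = ∑ j, ip (fun d => A (d - un j l)) B :=
    ip_sum_left univ (fun j d => A (d - un j l)) (fun j _ => FS_shift hA _) B
  have h2 : ip A (Tm (-l) B) = ∑ j, ip A (fun d => B (d - un j (-l))) :=
    ip_sum_right univ (fun j d => B (d - un j (-l))) (fun j _ => FS_shift hB _) A
  rw [h1, h2]
  refine Finset.sum_congr rfl fun j _ => ?_
  rw [ip_shift]
  simp only [un_neg, sub_neg_eq_add]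

lemma Tm_comm (l m : ℤ) (A : (Fin N → ℤ) → ℂ) : Tm l (Tm m A) = Tm m (Tm l A) := by
  funext d
  unfold Tm
  rw [Finset.sum_comm]
  refine Finset.sum_congr rfl fun i _ => Finset.sum_congr rfl fun j _ => ?_
  congr 1
  abel

lemma ip_TT {A B : (Fin N → ℤ) → ℂ} (hA : FS A) (hB : FS B) (l m : ℤ) :
    ip (Tm l A) (Tm m B) = ip (Tm (-m) A) (Tm (-l) B) := by
  rw [ip_Tm hA (FS_Tm hB m), Tm_comm, ip_Tm hA (FS_Tm hB (-l)), neg_neg]

/-! ### nonnegative exponents -/

/-- nonnegative exponents -/
def Pos (d : Fin N → ℤ) : Prop := ∀ i, 0 ≤ d i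

open Classical in
/-- the adjoint of the multiplication, on the functions with nonnegative exponents -/
def Lp (l : ℤ) (A : (Fin N → ℤ) → ℂ) : (Fin N → ℤ) → ℂ := fun d =>
  if Pos d then Tm (-l) A d else 0

/-- supported on nonnegative exponents -/
def NN (A : (Fin N → ℤ) → ℂ) : Prop := ∀ d, A d ≠ 0 → Pos d

/-- antisymmetric -/
def AN (A : (Fin N → ℤ) → ℂ) : Prop := ∀ a b : Fin N, a ≠ b → ∀ d, A (d ∘ Equiv.swap a b) = -A d

/-- of bounded energy -/
def En (x : ℤ) (A : (Fin N → ℤ) → ℂ) : Prop := ∀ d, A d ≠ 0 →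
  2 * ∑ i, d i ≤ N * (N - 1) + 2 * x

lemma AN_inj {A : (Fin N → ℤ) → ℂ} (hA : AN A) {d : Fin N → ℤ} (hd : A d ≠ 0) :
    Function.Injective d := by
  intro a b hab
  by_contra hne
  have h := hA a b hne d
  have e : d ∘ Equiv.swap a b = d := by
    funext i
    rw [Function.comp_apply]
    by_cases h1 : i = a
    · rw [h1, Equiv.swap_apply_left, hab]
    · by_cases h2 : i = b
      · rw [h2, Equiv.swap_apply_right, hab]
      · rw [Equiv.swap_apply_of_ne_of_ne h1 h2]
  rw [e] at h
  have : A d = 0 := by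
    have h3 : A d + A d = 0 := by
      nth_rewrite 1 [h]
      ring
    have h4 : (2 : ℂ) * A d = 0 := by rw [two_mul]; exact h3
    exact (mul_eq_zero.1 h4).resolve_left two_ne_zero
  exact hd this

lemma NN_Lp (l : ℤ) (A : (Fin N → ℤ) → ℂ) : NN (Lp l A) := by
  intro d hd
  unfold Lp at hd
  by_contra h
  exact hd (if_neg h)

lemma NN_Tm {l : ℤ} (hl : 0 ≤ l) {A : (Fin N → ℤ) → ℂ} (hA : NN A) : NN (Tm l A) := by
  intro d hd i
  obtain ⟨j, _, hj⟩ := Finset.exists_ne_zero_of_sum_ne_zero hd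
  have h := hA _ hj i
  unfold un at h
  rw [Pi.sub_apply] at h
  by_cases hij : i = j
  · subst hij
    rw [Pi.single_eq_same] at h
    omega
  · rw [Pi.single_eq_of_ne hij] at h
    omega

lemma FS_Lp {A : (Fin N → ℤ) → ℂ} (hA : FS A) (l : ℤ) : FS (Lp l A) := by
  have h := FS_Tm hA (-l)
  unfold FS at *
  refine h.subset ?_
  intro d hd
  rw [Function.mem_support] at hd ⊢
  unfold Lp at hd
  by_contra h2
  apply hd
  split_ifs
  · exact h2
  · rfl

lemma un_comp (a b j : Fin N) (l : ℤ) :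
    un j l ∘ Equiv.swap a b = un (Equiv.swap a b j) l := by
  unfold un
  funext i
  rw [Function.comp_apply]
  by_cases h : i = Equiv.swap a b j
  · rw [h, Equiv.swap_apply_self, Pi.single_eq_same, Pi.single_eq_same]
  · rw [Pi.single_eq_of_ne h, Pi.single_eq_of_ne]
    intro h2
    apply h
    rw [← h2, Equiv.swap_apply_self]

lemma AN_Tm (l : ℤ) {A : (Fin N → ℤ) → ℂ} (hA : AN A) : AN (Tm l A) := by
  intro a b hab d
  unfold Tm
  rw [← Equiv.sum_comp (Equiv.swap a b), ← Finset.sum_neg_distrib]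
  refine Finset.sum_congr rfl fun j _ => ?_
  rw [← hA a b hab]
  congr 1
  rw [← un_comp]
  rfl

lemma Pos_comp (a b : Fin N) (d : Fin N → ℤ) : Pos (d ∘ Equiv.swap a b) ↔ Pos d := by
  unfold Pos
  constructor
  · intro h i
    have := h (Equiv.swap a b i)
    rwa [Function.comp_apply, Equiv.swap_apply_self] at this
  · intro h i
    exact h _

lemma AN_Lp (l : ℤ) {A : (Fin N → ℤ) → ℂ} (hA : AN A) : AN (Lp l A) := by
  intro a b hab d
  unfold Lp
  by_cases h : Pos d
  · rw [if_pos h, if_pos ((Pos_comp a b d).2 h), AN_Tm (-l) hA a b hab]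
  · rw [if_neg h, if_neg fun h2 => h ((Pos_comp a b d).1 h2), neg_zero]

lemma sum_un (j : Fin N) (l : ℤ) : ∑ i, un j l i = l := by
  unfold un
  rw [Finset.sum_pi_single']
  simp

lemma En_Tm (l : ℤ) {x : ℤ} {A : (Fin N → ℤ) → ℂ} (hA : En x A) : En (x + l) (Tm l A) := by
  intro d hd
  obtain ⟨j, _, hj⟩ := Finset.exists_ne_zero_of_sum_ne_zero hd
  have h := hA _ hj
  have e : ∑ i, (d - un j l) i = ∑ i, d i - l := by
    simp only [Pi.sub_apply, Finset.sum_sub_distrib, sum_un]
  rw [e] at h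
  linarith

lemma En_Lp (l : ℤ) {x : ℤ} {A : (Fin N → ℤ) → ℂ} (hA : En x A) : En (x - l) (Lp l A) := by
  intro d hd
  unfold Lp at hd
  have h2 : Tm (-l) A d ≠ 0 := by
    intro h0
    apply hd
    split_ifs
    · exact h0
    · rfl
  have := En_Tm (-l) hA d h2
  linarith

/-! ### filled values -/

lemma missing_value {f : Fin N → ℕ} (hf : Function.Injective f) {v : ℕ} (hv : ∀ j, f j ≠ v) :
    N * (N - 1) / 2 + N ≤ ∑ j, f j + v := by
  classical
  set g : Fin N → ℕ := fun j => if f j < v then f j else f j - 1 with hg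
  have hginj : Function.Injective g := by
    intro a b hab
    apply hf
    simp only [hg] at hab
    have ha := hv a
    have hb := hv b
    split_ifs at hab <;> omega
  have h1 : ∑ i ∈ range N, i ≤ ∑ j, g j := by
    have := TM.sum_ge_range (univ : Finset (Fin N)) g (hginj.injOn)
    rwa [Finset.card_univ, Fintype.card_fin] at this
  have h2 : ∑ j, f j = ∑ j, g j + (univ.filter fun j => v < f j).card := by
    rw [Finset.card_filter, ← Finset.sum_add_distrib]
    refine Finset.sum_congr rfl fun j _ => ?_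
    simp only [hg]
    have := hv j
    split_ifs <;> omega
  have h3 : (univ.filter fun j => v < f j).card + (univ.filter fun j => f j < v).card = N := by
    rw [← Finset.card_union_of_disjoint]
    · have : (univ.filter fun j => v < f j) ∪ (univ.filter fun j => f j < v) = univ := by
        ext j
        have := hv j
        simp only [Finset.mem_union, Finset.mem_filter, Finset.mem_univ, true_and, iff_true]
        omega
      rw [this, Finset.card_univ, Fintype.card_fin]
    · rw [Finset.disjoint_left]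
      intro j h1 h2
      rw [Finset.mem_filter] at h1 h2
      omega
  have h4 : (univ.filter fun j => f j < v).card ≤ v := by
    have h5 : ((univ.filter fun j => f j < v).image f) ⊆ range v := by
      intro y hy
      rw [Finset.mem_image] at hy
      obtain ⟨j, hj, rfl⟩ := hy
      rw [Finset.mem_filter] at hj
      exact Finset.mem_range.2 hj.2
    have h6 := Finset.card_le_card h5
    rwa [Finset.card_image_of_injective _ hf, Finset.card_range] at h6
  rw [Finset.sum_range_id] at h1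
  omega

/-- low energy: the small values are all taken -/
lemma filled {A : (Fin N → ℤ) → ℂ} (hN : NN A) (hA : AN A) {x : ℤ} (hE : En x A) {l : ℤ}
    (hl : x + l ≤ N) {d : Fin N → ℤ} (hd : A d ≠ 0) {v : ℤ} (hv0 : 0 ≤ v) (hvl : v < l) :
    ∃ j, d j = v := by
  by_contra hc
  push Not at hc
  have hp := hN d hd
  have hinj := AN_inj hA hd
  have he := hE d hd
  set f : Fin N → ℕ := fun j => (d j).toNat with hf
  have hfd : ∀ j, ((f j : ℕ) : ℤ) = d j := fun j => Int.toNat_of_nonneg (hp j)
  have hfi : Function.Injective f := by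
    intro a b hab
    apply hinj
    rw [← hfd a, ← hfd b, hab]
  obtain ⟨w, rfl⟩ := Int.eq_ofNat_of_zero_le hv0
  have hm := missing_value hfi (v := w) fun j h => hc j (by rw [← hfd j, h])
  have hs : ((∑ j, f j : ℕ) : ℤ) = ∑ j, d j := by
    push_cast
    exact Finset.sum_congr rfl fun j _ => hfd j
  have h2 : 2 * (N * (N - 1) / 2) = N * (N - 1) := by
    exact Nat.mul_div_cancel' (Nat.even_mul_pred_self N).two_dvd
  have h3 : N * (N - 1) + 2 * N ≤ 2 * ∑ j, f j + 2 * w := by omega
  have h4 : (N : ℤ) * ((N : ℤ) - 1) + 2 * N ≤ 2 * ∑ j, d j + 2 * w := by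
    rw [← hs]
    rcases Nat.eq_zero_or_pos N with h0 | h0
    · subst h0
      push_cast
      omega
    · have : ((N * (N - 1) + 2 * N : ℕ) : ℤ) ≤ ((2 * ∑ j, f j + 2 * w : ℕ) : ℤ) := by
        exact_mod_cast h3
      push_cast [Nat.cast_sub h0] at this
      push_cast
      linarith
  linarith

/-- the number of the small values -/
lemma filled_card {A : (Fin N → ℤ) → ℂ} (hN : NN A) (hA : AN A) {x : ℤ} (hE : En x A) {l : ℤ}
    (hl0 : 0 ≤ l) (hl : x + l ≤ N) {d : Fin N → ℤ} (hd : A d ≠ 0) :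
    ((univ.filter fun j => d j < l).card : ℤ) = l := by
  classical
  have hp := hN d hd
  have hinj := AN_inj hA hd
  have himg : (univ.filter fun j => d j < l).image d = Finset.Ico 0 l := by
    ext v
    rw [Finset.mem_image, Finset.mem_Ico]
    constructor
    · rintro ⟨j, hj, rfl⟩
      rw [Finset.mem_filter] at hj
      exact ⟨hp j, hj.2⟩
    · rintro ⟨h0, h1⟩
      obtain ⟨j, hj⟩ := filled hN hA hE hl hd h0 h1
      exact ⟨j, by rw [Finset.mem_filter]; exact ⟨Finset.mem_univ _, by rw [hj]; exact h1⟩, hj⟩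
  have hc := congrArg Finset.card himg
  rw [Finset.card_image_of_injective _ hinj, Int.card_Ico, sub_zero] at hc
  rw [hc]
  exact Int.toNat_of_nonneg hl0

end

end Pool.Agent.H481.GA
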