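import Pool.Agent.H481.GA9
import Pool.Agent.H481.AC9

/-!
The joint moments of the power sums do not depend on the dimension, and the law with small moments.
-/

open Finset MeasureTheory MvPolynomial
open Pool.Agent.R319.UM

namespace Pool.Agent.H481.GA

noncomputable section

variable {N : ℕ}

lemma pm_cons (l : ℕ) (s : Multiset ℕ) :
    (pm (l ::ₘ s) : MvPolynomial (Fin N) ℂ) = psum (Fin N) ℂ l * pm s := by
  unfold pm
  rw [Multiset.map_cons, Multiset.prod_cons]

lemma pm_zero : (pm 0 : MvPolynomial (Fin N) ℂ) = 1 := by simp [pm]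

lemma Cl_pm (t : Multiset ℕ) : Cl (t.sum : ℤ) (kap (pm t : MvPolynomial (Fin N) ℂ)) := by
  induction t using Multiset.induction_on with
  | empty =>
    rw [pm_zero]
    simpa using Cl_kap_one (N := N)
  | cons n t ih =>
    rw [pm_cons, kap_psum]
    refine Cl_mono ?_ (Cl_Tm (by positivity) ih)
    rw [Multiset.sum_cons]
    push_cast
    linarith

/-- the lowering operators act on the products of power sums -/
lemma Lp_pm (t : Multiset ℕ) (ht : ∀ j ∈ t, 0 < j) (hN : t.sum ≤ N) (l : ℕ) (hl : 1 ≤ l)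
    (d : Fin N → ℤ) :
    Lp (l : ℤ) (kap (pm t : MvPolynomial (Fin N) ℂ)) d =
      ((l : ℂ) * (t.count l : ℂ)) * kap (pm (t.erase l) : MvPolynomial (Fin N) ℂ) d := by
  induction t using Multiset.induction_on generalizing d with
  | empty =>
    rw [pm_zero, Lp_kap_one hl]
    simp
  | cons n t ih =>
    have ht' : ∀ j ∈ t, 0 < j := fun j hj => ht j (Multiset.mem_cons_of_mem hj)
    have hn : 0 < n := ht n (Multiset.mem_cons_self n t)
    rw [Multiset.sum_cons] at hN
    have ih' : Lp (l : ℤ) (kap (pm t : MvPolynomial (Fin N) ℂ)) = fun d =>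
        ((l : ℂ) * (t.count l : ℂ)) * kap (pm (t.erase l) : MvPolynomial (Fin N) ℂ) d := by
      funext d'
      exact ih ht' (by omega) d'
    rw [pm_cons, kap_psum, comm (Cl_pm t) (by omega) (by omega), ih']
    have e1 : Tm (n : ℤ) (fun d => ((l : ℂ) * (t.count l : ℂ)) *
        kap (pm (t.erase l) : MvPolynomial (Fin N) ℂ) d) d =
        ((l : ℂ) * (t.count l : ℂ)) *
          kap (psum (Fin N) ℂ n * pm (t.erase l) : MvPolynomial (Fin N) ℂ) d := by
      rw [kap_psum]
      unfold Tm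
      rw [Finset.mul_sum]
    rw [e1, ← pm_cons]
    by_cases hln : n = l
    · subst hln
      rw [if_pos rfl, Multiset.erase_cons_head, Multiset.count_cons_self]
      by_cases hmem : n ∈ t
      · rw [Multiset.cons_erase hmem]
        push_cast
        ring
      · rw [Multiset.count_eq_zero_of_notMem hmem]
        push_cast
        ring
    · rw [if_neg (by exact_mod_cast hln), zero_mul, add_zero,
        Multiset.count_cons_of_ne (Ne.symm hln), Multiset.erase_cons_tail _ hln]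

lemma cue_pm_cons (s t : Multiset ℕ) (ht : ∀ j ∈ t, 0 < j) (hN : t.sum ≤ N) (l : ℕ)
    (hl : 1 ≤ l) :
    cue (N := N) (fun z => eval z (pm (l ::ₘ s) : MvPolynomial (Fin N) ℂ) *
      (starRingEnd ℂ) (eval z (pm t : MvPolynomial (Fin N) ℂ))) =
      ((l : ℂ) * (t.count l : ℂ)) *
      cue (N := N) (fun z => eval z (pm s : MvPolynomial (Fin N) ℂ) *
      (starRingEnd ℂ) (eval z (pm (t.erase l) : MvPolynomial (Fin N) ℂ))) := by
  rw [cue_ip, cue_ip, pm_cons, kap_psum, ip_Lp (FS_kap _) (NN_kap _) (FS_kap _)]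
  have e : Lp (l : ℤ) (kap (pm t : MvPolynomial (Fin N) ℂ)) = fun d =>
      ((l : ℂ) * (t.count l : ℂ)) * kap (pm (t.erase l) : MvPolynomial (Fin N) ℂ) d := by
    funext d
    exact Lp_pm t ht hN l hl d
  rw [e, ip_smul_right, map_mul, Complex.conj_natCast, Complex.conj_natCast]
  ring

lemma cue_pm_zero (hN : 0 < N) (t : Multiset ℕ) (ht : ∀ j ∈ t, 0 < j) :
    cue (N := N) (fun z => eval z (pm 0 : MvPolynomial (Fin N) ℂ) *
      (starRingEnd ℂ) (eval z (pm t : MvPolynomial (Fin N) ℂ))) = if t = 0 then 1 else 0 := by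
  rw [cue_ip, pm_zero]
  induction t using Multiset.induction_on with
  | empty => rw [pm_zero, if_pos rfl, ip_one hN]
  | cons n t _ =>
    have hn : 1 ≤ n := ht n (Multiset.mem_cons_self n t)
    rw [if_neg (Multiset.cons_ne_zero), pm_cons, kap_psum, ← ip_conj,
      ip_Lp (FS_kap _) (NN_kap _) (FS_kap _), Lp_kap_one hn]
    unfold ip
    simp

/-- the joint moments of the power sums are the same for all dimensions from the degree on -/
theorem cue_pm_indep {N' D : ℕ} (hN0 : 0 < N) (hN0' : 0 < N') (hN : D ≤ N) (hN' : D ≤ N')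
    (s : Multiset ℕ) (hs : ∀ j ∈ s, 0 < j) (hsD : s.sum ≤ D) : ∀ t : Multiset ℕ,
    (∀ j ∈ t, 0 < j) → t.sum ≤ D →
    cue (N := N) (fun z => eval z (pm s : MvPolynomial (Fin N) ℂ) *
      (starRingEnd ℂ) (eval z (pm t : MvPolynomial (Fin N) ℂ))) =
    cue (N := N') (fun z => eval z (pm s : MvPolynomial (Fin N') ℂ) *
      (starRingEnd ℂ) (eval z (pm t : MvPolynomial (Fin N') ℂ))) := by
  induction s using Multiset.induction_on with
  | empty =>
    intro t ht _
    rw [cue_pm_zero hN0 t ht, cue_pm_zero hN0' t ht]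
  | cons l s ih =>
    intro t ht htD
    have hl : 1 ≤ l := hs l (Multiset.mem_cons_self l s)
    rw [Multiset.sum_cons] at hsD
    rw [cue_pm_cons s t ht (htD.trans hN) l hl, cue_pm_cons s t ht (htD.trans hN') l hl]
    have hle : (t.erase l).sum ≤ t.sum := by
      obtain ⟨u, hu⟩ := Multiset.le_iff_exists_add.1 (Multiset.erase_le l t)
      have := congrArg Multiset.sum hu
      rw [Multiset.sum_add] at this
      omega
    rw [ih (fun j hj => hs j (Multiset.mem_cons_of_mem hj)) (by omega) (t.erase l)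
      (fun j hj => ht j (Multiset.mem_of_mem_erase hj)) (hle.trans htD)]

/-! ### the law -/

/-- a primitive root of unity -/
def zt (M : ℕ) : ℂ := Complex.exp (2 * Real.pi * Complex.I / M)

lemma zt_prim {M : ℕ} (hM : M ≠ 0) : IsPrimitiveRoot (zt M) M := Complex.isPrimitiveRoot_exp M hM

/-- add a regular polygon -/
def ap (R N : ℕ) (z : Fin R → ℂ) : Fin N → ℂ := fun i =>
  if h : (i : ℕ) < R then z ⟨i, h⟩ else zt (N - R) ^ ((i : ℕ) - R)

lemma ap_split {α : Type*} [CommMonoid α] {R : ℕ} (hR : R ≤ N) (z : Fin R → ℂ) (f : ℂ → α) :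
    ∏ i, f (ap R N z i) = (∏ i, f (z i)) * ∏ m ∈ range (N - R), f (zt (N - R) ^ m) := by
  set F : ℕ → α := fun i => if h : i < R then f (z ⟨i, h⟩) else f (zt (N - R) ^ (i - R)) with hF
  have h1 : ∏ i, f (ap R N z i) = ∏ i : Fin N, F i := by
    refine Finset.prod_congr rfl fun i _ => ?_
    unfold ap
    simp only [hF]
    split_ifs <;> rfl
  have h2 : ∏ i, f (z i) = ∏ i : Fin R, F i := by
    refine Finset.prod_congr rfl fun i _ => ?_
    simp only [hF]
    rw [dif_pos i.2]
  rw [h1, h2, Fin.prod_univ_eq_prod_range F N, Fin.prod_univ_eq_prod_range F R,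
    ← Finset.prod_range_mul_prod_Ico F hR]
  congr 1
  rw [Finset.prod_Ico_eq_prod_range]
  refine Finset.prod_congr rfl fun m _ => ?_
  simp only [hF]
  rw [dif_neg (by omega)]
  congr 2
  omega

lemma ap_sum {R : ℕ} (hR : R ≤ N) (z : Fin R → ℂ) (f : ℂ → ℂ) :
    ∑ i, f (ap R N z i) = (∑ i, f (z i)) + ∑ m ∈ range (N - R), f (zt (N - R) ^ m) := by
  have h := ap_split (α := Multiplicative ℂ) hR z (fun w => Multiplicative.ofAdd (f w))
  exact h

lemma poly_zero {M j : ℕ} (hj : 0 < j) (hjM : j < M) :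
    ∑ m ∈ range M, (zt M ^ m) ^ j = 0 := by
  have hM : M ≠ 0 := by omega
  have hp := zt_prim hM
  have h1 : zt M ^ j ≠ 1 := hp.pow_ne_one_of_pos_of_lt hj.ne' hjM
  have h2 : ∀ m ∈ range M, (zt M ^ m) ^ j = (zt M ^ j) ^ m := by
    intro m _
    rw [← pow_mul, ← pow_mul, mul_comm]
  rw [Finset.sum_congr rfl h2]
  have h3 := geom_sum_mul (zt M ^ j) M
  rw [← pow_mul, mul_comm j M, pow_mul, hp.pow_eq_one, one_pow, sub_self] at h3
  exact (mul_eq_zero.1 h3).resolve_right (sub_ne_zero.2 h1)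

lemma poly_prod {M : ℕ} (hM : 0 < M) (w : ℂ) :
    ∏ m ∈ range M, (w - zt M ^ m) = w ^ M - 1 := by
  have hp := zt_prim hM.ne'
  have h1 : (range M).image (fun m => zt M ^ m) = Polynomial.nthRootsFinset M (1 : ℂ) := by
    refine Finset.eq_of_subset_of_card_le ?_ ?_
    · intro x hx
      rw [Finset.mem_image] at hx
      obtain ⟨m, _, rfl⟩ := hx
      rw [Polynomial.mem_nthRootsFinset hM, ← pow_mul, mul_comm, pow_mul, hp.pow_eq_one, one_pow]
    · rw [hp.card_nthRootsFinset, Finset.card_image_of_injOn, Finset.card_range]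
      intro a ha b hb hab
      exact hp.pow_inj (Finset.mem_range.1 (by simpa using ha)) (Finset.mem_range.1 (by simpa using hb)) hab
  have h2 := Polynomial.X_pow_sub_one_eq_prod hM hp
  have h3 := congrArg (Polynomial.eval w) h2
  rw [Polynomial.eval_prod] at h3
  simp only [Polynomial.eval_sub, Polynomial.eval_pow, Polynomial.eval_X, Polynomial.eval_one,
    Polynomial.eval_C] at h3
  rw [h3, ← h1, Finset.prod_image]
  intro a ha b hb hab
  exact hp.pow_inj (Finset.mem_range.1 (by simpa using ha)) (Finset.mem_range.1 (by simpa using hb)) hab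

lemma eval_pm (z : Fin N → ℂ) (s : Multiset ℕ) :
    eval z (pm s : MvPolynomial (Fin N) ℂ) = (s.map fun j => ∑ i, z i ^ j).prod := by
  unfold pm
  rw [map_multiset_prod, Multiset.map_map]
  congr 1
  refine Multiset.map_congr rfl fun j _ => ?_
  rw [Function.comp_apply, eval_psum]

lemma ap_pm {R : ℕ} (hR : 2 * R < N) (z : Fin R → ℂ) (s : Multiset ℕ) (hs : ∀ j ∈ s, 0 < j)
    (hsR : s.sum ≤ R) :
    eval (ap R N z) (pm s : MvPolynomial (Fin N) ℂ) = eval z (pm s : MvPolynomial (Fin R) ℂ) := by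
  rw [eval_pm, eval_pm]
  congr 1
  refine Multiset.map_congr rfl fun j hj => ?_
  have hjR : j ≤ R := (Multiset.single_le_sum (fun x _ => Nat.zero_le x) j hj).trans hsR
  rw [ap_sum (by omega) z (fun w => w ^ j), poly_zero (hs j hj) (by omega), add_zero]

lemma ap_cont (R N : ℕ) : Continuous (ap R N) := by
  refine continuous_pi fun i => ?_
  unfold ap
  by_cases h : (i : ℕ) < R
  · simp only [dif_pos h]
    exact continuous_apply _
  · simp only [dif_neg h]
    exact continuous_const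

lemma zt_norm (M : ℕ) : ‖zt M‖ = 1 := by
  unfold zt
  have : (2 * Real.pi * Complex.I / M : ℂ) = ((2 * Real.pi / M : ℝ) : ℂ) * Complex.I := by
    push_cast
    ring
  rw [this, Complex.norm_exp_ofReal_mul_I]

lemma ap_unit {R : ℕ} {z : Fin R → ℂ} (hz : ∀ i, ‖z i‖ = 1) (i : Fin N) : ‖ap R N z i‖ = 1 := by
  unfold ap
  split_ifs
  · exact hz _
  · rw [norm_pow, zt_norm, one_pow]

/-- the law -/
def sl (R N : ℕ) : Measure (Fin N → ℂ) := Measure.map (ap R N) (AC.haarLaw R)

lemma sl_prob {R : ℕ} (hR : 0 < R) : IsProbabilityMeasure (sl R N) := by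
  have := AC.haar_prob hR
  unfold sl
  exact Measure.isProbabilityMeasure_map (ap_cont R N).measurable.aemeasurable

lemma unit_meas : MeasurableSet {z : Fin N → ℂ | ∀ i, ‖z i‖ = 1} := by
  have : {z : Fin N → ℂ | ∀ i, ‖z i‖ = 1} = ⋂ i, {z : Fin N → ℂ | ‖z i‖ = 1} := by
    ext z
    simp
  rw [this]
  exact MeasurableSet.iInter fun i =>
    measurableSet_eq_fun (measurable_pi_apply i).norm measurable_const

lemma sl_unit {R : ℕ} : ∀ᵐ z ∂(sl R N), ∀ i, ‖z i‖ = 1 := by
  unfold sl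
  rw [ae_map_iff (ap_cont R N).measurable.aemeasurable unit_meas]
  filter_upwards [AC.haar_unit (N := R)] with z hz i
  exact ap_unit hz i

lemma sl_TC {R : ℕ} (hR : 0 < R) (hRN : 2 * R < N) : TC N R (sl R N) := by
  have := sl_prob (N := N) hR
  refine TC_of sl_unit fun s t hs ht hsR htR => ?_
  unfold sl
  rw [integral_map (ap_cont R N).measurable.aemeasurable]
  · have e : ∀ z : Fin R → ℂ, eval (ap R N z) (pm s : MvPolynomial (Fin N) ℂ) *
        (starRingEnd ℂ) (eval (ap R N z) (pm t : MvPolynomial (Fin N) ℂ)) =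
        eval z (pm s : MvPolynomial (Fin R) ℂ) *
        (starRingEnd ℂ) (eval z (pm t : MvPolynomial (Fin R) ℂ)) := by
      intro z
      rw [ap_pm hRN z s hs hsR, ap_pm hRN z t ht htR]
    simp only [e]
    rw [AC.haar_mom]
    exact cue_pm_indep hR (by omega) le_rfl (by omega) s hs hsR t ht htR
  · exact ((MvPolynomial.continuous_eval _).mul
      (Complex.continuous_conj.comp (MvPolynomial.continuous_eval _))).aestronglyMeasurable

lemma haar_TC (R : ℕ) : TC N R (AC.haarLaw N) := fun F G _ _ => AC.haar_mom F G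

lemma cont_Zt {k : ℝ} (hk : 0 < k) (θ : ℝ) : Continuous fun z : Fin N → ℂ =>
    ‖∏ j, (Complex.exp (Complex.I * θ) - z j)‖ ^ (2 * k) := by
  refine Continuous.rpow_const ?_ fun _ => Or.inr (by positivity)
  fun_prop

lemma int_Zt {k : ℝ} (hk : 0 < k) (θ : ℝ) {ν : Measure (Fin N → ℂ)} [IsProbabilityMeasure ν]
    (h1 : ∀ᵐ z ∂ν, ∀ i, ‖z i‖ = 1) :
    Integrable (fun z : Fin N → ℂ => ‖∏ j, (Complex.exp (Complex.I * θ) - z j)‖ ^ (2 * k)) ν := by
  refine Integrable.of_bound (cont_Zt hk θ).aestronglyMeasurable (((2 : ℝ) ^ N) ^ (2 * k)) ?_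
  filter_upwards [h1] with z hz
  rw [Real.norm_of_nonneg (by positivity)]
  exact Real.rpow_le_rpow (norm_nonneg _) (norm_le_two hz θ) (by positivity)

lemma ap_le {k : ℝ} (hk : 0 < k) (θ : ℝ) {R : ℕ} (hRN : 2 * R < N) (z : Fin R → ℂ) :
    ‖∏ j, (Complex.exp (Complex.I * θ) - ap R N z j)‖ ^ (2 * k) ≤
      (2 : ℝ) ^ (2 * k) * ‖∏ j, (Complex.exp (Complex.I * θ) - z j)‖ ^ (2 * k) := by
  rw [ap_split (by omega) z (fun w => Complex.exp (Complex.I * θ) - w),
    poly_prod (by omega : 0 < N - R), norm_mul,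
    Real.mul_rpow (norm_nonneg _) (norm_nonneg _), mul_comm]
  refine mul_le_mul_of_nonneg_right ?_ (by positivity)
  refine Real.rpow_le_rpow (norm_nonneg _) ?_ (by positivity)
  refine (norm_sub_le _ _).trans ?_
  rw [norm_pow, mul_comm Complex.I, Complex.norm_exp_ofReal_mul_I, one_pow, norm_one]
  norm_num

lemma sl_theta {k : ℝ} (hk : 0 < k) (θ : ℝ) {R : ℕ} (hR : 0 < R) (hRN : 2 * R < N) :
    ∫ z, ‖∏ j, (Complex.exp (Complex.I * θ) - z j)‖ ^ (2 * k) ∂(sl R N) ≤
      (2 : ℝ) ^ (2 * k) * ∫ z, ‖∏ j, (Complex.exp (Complex.I * θ) - z j)‖ ^ (2 * k)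
        ∂(AC.haarLaw R) := by
  have hh := AC.haar_prob hR
  unfold sl
  rw [integral_map (ap_cont R N).measurable.aemeasurable (cont_Zt hk θ).aestronglyMeasurable,
    ← integral_const_mul]
  exact integral_mono_of_nonneg (Filter.Eventually.of_forall fun z => by positivity)
    ((int_Zt hk θ AC.haar_unit).const_mul _) (Filter.Eventually.of_forall (ap_le hk θ hRN))

/-- **the law with small moments** -/
theorem small {k : ℝ} (hk : 0 < k) : ∃ C : ℝ, 0 < C ∧ ∀ R : ℕ, 0 < R → ∀ N : ℕ, 2 * R < N →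
    ∫ z, mp k z ∂(sl R N) ≤ C * (R : ℝ) ^ (k ^ 2) := by
  obtain ⟨C, hC, h⟩ := upper_theta hk (δ := 1) one_pos
  refine ⟨(2 : ℝ) ^ (2 * k) * C, by positivity, fun R hR N hRN => ?_⟩
  have hp := sl_prob (N := N) hR
  have hh := AC.haar_prob hR
  refine mp_mean hk sl_unit fun θ => ?_
  have h1 := h R hR R (by rw [one_mul]) (AC.haarLaw R) hh AC.haar_unit (haar_TC R) θ
  have h2 := sl_theta (N := N) hk θ hR hRN
  calc _ ≤ _ := h2
    _ ≤ (2 : ℝ) ^ (2 * k) * (C * (R : ℝ) ^ (k ^ 2)) :=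
        mul_le_mul_of_nonneg_left h1 (by positivity)
    _ = _ := by ring

end

end Pool.Agent.H481.GA
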