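import Pool.Agent.H481.GA1

/-!
The commutation relation and the action of linear forms of the power sums.
-/

open Finset MeasureTheory
open Pool.Agent.R319.UM

namespace Pool.Agent.H481.GA

noncomputable section

variable {N : ℕ}

/-- the class of the functions considered -/
structure Cl (x : ℤ) (A : (Fin N → ℤ) → ℂ) : Prop where
  fs : FS A
  nn : NN A
  an : AN A
  en : En x A

lemma Pos_sub {d : Fin N → ℤ} (hp : Pos d) (i : Fin N) {l : ℤ} (hl : 0 ≤ l) :
    Pos (d - un i l) ↔ l ≤ d i := by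
  unfold Pos un
  constructor
  · intro h
    have := h i
    rw [Pi.sub_apply, Pi.single_eq_same] at this
    omega
  · intro h j
    rw [Pi.sub_apply]
    by_cases hij : j = i
    · subst hij
      rw [Pi.single_eq_same]
      omega
    · rw [Pi.single_eq_of_ne hij, sub_zero]
      exact hp j

/-- **the commutation relation** -/
theorem comm {x : ℤ} {A : (Fin N → ℤ) → ℂ} (hA : Cl x A) {l m : ℤ} (hl : 1 ≤ l)
    (hx : x + l ≤ N) (d : Fin N → ℤ) :
    Lp m (Tm l A) d = Tm l (Lp m A) d + (if l = m then (l : ℂ) else 0) * A d := by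
  by_cases hp : Pos d
  swap
  · have h1 : Lp m (Tm l A) d = 0 := if_neg hp
    have h2 : Tm l (Lp m A) d = 0 := by
      by_contra h
      exact hp (NN_Tm (by omega) (NN_Lp m A) d h)
    have h3 : A d = 0 := by
      by_contra h
      exact hp (hA.nn d h)
    rw [h1, h2, h3]
    simp
  by_cases hinj : Function.Injective d
  swap
  · have h1 : Lp m (Tm l A) d = 0 := by
      by_contra h
      exact hinj (AN_inj (AN_Lp m (AN_Tm l hA.an)) h)
    have h2 : Tm l (Lp m A) d = 0 := by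
      by_contra h
      exact hinj (AN_inj (AN_Tm l (AN_Lp m hA.an)) h)
    have h3 : A d = 0 := by
      by_contra h
      exact hinj (AN_inj hA.an h)
    rw [h1, h2, h3]
    simp
  have e1 : Lp m (Tm l A) d = ∑ i, Tm (-m) A (d - un i l) := by
    unfold Lp
    rw [if_pos hp, Tm_comm]
    rfl
  have e2 : Tm l (Lp m A) d = ∑ i, if l ≤ d i then Tm (-m) A (d - un i l) else 0 := by
    unfold Tm
    refine Finset.sum_congr rfl fun i _ => ?_
    unfold Lp
    by_cases h : l ≤ d i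
    · rw [if_pos h, if_pos ((Pos_sub hp i (by omega)).2 h)]
      rfl
    · rw [if_neg h, if_neg fun h2 => h ((Pos_sub hp i (by omega)).1 h2)]
  have e3 : ∑ i, Tm (-m) A (d - un i l) =
      (∑ i, if l ≤ d i then Tm (-m) A (d - un i l) else 0) +
      ∑ i, if d i < l then Tm (-m) A (d - un i l) else 0 := by
    rw [← Finset.sum_add_distrib]
    refine Finset.sum_congr rfl fun i _ => ?_
    by_cases h : l ≤ d i
    · rw [if_pos h, if_neg (by omega), add_zero]
    · rw [if_neg h, if_pos (by omega), zero_add]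
  have e4 : ∀ i, d i < l → Tm (-m) A (d - un i l) = A (d - un i l - un i (-m)) := by
    intro i hi
    unfold Tm
    refine Finset.sum_eq_single i (fun j _ hji => ?_) fun h => absurd (Finset.mem_univ i) h
    by_contra h
    have h2 := hA.nn _ h i
    unfold un at h2
    rw [Pi.sub_apply, Pi.sub_apply, Pi.single_eq_same, Pi.single_eq_of_ne (Ne.symm hji)] at h2
    omega
  rw [e1, e3, e2]
  congr 1
  by_cases hlm : l = m
  · rw [if_pos hlm]
    have e5 : ∀ i, (if d i < l then Tm (-m) A (d - un i l) else 0) = if d i < l then A d else 0 := by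
      intro i
      split_ifs with h
      · rw [e4 i h, hlm]
        congr 1
        rw [un_neg]
        abel
      · rfl
    simp only [e5]
    rw [← Finset.sum_filter, Finset.sum_const, nsmul_eq_mul]
    by_cases hd : A d = 0
    · rw [hd, mul_zero, mul_zero]
    · have hc := filled_card hA.nn hA.an hA.en (by omega : 0 ≤ l) hx hd
      congr 1
      exact_mod_cast hc
  · rw [if_neg hlm, zero_mul]
    refine Finset.sum_eq_zero fun i _ => ?_
    split_ifs with h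
    · rw [e4 i h]
      by_contra hne
      obtain ⟨j, hj⟩ := filled hA.nn hA.an hA.en hx hne (hp i) h
      by_cases hji : j = i
      · subst hji
        unfold un at hj
        rw [Pi.sub_apply, Pi.sub_apply, Pi.single_eq_same, Pi.single_eq_same] at hj
        omega
      · unfold un at hj
        rw [Pi.sub_apply, Pi.sub_apply, Pi.single_eq_of_ne hji, Pi.single_eq_of_ne hji] at hj
        exact hji (hinj (by omega))
    · rfl

/-- the adjoint -/
lemma ip_Lp {A B : (Fin N → ℤ) → ℂ} (hA : FS A) (hN : NN A) (hB : FS B) (l : ℤ) :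
    ip (Tm l A) B = ip A (Lp l B) := by
  rw [ip_Tm hA hB]
  unfold ip
  refine tsum_congr fun d => ?_
  by_cases h : A d = 0
  · rw [h, zero_mul, zero_mul]
  · unfold Lp
    rw [if_pos (hN d h)]

/-! ### linear forms -/

/-- multiplication by a linear form of the power sums -/
def TQ (S : Finset ℕ) (q : ℕ → ℂ) (A : (Fin N → ℤ) → ℂ) : (Fin N → ℤ) → ℂ :=
  fun d => ∑ n ∈ S, q n * Tm (n : ℤ) A d

/-- its adjoint -/
def LQ (S : Finset ℕ) (q : ℕ → ℂ) (A : (Fin N → ℤ) → ℂ) : (Fin N → ℤ) → ℂ :=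
  fun d => ∑ n ∈ S, (starRingEnd ℂ) (q n) * Lp (n : ℤ) A d

/-- the variance of the linear form -/
def WQ (S : Finset ℕ) (q : ℕ → ℂ) : ℝ := ∑ n ∈ S, (n : ℝ) * ‖q n‖ ^ 2

lemma En_mono {x y : ℤ} (h : x ≤ y) {A : (Fin N → ℤ) → ℂ} (hA : En x A) : En y A := by
  intro d hd
  have := hA d hd
  linarith

lemma Cl_mono {x y : ℤ} (h : x ≤ y) {A : (Fin N → ℤ) → ℂ} (hA : Cl x A) : Cl y A :=
  ⟨hA.fs, hA.nn, hA.an, En_mono h hA.en⟩

lemma Cl_sum {ι : Type*} (s : Finset ι) {x : ℤ} (c : ι → ℂ) {f : ι → (Fin N → ℤ) → ℂ}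
    (h : ∀ i ∈ s, Cl x (f i)) : Cl x (fun d => ∑ i ∈ s, c i * f i d) := by
  refine ⟨FS_sum s fun i hi => FS_smul (h i hi).fs (c i), ?_, ?_, ?_⟩
  · intro d hd
    obtain ⟨i, hi, h2⟩ := Finset.exists_ne_zero_of_sum_ne_zero hd
    exact (h i hi).nn d (right_ne_zero_of_mul h2)
  · intro a b hab d
    simp only
    rw [← Finset.sum_neg_distrib]
    refine Finset.sum_congr rfl fun i hi => ?_
    rw [(h i hi).an a b hab d]
    ring
  · intro d hd
    obtain ⟨i, hi, h2⟩ := Finset.exists_ne_zero_of_sum_ne_zero hd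
    exact (h i hi).en d (right_ne_zero_of_mul h2)

lemma Cl_Tm {x l : ℤ} (hl : 0 ≤ l) {A : (Fin N → ℤ) → ℂ} (hA : Cl x A) : Cl (x + l) (Tm l A) :=
  ⟨FS_Tm hA.fs l, NN_Tm hl hA.nn, AN_Tm l hA.an, En_Tm l hA.en⟩

lemma Cl_TQ {x : ℤ} {D : ℕ} {S : Finset ℕ} (hS : ∀ n ∈ S, n ≤ D) (q : ℕ → ℂ)
    {A : (Fin N → ℤ) → ℂ} (hA : Cl x A) : Cl (x + D) (TQ S q A) := by
  refine Cl_sum S q fun n hn => ?_
  refine Cl_mono ?_ (Cl_Tm (by positivity) hA)
  have := hS n hn
  omega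

lemma FS_LQ {S : Finset ℕ} (q : ℕ → ℂ) {A : (Fin N → ℤ) → ℂ} (hA : FS A) : FS (LQ S q A) :=
  FS_sum S fun n _ => FS_smul (FS_Lp hA _) _

lemma ip_TQ {S : Finset ℕ} (q : ℕ → ℂ) {A B : (Fin N → ℤ) → ℂ} (hA : FS A) (hN : NN A)
    (hB : FS B) : ip (TQ S q A) B = ip A (LQ S q B) := by
  have h1 : ip (TQ S q A) B = ∑ n ∈ S, ip (fun d => q n * Tm (n : ℤ) A d) B :=
    ip_sum_left S (fun n d => q n * Tm (n : ℤ) A d) (fun n _ => FS_smul (FS_Tm hA _) _) B
  have h2 : ip A (LQ S q B) = ∑ n ∈ S, ip A (fun d => (starRingEnd ℂ) (q n) * Lp (n : ℤ) B d) :=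
    ip_sum_right S (fun n d => (starRingEnd ℂ) (q n) * Lp (n : ℤ) B d)
      (fun n _ => FS_smul (FS_Lp hB _) _) A
  rw [h1, h2]
  refine Finset.sum_congr rfl fun n _ => ?_
  rw [ip_smul_left, ip_smul_right, Complex.conj_conj, ip_Lp hA hN hB]

lemma Tm_sum {ι : Type*} (s : Finset ι) (c : ι → ℂ) (f : ι → (Fin N → ℤ) → ℂ) (l : ℤ)
    (d : Fin N → ℤ) : Tm l (fun d => ∑ i ∈ s, c i * f i d) d = ∑ i ∈ s, c i * Tm l (f i) d := by
  unfold Tm
  rw [Finset.sum_comm]
  refine Finset.sum_congr rfl fun i _ => ?_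
  rw [Finset.mul_sum]

lemma Lp_sum {ι : Type*} (s : Finset ι) (c : ι → ℂ) (f : ι → (Fin N → ℤ) → ℂ) (l : ℤ)
    (d : Fin N → ℤ) : Lp l (fun d => ∑ i ∈ s, c i * f i d) d = ∑ i ∈ s, c i * Lp l (f i) d := by
  unfold Lp
  split_ifs
  · exact Tm_sum s c f (-l) d
  · simp

/-- commutation of a lowering operator with a linear form -/
lemma Lp_TQ {x : ℤ} {D : ℕ} {S : Finset ℕ} (hS : ∀ n ∈ S, 1 ≤ n ∧ n ≤ D) (q : ℕ → ℂ)
    {A : (Fin N → ℤ) → ℂ} (hA : Cl x A) (hx : x + D ≤ N) (m : ℕ) (d : Fin N → ℤ) :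
    Lp (m : ℤ) (TQ S q A) d = TQ S q (Lp (m : ℤ) A) d + (if m ∈ S then (m : ℂ) * q m else 0) * A d := by
  unfold TQ
  rw [Lp_sum]
  have h : ∀ n ∈ S, q n * Lp (m : ℤ) (Tm (n : ℤ) A) d =
      q n * Tm (n : ℤ) (Lp (m : ℤ) A) d + (if n = m then (m : ℂ) * q m else 0) * A d := by
    intro n hn
    rw [comm hA (by have := (hS n hn).1; omega) (by have := (hS n hn).2; omega)]
    by_cases hnm : n = m
    · subst hnm
      rw [if_pos rfl, if_pos rfl]
      push_cast
      ring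
    · rw [if_neg hnm, if_neg (by exact_mod_cast hnm)]
      ring
  rw [Finset.sum_congr rfl h, Finset.sum_add_distrib, ← Finset.sum_mul, Finset.sum_ite_eq']

lemma LQ_TQ {x : ℤ} {D : ℕ} {S : Finset ℕ} (hS : ∀ n ∈ S, 1 ≤ n ∧ n ≤ D) (q : ℕ → ℂ)
    {A : (Fin N → ℤ) → ℂ} (hA : Cl x A) (hx : x + D ≤ N) (d : Fin N → ℤ) :
    LQ S q (TQ S q A) d = TQ S q (LQ S q A) d + (WQ S q : ℂ) * A d := by
  have e : TQ S q (LQ S q A) d = ∑ m ∈ S, (starRingEnd ℂ) (q m) * TQ S q (Lp (m : ℤ) A) d := by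
    unfold TQ LQ
    simp only [Tm_sum, Finset.mul_sum]
    rw [Finset.sum_comm]
    refine Finset.sum_congr rfl fun i _ => Finset.sum_congr rfl fun j _ => ?_
    ring
  rw [e]
  have e2 : LQ S q (TQ S q A) d = ∑ m ∈ S, (starRingEnd ℂ) (q m) * Lp (m : ℤ) (TQ S q A) d := rfl
  rw [e2]
  have h : ∀ m ∈ S, (starRingEnd ℂ) (q m) * Lp (m : ℤ) (TQ S q A) d =
      (starRingEnd ℂ) (q m) * TQ S q (Lp (m : ℤ) A) d + (((m : ℝ) * ‖q m‖ ^ 2 : ℝ) : ℂ) * A d := by
    intro m hm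
    rw [Lp_TQ hS q hA hx, if_pos hm]
    have : (((m : ℝ) * ‖q m‖ ^ 2 : ℝ) : ℂ) = (m : ℂ) * ((starRingEnd ℂ) (q m) * q m) := by
      rw [← Complex.normSq_eq_conj_mul_self, Complex.normSq_eq_norm_sq]
      push_cast
      ring
    rw [this]
    ring
  rw [Finset.sum_congr rfl h, Finset.sum_add_distrib, ← Finset.sum_mul]
  congr 2
  unfold WQ
  push_cast
  rfl

/-! ### powers -/

/-- powers of the multiplication -/
def TP (S : Finset ℕ) (q : ℕ → ℂ) (i : ℕ) (A : (Fin N → ℤ) → ℂ) : (Fin N → ℤ) → ℂ :=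
  (TQ S q)^[i] A

lemma TP_zero (S : Finset ℕ) (q : ℕ → ℂ) (A : (Fin N → ℤ) → ℂ) : TP S q 0 A = A := rfl

lemma TP_succ (S : Finset ℕ) (q : ℕ → ℂ) (i : ℕ) (A : (Fin N → ℤ) → ℂ) :
    TP S q (i + 1) A = TQ S q (TP S q i A) := Function.iterate_succ_apply' _ _ _

lemma Cl_TP {x : ℤ} {D : ℕ} {S : Finset ℕ} (hS : ∀ n ∈ S, n ≤ D) (q : ℕ → ℂ)
    {A : (Fin N → ℤ) → ℂ} (hA : Cl x A) (i : ℕ) : Cl (x + i * D) (TP S q i A) := by
  induction i with
  | zero => simpa [TP_zero] using hA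
  | succ i ih =>
    rw [TP_succ]
    refine Cl_mono ?_ (Cl_TQ hS q ih)
    push_cast
    linarith

lemma TQ_zero (S : Finset ℕ) (q : ℕ → ℂ) : TQ S q (fun _ : Fin N → ℤ => (0 : ℂ)) = fun _ => 0 := by
  funext d
  unfold TQ Tm
  simp

/-- a lowering operator which kills `A` and does not meet `S` kills the powers -/
lemma Lp_TP {x : ℤ} {D : ℕ} {S : Finset ℕ} (hS : ∀ n ∈ S, 1 ≤ n ∧ n ≤ D) (q : ℕ → ℂ)
    {A : (Fin N → ℤ) → ℂ} (hA : Cl x A) {m : ℕ} (hm : m ∉ S)
    (h0 : Lp (m : ℤ) A = fun _ => 0) (i : ℕ) (hx : x + i * D ≤ N) :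
    Lp (m : ℤ) (TP S q i A) = fun _ => 0 := by
  induction i with
  | zero => exact h0
  | succ i ih =>
    rw [TP_succ]
    have hx2 : x + i * D + D ≤ N := by
      push_cast at hx
      linarith
    have ih' := ih (by have : (0 : ℤ) ≤ (D : ℤ) := by positivity
                       linarith)
    funext d
    rw [Lp_TQ hS q (Cl_TP (fun n hn => (hS n hn).2) q hA i) hx2, ih', TQ_zero, if_neg hm]
    simp

lemma LQ_TP {x : ℤ} {D : ℕ} {S : Finset ℕ} (hS : ∀ n ∈ S, 1 ≤ n ∧ n ≤ D) (q : ℕ → ℂ)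
    {A : (Fin N → ℤ) → ℂ} (hA : Cl x A) (h0 : LQ S q A = fun _ => 0) (i : ℕ)
    (hx : x + (i + 1) * D ≤ N) :
    LQ S q (TP S q (i + 1) A) = fun d => ((i + 1 : ℕ) : ℂ) * (WQ S q : ℂ) * TP S q i A d := by
  induction i with
  | zero =>
    funext d
    rw [TP_succ, TP_zero, LQ_TQ hS q hA (by push_cast at hx; linarith), h0, TQ_zero]
    simp
  | succ i ih =>
    have hD : (0 : ℤ) ≤ (D : ℤ) := by positivity
    have ih' := ih (by push_cast at hx; linarith)
    funext d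
    rw [TP_succ S q (i + 1), LQ_TQ hS q (Cl_TP (fun n hn => (hS n hn).2) q hA (i + 1))
      (by push_cast at hx ⊢; linarith), ih']
    have e : TQ S q (fun d => ((i + 1 : ℕ) : ℂ) * (WQ S q : ℂ) * TP S q i A d) d =
        ((i + 1 : ℕ) : ℂ) * (WQ S q : ℂ) * TP S q (i + 1) A d := by
      rw [TP_succ]
      unfold TQ Tm
      rw [Finset.mul_sum]
      refine Finset.sum_congr rfl fun n _ => ?_
      rw [← Finset.mul_sum]
      ring
    rw [e]
    push_cast
    ring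

/-- **orthogonality of the powers** -/
theorem ip_TP {x : ℤ} {D : ℕ} {S : Finset ℕ} (hS : ∀ n ∈ S, 1 ≤ n ∧ n ≤ D) (q : ℕ → ℂ)
    {A : (Fin N → ℤ) → ℂ} (hA : Cl x A) (h0 : LQ S q A = fun _ => 0) :
    ∀ i j : ℕ, x + i * D ≤ N → x + j * D ≤ N →
    ip (TP S q i A) (TP S q j A) =
      if i = j then ((i.factorial : ℂ) * (WQ S q : ℂ) ^ i) * ip A A else 0 := by
  have hz : ∀ B : (Fin N → ℤ) → ℂ, ip B (fun _ => 0) = 0 := by
    intro B
    unfold ip
    simp
  intro i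
  induction i with
  | zero =>
    intro j _ hj
    rcases j with _ | j
    · simp [TP_zero]
    · rw [if_neg (by omega), TP_zero, TP_succ, ← ip_conj,
        ip_TQ q (Cl_TP (fun n hn => (hS n hn).2) q hA j).fs
        (Cl_TP (fun n hn => (hS n hn).2) q hA j).nn hA.fs, h0, hz, map_zero]
  | succ i ih =>
    intro j hi hj
    have hcl := Cl_TP (fun n hn => (hS n hn).2) q hA i
    rcases j with _ | j
    · rw [if_neg (by omega), TP_zero, TP_succ, ip_TQ q hcl.fs hcl.nn hA.fs, h0, hz]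
    · have hD : (0 : ℤ) ≤ (D : ℤ) := by positivity
      rw [TP_succ S q i, ip_TQ q hcl.fs hcl.nn
        (Cl_TP (fun n hn => (hS n hn).2) q hA (j + 1)).fs,
        LQ_TP hS q hA h0 j (by push_cast at hj ⊢; linarith), ip_smul_right,
        ih j (by push_cast at hi; linarith) (by push_cast at hj; linarith)]
      rw [map_mul, Complex.conj_natCast, Complex.conj_ofReal]
      by_cases hij : i = j
      · subst hij
        rw [if_pos rfl, if_pos rfl, Nat.factorial_succ]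
        push_cast
        ring
      · rw [if_neg hij, if_neg (by omega), mul_zero]

end

end Pool.Agent.H481.GA
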