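import Pool.Agent.H481.SB8

/-!
Two-point noise: total mass, moments and the number of double points.
-/

open MvPolynomial Finset MeasureTheory
open Pool.Agent.R319.UM

namespace Pool.Agent.H481.SB

noncomputable section

variable {N D : ℕ}

/-- Weyl's normalisation -/
lemma cue_one (hN : 0 < N) :
    (N.factorial : ℂ) * cue (N := N) (fun z => eval z (1 : MvPolynomial (Fin N) ℂ) *
      (starRingEnd ℂ) (eval z (1 : MvPolynomial (Fin N) ℂ))) = N.factorial := by
  have hK : 0 < 2 * N := by omega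
  have hKc : ((2 * N : ℕ) : ℂ) ≠ 0 := by exact_mod_cast hK.ne'
  have hdeg : ∀ j, (VP N).degreeOf j < 2 * N := by
    intro j
    have h2 := VP_deg hN j
    omega
  have h1 := torus_eq_grid hK (VP N) (VP N) hdeg hdeg
  simp only [VP_eval] at h1
  have hNf : (N.factorial : ℂ) ≠ 0 := by exact_mod_cast N.factorial_ne_zero
  have hcue : ∀ I : ℂ, (N.factorial : ℂ) * (((N.factorial : ℂ) * (2 * Real.pi) ^ N)⁻¹ * I) =
      ((2 * Real.pi : ℂ) ^ N)⁻¹ * I := by
    intro I
    rw [mul_inv]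
    field_simp
  unfold cue
  rw [hcue]
  simp only [map_one, one_mul]
  rw [h1]
  have h2 := sum_V2 (N := N) (fun k : Fin (2 * N) =>
    Complex.exp (2 * Real.pi * Complex.I / (2 * N : ℕ)) ^ (k : ℕ)) (fun _ _ => ((2 * N : ℕ) : ℂ)⁻¹)
  have h3 : ∀ k : Fin N → Fin (2 * N), (V2 (gz (2 * N) k) : ℂ) = (V2 (fun j =>
    Complex.exp (2 * Real.pi * Complex.I / (2 * N : ℕ)) ^ (k j : ℕ)) : ℂ) := fun _ => rfl
  simp only [h3]
  have h4 : ((((2 * N : ℕ) : ℂ) ^ N)⁻¹ * ∑ k : Fin N → Fin (2 * N), (V2 (fun j =>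
    Complex.exp (2 * Real.pi * Complex.I / (2 * N : ℕ)) ^ (k j : ℕ)) : ℂ)) =
      ∑ k : Fin N → Fin (2 * N), (∏ _j : Fin N, ((2 * N : ℕ) : ℂ)⁻¹) * (V2 (fun j =>
    Complex.exp (2 * Real.pi * Complex.I / (2 * N : ℕ)) ^ (k j : ℕ)) : ℂ) := by
    rw [Finset.mul_sum]
    refine Finset.sum_congr rfl fun k _ => ?_
    rw [Finset.prod_const, Finset.card_univ, Fintype.card_fin, inv_pow]
  rw [h4, h2]
  have h5 : ∀ σ : Equiv.Perm (Fin N), ∑ ρ : Equiv.Perm (Fin N), ((Equiv.Perm.sign ρ : ℤ) : ℂ) *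
      ∏ k, ∑ x : Fin (2 * N), ((2 * N : ℕ) : ℂ)⁻¹ *
        ((Complex.exp (2 * Real.pi * Complex.I / (2 * N : ℕ)) ^ (x : ℕ)) ^ (σ k : ℕ) *
        (starRingEnd ℂ) ((Complex.exp (2 * Real.pi * Complex.I / (2 * N : ℕ)) ^ (x : ℕ)) ^
          (σ (ρ k) : ℕ))) = 1 := by
    intro σ
    have hlt : ∀ k : Fin N, (k : ℕ) < 2 * N := fun k => by have := k.2; omega
    have m : ∀ a b : Fin N, ∑ x : Fin (2 * N), ((2 * N : ℕ) : ℂ)⁻¹ *
        ((Complex.exp (2 * Real.pi * Complex.I / (2 * N : ℕ)) ^ (x : ℕ)) ^ (a : ℕ) *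
        (starRingEnd ℂ) ((Complex.exp (2 * Real.pi * Complex.I / (2 * N : ℕ)) ^ (x : ℕ)) ^
          (b : ℕ))) = if a = b then 1 else 0 := by
      intro a b
      rw [← Finset.mul_sum, one_disc hK (hlt a) (hlt b)]
      by_cases hab : a = b
      · rw [if_pos hab, if_pos (by rw [hab]), inv_mul_cancel₀ hKc]
      · rw [if_neg hab, if_neg (fun h => hab (Fin.ext h)), mul_zero]
    simp only [m]
    rw [Finset.sum_eq_single 1]
    · simp
    · intro ρ _ hρ
      have : ∃ k, ρ k ≠ k := by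
        by_contra hc
        push Not at hc
        exact hρ (Equiv.ext hc)
      obtain ⟨k, hk⟩ := this
      rw [Finset.prod_eq_zero (Finset.mem_univ k), mul_zero]
      rw [if_neg]
      intro h
      exact hk (σ.injective h).symm
    · simp
  simp only [h5]
  rw [Finset.sum_const, Finset.card_univ, Fintype.card_perm, Fintype.card_fin, nsmul_eq_mul,
    mul_one]

lemma wr_sum (hN : 0 < N) (hD : N ≤ D) : ∑ x : Fin N → XX (2 * D) D, wr N D x = 1 := by
  have h := id_zero (R := 0) hN (by omega) (amp D) (1 : MvPolynomial (Fin N) ℂ) 1 (by simp) (by simp)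
  rw [cue_one hN] at h
  simp only [map_one, mul_one] at h
  have hNf : (N.factorial : ℂ) ≠ 0 := by exact_mod_cast N.factorial_ne_zero
  have : ((∑ x : Fin N → XX (2 * D) D, wr N D x : ℝ) : ℂ) = 1 := by
    rw [Complex.ofReal_sum]
    simp only [wr_eq (show 0 < D by omega)]
    rw [← Finset.sum_div, h, div_self hNf]
  exact_mod_cast this

lemma law_prob (hN : 0 < N) (hD : N ≤ D) : IsProbabilityMeasure (law N D) := by
  constructor
  unfold law
  rw [Measure.coe_finsetSum, Finset.sum_apply]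
  simp only [Measure.smul_apply, Measure.dirac_apply, Set.mem_univ, Set.indicator_of_mem,
    Pi.one_apply, smul_eq_mul, mul_one]
  rw [← ENNReal.ofReal_sum_of_nonneg fun x _ => wr_nonneg (by omega) x, wr_sum hN hD, ENNReal.ofReal_one]

/-- the moments of the law -/
theorem law_mom (hN : 0 < N) {R : ℕ} (hD : N + R ≤ D) (F G : MvPolynomial (Fin N) ℂ)
    (hF : F.totalDegree ≤ R) (hG : G.totalDegree ≤ R) :
    ∫ z, eval z F * (starRingEnd ℂ) (eval z G) ∂(law N D) =
      cue (fun z => eval z F * (starRingEnd ℂ) (eval z G)) := by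
  rw [law_int (show 0 < D by omega)]
  have h := id_zero hN hD (amp D) F G hF hG
  have hNf : (N.factorial : ℂ) ≠ 0 := by exact_mod_cast N.factorial_ne_zero
  have e : ∀ x : Fin N → XX (2 * D) D, wr N D x • (eval (fun k => ps0 D (x k)) F *
      (starRingEnd ℂ) (eval (fun k => ps0 D (x k)) G)) =
      ((dat D (amp D) 0).Wt (amp D : ℂ) x *
      (eval (fun k => (dat D (amp D) 0).pos (x k)) F *
        (starRingEnd ℂ) (eval (fun k => (dat D (amp D) 0).pos (x k)) G))) / N.factorial := by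
    intro x
    simp only [ps0_eq]
    rw [Complex.real_smul, wr_eq (show 0 < D by omega)]
    ring
  simp only [e]
  rw [← Finset.sum_div, h]
  field_simp

/-! ### the number of double points -/

lemma ct_ne_gr (hD : 0 < D) (l : Fin D) (k : Fin (2 * D)) : ct D l ≠ gr D k := by
  intro h
  have h1 := half_dist hD l k
  rw [h, sub_self, norm_zero] at h1
  norm_num at h1

lemma gr_inj (hD : 0 < D) {k k' : Fin (2 * D)} (h : gr D k = gr D k') : k = k' := by
  unfold gr at h
  exact Fin.ext ((Complex.isPrimitiveRoot_exp (2 * D) (by omega)).pow_inj k.2 k'.2 h)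

lemma ct_inj (hD : 0 < D) {l l' : Fin D} (h : ct D l = ct D l') : l = l' := by
  unfold ct at h
  have h' := mul_left_cancel₀ (Complex.exp_ne_zero _) h
  exact Fin.ext ((Complex.isPrimitiveRoot_exp D (by omega)).pow_inj l.2 l'.2 h')

lemma ps0_par (x : XX (2 * D) D) : ps0 D (par x) = ps0 D x := by
  rcases x with k | q <;> rfl

lemma ps0_same (hD : 0 < D) {x y : XX (2 * D) D} (h : ps0 D x = ps0 D y) :
    x = y ∨ (y = par x ∧ ∃ q, x = Sum.inr q) := by
  rcases x with k | ⟨l, b⟩ <;> rcases y with k' | ⟨l', b'⟩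
  · left
    rw [gr_inj hD (show gr D k = gr D k' from h)]
  · exact absurd (show gr D k = ct D l' from h) (ct_ne_gr hD l' k).symm
  · exact absurd (show ct D l = gr D k' from h) (ct_ne_gr hD l k')
  · have := ct_inj hD (show ct D l = ct D l' from h)
    subst this
    cases b <;> cases b' <;> simp [par]

lemma mult_iff (hD : 0 < D) {x : Fin N → XX (2 * D) D} (hx : Good x) (i : Fin N) :
    (∃ j, j ≠ i ∧ ps0 D (x j) = ps0 D (x i)) ↔ ∃ q, x i = Sum.inr q := by
  constructor
  · rintro ⟨j, hj, h⟩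
    rcases ps0_same hD h.symm with h1 | ⟨_, h2⟩
    · exact absurd (hx.1 h1).symm hj
    · exact h2
  · rintro ⟨q, hq⟩
    obtain ⟨j, hj⟩ := good_par hx hq
    refine ⟨j, ?_, ?_⟩
    · rintro rfl
      rw [hq] at hj
      obtain ⟨l, b⟩ := q
      cases b <;> simp [par] at hj
    · rw [hj, ps0_par]

lemma no_triple (hD : 0 < D) {x : Fin N → XX (2 * D) D} (hx : Good x) {i j k : Fin N}
    (hij : i ≠ j) (hik : i ≠ k) (hjk : j ≠ k) (h1 : ps0 D (x i) = ps0 D (x j))
    (h2 : ps0 D (x i) = ps0 D (x k)) : False := by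
  rcases ps0_same hD h1 with h3 | ⟨h3, _⟩
  · exact hij (hx.1 h3)
  rcases ps0_same hD h2 with h4 | ⟨h4, _⟩
  · exact hik (hx.1 h4)
  exact hjk (hx.1 (h3.trans h4.symm))

open Classical in
/-- the number of the points which are not simple -/
def nonsimple (z : Fin N → ℂ) : ℕ := (univ.filter fun i => ∃ j, j ≠ i ∧ z j = z i).card

lemma nonsimple_eq (hD : 0 < D) {x : Fin N → XX (2 * D) D} (hx : Good x) :
    nonsimple (fun k => ps0 D (x k)) = ∑ l, cnt univ x l := by
  classical
  unfold nonsimple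
  rw [Finset.card_filter]
  unfold cnt
  rw [Finset.sum_comm]
  refine Finset.sum_congr rfl fun i _ => ?_
  have h := mult_iff hD hx i
  by_cases hq : ∃ q, x i = Sum.inr q
  · rw [if_pos (h.2 hq)]
    obtain ⟨⟨l, b⟩, hq⟩ := hq
    rw [hq]
    simp [ee, src]
  · rw [if_neg (fun hh => hq (h.1 hh))]
    rcases hx' : x i with k | q
    · simp [ee, src]
    · exact absurd ⟨q, hx'⟩ hq

lemma pairs_eq {x : Fin N → XX (2 * D) D} (hx : Good x) (l : Fin D) :
    (cnt univ x l : ℂ) = 2 * ∑ i : Fin N, ∑ j ∈ univ.erase i,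
      (if x i = Sum.inr (l, true) then (1 : ℂ) else 0) *
      (if x j = Sum.inr (l, false) then 1 else 0) := by
  classical
  have e1 : ∀ i : Fin N, ∑ j ∈ univ.erase i,
      (if x i = Sum.inr (l, true) then (1 : ℂ) else 0) *
      (if x j = Sum.inr (l, false) then 1 else 0) = ∑ j : Fin N,
      (if x i = Sum.inr (l, true) then (1 : ℂ) else 0) *
      (if x j = Sum.inr (l, false) then 1 else 0) := by
    intro i
    rw [← Finset.add_sum_erase univ _ (Finset.mem_univ i)]
    have : (if x i = Sum.inr (l, true) then (1 : ℂ) else 0) *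
      (if x i = Sum.inr (l, false) then 1 else 0) = 0 := by
      by_cases h : x i = Sum.inr (l, true)
      · rw [h]
        simp
      · rw [if_neg h, zero_mul]
    rw [this, zero_add]
  simp only [e1]
  rw [← Finset.sum_mul_sum]
  have s1 := congrArg (Nat.cast : ℕ → ℂ) (sum_ind hx.1 (Sum.inr (l, true)))
  have s2 := congrArg (Nat.cast : ℕ → ℂ) (sum_ind hx.1 (Sum.inr (l, false)))
  push_cast at s1 s2
  rw [s1, s2, cnt_good hx]
  by_cases h : ∃ k, x k = Sum.inr (l, true)
  · have h' := (hx.2 l).1 h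
    rw [if_pos h, if_pos h, if_pos h']
    norm_num
  · rw [if_neg h, if_neg h]
    norm_num

lemma sq_sum (N : ℕ) : ∑ a : Fin N, ∑ b : Fin N, (((a : ℕ) : ℂ) - ((b : ℕ) : ℂ)) ^ 2 =
    (N : ℂ) ^ 2 * ((N : ℂ) ^ 2 - 1) / 6 := by
  have h1 : ∀ n : ℕ, ∑ a ∈ range n, (a : ℂ) = n * (n - 1) / 2 := by
    intro n
    induction n with
    | zero => simp
    | succ n ih => rw [Finset.sum_range_succ, ih]; push_cast; ring
  have h2 : ∀ n : ℕ, ∑ a ∈ range n, (a : ℂ) ^ 2 = (n - 1) * n * (2 * n - 1) / 6 := by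
    intro n
    induction n with
    | zero => simp
    | succ n ih => rw [Finset.sum_range_succ, ih]; push_cast; ring
  rw [Fin.sum_univ_eq_sum_range (fun a => ∑ b : Fin N, ((a : ℂ) - ((b : ℕ) : ℂ)) ^ 2) N]
  have h3 : ∀ a ∈ range N, ∑ b : Fin N, ((a : ℂ) - ((b : ℕ) : ℂ)) ^ 2 =
      N * (a : ℂ) ^ 2 - 2 * (N * (N - 1) / 2) * a + (N - 1) * N * (2 * N - 1) / 6 := by
    intro a _
    rw [Fin.sum_univ_eq_sum_range (fun b => ((a : ℂ) - (b : ℂ)) ^ 2) N]
    have : ∀ b ∈ range N, ((a : ℂ) - (b : ℂ)) ^ 2 = (a : ℂ) ^ 2 - 2 * a * (b : ℂ) + (b : ℂ) ^ 2 :=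
      fun b _ => by ring
    rw [Finset.sum_congr rfl this, Finset.sum_add_distrib, Finset.sum_sub_distrib,
      ← Finset.mul_sum, h1, h2, Finset.sum_const, Finset.card_range, nsmul_eq_mul]
    ring
  rw [Finset.sum_congr rfl h3, Finset.sum_add_distrib, Finset.sum_sub_distrib,
    ← Finset.mul_sum, ← Finset.mul_sum, h1, h2, Finset.sum_const, Finset.card_range, nsmul_eq_mul]
  ring

/-- **the number of double points** -/
theorem law_count (hN : 0 < N) (hD : N ≤ D) :
    ∫ z, (nonsimple z : ℝ) ∂(law N D) = (N : ℝ) ^ 2 * ((N : ℝ) ^ 2 - 1) / (6 * (D : ℝ) ^ 3) := by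
  classical
  rw [law_int (show 0 < D by omega)]
  have hNf : (N.factorial : ℂ) ≠ 0 := by exact_mod_cast N.factorial_ne_zero
  have hDc : (D : ℂ) ≠ 0 := by exact_mod_cast (show 0 < D by omega).ne'
  have key : ((∑ x : Fin N → XX (2 * D) D,
      wr N D x • (nonsimple (fun k => ps0 D (x k)) : ℝ) : ℝ) : ℂ) =
      (N : ℂ) ^ 2 * ((N : ℂ) ^ 2 - 1) / (6 * (D : ℂ) ^ 3) := by
    rw [Complex.ofReal_sum]
    have e1 : ∀ x : Fin N → XX (2 * D) D,
        ((wr N D x • (nonsimple (fun k => ps0 D (x k)) : ℝ) : ℝ) : ℂ) =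
        ∑ l : Fin D, ∑ i : Fin N, ∑ j ∈ univ.erase i, (2 / (N.factorial : ℂ)) *
          ((if x i = Sum.inr (l, true) then (1 : ℂ) else 0) *
          (if x j = Sum.inr (l, false) then 1 else 0) *
            (dat D (amp D) 0).Wt ((amp D : ℝ) : ℂ) x) := by
      intro x
      by_cases hg : Good x
      · rw [smul_eq_mul, Complex.ofReal_mul, wr_eq (show 0 < D by omega), nonsimple_eq (by omega) hg]
        push_cast
        rw [Finset.mul_sum]
        refine Finset.sum_congr rfl fun l _ => ?_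
        rw [pairs_eq hg, Finset.mul_sum, Finset.mul_sum]
        refine Finset.sum_congr rfl fun i _ => ?_
        rw [Finset.mul_sum, Finset.mul_sum]
        refine Finset.sum_congr rfl fun j _ => ?_
        ring
      · have h0 : (dat D (amp D) 0).Wt ((amp D : ℝ) : ℂ) x = 0 := by
          unfold Data.Wt
          rw [if_neg hg]
        have h1 : wr N D x = 0 := by
          unfold wr
          rw [h0]
          simp
        rw [h0, h1]
        simp
    simp only [e1]
    rw [Finset.sum_comm]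
    have e2 : ∀ l : Fin D, ∑ x : Fin N → XX (2 * D) D, ∑ i : Fin N,
        ∑ j ∈ univ.erase i, (2 / (N.factorial : ℂ)) *
          ((if x i = Sum.inr (l, true) then (1 : ℂ) else 0) *
          (if x j = Sum.inr (l, false) then 1 else 0) *
            (dat D (amp D) 0).Wt ((amp D : ℝ) : ℂ) x) =
        (amp D : ℂ) ^ 2 * ((N : ℂ) ^ 2 * ((N : ℂ) ^ 2 - 1) / 6) := by
      intro l
      rw [Finset.sum_comm]
      have e3 : ∀ i : Fin N, ∑ x : Fin N → XX (2 * D) D,
        ∑ j ∈ univ.erase i, (2 / (N.factorial : ℂ)) *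
          ((if x i = Sum.inr (l, true) then (1 : ℂ) else 0) *
          (if x j = Sum.inr (l, false) then 1 else 0) *
            (dat D (amp D) 0).Wt ((amp D : ℝ) : ℂ) x) =
        ∑ j ∈ univ.erase i, (2 / (N.factorial : ℂ)) * ∑ x : Fin N → XX (2 * D) D,
          ((if x i = Sum.inr (l, true) then (1 : ℂ) else 0) *
          (if x j = Sum.inr (l, false) then 1 else 0) *
            (dat D (amp D) 0).Wt ((amp D : ℝ) : ℂ) x) := by
        intro i
        rw [Finset.sum_comm]
        refine Finset.sum_congr rfl fun j _ => ?_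
        rw [Finset.mul_sum]
      rw [Finset.sum_congr rfl fun i _ => e3 i]
      simp only [← Finset.mul_sum]
      rw [count_zero hN hD, sq_sum]
      field_simp
    simp only [e2]
    rw [Finset.sum_const, Finset.card_univ, Fintype.card_fin, nsmul_eq_mul]
    unfold amp
    push_cast
    field_simp
  have h2 : ((N : ℂ) ^ 2 * ((N : ℂ) ^ 2 - 1) / (6 * (D : ℂ) ^ 3)) =
      (((N : ℝ) ^ 2 * ((N : ℝ) ^ 2 - 1) / (6 * (D : ℝ) ^ 3) : ℝ) : ℂ) := by
    push_cast
    ring
  rw [h2] at key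
  exact_mod_cast key

end

end Pool.Agent.H481.SB
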