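import Pool.Agent.H481.GA2
import Pool.Agent.H481.SB9

/-!
From symmetric polynomials to antisymmetric functions of the exponents.
-/

open Finset MeasureTheory MvPolynomial
open Pool.Agent.R319.UM

namespace Pool.Agent.H481.GA

noncomputable section

variable {N : ℕ}

/-- nonnegative integer exponents as natural exponents -/
def fd (d : Fin N → ℤ) : Fin N →₀ ℕ := Finsupp.equivFunOnFinite.symm fun j => (d j).toNat

lemma fd_apply (d : Fin N → ℤ) (j : Fin N) : fd d j = (d j).toNat := rfl

/-- natural exponents as integer exponents -/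
def zd (e : Fin N →₀ ℕ) : Fin N → ℤ := fun j => (e j : ℤ)

lemma fd_zd (e : Fin N →₀ ℕ) : fd (zd e) = e := by
  ext j
  rw [fd_apply]
  unfold zd
  exact Int.toNat_natCast _

lemma zd_fd {d : Fin N → ℤ} (h : Pos d) : zd (fd d) = d := by
  funext j
  unfold zd
  rw [fd_apply]
  exact Int.toNat_of_nonneg (h j)

lemma zd_inj : Function.Injective (zd : (Fin N →₀ ℕ) → (Fin N → ℤ)) := by
  intro a b hab
  rw [← fd_zd a, ← fd_zd b, hab]

lemma Pos_zd (e : Fin N →₀ ℕ) : Pos (zd e) := fun j => by
  unfold zd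
  positivity

open Classical in
/-- the coefficients of the product with the Vandermonde determinant -/
def kap (F : MvPolynomial (Fin N) ℂ) : (Fin N → ℤ) → ℂ := fun d =>
  if Pos d then coeff (fd d) (F * VP N) else 0

lemma kap_zd (F : MvPolynomial (Fin N) ℂ) (e : Fin N →₀ ℕ) : kap F (zd e) = coeff e (F * VP N) := by
  unfold kap
  rw [if_pos (Pos_zd e), fd_zd]

lemma kap_ne {F : MvPolynomial (Fin N) ℂ} {d : Fin N → ℤ} (h : kap F d ≠ 0) :
    Pos d ∧ coeff (fd d) (F * VP N) ≠ 0 := by
  unfold kap at h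
  split_ifs at h with h2
  · exact ⟨h2, h⟩
  · exact absurd rfl h

lemma NN_kap (F : MvPolynomial (Fin N) ℂ) : NN (kap F) := fun _ h => (kap_ne h).1

lemma FS_kap (F : MvPolynomial (Fin N) ℂ) : FS (kap F) := by
  unfold FS
  refine ((F * VP N).support.finite_toSet.image zd).subset ?_
  intro d hd
  obtain ⟨h1, h2⟩ := kap_ne hd
  exact ⟨fd d, by simpa [MvPolynomial.mem_support_iff] using h2, zd_fd h1⟩

lemma VP_rename {a b : Fin N} (hab : a ≠ b) :
    MvPolynomial.rename (Equiv.swap a b) (VP N) = -VP N := by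
  unfold VP
  rw [AlgHom.map_det]
  have e : (rename (Equiv.swap a b) : MvPolynomial (Fin N) ℂ →ₐ[ℂ] _).mapMatrix
      (Matrix.vandermonde (fun i => (MvPolynomial.X i : MvPolynomial (Fin N) ℂ))) =
      (Matrix.vandermonde (fun i => (MvPolynomial.X i : MvPolynomial (Fin N) ℂ))).submatrix
        (Equiv.swap a b) id := by
    ext i j
    simp [Matrix.vandermonde_apply]
  rw [e, Matrix.det_permute, Equiv.Perm.sign_swap hab]
  simp

lemma AN_kap {F : MvPolynomial (Fin N) ℂ} (hF : F.IsSymmetric) : AN (kap F) := by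
  intro a b hab d
  unfold kap
  by_cases h : Pos d
  · rw [if_pos h, if_pos ((Pos_comp a b d).2 h)]
    have h1 : fd (d ∘ Equiv.swap a b) = (fd d).mapDomain (Equiv.swap a b) := by
      ext i
      have h2 : i = Equiv.swap a b (Equiv.swap a b i) := (Equiv.swap_apply_self a b i).symm
      rw [fd_apply, Function.comp_apply]
      conv_rhs => rw [h2]
      rw [Finsupp.mapDomain_apply (Equiv.injective _), fd_apply]
    have h3 : rename (Equiv.swap a b) (F * VP N) = -(F * VP N) := by
      rw [map_mul, hF, VP_rename hab]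
      ring
    have h4 : F * VP N = -rename (Equiv.swap a b) (F * VP N) := by rw [h3, neg_neg]
    rw [h1, h4, MvPolynomial.coeff_neg, MvPolynomial.coeff_rename_mapDomain _ (Equiv.injective _),
      ← h4]
  · rw [if_neg h, if_neg fun h2 => h ((Pos_comp a b d).1 h2), neg_zero]

lemma VP_hom : (VP N).IsHomogeneous (∑ i : Fin N, (i : ℕ)) := by
  unfold VP
  rw [Matrix.det_apply]
  refine MvPolynomial.IsHomogeneous.sum _ _ _ fun σ _ => ?_
  have h : (∏ i : Fin N, Matrix.vandermonde (fun i => (MvPolynomial.X i : MvPolynomial (Fin N) ℂ))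
      (σ i) i).IsHomogeneous (∑ i : Fin N, (i : ℕ)) := by
    refine MvPolynomial.IsHomogeneous.prod _ _ _ fun i _ => ?_
    rw [Matrix.vandermonde_apply]
    exact MvPolynomial.isHomogeneous_X_pow _ _
  rcases Int.units_eq_one_or (Equiv.Perm.sign σ) with h1 | h1
  · rw [h1, one_smul]
    exact h
  · rw [h1, Units.neg_smul, one_smul]
    exact h.neg

lemma two_sum_fin : 2 * ∑ i : Fin N, (i : ℕ) = N * (N - 1) := by
  rw [Fin.sum_univ_eq_sum_range (fun i => i) N, Finset.sum_range_id]
  exact Nat.mul_div_cancel' (Nat.even_mul_pred_self N).two_dvd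

lemma En_kap_one : En 0 (kap (1 : MvPolynomial (Fin N) ℂ)) := by
  intro d hd
  obtain ⟨h1, h2⟩ := kap_ne hd
  rw [one_mul] at h2
  have h3 := VP_hom h2
  have h4 : (∑ i, fd d i : ℕ) = ∑ i : Fin N, (i : ℕ) := by
    rw [← h3, Finsupp.weight_apply, Finsupp.sum_fintype _ _ (by simp)]
    simp
  have h5 : ((∑ i, fd d i : ℕ) : ℤ) = ∑ i, d i := by
    push_cast
    exact Finset.sum_congr rfl fun i _ => Int.toNat_of_nonneg (h1 i)
  have h6 := two_sum_fin (N := N)
  rcases Nat.eq_zero_or_pos N with h0 | h0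
  · subst h0
    simp
  · have h7 : ((2 * ∑ i : Fin N, (i : ℕ) : ℕ) : ℤ) = ((N * (N - 1) : ℕ) : ℤ) := by rw [h6]
    rw [← h4] at h7
    rw [Nat.cast_mul, h5, Nat.cast_mul, Nat.cast_sub h0] at h7
    push_cast at h7
    linarith

lemma Cl_kap_one : Cl 0 (kap (1 : MvPolynomial (Fin N) ℂ)) :=
  ⟨FS_kap _, NN_kap _, AN_kap (by intro e; simp), En_kap_one⟩

/-- an antisymmetric function on the nonnegative exponents has at least the minimal energy -/
lemma low_zero {A : (Fin N → ℤ) → ℂ} (hN : NN A) (hA : AN A) {x : ℤ} (hx : x < 0) (hE : En x A) :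
    A = fun _ => 0 := by
  funext d
  by_contra h
  have h1 := hN d h
  have h2 := AN_inj hA h
  have h3 := hE d h
  have h4 := TM.sum_ge_range (univ : Finset (Fin N)) (fun j => (d j).toNat) (by
    intro a _ b _ hab
    apply h2
    simp only at hab
    rw [← Int.toNat_of_nonneg (h1 a), ← Int.toNat_of_nonneg (h1 b), hab])
  rw [Finset.card_univ, Fintype.card_fin, Finset.sum_range_id] at h4
  have h5 : ((∑ i, (d i).toNat : ℕ) : ℤ) = ∑ i, d i := by
    push_cast
    exact Finset.sum_congr rfl fun i _ => Int.toNat_of_nonneg (h1 i)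
  have h6 : 2 * (N * (N - 1) / 2) = N * (N - 1) :=
    Nat.mul_div_cancel' (Nat.even_mul_pred_self N).two_dvd
  have h7 : N * (N - 1) ≤ 2 * ∑ i, (d i).toNat := by omega
  have h8 : ((N * (N - 1) : ℕ) : ℤ) ≤ 2 * ∑ i, d i := by
    rw [← h5]
    exact_mod_cast h7
  rcases Nat.eq_zero_or_pos N with h0 | h0
  · subst h0
    simp at h3
    omega
  · rw [Nat.cast_mul, Nat.cast_sub h0] at h8
    push_cast at h8
    linarith

lemma Lp_kap_one {m : ℕ} (hm : 1 ≤ m) : Lp (m : ℤ) (kap (1 : MvPolynomial (Fin N) ℂ)) = fun _ => 0 := by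
  have h := Cl_kap_one (N := N)
  exact low_zero (NN_Lp _ _) (AN_Lp _ h.an) (x := 0 - m) (by omega) (En_Lp _ h.en)

/-! ### products -/

lemma kap_C (c : ℂ) (F : MvPolynomial (Fin N) ℂ) : kap (C c * F) = fun d => c * kap F d := by
  funext d
  unfold kap
  split_ifs
  · rw [mul_assoc, coeff_C_mul]
  · rw [mul_zero]

lemma kap_sum {ι : Type*} (s : Finset ι) (F : ι → MvPolynomial (Fin N) ℂ) :
    kap (∑ i ∈ s, F i) = fun d => ∑ i ∈ s, kap (F i) d := by
  funext d
  unfold kap
  split_ifs
  · rw [Finset.sum_mul, coeff_sum]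
  · rw [Finset.sum_const_zero]

lemma kap_psum (n : ℕ) (F : MvPolynomial (Fin N) ℂ) :
    kap (psum (Fin N) ℂ n * F) = Tm (n : ℤ) (kap F) := by
  funext d
  have e : kap (psum (Fin N) ℂ n * F) d = ∑ j, kap (X j ^ n * F) d := by
    unfold psum
    rw [Finset.sum_mul, kap_sum]
  rw [e]
  unfold Tm
  refine Finset.sum_congr rfl fun j _ => ?_
  by_cases hp : Pos d
  · unfold kap
    rw [if_pos hp]
    have e2 : (X j ^ n * F) * VP N = monomial (Finsupp.single j n) (1 : ℂ) * (F * VP N) := by
      rw [mul_assoc, X_pow_eq_monomial]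
    rw [e2, MvPolynomial.coeff_monomial_mul']
    by_cases h : (n : ℤ) ≤ d j
    · have h2 : Finsupp.single j n ≤ fd d := by
        rw [Finsupp.single_le_iff, fd_apply]
        omega
      rw [if_pos h2, if_pos ((Pos_sub hp j (by positivity)).2 h), one_mul]
      congr 1
      ext i
      rw [Finsupp.tsub_apply, fd_apply, fd_apply]
      unfold un
      rw [Pi.sub_apply]
      by_cases hij : i = j
      · subst hij
        rw [Pi.single_eq_same, Finsupp.single_eq_same]
        omega
      · rw [Pi.single_eq_of_ne hij, Finsupp.single_eq_of_ne hij]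
        simp
    · have h2 : ¬ Finsupp.single j n ≤ fd d := by
        rw [Finsupp.single_le_iff, fd_apply]
        have := hp j
        omega
      rw [if_neg h2, if_neg fun h3 => h ((Pos_sub hp j (by positivity)).1 h3)]
  · have h1 : kap (X j ^ n * F) d = 0 := by
      unfold kap
      exact if_neg hp
    have h2 : kap F (d - un j (n : ℤ)) = 0 := by
      unfold kap
      refine if_neg fun h => hp fun i => ?_
      have h3 := h i
      unfold un at h3
      rw [Pi.sub_apply] at h3
      by_cases hij : i = j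
      · subst hij
        rw [Pi.single_eq_same] at h3
        omega
      · rw [Pi.single_eq_of_ne hij] at h3
        omega
    rw [h1, h2]

/-! ### the mean over the unitary group -/

theorem cue_ip (F G : MvPolynomial (Fin N) ℂ) :
    cue (fun z => eval z F * (starRingEnd ℂ) (eval z G)) =
      ((N.factorial : ℂ))⁻¹ * ip (kap F) (kap G) := by
  classical
  have hpi : ((2 * Real.pi : ℂ) ^ N) ≠ 0 := by
    apply pow_ne_zero
    have := Real.pi_pos
    exact_mod_cast (by positivity : (2 * Real.pi) ≠ 0)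
  set P := F * VP N with hP
  set Q := G * VP N with hQ
  have e0 : ∀ z : Fin N → ℂ, eval z F * (starRingEnd ℂ) (eval z G) * (V2 z : ℂ) =
      ∑ d ∈ P.support, ∑ e ∈ Q.support, P.coeff d * (starRingEnd ℂ) (Q.coeff e) * mon d e z := by
    intro z
    rw [← expand, ← VP_eval, hP, hQ, map_mul, map_mul, map_mul]
    ring
  have e1 : ∫ θ in box N, ∑ d ∈ P.support, ∑ e ∈ Q.support,
      P.coeff d * (starRingEnd ℂ) (Q.coeff e) * mon d e (ez θ) =
      ∑ d ∈ P.support, ∑ e ∈ Q.support,
      P.coeff d * (starRingEnd ℂ) (Q.coeff e) * ∫ θ in box N, mon d e (ez θ) := by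
    rw [integral_finsetSum]
    · refine Finset.sum_congr rfl fun d _ => ?_
      rw [integral_finsetSum]
      · refine Finset.sum_congr rfl fun e _ => ?_
        rw [integral_const_mul]
      · intro e _
        exact (int_box (mon_cont _ _)).const_mul _
    · intro d _
      refine integrable_finsetSum _ fun e _ => ?_
      exact (int_box (mon_cont _ _)).const_mul _
  have e2 : ∀ d ∈ P.support, ∑ e ∈ Q.support,
      P.coeff d * (starRingEnd ℂ) (Q.coeff e) * ∫ θ in box N, mon d e (ez θ) =
      (2 * Real.pi : ℂ) ^ N * (P.coeff d * (starRingEnd ℂ) (Q.coeff d)) := by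
    intro d _
    have h1 : ∀ e ∈ Q.support, P.coeff d * (starRingEnd ℂ) (Q.coeff e) *
        ∫ θ in box N, mon d e (ez θ) =
        if e = d then (2 * Real.pi : ℂ) ^ N * (P.coeff d * (starRingEnd ℂ) (Q.coeff d)) else 0 := by
      intro e _
      rw [mon_int]
      by_cases h : e = d
      · subst h
        rw [if_pos rfl, if_pos rfl]
        ring
      · rw [if_neg h, if_neg fun h2 => h (DFunLike.coe_injective h2).symm, mul_zero]
    rw [Finset.sum_congr rfl h1, Finset.sum_ite_eq']
    split_ifs with h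
    · rfl
    · rw [MvPolynomial.notMem_support_iff.1 h]
      simp
  have e3 : ip (kap F) (kap G) = ∑ d ∈ P.support, P.coeff d * (starRingEnd ℂ) (Q.coeff d) := by
    unfold ip
    rw [← zd_inj.tsum_eq (f := fun d => kap F d * (starRingEnd ℂ) (kap G d))]
    · simp only [kap_zd]
      rw [tsum_eq_sum (s := P.support)]
      intro d hd
      rw [← hP, MvPolynomial.notMem_support_iff.1 hd, zero_mul]
    · intro d hd
      rw [Function.mem_support] at hd
      exact ⟨fd d, zd_fd (kap_ne (left_ne_zero_of_mul hd)).1⟩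
  unfold cue
  simp only [e0]
  rw [e1, Finset.sum_congr rfl e2, ← Finset.mul_sum, e3, mul_inv]
  field_simp

end

end Pool.Agent.H481.GA
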