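import Pool.Agent.H481.GA3

/-!
Products of polynomials in linear forms of the power sums: independence up to the degree `N`.
-/

open Finset MeasureTheory MvPolynomial
open Pool.Agent.R319.UM

namespace Pool.Agent.H481.GA

noncomputable section

variable {N : ℕ}

/-- a polynomial in the multiplication operator -/
def HQ (S : Finset ℕ) (q : ℕ → ℂ) (L : ℕ) (h : ℕ → ℂ) (A : (Fin N → ℤ) → ℂ) : (Fin N → ℤ) → ℂ :=
  fun d => ∑ i ∈ range L, h i * TP S q i A d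

/-- its square mean -/
def VQ (S : Finset ℕ) (q : ℕ → ℂ) (L : ℕ) (h : ℕ → ℂ) : ℝ :=
  ∑ i ∈ range L, ‖h i‖ ^ 2 * ((i.factorial : ℝ) * WQ S q ^ i)

lemma Cl_HQ {x : ℤ} {D : ℕ} {S : Finset ℕ} (hS : ∀ n ∈ S, n ≤ D) (q : ℕ → ℂ) (L : ℕ) (h : ℕ → ℂ)
    {A : (Fin N → ℤ) → ℂ} (hA : Cl x A) : Cl (x + L * D) (HQ S q L h A) := by
  refine Cl_sum _ h fun i hi => Cl_mono ?_ (Cl_TP hS q hA i)
  have h1 : (i : ℤ) ≤ L := by
    have := Finset.mem_range.1 hi
    omega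
  have h2 : (0 : ℤ) ≤ (D : ℤ) := by positivity
  nlinarith

lemma Lp_HQ {x : ℤ} {D : ℕ} {S : Finset ℕ} (hS : ∀ n ∈ S, 1 ≤ n ∧ n ≤ D) (q : ℕ → ℂ) (L : ℕ)
    (h : ℕ → ℂ) {A : (Fin N → ℤ) → ℂ} (hA : Cl x A) {m : ℕ} (hm : m ∉ S)
    (h0 : Lp (m : ℤ) A = fun _ => 0) (hx : x + L * D ≤ N) :
    Lp (m : ℤ) (HQ S q L h A) = fun _ => 0 := by
  funext d
  unfold HQ
  rw [Lp_sum]
  refine Finset.sum_eq_zero fun i hi => ?_
  have h1 : (i : ℤ) ≤ L := by
    have := Finset.mem_range.1 hi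
    omega
  have h2 : (0 : ℤ) ≤ (D : ℤ) := by positivity
  rw [Lp_TP hS q hA hm h0 i (by nlinarith), mul_zero]

lemma ip_HQ {x : ℤ} {D : ℕ} {S : Finset ℕ} (hS : ∀ n ∈ S, 1 ≤ n ∧ n ≤ D) (q : ℕ → ℂ) (L : ℕ)
    (h : ℕ → ℂ) {A : (Fin N → ℤ) → ℂ} (hA : Cl x A) (h0 : LQ S q A = fun _ => 0)
    (hx : x + L * D ≤ N) :
    ip (HQ S q L h A) (HQ S q L h A) = (VQ S q L h : ℂ) * ip A A := by
  have hfs : ∀ i ∈ range L, FS (fun d => h i * TP S q i A d) := fun i _ =>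
    FS_smul (Cl_TP (fun n hn => (hS n hn).2) q hA i).fs _
  have h1 : ip (HQ S q L h A) (HQ S q L h A) = ∑ i ∈ range L, ∑ j ∈ range L,
      ip (fun d => h i * TP S q i A d) (fun d => h j * TP S q j A d) := by
    have e1 : ip (HQ S q L h A) (HQ S q L h A) =
        ∑ i ∈ range L, ip (fun d => h i * TP S q i A d) (HQ S q L h A) :=
      ip_sum_left (range L) (fun i d => h i * TP S q i A d) hfs _
    rw [e1]
    refine Finset.sum_congr rfl fun i _ => ?_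
    exact ip_sum_right (range L) (fun j d => h j * TP S q j A d) hfs _
  have hb : ∀ i ∈ range L, x + i * D ≤ N := by
    intro i hi
    have h1 : (i : ℤ) ≤ L := by
      have := Finset.mem_range.1 hi
      omega
    have h2 : (0 : ℤ) ≤ (D : ℤ) := by positivity
    nlinarith
  rw [h1]
  unfold VQ
  push_cast
  rw [Finset.sum_mul]
  refine Finset.sum_congr rfl fun i hi => ?_
  have h2 : ∀ j ∈ range L, ip (fun d => h i * TP S q i A d) (fun d => h j * TP S q j A d) =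
      if j = i then (‖h i‖ : ℂ) ^ 2 * ((i.factorial : ℂ) * (WQ S q : ℂ) ^ i) * ip A A else 0 := by
    intro j hj
    rw [ip_smul_left, ip_smul_right, ip_TP hS q hA h0 i j (hb i hi) (hb j hj)]
    by_cases hij : j = i
    · subst hij
      rw [if_pos rfl, if_pos rfl]
      have : h j * (starRingEnd ℂ) (h j) = (‖h j‖ : ℂ) ^ 2 := by
        rw [Complex.mul_conj, Complex.normSq_eq_norm_sq]
        push_cast
        rfl
      rw [← this]
      ring
    · rw [if_neg hij, if_neg (Ne.symm hij)]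
      ring
  rw [Finset.sum_congr rfl h2, Finset.sum_ite_eq', if_pos hi]

/-! ### polynomials -/

/-- linear forms of the power sums -/
def Lf (S : Finset ℕ) (q : ℕ → ℂ) : MvPolynomial (Fin N) ℂ := ∑ n ∈ S, C (q n) * psum (Fin N) ℂ n

lemma kap_Lf (S : Finset ℕ) (q : ℕ → ℂ) (F : MvPolynomial (Fin N) ℂ) :
    kap (Lf S q * F) = TQ S q (kap F) := by
  funext d
  unfold Lf TQ
  rw [Finset.sum_mul, kap_sum]
  refine Finset.sum_congr rfl fun n _ => ?_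
  rw [mul_assoc, kap_C, kap_psum]

lemma kap_Lf_pow (S : Finset ℕ) (q : ℕ → ℂ) (i : ℕ) (F : MvPolynomial (Fin N) ℂ) :
    kap (Lf S q ^ i * F) = TP S q i (kap F) := by
  induction i with
  | zero => rw [pow_zero, one_mul, TP_zero]
  | succ i ih => rw [pow_succ', mul_assoc, kap_Lf, ih, TP_succ]

/-- a polynomial in a linear form -/
def Hf (S : Finset ℕ) (q : ℕ → ℂ) (L : ℕ) (h : ℕ → ℂ) : MvPolynomial (Fin N) ℂ :=
  ∑ i ∈ range L, C (h i) * Lf S q ^ i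

lemma kap_Hf (S : Finset ℕ) (q : ℕ → ℂ) (L : ℕ) (h : ℕ → ℂ) (F : MvPolynomial (Fin N) ℂ) :
    kap (Hf S q L h * F) = HQ S q L h (kap F) := by
  funext d
  unfold Hf HQ
  rw [Finset.sum_mul, kap_sum]
  refine Finset.sum_congr rfl fun n _ => ?_
  rw [mul_assoc, kap_C, kap_Lf_pow]

lemma Lf_deg {S : Finset ℕ} {D : ℕ} (hS : ∀ n ∈ S, n ≤ D) (q : ℕ → ℂ) :
    (Lf S q : MvPolynomial (Fin N) ℂ).totalDegree ≤ D := by
  unfold Lf
  refine MvPolynomial.totalDegree_finsetSum_le fun n hn => ?_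
  refine (MvPolynomial.totalDegree_mul _ _).trans ?_
  rw [MvPolynomial.totalDegree_C, zero_add]
  exact (psum_hom n).totalDegree_le.trans (hS n hn)

lemma Hf_deg {S : Finset ℕ} {D : ℕ} (hS : ∀ n ∈ S, n ≤ D) (q : ℕ → ℂ) (L : ℕ) (h : ℕ → ℂ) :
    (Hf S q L h : MvPolynomial (Fin N) ℂ).totalDegree ≤ L * D := by
  unfold Hf
  refine MvPolynomial.totalDegree_finsetSum_le fun i hi => ?_
  refine (MvPolynomial.totalDegree_mul _ _).trans ?_
  rw [MvPolynomial.totalDegree_C, zero_add]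
  refine (MvPolynomial.totalDegree_pow _ _).trans ?_
  exact Nat.mul_le_mul (Finset.mem_range.1 hi).le (Lf_deg hS q)

lemma eval_Lf (z : Fin N → ℂ) (S : Finset ℕ) (q : ℕ → ℂ) :
    eval z (Lf S q : MvPolynomial (Fin N) ℂ) = ∑ n ∈ S, q n * ∑ j, z j ^ n := by
  unfold Lf
  rw [map_sum]
  refine Finset.sum_congr rfl fun n _ => ?_
  rw [map_mul, eval_C, eval_psum]

lemma eval_Hf (z : Fin N → ℂ) (S : Finset ℕ) (q : ℕ → ℂ) (L : ℕ) (h : ℕ → ℂ) :
    eval z (Hf S q L h : MvPolynomial (Fin N) ℂ) =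
      ∑ i ∈ range L, h i * (eval z (Lf S q : MvPolynomial (Fin N) ℂ)) ^ i := by
  unfold Hf
  rw [map_sum]
  refine Finset.sum_congr rfl fun n _ => ?_
  rw [map_mul, eval_C, map_pow]

/-! ### products over dyadic blocks -/

/-- the dyadic block -/
def blk (a : ℕ) : Finset ℕ := Finset.Ico (2 ^ a) (2 ^ (a + 1))

lemma blk_mem {a n : ℕ} (h : n ∈ blk a) : 1 ≤ n ∧ n ≤ 2 ^ (a + 1) := by
  unfold blk at h
  rw [Finset.mem_Ico] at h
  exact ⟨(Nat.one_le_two_pow).trans h.1, h.2.le⟩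

/-- the product over the first blocks -/
def Fp (q : ℕ → ℕ → ℂ) (L : ℕ → ℕ) (h : ℕ → ℕ → ℂ) : ℕ → MvPolynomial (Fin N) ℂ
  | 0 => 1
  | c + 1 => Hf (blk c) (q c) (L c) (h c) * Fp q L h c

/-- the degree -/
def xd (L : ℕ → ℕ) (c : ℕ) : ℕ := ∑ a ∈ range c, L a * 2 ^ (a + 1)

lemma Fp_deg (q : ℕ → ℕ → ℂ) (L : ℕ → ℕ) (h : ℕ → ℕ → ℂ) (c : ℕ) :
    (Fp q L h c : MvPolynomial (Fin N) ℂ).totalDegree ≤ xd L c := by
  induction c with
  | zero => simp [Fp]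
  | succ c ih =>
    unfold Fp xd
    rw [Finset.sum_range_succ, add_comm]
    exact (MvPolynomial.totalDegree_mul _ _).trans
      (add_le_add (Hf_deg (fun n hn => (blk_mem hn).2) _ _ _) ih)

lemma Fp_eval (z : Fin N → ℂ) (q : ℕ → ℕ → ℂ) (L : ℕ → ℕ) (h : ℕ → ℕ → ℂ) (c : ℕ) :
    eval z (Fp q L h c) = ∏ a ∈ range c, eval z (Hf (blk a) (q a) (L a) (h a)) := by
  induction c with
  | zero => simp [Fp]
  | succ c ih => rw [Fp, map_mul, ih, Finset.prod_range_succ, mul_comm]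

lemma LQ_zero {S : Finset ℕ} (q : ℕ → ℂ) {A : (Fin N → ℤ) → ℂ}
    (h : ∀ m ∈ S, Lp (m : ℤ) A = fun _ => 0) : LQ S q A = fun _ => 0 := by
  funext d
  unfold LQ
  refine Finset.sum_eq_zero fun m hm => ?_
  rw [h m hm, mul_zero]

theorem Fp_main (q : ℕ → ℕ → ℂ) (L : ℕ → ℕ) (h : ℕ → ℕ → ℂ) (c : ℕ) (hc : xd L c ≤ N) :
    Cl (xd L c : ℤ) (kap (Fp q L h c : MvPolynomial (Fin N) ℂ)) ∧
    (∀ m : ℕ, 2 ^ c ≤ m → Lp (m : ℤ) (kap (Fp q L h c : MvPolynomial (Fin N) ℂ)) = fun _ => 0) ∧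
    ip (kap (Fp q L h c : MvPolynomial (Fin N) ℂ)) (kap (Fp q L h c)) =
      ((∏ a ∈ range c, VQ (blk a) (q a) (L a) (h a) : ℝ) : ℂ) *
        ip (kap (1 : MvPolynomial (Fin N) ℂ)) (kap 1) := by
  induction c with
  | zero =>
    refine ⟨?_, ?_, ?_⟩
    · simpa [Fp, xd] using Cl_kap_one (N := N)
    · intro m hm
      exact Lp_kap_one (by simpa using hm)
    · simp [Fp]
  | succ c ih =>
    have hx : xd L (c + 1) = xd L c + L c * 2 ^ (c + 1) := by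
      unfold xd
      rw [Finset.sum_range_succ]
    obtain ⟨h1, h2, h3⟩ := ih (by omega)
    have hxz : (xd L c : ℤ) + (L c : ℤ) * ((2 ^ (c + 1) : ℕ) : ℤ) ≤ N := by
      have : ((xd L (c + 1) : ℕ) : ℤ) ≤ N := by exact_mod_cast hc
      rw [hx] at this
      push_cast at this ⊢
      exact this
    have hlq : LQ (blk c) (q c) (kap (Fp q L h c : MvPolynomial (Fin N) ℂ)) = fun _ => 0 := by
      refine LQ_zero _ fun m hm => h2 m ?_
      unfold blk at hm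
      exact (Finset.mem_Ico.1 hm).1
    unfold Fp
    rw [kap_Hf]
    refine ⟨?_, ?_, ?_⟩
    · refine Cl_mono ?_ (Cl_HQ (D := 2 ^ (c + 1)) (fun n hn => (blk_mem hn).2) (q c) (L c) (h c) h1)
      rw [hx]
      push_cast
      exact le_refl _
    · intro m hm
      refine Lp_HQ (D := 2 ^ (c + 1)) (fun n hn => blk_mem hn) (q c) (L c) (h c) h1 ?_
        (h2 m ?_) hxz
      · unfold blk
        rw [Finset.mem_Ico]
        omega
      · have : 2 ^ c ≤ 2 ^ (c + 1) := Nat.pow_le_pow_right (by norm_num) (Nat.le_succ c)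
        omega
    · rw [ip_HQ (D := 2 ^ (c + 1)) (fun n hn => blk_mem hn) (q c) (L c) (h c) h1 hlq hxz, h3,
        Finset.prod_range_succ]
      push_cast
      ring

/-- normalisation -/
lemma ip_one (hN : 0 < N) : ((N.factorial : ℂ))⁻¹ * ip (kap (1 : MvPolynomial (Fin N) ℂ)) (kap 1) = 1 := by
  have h1 := cue_ip (N := N) 1 1
  have h2 := SB.cue_one hN
  have hNf : (N.factorial : ℂ) ≠ 0 := by exact_mod_cast N.factorial_ne_zero
  rw [h1] at h2
  have h3 : (N.factorial : ℂ) * (((N.factorial : ℂ))⁻¹ *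
    ip (kap (1 : MvPolynomial (Fin N) ℂ)) (kap 1)) = (N.factorial : ℂ) * 1 := by rw [mul_one]; exact h2
  exact mul_left_cancel₀ hNf h3

/-- the mean square of the product -/
theorem cue_Fp (hN : 0 < N) (q : ℕ → ℕ → ℂ) (L : ℕ → ℕ) (h : ℕ → ℕ → ℂ) (c : ℕ)
    (hc : xd L c ≤ N) :
    cue (N := N) (fun z => eval z (Fp q L h c) * (starRingEnd ℂ) (eval z (Fp q L h c))) =
      ((∏ a ∈ range c, VQ (blk a) (q a) (L a) (h a) : ℝ) : ℂ) := by
  obtain ⟨_, _, h3⟩ := Fp_main (N := N) q L h c hc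
  rw [cue_ip, h3, mul_left_comm, ip_one hN, mul_one]

/-- the mean square of the product with a power of a further linear form -/
theorem cue_Fp_pow (hN : 0 < N) (q : ℕ → ℕ → ℂ) (L : ℕ → ℕ) (h : ℕ → ℕ → ℂ) (c : ℕ)
    (r : ℕ → ℂ) (m : ℕ) (hc : xd L c + m * 2 ^ (c + 1) ≤ N) :
    cue (N := N) (fun z => eval z (Lf (blk c) r ^ m * Fp q L h c) *
      (starRingEnd ℂ) (eval z (Lf (blk c) r ^ m * Fp q L h c))) =
      (((m.factorial : ℝ) * WQ (blk c) r ^ m *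
        ∏ a ∈ range c, VQ (blk a) (q a) (L a) (h a) : ℝ) : ℂ) := by
  obtain ⟨h1, h2, h3⟩ := Fp_main (N := N) q L h c (by omega)
  have hlq : LQ (blk c) r (kap (Fp q L h c : MvPolynomial (Fin N) ℂ)) = fun _ => 0 := by
    refine LQ_zero _ fun m hm => h2 m ?_
    unfold blk at hm
    exact (Finset.mem_Ico.1 hm).1
  have hxz : (xd L c : ℤ) + (m : ℤ) * ((2 ^ (c + 1) : ℕ) : ℤ) ≤ N := by exact_mod_cast hc
  rw [cue_ip, kap_Lf_pow, ip_TP (D := 2 ^ (c + 1)) (fun n hn => blk_mem hn) r h1 hlq m m hxz hxz,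
    if_pos rfl, h3]
  have h4 := ip_one hN
  push_cast
  linear_combination ((m.factorial : ℂ) * (WQ (blk c) r : ℂ) ^ m *
    ∏ a ∈ range c, (VQ (blk a) (q a) (L a) (h a) : ℂ)) * h4

end

end Pool.Agent.H481.GA
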