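import Pool.Agent.H481.MO0


/-! Project MO (helper481), S1: the majorant. -/

open Finset

namespace Pool.Agent.H481.MO

namespace MajL

/-- summation by parts, twice -/
lemma abel2 (C a : ℕ → ℝ) (c : ℝ) (ha0 : a 0 = 1) (ha1 : a 1 = c)
    (hrec : ∀ n, a (n + 2) = 2 * c * a (n + 1) - a n) (N : ℕ) :
    (2 - 2 * c) * (C 0 / 2 + ∑ n ∈ Finset.range N, C (n + 1) * a (n + 1)) =
      ∑ n ∈ Finset.range N, (C n - 2 * C (n + 1) + C (n + 2)) * (1 - a (n + 1)) +
        C N * (1 - a (N + 1)) - C (N + 1) * (1 - a N) := by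
  induction N with
  | zero =>
    simp only [Finset.range_zero, Finset.sum_empty]
    rw [ha0, ha1]
    ring
  | succ N ih =>
    rw [Finset.sum_range_succ, Finset.sum_range_succ]
    have h1 := hrec N
    have h2 : (2 - 2 * c) * (C 0 / 2 + (∑ n ∈ Finset.range N, C (n + 1) * a (n + 1) +
        C (N + 1) * a (N + 1))) =
        (2 - 2 * c) * (C 0 / 2 + ∑ n ∈ Finset.range N, C (n + 1) * a (n + 1)) +
          (2 - 2 * c) * (C (N + 1) * a (N + 1)) := by ring
    rw [h2, ih, show N + 1 + 1 = N + 2 by ring, h1]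
    ring

lemma fejer (C a : ℕ → ℝ) (c : ℝ) (ha0 : a 0 = 1) (ha1 : a 1 = c)
    (hrec : ∀ n, a (n + 2) = 2 * c * a (n + 1) - a n) (hle : ∀ n, a n ≤ 1) (hge : ∀ n, -1 ≤ a n)
    (hC : ∀ n, 0 ≤ C n) (hD : ∀ n, 0 ≤ C n - 2 * C (n + 1) + C (n + 2)) (N : ℕ) :
    -2 * C (N + 1) ≤
      (2 - 2 * c) * (C 0 / 2 + ∑ n ∈ Finset.range N, C (n + 1) * a (n + 1)) := by
  rw [abel2 C a c ha0 ha1 hrec N]
  have h1 : 0 ≤ ∑ n ∈ Finset.range N, (C n - 2 * C (n + 1) + C (n + 2)) * (1 - a (n + 1)) :=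
    Finset.sum_nonneg fun n _ => mul_nonneg (hD n) (by linarith [hle (n + 1)])
  have h2 : 0 ≤ C N * (1 - a (N + 1)) := mul_nonneg (hC N) (by linarith [hle (N + 1)])
  have h3 : C (N + 1) * (1 - a N) ≤ C (N + 1) * 2 :=
    mul_le_mul_of_nonneg_left (by linarith [hge N]) (hC (N + 1))
  linarith

/-- the convex sequence -/
noncomputable def cc (X n : ℕ) : ℝ := if n ≤ X then 2 / X - n / X ^ 2 else 1 / n

lemma cc_of_le {X n : ℕ} (h : n ≤ X) : cc X n = 2 / X - n / X ^ 2 := by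
  unfold cc
  rw [if_pos h]

lemma cc_of_ge {X n : ℕ} (hX : 1 ≤ X) (h : X ≤ n) : cc X n = 1 / n := by
  unfold cc
  split_ifs with h1
  · have h2 : n = X := le_antisymm h1 h
    have h3 : (X : ℝ) ≠ 0 := by
      have : (1 : ℝ) ≤ X := by exact_mod_cast hX
      linarith
    rw [h2]
    field_simp
    ring
  · rfl

lemma cc_anti {X : ℕ} (hX : 1 ≤ X) (n : ℕ) : cc X (n + 1) ≤ cc X n := by
  have hX0 : (0 : ℝ) < X := by exact_mod_cast hX
  rcases Nat.lt_or_ge n X with h | h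
  · rw [cc_of_le (by omega : n + 1 ≤ X), cc_of_le h.le]
    push_cast
    have h1 : (n : ℝ) / (X : ℝ) ^ 2 ≤ ((n : ℝ) + 1) / (X : ℝ) ^ 2 :=
      div_le_div_of_nonneg_right (by linarith) (by positivity)
    linarith
  · rw [cc_of_ge hX (by omega : X ≤ n + 1), cc_of_ge hX h]
    have hn0 : (0 : ℝ) < n := by
      have : 1 ≤ n := by omega
      exact_mod_cast this
    push_cast
    exact one_div_le_one_div_of_le hn0 (by linarith)

lemma cc_nonneg {X : ℕ} (n : ℕ) : 0 ≤ cc X n := by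
  unfold cc
  split_ifs with h
  · rcases Nat.eq_zero_or_pos X with h0 | h0
    · subst h0
      simp
    · have hX0 : (0 : ℝ) < X := by exact_mod_cast h0
      have h1 : (n : ℝ) ≤ X := by exact_mod_cast h
      have h2 : (n : ℝ) / (X : ℝ) ^ 2 ≤ X / (X : ℝ) ^ 2 :=
        div_le_div_of_nonneg_right h1 (by positivity)
      have h3 : (X : ℝ) / (X : ℝ) ^ 2 = 1 / X := by field_simp
      have h4 : (2 : ℝ) / X = 1 / X + 1 / X := by ring
      have h5 : 0 < 1 / (X : ℝ) := by positivity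
      rw [h3] at h2
      linarith
  · positivity

lemma cc_conv {X : ℕ} (hX : 1 ≤ X) (n : ℕ) : 0 ≤ cc X n - 2 * cc X (n + 1) + cc X (n + 2) := by
  have hX0 : (0 : ℝ) < X := by exact_mod_cast hX
  rcases Nat.lt_or_ge n X with h | h
  · rcases Nat.lt_or_ge (n + 1) X with h' | h'
    · rw [cc_of_le h.le, cc_of_le h'.le, cc_of_le (by omega : n + 2 ≤ X)]
      push_cast
      have : (2 : ℝ) / X - n / X ^ 2 - 2 * (2 / X - (n + 1) / X ^ 2) + (2 / X - (n + 2) / X ^ 2) = 0 := by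
        ring
      rw [this]
    · have hn : n + 1 = X := by omega
      rw [cc_of_le h.le, cc_of_ge hX h', cc_of_ge hX (by omega : X ≤ n + 2)]
      have e1 : (n : ℝ) = X - 1 := by
        rw [← hn]
        push_cast
        ring
      have e2 : ((n + 1 : ℕ) : ℝ) = X := by rw [hn]
      have e3 : ((n + 2 : ℕ) : ℝ) = X + 1 := by
        push_cast
        rw [e1]
        ring
      rw [e2, e3, e1]
      have h4 : (2 : ℝ) / X - (X - 1) / X ^ 2 - 2 * (1 / X) + 1 / (X + 1) = 1 / (X ^ 2 * (X + 1)) := by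
        field_simp
        ring
      rw [h4]
      positivity
  · rw [cc_of_ge hX h, cc_of_ge hX (by omega : X ≤ n + 1), cc_of_ge hX (by omega : X ≤ n + 2)]
    have hn0 : (0 : ℝ) < n := by
      have : 1 ≤ n := by omega
      exact_mod_cast this
    push_cast
    have h4 : (1 : ℝ) / n - 2 * (1 / (n + 1)) + 1 / (n + 2) = 2 / (n * (n + 1) * (n + 2)) := by
      field_simp
      ring
    rw [h4]
    positivity

lemma cc_zero (X : ℕ) : cc X 0 = 2 / X := by
  rw [cc_of_le (Nat.zero_le X)]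
  simp

/-- `(1 - (1 - n/X)^2)/n = c_n` -/
lemma cc_id {X n : ℕ} (hX : 1 ≤ X) (hn : 1 ≤ n) :
    1 / (n : ℝ) - cc X n = if n < X then (1 - (n : ℝ) / X) ^ 2 / n else 0 := by
  have hX0 : (0 : ℝ) < X := by exact_mod_cast hX
  have hn0 : (0 : ℝ) < n := by exact_mod_cast hn
  split_ifs with h
  · rw [cc_of_le h.le]
    field_simp
    ring
  · rw [cc_of_ge hX (by omega)]
    ring

lemma rec_u {u : ℂ} (hu : ‖u‖ = 1) (n : ℕ) :
    (u ^ (n + 2)).re = 2 * u.re * (u ^ (n + 1)).re - (u ^ n).re := by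
  have h1 : u * (starRingEnd ℂ) u = 1 := by
    rw [Complex.mul_conj, Complex.normSq_eq_norm_sq, hu]
    norm_num
  have h2 : u + (starRingEnd ℂ) u = ((2 * u.re : ℝ) : ℂ) := by
    rw [Complex.add_conj]
  have h3 : u ^ (n + 2) + u ^ n = ((2 * u.re : ℝ) : ℂ) * u ^ (n + 1) := by
    rw [← h2]
    calc u ^ (n + 2) + u ^ n = u ^ (n + 2) + (u * (starRingEnd ℂ) u) * u ^ n := by rw [h1, one_mul]
      _ = _ := by ring
  have h4 := congrArg Complex.re h3
  rw [Complex.add_re, Complex.re_ofReal_mul] at h4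
  linarith

/-- the inequality inside the disc -/
lemma inside {u : ℂ} (hu : ‖u‖ = 1) (hu1 : u ≠ 1) {X : ℕ} (hX : 1 ≤ X) {r : ℝ} (hr0 : 0 < r)
    (hr1 : r < 1) :
    ‖1 - (r : ℂ) * u‖ ≤ Real.exp (1 / X - (∑ n ∈ Finset.Ico 1 X,
      (((1 - (n : ℝ) / X) ^ 2 / (n : ℝ) : ℝ) : ℂ) * ((r : ℂ) * u) ^ n).re) := by
  set a : ℕ → ℝ := fun n => (u ^ n).re with ha
  set C : ℕ → ℝ := fun n => cc X n * r ^ n with hC
  have hle : ∀ n, a n ≤ 1 := by
    intro n
    have h1 := Complex.re_le_norm (u ^ n)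
    rw [norm_pow, hu, one_pow] at h1
    exact h1
  have hge : ∀ n, -1 ≤ a n := by
    intro n
    have h1 := Complex.abs_re_le_norm (u ^ n)
    rw [norm_pow, hu, one_pow] at h1
    exact (abs_le.1 h1).1
  have hc1 : u.re < 1 := by
    rcases lt_or_eq_of_le (show u.re ≤ 1 from by
      have := Complex.re_le_norm u
      rwa [hu] at this) with h | h
    · exact h
    · exfalso
      apply hu1
      have h2 : u.re ^ 2 + u.im ^ 2 = 1 := by
        have h3 := Complex.sq_norm u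
        rw [hu, Complex.normSq_apply] at h3
        nlinarith
      have h3 : u.im = 0 := by
        rw [h] at h2
        have : u.im ^ 2 = 0 := by linarith
        exact pow_eq_zero_iff (two_ne_zero) |>.1 this
      exact Complex.ext (by rw [h, Complex.one_re]) (by rw [h3, Complex.one_im])
  have hCn : ∀ n, 0 ≤ C n := fun n => mul_nonneg (cc_nonneg n) (by positivity)
  have hD : ∀ n, 0 ≤ C n - 2 * C (n + 1) + C (n + 2) := by
    intro n
    have h1 := cc_conv hX n
    have h2 := cc_anti hX (n + 1)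
    have h3 := cc_nonneg (X := X) (n + 2)
    have e : C n - 2 * C (n + 1) + C (n + 2) = r ^ n * ((cc X n - 2 * cc X (n + 1) + cc X (n + 2)) +
        (2 * (1 - r) * cc X (n + 1) - (1 - r) * (1 + r) * cc X (n + 2))) := by
      simp only [hC]
      ring
    rw [e]
    refine mul_nonneg (by positivity) (add_nonneg h1 ?_)
    have h4 : (1 - r) * (1 + r) * cc X (n + 2) ≤ (1 - r) * 2 * cc X (n + 1) := by
      have h5 : (1 - r) * (1 + r) ≤ (1 - r) * 2 := by nlinarith
      exact mul_le_mul h5 h2 h3 (by nlinarith)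
    linarith
  set z : ℂ := (r : ℂ) * u with hz
  have hzn : ‖z‖ < 1 := by
    rw [hz, norm_mul, hu, mul_one, Complex.norm_real, Real.norm_of_nonneg hr0.le]
    exact hr1
  have hzp : ∀ n, (z ^ n).re = r ^ n * a n := by
    intro n
    rw [hz, mul_pow, ← Complex.ofReal_pow, Complex.re_ofReal_mul]
  set M : ℝ := (∑ n ∈ Finset.Ico 1 X, (((1 - (n : ℝ) / X) ^ 2 / (n : ℝ) : ℝ) : ℂ) * z ^ n).re with hM
  -- partial sums
  have hS := Complex.hasSum_taylorSeries_neg_log hzn
  have hSre : HasSum (fun n : ℕ => (z ^ n / n).re) (-Complex.log (1 - z)).re :=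
    Complex.hasSum_re hS
  have hS0 : Filter.Tendsto (fun N : ℕ => ∑ n ∈ Finset.range (N + 1), (z ^ n / n).re) Filter.atTop
      (nhds (-Complex.log (1 - z)).re) :=
    hSre.tendsto_sum_nat.comp (Filter.tendsto_add_atTop_nat 1)
  have hlog : (-Complex.log (1 - z)).re = -Real.log ‖1 - z‖ := by
    rw [Complex.neg_re, Complex.log_re]
  have hpart : ∀ N, X ≤ N → ∑ n ∈ Finset.range (N + 1), (z ^ n / n).re =
      M + ∑ n ∈ Finset.range N, C (n + 1) * a (n + 1) := by
    intro N hN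
    rw [Finset.sum_range_succ']
    simp only [Nat.cast_zero, div_zero, Complex.zero_re, add_zero]
    have h1 : ∀ n : ℕ, (z ^ (n + 1) / ((n + 1 : ℕ) : ℂ)).re = 1 / ((n + 1 : ℕ) : ℝ) * (r ^ (n + 1) * a (n + 1)) := by
      intro n
      rw [← hzp, div_eq_mul_inv, mul_comm, ← Complex.ofReal_natCast, ← Complex.ofReal_inv,
        Complex.re_ofReal_mul, one_div]
    have h2 : M = ∑ n ∈ Finset.range N, (if n + 1 < X then (1 - ((n + 1 : ℕ) : ℝ) / X) ^ 2 / ((n + 1 : ℕ) : ℝ)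
        else 0) * (r ^ (n + 1) * a (n + 1)) := by
      rw [hM, Complex.re_sum]
      have h3 : ∀ n ∈ Finset.Ico 1 X, ((((1 - (n : ℝ) / X) ^ 2 / (n : ℝ) : ℝ) : ℂ) * z ^ n).re =
          (1 - (n : ℝ) / X) ^ 2 / (n : ℝ) * (r ^ n * a n) := by
        intro n _
        rw [Complex.re_ofReal_mul, hzp]
      rw [Finset.sum_congr rfl h3, Finset.sum_Ico_eq_sum_range]
      have h4 : Finset.range (X - 1) ⊆ Finset.range N := by
        intro i hi
        rw [Finset.mem_range] at hi ⊢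
        omega
      rw [← Finset.sum_subset h4]
      · refine Finset.sum_congr rfl fun n hn => ?_
        rw [Finset.mem_range] at hn
        rw [if_pos (by omega : n + 1 < X), add_comm 1 n]
      · intro n _ hn
        rw [Finset.mem_range] at hn
        rw [if_neg (by omega), zero_mul]
    rw [h2, ← Finset.sum_add_distrib]
    refine Finset.sum_congr rfl fun n _ => ?_
    rw [h1, ← cc_id hX (Nat.succ_le_succ (Nat.zero_le n))]
    simp only [hC]
    ring
  have hC0 : C 0 / 2 = 1 / X := by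
    simp only [hC]
    rw [cc_zero]
    ring
  have hCt : Filter.Tendsto (fun N : ℕ => -2 * C (N + 1)) Filter.atTop (nhds 0) := by
    have h1 : Filter.Tendsto (fun N : ℕ => 2 * (2 / (X : ℝ)) * r ^ (N + 1)) Filter.atTop (nhds 0) := by
      have h2 := (tendsto_pow_atTop_nhds_zero_of_lt_one hr0.le hr1).comp (Filter.tendsto_add_atTop_nat 1)
      have h3 := h2.const_mul (2 * (2 / (X : ℝ)))
      rw [mul_zero] at h3
      exact h3
    have h4 : ∀ n, cc X n ≤ 2 / X := by
      intro n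
      induction n with
      | zero => rw [cc_zero]
      | succ n ih => exact (cc_anti hX n).trans ih
    refine squeeze_zero_norm (fun N => ?_) h1
    rw [Real.norm_eq_abs, abs_mul, abs_of_nonneg (hCn (N + 1)), abs_neg, abs_two, mul_assoc]
    refine mul_le_mul_of_nonneg_left ?_ (by norm_num)
    exact mul_le_mul_of_nonneg_right (h4 _) (by positivity)
  have hfin : ∀ N, X ≤ N → -2 * C (N + 1) ≤
      (2 - 2 * u.re) * (1 / X + (∑ n ∈ Finset.range (N + 1), (z ^ n / n).re - M)) := by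
    intro N hN
    have h1 := fejer C a u.re (by simp [ha]) (by simp [ha]) (fun n => rec_u hu n) hle hge hCn hD N
    rw [hC0] at h1
    rw [hpart N hN]
    have e : M + ∑ n ∈ Finset.range N, C (n + 1) * a (n + 1) - M =
        ∑ n ∈ Finset.range N, C (n + 1) * a (n + 1) := by ring
    rw [e]
    exact h1
  have hlim : Filter.Tendsto (fun N : ℕ => (2 - 2 * u.re) *
      (1 / (X : ℝ) + (∑ n ∈ Finset.range (N + 1), (z ^ n / n).re - M))) Filter.atTop
      (nhds ((2 - 2 * u.re) * (1 / (X : ℝ) + ((-Complex.log (1 - z)).re - M)))) :=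
    (((hS0.sub_const M).const_add (1 / (X : ℝ))).const_mul (2 - 2 * u.re))
  have hge0 : 0 ≤ (2 - 2 * u.re) * (1 / (X : ℝ) + ((-Complex.log (1 - z)).re - M)) := by
    refine le_of_tendsto_of_tendsto hCt hlim ?_
    filter_upwards [Filter.eventually_ge_atTop X] with N hN
    exact hfin N hN
  have h5 : 0 ≤ 1 / (X : ℝ) + ((-Complex.log (1 - z)).re - M) :=
    nonneg_of_mul_nonneg_right hge0 (by linarith)
  rw [hlog] at h5
  have hpos : 0 < ‖1 - z‖ := by
    rw [norm_pos_iff]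
    intro h0
    have h6 : z = 1 := (sub_eq_zero.1 h0).symm
    rw [h6, norm_one] at hzn
    exact lt_irrefl _ hzn
  have h6 : Real.log ‖1 - z‖ ≤ 1 / X - M := by linarith
  calc ‖1 - z‖ = Real.exp (Real.log ‖1 - z‖) := (Real.exp_log hpos).symm
    _ ≤ Real.exp (1 / X - M) := Real.exp_le_exp.2 h6

end MajL

theorem majorant {u : ℂ} (hu : ‖u‖ = 1) {X : ℕ} (hX : 1 ≤ X) :
    ‖1 - u‖ ≤ Real.exp (1 / X - (∑ n ∈ Finset.Ico 1 X,
      (((1 - (n : ℝ) / X) ^ 2 / (n : ℝ) : ℝ) : ℂ) * u ^ n).re) := by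
  by_cases hu1 : u = 1
  · rw [hu1, sub_self, norm_zero]
    exact (Real.exp_pos _).le
  have hf : Continuous (fun r : ℝ => ‖1 - (r : ℂ) * u‖) := by fun_prop
  have hg : Continuous (fun r : ℝ => Real.exp (1 / X - (∑ n ∈ Finset.Ico 1 X,
      (((1 - (n : ℝ) / X) ^ 2 / (n : ℝ) : ℝ) : ℂ) * ((r : ℂ) * u) ^ n).re)) := by
    refine Real.continuous_exp.comp (continuous_const.sub (Complex.continuous_re.comp ?_))
    exact continuous_finsetSum _ fun n _ => by fun_prop
  have h1 : ∀ r ∈ Set.Ioo (0 : ℝ) 1, ‖1 - (r : ℂ) * u‖ ≤ Real.exp (1 / X - (∑ n ∈ Finset.Ico 1 X,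
      (((1 - (n : ℝ) / X) ^ 2 / (n : ℝ) : ℝ) : ℂ) * ((r : ℂ) * u) ^ n).re) :=
    fun r hr => MajL.inside hu hu1 hX hr.1 hr.2
  have h2 : (1 : ℝ) ∈ closure (Set.Ioo (0 : ℝ) 1) := by
    rw [closure_Ioo (by norm_num : (0 : ℝ) ≠ 1)]
    exact ⟨zero_le_one, le_refl _⟩
  have h3 := le_on_closure h1 hf.continuousOn hg.continuousOn h2
  simpa using h3

end Pool.Agent.H481.MO
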