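import Pool.Agent.H481.MO0

/-!
MO-S2 (project of helper481, MP_6a632e_nt): truncated exponential, product lower bound
-/

open Finset

namespace Pool.Agent.H481.MO


lemma s2_tail {l : ℕ} {x : ℝ} (hx : 0 ≤ x) (hxl : x ≤ l / 9) :
    Real.exp x - ∑ m ∈ Finset.range l, x ^ m / (m.factorial : ℝ) ≤ (Real.exp 1 / 9) ^ l := by
  have hs1 := Real.summable_pow_div_factorial x
  have hs2 := Real.summable_pow_div_factorial (l : ℝ)
  have he : ∀ y : ℝ, Real.exp y = ∑' m : ℕ, y ^ m / (m.factorial : ℝ) := fun y => by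
    rw [Real.exp_eq_exp_ℝ, NormedSpace.exp_eq_tsum_div]
  have h1 := hs1.sum_add_tsum_nat_add l
  have h2 := hs2.sum_add_tsum_nat_add l
  have h3 : ∑' m : ℕ, x ^ (m + l) / ((m + l).factorial : ℝ) ≤
      ∑' m : ℕ, (1 / 9 : ℝ) ^ l * ((l : ℝ) ^ (m + l) / ((m + l).factorial : ℝ)) := by
    refine Summable.tsum_le_tsum (fun m => ?_) ((summable_nat_add_iff l).2 hs1)
      (((summable_nat_add_iff l).2 hs2).mul_left _)
    rw [← mul_div_assoc]
    refine div_le_div_of_nonneg_right ?_ (by positivity)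
    have h4 : x ^ m ≤ (l : ℝ) ^ m := by
      refine pow_le_pow_left₀ hx (hxl.trans ?_) m
      have : (0 : ℝ) ≤ l := Nat.cast_nonneg l
      linarith
    have h5 : x ^ l ≤ ((l : ℝ) / 9) ^ l := pow_le_pow_left₀ hx hxl l
    calc x ^ (m + l) = x ^ m * x ^ l := pow_add _ _ _
      _ ≤ (l : ℝ) ^ m * ((l : ℝ) / 9) ^ l := mul_le_mul h4 h5 (by positivity) (by positivity)
      _ = _ := by rw [div_pow, pow_add, div_pow, one_pow]; ring
  have h6 : ∑' m : ℕ, (1 / 9 : ℝ) ^ l * ((l : ℝ) ^ (m + l) / ((m + l).factorial : ℝ)) ≤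
      (1 / 9 : ℝ) ^ l * Real.exp l := by
    rw [tsum_mul_left]
    refine mul_le_mul_of_nonneg_left ?_ (by positivity)
    rw [he l, ← h2]
    have : 0 ≤ ∑ i ∈ Finset.range l, (l : ℝ) ^ i / (i.factorial : ℝ) :=
      Finset.sum_nonneg fun i _ => by positivity
    linarith
  have h7 : Real.exp (l : ℝ) = Real.exp 1 ^ l := by
    rw [← Real.exp_nat_mul, mul_one]
  have h8 : (Real.exp 1 / 9) ^ l = (1 / 9 : ℝ) ^ l * Real.exp l := by
    rw [h7, ← mul_pow]
    congr 1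
    ring
  rw [h8, he x, ← h1]
  linarith

/-- S2a. -/
theorem tr_bound {l : ℕ} (hl : 1 ≤ l) {z : ℂ} (hz : ‖z‖ ≤ l / 9) :
    ‖Complex.exp z‖ ≤ (1 - (1 / 2 : ℝ) ^ l)⁻¹ * ‖tr l z‖ := by
  have h1 : ‖Complex.exp z - tr l z‖ ≤ (Real.exp 1 / 9) ^ l :=
    (Complex.norm_exp_sub_sum_le_exp_norm_sub_sum z l).trans (s2_tail (norm_nonneg z) hz)
  have h2 : Real.exp (-(l / 9 : ℝ)) ≤ ‖Complex.exp z‖ := by
    rw [Complex.norm_exp]
    refine Real.exp_le_exp.2 ?_
    have := (abs_le.1 (Complex.abs_re_le_norm z)).1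
    linarith
  have h3 : (Real.exp 1 / 9) ^ l ≤ (1 / 2 : ℝ) ^ l * Real.exp (-(l / 9 : ℝ)) := by
    have e1 : Real.exp (-(l / 9 : ℝ)) = Real.exp (-(1 / 9)) ^ l := by
      rw [← Real.exp_nat_mul]
      congr 1
      ring
    rw [e1, ← mul_pow]
    refine pow_le_pow_left₀ (by positivity) ?_ l
    have e2 : Real.exp (1 / 9) ≤ 9 / 8 := by
      have := Real.one_sub_le_exp_neg (1 / 9)
      have e3 : (8 / 9 : ℝ) ≤ Real.exp (-(1 / 9)) := by linarith
      have e4 : Real.exp (1 / 9) * Real.exp (-(1 / 9)) = 1 := by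
        rw [← Real.exp_add]; simp
      have e5 := Real.exp_pos (1 / 9)
      nlinarith
    have e6 := Real.exp_one_lt_d9
    have e4 : Real.exp (1 / 9) * Real.exp (-(1 / 9)) = 1 := by
      rw [← Real.exp_add]; simp
    have e7 := Real.exp_pos (-(1 / 9))
    have e8 : (8 / 9 : ℝ) ≤ Real.exp (-(1 / 9)) := by
      have := Real.one_sub_le_exp_neg (1 / 9)
      linarith
    linarith
  have h4 : ‖Complex.exp z‖ ≤ ‖tr l z‖ + (1 / 2 : ℝ) ^ l * ‖Complex.exp z‖ := by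
    have e1 : ‖Complex.exp z‖ ≤ ‖tr l z‖ + ‖Complex.exp z - tr l z‖ := by
      have := norm_add_le (tr l z) (Complex.exp z - tr l z)
      rwa [add_sub_cancel] at this
    have e2 : (1 / 2 : ℝ) ^ l * Real.exp (-(l / 9 : ℝ)) ≤ (1 / 2 : ℝ) ^ l * ‖Complex.exp z‖ :=
      mul_le_mul_of_nonneg_left h2 (by positivity)
    linarith
  have h5 : (0 : ℝ) < 1 - (1 / 2 : ℝ) ^ l := by
    have : (1 / 2 : ℝ) ^ l < 1 := pow_lt_one₀ (by norm_num) (by norm_num) (by omega)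
    linarith
  rw [inv_mul_eq_div, le_div_iff₀ h5]
  linarith

lemma s2_exp {x : ℝ} (hx : 0 ≤ x) : Real.exp (x - x ^ 2 / 2) ≤ 1 + x := by
  have h1 : (0 : ℝ) < 1 + x := by linarith
  rw [← Real.le_log_iff_exp_le h1]
  refine le_trans ?_ (Real.le_log_one_add_of_nonneg hx)
  rw [le_div_iff₀ (by linarith)]
  nlinarith [pow_nonneg hx 3]

lemma s2_prod {a : ℝ} (ha : 0 < a) (M : ℕ) :
    Real.exp (-a ^ 2 * (1 - 1 / ((M : ℝ) + 1))) * ((M : ℝ) + 1) ^ a ≤
      ∏ m ∈ Finset.range M, (1 + a / (m + 1)) := by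
  induction M with
  | zero => simp
  | succ M ih =>
    rw [Finset.prod_range_succ]
    have hM : (0 : ℝ) < (M : ℝ) + 1 := by positivity
    have hM2 : (0 : ℝ) < (M : ℝ) + 1 + 1 := by positivity
    set x : ℝ := a / ((M : ℝ) + 1) with hx
    have hx0 : 0 ≤ x := by positivity
    have h1 := s2_exp hx0
    have h2 : ((M : ℝ) + 1 + 1) ^ a ≤ ((M : ℝ) + 1) ^ a * Real.exp x := by
      have e1 : ((M : ℝ) + 1 + 1) = ((M : ℝ) + 1) * (1 + 1 / ((M : ℝ) + 1)) := by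
        field_simp
      have e2 : 1 + 1 / ((M : ℝ) + 1) ≤ Real.exp (1 / ((M : ℝ) + 1)) := by
        have := Real.add_one_le_exp (1 / ((M : ℝ) + 1))
        linarith
      have e3 : (1 + 1 / ((M : ℝ) + 1)) ^ a ≤ Real.exp x := by
        have := Real.rpow_le_rpow (by positivity) e2 ha.le
        rw [← Real.exp_mul] at this
        have e4 : 1 / ((M : ℝ) + 1) * a = x := by rw [hx]; ring
        rwa [e4] at this
      rw [e1, Real.mul_rpow hM.le (by positivity)]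
      exact mul_le_mul_of_nonneg_left e3 (by positivity)
    have h3 : Real.exp (-a ^ 2 * (1 - 1 / ((M : ℝ) + 1 + 1))) ≤
        Real.exp (-a ^ 2 * (1 - 1 / ((M : ℝ) + 1))) * Real.exp (- (x ^ 2 / 2)) := by
      rw [← Real.exp_add]
      refine Real.exp_le_exp.2 ?_
      have e1 : 1 / ((M : ℝ) + 1) - 1 / ((M : ℝ) + 1 + 1) ≥ 1 / (2 * ((M : ℝ) + 1) ^ 2) := by
        rw [ge_iff_le, div_sub_div _ _ hM.ne' hM2.ne', div_le_div_iff₀ (by positivity)
          (by positivity)]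
        have : (0 : ℝ) ≤ M := Nat.cast_nonneg M
        nlinarith
      have e2 : x ^ 2 / 2 = a ^ 2 * (1 / (2 * ((M : ℝ) + 1) ^ 2)) := by
        rw [hx]; field_simp
      rw [e2]
      have e3 : 0 ≤ a ^ 2 := sq_nonneg a
      nlinarith [mul_le_mul_of_nonneg_left e1 e3]
    have h4 : Real.exp (x - x ^ 2 / 2) = Real.exp (-(x ^ 2 / 2)) * Real.exp x := by
      rw [← Real.exp_add]; congr 1; ring
    push_cast
    calc Real.exp (-a ^ 2 * (1 - 1 / ((M : ℝ) + 1 + 1))) * ((M : ℝ) + 1 + 1) ^ a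
        ≤ (Real.exp (-a ^ 2 * (1 - 1 / ((M : ℝ) + 1))) * Real.exp (- (x ^ 2 / 2))) *
          (((M : ℝ) + 1) ^ a * Real.exp x) :=
          mul_le_mul h3 h2 (by positivity) (by positivity)
      _ = (Real.exp (-a ^ 2 * (1 - 1 / ((M : ℝ) + 1))) * ((M : ℝ) + 1) ^ a) *
          Real.exp (x - x ^ 2 / 2) := by rw [h4]; ring
      _ ≤ _ := mul_le_mul ih h1 (by positivity)
          (Finset.prod_nonneg fun m _ => by positivity)

/-- S2b. -/
theorem prod_lower {a : ℝ} (ha : 0 < a) (M : ℕ) :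
    Real.exp (-a ^ 2) * ((M : ℝ) + 1) ^ a ≤ ∏ m ∈ Finset.range M, (1 + a / (m + 1)) := by
  refine le_trans (mul_le_mul_of_nonneg_right (Real.exp_le_exp.2 ?_) (by positivity))
    (s2_prod ha M)
  have h1 : (0 : ℝ) ≤ 1 / ((M : ℝ) + 1) := by positivity
  nlinarith [mul_nonneg (sq_nonneg a) h1]

end Pool.Agent.H481.MO
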