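import Pool.Agent.H481.MO0

/-! Subtask MO-S3 (helper481, MP_6a632e_nt): the pointwise multiscale inequality. -/

open Finset

namespace Pool.Agent.H481.MO



/-- the dyadic decomposition of a sum over `1 ≤ n < 2^c` -/
theorem ms_dyadic (f : ℕ → ℂ) (c : ℕ) :
    ∑ n ∈ Finset.Ico 1 ((2 : ℕ) ^ c), f n =
      ∑ a ∈ Finset.range c, ∑ n ∈ Finset.Ico ((2 : ℕ) ^ a) (2 ^ (a + 1)), f n := by
  induction c with
  | zero => simp
  | succ c ih =>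
    rw [Finset.sum_range_succ, ← ih]
    exact (Finset.sum_Ico_consecutive f (Nat.one_le_two_pow)
      (Nat.pow_le_pow_right (by norm_num) (Nat.le_succ c))).symm

/-- the bound when all blocks below `c` are good -/
theorem ms_good {k : ℝ} (hk : 0 < k) {N c : ℕ} (P : ℕ → ℂ) {Z : ℝ}
    (hM : Z ≤ Real.exp (2 * k * (N / 2 ^ c) - 2 * k * (∑ n ∈ Finset.Ico 1 ((2 : ℕ) ^ c),
      (((1 - (n : ℝ) / 2 ^ c) ^ 2 / (n : ℝ) : ℝ) : ℂ) * P n).re))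
    (T : ℕ → ℝ) (l : ℕ → ℕ) (hl : ∀ a, 1 ≤ l a)
    (hkT : ∀ a, k * T a ≤ l a / 9)
    (htr : ∀ (l : ℕ), 1 ≤ l → ∀ z : ℂ, ‖z‖ ≤ l / 9 →
      ‖Complex.exp z‖ ≤ (1 - (1 / 2 : ℝ) ^ l)⁻¹ * ‖tr l z‖)
    (hg : ∀ a < c, ‖Qf P a c‖ ≤ T a) :
    Z ≤ Real.exp (2 * k * (N / 2 ^ c)) *
        ∏ a ∈ Finset.range c, ((1 - (1 / 2 : ℝ) ^ l a)⁻¹ * ‖tr (l a) (-(k : ℂ) * Qf P a c)‖) ^ 2 := by
  refine hM.trans ?_
  rw [sub_eq_add_neg, Real.exp_add]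
  refine mul_le_mul_of_nonneg_left ?_ (Real.exp_pos _).le
  have h1 : (∑ n ∈ Finset.Ico 1 ((2 : ℕ) ^ c),
      (((1 - (n : ℝ) / 2 ^ c) ^ 2 / (n : ℝ) : ℝ) : ℂ) * P n) = ∑ a ∈ Finset.range c, Qf P a c :=
    ms_dyadic _ c
  rw [h1, Complex.re_sum]
  have h2 : -(2 * k * ∑ a ∈ Finset.range c, (Qf P a c).re) =
      ∑ a ∈ Finset.range c, (-(2 * k * (Qf P a c).re)) := by
    rw [Finset.mul_sum, Finset.sum_neg_distrib]
  rw [h2, Real.exp_sum]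
  refine Finset.prod_le_prod (fun a _ => (Real.exp_pos _).le) fun a ha => ?_
  have h3 : Real.exp (-(2 * k * (Qf P a c).re)) = ‖Complex.exp (-(k : ℂ) * Qf P a c)‖ ^ 2 := by
    rw [Complex.norm_exp, ← Real.exp_nat_mul]
    congr 1
    simp only [Complex.mul_re, Complex.neg_re, Complex.ofReal_re, Complex.neg_im, Complex.ofReal_im]
    push_cast
    ring
  rw [h3]
  refine pow_le_pow_left₀ (norm_nonneg _) (htr _ (hl a) _ ?_) 2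
  rw [norm_mul, norm_neg, Complex.norm_real, Real.norm_eq_abs, abs_of_pos hk]
  exact (mul_le_mul_of_nonneg_left (hg a (Finset.mem_range.1 ha)) hk.le).trans (hkT a)

/-- S3. Pointwise multiscale inequality. -/
theorem multiscale {k : ℝ} (hk : 0 < k) {N K : ℕ} (P : ℕ → ℂ) {Z : ℝ}
    (hM : ∀ c ≤ K, Z ≤ Real.exp (2 * k * (N / 2 ^ c) - 2 * k * (∑ n ∈ Finset.Ico 1 ((2 : ℕ) ^ c),
      (((1 - (n : ℝ) / 2 ^ c) ^ 2 / (n : ℝ) : ℝ) : ℂ) * P n).re))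
    (T : ℕ → ℝ) (hT : ∀ a, 0 < T a) (l m : ℕ → ℕ) (hl : ∀ a, 1 ≤ l a)
    (hkT : ∀ a, k * T a ≤ l a / 9)
    (htr : ∀ (l : ℕ), 1 ≤ l → ∀ z : ℂ, ‖z‖ ≤ l / 9 →
      ‖Complex.exp z‖ ≤ (1 - (1 / 2 : ℝ) ^ l)⁻¹ * ‖tr l z‖) :
    Z ≤ Real.exp (2 * k * (N / 2 ^ K)) *
        ∏ a ∈ Finset.range K, ((1 - (1 / 2 : ℝ) ^ l a)⁻¹ * ‖tr (l a) (-(k : ℂ) * Qf P a K)‖) ^ 2
      + ∑ c ∈ Finset.range K, Real.exp (2 * k * (N / 2 ^ c)) *
        (∏ a ∈ Finset.range c,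
          ((1 - (1 / 2 : ℝ) ^ l a)⁻¹ * ‖tr (l a) (-(k : ℂ) * Qf P a c)‖) ^ 2) *
        ∑ b ∈ Finset.Ioc c K, (‖Qf P c b‖ / T c) ^ (2 * m c) := by
  classical
  have hpn : ∀ c, 0 ≤ Real.exp (2 * k * (N / 2 ^ c)) * (∏ a ∈ Finset.range c,
      ((1 - (1 / 2 : ℝ) ^ l a)⁻¹ * ‖tr (l a) (-(k : ℂ) * Qf P a c)‖) ^ 2) := fun c =>
    mul_nonneg (Real.exp_pos _).le (Finset.prod_nonneg fun a _ => sq_nonneg _)
  have hqn : ∀ c, ∀ b, 0 ≤ (‖Qf P c b‖ / T c) ^ (2 * m c) := fun c b =>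
    pow_nonneg (div_nonneg (norm_nonneg _) (hT c).le) _
  have hterm : ∀ c ∈ Finset.range K, 0 ≤ Real.exp (2 * k * (N / 2 ^ c)) *
        (∏ a ∈ Finset.range c,
          ((1 - (1 / 2 : ℝ) ^ l a)⁻¹ * ‖tr (l a) (-(k : ℂ) * Qf P a c)‖) ^ 2) *
        ∑ b ∈ Finset.Ioc c K, (‖Qf P c b‖ / T c) ^ (2 * m c) := fun c _ =>
    mul_nonneg (hpn c) (Finset.sum_nonneg fun b _ => hqn c b)
  by_cases hbad : ∃ c, c < K ∧ ∃ b, c < b ∧ b ≤ K ∧ T c < ‖Qf P c b‖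
  · have hc := Nat.find_spec hbad
    have hmin : ∀ a, a < Nat.find hbad → ∀ b, a < b → b ≤ K → ‖Qf P a b‖ ≤ T a := by
      intro a ha b hab hbK
      by_contra hcon
      exact Nat.find_min hbad ha ⟨ha.trans hc.1, b, hab, hbK, not_le.1 hcon⟩
    obtain ⟨hcK, b, hcb, hbK, hb⟩ := hc
    have h1 := ms_good hk P (hM _ hcK.le) T l hl hkT htr
      (fun a ha => hmin a ha _ ha hcK.le)
    have h2 : (1 : ℝ) ≤ ∑ b ∈ Finset.Ioc (Nat.find hbad) K,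
        (‖Qf P (Nat.find hbad) b‖ / T (Nat.find hbad)) ^ (2 * m (Nat.find hbad)) := by
      refine le_trans ?_ (Finset.single_le_sum (f := fun b =>
        (‖Qf P (Nat.find hbad) b‖ / T (Nat.find hbad)) ^ (2 * m (Nat.find hbad)))
        (fun b _ => hqn _ b) (Finset.mem_Ioc.2 ⟨hcb, hbK⟩))
      exact one_le_pow₀ ((one_le_div (hT _)).2 hb.le)
    have h3 := Finset.single_le_sum hterm (Finset.mem_range.2 hcK)
    have h4 := mul_le_mul_of_nonneg_left h2 (hpn (Nat.find hbad))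
    rw [mul_one] at h4
    have h5 := hpn K
    linarith
  · have hgood : ∀ a < K, ‖Qf P a K‖ ≤ T a := by
      intro a ha
      by_contra hcon
      exact hbad ⟨a, ha, K, ha, le_rfl, not_le.1 hcon⟩
    have h1 := ms_good hk P (hM K le_rfl) T l hl hkT htr hgood
    have h3 := Finset.sum_nonneg hterm
    linarith

end Pool.Agent.H481.MO
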