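import Pool.Agent.H481.MO0


/-! Project MO (helper481): S4a, `sum_terms`, by helper703. -/

open Finset

namespace Pool.Agent.H481.MO


theorem S4a_sj_sq (j : ℕ) : (2 : ℝ) ^ j ≤ (sj j : ℝ) ^ 2 := by
  unfold sj
  push_cast
  rw [← pow_mul]
  exact pow_le_pow_right₀ (by norm_num) (by omega)

theorem S4a_geo (n : ℕ) : ∑ j ∈ range n, ((j : ℝ) + 1) * (1 / 2 : ℝ) ^ (j + 1) =
    2 - ((n : ℝ) + 2) * (1 / 2 : ℝ) ^ n := by
  induction n with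
  | zero => norm_num
  | succ n ih =>
    rw [sum_range_succ, ih]
    push_cast
    ring

theorem S4a_geo_le (n : ℕ) : ∑ j ∈ range n, ((j : ℝ) + 1) * (1 / 2 : ℝ) ^ (j + 1) ≤ 2 := by
  rw [S4a_geo]
  have : 0 ≤ ((n : ℝ) + 2) * (1 / 2 : ℝ) ^ n := by positivity
  linarith

theorem S4a_fact (t : ℕ) (ht : 0 < t) (j : ℕ) :
    ((t * 2 ^ j).factorial : ℝ) / ((t : ℝ) * (sj j : ℝ)) ^ (2 * (t * 2 ^ j)) ≤
      (1 / (t : ℝ)) ^ (t * 2 ^ j) := by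
  have ht' : (0 : ℝ) < t := by exact_mod_cast ht
  have h2 : (0 : ℝ) < 2 ^ j := by positivity
  obtain ⟨m, hm⟩ : ∃ m, m = t * 2 ^ j := ⟨_, rfl⟩
  rw [← hm]
  have h1 : ((m.factorial : ℕ) : ℝ) ≤ (m : ℝ) ^ m := by
    exact_mod_cast Nat.factorial_le_pow m
  have hmr : (m : ℝ) = t * 2 ^ j := by
    rw [hm]
    push_cast
    ring
  have h3 : ((t : ℝ) ^ 2 * 2 ^ j) ^ m ≤ ((t : ℝ) * (sj j : ℝ)) ^ (2 * m) := by
    rw [pow_mul, mul_pow (t : ℝ) (sj j : ℝ) 2]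
    refine pow_le_pow_left₀ (by positivity) ?_ m
    exact mul_le_mul_of_nonneg_left (S4a_sj_sq j) (by positivity)
  have h4 : 0 < ((t : ℝ) ^ 2 * 2 ^ j) ^ m := by positivity
  calc ((m.factorial : ℕ) : ℝ) / ((t : ℝ) * (sj j : ℝ)) ^ (2 * m) ≤
      (m : ℝ) ^ m / ((t : ℝ) ^ 2 * 2 ^ j) ^ m :=
        div_le_div₀ (pow_nonneg (Nat.cast_nonneg m) m) h1 h4 h3
    _ = (1 / (t : ℝ)) ^ m := by
      rw [← div_pow, hmr]
      congr 1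
      field_simp

theorem S4a_exp {k B : ℝ} (hk : 0 < k) {t : ℕ} {N K : ℕ} (hN : (N : ℝ) ≤ B * t * 2 ^ K) (c : ℕ)
    (hc : c < K) : Real.exp (2 * k * (N / 2 ^ c)) ≤
      Real.exp (4 * k * B) ^ (t * 2 ^ (K - 1 - c)) := by
  rw [← Real.exp_nat_mul]
  refine Real.exp_le_exp.mpr ?_
  have h1 : (2 : ℝ) ^ K = 2 * 2 ^ (K - 1 - c) * 2 ^ c := by
    rw [← pow_succ', ← pow_add]
    congr 1
    omega
  have h2 : (N : ℝ) / 2 ^ c ≤ B * t * (2 * 2 ^ (K - 1 - c)) := by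
    rw [div_le_iff₀ (by positivity)]
    refine hN.trans (le_of_eq ?_)
    rw [h1]
    ring
  have h3 : 2 * k * ((N : ℝ) / 2 ^ c) ≤ 2 * k * (B * t * (2 * 2 ^ (K - 1 - c))) :=
    mul_le_mul_of_nonneg_left h2 (by positivity)
  refine h3.trans (le_of_eq ?_)
  push_cast
  ring

/-- S4a. With `j = K - 1 - c`, `m = t 2^j`: `m! ≤ m^m`, `m / (t s_j)² ≤ 1 / t`,
`N / 2^c = (N / 2^K) 2^(j+1) ≤ 2 B t 2^j`, so the term is at most
`2^{c k²} (j+1) (exp (4 k B) / t)^{t 2^j} ≤ 2^{K k²} (j+1) (1/2)^{j+1}` and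
`∑_{j} (j+1) / 2^(j+1) ≤ 2`. -/
theorem sum_terms {k B : ℝ} (hk : 0 < k) (hB : 0 < B) {t : ℕ}
    (ht : 2 * Real.exp (4 * k * B) ≤ t) {N K : ℕ} (hN : (N : ℝ) ≤ B * t * 2 ^ K) :
    ∑ c ∈ Finset.range K, Real.exp (2 * k * (N / 2 ^ c)) * (2 : ℝ) ^ ((c : ℝ) * k ^ 2) *
      (((K - c : ℕ) : ℝ) * (((t * 2 ^ (K - 1 - c)).factorial : ℝ) /
        ((t : ℝ) * (sj (K - 1 - c) : ℝ)) ^ (2 * (t * 2 ^ (K - 1 - c))))) ≤
      2 * (2 : ℝ) ^ ((K : ℝ) * k ^ 2) := by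
  have he : 1 < Real.exp (4 * k * B) := Real.one_lt_exp_iff.mpr (by positivity)
  have ht2 : (2 : ℝ) < t := by linarith
  have ht2' : 2 < t := by exact_mod_cast ht2
  have hP : (0 : ℝ) < (2 : ℝ) ^ ((K : ℝ) * k ^ 2) := Real.rpow_pos_of_pos (by norm_num) _
  have hterm : ∀ c ∈ range K, Real.exp (2 * k * (N / 2 ^ c)) * (2 : ℝ) ^ ((c : ℝ) * k ^ 2) *
      (((K - c : ℕ) : ℝ) * (((t * 2 ^ (K - 1 - c)).factorial : ℝ) /
        ((t : ℝ) * (sj (K - 1 - c) : ℝ)) ^ (2 * (t * 2 ^ (K - 1 - c))))) ≤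
      (2 : ℝ) ^ ((K : ℝ) * k ^ 2) *
        ((((K - 1 - c : ℕ) : ℝ) + 1) * (1 / 2 : ℝ) ^ ((K - 1 - c) + 1)) := by
    intro c hc
    rw [mem_range] at hc
    obtain ⟨j, hj⟩ : ∃ j, j = K - 1 - c := ⟨_, rfl⟩
    have h1 := S4a_exp hk hN c hc
    have h2 := S4a_fact t (by omega) j
    rw [← hj] at h1 ⊢
    have h3 : ((K - c : ℕ) : ℝ) = (j : ℝ) + 1 := by
      have : K - c = j + 1 := by omega
      rw [this]
      push_cast
      ring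
    rw [h3]
    have h4 : (2 : ℝ) ^ ((c : ℝ) * k ^ 2) ≤ (2 : ℝ) ^ ((K : ℝ) * k ^ 2) := by
      refine Real.rpow_le_rpow_of_exponent_le (by norm_num) ?_
      have h5 : (c : ℝ) ≤ K := by exact_mod_cast hc.le
      exact mul_le_mul_of_nonneg_right h5 (sq_nonneg k)
    have h6 : Real.exp (4 * k * B) ^ (t * 2 ^ j) * (1 / (t : ℝ)) ^ (t * 2 ^ j) ≤
        (1 / 2 : ℝ) ^ (j + 1) := by
      rw [← mul_pow]
      have h7 : Real.exp (4 * k * B) * (1 / (t : ℝ)) ≤ 1 / 2 := by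
        rw [mul_one_div, div_le_div_iff₀ (by linarith) (by norm_num)]
        linarith
      have h8 : 0 ≤ Real.exp (4 * k * B) * (1 / (t : ℝ)) := by positivity
      refine (pow_le_pow_left₀ h8 h7 _).trans ?_
      refine pow_le_pow_of_le_one (by norm_num) (by norm_num) ?_
      have h9 : j < 2 ^ j := Nat.lt_two_pow_self
      calc j + 1 ≤ 1 * 2 ^ j := by omega
        _ ≤ t * 2 ^ j := Nat.mul_le_mul_right _ (by omega)
    have hj0 : (0 : ℝ) ≤ (j : ℝ) + 1 := by positivity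
    have hf0 : 0 ≤ ((t * 2 ^ j).factorial : ℝ) / ((t : ℝ) * (sj j : ℝ)) ^ (2 * (t * 2 ^ j)) := by
      positivity
    calc Real.exp (2 * k * (N / 2 ^ c)) * (2 : ℝ) ^ ((c : ℝ) * k ^ 2) *
        (((j : ℝ) + 1) * (((t * 2 ^ j).factorial : ℝ) /
          ((t : ℝ) * (sj j : ℝ)) ^ (2 * (t * 2 ^ j)))) ≤
        Real.exp (4 * k * B) ^ (t * 2 ^ j) * (2 : ℝ) ^ ((K : ℝ) * k ^ 2) *
          (((j : ℝ) + 1) * (1 / (t : ℝ)) ^ (t * 2 ^ j)) := by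
          refine mul_le_mul ?_ (mul_le_mul_of_nonneg_left h2 hj0) (mul_nonneg hj0 hf0)
            (by positivity)
          exact mul_le_mul h1 h4 (Real.rpow_nonneg (by norm_num) _) (by positivity)
      _ = (2 : ℝ) ^ ((K : ℝ) * k ^ 2) * (((j : ℝ) + 1) *
          (Real.exp (4 * k * B) ^ (t * 2 ^ j) * (1 / (t : ℝ)) ^ (t * 2 ^ j))) := by ring
      _ ≤ (2 : ℝ) ^ ((K : ℝ) * k ^ 2) * (((j : ℝ) + 1) * (1 / 2 : ℝ) ^ (j + 1)) :=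
          mul_le_mul_of_nonneg_left (mul_le_mul_of_nonneg_left h6 hj0) hP.le
  refine (sum_le_sum hterm).trans ?_
  rw [← mul_sum]
  have hrefl := sum_range_reflect (fun j : ℕ => ((j : ℝ) + 1) * (1 / 2 : ℝ) ^ (j + 1)) K
  rw [hrefl, mul_comm]
  exact mul_le_mul_of_nonneg_right (S4a_geo_le K) hP.le

end Pool.Agent.H481.MO
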