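import Pool.Agent.H481.MO0

/-!
MO-S4b (board task 12281 for helper481): `degree_budget`, `degree_budget'`, `prod_D`, `harm_block`.
-/

open Finset

namespace Pool.Agent.H481.MO


theorem sj_add_two (j : ℕ) : sj (j + 2) = 2 * sj j := by
  unfold sj
  have : (j + 2 + 1) / 2 = (j + 1) / 2 + 1 := by omega
  rw [this, pow_succ]; ring

theorem sj_sum (K : ℕ) : ∑ j ∈ Finset.range K, sj j * 2 ^ (K - j) ≤ 4 * 2 ^ K := by
  induction K using Nat.strong_induction_on with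
  | _ K ih =>
    match K, ih with
    | 0, _ => simp
    | 1, _ => simp [sj]
    | (K + 2), ih =>
      have h := ih K (by omega)
      rw [Finset.sum_range_succ', Finset.sum_range_succ']
      have e : ∑ k ∈ Finset.range K, sj (k + 1 + 1) * 2 ^ (K + 2 - (k + 1 + 1)) =
          2 * ∑ k ∈ Finset.range K, sj k * 2 ^ (K - k) := by
        rw [Finset.mul_sum]
        refine Finset.sum_congr rfl fun k _ => ?_
        have h1 : K + 2 - (k + 1 + 1) = K - k := by omega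
        rw [h1, show k + 1 + 1 = k + 2 from rfl, sj_add_two]; ring
      rw [e]
      have h0 : sj 0 = 1 := by simp [sj]
      have h1 : sj (0 + 1) = 2 := by simp [sj]
      rw [h0, h1]
      have h2 : K + 2 - (0 + 1) = K + 1 := by omega
      rw [h2, Nat.sub_zero]
      have e2 : (2 : ℕ) ^ (K + 2) = 4 * 2 ^ K := by ring
      have e1 : (2 : ℕ) ^ (K + 1) = 2 * 2 ^ K := by ring
      rw [e2, e1]
      nlinarith [h]

theorem sj_sum' (K : ℕ) : ∑ a ∈ Finset.range K, sj (K - 1 - a) * 2 ^ (a + 1) ≤ 4 * 2 ^ K := by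
  have h := sj_sum K
  rw [← Finset.sum_range_reflect] at h
  refine le_trans (le_of_eq ?_) h
  refine Finset.sum_congr rfl fun a ha => ?_
  have ha := Finset.mem_range.1 ha
  have : K - (K - 1 - a) = a + 1 := by omega
  rw [this]

theorem budget_aux (A t : ℕ) {K c : ℕ} (hc : c ≤ K) :
    ∑ a ∈ Finset.range c, (A * t * sj (K - 1 - a)) * 2 ^ (a + 1) ≤ 4 * A * t * 2 ^ K := by
  calc ∑ a ∈ Finset.range c, (A * t * sj (K - 1 - a)) * 2 ^ (a + 1)
      ≤ ∑ a ∈ Finset.range K, (A * t * sj (K - 1 - a)) * 2 ^ (a + 1) :=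
        Finset.sum_le_sum_of_subset (Finset.range_mono hc)
    _ = A * t * ∑ a ∈ Finset.range K, sj (K - 1 - a) * 2 ^ (a + 1) := by
        rw [Finset.mul_sum]
        exact Finset.sum_congr rfl fun a _ => by ring
    _ ≤ A * t * (4 * 2 ^ K) := Nat.mul_le_mul_left _ (sj_sum' K)
    _ = 4 * A * t * 2 ^ K := by ring

/-- S4b. `∑_{j<n} s_j / 2^j ≤ 4` by a two-step induction
(`f (n+2) = s_0 + s_1/2 + f n / 2 = 2 + f n / 2`). -/
theorem degree_budget (A t : ℕ) {K c : ℕ} (hc : c < K) :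
    ∑ a ∈ Finset.range c, (A * t * sj (K - 1 - a)) * 2 ^ (a + 1) +
      (t * 2 ^ (K - 1 - c)) * 2 ^ (c + 1) ≤ (4 * A + 1) * t * 2 ^ K := by
  have h1 := budget_aux A t hc.le
  have h2 : (t * 2 ^ (K - 1 - c)) * 2 ^ (c + 1) = t * 2 ^ K := by
    rw [mul_assoc, ← pow_add]
    congr 2
    omega
  rw [h2]
  calc _ ≤ 4 * A * t * 2 ^ K + t * 2 ^ K := Nat.add_le_add_right h1 _
    _ = (4 * A + 1) * t * 2 ^ K := by ring

theorem degree_budget' (A t K : ℕ) :
    ∑ a ∈ Finset.range K, (A * t * sj (K - 1 - a)) * 2 ^ (a + 1) ≤ (4 * A + 1) * t * 2 ^ K := by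
  refine (budget_aux A t le_rfl).trans ?_
  have : (4 * A + 1) * t * 2 ^ K = 4 * A * t * 2 ^ K + t * 2 ^ K := by ring
  rw [this]
  exact Nat.le_add_right _ _

theorem sj_lower (j : ℕ) : j + 2 ≤ 2 * sj j := by
  induction j using Nat.strong_induction_on with
  | _ j ih =>
    match j, ih with
    | 0, _ => simp [sj]
    | 1, _ => simp [sj]
    | (j + 2), ih =>
      have h := ih j (by omega)
      rw [sj_add_two]
      omega

theorem x_bound {A t : ℕ} (hA : 2 ≤ A * t) (j : ℕ) :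
    (1 / 2 : ℝ) ^ (A * t * sj j) ≤ (1 / 2 : ℝ) ^ (j + 2) := by
  apply pow_le_pow_of_le_one (by norm_num) (by norm_num)
  calc j + 2 ≤ 2 * sj j := sj_lower j
    _ ≤ A * t * sj j := Nat.mul_le_mul_right _ hA

theorem prod_lower_aux {A t : ℕ} (hA : 2 ≤ A * t) {K : ℕ} (c : ℕ) (hc : c ≤ K) :
    1 - (1 / 2 : ℝ) ^ (K + 1 - c) ≤
      ∏ a ∈ Finset.range c, (1 - (1 / 2 : ℝ) ^ (A * t * sj (K - 1 - a))) := by
  induction c with
  | zero => simp
  | succ c ih =>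
    rw [Finset.prod_range_succ]
    have h := ih (by omega)
    have hx := x_bound hA (K - 1 - c)
    have e1 : K - 1 - c + 2 = K + 1 - c := by omega
    have e2 : K + 1 - (c + 1) + 1 = K + 1 - c := by omega
    rw [e1] at hx
    have hx1 : (1 / 2 : ℝ) ^ (A * t * sj (K - 1 - c)) ≤ 1 := pow_le_one₀ (by norm_num) (by norm_num)
    have hx0 : 0 ≤ (1 / 2 : ℝ) ^ (A * t * sj (K - 1 - c)) := by positivity
    have hy : (1 / 2 : ℝ) ^ (K + 1 - c) = (1 / 2 : ℝ) ^ (K + 1 - (c + 1)) * (1 / 2) := by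
      rw [← e2, pow_succ]
    have hy0 : 0 ≤ (1 / 2 : ℝ) ^ (K + 1 - (c + 1)) := by positivity
    set x := (1 / 2 : ℝ) ^ (A * t * sj (K - 1 - c))
    set y := (1 / 2 : ℝ) ^ (K + 1 - (c + 1))
    rw [hy] at h hx
    have := mul_le_mul_of_nonneg_right h (by linarith : (0 : ℝ) ≤ 1 - x)
    refine le_trans ?_ this
    nlinarith [mul_nonneg hy0 hx0]

/-- S4c. `2 s_j ≥ j + 2`, so `∑_a (1/2)^(A t s_(K-1-a)) ≤ ∑_j 2^{-(j+2)} ≤ 1/2`, and
`∏ (1 - x_a) ≥ 1 - ∑ x_a ≥ 1/2`. -/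
theorem prod_D {A t : ℕ} (hA : 2 ≤ A * t) {K c : ℕ} (hc : c ≤ K) :
    ∏ a ∈ Finset.range c, ((1 - (1 / 2 : ℝ) ^ (A * t * sj (K - 1 - a)))⁻¹) ^ 2 ≤ 4 := by
  have h := prod_lower_aux hA c hc
  have h2 : (1 / 2 : ℝ) ≤ ∏ a ∈ Finset.range c, (1 - (1 / 2 : ℝ) ^ (A * t * sj (K - 1 - a))) := by
    refine le_trans ?_ h
    have : (1 / 2 : ℝ) ^ (K + 1 - c) ≤ (1 / 2 : ℝ) ^ 1 :=
      pow_le_pow_of_le_one (by norm_num) (by norm_num) (by omega)
    linarith
  rw [Finset.prod_pow, Finset.prod_inv_distrib]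
  set p := ∏ a ∈ Finset.range c, (1 - (1 / 2 : ℝ) ^ (A * t * sj (K - 1 - a)))
  have hp : 0 < p := by linarith
  have h3 : p⁻¹ ≤ 2 := by
    rw [inv_le_comm₀ hp (by norm_num)]
    linarith
  have h4 : 0 ≤ p⁻¹ := by positivity
  nlinarith

/-- S4d. blocks of the harmonic sum: `∑_{n < 2^c} 1/n ≤ 1 + c log 2`. -/
theorem harm_block (c : ℕ) : ∑ n ∈ Finset.Ico 1 ((2 : ℕ) ^ c), (1 / (n : ℝ)) ≤ 1 + c * Real.log 2 := by
  have h := harmonic_le_one_add_log (2 ^ c)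
  have e : ((harmonic (2 ^ c) : ℚ) : ℝ) = ∑ n ∈ Finset.Icc 1 ((2 : ℕ) ^ c), (1 / (n : ℝ)) := by
    rw [harmonic_eq_sum_Icc]
    push_cast
    simp
  rw [e] at h
  have h3 : Real.log ((2 ^ c : ℕ) : ℝ) = c * Real.log 2 := by
    push_cast
    rw [Real.log_pow]
  rw [h3] at h
  refine le_trans ?_ h
  apply Finset.sum_le_sum_of_subset_of_nonneg
  · intro n hn
    rw [Finset.mem_Ico] at hn
    rw [Finset.mem_Icc]
    omega
  · intro n _ _
    positivity

end Pool.Agent.H481.MO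

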