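import Pool.Agent.H481.GA4
import Pool.Agent.H481.MO1
import Pool.Agent.H481.MO2
import Pool.Agent.H481.MO3
import Pool.Agent.H481.MO4
import Pool.Agent.H481.MO5

/-!
The upper bound for the moments: the means of the terms of the multiscale inequality.
-/

open Finset MeasureTheory MvPolynomial
open Pool.Agent.R319.UM

namespace Pool.Agent.H481.GA

noncomputable section

variable {N : ℕ}

/-- the coefficients of the linear forms -/
def wq (b : ℕ) (w : ℂ) (n : ℕ) : ℂ := (((1 - (n : ℝ) / 2 ^ b) ^ 2 / (n : ℝ) : ℝ) : ℂ) * w ^ n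

/-- the coefficients of the truncated exponential -/
def ht (k : ℝ) (i : ℕ) : ℂ := (-(k : ℂ)) ^ i / (i.factorial : ℂ)

/-- rotated power sums -/
def Pn (w : ℂ) (z : Fin N → ℂ) (n : ℕ) : ℂ := ∑ j, (w * z j) ^ n

lemma eval_wq (z : Fin N → ℂ) (a b : ℕ) (w : ℂ) :
    eval z (Lf (blk a) (wq b w) : MvPolynomial (Fin N) ℂ) = MO.Qf (Pn w z) a b := by
  rw [eval_Lf]
  unfold MO.Qf blk wq Pn
  refine Finset.sum_congr rfl fun n _ => ?_
  simp only [mul_pow, ← Finset.mul_sum]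
  ring

lemma eval_tr (z : Fin N → ℂ) (k : ℝ) (a b : ℕ) (w : ℂ) (L : ℕ) :
    eval z (Hf (blk a) (wq b w) L (ht k) : MvPolynomial (Fin N) ℂ) =
      MO.tr L (-(k : ℂ) * MO.Qf (Pn w z) a b) := by
  rw [eval_Hf, eval_wq]
  unfold MO.tr ht
  refine Finset.sum_congr rfl fun n _ => ?_
  rw [mul_pow]
  ring

lemma WQ_nonneg (S : Finset ℕ) (q : ℕ → ℂ) : 0 ≤ WQ S q :=
  Finset.sum_nonneg fun n _ => by positivity

lemma VQ_nonneg (S : Finset ℕ) (q : ℕ → ℂ) (L : ℕ) (h : ℕ → ℂ) : 0 ≤ VQ S q L h :=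
  Finset.sum_nonneg fun n _ => by
    have := WQ_nonneg S q
    positivity

lemma VQ_le (k : ℝ) (S : Finset ℕ) (q : ℕ → ℂ) (L : ℕ) :
    VQ S q L (ht k) ≤ Real.exp (k ^ 2 * WQ S q) := by
  have h0 : 0 ≤ k ^ 2 * WQ S q := mul_nonneg (sq_nonneg _) (WQ_nonneg S q)
  refine le_trans (le_of_eq ?_) (Real.sum_le_exp_of_nonneg h0 L)
  unfold VQ
  refine Finset.sum_congr rfl fun i _ => ?_
  have hf : (i.factorial : ℝ) ≠ 0 := by exact_mod_cast i.factorial_ne_zero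
  have h1 : ‖ht k i‖ = |k| ^ i / (i.factorial : ℝ) := by
    unfold ht
    rw [norm_div, norm_pow, norm_neg, Complex.norm_real, Complex.norm_natCast, Real.norm_eq_abs]
  rw [h1, div_pow, ← pow_mul, mul_comm i 2, pow_mul, sq_abs, mul_pow]
  field_simp

lemma WQ_le {a b : ℕ} (hab : a < b) {w : ℂ} (hw : ‖w‖ = 1) :
    WQ (blk a) (wq b w) ≤ ∑ n ∈ blk a, 1 / (n : ℝ) := by
  unfold WQ
  refine Finset.sum_le_sum fun n hn => ?_
  have hn1 := (blk_mem hn).1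
  have hn2 := (blk_mem hn).2
  have hnr : (1 : ℝ) ≤ n := by exact_mod_cast hn1
  have h2b : (n : ℝ) ≤ 2 ^ b := by
    have h1 : (n : ℝ) ≤ ((2 ^ (a + 1) : ℕ) : ℝ) := by exact_mod_cast hn2
    have h2 : (2 : ℝ) ^ (a + 1) ≤ 2 ^ b := pow_le_pow_right₀ (by norm_num) hab
    push_cast at h1
    linarith
  have hx0 : 0 ≤ 1 - (n : ℝ) / 2 ^ b := by
    rw [sub_nonneg, div_le_one (by positivity)]
    exact h2b
  have hx1 : 1 - (n : ℝ) / 2 ^ b ≤ 1 := by
    have : 0 ≤ (n : ℝ) / 2 ^ b := by positivity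
    linarith
  have hnorm : ‖wq b w n‖ = (1 - (n : ℝ) / 2 ^ b) ^ 2 / (n : ℝ) := by
    unfold wq
    rw [norm_mul, norm_pow, hw, one_pow, mul_one, Complex.norm_real, Real.norm_of_nonneg]
    positivity
  rw [hnorm]
  have h4 : (1 - (n : ℝ) / 2 ^ b) ^ 2 ≤ 1 := pow_le_one₀ hx0 hx1
  have h5 : ((1 - (n : ℝ) / 2 ^ b) ^ 2) ^ 2 ≤ 1 := pow_le_one₀ (by positivity) h4
  rw [div_pow, mul_div_assoc', div_le_div_iff₀ (by positivity) (by positivity)]
  nlinarith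

lemma blk_sum_le (a : ℕ) : ∑ n ∈ blk a, 1 / (n : ℝ) ≤ 1 := by
  have h : ∀ n ∈ blk a, 1 / (n : ℝ) ≤ 1 / 2 ^ a := by
    intro n hn
    unfold blk at hn
    have h1 := (Finset.mem_Ico.1 hn).1
    have h2 : (2 : ℝ) ^ a ≤ n := by exact_mod_cast h1
    exact one_div_le_one_div_of_le (by positivity) h2
  refine (Finset.sum_le_sum h).trans ?_
  rw [Finset.sum_const, nsmul_eq_mul]
  have hc : (blk a).card = 2 ^ a := by
    unfold blk
    rw [Nat.card_Ico, pow_succ]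
    omega
  rw [hc]
  push_cast
  rw [mul_one_div_cancel (by positivity)]

lemma sum_blk (f : ℕ → ℝ) (c : ℕ) :
    ∑ n ∈ Finset.Ico 1 ((2 : ℕ) ^ c), f n = ∑ a ∈ range c, ∑ n ∈ blk a, f n := by
  induction c with
  | zero => simp
  | succ c ih =>
    rw [Finset.sum_range_succ, ← ih]
    exact (Finset.sum_Ico_consecutive f (Nat.one_le_two_pow)
      (Nat.pow_le_pow_right (by norm_num) (Nat.le_succ c))).symm

lemma prod_VQ_le (k : ℝ) {w : ℂ} (hw : ‖w‖ = 1) (L : ℕ → ℕ) (c : ℕ) :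
    ∏ a ∈ range c, VQ (blk a) (wq c w) (L a) (ht k) ≤
      Real.exp (k ^ 2) * (2 : ℝ) ^ ((c : ℝ) * k ^ 2) := by
  have h1 : ∏ a ∈ range c, VQ (blk a) (wq c w) (L a) (ht k) ≤
      ∏ a ∈ range c, Real.exp (k ^ 2 * ∑ n ∈ blk a, 1 / (n : ℝ)) := by
    refine Finset.prod_le_prod (fun a _ => VQ_nonneg _ _ _ _) fun a ha => ?_
    refine (VQ_le k _ _ _).trans (Real.exp_le_exp.2 ?_)
    exact mul_le_mul_of_nonneg_left (WQ_le (Finset.mem_range.1 ha) hw) (sq_nonneg k)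
  refine h1.trans ?_
  rw [← Real.exp_sum, ← Finset.mul_sum, ← sum_blk (fun n => 1 / (n : ℝ)) c,
    Real.rpow_def_of_pos (by norm_num), ← Real.exp_add]
  refine Real.exp_le_exp.2 ?_
  have h2 := MO.harm_block c
  nlinarith [sq_nonneg k, mul_le_mul_of_nonneg_left h2 (sq_nonneg k)]

/-! ### the pointwise majorant -/

lemma pointwise_maj {k : ℝ} (hk : 0 < k) {z : Fin N → ℂ} (hz : ∀ j, ‖z j‖ = 1) (θ : ℝ) (c : ℕ) :
    ‖∏ j, (Complex.exp (Complex.I * θ) - z j)‖ ^ (2 * k) ≤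
      Real.exp (2 * k * (N / 2 ^ c) - 2 * k * (∑ n ∈ Finset.Ico 1 ((2 : ℕ) ^ c),
        (((1 - (n : ℝ) / 2 ^ c) ^ 2 / (n : ℝ) : ℝ) : ℂ) *
          Pn (Complex.exp (-(Complex.I * θ))) z n).re) := by
  set w : ℂ := Complex.exp (-(Complex.I * θ)) with hw
  have hw1 : ‖w‖ = 1 := by
    rw [hw]
    have : -(Complex.I * (θ : ℂ)) = ((-θ : ℝ) : ℂ) * Complex.I := by push_cast; ring
    rw [this, Complex.norm_exp_ofReal_mul_I]
  have he1 : ‖Complex.exp (Complex.I * θ)‖ = 1 := by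
    rw [mul_comm, Complex.norm_exp_ofReal_mul_I]
  have hfac : ∀ j, ‖Complex.exp (Complex.I * θ) - z j‖ ≤
      Real.exp (1 / 2 ^ c - (∑ n ∈ Finset.Ico 1 ((2 : ℕ) ^ c),
        (((1 - (n : ℝ) / 2 ^ c) ^ 2 / (n : ℝ) : ℝ) : ℂ) * (w * z j) ^ n).re) := by
    intro j
    have h1 : Complex.exp (Complex.I * θ) - z j = Complex.exp (Complex.I * θ) * (1 - w * z j) := by
      have : Complex.exp (Complex.I * θ) * w = 1 := by
        rw [hw, ← Complex.exp_add, add_neg_cancel, Complex.exp_zero]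
      linear_combination z j * this
    rw [h1, norm_mul, he1, one_mul]
    have h2 := MO.majorant (u := w * z j) (by rw [norm_mul, hw1, hz j, one_mul])
      (X := 2 ^ c) Nat.one_le_two_pow
    push_cast at h2 ⊢
    exact h2
  have hprod : ‖∏ j, (Complex.exp (Complex.I * θ) - z j)‖ ≤
      Real.exp (N / 2 ^ c - (∑ n ∈ Finset.Ico 1 ((2 : ℕ) ^ c),
        (((1 - (n : ℝ) / 2 ^ c) ^ 2 / (n : ℝ) : ℝ) : ℂ) * Pn w z n).re) := by
    rw [norm_prod]
    refine (Finset.prod_le_prod (fun j _ => norm_nonneg _) fun j _ => hfac j).trans ?_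
    rw [← Real.exp_sum]
    refine Real.exp_le_exp.2 (le_of_eq ?_)
    rw [Finset.sum_sub_distrib, Finset.sum_const, Finset.card_univ, Fintype.card_fin,
      nsmul_eq_mul, ← Complex.re_sum, Finset.sum_comm]
    unfold Pn
    simp only [Finset.mul_sum]
    rw [mul_one_div]
  have h3 := Real.rpow_le_rpow (norm_nonneg _) hprod (by positivity : 0 ≤ 2 * k)
  refine h3.trans (le_of_eq ?_)
  rw [← Real.exp_mul]
  congr 1
  ring

end

end Pool.Agent.H481.GA
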