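import Pool.Agent.H481.GA4

/-!
Polynomials in the power sums.
-/

open Finset MeasureTheory MvPolynomial
open Pool.Agent.R319.UM

namespace Pool.Agent.H481.GA

noncomputable section

variable {N : ℕ}

/-- products of power sums -/
def pm (s : Multiset ℕ) : MvPolynomial (Fin N) ℂ := (s.map (psum (Fin N) ℂ)).prod

/-- the spanning set -/
def PSet (N D : ℕ) : Set (MvPolynomial (Fin N) ℂ) :=
  {F | ∃ s : Multiset ℕ, (∀ j ∈ s, 0 < j) ∧ s.sum ≤ D ∧ F = pm s}

/-- polynomials in the power sums of weighted degree at most `D` -/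
def PSp (N D : ℕ) : Submodule ℂ (MvPolynomial (Fin N) ℂ) := Submodule.span ℂ (PSet N D)

lemma PSp_mono {a b : ℕ} (h : a ≤ b) : PSp N a ≤ PSp N b := by
  refine Submodule.span_mono ?_
  rintro F ⟨s, h1, h2, h3⟩
  exact ⟨s, h1, h2.trans h, h3⟩

lemma pm_mem {s : Multiset ℕ} (h : ∀ j ∈ s, 0 < j) {D : ℕ} (hs : s.sum ≤ D) :
    (pm s : MvPolynomial (Fin N) ℂ) ∈ PSp N D := Submodule.subset_span ⟨s, h, hs, rfl⟩

lemma one_memP (D : ℕ) : (1 : MvPolynomial (Fin N) ℂ) ∈ PSp N D := by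
  have : (1 : MvPolynomial (Fin N) ℂ) = pm 0 := by simp [pm]
  rw [this]
  exact pm_mem (by simp) (by simp)

lemma psum_mem {n : ℕ} (hn : 1 ≤ n) : (psum (Fin N) ℂ n) ∈ PSp N n := by
  have : psum (Fin N) ℂ n = pm {n} := by simp [pm]
  rw [this]
  refine pm_mem ?_ (by simp)
  intro j hj
  rw [Multiset.mem_singleton] at hj
  omega

lemma mul_memP {a b : ℕ} {F G : MvPolynomial (Fin N) ℂ} (hF : F ∈ PSp N a) (hG : G ∈ PSp N b) :
    F * G ∈ PSp N (a + b) := by
  have h := Submodule.mul_mem_mul hF hG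
  unfold PSp at h
  rw [Submodule.span_mul_span] at h
  refine Submodule.span_mono ?_ h
  rintro H ⟨F', ⟨s, h1, h2, h3⟩, G', ⟨t, k1, k2, k3⟩, hH⟩
  refine ⟨s + t, ?_, ?_, ?_⟩
  · intro j hj
    rcases Multiset.mem_add.1 hj with h | h
    · exact h1 j h
    · exact k1 j h
  · rw [Multiset.sum_add]
    omega
  · rw [← hH]
    simp only
    rw [h3, k3]
    unfold pm
    rw [Multiset.map_add, Multiset.prod_add]

lemma C_memP {a : ℕ} {F : MvPolynomial (Fin N) ℂ} (c : ℂ) (hF : F ∈ PSp N a) :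
    C c * F ∈ PSp N a := by
  rw [← MvPolynomial.smul_eq_C_mul]
  exact Submodule.smul_mem _ _ hF

lemma pow_memP {a : ℕ} {F : MvPolynomial (Fin N) ℂ} (hF : F ∈ PSp N a) (m : ℕ) :
    F ^ m ∈ PSp N (m * a) := by
  induction m with
  | zero => simpa using one_memP 0
  | succ m ih =>
    rw [pow_succ, Nat.succ_mul]
    exact mul_memP ih hF

lemma Lf_memP {S : Finset ℕ} {D : ℕ} (hS : ∀ n ∈ S, 1 ≤ n ∧ n ≤ D) (q : ℕ → ℂ) :
    (Lf S q : MvPolynomial (Fin N) ℂ) ∈ PSp N D := by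
  unfold Lf
  refine Submodule.sum_mem _ fun n hn => C_memP _ ?_
  exact PSp_mono (hS n hn).2 (psum_mem (hS n hn).1)

lemma Hf_memP {S : Finset ℕ} {D : ℕ} (hS : ∀ n ∈ S, 1 ≤ n ∧ n ≤ D) (q : ℕ → ℂ) (L : ℕ)
    (h : ℕ → ℂ) : (Hf S q L h : MvPolynomial (Fin N) ℂ) ∈ PSp N (L * D) := by
  unfold Hf
  refine Submodule.sum_mem _ fun i hi => C_memP _ ?_
  exact PSp_mono (Nat.mul_le_mul (Finset.mem_range.1 hi).le le_rfl) (pow_memP (Lf_memP hS q) i)

lemma Fp_memP (q : ℕ → ℕ → ℂ) (L : ℕ → ℕ) (h : ℕ → ℕ → ℂ) (c : ℕ) :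
    (Fp q L h c : MvPolynomial (Fin N) ℂ) ∈ PSp N (xd L c) := by
  induction c with
  | zero => simpa [Fp] using one_memP _
  | succ c ih =>
    unfold Fp xd
    rw [Finset.sum_range_succ, add_comm]
    exact mul_memP (Hf_memP (fun n hn => blk_mem hn) _ _ _) ih

/-! ### the class -/

/-- the class of the laws, in terms of the polynomials in the power sums -/
def TC (N R : ℕ) (ν : Measure (Fin N → ℂ)) : Prop :=
  ∀ F G : MvPolynomial (Fin N) ℂ, F ∈ PSp N R → G ∈ PSp N R →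
    ∫ z, eval z F * (starRingEnd ℂ) (eval z G) ∂ν =
      cue (fun z => eval z F * (starRingEnd ℂ) (eval z G))

lemma ip_add_left {A A' : (Fin N → ℤ) → ℂ} (hA : FS A) (hA' : FS A') (B : (Fin N → ℤ) → ℂ) :
    ip (fun d => A d + A' d) B = ip A B + ip A' B := by
  unfold ip
  rw [← Summable.tsum_add (FS_summable (FS_mul_left hA _)) (FS_summable (FS_mul_left hA' _))]
  exact tsum_congr fun d => by ring

lemma kap_add (F G : MvPolynomial (Fin N) ℂ) : kap (F + G) = fun d => kap F d + kap G d := by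
  funext d
  unfold kap
  split_ifs
  · rw [add_mul, coeff_add]
  · rw [add_zero]

lemma cue_add (F F' G : MvPolynomial (Fin N) ℂ) :
    cue (fun z => eval z (F + F') * (starRingEnd ℂ) (eval z G)) =
      cue (fun z => eval z F * (starRingEnd ℂ) (eval z G)) +
      cue (fun z => eval z F' * (starRingEnd ℂ) (eval z G)) := by
  rw [cue_ip, cue_ip, cue_ip, kap_add, ip_add_left (FS_kap F) (FS_kap F'), mul_add]

lemma cue_smul (c : ℂ) (F G : MvPolynomial (Fin N) ℂ) :
    cue (fun z => eval z (c • F) * (starRingEnd ℂ) (eval z G)) =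
      c * cue (fun z => eval z F * (starRingEnd ℂ) (eval z G)) := by
  rw [cue_ip, cue_ip, MvPolynomial.smul_eq_C_mul, kap_C, ip_smul_left]
  ring

lemma cue_conj (F G : MvPolynomial (Fin N) ℂ) :
    (starRingEnd ℂ) (cue (fun z => eval z F * (starRingEnd ℂ) (eval z G))) =
      cue (fun z => eval z G * (starRingEnd ℂ) (eval z F)) := by
  rw [cue_ip, cue_ip, map_mul, ip_conj, map_inv₀, Complex.conj_natCast]

lemma int_conj {ν : Measure (Fin N → ℂ)} (F G : MvPolynomial (Fin N) ℂ) :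
    (starRingEnd ℂ) (∫ z, eval z F * (starRingEnd ℂ) (eval z G) ∂ν) =
      ∫ z, eval z G * (starRingEnd ℂ) (eval z F) ∂ν := by
  rw [← integral_conj]
  refine integral_congr_ae (Filter.Eventually.of_forall fun z => ?_)
  simp only
  rw [map_mul, Complex.conj_conj, mul_comm]

/-- it is enough to know the products of power sums -/
lemma TC_of {R : ℕ} {ν : Measure (Fin N → ℂ)} [IsProbabilityMeasure ν]
    (h1 : ∀ᵐ z ∂ν, ∀ i, ‖z i‖ = 1)
    (hm : ∀ s t : Multiset ℕ, (∀ j ∈ s, 0 < j) → (∀ j ∈ t, 0 < j) → s.sum ≤ R → t.sum ≤ R →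
      ∫ z, eval z (pm s : MvPolynomial (Fin N) ℂ) *
        (starRingEnd ℂ) (eval z (pm t : MvPolynomial (Fin N) ℂ)) ∂ν =
      cue (fun z => eval z (pm s : MvPolynomial (Fin N) ℂ) *
        (starRingEnd ℂ) (eval z (pm t : MvPolynomial (Fin N) ℂ)))) : TC N R ν := by
  have key : ∀ G : MvPolynomial (Fin N) ℂ, (∀ F ∈ PSet N R,
      ∫ z, eval z F * (starRingEnd ℂ) (eval z G) ∂ν =
      cue (fun z => eval z F * (starRingEnd ℂ) (eval z G))) → ∀ F ∈ PSp N R,
      ∫ z, eval z F * (starRingEnd ℂ) (eval z G) ∂ν =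
      cue (fun z => eval z F * (starRingEnd ℂ) (eval z G)) := by
    intro G hG F hF
    unfold PSp at hF
    induction hF using Submodule.span_induction with
    | mem F hF => exact hG F hF
    | zero =>
      have h2 := cue_smul 0 (1 : MvPolynomial (Fin N) ℂ) G
      rw [zero_smul, zero_mul] at h2
      rw [h2]
      simp
    | add F F' _ _ ih ih' =>
      rw [cue_add, ← ih, ← ih', ← integral_add (poly_int h1 _ _) (poly_int h1 _ _)]
      refine integral_congr_ae (Filter.Eventually.of_forall fun z => ?_)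
      simp only [map_add]
      ring
    | smul c F _ ih =>
      rw [cue_smul, ← ih, ← integral_const_mul]
      refine integral_congr_ae (Filter.Eventually.of_forall fun z => ?_)
      simp only [MvPolynomial.smul_eval]
      ring
  intro F G hF hG
  refine key G ?_ F hF
  rintro _ ⟨s, hs1, hs2, rfl⟩
  rw [← int_conj, ← cue_conj]
  congr 1
  refine key (pm s) ?_ G hG
  rintro _ ⟨t, ht1, ht2, rfl⟩
  exact hm t s ht1 hs1 ht2 hs2

end

end Pool.Agent.H481.GA
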