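import Pool.Agent.H481.GA5
import Pool.Agent.H481.GA7

/-!
The mean of the power of the characteristic polynomial at a point.
-/

open Finset MeasureTheory MvPolynomial
open Pool.Agent.R319.UM

namespace Pool.Agent.H481.GA

noncomputable section

variable {N R : ℕ} {ν : Measure (Fin N → ℂ)}

lemma mean_sq [IsProbabilityMeasure ν] (h1 : ∀ᵐ z ∂ν, ∀ i, ‖z i‖ = 1) (hm : TC N R ν)
    {G : MvPolynomial (Fin N) ℂ} (hG : G ∈ PSp N R) {v : ℝ}
    (hv : cue (fun z => eval z G * (starRingEnd ℂ) (eval z G)) = (v : ℂ)) :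
    Integrable (fun z => ‖eval z G‖ ^ 2) ν ∧ ∫ z, ‖eval z G‖ ^ 2 ∂ν = v := by
  have hi := poly_int h1 G G
  have e : ∀ z : Fin N → ℂ, eval z G * (starRingEnd ℂ) (eval z G) = ((‖eval z G‖ ^ 2 : ℝ) : ℂ) := by
    intro z
    rw [Complex.mul_conj, Complex.normSq_eq_norm_sq]
  have h2 := hm G G hG hG
  rw [hv] at h2
  simp only [e] at h2 hi
  rw [integral_complex_ofReal] at h2
  refine ⟨?_, by exact_mod_cast h2⟩
  have h3 := hi.re
  refine h3.congr (Filter.Eventually.of_forall fun z => ?_)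
  exact Complex.ofReal_re _

lemma exp_norm_one (θ : ℝ) : ‖Complex.exp (-(Complex.I * θ))‖ = 1 := by
  have : -(Complex.I * (θ : ℂ)) = ((-θ : ℝ) : ℂ) * Complex.I := by push_cast; ring
  rw [this, Complex.norm_exp_ofReal_mul_I]

lemma sj_pos (j : ℕ) : 0 < MO.sj j := by
  unfold MO.sj
  positivity

theorem mean_at {k : ℝ} (hk : 0 < k) {K A t : ℕ} (hN : 0 < N) (hRN : R ≤ N)
    [IsProbabilityMeasure ν] (h1 : ∀ᵐ z ∂ν, ∀ i, ‖z i‖ = 1) (hm : TC N R ν)
    (hA : 9 * k ≤ A) (hA2 : 2 ≤ A) (ht : 1 ≤ t) (hdeg : (4 * A + 1) * t * 2 ^ K ≤ R)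
    {B : ℝ} (hB : 0 < B) (htB : 2 * Real.exp (4 * k * B) ≤ t) (hNB : (N : ℝ) ≤ B * t * 2 ^ K)
    (θ : ℝ) :
    ∫ z, ‖∏ j, (Complex.exp (Complex.I * θ) - z j)‖ ^ (2 * k) ∂ν ≤
      4 * Real.exp (k ^ 2) * (2 : ℝ) ^ ((K : ℝ) * k ^ 2) *
        (Real.exp (2 * k * (N / 2 ^ K)) + 2) := by
  set w : ℂ := Complex.exp (-(Complex.I * θ)) with hw
  have hw1 : ‖w‖ = 1 := exp_norm_one θ
  have htr : (1 : ℝ) ≤ t := by exact_mod_cast ht
  set T : ℕ → ℝ := fun a => (t : ℝ) * (MO.sj (K - 1 - a) : ℝ) with hT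
  set l : ℕ → ℕ := fun a => A * t * MO.sj (K - 1 - a) with hl
  set m : ℕ → ℕ := fun c => t * 2 ^ (K - 1 - c) with hmm
  have hTpos : ∀ a, 0 < T a := by
    intro a
    have : (0 : ℝ) < MO.sj (K - 1 - a) := by exact_mod_cast sj_pos _
    rw [hT]
    positivity
  have hl1 : ∀ a, 1 ≤ l a := by
    intro a
    have h2 := sj_pos (K - 1 - a)
    have : 0 < A * t * MO.sj (K - 1 - a) := by positivity
    exact this
  have hkT : ∀ a, k * T a ≤ l a / 9 := by
    intro a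
    have h3 : (0 : ℝ) ≤ (t : ℝ) * (MO.sj (K - 1 - a) : ℝ) := by positivity
    have h4 := mul_le_mul_of_nonneg_right hA h3
    simp only [hT, hl]
    push_cast
    linarith
  set DD : ℕ → ℝ := fun c => ∏ a ∈ range c, ((1 - (1 / 2 : ℝ) ^ l a)⁻¹) ^ 2 with hDD
  have hDD4 : ∀ c, c ≤ K → DD c ≤ 4 := fun c hc =>
    MO.prod_D (A := A) (t := t) (by nlinarith) hc
  have hDD0 : ∀ c, 0 ≤ DD c := fun c => Finset.prod_nonneg fun a _ => by positivity
  set F0 : ℕ → MvPolynomial (Fin N) ℂ := fun c => Fp (fun _ => wq c w) l (fun _ => GA.ht k) c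
    with hF0
  -- the pointwise inequality
  have hpt : ∀ᵐ z ∂ν, ‖∏ j, (Complex.exp (Complex.I * θ) - z j)‖ ^ (2 * k) ≤
      Real.exp (2 * k * (N / 2 ^ K)) * (DD K * ‖eval z (F0 K)‖ ^ 2) +
      ∑ c ∈ range K, Real.exp (2 * k * (N / 2 ^ c)) * ∑ b ∈ Finset.Ioc c K,
        DD c * ((T c ^ (2 * m c))⁻¹ * ‖eval z (Lf (blk c) (wq b w) ^ m c * F0 c)‖ ^ 2) := by
    filter_upwards [h1] with z hz
    have h2 := MO.multiscale hk (N := N) (K := K) (Pn w z)
      (Z := ‖∏ j, (Complex.exp (Complex.I * θ) - z j)‖ ^ (2 * k))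
      (fun c _ => pointwise_maj hk hz θ c) T hTpos l m hl1 hkT
      (fun l hl z hz => MO.tr_bound hl hz)
    have hprod : ∀ c, ∏ a ∈ range c,
        ((1 - (1 / 2 : ℝ) ^ l a)⁻¹ * ‖MO.tr (l a) (-(k : ℂ) * MO.Qf (Pn w z) a c)‖) ^ 2 =
        DD c * ‖eval z (F0 c)‖ ^ 2 := by
      intro c
      rw [hF0, hDD]
      simp only
      rw [Fp_eval, norm_prod, ← Finset.prod_pow, ← Finset.prod_mul_distrib]
      refine Finset.prod_congr rfl fun a _ => ?_
      rw [eval_tr, mul_pow]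
    refine h2.trans (le_of_eq ?_)
    rw [hprod]
    congr 1
    refine Finset.sum_congr rfl fun c _ => ?_
    rw [hprod, mul_assoc, Finset.mul_sum]
    congr 1
    refine Finset.sum_congr rfl fun b _ => ?_
    rw [map_mul, map_pow, eval_wq, norm_mul, norm_pow, div_pow, div_eq_mul_inv]
    ring
  -- degrees
  have hxd : ∀ c, c < K → xd l c + m c * 2 ^ (c + 1) ≤ (4 * A + 1) * t * 2 ^ K := fun c hc =>
    MO.degree_budget A t hc
  have hxdK : xd l K ≤ (4 * A + 1) * t * 2 ^ K := MO.degree_budget' A t K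
  -- means
  have hm0 := mean_sq h1 hm (G := F0 K) (PSp_mono (hxdK.trans hdeg) (Fp_memP _ _ _ K))
    (cue_Fp hN (fun _ => wq K w) l (fun _ => GA.ht k) K (hxdK.trans (hdeg.trans hRN)))
  have hmc : ∀ c ∈ range K, ∀ b : ℕ, Integrable (fun z =>
      ‖eval z (Lf (blk c) (wq b w) ^ m c * F0 c)‖ ^ 2) ν ∧
      ∫ z, ‖eval z (Lf (blk c) (wq b w) ^ m c * F0 c)‖ ^ 2 ∂ν =
        ((m c).factorial : ℝ) * WQ (blk c) (wq b w) ^ m c *
          ∏ a ∈ range c, VQ (blk a) (wq c w) (l a) (GA.ht k) := by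
    intro c hc b
    have hc' := hxd c (Finset.mem_range.1 hc)
    refine mean_sq h1 hm ?_ (cue_Fp_pow hN (fun _ => wq c w) l (fun _ => GA.ht k) c (wq b w) (m c)
      (hc'.trans (hdeg.trans hRN)))
    refine PSp_mono ?_ (mul_memP (pow_memP (Lf_memP (D := 2 ^ (c + 1))
      (fun n hn => blk_mem hn) _) (m c)) (Fp_memP _ _ _ c))
    rw [add_comm]
    exact hc'.trans hdeg
  have hint : Integrable (fun z =>
      Real.exp (2 * k * (N / 2 ^ K)) * (DD K * ‖eval z (F0 K)‖ ^ 2) +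
      ∑ c ∈ range K, Real.exp (2 * k * (N / 2 ^ c)) * ∑ b ∈ Finset.Ioc c K,
        DD c * ((T c ^ (2 * m c))⁻¹ * ‖eval z (Lf (blk c) (wq b w) ^ m c * F0 c)‖ ^ 2)) ν := by
    refine ((hm0.1.const_mul _).const_mul _).add (integrable_finsetSum _ fun c hc => ?_)
    refine (integrable_finsetSum _ fun b _ => ?_).const_mul _
    exact ((hmc c hc b).1.const_mul _).const_mul _
  refine (integral_mono_of_nonneg (Filter.Eventually.of_forall fun z => by positivity) hint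
    hpt).trans ?_
  rw [integral_add ((hm0.1.const_mul _).const_mul _) (integrable_finsetSum _ fun c hc =>
    (integrable_finsetSum _ fun b _ => ((hmc c hc b).1.const_mul _).const_mul _).const_mul _),
    integral_const_mul, integral_const_mul, hm0.2,
    integral_finsetSum _ fun c hc =>
    (integrable_finsetSum _ fun b _ => ((hmc c hc b).1.const_mul _).const_mul _).const_mul _]
  have hterm : ∀ c ∈ range K, ∫ z, Real.exp (2 * k * (N / 2 ^ c)) * ∑ b ∈ Finset.Ioc c K,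
        DD c * ((T c ^ (2 * m c))⁻¹ * ‖eval z (Lf (blk c) (wq b w) ^ m c * F0 c)‖ ^ 2) ∂ν ≤
      4 * Real.exp (k ^ 2) * (Real.exp (2 * k * (N / 2 ^ c)) * (2 : ℝ) ^ ((c : ℝ) * k ^ 2) *
      (((K - c : ℕ) : ℝ) * (((t * 2 ^ (K - 1 - c)).factorial : ℝ) /
        ((t : ℝ) * (MO.sj (K - 1 - c) : ℝ)) ^ (2 * (t * 2 ^ (K - 1 - c)))))) := by
    intro c hc
    have hcK := Finset.mem_range.1 hc
    rw [integral_const_mul, integral_finsetSum _ fun b _ =>
      ((hmc c hc b).1.const_mul _).const_mul _]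
    have hb : ∀ b ∈ Finset.Ioc c K, ∫ z, DD c * ((T c ^ (2 * m c))⁻¹ *
        ‖eval z (Lf (blk c) (wq b w) ^ m c * F0 c)‖ ^ 2) ∂ν ≤
        4 * ((T c ^ (2 * m c))⁻¹ * (((m c).factorial : ℝ) *
          (Real.exp (k ^ 2) * (2 : ℝ) ^ ((c : ℝ) * k ^ 2)))) := by
      intro b hb
      rw [integral_const_mul, integral_const_mul, (hmc c hc b).2]
      have hTp := hTpos c
      have i1 : WQ (blk c) (wq b w) ^ m c ≤ 1 :=
        pow_le_one₀ (WQ_nonneg _ _)
          ((WQ_le (Finset.mem_Ioc.1 hb).1 hw1).trans (blk_sum_le c))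
      have i2 := prod_VQ_le k hw1 l c
      have i3 : 0 ≤ ∏ a ∈ range c, VQ (blk a) (wq c w) (l a) (GA.ht k) :=
        Finset.prod_nonneg fun a _ => VQ_nonneg _ _ _ _
      have i4 : 0 ≤ WQ (blk c) (wq b w) ^ m c := pow_nonneg (WQ_nonneg _ _) _
      have i5 : (0 : ℝ) ≤ ((m c).factorial : ℝ) := by positivity
      have i6 : ((m c).factorial : ℝ) * WQ (blk c) (wq b w) ^ m c *
          ∏ a ∈ range c, VQ (blk a) (wq c w) (l a) (GA.ht k) ≤
          ((m c).factorial : ℝ) * (Real.exp (k ^ 2) * (2 : ℝ) ^ ((c : ℝ) * k ^ 2)) := by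
        refine mul_le_mul ?_ i2 i3 i5
        calc ((m c).factorial : ℝ) * WQ (blk c) (wq b w) ^ m c ≤ ((m c).factorial : ℝ) * 1 :=
              mul_le_mul_of_nonneg_left i1 i5
          _ = _ := mul_one _
      have i7 : (0 : ℝ) ≤ (T c ^ (2 * m c))⁻¹ := by positivity
      refine mul_le_mul (hDD4 c hcK.le) (mul_le_mul_of_nonneg_left i6 i7) ?_ (by norm_num)
      positivity
    have hsum := Finset.sum_le_sum hb
    rw [Finset.sum_const, Nat.card_Ioc, nsmul_eq_mul] at hsum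
    have hfin := mul_le_mul_of_nonneg_left hsum (Real.exp_pos (2 * k * (N / 2 ^ c))).le
    refine hfin.trans (le_of_eq ?_)
    simp only [hT, hmm]
    rw [div_eq_mul_inv]
    ring
  have hst := MO.sum_terms hk hB htB hNB
  have hs := Finset.sum_le_sum hterm
  rw [← Finset.mul_sum] at hs
  have hv := prod_VQ_le k hw1 l K
  have hv0 : 0 ≤ ∏ a ∈ range K, VQ (blk a) (wq K w) (l a) (GA.ht k) :=
    Finset.prod_nonneg fun a _ => VQ_nonneg _ _ _ _
  have j1 : DD K * ∏ a ∈ range K, VQ (blk a) (wq K w) (l a) (GA.ht k) ≤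
      4 * (Real.exp (k ^ 2) * (2 : ℝ) ^ ((K : ℝ) * k ^ 2)) :=
    mul_le_mul (hDD4 K le_rfl) hv hv0 (by norm_num)
  have j2 := mul_le_mul_of_nonneg_left j1 (Real.exp_pos (2 * k * (N / 2 ^ K))).le
  have j3 := mul_le_mul_of_nonneg_left hst (by positivity : 0 ≤ 4 * Real.exp (k ^ 2))
  refine (add_le_add j2 (hs.trans j3)).trans (le_of_eq ?_)
  ring

end

end Pool.Agent.H481.GA
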