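import Pool.Agent.H481.MO0

/-!
Bessel inequality in the Hardy space (project MO, part S5).
-/


open Finset

namespace Pool.Agent.H481.MO.H969

open Complex Metric MeasureTheory

/-- the function -/
noncomputable def ff {N : ℕ} (k : ℝ) (z : Fin N → ℂ) (w : ℂ) : ℂ := ∏ j, (1 - z j * w) ^ (k : ℂ)

/-- the logarithmic derivative -/
noncomputable def Sf {N : ℕ} (z : Fin N → ℂ) (w : ℂ) : ℂ := ∑ j, z j * (1 - z j * w)⁻¹

theorem re_nonneg {a w : ℂ} (ha : ‖a‖ = 1) (hw : ‖w‖ ≤ 1) : 0 ≤ (1 - a * w).re := by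
  have h1 : (a * w).re ≤ ‖a * w‖ := re_le_norm _
  rw [norm_mul, ha, one_mul] at h1
  rw [sub_re, one_re]
  linarith

theorem re_pos {a w : ℂ} (ha : ‖a‖ = 1) (hw : ‖w‖ < 1) : 0 < (1 - a * w).re := by
  have h1 : (a * w).re ≤ ‖a * w‖ := re_le_norm _
  rw [norm_mul, ha, one_mul] at h1
  rw [sub_re, one_re]
  linarith

theorem ne_zero {a w : ℂ} (ha : ‖a‖ = 1) (hw : ‖w‖ < 1) : 1 - a * w ≠ 0 := by
  intro h
  have := re_pos ha hw
  rw [h, zero_re] at this
  exact lt_irrefl _ this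

theorem slit {a w : ℂ} (ha : ‖a‖ = 1) (hw : ‖w‖ < 1) : 1 - a * w ∈ slitPlane :=
  Or.inl (re_pos ha hw)

theorem ff_eq {N : ℕ} {k : ℝ} {z : Fin N → ℂ} (hz : ∀ j, ‖z j‖ = 1) {w : ℂ} (hw : ‖w‖ < 1) :
    ff k z w = Complex.exp (k * ∑ j, Complex.log (1 - z j * w)) := by
  unfold ff
  rw [mul_sum, Complex.exp_sum]
  refine prod_congr rfl fun j _ => ?_
  rw [cpow_def_of_ne_zero (ne_zero (hz j) hw), mul_comm]

theorem ball_nhds {w : ℂ} (hw : ‖w‖ < 1) : ∀ᶠ v in nhds w, ‖v‖ < 1 :=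
  (isOpen_lt continuous_norm continuous_const).mem_nhds hw

theorem ff_deriv {N : ℕ} {k : ℝ} {z : Fin N → ℂ} (hz : ∀ j, ‖z j‖ = 1) {w : ℂ} (hw : ‖w‖ < 1) :
    HasDerivAt (ff k z) (Sf z w * (-(k : ℂ) * ff k z w)) w := by
  have h1 : ∀ j ∈ (univ : Finset (Fin N)), HasDerivAt (fun v => Complex.log (1 - z j * v))
      (-(z j) / (1 - z j * w)) w := by
    intro j _
    have h2 : HasDerivAt (fun v => 1 - z j * v) (-(z j)) w := by
      have h3 := ((hasDerivAt_id w).const_mul (z j)).const_sub 1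
      rw [mul_one] at h3
      exact h3
    exact h2.clog (slit (hz j) hw)
  have h4 := (HasDerivAt.fun_sum h1).const_mul (k : ℂ)
  have h5 := h4.cexp
  have h6 : (fun v => Complex.exp (k * ∑ j, Complex.log (1 - z j * v))) =ᶠ[nhds w] ff k z := by
    filter_upwards [ball_nhds hw] with v hv
    exact (ff_eq hz hv).symm
  have h7 := h5.congr_of_eventuallyEq h6.symm
  rw [← ff_eq hz hw] at h7
  have h8 : ff k z w * ((k : ℂ) * ∑ j, -(z j) / (1 - z j * w)) =
      Sf z w * (-(k : ℂ) * ff k z w) := by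
    unfold Sf
    have : ∑ j, -(z j) / (1 - z j * w) = -∑ j, z j * (1 - z j * w)⁻¹ := by
      rw [← sum_neg_distrib]
      exact sum_congr rfl fun j _ => by ring
    rw [this]
    ring
  rw [h8] at h7
  exact h7

theorem geo_iter {a : ℂ} (ha : ‖a‖ = 1) (n : ℕ) : ∀ w : ℂ, ‖w‖ < 1 →
    iteratedDeriv n (fun v => a * (1 - a * v)⁻¹) w =
      (n.factorial : ℂ) * a ^ (n + 1) * ((1 - a * w)⁻¹) ^ (n + 1) := by
  induction n with
  | zero =>
    intro w hw
    rw [iteratedDeriv_zero]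
    simp
  | succ n ih =>
    intro w hw
    rw [iteratedDeriv_succ]
    have h1 : iteratedDeriv n (fun v => a * (1 - a * v)⁻¹) =ᶠ[nhds w]
        fun v => (n.factorial : ℂ) * a ^ (n + 1) * ((1 - a * v)⁻¹) ^ (n + 1) := by
      filter_upwards [ball_nhds hw] with v hv
      exact ih v hv
    rw [h1.deriv_eq]
    have h2 : HasDerivAt (fun v => 1 - a * v) (-a) w := by
      have h3 := ((hasDerivAt_id w).const_mul a).const_sub 1
      rw [mul_one] at h3
      exact h3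
    have h3 := ((h2.fun_inv (ne_zero ha hw)).fun_pow (n + 1)).const_mul
      ((n.factorial : ℂ) * a ^ (n + 1))
    rw [h3.deriv, Nat.factorial_succ]
    push_cast
    have e : - -a / (1 - a * w) ^ 2 = a * ((1 - a * w)⁻¹) ^ 2 := by
      rw [neg_neg, div_eq_mul_inv, inv_pow]
    rw [e]
    ring

theorem Sf_iter {N : ℕ} {z : Fin N → ℂ} (hz : ∀ j, ‖z j‖ = 1) (n : ℕ) :
    iteratedDeriv n (Sf z) 0 = (n.factorial : ℂ) * ∑ j, z j ^ (n + 1) := by
  have h1 : ∀ j ∈ (univ : Finset (Fin N)), ContDiffAt ℂ n (fun w => z j * (1 - z j * w)⁻¹) 0 := by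
    intro j _
    have h2 : (1 - z j * (0:ℂ)) ≠ 0 := ne_zero (hz j) (by simp)
    exact contDiffAt_const.mul
      ((contDiffAt_const.sub (contDiffAt_const.mul contDiffAt_id)).inv h2)
  unfold Sf
  rw [iteratedDeriv_fun_sum h1, mul_sum]
  refine sum_congr rfl fun j _ => ?_
  rw [geo_iter (hz j) n 0 (by simp)]
  simp

theorem ff_analytic {N : ℕ} {k : ℝ} {z : Fin N → ℂ} (hz : ∀ j, ‖z j‖ = 1) :
    DifferentiableOn ℂ (ff k z) (ball 0 1) := by
  intro w hw
  exact (ff_deriv hz (mem_ball_zero_iff.1 hw)).differentiableAt.differentiableWithinAt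

theorem ff_zero {N : ℕ} {k : ℝ} {z : Fin N → ℂ} : ff k z 0 = 1 := by
  unfold ff
  simp

theorem ff_iter {N : ℕ} {k : ℝ} {z : Fin N → ℂ} (hz : ∀ j, ‖z j‖ = 1) (c : ℕ → ℂ)
    (h0 : c 0 = 1)
    (hc : ∀ m : ℕ, ((m : ℂ) + 1) * c (m + 1) =
      -(k : ℂ) * ∑ n ∈ Finset.range (m + 1), (∑ j, z j ^ (n + 1)) * c (m - n)) (m : ℕ) :
    iteratedDeriv m (ff k z) 0 = (m.factorial : ℂ) * c m := by
  induction m using Nat.strong_induction_on with
  | _ m ih =>
    rcases m with _ | m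
    · rw [iteratedDeriv_zero, ff_zero, h0]
      simp
    · rw [iteratedDeriv_succ']
      have h1 : deriv (ff k z) =ᶠ[nhds 0] fun w => Sf z w * (-(k : ℂ) * ff k z w) := by
        filter_upwards [ball_nhds (w := 0) (by simp)] with v hv
        exact (ff_deriv hz hv).deriv
      rw [h1.iteratedDeriv_eq]
      have hS : ContDiffAt ℂ m (Sf z) 0 := by
        unfold Sf
        apply ContDiffAt.sum
        intro j _
        have h2 : (1 - z j * (0:ℂ)) ≠ 0 := ne_zero (hz j) (by simp)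
        exact contDiffAt_const.mul
          ((contDiffAt_const.sub (contDiffAt_const.mul contDiffAt_id)).inv h2)
      have hF : ContDiffAt ℂ m (ff k z) 0 :=
        ((ff_analytic hz).analyticAt (ball_mem_nhds 0 one_pos)).contDiffAt
      rw [iteratedDeriv_fun_mul hS (contDiffAt_const.mul hF)]
      have h2 : ∀ i ∈ range (m + 1), (m.choose i : ℂ) * iteratedDeriv i (Sf z) 0 *
          iteratedDeriv (m - i) (fun w => -(k : ℂ) * ff k z w) 0 =
          (m.factorial : ℂ) * (-(k : ℂ) * ((∑ j, z j ^ (i + 1)) * c (m - i))) := by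
        intro i hi
        have hi' : i ≤ m := Nat.lt_succ_iff.1 (mem_range.1 hi)
        rw [iteratedDeriv_const_mul_field, Sf_iter hz, ih (m - i) (by omega)]
        have h3 : (m.choose i : ℂ) * (i.factorial : ℂ) * ((m - i).factorial : ℂ) =
            (m.factorial : ℂ) := by
          exact_mod_cast Nat.choose_mul_factorial_mul_factorial hi'
        rw [← h3]
        ring
      rw [sum_congr rfl h2, ← mul_sum, ← mul_sum, ← hc m, Nat.factorial_succ]
      push_cast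
      ring

theorem ff_cont {N : ℕ} {k : ℝ} (hk : 0 < k) {z : Fin N → ℂ} (hz : ∀ j, ‖z j‖ = 1) :
    ContinuousOn (ff k z) (closedBall 0 1) := by
  unfold ff
  apply continuousOn_finsetProd
  intro j _ w hw
  have h1 : ContinuousAt (fun x : ℂ × ℂ => x.1 ^ x.2) (1 - z j * w, (k : ℂ)) :=
    continuousAt_cpow_of_re_pos (Or.inl (re_nonneg (hz j) (mem_closedBall_zero_iff.1 hw)))
      (by simpa using hk)
  have h2 : ContinuousAt (fun v : ℂ => ((1 - z j * v, (k : ℂ)) : ℂ × ℂ)) w := by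
    fun_prop
  exact (ContinuousAt.comp (f := fun v : ℂ => ((1 - z j * v, (k : ℂ)) : ℂ × ℂ)) h1
    h2).continuousWithinAt

/-- the function on the circle -/
noncomputable def phi {N : ℕ} (k : ℝ) (z : Fin N → ℂ) (θ : ℝ) : ℂ := ff k z (Complex.exp (θ * I))

theorem phi_cont {N : ℕ} {k : ℝ} (hk : 0 < k) {z : Fin N → ℂ} (hz : ∀ j, ‖z j‖ = 1) :
    Continuous (phi k z) := by
  unfold phi
  have h1 : Continuous (fun θ : ℝ => Complex.exp (θ * I)) := by fun_prop
  exact (ff_cont hk hz).comp_continuous h1 (fun θ => by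
    rw [mem_closedBall_zero_iff, Complex.norm_exp_ofReal_mul_I])

theorem phi_norm {N : ℕ} (k : ℝ) (z : Fin N → ℂ) (θ : ℝ) :
    ‖phi k z θ‖ = ‖∏ j, (1 - z j * Complex.exp (θ * I))‖ ^ k := by
  unfold phi ff
  rw [norm_prod, norm_prod, ← Real.finsetProd_rpow _ _ (fun j _ => norm_nonneg _)]
  exact prod_congr rfl fun j _ => norm_cpow_real _ _

theorem coeff_eq {N : ℕ} {k : ℝ} (hk : 0 < k) {z : Fin N → ℂ} (hz : ∀ j, ‖z j‖ = 1) (c : ℕ → ℂ)
    (h0 : c 0 = 1)
    (hc : ∀ m : ℕ, ((m : ℂ) + 1) * c (m + 1) =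
      -(k : ℂ) * ∑ n ∈ Finset.range (m + 1), (∑ j, z j ^ (n + 1)) * c (m - n)) (m : ℕ) :
    fourierCoeffOn Real.two_pi_pos (phi k z) (m : ℤ) = c m := by
  have h1 := circleIntegral_one_div_sub_center_pow_smul_of_differentiable_on_off_countable
    (c := 0) (s := ∅) one_pos m Set.countable_empty (ff_cont hk hz) (fun w hw =>
      (ff_deriv hz (mem_ball_zero_iff.1 hw.1)).differentiableAt)
  rw [ff_iter hz c h0 hc m] at h1
  have hm0 : (m.factorial : ℂ) ≠ 0 := by exact_mod_cast (Nat.factorial_pos m).ne'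
  have h2 : (2 * (Real.pi : ℂ) * I / (m.factorial : ℂ)) • ((m.factorial : ℂ) * c m) =
      I * (2 * (Real.pi : ℂ) * c m) := by
    rw [smul_eq_mul]
    field_simp
  rw [h2, circleIntegral] at h1
  have h3 : ∫ θ in (0:ℝ)..2 * Real.pi, deriv (circleMap 0 1) θ •
      (fun v => (1 / (v - 0) ^ (m + 1)) • ff k z v) (circleMap 0 1 θ) =
      ∫ θ in (0:ℝ)..2 * Real.pi, I * ((Complex.exp (θ * I) ^ m)⁻¹ * phi k z θ) := by
    apply intervalIntegral.integral_congr
    intro θ _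
    have he : Complex.exp (θ * I) ≠ 0 := Complex.exp_ne_zero _
    have hcm : circleMap 0 1 θ = Complex.exp (θ * I) := by
      rw [circleMap]; push_cast; ring
    simp only [deriv_circleMap, hcm, sub_zero, smul_eq_mul, phi]
    rw [pow_succ]
    field_simp
  have h4 : I * ∫ θ in (0:ℝ)..2 * Real.pi, ((Complex.exp (θ * I) ^ m)⁻¹ * phi k z θ) =
      I * (2 * (Real.pi : ℂ) * c m) := by
    rw [← h1, ← intervalIntegral.integral_const_mul]
    exact h3.symm
  have h5 := mul_left_cancel₀ I_ne_zero h4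
  rw [fourierCoeffOn_eq_integral]
  have h6 : ∫ x in (0:ℝ)..2 * Real.pi, fourier (-(m:ℤ)) (x : AddCircle (2 * Real.pi - 0)) •
      phi k z x = ∫ θ in (0:ℝ)..2 * Real.pi, ((Complex.exp (θ * I) ^ m)⁻¹ * phi k z θ) := by
    apply intervalIntegral.integral_congr
    intro θ _
    have hpi : (Real.pi : ℂ) ≠ 0 := by exact_mod_cast Real.pi_ne_zero
    simp only [fourier_coe_apply, smul_eq_mul]
    congr 1
    rw [← Complex.exp_nat_mul, ← Complex.exp_neg]
    congr 1
    push_cast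
    rw [sub_zero]
    field_simp
  rw [h6, h5]
  have hpi : (Real.pi : ℝ) ≠ 0 := Real.pi_ne_zero
  rw [sub_zero, Complex.real_smul]
  push_cast
  have hpi : (Real.pi : ℂ) ≠ 0 := by exact_mod_cast Real.pi_ne_zero
  field_simp

theorem main {N : ℕ} {k : ℝ} (hk : 0 < k) {z : Fin N → ℂ} (hz : ∀ j, ‖z j‖ = 1) (c : ℕ → ℂ)
    (h0 : c 0 = 1)
    (hc : ∀ m : ℕ, ((m : ℂ) + 1) * c (m + 1) =
      -(k : ℂ) * ∑ n ∈ Finset.range (m + 1), (∑ j, z j ^ (n + 1)) * c (m - n)) (M : ℕ) :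
    ∑ m ∈ Finset.range (M + 1), ‖c m‖ ^ 2 ≤
      (2 * Real.pi)⁻¹ * ∫ θ in Set.Ioc (0 : ℝ) (2 * Real.pi),
        ‖∏ j, (1 - z j * Complex.exp (θ * I))‖ ^ (2 * k) := by
  have hmem : MemLp (phi k z) 2 (volume.restrict (Set.Ioc 0 (2 * Real.pi))) := by
    obtain ⟨C, hC⟩ := isCompact_Icc.exists_bound_of_continuousOn
      (s := Set.Icc (0:ℝ) (2 * Real.pi)) (phi_cont hk hz).continuousOn
    apply MemLp.of_bound (phi_cont hk hz).aestronglyMeasurable C
    filter_upwards [ae_restrict_mem measurableSet_Ioc] with θ hθ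
    exact hC θ ⟨hθ.1.le, hθ.2⟩
  have h1 := hasSum_sq_fourierCoeffOn Real.two_pi_pos hmem
  have h2 := sum_le_hasSum ((range (M + 1)).map Nat.castEmbedding) (fun _ _ => sq_nonneg _) h1
  rw [sum_map] at h2
  have h3 : ∀ m ∈ range (M + 1),
      ‖fourierCoeffOn Real.two_pi_pos (phi k z) (Nat.castEmbedding m)‖ ^ 2 = ‖c m‖ ^ 2 := by
    intro m _
    rw [← coeff_eq hk hz c h0 hc m]
    rfl
  rw [sum_congr rfl h3] at h2
  refine h2.trans (le_of_eq ?_)
  rw [sub_zero, smul_eq_mul, intervalIntegral.integral_of_le Real.two_pi_pos.le]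
  congr 1
  apply setIntegral_congr_fun measurableSet_Ioc
  intro θ _
  simp only
  rw [phi_norm, ← Real.rpow_natCast, ← Real.rpow_mul (norm_nonneg _)]
  congr 1
  push_cast
  ring

end Pool.Agent.H481.MO.H969

namespace Pool.Agent.H481.MO

theorem bessel {N : ℕ} {k : ℝ} (hk : 0 < k) (z : Fin N → ℂ) (hz : ∀ j, ‖z j‖ = 1)
    (c : ℕ → ℂ) (h0 : c 0 = 1)
    (hc : ∀ m : ℕ, ((m : ℂ) + 1) * c (m + 1) =
      -(k : ℂ) * ∑ n ∈ Finset.range (m + 1), (∑ j, z j ^ (n + 1)) * c (m - n)) (M : ℕ) :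
    ∑ m ∈ Finset.range (M + 1), ‖c m‖ ^ 2 ≤
      (2 * Real.pi)⁻¹ * ∫ θ in Set.Ioc (0 : ℝ) (2 * Real.pi),
        ‖∏ j, (Complex.exp (Complex.I * θ) - z j)‖ ^ (2 * k) := by
  have hz' : ∀ j, ‖(starRingEnd ℂ) (z j)‖ = 1 := fun j => by rw [Complex.norm_conj, hz j]
  have h := H969.main hk hz' (fun m => (starRingEnd ℂ) (c m)) (by rw [h0, map_one]) (fun m => by
    have h1 := congrArg (starRingEnd ℂ) (hc m)
    simp only [map_mul, map_add, map_sum, map_pow, map_neg, map_one, Complex.conj_ofReal,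
      map_natCast] at h1
    exact h1) M
  simp only [Complex.norm_conj] at h
  refine h.trans (le_of_eq ?_)
  congr 1
  apply MeasureTheory.setIntegral_congr_fun measurableSet_Ioc
  intro θ _
  simp only
  congr 1
  rw [norm_prod, norm_prod]
  refine prod_congr rfl fun j _ => ?_
  have h1 : z j * (1 - (starRingEnd ℂ) (z j) * Complex.exp (θ * Complex.I)) =
      z j - Complex.exp (Complex.I * θ) := by
    have h2 : z j * (starRingEnd ℂ) (z j) = 1 := by
      rw [Complex.mul_conj, Complex.normSq_eq_norm_sq, hz j]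
      norm_num
    rw [mul_sub, ← mul_assoc, h2, mul_one, one_mul, mul_comm (θ : ℂ)]
  calc ‖1 - (starRingEnd ℂ) (z j) * Complex.exp (θ * Complex.I)‖ =
        ‖z j * (1 - (starRingEnd ℂ) (z j) * Complex.exp (θ * Complex.I))‖ := by
        rw [norm_mul, hz j, one_mul]
    _ = ‖Complex.exp (Complex.I * θ) - z j‖ := by rw [h1, norm_sub_rev]

end Pool.Agent.H481.MO
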