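import Pool.Agent.H481.GA6
import Pool.Agent.H481.MO6

/-!
The upper bound for the moments of all orders.
-/

open Finset MeasureTheory MvPolynomial
open Pool.Agent.R319.UM

namespace Pool.Agent.H481.GA

noncomputable section

/-- the mean over the circle of the power of the absolute value of the polynomial -/
def mp {N : ℕ} (k : ℝ) (z : Fin N → ℂ) : ℝ :=
  (2 * Real.pi)⁻¹ * ∫ θ in Set.Ioc (0 : ℝ) (2 * Real.pi),
    ‖∏ j, (Complex.exp (Complex.I * θ) - z j)‖ ^ (2 * k)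

lemma TC_mono {N R R' : ℕ} (h : R' ≤ R) {ν : Measure (Fin N → ℂ)} (hT : TC N R ν) : TC N R' ν :=
  fun F G hF hG => hT F G (PSp_mono h hF) (PSp_mono h hG)

lemma norm_le_two {N : ℕ} {z : Fin N → ℂ} (hz : ∀ j, ‖z j‖ = 1) (θ : ℝ) :
    ‖∏ j, (Complex.exp (Complex.I * θ) - z j)‖ ≤ 2 ^ N := by
  rw [norm_prod]
  calc ∏ j, ‖Complex.exp (Complex.I * θ) - z j‖ ≤ ∏ _j : Fin N, (2 : ℝ) := by
        refine Finset.prod_le_prod (fun j _ => norm_nonneg _) fun j _ => ?_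
        refine (norm_sub_le _ _).trans ?_
        rw [mul_comm, Complex.norm_exp_ofReal_mul_I, hz j]
        norm_num
    _ = 2 ^ N := by simp

theorem upper_theta {k : ℝ} (hk : 0 < k) {δ : ℝ} (hδ : 0 < δ) :
    ∃ C : ℝ, 0 < C ∧ ∀ (N : ℕ), 0 < N → ∀ R : ℕ, δ * N ≤ R → ∀ ν : Measure (Fin N → ℂ),
      IsProbabilityMeasure ν → (∀ᵐ z ∂ν, ∀ i, ‖z i‖ = 1) → TC N R ν → ∀ θ : ℝ,
      ∫ z, ‖∏ j, (Complex.exp (Complex.I * θ) - z j)‖ ^ (2 * k) ∂ν ≤ C * (N : ℝ) ^ (k ^ 2) := by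
  set δ' : ℝ := min δ 1 with hδ'
  have hδ'0 : 0 < δ' := lt_min hδ one_pos
  obtain ⟨A, hA⟩ := exists_nat_ge (max (9 * k) 2)
  have hA1 : 9 * k ≤ A := (le_max_left _ _).trans hA
  have hA2 : 2 ≤ A := by exact_mod_cast (le_max_right _ _).trans hA
  set B : ℝ := 2 * (4 * A + 1) / δ' with hB
  have hB0 : 0 < B := by positivity
  obtain ⟨t, ht⟩ := exists_nat_ge (2 * Real.exp (4 * k * B))
  have ht1 : 1 ≤ t := by
    have h1 : (1 : ℝ) ≤ Real.exp (4 * k * B) := Real.one_le_exp (by positivity)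
    have h2 : (1 : ℝ) ≤ t := by linarith
    exact_mod_cast h2
  set E : ℕ := (4 * A + 1) * t with hE
  have hE0 : 0 < E := by positivity
  set C1 : ℝ := 4 * Real.exp (k ^ 2) * (Real.exp (2 * k * (B * t)) + 2) with hC1
  set C2 : ℝ := (2 : ℝ) ^ (2 * k * (E / δ')) with hC2
  have hC10 : 0 < C1 := by positivity
  have hC20 : 0 < C2 := by positivity
  refine ⟨C1 + C2, by positivity, ?_⟩
  intro N hN R hR ν hν h1 hT θ
  have hNr : (1 : ℝ) ≤ N := by exact_mod_cast hN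
  have hNk : (1 : ℝ) ≤ (N : ℝ) ^ (k ^ 2) := Real.one_le_rpow hNr (sq_nonneg k)
  set R' : ℕ := min R N with hR'
  have hR'N : R' ≤ N := min_le_right _ _
  have hR'δ : δ' * N ≤ R' := by
    rw [hR']
    push_cast
    refine le_min ?_ ?_
    · exact (mul_le_mul_of_nonneg_right (min_le_left _ _) (by positivity)).trans hR
    · calc δ' * N ≤ 1 * N := mul_le_mul_of_nonneg_right (min_le_right _ _) (by positivity)
        _ = N := one_mul _
  have hT' : TC N R' ν := TC_mono (min_le_left _ _) hT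
  by_cases hcase : E ≤ R'
  · set K : ℕ := Nat.log 2 (R' / E) with hK
    have hq : R' / E ≠ 0 := (Nat.div_pos hcase hE0).ne'
    have hK1 : 2 ^ K ≤ R' / E := Nat.pow_log_le_self 2 hq
    have hK2 : R' / E < 2 ^ (K + 1) := Nat.lt_pow_succ_log_self (by norm_num) _
    have hdeg : (4 * A + 1) * t * 2 ^ K ≤ R' := by
      calc E * 2 ^ K ≤ E * (R' / E) := Nat.mul_le_mul_left _ hK1
        _ ≤ R' := Nat.mul_div_le _ _
    have hup : R' < 2 ^ (K + 1) * E := (Nat.div_lt_iff_lt_mul hE0).1 hK2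
    have hNB : (N : ℝ) ≤ B * t * 2 ^ K := by
      have h2 : (R' : ℝ) ≤ 2 ^ (K + 1) * E := by exact_mod_cast hup.le
      have h3 : δ' * N ≤ 2 ^ (K + 1) * E := hR'δ.trans h2
      have h4 : (N : ℝ) ≤ 2 ^ (K + 1) * E / δ' := by
        rw [le_div_iff₀ hδ'0]
        linarith
      refine h4.trans (le_of_eq ?_)
      rw [hE, hB, pow_succ]
      push_cast
      ring
    have hm := mean_at hk (K := K) (A := A) (t := t) hN hR'N h1 hT' hA1 hA2 ht1 hdeg hB0 ht hNB θ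
    refine hm.trans ?_
    have h5 : (N : ℝ) / 2 ^ K ≤ B * t := by
      rw [div_le_iff₀ (by positivity)]
      exact hNB
    have h6 : Real.exp (2 * k * (N / 2 ^ K)) ≤ Real.exp (2 * k * (B * t)) :=
      Real.exp_le_exp.2 (mul_le_mul_of_nonneg_left h5 (by positivity))
    have h7 : (2 : ℝ) ^ ((K : ℝ) * k ^ 2) ≤ (N : ℝ) ^ (k ^ 2) := by
      rw [Real.rpow_mul (by norm_num), Real.rpow_natCast]
      refine Real.rpow_le_rpow (by positivity) ?_ (sq_nonneg k)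
      have h8 : 2 ^ K ≤ N := by
        calc 2 ^ K = 1 * 2 ^ K := (one_mul _).symm
          _ ≤ E * 2 ^ K := Nat.mul_le_mul_right _ hE0
          _ ≤ R' := hdeg
          _ ≤ N := hR'N
      exact_mod_cast h8
    calc 4 * Real.exp (k ^ 2) * (2 : ℝ) ^ ((K : ℝ) * k ^ 2) * (Real.exp (2 * k * (N / 2 ^ K)) + 2)
        ≤ 4 * Real.exp (k ^ 2) * (N : ℝ) ^ (k ^ 2) * (Real.exp (2 * k * (B * t)) + 2) := by
          gcongr
      _ = C1 * (N : ℝ) ^ (k ^ 2) := by rw [hC1]; ring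
      _ ≤ (C1 + C2) * (N : ℝ) ^ (k ^ 2) := by
          refine mul_le_mul_of_nonneg_right ?_ (by positivity)
          linarith
  · push Not at hcase
    have hNE : (N : ℝ) ≤ E / δ' := by
      rw [le_div_iff₀ hδ'0]
      have : (R' : ℝ) ≤ E := by exact_mod_cast hcase.le
      linarith
    have hb : ∀ᵐ z ∂ν, ‖∏ j, (Complex.exp (Complex.I * θ) - z j)‖ ^ (2 * k) ≤ C2 := by
      filter_upwards [h1] with z hz
      have h2 := norm_le_two hz θ
      calc ‖∏ j, (Complex.exp (Complex.I * θ) - z j)‖ ^ (2 * k) ≤ ((2 : ℝ) ^ N) ^ (2 * k) :=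
            Real.rpow_le_rpow (norm_nonneg _) h2 (by positivity)
        _ = (2 : ℝ) ^ (2 * k * N) := by
            rw [← Real.rpow_natCast, ← Real.rpow_mul (by norm_num)]
            congr 1
            ring
        _ ≤ C2 := by
            rw [hC2]
            refine Real.rpow_le_rpow_of_exponent_le (by norm_num) ?_
            exact mul_le_mul_of_nonneg_left hNE (by positivity)
    have h3 : ∫ z, ‖∏ j, (Complex.exp (Complex.I * θ) - z j)‖ ^ (2 * k) ∂ν ≤ ∫ _z, C2 ∂ν :=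
      integral_mono_of_nonneg (Filter.Eventually.of_forall fun z => by positivity)
        (integrable_const _) hb
    rw [integral_const, probReal_univ, one_smul] at h3
    calc ∫ z, ‖∏ j, (Complex.exp (Complex.I * θ) - z j)‖ ^ (2 * k) ∂ν ≤ C2 * 1 := by linarith
      _ ≤ C2 * (N : ℝ) ^ (k ^ 2) := mul_le_mul_of_nonneg_left hNk hC20.le
      _ ≤ (C1 + C2) * (N : ℝ) ^ (k ^ 2) := by
          refine mul_le_mul_of_nonneg_right ?_ (by positivity)
          linarith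

/-! ### the average over the circle -/

lemma cont_Z {N : ℕ} {k : ℝ} (hk : 0 < k) :
    Continuous fun p : (Fin N → ℂ) × ℝ =>
      ‖∏ j, (Complex.exp (Complex.I * (p.2 : ℂ)) - p.1 j)‖ ^ (2 * k) := by
  refine Continuous.rpow_const ?_ fun _ => Or.inr (by positivity)
  fun_prop

lemma int_Z {N : ℕ} {k : ℝ} (hk : 0 < k) {ν : Measure (Fin N → ℂ)} [IsProbabilityMeasure ν]
    (h1 : ∀ᵐ z ∂ν, ∀ i, ‖z i‖ = 1) :
    Integrable (fun p : (Fin N → ℂ) × ℝ =>
      ‖∏ j, (Complex.exp (Complex.I * (p.2 : ℂ)) - p.1 j)‖ ^ (2 * k))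
      (ν.prod (volume.restrict (Set.Ioc (0 : ℝ) (2 * Real.pi)))) := by
  refine Integrable.of_bound (cont_Z hk).aestronglyMeasurable (((2 : ℝ) ^ N) ^ (2 * k)) ?_
  have h2 : ∀ᵐ p ∂(ν.prod (volume.restrict (Set.Ioc (0 : ℝ) (2 * Real.pi)))),
      ∀ i, ‖p.1 i‖ = 1 := Measure.quasiMeasurePreserving_fst.ae h1
  filter_upwards [h2] with p hp
  rw [Real.norm_of_nonneg (by positivity)]
  exact Real.rpow_le_rpow (norm_nonneg _) (norm_le_two hp p.2) (by positivity)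

lemma mp_mean {N : ℕ} {k : ℝ} (hk : 0 < k) {ν : Measure (Fin N → ℂ)} [IsProbabilityMeasure ν]
    (h1 : ∀ᵐ z ∂ν, ∀ i, ‖z i‖ = 1) {X : ℝ}
    (hX : ∀ θ : ℝ, ∫ z, ‖∏ j, (Complex.exp (Complex.I * θ) - z j)‖ ^ (2 * k) ∂ν ≤ X) :
    ∫ z, mp k z ∂ν ≤ X := by
  have hint := int_Z hk h1
  have hsw := integral_integral_swap
    (f := fun (z : Fin N → ℂ) (θ : ℝ) => ‖∏ j, (Complex.exp (Complex.I * θ) - z j)‖ ^ (2 * k)) hint
  unfold mp
  rw [integral_const_mul, hsw]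
  have h2 : ∫ θ in Set.Ioc (0 : ℝ) (2 * Real.pi),
      ∫ z, ‖∏ j, (Complex.exp (Complex.I * θ) - z j)‖ ^ (2 * k) ∂ν ≤
      ∫ _θ in Set.Ioc (0 : ℝ) (2 * Real.pi), X := by
    refine integral_mono hint.integral_prod_right (integrable_const _) hX
  rw [setIntegral_const] at h2
  have h3 : volume.real (Set.Ioc (0 : ℝ) (2 * Real.pi)) = 2 * Real.pi := by
    rw [Real.volume_real_Ioc_of_le (by positivity), sub_zero]
  rw [h3, smul_eq_mul] at h2
  have hpi : 0 < 2 * Real.pi := by positivity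
  calc (2 * Real.pi)⁻¹ * _ ≤ (2 * Real.pi)⁻¹ * (2 * Real.pi * X) :=
        mul_le_mul_of_nonneg_left h2 (by positivity)
    _ = X := by field_simp

/-- **the upper bound** -/
theorem upper {k : ℝ} (hk : 0 < k) {δ : ℝ} (hδ : 0 < δ) :
    ∃ C : ℝ, 0 < C ∧ ∀ (N : ℕ), 0 < N → ∀ R : ℕ, δ * N ≤ R → ∀ ν : Measure (Fin N → ℂ),
      IsProbabilityMeasure ν → (∀ᵐ z ∂ν, ∀ i, ‖z i‖ = 1) → TC N R ν →
      ∫ z, mp k z ∂ν ≤ C * (N : ℝ) ^ (k ^ 2) := by
  obtain ⟨C, hC, h⟩ := upper_theta hk hδ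
  refine ⟨C, hC, fun N hN R hR ν hν h1 hT => ?_⟩
  exact mp_mean hk h1 (h N hN R hR ν hν h1 hT)

end

end Pool.Agent.H481.GA
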