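import Pool.Agent.H481.GA8

/-!
The lower bound for the moments of all orders.
-/

open Finset MeasureTheory MvPolynomial
open Pool.Agent.R319.UM

namespace Pool.Agent.H481.GA

noncomputable section

variable {N : ℕ}

/-- the Taylor coefficients of `∏ (1 - z_j w)^k` as polynomials in the power sums -/
def cp (k : ℝ) : ℕ → MvPolynomial (Fin N) ℂ
  | 0 => 1
  | m + 1 => C (-(k : ℂ) / ((m : ℂ) + 1)) *
      ∑ n : Fin (m + 1), psum (Fin N) ℂ (n + 1) * cp k (m - n)
decreasing_by omega

lemma cp_zero (k : ℝ) : (cp k 0 : MvPolynomial (Fin N) ℂ) = 1 := by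
  rw [cp]

lemma cp_succ (k : ℝ) (m : ℕ) : (cp k (m + 1) : MvPolynomial (Fin N) ℂ) =
    C (-(k : ℂ) / ((m : ℂ) + 1)) * ∑ n ∈ range (m + 1), psum (Fin N) ℂ (n + 1) * cp k (m - n) := by
  rw [cp, Finset.sum_range]

lemma cp_mem (k : ℝ) (m : ℕ) : (cp k m : MvPolynomial (Fin N) ℂ) ∈ PSp N m := by
  induction m using Nat.strong_induction_on with
  | _ m ih =>
    rcases m with _ | m
    · rw [cp_zero]
      exact one_memP 0
    · rw [cp_succ]
      refine C_memP _ (Submodule.sum_mem _ fun n hn => ?_)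
      have hn' := Finset.mem_range.1 hn
      refine PSp_mono ?_ (mul_memP (psum_mem (by omega)) (ih (m - n) (by omega)))
      omega

lemma kap_cp_succ (k : ℝ) (m : ℕ) (d : Fin N → ℤ) :
    ((m : ℂ) + 1) * kap (cp k (m + 1) : MvPolynomial (Fin N) ℂ) d =
      -(k : ℂ) * ∑ n ∈ range (m + 1),
        Tm ((n + 1 : ℕ) : ℤ) (kap (cp k (m - n) : MvPolynomial (Fin N) ℂ)) d := by
  rw [cp_succ, kap_C, kap_sum]
  simp only [kap_psum]
  have : ((m : ℂ) + 1) ≠ 0 := by exact_mod_cast Nat.succ_ne_zero m
  field_simp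

lemma Cl_cp (k : ℝ) (m : ℕ) : Cl (m : ℤ) (kap (cp k m : MvPolynomial (Fin N) ℂ)) := by
  induction m using Nat.strong_induction_on with
  | _ m ih =>
    rcases m with _ | m
    · rw [cp_zero]
      exact Cl_kap_one
    · have e : kap (cp k (m + 1) : MvPolynomial (Fin N) ℂ) = fun d => ∑ n ∈ range (m + 1),
          (-(k : ℂ) / ((m : ℂ) + 1)) *
          Tm ((n + 1 : ℕ) : ℤ) (kap (cp k (m - n) : MvPolynomial (Fin N) ℂ)) d := by
        funext d
        rw [cp_succ, kap_C, kap_sum]
        simp only [kap_psum]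
        rw [Finset.mul_sum]
      rw [e]
      refine Cl_sum _ (fun _ => (-(k : ℂ) / ((m : ℂ) + 1))) fun n hn => ?_
      have hn' := Finset.mem_range.1 hn
      refine Cl_mono ?_ (Cl_Tm (by positivity) (ih (m - n) (by omega)))
      have : ((m - n : ℕ) : ℤ) = m - n := by omega
      rw [this]
      push_cast
      linarith

/-- the lowering operators act on the coefficients -/
lemma Lp_cp (k : ℝ) (m : ℕ) (hm : m ≤ N) (l : ℕ) (hl : 1 ≤ l) (d : Fin N → ℤ) :
    Lp (l : ℤ) (kap (cp k m : MvPolynomial (Fin N) ℂ)) d =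
      if l ≤ m then -(k : ℂ) * kap (cp k (m - l) : MvPolynomial (Fin N) ℂ) d else 0 := by
  induction m using Nat.strong_induction_on generalizing d with
  | _ m ih =>
    rcases m with _ | m
    · rw [if_neg (by omega), cp_zero, Lp_kap_one hl]
    · have hm1 : ((m : ℂ) + 1) ≠ 0 := by exact_mod_cast Nat.succ_ne_zero m
      have e : kap (cp k (m + 1) : MvPolynomial (Fin N) ℂ) = fun d => ∑ n ∈ range (m + 1),
          (-(k : ℂ) / ((m : ℂ) + 1)) *
          Tm ((n + 1 : ℕ) : ℤ) (kap (cp k (m - n) : MvPolynomial (Fin N) ℂ)) d := by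
        funext d
        rw [cp_succ, kap_C, kap_sum]
        simp only [kap_psum]
        rw [Finset.mul_sum]
      have hstep : ∀ n ∈ range (m + 1), ∀ d : Fin N → ℤ,
          Lp (l : ℤ) (Tm ((n + 1 : ℕ) : ℤ) (kap (cp k (m - n) : MvPolynomial (Fin N) ℂ))) d =
          (if l + n ≤ m then -(k : ℂ) * Tm ((n + 1 : ℕ) : ℤ)
            (kap (cp k (m - l - n) : MvPolynomial (Fin N) ℂ)) d else 0) +
          (if n + 1 = l then (l : ℂ) * kap (cp k (m + 1 - l) : MvPolynomial (Fin N) ℂ) d else 0) := by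
        intro n hn d
        have hn' := Finset.mem_range.1 hn
        have hcast : ((m - n : ℕ) : ℤ) = m - n := by omega
        rw [comm (Cl_cp k (m - n)) (by omega) (by rw [hcast]; push_cast; omega)]
        congr 1
        · have hfun : Lp (l : ℤ) (kap (cp k (m - n) : MvPolynomial (Fin N) ℂ)) =
              fun d => if l ≤ m - n then
                -(k : ℂ) * kap (cp k (m - n - l) : MvPolynomial (Fin N) ℂ) d else 0 := by
            funext d'
            exact ih (m - n) (by omega) (by omega) d'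
          rw [hfun]
          by_cases h : l ≤ m - n
          · rw [if_pos (by omega : l + n ≤ m)]
            have e2 : m - l - n = m - n - l := by omega
            rw [e2]
            simp only [if_pos h]
            unfold Tm
            rw [Finset.mul_sum]
          · rw [if_neg (by omega : ¬ l + n ≤ m)]
            simp only [if_neg h]
            unfold Tm
            simp
        · by_cases h : n + 1 = l
          · rw [if_pos (by exact_mod_cast h), if_pos h]
            have e2 : m - n = m + 1 - l := by omega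
            rw [e2, h]
            push_cast
            rfl
          · rw [if_neg (by exact_mod_cast h), if_neg h, zero_mul]
      rw [e, Lp_sum]
      rw [Finset.sum_congr rfl fun n hn => by rw [hstep n hn d]]
      rw [← Finset.mul_sum, Finset.sum_add_distrib]
      by_cases hlm : l ≤ m + 1
      · rw [if_pos hlm]
        have e3 : ∑ n ∈ range (m + 1),
            (if n + 1 = l then (l : ℂ) * kap (cp k (m + 1 - l) : MvPolynomial (Fin N) ℂ) d else 0) =
            (l : ℂ) * kap (cp k (m + 1 - l) : MvPolynomial (Fin N) ℂ) d := by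
          have : ∀ n, (n + 1 = l) ↔ (n = l - 1) := fun n => by omega
          simp only [this]
          rw [Finset.sum_ite_eq', if_pos (Finset.mem_range.2 (by omega))]
        rw [e3]
        rcases Nat.lt_or_ge m l with hlt | hge
        · -- `l = m + 1`
          have hle : l = m + 1 := by omega
          have e4 : ∑ n ∈ range (m + 1), (if l + n ≤ m then -(k : ℂ) * Tm ((n + 1 : ℕ) : ℤ)
            (kap (cp k (m - l - n) : MvPolynomial (Fin N) ℂ)) d else 0) = 0 :=
            Finset.sum_eq_zero fun n _ => if_neg (by omega)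
          rw [e4, zero_add, hle]
          push_cast
          field_simp
        · have e4 : ∑ n ∈ range (m + 1), (if l + n ≤ m then -(k : ℂ) * Tm ((n + 1 : ℕ) : ℤ)
            (kap (cp k (m - l - n) : MvPolynomial (Fin N) ℂ)) d else 0) =
              ∑ n ∈ range (m - l + 1), -(k : ℂ) * Tm ((n + 1 : ℕ) : ℤ)
                (kap (cp k (m - l - n) : MvPolynomial (Fin N) ℂ)) d := by
            rw [← Finset.sum_filter]
            refine Finset.sum_congr ?_ fun _ _ => rfl
            ext n
            simp only [Finset.mem_filter, Finset.mem_range]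
            omega
          rw [e4, ← Finset.mul_sum, ← kap_cp_succ k (m - l) d]
          have e5 : m - l + 1 = m + 1 - l := by omega
          have e6 : ((m - l : ℕ) : ℂ) + 1 = (m : ℂ) + 1 - l := by
            rw [Nat.cast_sub hge]
            ring
          rw [e5, e6]
          field_simp
          ring
      · rw [if_neg hlm]
        have e3 : ∑ n ∈ range (m + 1),
            (if n + 1 = l then (l : ℂ) * kap (cp k (m + 1 - l) : MvPolynomial (Fin N) ℂ) d else 0) =
            0 := Finset.sum_eq_zero fun n hn => if_neg (by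
              have := Finset.mem_range.1 hn
              omega)
        have e4 : ∑ n ∈ range (m + 1), (if l + n ≤ m then -(k : ℂ) * Tm ((n + 1 : ℕ) : ℤ)
            (kap (cp k (m - l - n) : MvPolynomial (Fin N) ℂ)) d else 0) = 0 :=
          Finset.sum_eq_zero fun n _ => if_neg (by omega)
        rw [e3, e4, add_zero, mul_zero]

/-- the norms -/
def gm (N : ℕ) (k : ℝ) (m : ℕ) : ℂ :=
  ip (kap (cp k m : MvPolynomial (Fin N) ℂ)) (kap (cp k m : MvPolynomial (Fin N) ℂ))

lemma gm_succ (k : ℝ) (m : ℕ) (hm : m + 1 ≤ N) :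
    ((m : ℂ) + 1) * gm N k (m + 1) = (k : ℂ) ^ 2 * ∑ n ∈ range (m + 1), gm N k (m - n) := by
  unfold gm
  rw [← ip_smul_left]
  have e : (fun d => ((m : ℂ) + 1) * kap (cp k (m + 1) : MvPolynomial (Fin N) ℂ) d) =
      fun d => -(k : ℂ) * ∑ n ∈ range (m + 1),
        Tm ((n + 1 : ℕ) : ℤ) (kap (cp k (m - n) : MvPolynomial (Fin N) ℂ)) d := by
    funext d
    exact kap_cp_succ k m d
  rw [e, ip_smul_left, ip_sum_left (range (m + 1))
    (fun n => Tm ((n + 1 : ℕ) : ℤ) (kap (cp k (m - n) : MvPolynomial (Fin N) ℂ)))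
    (fun n _ => FS_Tm (FS_kap _) _), Finset.mul_sum, Finset.mul_sum]
  refine Finset.sum_congr rfl fun n hn => ?_
  have hn' := Finset.mem_range.1 hn
  rw [ip_Lp (FS_kap _) (NN_kap _) (FS_kap _)]
  have e2 : Lp ((n + 1 : ℕ) : ℤ) (kap (cp k (m + 1) : MvPolynomial (Fin N) ℂ)) =
      fun d => (-(k : ℂ)) * kap (cp k (m - n) : MvPolynomial (Fin N) ℂ) d := by
    funext d
    rw [Lp_cp k (m + 1) hm (n + 1) (by omega), if_pos (by omega)]
    have : m + 1 - (n + 1) = m - n := by omega
    rw [this]
  rw [e2, ip_smul_right, map_neg, Complex.conj_ofReal]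
  ring

lemma gm_sum (k : ℝ) (M : ℕ) (hM : M ≤ N) :
    ∑ m ∈ range (M + 1), gm N k m =
      ((∏ m ∈ range M, (1 + k ^ 2 / ((m : ℝ) + 1)) : ℝ) : ℂ) * gm N k 0 := by
  induction M with
  | zero => simp
  | succ M ih =>
    have ih' := ih (by omega)
    have h1 := gm_succ (N := N) k M hM
    have hM1 : ((M : ℂ) + 1) ≠ 0 := by exact_mod_cast Nat.succ_ne_zero M
    have h2 : ∑ n ∈ range (M + 1), gm N k (M - n) = ∑ m ∈ range (M + 1), gm N k m := by
      rw [← Finset.sum_range_reflect]
      refine Finset.sum_congr rfl fun n hn => ?_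
      have := Finset.mem_range.1 hn
      congr 1
      omega
    rw [h2] at h1
    have h3 : gm N k (M + 1) = (k : ℂ) ^ 2 / ((M : ℂ) + 1) * ∑ m ∈ range (M + 1), gm N k m := by
      field_simp
      linear_combination h1
    rw [Finset.sum_range_succ, h3, ih', Finset.prod_range_succ]
    push_cast
    ring

/-- the mean of the square sum of the coefficients -/
lemma cue_cp (hN : 0 < N) (k : ℝ) (M : ℕ) (hM : M ≤ N) :
    ∑ m ∈ range (M + 1), cue (N := N) (fun z => eval z (cp k m : MvPolynomial (Fin N) ℂ) *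
      (starRingEnd ℂ) (eval z (cp k m : MvPolynomial (Fin N) ℂ))) =
      ((∏ m ∈ range M, (1 + k ^ 2 / ((m : ℝ) + 1)) : ℝ) : ℂ) := by
  simp only [cue_ip]
  rw [← Finset.mul_sum]
  have h := gm_sum (N := N) k M hM
  unfold gm at h
  rw [h, cp_zero, mul_left_comm, ip_one hN, mul_one]

lemma cp_rec (k : ℝ) (z : Fin N → ℂ) (m : ℕ) :
    ((m : ℂ) + 1) * eval z (cp k (m + 1) : MvPolynomial (Fin N) ℂ) =
      -(k : ℂ) * ∑ n ∈ Finset.range (m + 1), (∑ j, z j ^ (n + 1)) *
        eval z (cp k (m - n) : MvPolynomial (Fin N) ℂ) := by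
  rw [cp_succ, map_mul, eval_C, map_sum]
  simp only [map_mul, eval_psum]
  have : ((m : ℂ) + 1) ≠ 0 := by exact_mod_cast Nat.succ_ne_zero m
  field_simp

/-- **the lower bound** -/
theorem lower {k : ℝ} (hk : 0 < k) (hN : 0 < N) {R : ℕ} (hR : R ≤ N) {ν : Measure (Fin N → ℂ)}
    [IsProbabilityMeasure ν] (h1 : ∀ᵐ z ∂ν, ∀ i, ‖z i‖ = 1) (hT : TC N R ν) :
    ∏ m ∈ range R, (1 + k ^ 2 / ((m : ℝ) + 1)) ≤ ∫ z, mp k z ∂ν := by
  have hmem : ∀ m ∈ range (R + 1), (cp k m : MvPolynomial (Fin N) ℂ) ∈ PSp N R := fun m hm =>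
    PSp_mono (by have := Finset.mem_range.1 hm; omega) (cp_mem k m)
  have hint : ∀ m ∈ range (R + 1), Integrable
      (fun z => ‖eval z (cp k m : MvPolynomial (Fin N) ℂ)‖ ^ 2) ν := by
    intro m _
    have hi := poly_int h1 (cp k m : MvPolynomial (Fin N) ℂ) (cp k m)
    refine hi.re.congr (Filter.Eventually.of_forall fun z => ?_)
    beta_reduce
    rw [Complex.mul_conj, Complex.normSq_eq_norm_sq]
    exact Complex.ofReal_re _
  have hval : ∑ m ∈ range (R + 1), ∫ z, ‖eval z (cp k m : MvPolynomial (Fin N) ℂ)‖ ^ 2 ∂ν =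
      ∏ m ∈ range R, (1 + k ^ 2 / ((m : ℝ) + 1)) := by
    have h2 := cue_cp (N := N) hN k R hR
    have h3 : ∑ m ∈ range (R + 1), ((∫ z, ‖eval z (cp k m : MvPolynomial (Fin N) ℂ)‖ ^ 2 ∂ν : ℝ) : ℂ) =
        ∑ m ∈ range (R + 1), cue (N := N) (fun z => eval z (cp k m : MvPolynomial (Fin N) ℂ) *
          (starRingEnd ℂ) (eval z (cp k m : MvPolynomial (Fin N) ℂ))) := by
      refine Finset.sum_congr rfl fun m hm => ?_
      rw [← hT _ _ (hmem m hm) (hmem m hm), ← integral_complex_ofReal]
      refine integral_congr_ae (Filter.Eventually.of_forall fun z => ?_)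
      simp only
      rw [Complex.mul_conj, Complex.normSq_eq_norm_sq]
    rw [h2] at h3
    exact_mod_cast h3
  rw [← hval, ← integral_finsetSum _ hint]
  have hmpi : Integrable (fun z : Fin N → ℂ => mp k z) ν := by
    have := (int_Z hk h1).integral_prod_left
    unfold mp
    exact this.const_mul _
  refine integral_mono_ae (integrable_finsetSum _ hint) hmpi ?_
  filter_upwards [h1] with z hz
  exact MO.bessel hk z hz (fun m => eval z (cp k m : MvPolynomial (Fin N) ℂ))
    (by rw [cp_zero, map_one]) (fun m => cp_rec k z m) R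

end

end Pool.Agent.H481.GA
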