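import Pool.Agent.H481.GA8
import Pool.Agent.H481.MO7

/-!
The upper bound with general coefficients.
-/

open Finset MeasureTheory MvPolynomial
open Pool.Agent.R319.UM

namespace Pool.Agent.H481.GS

open Pool.Agent.H481.GA

noncomputable section

variable {N R : ℕ} {ν : Measure (Fin N → ℂ)}

/-- the coefficients of the linear forms -/
def wg (β : ℕ → ℂ) (b : ℕ) (n : ℕ) : ℂ := (((1 - (n : ℝ) / 2 ^ b) ^ 2 / (n : ℝ) : ℝ) : ℂ) * β n

/-- weighted power sums -/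
def Pg (β : ℕ → ℂ) (z : Fin N → ℂ) (n : ℕ) : ℂ := β n * ∑ j, z j ^ n

lemma eval_wg (z : Fin N → ℂ) (β : ℕ → ℂ) (a b : ℕ) :
    eval z (Lf (blk a) (wg β b) : MvPolynomial (Fin N) ℂ) = MO.Qf (Pg β z) a b := by
  rw [eval_Lf]
  unfold MO.Qf blk wg Pg
  refine Finset.sum_congr rfl fun n _ => ?_
  ring

lemma eval_trg (z : Fin N → ℂ) (β : ℕ → ℂ) (k : ℝ) (a b : ℕ) (L : ℕ) :
    eval z (Hf (blk a) (wg β b) L (ht k) : MvPolynomial (Fin N) ℂ) =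
      MO.tr L (-(k : ℂ) * MO.Qf (Pg β z) a b) := by
  rw [eval_Hf, eval_wg]
  unfold MO.tr ht
  refine Finset.sum_congr rfl fun n _ => ?_
  rw [mul_pow]
  ring

lemma WQ_leg {β : ℕ → ℂ} {a b : ℕ} (hab : a < b) :
    WQ (blk a) (wg β b) ≤ ∑ n ∈ blk a, ‖β n‖ ^ 2 / (n : ℝ) := by
  unfold WQ
  refine Finset.sum_le_sum fun n hn => ?_
  have hn1 := (blk_mem hn).1
  have hn2 := (blk_mem hn).2
  have hnr : (1 : ℝ) ≤ n := by exact_mod_cast hn1
  have h2b : (n : ℝ) ≤ 2 ^ b := by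
    have h1 : (n : ℝ) ≤ ((2 ^ (a + 1) : ℕ) : ℝ) := by exact_mod_cast hn2
    have h2 : (2 : ℝ) ^ (a + 1) ≤ 2 ^ b := pow_le_pow_right₀ (by norm_num) hab
    push_cast at h1
    linarith
  have hx0 : 0 ≤ 1 - (n : ℝ) / 2 ^ b := by
    rw [sub_nonneg, div_le_one (by positivity)]
    exact h2b
  have hx1 : 1 - (n : ℝ) / 2 ^ b ≤ 1 := by
    have : 0 ≤ (n : ℝ) / 2 ^ b := by positivity
    linarith
  have hnorm : ‖wg β b n‖ = (1 - (n : ℝ) / 2 ^ b) ^ 2 / (n : ℝ) * ‖β n‖ := by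
    unfold wg
    rw [norm_mul, Complex.norm_real, Real.norm_of_nonneg]
    positivity
  rw [hnorm]
  have h4 : (1 - (n : ℝ) / 2 ^ b) ^ 2 ≤ 1 := pow_le_one₀ hx0 hx1
  have h5 : ((1 - (n : ℝ) / 2 ^ b) ^ 2) ^ 2 ≤ 1 := pow_le_one₀ (by positivity) h4
  have e : (n : ℝ) * ((1 - (n : ℝ) / 2 ^ b) ^ 2 / (n : ℝ) * ‖β n‖) ^ 2 =
      ((1 - (n : ℝ) / 2 ^ b) ^ 2) ^ 2 * (‖β n‖ ^ 2 / (n : ℝ)) := by
    have : (n : ℝ) ≠ 0 := by positivity
    field_simp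
  rw [e]
  calc ((1 - (n : ℝ) / 2 ^ b) ^ 2) ^ 2 * (‖β n‖ ^ 2 / (n : ℝ)) ≤ 1 * (‖β n‖ ^ 2 / (n : ℝ)) :=
        mul_le_mul_of_nonneg_right h5 (by positivity)
    _ = _ := one_mul _

lemma blk_sum_leg {β : ℕ → ℂ} (hβ : ∀ n, ‖β n‖ ≤ 1) (a : ℕ) :
    ∑ n ∈ blk a, ‖β n‖ ^ 2 / (n : ℝ) ≤ 1 := by
  refine (Finset.sum_le_sum fun n _ => ?_).trans (blk_sum_le a)
  have : ‖β n‖ ^ 2 ≤ 1 := pow_le_one₀ (norm_nonneg _) (hβ n)
  exact div_le_div_of_nonneg_right this (by positivity)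

lemma prod_VQ_leg (k : ℝ) (β : ℕ → ℂ) (L : ℕ → ℕ) {c K : ℕ} (hcK : c ≤ K) :
    ∏ a ∈ range c, VQ (blk a) (wg β c) (L a) (ht k) ≤
      Real.exp (k ^ 2 * ∑ n ∈ Finset.Ico 1 ((2 : ℕ) ^ K), ‖β n‖ ^ 2 / (n : ℝ)) := by
  have h1 : ∏ a ∈ range c, VQ (blk a) (wg β c) (L a) (ht k) ≤
      ∏ a ∈ range c, Real.exp (k ^ 2 * ∑ n ∈ blk a, ‖β n‖ ^ 2 / (n : ℝ)) := by
    refine Finset.prod_le_prod (fun a _ => VQ_nonneg _ _ _ _) fun a ha => ?_
    refine (VQ_le k _ _ _).trans (Real.exp_le_exp.2 ?_)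
    exact mul_le_mul_of_nonneg_left (WQ_leg (Finset.mem_range.1 ha)) (sq_nonneg k)
  refine h1.trans ?_
  rw [← Real.exp_sum, ← Finset.mul_sum, ← sum_blk (fun n => ‖β n‖ ^ 2 / (n : ℝ)) c]
  refine Real.exp_le_exp.2 (mul_le_mul_of_nonneg_left ?_ (sq_nonneg k))
  refine Finset.sum_le_sum_of_subset_of_nonneg ?_ fun n _ _ => by positivity
  exact Finset.Ico_subset_Ico_right (Nat.pow_le_pow_right (by norm_num) hcK)

theorem mean_gen {k : ℝ} (hk : 0 < k) {K A t : ℕ} (hN : 0 < N) (hRN : R ≤ N)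
    [IsProbabilityMeasure ν] (h1 : ∀ᵐ z ∂ν, ∀ i, ‖z i‖ = 1) (hm : TC N R ν)
    (hA : 9 * k ≤ A) (hA2 : 2 ≤ A) (ht : 1 ≤ t) (hdeg : (4 * A + 1) * t * 2 ^ K ≤ R)
    {B : ℝ} (hB : 0 < B) (htB : 2 * Real.exp (4 * k * B) ≤ t) (hNB : (N : ℝ) ≤ B * t * 2 ^ K)
    {β : ℕ → ℂ} (hβ : ∀ n, ‖β n‖ ≤ 1) {Z : (Fin N → ℂ) → ℝ} (hZ0 : ∀ z, 0 ≤ Z z)
    (hZ : ∀ z : Fin N → ℂ, (∀ i, ‖z i‖ = 1) → ∀ c : ℕ,
      Z z ≤ Real.exp (2 * k * (N / 2 ^ c) - 2 * k * (∑ n ∈ Finset.Ico 1 ((2 : ℕ) ^ c),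
        (((1 - (n : ℝ) / 2 ^ c) ^ 2 / (n : ℝ) : ℝ) : ℂ) * Pg β z n).re)) :
    ∫ z, Z z ∂ν ≤ 4 * Real.exp (k ^ 2 * ∑ n ∈ Finset.Ico 1 ((2 : ℕ) ^ K), ‖β n‖ ^ 2 / (n : ℝ)) *
        (Real.exp (2 * k * (N / 2 ^ K)) + 2) := by
  set U : ℝ := Real.exp (k ^ 2 * ∑ n ∈ Finset.Ico 1 ((2 : ℕ) ^ K), ‖β n‖ ^ 2 / (n : ℝ)) with hU
  have hU0 : 0 < U := Real.exp_pos _
  have htr : (1 : ℝ) ≤ t := by exact_mod_cast ht
  set T : ℕ → ℝ := fun a => (t : ℝ) * (MO.sj (K - 1 - a) : ℝ) with hT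
  set l : ℕ → ℕ := fun a => A * t * MO.sj (K - 1 - a) with hl
  set m : ℕ → ℕ := fun c => t * 2 ^ (K - 1 - c) with hmm
  have hTpos : ∀ a, 0 < T a := by
    intro a
    have : (0 : ℝ) < MO.sj (K - 1 - a) := by exact_mod_cast sj_pos _
    rw [hT]
    positivity
  have hl1 : ∀ a, 1 ≤ l a := by
    intro a
    have h2 := sj_pos (K - 1 - a)
    have : 0 < A * t * MO.sj (K - 1 - a) := by positivity
    exact this
  have hkT : ∀ a, k * T a ≤ l a / 9 := by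
    intro a
    have h3 : (0 : ℝ) ≤ (t : ℝ) * (MO.sj (K - 1 - a) : ℝ) := by positivity
    have h4 := mul_le_mul_of_nonneg_right hA h3
    simp only [hT, hl]
    push_cast
    linarith
  set DD : ℕ → ℝ := fun c => ∏ a ∈ range c, ((1 - (1 / 2 : ℝ) ^ l a)⁻¹) ^ 2 with hDD
  have hDD4 : ∀ c, c ≤ K → DD c ≤ 4 := fun c hc =>
    MO.prod_D (A := A) (t := t) (by nlinarith) hc
  have hDD0 : ∀ c, 0 ≤ DD c := fun c => Finset.prod_nonneg fun a _ => by positivity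
  set F0 : ℕ → MvPolynomial (Fin N) ℂ := fun c => Fp (fun _ => wg β c) l (fun _ => GA.ht k) c
    with hF0
  -- the pointwise inequality
  have hpt : ∀ᵐ z ∂ν, Z z ≤
      Real.exp (2 * k * (N / 2 ^ K)) * (DD K * ‖eval z (F0 K)‖ ^ 2) +
      ∑ c ∈ range K, Real.exp (2 * k * (N / 2 ^ c)) * ∑ b ∈ Finset.Ioc c K,
        DD c * ((T c ^ (2 * m c))⁻¹ * ‖eval z (Lf (blk c) (wg β b) ^ m c * F0 c)‖ ^ 2) := by
    filter_upwards [h1] with z hz
    have h2 := MO.multiscale hk (N := N) (K := K) (Pg β z)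
      (Z := Z z) (fun c _ => hZ z hz c) T hTpos l m hl1 hkT
      (fun l hl z hz => MO.tr_bound hl hz)
    have hprod : ∀ c, ∏ a ∈ range c,
        ((1 - (1 / 2 : ℝ) ^ l a)⁻¹ * ‖MO.tr (l a) (-(k : ℂ) * MO.Qf (Pg β z) a c)‖) ^ 2 =
        DD c * ‖eval z (F0 c)‖ ^ 2 := by
      intro c
      rw [hF0, hDD]
      simp only
      rw [Fp_eval, norm_prod, ← Finset.prod_pow, ← Finset.prod_mul_distrib]
      refine Finset.prod_congr rfl fun a _ => ?_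
      rw [eval_trg, mul_pow]
    refine h2.trans (le_of_eq ?_)
    rw [hprod]
    congr 1
    refine Finset.sum_congr rfl fun c _ => ?_
    rw [hprod, mul_assoc, Finset.mul_sum]
    congr 1
    refine Finset.sum_congr rfl fun b _ => ?_
    rw [map_mul, map_pow, eval_wg, norm_mul, norm_pow, div_pow, div_eq_mul_inv]
    ring
  -- degrees
  have hxd : ∀ c, c < K → xd l c + m c * 2 ^ (c + 1) ≤ (4 * A + 1) * t * 2 ^ K := fun c hc =>
    MO.degree_budget A t hc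
  have hxdK : xd l K ≤ (4 * A + 1) * t * 2 ^ K := MO.degree_budget' A t K
  -- means
  have hm0 := mean_sq h1 hm (G := F0 K) (PSp_mono (hxdK.trans hdeg) (Fp_memP _ _ _ K))
    (cue_Fp hN (fun _ => wg β K) l (fun _ => GA.ht k) K (hxdK.trans (hdeg.trans hRN)))
  have hmc : ∀ c ∈ range K, ∀ b : ℕ, Integrable (fun z =>
      ‖eval z (Lf (blk c) (wg β b) ^ m c * F0 c)‖ ^ 2) ν ∧
      ∫ z, ‖eval z (Lf (blk c) (wg β b) ^ m c * F0 c)‖ ^ 2 ∂ν =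
        ((m c).factorial : ℝ) * WQ (blk c) (wg β b) ^ m c *
          ∏ a ∈ range c, VQ (blk a) (wg β c) (l a) (GA.ht k) := by
    intro c hc b
    have hc' := hxd c (Finset.mem_range.1 hc)
    refine mean_sq h1 hm ?_ (cue_Fp_pow hN (fun _ => wg β c) l (fun _ => GA.ht k) c (wg β b) (m c)
      (hc'.trans (hdeg.trans hRN)))
    refine PSp_mono ?_ (mul_memP (pow_memP (Lf_memP (D := 2 ^ (c + 1))
      (fun n hn => blk_mem hn) _) (m c)) (Fp_memP _ _ _ c))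
    rw [add_comm]
    exact hc'.trans hdeg
  have hint : Integrable (fun z =>
      Real.exp (2 * k * (N / 2 ^ K)) * (DD K * ‖eval z (F0 K)‖ ^ 2) +
      ∑ c ∈ range K, Real.exp (2 * k * (N / 2 ^ c)) * ∑ b ∈ Finset.Ioc c K,
        DD c * ((T c ^ (2 * m c))⁻¹ * ‖eval z (Lf (blk c) (wg β b) ^ m c * F0 c)‖ ^ 2)) ν := by
    refine ((hm0.1.const_mul _).const_mul _).add (integrable_finsetSum _ fun c hc => ?_)
    refine (integrable_finsetSum _ fun b _ => ?_).const_mul _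
    exact ((hmc c hc b).1.const_mul _).const_mul _
  refine (integral_mono_of_nonneg (Filter.Eventually.of_forall hZ0) hint hpt).trans ?_
  rw [integral_add ((hm0.1.const_mul _).const_mul _) (integrable_finsetSum _ fun c hc =>
    (integrable_finsetSum _ fun b _ => ((hmc c hc b).1.const_mul _).const_mul _).const_mul _),
    integral_const_mul, integral_const_mul, hm0.2,
    integral_finsetSum _ fun c hc =>
    (integrable_finsetSum _ fun b _ => ((hmc c hc b).1.const_mul _).const_mul _).const_mul _]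
  have hterm : ∀ c ∈ range K, ∫ z, Real.exp (2 * k * (N / 2 ^ c)) * ∑ b ∈ Finset.Ioc c K,
        DD c * ((T c ^ (2 * m c))⁻¹ * ‖eval z (Lf (blk c) (wg β b) ^ m c * F0 c)‖ ^ 2) ∂ν ≤
      4 * U * (Real.exp (2 * k * (N / 2 ^ c)) *
      (((K - c : ℕ) : ℝ) * (((t * 2 ^ (K - 1 - c)).factorial : ℝ) /
        ((t : ℝ) * (MO.sj (K - 1 - c) : ℝ)) ^ (2 * (t * 2 ^ (K - 1 - c)))))) := by
    intro c hc
    have hcK := Finset.mem_range.1 hc
    rw [integral_const_mul, integral_finsetSum _ fun b _ =>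
      ((hmc c hc b).1.const_mul _).const_mul _]
    have hb : ∀ b ∈ Finset.Ioc c K, ∫ z, DD c * ((T c ^ (2 * m c))⁻¹ *
        ‖eval z (Lf (blk c) (wg β b) ^ m c * F0 c)‖ ^ 2) ∂ν ≤
        4 * ((T c ^ (2 * m c))⁻¹ * (((m c).factorial : ℝ) * U)) := by
      intro b hb
      rw [integral_const_mul, integral_const_mul, (hmc c hc b).2]
      have hTp := hTpos c
      have i1 : WQ (blk c) (wg β b) ^ m c ≤ 1 :=
        pow_le_one₀ (WQ_nonneg _ _)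
          ((WQ_leg (Finset.mem_Ioc.1 hb).1).trans (blk_sum_leg hβ c))
      have i2 := prod_VQ_leg k β l hcK.le
      have i3 : 0 ≤ ∏ a ∈ range c, VQ (blk a) (wg β c) (l a) (GA.ht k) :=
        Finset.prod_nonneg fun a _ => VQ_nonneg _ _ _ _
      have i5 : (0 : ℝ) ≤ ((m c).factorial : ℝ) := by positivity
      have i6 : ((m c).factorial : ℝ) * WQ (blk c) (wg β b) ^ m c *
          ∏ a ∈ range c, VQ (blk a) (wg β c) (l a) (GA.ht k) ≤
          ((m c).factorial : ℝ) * U := by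
        refine mul_le_mul ?_ i2 i3 i5
        calc ((m c).factorial : ℝ) * WQ (blk c) (wg β b) ^ m c ≤ ((m c).factorial : ℝ) * 1 :=
              mul_le_mul_of_nonneg_left i1 i5
          _ = _ := mul_one _
      have i7 : (0 : ℝ) ≤ (T c ^ (2 * m c))⁻¹ := by positivity
      refine mul_le_mul (hDD4 c hcK.le) (mul_le_mul_of_nonneg_left i6 i7) ?_ (by norm_num)
      have i4 : 0 ≤ WQ (blk c) (wg β b) ^ m c := pow_nonneg (WQ_nonneg _ _) _
      positivity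
    have hsum := Finset.sum_le_sum hb
    rw [Finset.sum_const, Nat.card_Ioc, nsmul_eq_mul] at hsum
    have hfin := mul_le_mul_of_nonneg_left hsum (Real.exp_pos (2 * k * (N / 2 ^ c))).le
    refine hfin.trans (le_of_eq ?_)
    simp only [hT, hmm]
    rw [div_eq_mul_inv]
    ring
  have hst := MO.sum_terms2 hk hB htB hNB
  have hs := Finset.sum_le_sum hterm
  rw [← Finset.mul_sum] at hs
  have hv := prod_VQ_leg k β l (le_refl K)
  have hv0 : 0 ≤ ∏ a ∈ range K, VQ (blk a) (wg β K) (l a) (GA.ht k) :=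
    Finset.prod_nonneg fun a _ => VQ_nonneg _ _ _ _
  have j1 : DD K * ∏ a ∈ range K, VQ (blk a) (wg β K) (l a) (GA.ht k) ≤ 4 * U :=
    mul_le_mul (hDD4 K le_rfl) hv hv0 (by norm_num)
  have j2 := mul_le_mul_of_nonneg_left j1 (Real.exp_pos (2 * k * (N / 2 ^ K))).le
  have j3 := mul_le_mul_of_nonneg_left hst (by positivity : 0 ≤ 4 * U)
  refine (add_le_add j2 (hs.trans j3)).trans (le_of_eq ?_)
  ring

end

end Pool.Agent.H481.GS
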