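import Pool.Agent.H481.GS1

/-!
The upper bound for the shifted moments.
-/

open Finset MeasureTheory MvPolynomial
open Pool.Agent.R319.UM

namespace Pool.Agent.H481.GS

open Pool.Agent.H481.GA

noncomputable section

theorem upper_gen {k : ℝ} (hk : 0 < k) {δ : ℝ} (hδ : 0 < δ) :
    ∃ C : ℝ, 0 < C ∧ ∀ (N : ℕ), 0 < N → ∀ R : ℕ, δ * N ≤ R → ∀ ν : Measure (Fin N → ℂ),
      IsProbabilityMeasure ν → (∀ᵐ z ∂ν, ∀ i, ‖z i‖ = 1) → TC N R ν →
      ∀ β : ℕ → ℂ, (∀ n, ‖β n‖ ≤ 1) → ∀ Z : (Fin N → ℂ) → ℝ, (∀ z, 0 ≤ Z z) →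
      (∀ z : Fin N → ℂ, (∀ i, ‖z i‖ = 1) → ∀ c : ℕ,
      Z z ≤ Real.exp (2 * k * (N / 2 ^ c) - 2 * k * (∑ n ∈ Finset.Ico 1 ((2 : ℕ) ^ c),
        (((1 - (n : ℝ) / 2 ^ c) ^ 2 / (n : ℝ) : ℝ) : ℂ) * Pg β z n).re)) →
      ∫ z, Z z ∂ν ≤ C * Real.exp (k ^ 2 * ∑ n ∈ Finset.Icc 1 N, ‖β n‖ ^ 2 / (n : ℝ)) := by
  set δ' : ℝ := min δ 1 with hδ'
  have hδ'0 : 0 < δ' := lt_min hδ one_pos
  obtain ⟨A, hA⟩ := exists_nat_ge (max (9 * k) 2)
  have hA1 : 9 * k ≤ A := (le_max_left _ _).trans hA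
  have hA2 : 2 ≤ A := by exact_mod_cast (le_max_right _ _).trans hA
  set B : ℝ := 2 * (4 * A + 1) / δ' with hB
  have hB0 : 0 < B := by positivity
  obtain ⟨t, ht⟩ := exists_nat_ge (2 * Real.exp (4 * k * B))
  have ht1 : 1 ≤ t := by
    have h1 : (1 : ℝ) ≤ Real.exp (4 * k * B) := Real.one_le_exp (by positivity)
    have h2 : (1 : ℝ) ≤ t := by linarith
    exact_mod_cast h2
  set E : ℕ := (4 * A + 1) * t with hE
  have hE0 : 0 < E := by positivity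
  set C1 : ℝ := 4 * (Real.exp (2 * k * (B * t)) + 2) with hC1
  set C2 : ℝ := Real.exp (2 * k * (E / δ')) with hC2
  have hC10 : 0 < C1 := by positivity
  have hC20 : 0 < C2 := by positivity
  refine ⟨C1 + C2, by positivity, ?_⟩
  intro N hN R hR ν hν h1 hT β hβ Z hZ0 hZ
  have hNr : (1 : ℝ) ≤ N := by exact_mod_cast hN
  set U : ℝ := Real.exp (k ^ 2 * ∑ n ∈ Finset.Icc 1 N, ‖β n‖ ^ 2 / (n : ℝ)) with hU
  have hU1 : 1 ≤ U := Real.one_le_exp (mul_nonneg (sq_nonneg k)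
    (Finset.sum_nonneg fun n _ => by positivity))
  set R' : ℕ := min R N with hR'
  have hR'N : R' ≤ N := min_le_right _ _
  have hR'δ : δ' * N ≤ R' := by
    rw [hR']
    push_cast
    refine le_min ?_ ?_
    · exact (mul_le_mul_of_nonneg_right (min_le_left _ _) (by positivity)).trans hR
    · calc δ' * N ≤ 1 * N := mul_le_mul_of_nonneg_right (min_le_right _ _) (by positivity)
        _ = N := one_mul _
  have hT' : TC N R' ν := TC_mono (min_le_left _ _) hT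
  by_cases hcase : E ≤ R'
  · set K : ℕ := Nat.log 2 (R' / E) with hK
    have hq : R' / E ≠ 0 := (Nat.div_pos hcase hE0).ne'
    have hK1 : 2 ^ K ≤ R' / E := Nat.pow_log_le_self 2 hq
    have hK2 : R' / E < 2 ^ (K + 1) := Nat.lt_pow_succ_log_self (by norm_num) _
    have hdeg : (4 * A + 1) * t * 2 ^ K ≤ R' := by
      calc E * 2 ^ K ≤ E * (R' / E) := Nat.mul_le_mul_left _ hK1
        _ ≤ R' := Nat.mul_div_le _ _
    have hup : R' < 2 ^ (K + 1) * E := (Nat.div_lt_iff_lt_mul hE0).1 hK2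
    have hNB : (N : ℝ) ≤ B * t * 2 ^ K := by
      have h2 : (R' : ℝ) ≤ 2 ^ (K + 1) * E := by exact_mod_cast hup.le
      have h3 : δ' * N ≤ 2 ^ (K + 1) * E := hR'δ.trans h2
      have h4 : (N : ℝ) ≤ 2 ^ (K + 1) * E / δ' := by
        rw [le_div_iff₀ hδ'0]
        linarith
      refine h4.trans (le_of_eq ?_)
      rw [hE, hB, pow_succ]
      push_cast
      ring
    have hm := mean_gen hk (K := K) (A := A) (t := t) hN hR'N h1 hT' hA1 hA2 ht1 hdeg hB0 ht hNB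
      hβ hZ0 hZ
    refine hm.trans ?_
    have h5 : (N : ℝ) / 2 ^ K ≤ B * t := by
      rw [div_le_iff₀ (by positivity)]
      exact hNB
    have h6 : Real.exp (2 * k * (N / 2 ^ K)) ≤ Real.exp (2 * k * (B * t)) :=
      Real.exp_le_exp.2 (mul_le_mul_of_nonneg_left h5 (by positivity))
    have h8 : 2 ^ K ≤ N := by
      calc 2 ^ K = 1 * 2 ^ K := (one_mul _).symm
        _ ≤ E * 2 ^ K := Nat.mul_le_mul_right _ hE0
        _ ≤ R' := hdeg
        _ ≤ N := hR'N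
    have h7 : Real.exp (k ^ 2 * ∑ n ∈ Finset.Ico 1 ((2 : ℕ) ^ K), ‖β n‖ ^ 2 / (n : ℝ)) ≤ U := by
      refine Real.exp_le_exp.2 (mul_le_mul_of_nonneg_left ?_ (sq_nonneg k))
      refine Finset.sum_le_sum_of_subset_of_nonneg ?_ fun n _ _ => by positivity
      intro n hn
      rw [Finset.mem_Ico] at hn
      rw [Finset.mem_Icc]
      omega
    calc 4 * Real.exp (k ^ 2 * ∑ n ∈ Finset.Ico 1 ((2 : ℕ) ^ K), ‖β n‖ ^ 2 / (n : ℝ)) *
          (Real.exp (2 * k * (N / 2 ^ K)) + 2)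
        ≤ 4 * U * (Real.exp (2 * k * (B * t)) + 2) := by
          gcongr
      _ = C1 * U := by rw [hC1]; ring
      _ ≤ (C1 + C2) * U := by
          refine mul_le_mul_of_nonneg_right ?_ (by positivity)
          linarith
  · push Not at hcase
    have hNE : (N : ℝ) ≤ E / δ' := by
      rw [le_div_iff₀ hδ'0]
      have : (R' : ℝ) ≤ E := by exact_mod_cast hcase.le
      linarith
    have hb : ∀ᵐ z ∂ν, Z z ≤ C2 := by
      filter_upwards [h1] with z hz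
      have h2 := hZ z hz 0
      simp only [pow_zero, div_one, Finset.Ico_self, Finset.sum_empty, Complex.zero_re, mul_zero,
        sub_zero] at h2
      refine h2.trans (Real.exp_le_exp.2 ?_)
      exact mul_le_mul_of_nonneg_left hNE (by positivity)
    have h3 : ∫ z, Z z ∂ν ≤ ∫ _z, C2 ∂ν :=
      integral_mono_of_nonneg (Filter.Eventually.of_forall hZ0) (integrable_const _) hb
    rw [integral_const, probReal_univ, one_smul] at h3
    calc ∫ z, Z z ∂ν ≤ C2 * 1 := by linarith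
      _ ≤ C2 * U := mul_le_mul_of_nonneg_left hU1 hC20.le
      _ ≤ (C1 + C2) * U := by
          refine mul_le_mul_of_nonneg_right ?_ (by positivity)
          linarith

/-! ### shifts -/

/-- the exponential sum of the shifts -/
def bs {d : ℕ} (k α : Fin d → ℝ) (n : ℕ) : ℂ :=
  ∑ i, (k i : ℂ) * Complex.exp (-(Complex.I * α i)) ^ n

/-- the product over the shifts -/
def Zs {N d : ℕ} (k α : Fin d → ℝ) (θ : ℝ) (z : Fin N → ℂ) : ℝ :=
  ∏ i, ‖∏ j, (Complex.exp (Complex.I * ((θ + α i : ℝ) : ℂ)) - z j)‖ ^ (2 * k i)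

lemma Zs_nonneg {N d : ℕ} (k α : Fin d → ℝ) (θ : ℝ) (z : Fin N → ℂ) : 0 ≤ Zs k α θ z :=
  Finset.prod_nonneg fun i _ => by positivity

lemma bs_norm {d : ℕ} {k : Fin d → ℝ} (hk : ∀ i, 0 < k i) (α : Fin d → ℝ) (n : ℕ) :
    ‖bs k α n‖ ≤ ∑ i, k i := by
  unfold bs
  refine (norm_sum_le _ _).trans (Finset.sum_le_sum fun i _ => ?_)
  rw [norm_mul, norm_pow, exp_norm_one, one_pow, mul_one, Complex.norm_real,
    Real.norm_of_nonneg (hk i).le]

lemma Zs_maj {N d : ℕ} {k : Fin d → ℝ} (hk : ∀ i, 0 < k i) (hs : 0 < ∑ i, k i)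
    (α : Fin d → ℝ) (θ : ℝ) {z : Fin N → ℂ} (hz : ∀ j, ‖z j‖ = 1) (c : ℕ) :
    Zs k α θ z ≤ Real.exp (2 * (∑ i, k i) * (N / 2 ^ c) -
      2 * (∑ i, k i) * (∑ n ∈ Finset.Ico 1 ((2 : ℕ) ^ c),
        (((1 - (n : ℝ) / 2 ^ c) ^ 2 / (n : ℝ) : ℝ) : ℂ) *
        Pg (fun n => Complex.exp (-(Complex.I * θ)) ^ n * bs k α n / ((∑ i, k i : ℝ) : ℂ)) z n).re) := by
  have hsc : ((∑ i, k i : ℝ) : ℂ) ≠ 0 := by exact_mod_cast hs.ne'
  unfold Zs
  have h1 : ∏ i, ‖∏ j, (Complex.exp (Complex.I * ((θ + α i : ℝ) : ℂ)) - z j)‖ ^ (2 * k i) ≤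
      ∏ i, Real.exp (2 * k i * (N / 2 ^ c) - 2 * k i * (∑ n ∈ Finset.Ico 1 ((2 : ℕ) ^ c),
        (((1 - (n : ℝ) / 2 ^ c) ^ 2 / (n : ℝ) : ℝ) : ℂ) *
          Pn (Complex.exp (-(Complex.I * ((θ + α i : ℝ) : ℂ)))) z n).re) :=
    Finset.prod_le_prod (fun i _ => by positivity)
      fun i _ => pointwise_maj (hk i) hz (θ + α i) c
  refine h1.trans (le_of_eq ?_)
  rw [← Real.exp_sum]
  congr 1
  rw [Finset.sum_sub_distrib]
  congr 1
  · rw [← Finset.sum_mul, ← Finset.mul_sum]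
  · have e1 : ∀ i : Fin d, 2 * k i * (∑ n ∈ Finset.Ico 1 ((2 : ℕ) ^ c),
        (((1 - (n : ℝ) / 2 ^ c) ^ 2 / (n : ℝ) : ℝ) : ℂ) *
          Pn (Complex.exp (-(Complex.I * ((θ + α i : ℝ) : ℂ)))) z n).re =
        (∑ n ∈ Finset.Ico 1 ((2 : ℕ) ^ c), (2 * (k i : ℂ)) *
        ((((1 - (n : ℝ) / 2 ^ c) ^ 2 / (n : ℝ) : ℝ) : ℂ) *
          Pn (Complex.exp (-(Complex.I * ((θ + α i : ℝ) : ℂ)))) z n)).re := by
      intro i
      rw [← Finset.mul_sum]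
      have : (2 * (k i : ℂ)) = ((2 * k i : ℝ) : ℂ) := by push_cast; ring
      rw [this, Complex.re_ofReal_mul]
    have e2 : 2 * (∑ i, k i) * (∑ n ∈ Finset.Ico 1 ((2 : ℕ) ^ c),
        (((1 - (n : ℝ) / 2 ^ c) ^ 2 / (n : ℝ) : ℝ) : ℂ) *
        Pg (fun n => Complex.exp (-(Complex.I * θ)) ^ n * bs k α n / ((∑ i, k i : ℝ) : ℂ)) z n).re =
        (∑ n ∈ Finset.Ico 1 ((2 : ℕ) ^ c), (2 * ((∑ i, k i : ℝ) : ℂ)) *
        ((((1 - (n : ℝ) / 2 ^ c) ^ 2 / (n : ℝ) : ℝ) : ℂ) *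
        Pg (fun n => Complex.exp (-(Complex.I * θ)) ^ n * bs k α n / ((∑ i, k i : ℝ) : ℂ)) z n)).re := by
      rw [← Finset.mul_sum]
      have : (2 * ((∑ i, k i : ℝ) : ℂ)) = ((2 * ∑ i, k i : ℝ) : ℂ) := by push_cast; ring
      rw [this, Complex.re_ofReal_mul]
    rw [e2]
    simp only [e1]
    rw [← Complex.re_sum, Finset.sum_comm]
    congr 1
    refine Finset.sum_congr rfl fun n _ => ?_
    unfold Pn Pg bs
    have e3 : ∀ i : Fin d, ∑ j, (Complex.exp (-(Complex.I * ((θ + α i : ℝ) : ℂ))) * z j) ^ n =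
        Complex.exp (-(Complex.I * θ)) ^ n * Complex.exp (-(Complex.I * α i)) ^ n * ∑ j, z j ^ n := by
      intro i
      rw [Finset.mul_sum]
      refine Finset.sum_congr rfl fun j _ => ?_
      rw [mul_pow]
      congr 1
      rw [← mul_pow, ← Complex.exp_add]
      congr 2
      push_cast
      ring
    simp only [e3]
    field_simp
    simp only [Finset.mul_sum, Finset.sum_mul]
    refine Finset.sum_congr rfl fun i _ => ?_
    refine Finset.sum_congr rfl fun j _ => ?_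
    ring

theorem upper_shift_theta {d : ℕ} {k : Fin d → ℝ} (hk : ∀ i, 0 < k i) (hs : 0 < ∑ i, k i)
    {δ : ℝ} (hδ : 0 < δ) :
    ∃ C : ℝ, 0 < C ∧ ∀ (N : ℕ), 0 < N → ∀ R : ℕ, δ * N ≤ R → ∀ ν : Measure (Fin N → ℂ),
      IsProbabilityMeasure ν → (∀ᵐ z ∂ν, ∀ i, ‖z i‖ = 1) → TC N R ν →
      ∀ (α : Fin d → ℝ) (θ : ℝ), ∫ z, Zs k α θ z ∂ν ≤
        C * Real.exp (∑ n ∈ Finset.Icc 1 N, ‖bs k α n‖ ^ 2 / (n : ℝ)) := by
  obtain ⟨C, hC, h⟩ := upper_gen hs hδ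
  refine ⟨C, hC, fun N hN R hR ν hν h1 hT α θ => ?_⟩
  have hβn : ∀ n, ‖Complex.exp (-(Complex.I * θ)) ^ n * bs k α n / ((∑ i, k i : ℝ) : ℂ)‖ =
      ‖bs k α n‖ / ∑ i, k i := by
    intro n
    rw [norm_div, norm_mul, norm_pow, exp_norm_one, one_pow, one_mul, Complex.norm_real,
      Real.norm_of_nonneg hs.le]
  have h2 := h N hN R hR ν hν h1 hT
    (fun n => Complex.exp (-(Complex.I * θ)) ^ n * bs k α n / ((∑ i, k i : ℝ) : ℂ))
    (fun n => by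
      rw [hβn, div_le_one hs]
      exact bs_norm hk α n)
    (Zs k α θ) (Zs_nonneg k α θ) (fun z hz c => Zs_maj hk hs α θ hz c)
  refine h2.trans (le_of_eq ?_)
  congr 2
  rw [Finset.mul_sum]
  refine Finset.sum_congr rfl fun n _ => ?_
  rw [hβn, div_pow]
  have : (∑ i, k i) ^ 2 ≠ 0 := by positivity
  field_simp

end

end Pool.Agent.H481.GS
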