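import Mathlib

/-!
# The truncated cosine series
-/


open Finset

namespace Pool.Agent.H481.MO

namespace TCL

theorem abs_sin_mul_le (n : ℕ) (x : ℝ) : |Real.sin (n * x)| ≤ n * |Real.sin x| := by
  induction n with
  | zero => simp
  | succ n ih =>
    have h1 : ((n + 1 : ℕ) : ℝ) * x = n * x + x := by
      push_cast
      ring
    rw [h1, Real.sin_add]
    have h2 : |Real.sin (n * x) * Real.cos x| ≤ |Real.sin (n * x)| := by
      rw [abs_mul]
      exact mul_le_of_le_one_right (abs_nonneg _) (Real.abs_cos_le_one _)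
    have h3 : |Real.cos (n * x) * Real.sin x| ≤ |Real.sin x| := by
      rw [abs_mul]
      exact mul_le_of_le_one_left (abs_nonneg _) (Real.abs_cos_le_one _)
    have h4 := abs_add_le (Real.sin (n * x) * Real.cos x) (Real.cos (n * x) * Real.sin x)
    push_cast
    linarith

/-- the sum -/
noncomputable def S (β : ℝ) (X : ℕ) : ℝ := ∑ n ∈ Finset.Icc 1 X, Real.cos (n * β) / (n : ℝ)

/-- the harmonic sum -/
noncomputable def Hs (X : ℕ) : ℝ := ∑ n ∈ Finset.Icc 1 X, 1 / (n : ℝ)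

theorem Hs_eq (X : ℕ) : Hs X = ((harmonic X : ℚ) : ℝ) := by
  unfold Hs
  rw [harmonic_eq_sum_Icc]
  push_cast
  exact sum_congr rfl fun n _ => one_div _

theorem Hs_lower (X : ℕ) : Real.log ((X : ℝ) + 1) ≤ Hs X := by
  rw [Hs_eq]
  have := log_add_one_le_harmonic X
  push_cast at this
  exact this

theorem Hs_upper (X : ℕ) : Hs X ≤ 1 + Real.log X := by
  rw [Hs_eq]
  exact harmonic_le_one_add_log X

/-- the first part -/
theorem first (β : ℝ) (Y : ℕ) (h : (Y : ℝ) * |2 * Real.sin (β / 2)| ≤ 1) :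
    |S β Y - Hs Y| ≤ 1 / 2 := by
  set s := |2 * Real.sin (β / 2)| with hs
  have hs0 : 0 ≤ s := abs_nonneg _
  have hterm : ∀ n ∈ Finset.Icc 1 Y, |Real.cos (n * β) / (n : ℝ) - 1 / (n : ℝ)| ≤
      Y * s ^ 2 / 2 := by
    intro n hn
    rw [mem_Icc] at hn
    have hn1 : (1 : ℝ) ≤ n := by exact_mod_cast hn.1
    have hn2 : (n : ℝ) ≤ Y := by exact_mod_cast hn.2
    have h1 : Real.cos (n * β) = 1 - 2 * Real.sin (n * (β / 2)) ^ 2 := by
      have h2 : (n : ℝ) * β = 2 * (n * (β / 2)) := by ring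
      rw [h2, Real.cos_two_mul, Real.sin_sq]
      ring
    have h3 := abs_sin_mul_le n (β / 2)
    have h4 : Real.sin (n * (β / 2)) ^ 2 ≤ (n * |Real.sin (β / 2)|) ^ 2 := by
      rw [← sq_abs (Real.sin (n * (β / 2)))]
      exact pow_le_pow_left₀ (abs_nonneg _) h3 2
    have h5 : s = 2 * |Real.sin (β / 2)| := by
      rw [hs, abs_mul, abs_two]
    have h6 : Real.cos (n * β) / (n : ℝ) - 1 / (n : ℝ) =
        -(2 * Real.sin (n * (β / 2)) ^ 2 / n) := by
      rw [h1]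
      ring
    rw [h6, abs_neg, abs_of_nonneg (by positivity), div_le_iff₀ (by linarith)]
    have h7 : (n * |Real.sin (β / 2)|) ^ 2 = n ^ 2 * s ^ 2 / 4 := by
      rw [h5]
      ring
    rw [h7] at h4
    have h8 : (n : ℝ) ^ 2 * s ^ 2 ≤ Y * n * s ^ 2 := by
      have : (n : ℝ) ^ 2 ≤ Y * n := by
        rw [sq]
        exact mul_le_mul_of_nonneg_right hn2 (by linarith)
      exact mul_le_mul_of_nonneg_right this (sq_nonneg _)
    nlinarith
  have h9 : S β Y - Hs Y = ∑ n ∈ Finset.Icc 1 Y, (Real.cos (n * β) / (n : ℝ) - 1 / (n : ℝ)) := by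
    unfold S Hs
    rw [sum_sub_distrib]
  rw [h9]
  refine (abs_sum_le_sum_abs _ _).trans ?_
  refine (sum_le_card_nsmul _ _ _ hterm).trans ?_
  rw [Nat.card_Icc, Nat.add_sub_cancel, nsmul_eq_mul]
  have h10 : (Y : ℝ) * (Y * s ^ 2 / 2) = (Y * s) ^ 2 / 2 := by ring
  rw [h10]
  have h11 : ((Y : ℝ) * s) ^ 2 ≤ 1 := by
    have h12 : 0 ≤ (Y : ℝ) * s := by positivity
    nlinarith
  linarith

/-- the kernel -/
noncomputable def g (β : ℝ) (n : ℕ) : ℝ :=
  Real.sin ((n + 1 / 2) * β) / (2 * Real.sin (β / 2))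

theorem g_diff (β : ℝ) (h : Real.sin (β / 2) ≠ 0) (n : ℕ) :
    Real.cos ((n + 1 : ℕ) * β) = g β (n + 1) - g β n := by
  unfold g
  rw [← sub_div, eq_div_iff (mul_ne_zero two_ne_zero h)]
  have h1 : (((n + 1 : ℕ) : ℝ) + 1 / 2) * β = ((n + 1 : ℕ) : ℝ) * β + β / 2 := by ring
  have h2 : ((n : ℝ) + 1 / 2) * β = ((n + 1 : ℕ) : ℝ) * β - β / 2 := by
    push_cast
    ring
  rw [h1, h2, Real.sin_add, Real.sin_sub]
  ring

theorem g_le (β : ℝ) (n : ℕ) : |g β n| ≤ 1 / |2 * Real.sin (β / 2)| := by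
  unfold g
  rw [abs_div]
  exact div_le_div_of_nonneg_right (Real.abs_sin_le_one _) (abs_nonneg _)

theorem S_succ (β : ℝ) (X : ℕ) :
    S β (X + 1) = S β X + Real.cos ((X + 1 : ℕ) * β) / ((X + 1 : ℕ) : ℝ) := by
  unfold S
  rw [Finset.sum_Icc_succ_top (by omega)]

/-- summation by parts -/
theorem second (β : ℝ) (h : Real.sin (β / 2) ≠ 0) (Y k : ℕ) :
    |S β (Y + k) - S β Y - g β (Y + k) / ((Y : ℝ) + k + 1)| ≤
      1 / |2 * Real.sin (β / 2)| * (2 / ((Y : ℝ) + 1) - 1 / ((Y : ℝ) + k + 1)) := by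
  induction k with
  | zero =>
    have h1 := g_le β Y
    have h2 : (0 : ℝ) < (Y : ℝ) + 1 := by positivity
    simp only [Nat.add_zero, sub_self, Nat.cast_zero, add_zero, zero_sub, abs_neg]
    rw [abs_div, abs_of_pos h2]
    have h3 : 2 / ((Y : ℝ) + 1) - 1 / ((Y : ℝ) + 1) = 1 / ((Y : ℝ) + 1) := by ring
    rw [h3, mul_one_div]
    exact div_le_div_of_nonneg_right h1 h2.le
  | succ k ih =>
    have h1 := g_le β (Y + k + 1)
    have h2 : (0 : ℝ) < (Y : ℝ) + k + 1 := by positivity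
    have h3 : (0 : ℝ) < (Y : ℝ) + k + 2 := by positivity
    have e1 : Y + (k + 1) = Y + k + 1 := rfl
    rw [e1, S_succ, g_diff β h]
    have e2 : ((Y + k + 1 : ℕ) : ℝ) = (Y : ℝ) + k + 1 := by push_cast; ring
    have e3 : (Y : ℝ) + ((k + 1 : ℕ) : ℝ) + 1 = (Y : ℝ) + k + 2 := by push_cast; ring
    rw [e2, e3]
    have h4 : 0 ≤ 1 / ((Y : ℝ) + k + 1) - 1 / ((Y : ℝ) + k + 2) := by
      rw [sub_nonneg]
      exact one_div_le_one_div_of_le h2 (by linarith)
    have e4 : S β (Y + k) + (g β (Y + k + 1) - g β (Y + k)) / ((Y : ℝ) + k + 1) - S β Y -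
        g β (Y + k + 1) / ((Y : ℝ) + k + 2) =
        (S β (Y + k) - S β Y - g β (Y + k) / ((Y : ℝ) + k + 1)) +
        g β (Y + k + 1) * (1 / ((Y : ℝ) + k + 1) - 1 / ((Y : ℝ) + k + 2)) := by ring
    rw [e4]
    refine (abs_add_le _ _).trans ?_
    rw [abs_mul, abs_of_nonneg h4]
    have h5 := mul_le_mul_of_nonneg_right h1 h4
    have e5 : 1 / |2 * Real.sin (β / 2)| * (2 / ((Y : ℝ) + 1) - 1 / ((Y : ℝ) + k + 2)) =
        1 / |2 * Real.sin (β / 2)| * (2 / ((Y : ℝ) + 1) - 1 / ((Y : ℝ) + k + 1)) +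
        1 / |2 * Real.sin (β / 2)| * (1 / ((Y : ℝ) + k + 1) - 1 / ((Y : ℝ) + k + 2)) := by ring
    rw [e5]
    exact add_le_add ih h5

theorem tail (β : ℝ) (h : Real.sin (β / 2) ≠ 0) (Y k : ℕ)
    (hY : 1 / |2 * Real.sin (β / 2)| ≤ (Y : ℝ) + 1) : |S β (Y + k) - S β Y| ≤ 2 := by
  have h1 := second β h Y k
  have h2 := g_le β (Y + k)
  have h3 : (0 : ℝ) < (Y : ℝ) + k + 1 := by positivity
  have h4 : (0 : ℝ) < (Y : ℝ) + 1 := by positivity
  set K := 1 / |2 * Real.sin (β / 2)| with hK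
  have h5 : |g β (Y + k) / ((Y : ℝ) + k + 1)| ≤ K * (1 / ((Y : ℝ) + k + 1)) := by
    rw [abs_div, abs_of_pos h3, mul_one_div]
    exact div_le_div_of_nonneg_right h2 h3.le
  have h6 : |S β (Y + k) - S β Y| ≤
      |S β (Y + k) - S β Y - g β (Y + k) / ((Y : ℝ) + k + 1)| +
      |g β (Y + k) / ((Y : ℝ) + k + 1)| := by
    have := abs_add_le (S β (Y + k) - S β Y - g β (Y + k) / ((Y : ℝ) + k + 1))
      (g β (Y + k) / ((Y : ℝ) + k + 1))
    rwa [sub_add_cancel] at this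
  have h7 : K * (2 / ((Y : ℝ) + 1)) ≤ 2 := by
    rw [mul_div_assoc', div_le_iff₀ h4]
    linarith
  have h8 : K * (2 / ((Y : ℝ) + 1) - 1 / ((Y : ℝ) + k + 1)) + K * (1 / ((Y : ℝ) + k + 1)) =
      K * (2 / ((Y : ℝ) + 1)) := by ring
  linarith

end TCL

open TCL in
/-- TC. The classical estimate of the truncated cosine series. -/
theorem cos_sum : ∃ C : ℝ, 0 < C ∧ ∀ (β : ℝ) (X : ℕ), 1 ≤ X →
    |∑ n ∈ Finset.Icc 1 X, Real.cos (n * β) / (n : ℝ) +
      Real.log (max (1 / (X : ℝ)) |2 * Real.sin (β / 2)|)| ≤ C := by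
  refine ⟨4, by norm_num, fun β X hX => ?_⟩
  have hX0 : (1 : ℝ) ≤ X := by exact_mod_cast hX
  have hXp : (0 : ℝ) < X := by linarith
  change |S β X + Real.log (max (1 / (X : ℝ)) |2 * Real.sin (β / 2)|)| ≤ 4
  set s := |2 * Real.sin (β / 2)| with hs
  have hs0 : 0 ≤ s := abs_nonneg _
  have hs2 : s ≤ 2 := by
    rw [hs, abs_mul, abs_two]
    have := Real.abs_sin_le_one (β / 2)
    linarith
  rcases le_or_gt s (1 / (X : ℝ)) with h | h
  · rw [max_eq_left h, one_div, Real.log_inv]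
    have h1 : (X : ℝ) * s ≤ 1 := by
      rw [le_div_iff₀ hXp] at h
      linarith
    have h2 := abs_le.mp (first β X h1)
    have h3 := Hs_lower X
    have h4 := Hs_upper X
    have h5 : Real.log X ≤ Real.log ((X : ℝ) + 1) := Real.log_le_log hXp (by linarith)
    rw [abs_le]
    constructor <;> linarith
  · rw [max_eq_right h.le]
    have hsp : 0 < s := lt_trans (by positivity) h
    have hsin : Real.sin (β / 2) ≠ 0 := by
      intro h0
      rw [hs, h0, mul_zero, abs_zero] at hsp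
      exact lt_irrefl _ hsp
    set Y := ⌊1 / s⌋₊ with hY
    have h1s : 0 ≤ 1 / s := by positivity
    have hY1 : (Y : ℝ) ≤ 1 / s := Nat.floor_le h1s
    have hY2 : 1 / s < (Y : ℝ) + 1 := Nat.lt_floor_add_one _
    have hYX : Y ≤ X := by
      have h1 : (Y : ℝ) < X := by
        refine lt_of_le_of_lt hY1 ?_
        rw [div_lt_iff₀ hsp]
        rw [div_lt_iff₀ hXp] at h
        linarith
      exact_mod_cast h1.le
    obtain ⟨k, rfl⟩ := Nat.exists_eq_add_of_le hYX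
    have h1 : (Y : ℝ) * s ≤ 1 := by
      rw [le_div_iff₀ hsp] at hY1
      exact hY1
    have h2 := abs_le.mp (first β Y h1)
    have h3 := abs_le.mp (tail β hsin Y k hY2.le)
    have h4 : -Real.log s ≤ Hs Y := by
      have h5 := Hs_lower Y
      have h6 : Real.log (1 / s) ≤ Real.log ((Y : ℝ) + 1) :=
        Real.log_le_log (by positivity) hY2.le
      rw [one_div, Real.log_inv] at h6
      linarith
    have h5 : Hs Y ≤ 1 - Real.log s := by
      rcases Nat.eq_zero_or_pos Y with h0 | h0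
      · have h6 : Hs Y = 0 := by
          rw [h0]
          simp [Hs]
        rw [h6]
        have h7 : Real.log s ≤ s - 1 := Real.log_le_sub_one_of_pos hsp
        linarith
      · have h6 := Hs_upper Y
        have hYp : (0 : ℝ) < Y := by exact_mod_cast h0
        have h7 : Real.log Y ≤ Real.log (1 / s) := Real.log_le_log hYp hY1
        rw [one_div, Real.log_inv] at h7
        linarith
    rw [abs_le]
    constructor <;> linarith

end Pool.Agent.H481.MO
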