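import Mathlib

/-!
# Tauberian lower bound for the exponential of a nonnegative series
-/


open Finset Polynomial

namespace Pool.Agent.H481.MO.TB

/-- the sequence given by the recursion -/
noncomputable def gx (a : ℕ → ℝ) : ℕ → ℝ
  | 0 => 1
  | m + 1 => (∑ n : Fin (m + 1), a ((n : ℕ) + 1) * gx a (m - n)) / ((m : ℝ) + 1)
termination_by m => m
decreasing_by omega

theorem gx_zero (a : ℕ → ℝ) : gx a 0 = 1 := by rw [gx]

theorem gx_succ (a : ℕ → ℝ) (m : ℕ) : ((m : ℝ) + 1) * gx a (m + 1) =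
    ∑ n ∈ range (m + 1), a (n + 1) * gx a (m - n) := by
  have h : ((m : ℝ) + 1) ≠ 0 := by positivity
  rw [gx, mul_div_cancel₀ _ h, Finset.sum_range (fun n => a (n + 1) * gx a (m - n))]

theorem gx_nonneg {a : ℕ → ℝ} (ha : ∀ n, 0 ≤ a n) (m : ℕ) : 0 ≤ gx a m := by
  induction m using Nat.strong_induction_on with
  | _ m ih =>
    rcases m with _ | m
    · rw [gx_zero]; exact zero_le_one
    · have h := gx_succ a m
      have h1 : 0 ≤ ∑ n ∈ range (m + 1), a (n + 1) * gx a (m - n) :=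
        Finset.sum_nonneg fun n _ => mul_nonneg (ha _) (ih _ (by omega))
      have h2 : (0 : ℝ) < (m : ℝ) + 1 := by positivity
      rw [← h] at h1
      exact nonneg_of_mul_nonneg_right h1 h2

/-- the polynomial in the exponent -/
noncomputable def PP (a : ℕ → ℝ) (R : ℕ) : ℝ[X] :=
  ∑ n ∈ range R, C (a (n + 1) / ((n : ℝ) + 1)) * X ^ (n + 1)

/-- the partial sums of its exponential -/
noncomputable def HH (a : ℕ → ℝ) (R J : ℕ) : ℝ[X] :=
  ∑ j ∈ range (J + 1), C (1 / (j.factorial : ℝ)) * PP a R ^ j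

theorem coeff_dPP {a : ℕ → ℝ} {R : ℕ} (hR : ∀ n, R < n → a n = 0) (i : ℕ) :
    (derivative (PP a R)).coeff i = a (i + 1) := by
  rw [coeff_derivative, PP, finsetSum_coeff]
  simp only [coeff_C_mul, coeff_X_pow]
  by_cases hi : i < R
  · rw [Finset.sum_eq_single i]
    · rw [if_pos rfl, mul_one, div_mul_cancel₀]
      positivity
    · intro b _ hb
      rw [if_neg (by omega), mul_zero]
    · intro h
      exact absurd (mem_range.2 hi) h
  · rw [Finset.sum_eq_zero, zero_mul, hR _ (by omega)]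
    intro b hb
    rw [if_neg (by have := mem_range.1 hb; omega), mul_zero]

theorem coeff_PP_zero (a : ℕ → ℝ) (R : ℕ) : (PP a R).coeff 0 = 0 := by
  rw [PP, finsetSum_coeff]
  simp only [coeff_C_mul, coeff_X_pow]
  apply Finset.sum_eq_zero
  intro b _
  rw [if_neg (by omega), mul_zero]

theorem derivative_HH (a : ℕ → ℝ) (R J : ℕ) :
    derivative (HH a R (J + 1)) = derivative (PP a R) * HH a R J := by
  rw [HH, Finset.sum_range_succ', derivative_add, derivative_sum, HH, Finset.mul_sum]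
  rw [pow_zero, mul_one, derivative_C, add_zero]
  refine Finset.sum_congr rfl fun j _ => ?_
  rw [derivative_C_mul, derivative_pow_succ, Nat.factorial_succ]
  have h : (C (1 / (((j + 1) * j.factorial : ℕ) : ℝ)) : ℝ[X]) * C (((j + 1 : ℕ) : ℝ)) =
      C (1 / (j.factorial : ℝ)) := by
    rw [← C_mul]
    congr 1
    have h1 : ((j : ℝ) + 1) ≠ 0 := by positivity
    have h2 : ((j.factorial : ℕ) : ℝ) ≠ 0 := by positivity
    push_cast
    field_simp
  have h3 : (C ((j : ℝ) + 1) : ℝ[X]) = C (((j + 1 : ℕ) : ℝ)) := by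
    push_cast
    rfl
  calc _ = (C (1 / (((j + 1) * j.factorial : ℕ) : ℝ)) * C (((j + 1 : ℕ) : ℝ))) *
        (PP a R ^ j * derivative (PP a R)) := by
        rw [h3]
        ring
    _ = _ := by rw [h]; ring

theorem coeff_HH_le {a : ℕ → ℝ} (ha : ∀ n, 0 ≤ a n) {R : ℕ} (hR : ∀ n, R < n → a n = 0) (m : ℕ) :
    ∀ J, (HH a R J).coeff m ≤ gx a m := by
  induction m using Nat.strong_induction_on with
  | _ m ih =>
    intro J
    rcases m with _ | m
    · rw [gx_zero, HH, finsetSum_coeff, Finset.sum_range_succ', Finset.sum_eq_zero]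
      · simp
      · intro j _
        rw [coeff_C_mul, pow_succ, mul_coeff_zero, coeff_PP_zero, mul_zero, mul_zero]
    · rcases J with _ | J
      · have h0 : (HH a R 0) = 1 := by simp [HH]
        rw [h0, coeff_one, if_neg (by omega)]
        exact gx_nonneg ha _
      · have h1 : (derivative (HH a R (J + 1))).coeff m =
            ∑ n ∈ range (m + 1), a (n + 1) * (HH a R J).coeff (m - n) := by
          rw [derivative_HH, coeff_mul, Finset.Nat.sum_antidiagonal_eq_sum_range_succ_mk]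
          refine Finset.sum_congr rfl fun n _ => ?_
          rw [coeff_dPP hR]
        rw [coeff_derivative] at h1
        have h2 : ∑ n ∈ range (m + 1), a (n + 1) * (HH a R J).coeff (m - n) ≤
            ∑ n ∈ range (m + 1), a (n + 1) * gx a (m - n) :=
          Finset.sum_le_sum fun n _ => mul_le_mul_of_nonneg_left (ih _ (by omega) J) (ha _)
        rw [← h1, ← gx_succ, mul_comm] at h2
        exact le_of_mul_le_mul_left h2 (by positivity)

/-- Markov's inequality -/
theorem markov {a : ℕ → ℝ} {A x : ℝ} (hA : 0 ≤ A) (ha : ∀ n, 0 ≤ a n) (ha2 : ∀ n, a n ≤ A)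
    (hx : 0 ≤ x) (hx1 : x < 1) {R : ℕ} (hR : 1 ≤ R) (h : A * x ≤ (R : ℝ) / 2 * (1 - x)) (M : ℕ) :
    ∑ m ∈ range (M + 1), gx a m * x ^ m ≤ 2 * ∑ m ∈ range (R + 1), gx a m * x ^ m := by
  have hR0 : (0 : ℝ) < R := by exact_mod_cast hR
  have hw : ∀ m, 0 ≤ gx a m * x ^ m := fun m => mul_nonneg (gx_nonneg ha m) (pow_nonneg hx m)
  have hgeom : ∀ N : ℕ, ∑ n ∈ range N, a (n + 1) * x ^ (n + 1) ≤ (R : ℝ) / 2 := by
    intro N
    have h1 : ∑ n ∈ range N, a (n + 1) * x ^ (n + 1) ≤ A * x * ∑ n ∈ range N, x ^ n := by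
      rw [Finset.mul_sum]
      refine Finset.sum_le_sum fun n _ => ?_
      rw [pow_succ]
      have h2 := mul_le_mul_of_nonneg_right (ha2 (n + 1)) (mul_nonneg (pow_nonneg hx n) hx)
      linarith
    have h3 : (∑ n ∈ range N, x ^ n) * (1 - x) ≤ 1 := by
      have h4 := geom_sum_mul_neg x N
      rw [h4]
      have := pow_nonneg hx N
      linarith
    have h5 : 0 < 1 - x := by linarith
    have h6 : 0 ≤ ∑ n ∈ range N, x ^ n := Finset.sum_nonneg fun n _ => pow_nonneg hx n
    have h7 : A * x * (∑ n ∈ range N, x ^ n) ≤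
        (R : ℝ) / 2 * (1 - x) * (∑ n ∈ range N, x ^ n) := mul_le_mul_of_nonneg_right h h6
    have h8 : (R : ℝ) / 2 * (1 - x) * (∑ n ∈ range N, x ^ n) =
        (R : ℝ) / 2 * ((∑ n ∈ range N, x ^ n) * (1 - x)) := by ring
    have h9 : (R : ℝ) / 2 * ((∑ n ∈ range N, x ^ n) * (1 - x)) ≤ (R : ℝ) / 2 * 1 :=
      mul_le_mul_of_nonneg_left h3 (by positivity)
    linarith
  -- the mean
  have hmean : ∑ m ∈ range (M + 1), (m : ℝ) * (gx a m * x ^ m) ≤
      (R : ℝ) / 2 * ∑ m ∈ range (M + 1), gx a m * x ^ m := by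
    rw [Finset.sum_range_succ']
    have e1 : ∀ m ∈ range M, ((m + 1 : ℕ) : ℝ) * (gx a (m + 1) * x ^ (m + 1)) =
        ∑ k ∈ range (m + 1), (a (k + 1) * x ^ (k + 1)) * (gx a (m - k) * x ^ (m - k)) := by
      intro m _
      push_cast
      rw [← mul_assoc, gx_succ, Finset.sum_mul]
      refine Finset.sum_congr rfl fun k hk => ?_
      have hk' := mem_range.1 hk
      have e2 : x ^ (m + 1) = x ^ (k + 1) * x ^ (m - k) := by
        rw [← pow_add]
        congr 1
        omega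
      rw [e2]
      ring
    rw [Finset.sum_congr rfl e1, Finset.sum_range_diag_flip M
      (fun k l => (a (k + 1) * x ^ (k + 1)) * (gx a l * x ^ l))]
    have e3 : ∑ m ∈ range M, ∑ k ∈ range (M - m), (a (m + 1) * x ^ (m + 1)) * (gx a k * x ^ k) ≤
        ∑ m ∈ range M, (a (m + 1) * x ^ (m + 1)) * ∑ k ∈ range (M + 1), gx a k * x ^ k := by
      refine Finset.sum_le_sum fun m _ => ?_
      rw [← Finset.mul_sum]
      apply mul_le_mul_of_nonneg_left _ (mul_nonneg (ha _) (pow_nonneg hx _))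
      apply Finset.sum_le_sum_of_subset_of_nonneg
      · intro k hk
        rw [mem_range] at hk ⊢
        omega
      · intro k _ _
        exact hw k
    rw [← Finset.sum_mul] at e3
    have e4 := mul_le_mul_of_nonneg_right (hgeom M)
      (Finset.sum_nonneg fun m (_ : m ∈ range (M + 1)) => hw m)
    simp only [Nat.cast_zero, zero_mul, add_zero]
    exact e3.trans e4
  -- the tail
  have htail : ∑ m ∈ range (M + 1), gx a m * x ^ m ≤ ∑ m ∈ range (R + 1), gx a m * x ^ m +
      (1 / (R : ℝ)) * ∑ m ∈ range (M + 1), (m : ℝ) * (gx a m * x ^ m) := by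
    have e1 : ∀ m ∈ range (M + 1), gx a m * x ^ m ≤
        (if m < R + 1 then gx a m * x ^ m else 0) + (1 / (R : ℝ)) * ((m : ℝ) * (gx a m * x ^ m)) := by
      intro m _
      by_cases hm : m < R + 1
      · rw [if_pos hm]
        have : 0 ≤ (1 / (R : ℝ)) * ((m : ℝ) * (gx a m * x ^ m)) := by
          have := hw m
          positivity
        linarith
      · rw [if_neg hm, zero_add, ← mul_assoc]
        have h1 : 1 ≤ 1 / (R : ℝ) * m := by
          rw [one_div, inv_mul_eq_div, one_le_div hR0]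
          have : R ≤ m := by omega
          exact_mod_cast this
        have h2 := mul_le_mul_of_nonneg_right h1 (hw m)
        linarith
    refine (Finset.sum_le_sum e1).trans ?_
    rw [Finset.sum_add_distrib, ← Finset.mul_sum]
    have e2 : ∑ m ∈ range (M + 1), (if m < R + 1 then gx a m * x ^ m else 0) ≤
        ∑ m ∈ range (R + 1), gx a m * x ^ m := by
      rw [← Finset.sum_filter]
      apply Finset.sum_le_sum_of_subset_of_nonneg
      · intro k hk
        exact mem_range.2 (mem_filter.1 hk).2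
      · intro k _ _
        exact hw k
    linarith
  have h1 : (1 / (R : ℝ)) * ∑ m ∈ range (M + 1), (m : ℝ) * (gx a m * x ^ m) ≤
      (1 / (R : ℝ)) * ((R : ℝ) / 2 * ∑ m ∈ range (M + 1), gx a m * x ^ m) :=
    mul_le_mul_of_nonneg_left hmean (by positivity)
  have h2 : (1 / (R : ℝ)) * ((R : ℝ) / 2 * ∑ m ∈ range (M + 1), gx a m * x ^ m) =
      (∑ m ∈ range (M + 1), gx a m * x ^ m) / 2 := by
    field_simp
  linarith

theorem exp_le {p c : ℝ} (hp : 0 ≤ p)
    (h : ∀ J, ∑ j ∈ range (J + 1), p ^ j / (j.factorial : ℝ) ≤ c) : Real.exp p ≤ c := by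
  have h1 : Real.exp p = ∑' j : ℕ, p ^ j / (j.factorial : ℝ) := by
    have h2 := NormedSpace.expSeries_div_hasSum_exp p
    rw [h2.tsum_eq, Real.exp_eq_exp_ℝ]
  rw [h1]
  apply Real.tsum_le_of_sum_range_le
  · intro n
    positivity
  · intro n
    refine le_trans ?_ (h n)
    rw [Finset.sum_range_succ]
    have : 0 ≤ p ^ n / (n.factorial : ℝ) := by positivity
    linarith

theorem eval_PP {a : ℕ → ℝ} {R : ℕ} (x : ℝ) :
    (PP a R).eval x = ∑ n ∈ Icc 1 R, a n * x ^ n / (n : ℝ) := by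
  rw [PP, eval_finsetSum]
  have h := Finset.sum_Ico_eq_sum_range (fun n => a n * x ^ n / (n : ℝ)) 1 (R + 1)
  have e : Icc 1 R = Ico 1 (R + 1) := by
    ext n
    rw [mem_Icc, mem_Ico]
    omega
  rw [e, h, Nat.add_sub_cancel]
  refine Finset.sum_congr rfl fun n _ => ?_
  rw [eval_mul, eval_C, eval_pow, eval_X, add_comm 1 n]
  push_cast
  ring

theorem eval_HH_le {a : ℕ → ℝ} (ha : ∀ n, 0 ≤ a n) {R : ℕ} (hR : ∀ n, R < n → a n = 0) {x : ℝ}
    (hx : 0 ≤ x) (J : ℕ) : ∃ M, (HH a R J).eval x ≤ ∑ m ∈ range (M + 1), gx a m * x ^ m := by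
  refine ⟨(HH a R J).natDegree, ?_⟩
  rw [eval_eq_sum_range]
  exact Finset.sum_le_sum fun m _ =>
    mul_le_mul_of_nonneg_right (coeff_HH_le ha hR m J) (pow_nonneg hx m)

theorem eval_HH {a : ℕ → ℝ} {R : ℕ} (x : ℝ) (J : ℕ) :
    (HH a R J).eval x = ∑ j ∈ range (J + 1), (PP a R).eval x ^ j / (j.factorial : ℝ) := by
  rw [HH, eval_finsetSum]
  refine Finset.sum_congr rfl fun j _ => ?_
  rw [eval_mul, eval_C, eval_pow]
  ring

/-- TB. -/
theorem tauber {A : ℝ} (hA : 0 < A) : ∃ c : ℝ, 0 < c ∧ ∀ (R : ℕ), 1 ≤ R → ∀ (a : ℕ → ℝ),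
    (∀ n, 0 ≤ a n ∧ a n ≤ A) → ∀ (g : ℕ → ℝ), g 0 = 1 →
    (∀ m, m < R → ((m : ℝ) + 1) * g (m + 1) = ∑ n ∈ Finset.range (m + 1), a (n + 1) * g (m - n)) →
    c * Real.exp (∑ n ∈ Finset.Icc 1 R, a n / (n : ℝ)) ≤ ∑ m ∈ Finset.range (R + 1), g m := by
  refine ⟨Real.exp (-(2 * A ^ 2)) / 2, by positivity, ?_⟩
  intro R hR a ha g hg0 hg
  have hR0 : (0 : ℝ) < R := by exact_mod_cast hR
  obtain ⟨b, hb⟩ : ∃ b : ℕ → ℝ, b = fun n => if n ≤ R then a n else 0 := ⟨_, rfl⟩
  have hb0 : ∀ n, 0 ≤ b n := by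
    intro n
    rw [hb]
    dsimp only
    split_ifs
    · exact (ha n).1
    · exact le_rfl
  have hbA : ∀ n, b n ≤ A := by
    intro n
    rw [hb]
    dsimp only
    split_ifs
    · exact (ha n).2
    · exact hA.le
  have hbR : ∀ n, R < n → b n = 0 := by
    intro n hn
    rw [hb]
    dsimp only
    rw [if_neg (by omega)]
  have hbe : ∀ n, n ≤ R → b n = a n := by
    intro n hn
    rw [hb]
    dsimp only
    rw [if_pos hn]
  have hge : ∀ m, m ≤ R → gx b m = g m := by
    intro m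
    induction m using Nat.strong_induction_on with
    | _ m ih =>
      intro hm
      rcases m with _ | m
      · rw [gx_zero, hg0]
      · have h1 := gx_succ b m
        have h2 := hg m (by omega)
        have h3 : ∑ n ∈ range (m + 1), b (n + 1) * gx b (m - n) =
            ∑ n ∈ range (m + 1), a (n + 1) * g (m - n) := by
          refine Finset.sum_congr rfl fun n hn => ?_
          have hn' := mem_range.1 hn
          rw [hbe _ (by omega), ih _ (by omega) (by omega)]
        rw [h3, ← h2] at h1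
        exact mul_left_cancel₀ (by positivity) h1
  -- the point
  obtain ⟨x, hx⟩ : ∃ x : ℝ, x = R / (R + 2 * A) := ⟨_, rfl⟩
  have hden : (0 : ℝ) < R + 2 * A := by positivity
  have hx0 : 0 ≤ x := by rw [hx]; positivity
  have hx1' : 1 - x = 2 * A / (R + 2 * A) := by
    rw [hx]
    field_simp
    ring
  have hx1 : x < 1 := by
    have : 0 < 2 * A / (R + 2 * A) := by positivity
    linarith
  have hxA : A * x ≤ (R : ℝ) / 2 * (1 - x) := by
    rw [hx1', hx]
    apply le_of_eq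
    ring
  have hRx : (R : ℝ) * (1 - x) ≤ 2 * A := by
    rw [hx1', ← mul_div_assoc, div_le_iff₀ hden]
    nlinarith
  have hS : ∑ m ∈ range (R + 1), gx b m * x ^ m ≤ ∑ m ∈ range (R + 1), g m := by
    refine Finset.sum_le_sum fun m hm => ?_
    have hm' := mem_range.1 hm
    rw [hge m (by omega)]
    have h1 : 0 ≤ g m := by
      rw [← hge m (by omega)]
      exact gx_nonneg hb0 m
    have h2 : x ^ m ≤ 1 := pow_le_one₀ hx0 hx1.le
    nlinarith
  obtain ⟨p, hp⟩ : ∃ p : ℝ, p = (PP b R).eval x := ⟨_, rfl⟩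
  have hp' : p = ∑ n ∈ Icc 1 R, a n * x ^ n / (n : ℝ) := by
    rw [hp, eval_PP]
    refine Finset.sum_congr rfl fun n hn => ?_
    rw [hbe n (mem_Icc.1 hn).2]
  have hp0 : 0 ≤ p := by
    rw [hp']
    refine Finset.sum_nonneg fun n _ => ?_
    have := (ha n).1
    positivity
  have hexp : Real.exp p ≤ 2 * ∑ m ∈ range (R + 1), g m := by
    apply exp_le hp0
    intro J
    have h1 := eval_HH (a := b) (R := R) x J
    rw [← hp] at h1
    rw [← h1]
    obtain ⟨M, hM⟩ := eval_HH_le hb0 hbR hx0 J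
    have h2 := markov hA.le hb0 hbA hx0 hx1 hR hxA M
    linarith
  have hdiff : ∑ n ∈ Icc 1 R, a n / (n : ℝ) ≤ p + 2 * A ^ 2 := by
    have h1 : ∑ n ∈ Icc 1 R, a n / (n : ℝ) ≤ ∑ n ∈ Icc 1 R, (a n * x ^ n / (n : ℝ) + A * (1 - x)) := by
      refine Finset.sum_le_sum fun n hn => ?_
      have hn1 := (mem_Icc.1 hn).1
      have hn0 : (0 : ℝ) < n := by exact_mod_cast hn1
      have h2 : 1 - x ^ n ≤ n * (1 - x) := by
        have h3 := one_add_mul_le_pow (a := x - 1) (by linarith) n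
        rw [add_sub_cancel] at h3
        linarith
      have h4 : a n * (1 - x ^ n) ≤ A * (n * (1 - x)) := by
        have h5 : 0 ≤ 1 - x ^ n := by
          have := pow_le_one₀ (n := n) hx0 hx1.le
          linarith
        exact mul_le_mul (ha n).2 h2 h5 hA.le
      have h6 : a n / (n : ℝ) - a n * x ^ n / (n : ℝ) ≤ A * (1 - x) := by
        rw [← sub_div, div_le_iff₀ hn0]
        linarith
      linarith
    rw [Finset.sum_add_distrib, ← hp', Finset.sum_const, Nat.card_Icc, Nat.add_sub_cancel,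
      nsmul_eq_mul] at h1
    have h7 : (R : ℝ) * (A * (1 - x)) ≤ 2 * A ^ 2 := by nlinarith
    linarith
  have h8 : Real.exp (∑ n ∈ Icc 1 R, a n / (n : ℝ)) ≤ Real.exp p * Real.exp (2 * A ^ 2) := by
    rw [← Real.exp_add]
    exact Real.exp_le_exp.2 hdiff
  have h9 : Real.exp (-(2 * A ^ 2)) * Real.exp (2 * A ^ 2) = 1 := by
    rw [← Real.exp_add, neg_add_cancel, Real.exp_zero]
  have h10 : 0 < Real.exp (-(2 * A ^ 2)) := Real.exp_pos _
  calc Real.exp (-(2 * A ^ 2)) / 2 * Real.exp (∑ n ∈ Icc 1 R, a n / (n : ℝ))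
      ≤ Real.exp (-(2 * A ^ 2)) / 2 * (Real.exp p * Real.exp (2 * A ^ 2)) :=
        mul_le_mul_of_nonneg_left h8 (by positivity)
    _ = (Real.exp (-(2 * A ^ 2)) * Real.exp (2 * A ^ 2)) * Real.exp p / 2 := by ring
    _ = Real.exp p / 2 := by rw [h9, one_mul]
    _ ≤ ∑ m ∈ range (R + 1), g m := by linarith

end Pool.Agent.H481.MO.TB
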