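import Pool.Agent.H481.GS2
import Pool.Agent.H481.MO8
import Pool.Agent.H481.MO9
import Pool.Agent.H481.MO10

/-!
The lower bound with general coefficients.
-/

open Finset MeasureTheory MvPolynomial
open Pool.Agent.R319.UM

namespace Pool.Agent.H481.GS

open Pool.Agent.H481.GA

noncomputable section

variable {N : ℕ}

/-- the Taylor coefficients of `exp (-∑ β_n p_n w^n / n)` as polynomials in the power sums -/
def cg (β : ℕ → ℂ) : ℕ → MvPolynomial (Fin N) ℂ
  | 0 => 1
  | m + 1 => C (-1 / ((m : ℂ) + 1)) *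
      ∑ n : Fin (m + 1), C (β (n + 1)) * (psum (Fin N) ℂ (n + 1) * cg β (m - n))
decreasing_by omega

lemma cg_zero (β : ℕ → ℂ) : (cg β 0 : MvPolynomial (Fin N) ℂ) = 1 := by
  rw [cg]

lemma cg_succ (β : ℕ → ℂ) (m : ℕ) : (cg β (m + 1) : MvPolynomial (Fin N) ℂ) =
    C (-1 / ((m : ℂ) + 1)) * ∑ n ∈ range (m + 1),
      C (β (n + 1)) * (psum (Fin N) ℂ (n + 1) * cg β (m - n)) := by
  rw [cg, Finset.sum_range (fun n => C (β (n + 1)) * (psum (Fin N) ℂ (n + 1) * cg β (m - n)))]

lemma cg_mem (β : ℕ → ℂ) (m : ℕ) : (cg β m : MvPolynomial (Fin N) ℂ) ∈ PSp N m := by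
  induction m using Nat.strong_induction_on with
  | _ m ih =>
    rcases m with _ | m
    · rw [cg_zero]
      exact one_memP 0
    · rw [cg_succ]
      refine C_memP _ (Submodule.sum_mem _ fun n hn => C_memP _ ?_)
      have hn' := Finset.mem_range.1 hn
      refine PSp_mono ?_ (mul_memP (psum_mem (by omega)) (ih (m - n) (by omega)))
      omega

lemma kap_cg (β : ℕ → ℂ) (m : ℕ) : kap (cg β (m + 1) : MvPolynomial (Fin N) ℂ) =
    fun d => ∑ n ∈ range (m + 1), (-(β (n + 1)) / ((m : ℂ) + 1)) *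
      Tm ((n + 1 : ℕ) : ℤ) (kap (cg β (m - n) : MvPolynomial (Fin N) ℂ)) d := by
  funext d
  rw [cg_succ, kap_C, kap_sum]
  simp only [kap_C, kap_psum]
  rw [Finset.mul_sum]
  refine Finset.sum_congr rfl fun n _ => ?_
  ring

lemma kap_cg_succ (β : ℕ → ℂ) (m : ℕ) (d : Fin N → ℤ) :
    ((m : ℂ) + 1) * kap (cg β (m + 1) : MvPolynomial (Fin N) ℂ) d =
      -∑ n ∈ range (m + 1), β (n + 1) *
        Tm ((n + 1 : ℕ) : ℤ) (kap (cg β (m - n) : MvPolynomial (Fin N) ℂ)) d := by
  rw [kap_cg, Finset.mul_sum, ← Finset.sum_neg_distrib]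
  have : ((m : ℂ) + 1) ≠ 0 := by exact_mod_cast Nat.succ_ne_zero m
  refine Finset.sum_congr rfl fun n _ => ?_
  field_simp

lemma Cl_cg (β : ℕ → ℂ) (m : ℕ) : Cl (m : ℤ) (kap (cg β m : MvPolynomial (Fin N) ℂ)) := by
  induction m using Nat.strong_induction_on with
  | _ m ih =>
    rcases m with _ | m
    · rw [cg_zero]
      exact Cl_kap_one
    · rw [kap_cg]
      refine Cl_sum _ (fun n => (-(β (n + 1)) / ((m : ℂ) + 1))) fun n hn => ?_
      have hn' := Finset.mem_range.1 hn
      refine Cl_mono ?_ (Cl_Tm (by positivity) (ih (m - n) (by omega)))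
      have : ((m - n : ℕ) : ℤ) = m - n := by omega
      rw [this]
      push_cast
      linarith

/-- the lowering operators act on the coefficients -/
lemma Lp_cg (β : ℕ → ℂ) (m : ℕ) (hm : m ≤ N) (l : ℕ) (hl : 1 ≤ l) (d : Fin N → ℤ) :
    Lp (l : ℤ) (kap (cg β m : MvPolynomial (Fin N) ℂ)) d =
      if l ≤ m then -(β l) * kap (cg β (m - l) : MvPolynomial (Fin N) ℂ) d else 0 := by
  induction m using Nat.strong_induction_on generalizing d with
  | _ m ih =>
    rcases m with _ | m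
    · rw [if_neg (by omega), cg_zero, Lp_kap_one hl]
    · have hm1 : ((m : ℂ) + 1) ≠ 0 := by exact_mod_cast Nat.succ_ne_zero m
      have hstep : ∀ n ∈ range (m + 1), ∀ d : Fin N → ℤ,
          Lp (l : ℤ) (Tm ((n + 1 : ℕ) : ℤ) (kap (cg β (m - n) : MvPolynomial (Fin N) ℂ))) d =
          (if l + n ≤ m then -(β l) * Tm ((n + 1 : ℕ) : ℤ)
            (kap (cg β (m - l - n) : MvPolynomial (Fin N) ℂ)) d else 0) +
          (if n + 1 = l then (l : ℂ) * kap (cg β (m + 1 - l) : MvPolynomial (Fin N) ℂ) d else 0) := by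
        intro n hn d
        have hn' := Finset.mem_range.1 hn
        have hcast : ((m - n : ℕ) : ℤ) = m - n := by omega
        rw [comm (Cl_cg β (m - n)) (by omega) (by rw [hcast]; push_cast; omega)]
        congr 1
        · have hfun : Lp (l : ℤ) (kap (cg β (m - n) : MvPolynomial (Fin N) ℂ)) =
              fun d => if l ≤ m - n then
                -(β l) * kap (cg β (m - n - l) : MvPolynomial (Fin N) ℂ) d else 0 := by
            funext d'
            exact ih (m - n) (by omega) (by omega) d'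
          rw [hfun]
          by_cases h : l ≤ m - n
          · rw [if_pos (by omega : l + n ≤ m)]
            have e2 : m - l - n = m - n - l := by omega
            rw [e2]
            simp only [if_pos h]
            unfold Tm
            rw [Finset.mul_sum]
          · rw [if_neg (by omega : ¬ l + n ≤ m)]
            simp only [if_neg h]
            unfold Tm
            simp
        · by_cases h : n + 1 = l
          · rw [if_pos (by exact_mod_cast h), if_pos h]
            have e2 : m - n = m + 1 - l := by omega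
            rw [e2, h]
            push_cast
            rfl
          · rw [if_neg (by exact_mod_cast h), if_neg h, zero_mul]
      rw [kap_cg, Lp_sum]
      rw [Finset.sum_congr rfl fun n hn => by rw [hstep n hn d, mul_add]]
      rw [Finset.sum_add_distrib]
      by_cases hlm : l ≤ m + 1
      · rw [if_pos hlm]
        have e3 : ∑ n ∈ range (m + 1), (-(β (n + 1)) / ((m : ℂ) + 1)) *
            (if n + 1 = l then (l : ℂ) * kap (cg β (m + 1 - l) : MvPolynomial (Fin N) ℂ) d else 0) =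
            (-(β l) / ((m : ℂ) + 1)) *
              ((l : ℂ) * kap (cg β (m + 1 - l) : MvPolynomial (Fin N) ℂ) d) := by
          rw [Finset.sum_eq_single (l - 1)]
          · have hl1 : l - 1 + 1 = l := by omega
            rw [hl1, if_pos rfl]
          · intro n _ hn
            rw [if_neg (by omega), mul_zero]
          · intro h
            exact absurd (Finset.mem_range.2 (by omega)) h
        rw [e3]
        rcases Nat.lt_or_ge m l with hlt | hge
        · -- `l = m + 1`
          have hle : l = m + 1 := by omega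
          have e4 : ∑ n ∈ range (m + 1), (-(β (n + 1)) / ((m : ℂ) + 1)) *
            (if l + n ≤ m then -(β l) * Tm ((n + 1 : ℕ) : ℤ)
            (kap (cg β (m - l - n) : MvPolynomial (Fin N) ℂ)) d else 0) = 0 :=
            Finset.sum_eq_zero fun n _ => by rw [if_neg (by omega), mul_zero]
          rw [e4, zero_add, hle]
          push_cast
          field_simp
        · have e4 : ∑ n ∈ range (m + 1), (-(β (n + 1)) / ((m : ℂ) + 1)) *
            (if l + n ≤ m then -(β l) * Tm ((n + 1 : ℕ) : ℤ)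
            (kap (cg β (m - l - n) : MvPolynomial (Fin N) ℂ)) d else 0) =
              (β l / ((m : ℂ) + 1)) * ∑ n ∈ range (m - l + 1), β (n + 1) * Tm ((n + 1 : ℕ) : ℤ)
                (kap (cg β (m - l - n) : MvPolynomial (Fin N) ℂ)) d := by
            rw [Finset.mul_sum]
            have e5 : ∀ n ∈ range (m + 1), (-(β (n + 1)) / ((m : ℂ) + 1)) *
              (if l + n ≤ m then -(β l) * Tm ((n + 1 : ℕ) : ℤ)
              (kap (cg β (m - l - n) : MvPolynomial (Fin N) ℂ)) d else 0) =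
              if l + n ≤ m then (β l / ((m : ℂ) + 1)) * (β (n + 1) * Tm ((n + 1 : ℕ) : ℤ)
                (kap (cg β (m - l - n) : MvPolynomial (Fin N) ℂ)) d) else 0 := by
              intro n _
              split_ifs
              · ring
              · ring
            rw [Finset.sum_congr rfl e5, ← Finset.sum_filter]
            refine Finset.sum_congr ?_ fun _ _ => rfl
            ext n
            simp only [Finset.mem_filter, Finset.mem_range]
            omega
          have e7 := kap_cg_succ (N := N) β (m - l) d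
          have e8 : ∑ n ∈ range (m - l + 1), β (n + 1) * Tm ((n + 1 : ℕ) : ℤ)
                (kap (cg β (m - l - n) : MvPolynomial (Fin N) ℂ)) d =
              -((((m - l : ℕ) : ℂ) + 1) *
                kap (cg β (m - l + 1) : MvPolynomial (Fin N) ℂ) d) := by
            rw [e7, neg_neg]
          rw [e4, e8]
          have e5 : m - l + 1 = m + 1 - l := by omega
          have e6 : ((m - l : ℕ) : ℂ) + 1 = (m : ℂ) + 1 - l := by
            rw [Nat.cast_sub hge]
            ring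
          rw [e5, e6]
          field_simp
          ring
      · rw [if_neg hlm]
        have e3 : ∑ n ∈ range (m + 1), (-(β (n + 1)) / ((m : ℂ) + 1)) *
            (if n + 1 = l then (l : ℂ) * kap (cg β (m + 1 - l) : MvPolynomial (Fin N) ℂ) d else 0) =
            0 := Finset.sum_eq_zero fun n hn => by
              have := Finset.mem_range.1 hn
              rw [if_neg (by omega), mul_zero]
        have e4 : ∑ n ∈ range (m + 1), (-(β (n + 1)) / ((m : ℂ) + 1)) *
            (if l + n ≤ m then -(β l) * Tm ((n + 1 : ℕ) : ℤ)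
            (kap (cg β (m - l - n) : MvPolynomial (Fin N) ℂ)) d else 0) = 0 :=
          Finset.sum_eq_zero fun n _ => by rw [if_neg (by omega), mul_zero]
        rw [e3, e4, add_zero]

/-- the norms -/
def gg (N : ℕ) (β : ℕ → ℂ) (m : ℕ) : ℂ :=
  ip (kap (cg β m : MvPolynomial (Fin N) ℂ)) (kap (cg β m : MvPolynomial (Fin N) ℂ))

lemma gg_succ (β : ℕ → ℂ) (m : ℕ) (hm : m + 1 ≤ N) :
    ((m : ℂ) + 1) * gg N β (m + 1) =
      ∑ n ∈ range (m + 1), ((‖β (n + 1)‖ ^ 2 : ℝ) : ℂ) * gg N β (m - n) := by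
  unfold gg
  rw [← ip_smul_left]
  have e : (fun d => ((m : ℂ) + 1) * kap (cg β (m + 1) : MvPolynomial (Fin N) ℂ) d) =
      fun d => ∑ n ∈ range (m + 1), (-(β (n + 1))) *
        Tm ((n + 1 : ℕ) : ℤ) (kap (cg β (m - n) : MvPolynomial (Fin N) ℂ)) d := by
    funext d
    rw [kap_cg_succ β m d, ← Finset.sum_neg_distrib]
    refine Finset.sum_congr rfl fun n _ => ?_
    ring
  rw [e, ip_sum_left (range (m + 1))
    (fun n => fun d => (-(β (n + 1))) *
      Tm ((n + 1 : ℕ) : ℤ) (kap (cg β (m - n) : MvPolynomial (Fin N) ℂ)) d)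
    (fun n _ => FS_smul (FS_Tm (FS_kap _) _) _)]
  refine Finset.sum_congr rfl fun n hn => ?_
  have hn' := Finset.mem_range.1 hn
  rw [ip_smul_left, ip_Lp (FS_kap _) (NN_kap _) (FS_kap _)]
  have e2 : Lp ((n + 1 : ℕ) : ℤ) (kap (cg β (m + 1) : MvPolynomial (Fin N) ℂ)) =
      fun d => (-(β (n + 1))) * kap (cg β (m - n) : MvPolynomial (Fin N) ℂ) d := by
    funext d
    rw [Lp_cg β (m + 1) hm (n + 1) (by omega), if_pos (by omega)]
    have : m + 1 - (n + 1) = m - n := by omega
    rw [this]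
  rw [e2, ip_smul_right, map_neg]
  have e3 : β (n + 1) * (starRingEnd ℂ) (β (n + 1)) = ((‖β (n + 1)‖ ^ 2 : ℝ) : ℂ) := by
    rw [Complex.mul_conj, Complex.normSq_eq_norm_sq]
  rw [← e3]
  ring

lemma cg_rec (β : ℕ → ℂ) (z : Fin N → ℂ) (m : ℕ) :
    ((m : ℂ) + 1) * eval z (cg β (m + 1) : MvPolynomial (Fin N) ℂ) =
      -∑ n ∈ Finset.range (m + 1), (β (n + 1) * ∑ j, z j ^ (n + 1)) *
        eval z (cg β (m - n) : MvPolynomial (Fin N) ℂ) := by
  rw [cg_succ, map_mul, eval_C, map_sum]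
  simp only [map_mul, eval_psum, eval_C]
  have : ((m : ℂ) + 1) ≠ 0 := by exact_mod_cast Nat.succ_ne_zero m
  field_simp

/-- the mean of the square of the coefficients -/
def ge (ν : Measure (Fin N → ℂ)) (β : ℕ → ℂ) (m : ℕ) : ℝ :=
  ∫ z, ‖eval z (cg β m : MvPolynomial (Fin N) ℂ)‖ ^ 2 ∂ν

lemma ge_eq {R : ℕ} {ν : Measure (Fin N → ℂ)}
    [IsProbabilityMeasure ν] (h1 : ∀ᵐ z ∂ν, ∀ i, ‖z i‖ = 1) (hT : TC N R ν) (β : ℕ → ℂ)
    {m : ℕ} (hm : m ≤ R) :
    Integrable (fun z => ‖eval z (cg β m : MvPolynomial (Fin N) ℂ)‖ ^ 2) ν ∧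
    ((ge ν β m : ℝ) : ℂ) = ((N.factorial : ℂ))⁻¹ * gg N β m := by
  have hmem : (cg β m : MvPolynomial (Fin N) ℂ) ∈ PSp N R := PSp_mono hm (cg_mem β m)
  refine ⟨?_, ?_⟩
  · have hi := poly_int h1 (cg β m : MvPolynomial (Fin N) ℂ) (cg β m)
    refine hi.re.congr (Filter.Eventually.of_forall fun z => ?_)
    beta_reduce
    rw [Complex.mul_conj, Complex.normSq_eq_norm_sq]
    exact Complex.ofReal_re _
  · have h := hT _ _ hmem hmem
    rw [cue_ip] at h
    unfold ge gg
    rw [← h, ← integral_complex_ofReal]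
    refine integral_congr_ae (Filter.Eventually.of_forall fun z => ?_)
    simp only
    rw [Complex.mul_conj, Complex.normSq_eq_norm_sq]

lemma ge_rec {R : ℕ} (hR : R ≤ N) {ν : Measure (Fin N → ℂ)}
    [IsProbabilityMeasure ν] (h1 : ∀ᵐ z ∂ν, ∀ i, ‖z i‖ = 1) (hT : TC N R ν) (β : ℕ → ℂ)
    {m : ℕ} (hm : m < R) :
    ((m : ℝ) + 1) * ge ν β (m + 1) =
      ∑ n ∈ range (m + 1), ‖β (n + 1)‖ ^ 2 * ge ν β (m - n) := by
  have h2 := gg_succ (N := N) β m (by omega)
  have h3 := (ge_eq h1 hT β (m := m + 1) (by omega)).2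
  have h4 : (((m : ℝ) + 1) * ge ν β (m + 1) : ℂ) =
      ∑ n ∈ range (m + 1), ((‖β (n + 1)‖ ^ 2 : ℝ) : ℂ) * ((ge ν β (m - n) : ℝ) : ℂ) := by
    rw [h3]
    have e : ∀ n ∈ range (m + 1), ((‖β (n + 1)‖ ^ 2 : ℝ) : ℂ) * ((ge ν β (m - n) : ℝ) : ℂ) =
        ((N.factorial : ℂ))⁻¹ * (((‖β (n + 1)‖ ^ 2 : ℝ) : ℂ) * gg N β (m - n)) := by
      intro n _
      rw [(ge_eq h1 hT β (m := m - n) (by omega)).2]
      ring
    rw [Finset.sum_congr rfl e, ← Finset.mul_sum, ← h2]
    push_cast
    ring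
  exact_mod_cast h4

lemma ge_zero {ν : Measure (Fin N → ℂ)} [IsProbabilityMeasure ν] (β : ℕ → ℂ) : ge ν β 0 = 1 := by
  unfold ge
  simp [cg_zero]

/-- **the lower bound for the coefficients** -/
theorem coeff_lower {A : ℝ} (hA : 0 < A) : ∃ c : ℝ, 0 < c ∧ ∀ (N R : ℕ), 1 ≤ R → R ≤ N →
    ∀ ν : Measure (Fin N → ℂ), IsProbabilityMeasure ν → (∀ᵐ z ∂ν, ∀ i, ‖z i‖ = 1) → TC N R ν →
    ∀ β : ℕ → ℂ, (∀ n, ‖β n‖ ^ 2 ≤ A) →
    c * Real.exp (∑ n ∈ Finset.Icc 1 R, ‖β n‖ ^ 2 / (n : ℝ)) ≤
      ∑ m ∈ Finset.range (R + 1), ge ν β m := by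
  obtain ⟨c, hc, h⟩ := MO.TB.tauber hA
  refine ⟨c, hc, fun N R hR hRN ν hν h1 hT β hβ => ?_⟩
  exact h R hR (fun n => ‖β n‖ ^ 2) (fun n => ⟨by positivity, hβ n⟩) (ge ν β) (ge_zero β)
    (fun m hm => ge_rec hRN h1 hT β hm)

end

end Pool.Agent.H481.GS
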