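import Pool.Agent.H481.GS3
import Pool.Agent.H481.GA10

/-!
The order of the shifted moments.
-/

open Finset MeasureTheory MvPolynomial
open Pool.Agent.R319.UM

namespace Pool.Agent.H481.GS

open Pool.Agent.H481.GA

noncomputable section

variable {N d : ℕ}

/-- the mean over the rotations -/
def msh (k α : Fin d → ℝ) (z : Fin N → ℂ) : ℝ :=
  (2 * Real.pi)⁻¹ * ∫ θ in Set.Ioc (0 : ℝ) (2 * Real.pi), Zs k α θ z

lemma cont_Zs {k : Fin d → ℝ} (hk : ∀ i, 0 < k i) (α : Fin d → ℝ) :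
    Continuous fun p : (Fin N → ℂ) × ℝ => Zs k α p.2 p.1 := by
  unfold Zs
  refine continuous_finsetProd _ fun i _ => ?_
  refine Continuous.rpow_const ?_ fun _ => Or.inr (by have := hk i; positivity)
  fun_prop

lemma Zs_le {k : Fin d → ℝ} (hk : ∀ i, 0 < k i) (α : Fin d → ℝ) (θ : ℝ) {z : Fin N → ℂ}
    (hz : ∀ j, ‖z j‖ = 1) : Zs k α θ z ≤ ∏ i, ((2 : ℝ) ^ N) ^ (2 * k i) :=
  Finset.prod_le_prod (fun i _ => by positivity) fun i _ =>
    Real.rpow_le_rpow (norm_nonneg _) (norm_le_two hz _) (by have := hk i; positivity)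

lemma int_Zs {k : Fin d → ℝ} (hk : ∀ i, 0 < k i) (α : Fin d → ℝ) {ν : Measure (Fin N → ℂ)}
    [IsProbabilityMeasure ν] (h1 : ∀ᵐ z ∂ν, ∀ i, ‖z i‖ = 1) :
    Integrable (fun p : (Fin N → ℂ) × ℝ => Zs k α p.2 p.1)
      (ν.prod (volume.restrict (Set.Ioc (0 : ℝ) (2 * Real.pi)))) := by
  refine Integrable.of_bound (cont_Zs hk α).aestronglyMeasurable
    (∏ i, ((2 : ℝ) ^ N) ^ (2 * k i)) ?_
  have h2 : ∀ᵐ p ∂(ν.prod (volume.restrict (Set.Ioc (0 : ℝ) (2 * Real.pi)))),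
      ∀ i, ‖p.1 i‖ = 1 := Measure.quasiMeasurePreserving_fst.ae h1
  filter_upwards [h2] with p hp
  rw [Real.norm_of_nonneg (Zs_nonneg _ _ _ _)]
  exact Zs_le hk α p.2 hp

lemma int_Zst {k : Fin d → ℝ} (hk : ∀ i, 0 < k i) (α : Fin d → ℝ) (θ : ℝ)
    {ν : Measure (Fin N → ℂ)} [IsProbabilityMeasure ν] (h1 : ∀ᵐ z ∂ν, ∀ i, ‖z i‖ = 1) :
    Integrable (fun z : Fin N → ℂ => Zs k α θ z) ν := by
  have hc : Continuous fun z : Fin N → ℂ => Zs k α θ z := by
    unfold Zs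
    refine continuous_finsetProd _ fun i _ => ?_
    refine Continuous.rpow_const ?_ fun _ => Or.inr (by have := hk i; positivity)
    fun_prop
  refine Integrable.of_bound hc.aestronglyMeasurable (∏ i, ((2 : ℝ) ^ N) ^ (2 * k i)) ?_
  filter_upwards [h1] with z hz
  rw [Real.norm_of_nonneg (Zs_nonneg _ _ _ _)]
  exact Zs_le hk α θ hz

lemma msh_int {k : Fin d → ℝ} (hk : ∀ i, 0 < k i) (α : Fin d → ℝ) {ν : Measure (Fin N → ℂ)}
    [IsProbabilityMeasure ν] (h1 : ∀ᵐ z ∂ν, ∀ i, ‖z i‖ = 1) :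
    Integrable (fun z => msh k α z) ν := by
  have := (int_Zs hk α h1).integral_prod_left
  unfold msh
  exact this.const_mul _

lemma msh_mean {k : Fin d → ℝ} (hk : ∀ i, 0 < k i) (α : Fin d → ℝ) {ν : Measure (Fin N → ℂ)}
    [IsProbabilityMeasure ν] (h1 : ∀ᵐ z ∂ν, ∀ i, ‖z i‖ = 1) {X : ℝ}
    (hX : ∀ θ : ℝ, ∫ z, Zs k α θ z ∂ν ≤ X) :
    ∫ z, msh k α z ∂ν ≤ X := by
  have hint := int_Zs hk α h1
  have hsw := integral_integral_swap
    (f := fun (z : Fin N → ℂ) (θ : ℝ) => Zs k α θ z) hint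
  unfold msh
  rw [integral_const_mul, hsw]
  have h2 : ∫ θ in Set.Ioc (0 : ℝ) (2 * Real.pi), ∫ z, Zs k α θ z ∂ν ≤
      ∫ _θ in Set.Ioc (0 : ℝ) (2 * Real.pi), X := by
    refine integral_mono hint.integral_prod_right (integrable_const _) hX
  rw [setIntegral_const] at h2
  have h3 : volume.real (Set.Ioc (0 : ℝ) (2 * Real.pi)) = 2 * Real.pi := by
    rw [Real.volume_real_Ioc_of_le (by positivity), sub_zero]
  rw [h3, smul_eq_mul] at h2
  have hpi : 0 < 2 * Real.pi := by positivity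
  calc (2 * Real.pi)⁻¹ * _ ≤ (2 * Real.pi)⁻¹ * (2 * Real.pi * X) :=
        mul_le_mul_of_nonneg_left h2 (by positivity)
    _ = X := by field_simp

lemma rot_norm (θ a : ℝ) (z : ℂ) :
    ‖Complex.exp (Complex.I * θ) - Complex.exp (-(Complex.I * a)) * z‖ =
      ‖Complex.exp (Complex.I * ((θ + a : ℝ) : ℂ)) - z‖ := by
  have h1 : ‖Complex.exp (Complex.I * a)‖ = 1 := by
    rw [mul_comm]
    exact Complex.norm_exp_ofReal_mul_I a
  have h2 : Complex.exp (Complex.I * ((θ + a : ℝ) : ℂ)) - z =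
      Complex.exp (Complex.I * a) *
        (Complex.exp (Complex.I * θ) - Complex.exp (-(Complex.I * a)) * z) := by
    rw [mul_sub, ← mul_assoc, ← Complex.exp_add, ← Complex.exp_add, add_neg_cancel,
      Complex.exp_zero, one_mul]
    congr 2
    push_cast
    ring
  rw [h2, norm_mul, h1, one_mul]

/-- **Bessel's inequality** -/
lemma bessel_sh {k : Fin d → ℝ} (hk : ∀ i, 0 < k i) (α : Fin d → ℝ) {z : Fin N → ℂ}
    (hz : ∀ j, ‖z j‖ = 1) (M : ℕ) :
    ∑ m ∈ range (M + 1), ‖eval z (cg (bs k α) m : MvPolynomial (Fin N) ℂ)‖ ^ 2 ≤ msh k α z := by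
  have h := MO.bessel_gen (ι := Fin d × Fin N) (fun p => k p.1) (fun p => hk p.1)
    (fun p => Complex.exp (-(Complex.I * α p.1)) * z p.2)
    (fun p => by rw [norm_mul, exp_norm_one, hz, one_mul])
    (fun m => eval z (cg (bs k α) m : MvPolynomial (Fin N) ℂ)) (by simp [cg_zero]) (fun m => by
      rw [cg_rec]
      congr 1
      refine Finset.sum_congr rfl fun n _ => ?_
      congr 1
      rw [Fintype.sum_prod_type]
      unfold bs
      rw [Finset.sum_mul]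
      refine Finset.sum_congr rfl fun i _ => ?_
      rw [Finset.mul_sum]
      refine Finset.sum_congr rfl fun j _ => ?_
      rw [mul_pow]
      ring) M
  refine h.trans (le_of_eq ?_)
  unfold msh
  congr 1
  refine setIntegral_congr_fun measurableSet_Ioc fun θ _ => ?_
  rw [Fintype.prod_prod_type]
  unfold Zs
  refine Finset.prod_congr rfl fun i _ => ?_
  rw [norm_prod, ← Real.finsetProd_rpow _ _ (fun _ _ => norm_nonneg _)]
  refine Finset.prod_congr rfl fun j _ => ?_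
  simp only
  rw [rot_norm]

/-- the lower bound by the exponential sum -/
theorem lower_sh {k : Fin d → ℝ} (hk : ∀ i, 0 < k i) (hs : 0 < ∑ i, k i) : ∃ c : ℝ, 0 < c ∧
    ∀ (N R : ℕ), 1 ≤ R → R ≤ N → ∀ ν : Measure (Fin N → ℂ), IsProbabilityMeasure ν →
    (∀ᵐ z ∂ν, ∀ i, ‖z i‖ = 1) → TC N R ν → ∀ α : Fin d → ℝ,
    c * Real.exp (∑ n ∈ Finset.Icc 1 R, ‖bs k α n‖ ^ 2 / (n : ℝ)) ≤ ∫ z, msh k α z ∂ν := by
  obtain ⟨c, hc, h⟩ := coeff_lower (A := (∑ i, k i) ^ 2) (by positivity)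
  refine ⟨c, hc, fun N R hR hRN ν hν h1 hT α => ?_⟩
  refine (h N R hR hRN ν hν h1 hT (bs k α) fun n => ?_).trans ?_
  · exact pow_le_pow_left₀ (norm_nonneg _) (bs_norm hk α n) 2
  · unfold ge
    have hint : ∀ m ∈ range (R + 1), Integrable
        (fun z => ‖eval z (cg (bs k α) m : MvPolynomial (Fin N) ℂ)‖ ^ 2) ν := fun m hm =>
      (ge_eq h1 hT (bs k α) (m := m) (by have := Finset.mem_range.1 hm; omega)).1
    rw [← integral_finsetSum _ hint]
    refine integral_mono_ae (integrable_finsetSum _ hint) (msh_int hk α h1) ?_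
    filter_upwards [h1] with z hz
    exact bessel_sh hk α hz R

/-! ### the exponential sum -/

lemma bs_sq (k α : Fin d → ℝ) (n : ℕ) :
    ‖bs k α n‖ ^ 2 = ∑ i, ∑ l, k i * k l * Real.cos (n * (α i - α l)) := by
  have h : ((‖bs k α n‖ ^ 2 : ℝ) : ℂ) = bs k α n * (starRingEnd ℂ) (bs k α n) := by
    rw [Complex.mul_conj, Complex.normSq_eq_norm_sq]
  have h2 : ‖bs k α n‖ ^ 2 = (bs k α n * (starRingEnd ℂ) (bs k α n)).re := by
    rw [← h]
    exact (Complex.ofReal_re _).symm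
  rw [h2]
  unfold bs
  rw [map_sum, Finset.sum_mul_sum, Complex.re_sum]
  refine Finset.sum_congr rfl fun i _ => ?_
  rw [Complex.re_sum]
  refine Finset.sum_congr rfl fun l _ => ?_
  have e : (k i : ℂ) * Complex.exp (-(Complex.I * α i)) ^ n *
      (starRingEnd ℂ) ((k l : ℂ) * Complex.exp (-(Complex.I * α l)) ^ n) =
      ((k i * k l : ℝ) : ℂ) * Complex.exp (((-(n * (α i - α l)) : ℝ) : ℂ) * Complex.I) := by
    rw [map_mul, map_pow, Complex.conj_ofReal, ← Complex.exp_conj, ← Complex.exp_nat_mul,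
      ← Complex.exp_nat_mul, map_neg, map_mul, Complex.conj_I, Complex.conj_ofReal]
    have e2 : Complex.exp (((-(n * (α i - α l)) : ℝ) : ℂ) * Complex.I) =
        Complex.exp (n * (-(Complex.I * α i))) * Complex.exp (n * (-(-Complex.I * α l))) := by
      rw [← Complex.exp_add]
      congr 1
      push_cast
      ring
    rw [e2]
    push_cast
    ring
  rw [e, Complex.re_ofReal_mul, Complex.exp_ofReal_mul_I_re, Real.cos_neg]

/-- the distance of two shifts, at least `1 / X` -/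
def sp (X : ℕ) (x y : ℝ) : ℝ :=
  max (1 / (X : ℝ)) ‖Complex.exp (Complex.I * x) - Complex.exp (Complex.I * y)‖

lemma exp_sub_norm (x y : ℝ) : ‖Complex.exp (Complex.I * x) - Complex.exp (Complex.I * y)‖ =
    |2 * Real.sin ((x - y) / 2)| := by
  have h1 : ‖Complex.exp (Complex.I * y)‖ = 1 := by
    rw [mul_comm]
    exact Complex.norm_exp_ofReal_mul_I y
  have h2 : Complex.exp (Complex.I * x) - Complex.exp (Complex.I * y) =
      Complex.exp (Complex.I * y) * (Complex.exp (Complex.I * ((x - y : ℝ) : ℂ)) - 1) := by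
    rw [mul_sub, ← Complex.exp_add, mul_one]
    congr 2
    push_cast
    ring
  rw [h2, norm_mul, h1, one_mul, Complex.norm_exp_I_mul_ofReal_sub_one, Real.norm_eq_abs]

lemma sp_pos {X : ℕ} (hX : 1 ≤ X) (x y : ℝ) : 0 < sp X x y := by
  unfold sp
  have : (0 : ℝ) < X := by exact_mod_cast hX
  exact lt_max_of_lt_left (by positivity)

/-- the order of the shifted moments -/
def Ph (X : ℕ) (k α : Fin d → ℝ) : ℝ := ∏ i, ∏ l, sp X (α i) (α l) ^ (-(k i * k l))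

lemma Ph_pos {X : ℕ} (hX : 1 ≤ X) (k α : Fin d → ℝ) : 0 < Ph X k α :=
  Finset.prod_pos fun i _ => Finset.prod_pos fun l _ => Real.rpow_pos_of_pos (sp_pos hX _ _) _

lemma Ph_log {X : ℕ} (hX : 1 ≤ X) (k α : Fin d → ℝ) :
    Real.log (Ph X k α) = ∑ i, ∑ l, -(k i * k l) * Real.log (sp X (α i) (α l)) := by
  unfold Ph
  rw [Real.log_prod (fun i _ => (Finset.prod_pos fun l _ =>
    Real.rpow_pos_of_pos (sp_pos hX _ _) _).ne')]
  refine Finset.sum_congr rfl fun i _ => ?_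
  rw [Real.log_prod (fun l _ => (Real.rpow_pos_of_pos (sp_pos hX _ _) _).ne')]
  refine Finset.sum_congr rfl fun l _ => ?_
  rw [Real.log_rpow (sp_pos hX _ _)]

theorem sum_order : ∃ C : ℝ, 0 < C ∧ ∀ (d : ℕ) (k α : Fin d → ℝ), (∀ i, 0 < k i) →
    ∀ X : ℕ, 1 ≤ X → |∑ n ∈ Finset.Icc 1 X, ‖bs k α n‖ ^ 2 / (n : ℝ) - Real.log (Ph X k α)| ≤
      C * (∑ i, k i) ^ 2 := by
  obtain ⟨C, hC, h⟩ := MO.cos_sum
  refine ⟨C, hC, fun d k α hk X hX => ?_⟩
  have e1 : ∑ n ∈ Finset.Icc 1 X, ‖bs k α n‖ ^ 2 / (n : ℝ) =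
      ∑ i, ∑ l, k i * k l * ∑ n ∈ Finset.Icc 1 X, Real.cos (n * (α i - α l)) / (n : ℝ) := by
    simp only [bs_sq, Finset.sum_div]
    rw [Finset.sum_comm]
    refine Finset.sum_congr rfl fun i _ => ?_
    rw [Finset.sum_comm]
    refine Finset.sum_congr rfl fun l _ => ?_
    rw [Finset.mul_sum]
    refine Finset.sum_congr rfl fun n _ => ?_
    ring
  rw [e1, Ph_log hX, ← Finset.sum_sub_distrib]
  have e2 : (C * (∑ i, k i) ^ 2) = ∑ i, ∑ l, k i * k l * C := by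
    rw [sq, Finset.sum_mul_sum, Finset.mul_sum]
    refine Finset.sum_congr rfl fun i _ => ?_
    rw [Finset.mul_sum]
    refine Finset.sum_congr rfl fun l _ => ?_
    ring
  rw [e2]
  refine (Finset.abs_sum_le_sum_abs _ _).trans (Finset.sum_le_sum fun i _ => ?_)
  rw [← Finset.sum_sub_distrib]
  refine (Finset.abs_sum_le_sum_abs _ _).trans (Finset.sum_le_sum fun l _ => ?_)
  have hkk : 0 < k i * k l := mul_pos (hk i) (hk l)
  have e3 : k i * k l * ∑ n ∈ Finset.Icc 1 X, Real.cos (n * (α i - α l)) / (n : ℝ) -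
      -(k i * k l) * Real.log (sp X (α i) (α l)) =
      k i * k l * (∑ n ∈ Finset.Icc 1 X, Real.cos (n * (α i - α l)) / (n : ℝ) +
        Real.log (max (1 / (X : ℝ)) |2 * Real.sin ((α i - α l) / 2)|)) := by
    unfold sp
    rw [exp_sub_norm]
    ring
  rw [e3, abs_mul, abs_of_pos hkk]
  exact mul_le_mul_of_nonneg_left (h (α i - α l) X hX) hkk.le

lemma exp_le_Ph {C : ℝ} {d : ℕ} {k α : Fin d → ℝ} {X : ℕ} (hX : 1 ≤ X)
    (h : |∑ n ∈ Finset.Icc 1 X, ‖bs k α n‖ ^ 2 / (n : ℝ) - Real.log (Ph X k α)| ≤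
      C * (∑ i, k i) ^ 2) :
    Real.exp (∑ n ∈ Finset.Icc 1 X, ‖bs k α n‖ ^ 2 / (n : ℝ)) ≤
      Real.exp (C * (∑ i, k i) ^ 2) * Ph X k α ∧
    Real.exp (-(C * (∑ i, k i) ^ 2)) * Ph X k α ≤
      Real.exp (∑ n ∈ Finset.Icc 1 X, ‖bs k α n‖ ^ 2 / (n : ℝ)) := by
  have h2 := abs_le.1 h
  have e : Real.exp (Real.log (Ph X k α)) = Ph X k α := Real.exp_log (Ph_pos hX k α)
  constructor
  · calc Real.exp (∑ n ∈ Finset.Icc 1 X, ‖bs k α n‖ ^ 2 / (n : ℝ)) ≤
          Real.exp (C * (∑ i, k i) ^ 2 + Real.log (Ph X k α)) :=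
          Real.exp_le_exp.2 (by linarith [h2.2])
      _ = _ := by rw [Real.exp_add, e]
  · calc Real.exp (-(C * (∑ i, k i) ^ 2)) * Ph X k α =
          Real.exp (-(C * (∑ i, k i) ^ 2) + Real.log (Ph X k α)) := by rw [Real.exp_add, e]
      _ ≤ _ := Real.exp_le_exp.2 (by linarith [h2.1])

end

end Pool.Agent.H481.GS
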