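import Pool.Agent.H481.GS4

/-!
The law with small shifted moments and the final estimates.
-/

open Finset MeasureTheory MvPolynomial
open Pool.Agent.R319.UM

namespace Pool.Agent.H481.GS

open Pool.Agent.H481.GA

noncomputable section

variable {N d : ℕ}

lemma Ph_nonneg {X : ℕ} (hX : 1 ≤ X) (k α : Fin d → ℝ) : 0 ≤ Ph X k α := (Ph_pos hX k α).le

/-- the upper bound at every rotation -/
theorem up_theta {k : Fin d → ℝ} (hk : ∀ i, 0 < k i) {δ : ℝ} (hδ : 0 < δ) :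
    ∃ C : ℝ, 0 < C ∧ ∀ (N : ℕ), 1 ≤ N → ∀ R : ℕ, δ * N ≤ R → ∀ ν : Measure (Fin N → ℂ),
      IsProbabilityMeasure ν → (∀ᵐ z ∂ν, ∀ i, ‖z i‖ = 1) → TC N R ν →
      ∀ (α : Fin d → ℝ) (θ : ℝ), ∫ z, Zs k α θ z ∂ν ≤ C * Ph N k α := by
  rcases Nat.eq_zero_or_pos d with rfl | hd
  · refine ⟨1, one_pos, fun N _ R _ ν hν _ _ α θ => ?_⟩
    unfold Zs Ph
    simp
  · have hs : 0 < ∑ i, k i := Finset.sum_pos (fun i _ => hk i) ⟨⟨0, hd⟩, Finset.mem_univ _⟩
    obtain ⟨C, hC, h⟩ := upper_shift_theta hk hs hδ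
    obtain ⟨D, hD, h2⟩ := sum_order
    refine ⟨C * Real.exp (D * (∑ i, k i) ^ 2), by positivity,
      fun N hN R hR ν hν h1 hT α θ => ?_⟩
    refine (h N hN R hR ν hν h1 hT α θ).trans ?_
    rw [mul_assoc]
    exact mul_le_mul_of_nonneg_left (exp_le_Ph hN (h2 d k α hk N hN)).1 hC.le

/-- the lower bound -/
theorem low {k : Fin d → ℝ} (hk : ∀ i, 0 < k i) : ∃ c : ℝ, 0 < c ∧
    ∀ (N R : ℕ), 1 ≤ R → R ≤ N → ∀ ν : Measure (Fin N → ℂ), IsProbabilityMeasure ν →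
    (∀ᵐ z ∂ν, ∀ i, ‖z i‖ = 1) → TC N R ν → ∀ α : Fin d → ℝ,
    c * Ph R k α ≤ ∫ z, msh k α z ∂ν := by
  rcases Nat.eq_zero_or_pos d with rfl | hd
  · refine ⟨1, one_pos, fun N R _ _ ν hν _ _ α => ?_⟩
    unfold msh Zs Ph
    have h3 : volume.real (Set.Ioc (0 : ℝ) (2 * Real.pi)) = 2 * Real.pi := by
      rw [Real.volume_real_Ioc_of_le (by positivity), sub_zero]
    have h4 : (volume.restrict (Set.Ioc (0 : ℝ) (2 * Real.pi))).real Set.univ = 2 * Real.pi := by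
      rw [measureReal_restrict_apply MeasurableSet.univ, Set.univ_inter, h3]
    have h5 : (2 * Real.pi)⁻¹ * (2 * Real.pi) = 1 := inv_mul_cancel₀ (by positivity)
    simp only [Finset.univ_eq_empty, Finset.prod_empty, smul_eq_mul, mul_one,
      h4, h5, integral_const, probReal_univ, le_refl]
  · have hs : 0 < ∑ i, k i := Finset.sum_pos (fun i _ => hk i) ⟨⟨0, hd⟩, Finset.mem_univ _⟩
    obtain ⟨c, hc, h⟩ := lower_sh hk hs
    obtain ⟨D, hD, h2⟩ := sum_order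
    refine ⟨c * Real.exp (-(D * (∑ i, k i) ^ 2)), by positivity,
      fun N R hR hRN ν hν h1 hT α => ?_⟩
    refine le_trans ?_ (h N R hR hRN ν hν h1 hT α)
    rw [mul_assoc]
    exact mul_le_mul_of_nonneg_left (exp_le_Ph hR (h2 d k α hk R hR)).2 hc.le

/-! ### the law with small moments -/

lemma ap_norm_le (θ : ℝ) {R : ℕ} (hRN : 2 * R < N) (z : Fin R → ℂ) :
    ‖∏ j, (Complex.exp (Complex.I * θ) - ap R N z j)‖ ≤
      2 * ‖∏ j, (Complex.exp (Complex.I * θ) - z j)‖ := by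
  rw [ap_split (by omega) z (fun w => Complex.exp (Complex.I * θ) - w),
    poly_prod (by omega : 0 < N - R), norm_mul, mul_comm]
  refine mul_le_mul_of_nonneg_right ?_ (norm_nonneg _)
  refine (norm_sub_le _ _).trans ?_
  rw [norm_pow, mul_comm Complex.I, Complex.norm_exp_ofReal_mul_I, one_pow, norm_one]
  norm_num

lemma ap_Zs {k : Fin d → ℝ} (hk : ∀ i, 0 < k i) (α : Fin d → ℝ) (θ : ℝ) {R : ℕ}
    (hRN : 2 * R < N) (z : Fin R → ℂ) :
    Zs k α θ (ap R N z) ≤ (∏ i, (2 : ℝ) ^ (2 * k i)) * Zs k α θ z := by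
  unfold Zs
  rw [← Finset.prod_mul_distrib]
  refine Finset.prod_le_prod (fun i _ => by positivity) fun i _ => ?_
  rw [← Real.mul_rpow (by norm_num) (norm_nonneg _)]
  exact Real.rpow_le_rpow (norm_nonneg _) (ap_norm_le _ hRN z) (by have := hk i; positivity)

lemma cont_Zst {k : Fin d → ℝ} (hk : ∀ i, 0 < k i) (α : Fin d → ℝ) (θ : ℝ) :
    Continuous fun z : Fin N → ℂ => Zs k α θ z := by
  unfold Zs
  refine continuous_finsetProd _ fun i _ => ?_
  refine Continuous.rpow_const ?_ fun _ => Or.inr (by have := hk i; positivity)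
  fun_prop

theorem small_sh {k : Fin d → ℝ} (hk : ∀ i, 0 < k i) : ∃ C : ℝ, 0 < C ∧ ∀ R : ℕ, 0 < R →
    ∀ N : ℕ, 2 * R < N → ∀ α : Fin d → ℝ, ∫ z, msh k α z ∂(sl R N) ≤ C * Ph R k α := by
  obtain ⟨C, hC, h⟩ := up_theta hk (δ := 1) one_pos
  refine ⟨(∏ i, (2 : ℝ) ^ (2 * k i)) * C, by positivity, fun R hR N hRN α => ?_⟩
  have hp := sl_prob (N := N) hR
  have hh := AC.haar_prob hR
  refine msh_mean hk α sl_unit fun θ => ?_
  have h1 := h R hR R (by rw [one_mul]) (AC.haarLaw R) hh AC.haar_unit (haar_TC R) α θ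
  have h2 : ∫ z, Zs k α θ z ∂(sl R N) ≤
      (∏ i, (2 : ℝ) ^ (2 * k i)) * ∫ z, Zs k α θ z ∂(AC.haarLaw R) := by
    unfold sl
    rw [integral_map (ap_cont R N).measurable.aemeasurable
      (cont_Zst hk α θ).aestronglyMeasurable, ← integral_const_mul]
    exact integral_mono_of_nonneg (Filter.Eventually.of_forall fun z => Zs_nonneg _ _ _ _)
      ((int_Zst hk α θ AC.haar_unit).const_mul _)
      (Filter.Eventually.of_forall (ap_Zs hk α θ hRN))
  calc _ ≤ _ := h2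
    _ ≤ (∏ i, (2 : ℝ) ^ (2 * k i)) * (C * Ph R k α) :=
        mul_le_mul_of_nonneg_left h1 (by positivity)
    _ = _ := by ring

/-- the law has a point at `1` -/
lemma sl_one {R : ℕ} (hRN : 2 * R < N) : ∀ᵐ z ∂(sl R N), ∃ j, z j = 1 := by
  have hm : MeasurableSet {z : Fin N → ℂ | ∃ j, z j = 1} := by
    have : {z : Fin N → ℂ | ∃ j, z j = 1} = ⋃ j, {z : Fin N → ℂ | z j = 1} := by
      ext z
      simp
    rw [this]
    exact MeasurableSet.iUnion fun j =>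
      measurableSet_eq_fun (measurable_pi_apply j) measurable_const
  unfold sl
  rw [ae_map_iff (ap_cont R N).measurable.aemeasurable hm]
  refine Filter.Eventually.of_forall fun z => ⟨⟨R, by omega⟩, ?_⟩
  unfold ap
  simp

/-! ### comparison of the orders -/

lemma sp_anti {X Y : ℕ} (hX : 1 ≤ X) (h : X ≤ Y) (x y : ℝ) : sp Y x y ≤ sp X x y := by
  unfold sp
  have : (0 : ℝ) < X := by exact_mod_cast hX
  have h2 : (X : ℝ) ≤ Y := by exact_mod_cast h
  exact max_le_max (one_div_le_one_div_of_le this h2) le_rfl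

lemma sp_self {X : ℕ} (x : ℝ) : sp X x x = 1 / (X : ℝ) := by
  unfold sp
  rw [sub_self, norm_zero]
  exact max_eq_left (by positivity)

/-- the order for a shorter range is smaller by a power of the ratio, for all shifts -/
lemma Ph_ratio {k : Fin d → ℝ} (hk : ∀ i, 0 < k i) (α : Fin d → ℝ) {X Y : ℕ} (hX : 1 ≤ X)
    (h : X ≤ Y) : Ph X k α ≤ ((X : ℝ) / Y) ^ (∑ i, k i ^ 2) * Ph Y k α := by
  have hX0 : (0 : ℝ) < X := by exact_mod_cast hX
  have hY0 : (0 : ℝ) < Y := by exact_mod_cast hX.trans h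
  have e : ((X : ℝ) / Y) ^ (∑ i, k i ^ 2) = ∏ i, ∏ l, if l = i then ((X : ℝ) / Y) ^ (k i ^ 2)
      else 1 := by
    rw [Real.rpow_sum_of_pos (by positivity)]
    refine Finset.prod_congr rfl fun i _ => ?_
    rw [Finset.prod_ite_eq' Finset.univ i, if_pos (Finset.mem_univ i)]
  rw [e]
  unfold Ph
  rw [← Finset.prod_mul_distrib]
  refine Finset.prod_le_prod (fun i _ => Finset.prod_nonneg fun l _ =>
    Real.rpow_nonneg (sp_pos hX _ _).le _) fun i _ => ?_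
  rw [← Finset.prod_mul_distrib]
  refine Finset.prod_le_prod (fun l _ => Real.rpow_nonneg (sp_pos hX _ _).le _) fun l _ => ?_
  by_cases hl : l = i
  · subst hl
    rw [if_pos rfl, sp_self, sp_self, one_div, one_div, Real.inv_rpow hX0.le,
      Real.inv_rpow hY0.le, Real.rpow_neg hX0.le, Real.rpow_neg hY0.le, inv_inv, inv_inv,
      Real.div_rpow hX0.le hY0.le, ← sq, div_mul_cancel₀]
    exact (Real.rpow_pos_of_pos hY0 _).ne'
  · rw [if_neg hl, one_mul]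
    refine Real.rpow_le_rpow_of_nonpos (sp_pos (hX.trans h) _ _) (sp_anti hX h _ _) ?_
    have := mul_pos (hk i) (hk l)
    linarith

lemma sp_delta {X Y : ℕ} {δ : ℝ} (hδ : 0 < δ) (hδ1 : δ ≤ 1) (hX : 1 ≤ X) (hY : 1 ≤ Y)
    (h : δ * Y ≤ X) (x y : ℝ) : sp X x y ≤ δ⁻¹ * sp Y x y := by
  have hX0 : (0 : ℝ) < X := by exact_mod_cast hX
  have hY0 : (0 : ℝ) < Y := by exact_mod_cast hY
  unfold sp
  refine max_le ?_ ?_
  · calc 1 / (X : ℝ) ≤ 1 / (δ * Y) := one_div_le_one_div_of_le (by positivity) h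
      _ = δ⁻¹ * (1 / Y) := by rw [one_div, mul_inv, one_div]
      _ ≤ _ := mul_le_mul_of_nonneg_left (le_max_left _ _) (by positivity)
  · have h1 : 1 ≤ δ⁻¹ := (one_le_inv₀ hδ).2 hδ1
    calc _ ≤ max (1 / (Y : ℝ)) ‖Complex.exp (Complex.I * x) - Complex.exp (Complex.I * y)‖ :=
          le_max_right _ _
      _ = 1 * max (1 / (Y : ℝ)) ‖Complex.exp (Complex.I * x) - Complex.exp (Complex.I * y)‖ :=
          (one_mul _).symm
      _ ≤ _ := mul_le_mul_of_nonneg_right h1 (by positivity)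

lemma Ph_delta {k : Fin d → ℝ} (hk : ∀ i, 0 < k i) (α : Fin d → ℝ) {X Y : ℕ} {δ : ℝ}
    (hδ : 0 < δ) (hδ1 : δ ≤ 1) (hX : 1 ≤ X) (hY : 1 ≤ Y) (h : δ * Y ≤ X) :
    (∏ i, ∏ l, δ ^ (k i * k l)) * Ph Y k α ≤ Ph X k α := by
  unfold Ph
  rw [← Finset.prod_mul_distrib]
  refine Finset.prod_le_prod (fun i _ => mul_nonneg (Finset.prod_nonneg fun l _ => by positivity)
    (Finset.prod_nonneg fun l _ => Real.rpow_nonneg (sp_pos hY _ _).le _)) fun i _ => ?_
  rw [← Finset.prod_mul_distrib]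
  refine Finset.prod_le_prod (fun l _ => mul_nonneg (by positivity)
    (Real.rpow_nonneg (sp_pos hY _ _).le _)) fun l _ => ?_
  have hkk := mul_pos (hk i) (hk l)
  have e : δ ^ (k i * k l) * sp Y (α i) (α l) ^ (-(k i * k l)) =
      (δ⁻¹ * sp Y (α i) (α l)) ^ (-(k i * k l)) := by
    rw [Real.mul_rpow (by positivity) (sp_pos hY _ _).le, Real.inv_rpow hδ.le,
      Real.rpow_neg hδ.le, inv_inv]
  rw [e]
  exact Real.rpow_le_rpow_of_nonpos (sp_pos hX _ _) (sp_delta hδ hδ1 hX hY h _ _) (by linarith)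

end

end Pool.Agent.H481.GS
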