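import Pool.Agent.H481.GS5

/-!
The signed shifted mean.
-/

open Finset MeasureTheory MvPolynomial
open Pool.Agent.R319.UM

namespace Pool.Agent.H481.GS

open Pool.Agent.H481.GA

noncomputable section

variable {N d : ℕ}

lemma one_sub_norm (x : ℝ) (z : ℂ) :
    ‖1 - Complex.exp (-(Complex.I * x)) * z‖ = ‖Complex.exp (Complex.I * x) - z‖ := by
  have h1 : ‖Complex.exp (-(Complex.I * x))‖ = 1 := exp_norm_one x
  have h2 : 1 - Complex.exp (-(Complex.I * x)) * z =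
      Complex.exp (-(Complex.I * x)) * (Complex.exp (Complex.I * x) - z) := by
    rw [mul_sub, ← Complex.exp_add, neg_add_cancel, Complex.exp_zero]
  rw [h2, norm_mul, h1, one_mul]

lemma one_sub_conj_norm (x : ℝ) (z : ℂ) :
    ‖1 - Complex.exp (-(Complex.I * x)) * (starRingEnd ℂ) z‖ =
      ‖Complex.exp (Complex.I * ((-x : ℝ) : ℂ)) - z‖ := by
  rw [← one_sub_norm (-x) z, ← Complex.norm_conj]
  congr 1
  rw [map_sub, map_one, map_mul, Complex.conj_conj, ← Complex.exp_conj, map_neg, map_mul,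
    Complex.conj_I, Complex.conj_ofReal]
  congr 3
  push_cast
  ring

lemma kos_norm (k : ℕ) (a θ : ℝ) (z : Fin N → ℂ) :
    ‖(∏ j, (1 - Complex.exp (-(Complex.I * ((θ + a : ℝ) : ℂ))) * z j)) ^ k *
      (∏ j, (1 - Complex.exp (-(Complex.I * ((a - θ : ℝ) : ℂ))) * (starRingEnd ℂ) (z j))) ^ k‖ =
    Zs ![(k : ℝ) / 2, (k : ℝ) / 2] ![a, -a] θ z := by
  unfold Zs
  rw [Fin.prod_univ_two]
  simp only [Matrix.cons_val_zero, Matrix.cons_val_one]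
  have e : 2 * ((k : ℝ) / 2) = (k : ℝ) := by ring
  rw [e, Real.rpow_natCast, Real.rpow_natCast, norm_mul, norm_pow, norm_pow]
  congr 2
  · rw [norm_prod, norm_prod]
    exact Finset.prod_congr rfl fun j _ => one_sub_norm _ _
  · rw [norm_prod, norm_prod]
    refine Finset.prod_congr rfl fun j _ => ?_
    have e2 : (-(a - θ) : ℝ) = θ + -a := by ring
    rw [one_sub_conj_norm, e2]

lemma Ph_two {X : ℕ} (hX : 1 ≤ X) (k : ℝ) (a : ℝ) :
    Ph X ![k / 2, k / 2] ![a, -a] = (X : ℝ) ^ (k ^ 2 / 2) * sp X a (-a) ^ (-(k ^ 2 / 2)) := by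
  have hX0 : (0 : ℝ) < X := by exact_mod_cast hX
  have hp := sp_pos hX a (-a)
  have hsymm : sp X (-a) a = sp X a (-a) := by
    unfold sp
    rw [norm_sub_rev]
  unfold Ph
  rw [Fin.prod_univ_two, Fin.prod_univ_two, Fin.prod_univ_two]
  simp only [Matrix.cons_val_zero, Matrix.cons_val_one]
  rw [sp_self, sp_self, hsymm, one_div, Real.inv_rpow hX0.le, Real.rpow_neg hX0.le, inv_inv]
  have e1 : (X : ℝ) ^ (k ^ 2 / 2) = (X : ℝ) ^ (k / 2 * (k / 2)) * (X : ℝ) ^ (k / 2 * (k / 2)) := by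
    rw [← Real.rpow_add hX0]
    congr 1
    ring
  have e2 : sp X a (-a) ^ (-(k ^ 2 / 2)) =
      sp X a (-a) ^ (-(k / 2 * (k / 2))) * sp X a (-a) ^ (-(k / 2 * (k / 2))) := by
    rw [← Real.rpow_add hp]
    congr 1
    ring
  rw [e1, e2]
  ring

/-- the signed mean -/
def kos (k : ℕ) (a : ℝ) (ν : Measure (Fin N → ℂ)) : ℂ :=
  ∫ z, ((2 * (Real.pi : ℂ))⁻¹ * ∫ θ in Set.Ioc (0 : ℝ) (2 * Real.pi),
    (∏ j, (1 - Complex.exp (-(Complex.I * ((θ + a : ℝ) : ℂ))) * z j)) ^ k *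
      (∏ j, (1 - Complex.exp (-(Complex.I * ((a - θ : ℝ) : ℂ))) * (starRingEnd ℂ) (z j))) ^ k) ∂ν

lemma kos_le {k : ℕ} (hk : 1 ≤ k) (a : ℝ) {ν : Measure (Fin N → ℂ)}
    [IsProbabilityMeasure ν] (h1 : ∀ᵐ z ∂ν, ∀ i, ‖z i‖ = 1) :
    ‖kos k a ν‖ ≤ ∫ z, msh ![(k : ℝ) / 2, (k : ℝ) / 2] ![a, -a] z ∂ν := by
  have hk0 : (0 : ℝ) < k := by exact_mod_cast hk
  have hkk : ∀ i : Fin 2, 0 < (![(k : ℝ) / 2, (k : ℝ) / 2] : Fin 2 → ℝ) i := by
    intro i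
    fin_cases i <;> simp <;> omega
  unfold kos
  refine (norm_integral_le_integral_norm _).trans ?_
  refine integral_mono_of_nonneg (Filter.Eventually.of_forall fun z => norm_nonneg _)
    (msh_int hkk _ h1) (Filter.Eventually.of_forall fun z => ?_)
  simp only
  rw [norm_mul]
  unfold msh
  have e : ‖(2 * (Real.pi : ℂ))⁻¹‖ = (2 * Real.pi)⁻¹ := by
    rw [norm_inv, norm_mul, Complex.norm_real, Real.norm_of_nonneg Real.pi_pos.le]
    norm_num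
  rw [e]
  refine mul_le_mul_of_nonneg_left ?_ (by positivity)
  refine (norm_integral_le_integral_norm _).trans (le_of_eq ?_)
  refine setIntegral_congr_fun measurableSet_Ioc fun θ _ => ?_
  exact kos_norm k a θ z

theorem kos_order {k : ℕ} (hk : 1 ≤ k) {δ : ℝ} (hδ : 0 < δ) :
    ∃ C : ℝ, 0 < C ∧ ∀ (N : ℕ), 1 ≤ N → ∀ R : ℕ, δ * N ≤ R → ∀ ν : Measure (Fin N → ℂ),
      IsProbabilityMeasure ν → (∀ᵐ z ∂ν, ∀ i, ‖z i‖ = 1) → TC N R ν → ∀ a : ℝ,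
      ‖kos k a ν‖ ≤ C * ((N : ℝ) ^ ((k : ℝ) ^ 2 / 2) * sp N a (-a) ^ (-((k : ℝ) ^ 2 / 2))) := by
  have hk0 : (0 : ℝ) < k := by exact_mod_cast hk
  have hkk : ∀ i : Fin 2, 0 < (![(k : ℝ) / 2, (k : ℝ) / 2] : Fin 2 → ℝ) i := by
    intro i
    fin_cases i <;> simp <;> omega
  obtain ⟨C, hC, h⟩ := up_theta hkk hδ
  refine ⟨C, hC, fun N hN R hR ν hν h1 hT a => ?_⟩
  refine (kos_le hk a h1).trans ?_
  rw [← Ph_two hN]
  exact msh_mean hkk _ h1 (h N hN R hR ν hν h1 hT ![a, -a])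

end

end Pool.Agent.H481.GS
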