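import Mathlib

/-!
Configurations of points closed under the reflection in the unit circle: elementary symmetric
functions and the size of the largest point.
-/

open MvPolynomial Finset

namespace Pool.Agent.H481.IN

noncomputable section

variable {N : ℕ}

/-- the elementary symmetric functions -/
def es {ι : Type*} [Fintype ι] (k : ℕ) (z : ι → ℂ) : ℂ :=
  ∑ t ∈ powersetCard k (univ : Finset ι), ∏ i ∈ t, z i

lemma eval_esymm (k : ℕ) (z : Fin N → ℂ) : eval z (esymm (Fin N) ℂ k) = es k z := by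
  unfold esymm es
  simp

/-- closed under the reflection -/
def Refl (z : Fin N → ℂ) : Prop :=
  ∃ π : Equiv.Perm (Fin N), ∀ i, z (π i) * (starRingEnd ℂ) (z i) = 1

lemma es_zero (z : Fin N → ℂ) : es 0 z = 1 := by
  simp [es]

lemma es_top (z : Fin N → ℂ) : es N z = ∏ i, z i := by
  have h := powersetCard_self (univ : Finset (Fin N))
  rw [card_univ, Fintype.card_fin] at h
  simp [es, h]

lemma refl_prod {z : Fin N → ℂ} (h : Refl z) : (∏ i, z i) * (starRingEnd ℂ) (∏ i, z i) = 1 := by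
  obtain ⟨π, hπ⟩ := h
  rw [map_prod]
  conv_lhs => rw [← Equiv.prod_comp π z]
  rw [← Finset.prod_mul_distrib]
  exact Finset.prod_eq_one fun i _ => hπ i

lemma refl_es {z : Fin N → ℂ} (h : Refl z) {k : ℕ} (hk : k ≤ N) :
    (∏ i, z i) * (starRingEnd ℂ) (es k z) = es (N - k) z := by
  classical
  obtain ⟨π, hπ⟩ := h
  unfold es
  rw [map_sum, Finset.mul_sum]
  refine Finset.sum_nbij' (fun t => (t.map π.toEmbedding)ᶜ) (fun t => (tᶜ).map π.symm.toEmbedding)
    ?_ ?_ ?_ ?_ ?_
  · intro t ht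
    rw [mem_powersetCard] at ht ⊢
    refine ⟨subset_univ _, ?_⟩
    rw [card_compl, card_map, ht.2, Fintype.card_fin]
  · intro t ht
    rw [mem_powersetCard] at ht ⊢
    refine ⟨subset_univ _, ?_⟩
    rw [card_map, card_compl, ht.2, Fintype.card_fin]
    omega
  · intro t _
    rw [compl_compl, map_map]
    ext x
    simp
  · intro t _
    rw [map_map]
    ext x
    simp
  · intro t _
    rw [map_prod]
    have h1 : (∏ i, z i) = (∏ i ∈ (t.map π.toEmbedding)ᶜ, z i) * ∏ i ∈ t.map π.toEmbedding, z i := by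
      rw [mul_comm, Finset.prod_mul_prod_compl]
    rw [h1, mul_assoc, Finset.prod_map, ← Finset.prod_mul_distrib]
    have h2 : ∏ i ∈ t, z (π.toEmbedding i) * (starRingEnd ℂ) (z i) = 1 :=
      Finset.prod_eq_one fun i _ => hπ i
    rw [h2, mul_one]

lemma refl_norm {z : Fin N → ℂ} (h : Refl z) : ‖∏ i, z i‖ = 1 := by
  have h1 := congrArg norm (refl_prod h)
  rw [norm_mul, RCLike.norm_conj, norm_one] at h1
  nlinarith [norm_nonneg (∏ i, z i)]

lemma refl_es_norm {z : Fin N → ℂ} (h : Refl z) {k : ℕ} (hk : k ≤ N) :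
    ‖es k z‖ = ‖es (N - k) z‖ := by
  rw [← refl_es h hk, norm_mul, refl_norm h, one_mul, RCLike.norm_conj]

lemma es_le' {ι : Type*} [Fintype ι] {z : ι → ℂ} {M : ℝ} (hM : 0 ≤ M) (hz : ∀ i, ‖z i‖ ≤ M)
    (k : ℕ) : ‖es k z‖ ≤ 2 ^ Fintype.card ι * M ^ k := by
  unfold es
  refine (norm_sum_le _ _).trans ?_
  have h1 : ∀ t ∈ powersetCard k (univ : Finset ι), ‖∏ i ∈ t, z i‖ ≤ M ^ k := by
    intro t ht
    rw [mem_powersetCard] at ht
    rw [norm_prod]
    calc ∏ i ∈ t, ‖z i‖ ≤ ∏ i ∈ t, M := Finset.prod_le_prod (fun i _ => norm_nonneg _)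
          fun i _ => hz i
      _ = M ^ k := by rw [Finset.prod_const, ht.2]
  refine (Finset.sum_le_card_nsmul _ _ _ h1).trans ?_
  rw [card_powersetCard, card_univ, nsmul_eq_mul]
  have h2 : (Fintype.card ι).choose k ≤ 2 ^ Fintype.card ι := Nat.choose_le_two_pow _ k
  have h3 : ((Fintype.card ι).choose k : ℝ) ≤ 2 ^ Fintype.card ι := by exact_mod_cast h2
  exact mul_le_mul_of_nonneg_right h3 (pow_nonneg hM k)

lemma es_le {z : Fin N → ℂ} {M : ℝ} (hM : 0 ≤ M) (hz : ∀ i, ‖z i‖ ≤ M) (k : ℕ) :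
    ‖es k z‖ ≤ 2 ^ N * M ^ k := by
  have := es_le' hM hz k
  rwa [Fintype.card_fin] at this

/-- the elementary symmetric functions are the coefficients of the characteristic polynomial -/
lemma coeff_char {ι : Type*} [Fintype ι] (z : ι → ℂ) (k : ℕ) :
    (∏ i, (1 + Polynomial.C (z i) * Polynomial.X)).coeff k = es k z := by
  classical
  rw [Finset.prod_one_add, Polynomial.finsetSum_coeff]
  have h1 : ∀ t ∈ (univ : Finset ι).powerset,
      (∏ i ∈ t, Polynomial.C (z i) * Polynomial.X).coeff k =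
        if t.card = k then ∏ i ∈ t, z i else 0 := by
    intro t _
    rw [Finset.prod_mul_distrib, Finset.prod_const, ← map_prod, Polynomial.coeff_C_mul_X_pow]
    simp only [eq_comm]
  rw [Finset.sum_congr rfl h1, ← Finset.sum_filter]
  unfold es
  refine Finset.sum_congr ?_ fun _ _ => rfl
  ext t
  simp [mem_powersetCard]

/-- the expansion of the characteristic polynomial -/
lemma char_expand (z : Fin N → ℂ) (x : ℂ) :
    ∏ i, (1 + x * z i) = ∑ k ∈ range (N + 1), x ^ k * es k z := by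
  classical
  rw [Finset.prod_one_add]
  rw [Finset.sum_powerset]
  rw [card_univ, Fintype.card_fin]
  refine Finset.sum_congr rfl fun k _ => ?_
  unfold es
  rw [Finset.mul_sum]
  refine Finset.sum_congr rfl fun t ht => ?_
  rw [mem_powersetCard] at ht
  rw [Finset.prod_mul_distrib, Finset.prod_const, ht.2]

/-- **a large zero makes a low elementary symmetric function large** -/
theorem large_es (hN : 0 < N) {z : Fin N → ℂ} (h : Refl z) {r : ℝ}
    (hr : (N : ℝ) * 2 ^ (N + 1) ≤ r) (hz : ∃ i, r ≤ ‖z i‖) :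
    ∃ k, 1 ≤ k ∧ k ≤ N / 2 ∧ r ^ k ≤ N * ‖es k z‖ := by
  classical
  have : Nonempty (Fin N) := ⟨⟨0, hN⟩⟩
  obtain ⟨i0, hi0⟩ := Finite.exists_max fun i => ‖z i‖
  obtain ⟨i1, hi1⟩ := hz
  set M := ‖z i0‖ with hM
  have hrM : r ≤ M := hi1.trans (hi0 i1)
  have hN1 : (1 : ℝ) ≤ N := by exact_mod_cast hN
  have h2N : (1 : ℝ) ≤ 2 ^ N := one_le_pow₀ (by norm_num)
  have h2N' : (2 : ℝ) ^ (N + 1) = 2 * 2 ^ N := by ring
  have hr1 : 2 ≤ r := by
    refine le_trans ?_ hr
    rw [h2N']
    nlinarith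
  have hM1 : 1 ≤ M := by linarith
  have hM0 : 0 < M := by linarith
  have hz0 : z i0 ≠ 0 := by
    intro h0
    rw [hM, h0, norm_zero] at hM0
    exact lt_irrefl _ hM0
  have e1 := char_expand z (-(z i0)⁻¹)
  rw [Finset.prod_eq_zero (Finset.mem_univ i0) (by field_simp; ring),
    Finset.sum_range_succ'] at e1
  simp only [pow_zero, es_zero, one_mul] at e1
  have e2 : (1 : ℝ) ≤ ∑ k ∈ range N, ‖es (k + 1) z‖ / M ^ (k + 1) := by
    have e3 : (1 : ℂ) = -∑ k ∈ range N, (-(z i0)⁻¹) ^ (k + 1) * es (k + 1) z := by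
      linear_combination -e1
    calc (1 : ℝ) = ‖(1 : ℂ)‖ := by simp
      _ = ‖∑ k ∈ range N, (-(z i0)⁻¹) ^ (k + 1) * es (k + 1) z‖ := by
          conv_lhs => rw [e3]
          rw [norm_neg]
      _ ≤ ∑ k ∈ range N, ‖(-(z i0)⁻¹) ^ (k + 1) * es (k + 1) z‖ := norm_sum_le _ _
      _ = _ := by
          refine Finset.sum_congr rfl fun k _ => ?_
          rw [norm_mul, norm_pow, norm_neg, norm_inv, ← hM, inv_pow]
          field_simp
  by_contra hc
  push Not at hc
  have hz' : ∀ i, ‖z i‖ ≤ M := hi0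
  -- each term is less than `1 / N`
  have e4 : ∀ k ∈ range N, ‖es (k + 1) z‖ / M ^ (k + 1) < 1 / N := by
    intro k hk
    rw [Finset.mem_range] at hk
    rw [div_lt_div_iff₀ (pow_pos hM0 _) (by linarith)]
    by_cases hk2 : k + 1 ≤ N / 2
    · have h5 := hc (k + 1) (by omega) hk2
      have h6 : r ^ (k + 1) ≤ M ^ (k + 1) := pow_le_pow_left₀ (by linarith) hrM _
      nlinarith
    · have h5 : ‖es (k + 1) z‖ ≤ 2 ^ N * M ^ (N - (k + 1)) := by
        rw [refl_es_norm h (by omega)]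
        exact es_le hM0.le hz' _
      have h6 : M ^ (N - (k + 1)) ≤ M ^ k := by
        apply pow_le_pow_right₀ hM1
        omega
      have h7 : M ^ (k + 1) = M ^ k * M := pow_succ _ _
      have h8 : 0 < M ^ k := pow_pos hM0 _
      have h9 : (2 : ℝ) ^ N * N < M := by
        refine lt_of_lt_of_le ?_ (hr.trans hrM)
        rw [h2N']
        nlinarith
      calc ‖es (k + 1) z‖ * N ≤ 2 ^ N * M ^ k * N := by
            apply mul_le_mul_of_nonneg_right _ (by linarith)
            exact h5.trans (mul_le_mul_of_nonneg_left h6 (by positivity))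
        _ = (2 ^ N * N) * M ^ k := by ring
        _ < M * M ^ k := mul_lt_mul_of_pos_right h9 h8
        _ = 1 * M ^ (k + 1) := by rw [h7]; ring
  have e5 : ∑ k ∈ range N, ‖es (k + 1) z‖ / M ^ (k + 1) < 1 := by
    calc _ < ∑ k ∈ range N, (1 / N : ℝ) := by
          apply Finset.sum_lt_sum_of_nonempty _ e4
          exact ⟨0, Finset.mem_range.2 hN⟩
      _ = 1 := by
          rw [Finset.sum_const, card_range, nsmul_eq_mul]
          field_simp
  linarith

end

end Pool.Agent.H481.IN
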