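import Pool.Agent.H481.SB9

/-!
The pair correlation bound for the number of the points which are not simple.
-/

open MvPolynomial Finset MeasureTheory
open Pool.Agent.R319.UM

namespace Pool.Agent.H481.SB

noncomputable section

variable {N : ℕ}

/-- the mean over a fine grid -/
lemma cue_as_grid (hN : 0 < N) {R K : ℕ} (hK : N + R ≤ K) (F G : MvPolynomial (Fin N) ℂ)
    (hF : F.totalDegree ≤ R) (hG : G.totalDegree ≤ R) :
    (N.factorial : ℂ) * cue (fun z => eval z F * (starRingEnd ℂ) (eval z G)) =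
      ∑ x : Fin N → Fin K, (∏ _j : Fin N, (K : ℂ)⁻¹) *
        ((eval (gz K x) F * (starRingEnd ℂ) (eval (gz K x) G)) * (V2 (gz K x) : ℂ)) := by
  have hdeg : ∀ P : MvPolynomial (Fin N) ℂ, P.totalDegree ≤ R →
      ∀ j, (P * VP N).degreeOf j < K := by
    intro P hP j
    refine lt_of_le_of_lt (MvPolynomial.degreeOf_mul_le _ _ _) ?_
    have h1 := MvPolynomial.degreeOf_le_totalDegree P j
    have h2 := VP_deg hN j
    omega
  have hPQ : ∀ z : Fin N → ℂ, (eval z F * (starRingEnd ℂ) (eval z G)) * (V2 z : ℂ) =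
      eval z (F * VP N) * (starRingEnd ℂ) (eval z (G * VP N)) := by
    intro z
    rw [← VP_eval, map_mul, map_mul, map_mul]
    ring
  have hK0 : 0 < K := by omega
  have e5 := torus_eq_grid hK0 (F * VP N) (G * VP N) (hdeg F hF) (hdeg G hG)
  have hNf : (N.factorial : ℂ) ≠ 0 := by exact_mod_cast N.factorial_ne_zero
  have hcue : ∀ I : ℂ, (N.factorial : ℂ) * (((N.factorial : ℂ) * (2 * Real.pi) ^ N)⁻¹ * I) =
      ((2 * Real.pi : ℂ) ^ N)⁻¹ * I := by
    intro I
    rw [mul_inv]
    field_simp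
  unfold cue
  rw [hcue]
  simp only [hPQ]
  rw [e5, Finset.mul_sum]
  refine Finset.sum_congr rfl fun x _ => ?_
  rw [Finset.prod_const, Finset.card_univ, Fintype.card_fin, inv_pow]

/-- the shift weights -/
def shw (K : ℕ) (i j : Fin N) (k : ℕ) (r : Fin N) (x : Fin K) : ℂ :=
  (K : ℂ)⁻¹ * ((if r = i then (Complex.exp (2 * Real.pi * Complex.I / K) ^ (x : ℕ)) ^ k else 1) *
    (if r = j then (starRingEnd ℂ) ((Complex.exp (2 * Real.pi * Complex.I / K) ^ (x : ℕ)) ^ k)
      else 1))

lemma shw_mom {K : ℕ} (i j : Fin N) (k : ℕ) (r : Fin N) {a b : ℕ} (ha : a + k < K)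
    (hb : b + k < K) :
    ∑ x : Fin K, shw K i j k r x * ((Complex.exp (2 * Real.pi * Complex.I / K) ^ (x : ℕ)) ^ a *
      (starRingEnd ℂ) ((Complex.exp (2 * Real.pi * Complex.I / K) ^ (x : ℕ)) ^ b)) =
      if (a + if r = i then k else 0) = (b + if r = j then k else 0) then 1 else 0 := by
  have hK : 0 < K := by omega
  have hKc : (K : ℂ) ≠ 0 := by exact_mod_cast hK.ne'
  have e : ∀ x : Fin K, shw K i j k r x *
      ((Complex.exp (2 * Real.pi * Complex.I / K) ^ (x : ℕ)) ^ a *
      (starRingEnd ℂ) ((Complex.exp (2 * Real.pi * Complex.I / K) ^ (x : ℕ)) ^ b)) =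
      (K : ℂ)⁻¹ * ((Complex.exp (2 * Real.pi * Complex.I / K) ^ (x : ℕ)) ^
        (a + if r = i then k else 0) *
      (starRingEnd ℂ) ((Complex.exp (2 * Real.pi * Complex.I / K) ^ (x : ℕ)) ^
        (b + if r = j then k else 0))) := by
    intro x
    unfold shw
    rw [pow_add, pow_add, map_mul]
    split_ifs <;> simp <;> ring
  simp only [e]
  rw [← Finset.mul_sum, one_disc hK (by split_ifs <;> omega) (by split_ifs <;> omega)]
  split_ifs <;> simp [hKc]

/-- `E z_i^k conj z_j^k` -/
lemma pair_mom {K k : ℕ} (hk : 0 < k) (hK : N + k ≤ K) (i j : Fin N) :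
    ∑ x : Fin N → Fin K, (∏ _j : Fin N, (K : ℂ)⁻¹) *
        ((gz K x i ^ k * (starRingEnd ℂ) (gz K x j ^ k)) * (V2 (gz K x) : ℂ)) =
      if i = j then (N.factorial : ℂ) else
        - ∑ σ : Equiv.Perm (Fin N), (if (σ i : ℕ) + k = σ j then (1 : ℂ) else 0) := by
  classical
  have e0 : ∀ x : Fin N → Fin K, (∏ _j : Fin N, (K : ℂ)⁻¹) *
        ((gz K x i ^ k * (starRingEnd ℂ) (gz K x j ^ k)) * (V2 (gz K x) : ℂ)) =
      (∏ r, shw K i j k r (x r)) * (V2 (fun r =>
        Complex.exp (2 * Real.pi * Complex.I / K) ^ (x r : ℕ)) : ℂ) := by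
    intro x
    unfold shw
    rw [Finset.prod_mul_distrib, Finset.prod_mul_distrib, Finset.prod_ite_eq',
      Finset.prod_ite_eq', if_pos (Finset.mem_univ _), if_pos (Finset.mem_univ _)]
    have : gz K x = fun r => Complex.exp (2 * Real.pi * Complex.I / K) ^ (x r : ℕ) := rfl
    rw [this]
    ring
  simp only [e0]
  rw [sum_V2 (fun x : Fin K => Complex.exp (2 * Real.pi * Complex.I / K) ^ (x : ℕ))
    (shw K i j k)]
  have hlt : ∀ a : Fin N, (a : ℕ) + k < K := fun a => by have := a.2; omega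
  simp only [shw_mom i j k _ (hlt _) (hlt _)]
  by_cases hij : i = j
  · rw [if_pos hij]
    subst hij
    have : ∀ σ : Equiv.Perm (Fin N), ∑ ρ : Equiv.Perm (Fin N), ((Equiv.Perm.sign ρ : ℤ) : ℂ) *
        ∏ r, (if ((σ r : ℕ) + if r = i then k else 0) = ((σ (ρ r) : ℕ) + if r = i then k else 0)
          then (1 : ℂ) else 0) = 1 := by
      intro σ
      rw [Finset.sum_eq_single 1]
      · simp
      · intro ρ _ hρ
        have : ∃ r, ρ r ≠ r := by
          by_contra hc
          push Not at hc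
          exact hρ (Equiv.ext hc)
        obtain ⟨r, hr⟩ := this
        rw [Finset.prod_eq_zero (Finset.mem_univ r), mul_zero]
        rw [if_neg]
        intro h
        exact hr (σ.injective (Fin.ext (by omega))).symm
      · simp
    simp only [this]
    rw [Finset.sum_const, Finset.card_univ, Fintype.card_perm, Fintype.card_fin, nsmul_eq_mul,
      mul_one]
  · rw [if_neg hij, ← Finset.sum_neg_distrib]
    refine Finset.sum_congr rfl fun σ _ => ?_
    rw [Finset.sum_eq_single (Equiv.swap i j)]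
    · rw [Equiv.Perm.sign_swap hij]
      have hS : ∀ (f : Fin N → ℂ), ∏ k, f k = f i * (f j * ∏ k ∈ (univ.erase i).erase j, f k) := by
        intro f
        rw [← Finset.mul_prod_erase univ _ (Finset.mem_univ i),
          ← Finset.mul_prod_erase (univ.erase i) _
            (Finset.mem_erase.2 ⟨fun h => hij h.symm, Finset.mem_univ j⟩)]
      rw [hS, Finset.prod_eq_one]
      · simp only [if_true, if_neg hij, if_neg (Ne.symm hij), add_zero,
          Equiv.swap_apply_left, Equiv.swap_apply_right, mul_one]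
        by_cases h : (σ i : ℕ) + k = σ j
        · rw [if_pos h, if_pos h.symm]
          push_cast
          ring
        · rw [if_neg h]
          push_cast
          ring
      · intro r hr
        rw [Finset.mem_erase, Finset.mem_erase] at hr
        rw [Equiv.swap_apply_of_ne_of_ne hr.2.1 hr.1, if_neg hr.2.1, if_neg hr.1]
        simp
    · intro ρ _ hρ
      by_cases h1 : ρ = 1
      · rw [Finset.prod_eq_zero (Finset.mem_univ i), mul_zero]
        rw [if_neg]
        rw [h1, if_pos rfl, if_neg hij]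
        simp only [Equiv.Perm.coe_one, id_eq]
        omega
      · have : ∃ r, r ≠ i ∧ r ≠ j ∧ ρ r ≠ r := by
          by_contra hc
          push Not at hc
          rcases perm_two hc with h | h
          · exact h1 h
          · exact hρ h
        obtain ⟨r, hri, hrj, hr⟩ := this
        rw [Finset.prod_eq_zero (Finset.mem_univ r), mul_zero]
        rw [if_neg hri, if_neg hrj, if_neg]
        intro h
        exact hr (σ.injective (Fin.ext (by omega))).symm
    · simp

lemma count_shift (N k : ℕ) : ∑ a : Fin N, ∑ b : Fin N,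
    (if (a : ℕ) + k = b then (1 : ℂ) else 0) = (N : ℂ) - (min k N : ℕ) := by
  classical
  have e : ∀ a : Fin N, ∑ b : Fin N, (if (a : ℕ) + k = b then (1 : ℂ) else 0) =
      if (a : ℕ) < N - k then 1 else 0 := by
    intro a
    by_cases h : (a : ℕ) < N - k
    · rw [if_pos h, Finset.sum_eq_single ⟨a + k, by omega⟩]
      · simp
      · intro b _ hb
        rw [if_neg]
        intro h2
        exact hb (Fin.ext h2.symm)
      · simp
    · rw [if_neg h]
      refine Finset.sum_eq_zero fun b _ => ?_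
      rw [if_neg]
      have := b.2
      omega
  simp only [e]
  rw [Fin.sum_univ_eq_sum_range (fun a => if a < N - k then (1 : ℂ) else 0) N,
    ← Finset.sum_filter]
  rw [Finset.sum_const, nsmul_eq_mul, mul_one]
  have : (Finset.filter (fun a => a < N - k) (range N)) = range (N - k) := by
    ext a
    simp only [Finset.mem_filter, Finset.mem_range]
    omega
  rw [this, Finset.card_range]
  rcases le_total k N with h | h
  · rw [min_eq_left h, Nat.cast_sub h]
  · rw [min_eq_right h, Nat.sub_eq_zero_of_le h]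
    simp

/-- the form factor -/
theorem form_factor (hN : 0 < N) {k : ℕ} (hk : 0 < k) :
    cue (N := N) (fun z => eval z (psum (Fin N) ℂ k) *
      (starRingEnd ℂ) (eval z (psum (Fin N) ℂ k))) = (min k N : ℕ) := by
  classical
  have hNf : (N.factorial : ℂ) ≠ 0 := by exact_mod_cast N.factorial_ne_zero
  have hdeg : (psum (Fin N) ℂ k).totalDegree ≤ k := by
    unfold psum
    refine (totalDegree_finsetSum _ _).trans (Finset.sup_le fun i _ => ?_)
    exact (totalDegree_X_pow i k).le
  have h := cue_as_grid hN (R := k) (K := N + k) (le_refl _) _ _ hdeg hdeg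
  have e : ∀ z : Fin N → ℂ, eval z (psum (Fin N) ℂ k) * (starRingEnd ℂ) (eval z (psum (Fin N) ℂ k)) =
      ∑ i, ∑ j, z i ^ k * (starRingEnd ℂ) (z j ^ k) := by
    intro z
    rw [eval_psum, map_sum, Finset.sum_mul_sum]
  simp only [e] at h ⊢
  have h2 : ∑ x : Fin N → Fin (N + k), (∏ _j : Fin N, ((N + k : ℕ) : ℂ)⁻¹) *
        ((∑ i, ∑ j, gz (N + k) x i ^ k * (starRingEnd ℂ) (gz (N + k) x j ^ k)) *
          (V2 (gz (N + k) x) : ℂ)) =
      ∑ i, ∑ j, ∑ x : Fin N → Fin (N + k), (∏ _j : Fin N, ((N + k : ℕ) : ℂ)⁻¹) *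
        ((gz (N + k) x i ^ k * (starRingEnd ℂ) (gz (N + k) x j ^ k)) *
          (V2 (gz (N + k) x) : ℂ)) := by
    simp only [Finset.sum_mul, Finset.mul_sum]
    rw [Finset.sum_comm]
    refine Finset.sum_congr rfl fun i _ => ?_
    rw [Finset.sum_comm]
  rw [h2] at h
  simp only [pair_mom hk (le_refl (N + k))] at h
  have h3 : ∑ i : Fin N, ∑ j : Fin N, (if i = j then (N.factorial : ℂ) else
        - ∑ σ : Equiv.Perm (Fin N), (if (σ i : ℕ) + k = σ j then (1 : ℂ) else 0)) =
      (N.factorial : ℂ) * (min k N : ℕ) := by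
    have e1 : ∀ i : Fin N, ∑ j : Fin N, (if i = j then (N.factorial : ℂ) else
        - ∑ σ : Equiv.Perm (Fin N), (if (σ i : ℕ) + k = σ j then (1 : ℂ) else 0)) =
        (N.factorial : ℂ) - ∑ j ∈ univ.erase i, ∑ σ : Equiv.Perm (Fin N),
          (if (σ i : ℕ) + k = σ j then (1 : ℂ) else 0) := by
      intro i
      rw [← Finset.add_sum_erase univ _ (Finset.mem_univ i), if_pos rfl, sub_eq_add_neg,
        ← Finset.sum_neg_distrib]
      congr 1
      refine Finset.sum_congr rfl fun j hj => ?_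
      rw [if_neg (Finset.ne_of_mem_erase hj).symm]
    simp only [e1]
    rw [Finset.sum_sub_distrib, slots (fun a b => if a + k = b then (1 : ℂ) else 0)
      (fun a => if_neg (by omega)), count_shift, Finset.sum_const, Finset.card_univ,
      Fintype.card_fin, nsmul_eq_mul]
    ring
  rw [h3] at h
  exact mul_left_cancel₀ hNf h

/-! ### the bound -/

/-- the mean of `u^s conj u^t` against the pair measure -/
lemma pair_grid {K s t : ℕ} (hs : s + N < K) (ht : t + N < K) :
    ∑ x : Fin K, (K : ℂ)⁻¹ * (((Complex.exp (2 * Real.pi * Complex.I / K) ^ (x : ℕ)) ^ s *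
      (starRingEnd ℂ) ((Complex.exp (2 * Real.pi * Complex.I / K) ^ (x : ℕ)) ^ t)) *
      ∑ a : Fin N, ∑ b : Fin N, (1 -
        (Complex.exp (2 * Real.pi * Complex.I / K) ^ (x : ℕ)) ^ (a : ℕ) *
        (starRingEnd ℂ) ((Complex.exp (2 * Real.pi * Complex.I / K) ^ (x : ℕ)) ^ (b : ℕ)))) =
      (if s = t then (N : ℂ) ^ 2 else (min (max s t - min s t) N : ℕ)) - N := by
  classical
  have hK : 0 < K := by omega
  have hKc : (K : ℂ) ≠ 0 := by exact_mod_cast hK.ne'
  set ζ := Complex.exp (2 * Real.pi * Complex.I / K) with hζ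
  have e : ∀ x : Fin K, (K : ℂ)⁻¹ * (((ζ ^ (x : ℕ)) ^ s * (starRingEnd ℂ) ((ζ ^ (x : ℕ)) ^ t)) *
      ∑ a : Fin N, ∑ b : Fin N, (1 - (ζ ^ (x : ℕ)) ^ (a : ℕ) *
        (starRingEnd ℂ) ((ζ ^ (x : ℕ)) ^ (b : ℕ)))) =
      ∑ a : Fin N, ∑ b : Fin N, ((K : ℂ)⁻¹ * ((ζ ^ (x : ℕ)) ^ s *
        (starRingEnd ℂ) ((ζ ^ (x : ℕ)) ^ t)) - (K : ℂ)⁻¹ * ((ζ ^ (x : ℕ)) ^ (s + a) *
        (starRingEnd ℂ) ((ζ ^ (x : ℕ)) ^ (t + b)))) := by
    intro x
    rw [Finset.mul_sum, Finset.mul_sum]
    refine Finset.sum_congr rfl fun a _ => ?_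
    rw [Finset.mul_sum, Finset.mul_sum]
    refine Finset.sum_congr rfl fun b _ => ?_
    rw [pow_add, pow_add, map_mul]
    ring
  simp only [e]
  rw [Finset.sum_comm]
  have e2 : ∀ a : Fin N, ∑ x : Fin K, ∑ b : Fin N, ((K : ℂ)⁻¹ * ((ζ ^ (x : ℕ)) ^ s *
        (starRingEnd ℂ) ((ζ ^ (x : ℕ)) ^ t)) - (K : ℂ)⁻¹ * ((ζ ^ (x : ℕ)) ^ (s + a) *
        (starRingEnd ℂ) ((ζ ^ (x : ℕ)) ^ (t + b)))) =
      ∑ b : Fin N, ((if s = t then (1 : ℂ) else 0) - (if s + a = t + b then 1 else 0)) := by
    intro a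
    rw [Finset.sum_comm]
    refine Finset.sum_congr rfl fun b _ => ?_
    rw [Finset.sum_sub_distrib, ← Finset.mul_sum, ← Finset.mul_sum,
      one_disc hK (by omega) (by omega), one_disc hK (by have := a.2; omega)
        (by have := b.2; omega)]
    split_ifs <;> simp [hKc]
  simp only [e2]
  simp only [Finset.sum_sub_distrib, Finset.sum_const, Finset.card_univ, Fintype.card_fin,
    nsmul_eq_mul]
  rcases lt_trichotomy s t with h | h | h
  · have e3 : ∀ a b : Fin N, (if s + (a : ℕ) = t + b then (1 : ℂ) else 0) =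
        if (b : ℕ) + (t - s) = a then 1 else 0 := by
      intro a b
      congr 1
      apply propext
      omega
    simp only [e3]
    rw [Finset.sum_comm, count_shift, if_neg (by omega), if_neg (by omega), max_eq_right h.le,
      min_eq_left h.le]
    ring
  · subst h
    have e3 : ∀ a b : Fin N, (if s + (a : ℕ) = s + b then (1 : ℂ) else 0) =
        if (a : ℕ) + 0 = b then 1 else 0 := by
      intro a b
      congr 1
      apply propext
      omega
    simp only [e3]
    rw [count_shift]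
    simp
    ring
  · have e3 : ∀ a b : Fin N, (if s + (a : ℕ) = t + b then (1 : ℂ) else 0) =
        if (a : ℕ) + (s - t) = b then 1 else 0 := by
      intro a b
      congr 1
      apply propext
      omega
    simp only [e3]
    rw [count_shift, if_neg (by omega), if_neg (by omega), max_eq_left h.le,
      min_eq_right h.le]
    ring

end

end Pool.Agent.H481.SB
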