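import Pool.Agent.H481.IN1
import Pool.Agent.H481.SB10

/-!
Finite laws, a representation lemma for finite dimensional spaces of polynomials, and the
elementary symmetric monomials.
-/

open MvPolynomial Finset MeasureTheory
open Pool.Agent.R319.UM

namespace Pool.Agent.H481.IN

noncomputable section

variable {N : ℕ}

/-! ### finite laws -/

/-- a finite law -/
def fl {Y : Type*} [Fintype Y] (W : Y → ℝ) (p : Y → Fin N → ℂ) : Measure (Fin N → ℂ) :=
  ∑ y, ENNReal.ofReal (W y) • Measure.dirac (p y)

section
variable {Y : Type*} [Fintype Y] {W : Y → ℝ} {p : Y → Fin N → ℂ}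

lemma fl_prob (hW : ∀ y, 0 ≤ W y) (h1 : ∑ y, W y = 1) : IsProbabilityMeasure (fl W p) := by
  constructor
  unfold fl
  rw [Measure.coe_finsetSum, Finset.sum_apply]
  simp only [Measure.smul_apply, Measure.dirac_apply, Set.mem_univ, Set.indicator_of_mem,
    Pi.one_apply, smul_eq_mul, mul_one]
  rw [← ENNReal.ofReal_sum_of_nonneg fun y _ => hW y, h1, ENNReal.ofReal_one]

lemma fl_integrable {E : Type*} [NormedAddCommGroup E] [NormedSpace ℝ E] [CompleteSpace E]
    (f : (Fin N → ℂ) → E) : Integrable f (fl W p) := by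
  unfold fl
  rw [integrable_finsetSum_measure]
  intro x _
  exact (integrable_dirac (by simp)).smul_measure ENNReal.ofReal_ne_top

lemma fl_int (hW : ∀ y, 0 ≤ W y) {E : Type*} [NormedAddCommGroup E] [NormedSpace ℝ E]
    [CompleteSpace E] (f : (Fin N → ℂ) → E) :
    ∫ z, f z ∂(fl W p) = ∑ y, W y • f (p y) := by
  unfold fl
  have hint : ∀ y, Integrable f (ENNReal.ofReal (W y) • Measure.dirac (p y)) := by
    intro y
    exact (integrable_dirac (by simp)).smul_measure ENNReal.ofReal_ne_top
  rw [integral_finsetSum_measure fun x _ => hint x]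
  refine Finset.sum_congr rfl fun x _ => ?_
  rw [integral_smul_measure, integral_dirac, ENNReal.toReal_ofReal (hW x)]

lemma fl_ae {P : (Fin N → ℂ) → Prop} (h : ∀ y, W y ≠ 0 → P (p y)) : ∀ᵐ z ∂(fl W p), P z := by
  unfold fl
  rw [Filter.Eventually, MeasureTheory.mem_ae_iff]
  rw [Measure.coe_finsetSum, Finset.sum_apply]
  refine Finset.sum_eq_zero fun y _ => ?_
  rw [Measure.smul_apply]
  by_cases hw : W y = 0
  · rw [hw]
    simp
  · have hp := h y hw
    have : (Measure.dirac (p y)) {z | P z}ᶜ = 0 := by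
      rw [Measure.dirac_apply]
      simp [hp]
    rw [this]
    simp

end

/-! ### the representation lemma -/

/-- a finite dimensional space of functions on which the values at the points `X` are injective:
every element is a fixed linear combination, the coefficients being its values -/
lemma repr {ι X V : Type*} [Fintype ι] [Fintype X] [DecidableEq X] [AddCommGroup V] [Module ℂ V]
    (w : ι → V) (Φ : V →ₗ[ℂ] (X → ℂ))
    (hΦ : ∀ p ∈ Submodule.span ℂ (Set.range w), Φ p = 0 → p = 0) :
    ∃ c : X → ι → ℂ, ∀ p ∈ Submodule.span ℂ (Set.range w),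
      p = ∑ x, Φ p x • ∑ i, c x i • w i := by
  set S := Submodule.span ℂ (Set.range w) with hS
  have hker : LinearMap.ker (Φ.comp S.subtype) = ⊥ := by
    rw [LinearMap.ker_eq_bot']
    intro p hp
    have := hΦ p.1 p.2 hp
    exact Subtype.ext this
  obtain ⟨g, hg⟩ := LinearMap.exists_leftInverse_of_injective _ hker
  have h1 : ∀ x : X, ∃ c : ι → ℂ, ∑ i, c i • w i = ((g (Pi.single x 1) : S) : V) := by
    intro x
    exact (Submodule.mem_span_range_iff_exists_fun ℂ).1 (g (Pi.single x 1)).2
  choose c hc using h1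
  refine ⟨c, fun p hp => ?_⟩
  simp only [hc]
  have h2 : g (Φ p) = (⟨p, hp⟩ : S) := by
    have := LinearMap.congr_fun hg ⟨p, hp⟩
    simpa using this
  have h3 : Φ p = ∑ x, Φ p x • (Pi.single x (1 : ℂ) : X → ℂ) := by
    funext y
    rw [Finset.sum_apply]
    simp [Pi.single_apply]
  have h4 : p = ((g (Φ p) : S) : V) := by rw [h2]
  conv_lhs => rw [h4, h3, map_sum]
  rw [Submodule.coe_sum]
  refine Finset.sum_congr rfl fun x _ => ?_
  rw [map_smul]
  rfl

/-! ### the elementary symmetric monomials -/

/-- exponents of weight at most `d` -/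
def Ex (N d : ℕ) : Type := {α : Fin N → Fin (d + 1) // ∑ i : Fin N, ((i : ℕ) + 1) * (α i : ℕ) ≤ d}

instance (N d : ℕ) : Fintype (Ex N d) := by
  unfold Ex
  infer_instance

/-- the elementary symmetric monomials -/
def em (α : Fin N → ℕ) : MvPolynomial (Fin N) ℂ := ∏ i : Fin N, esymm (Fin N) ℂ (i + 1) ^ α i

lemma esymm_homog (k : ℕ) : (esymm (Fin N) ℂ k).IsHomogeneous k := by
  unfold esymm
  refine IsHomogeneous.sum _ _ _ fun t ht => ?_
  rw [mem_powersetCard] at ht
  have := IsHomogeneous.prod t (fun i => (X i : MvPolynomial (Fin N) ℂ)) (fun _ => 1)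
    fun i _ => isHomogeneous_X ℂ i
  simpa [ht.2] using this

lemma em_homog (α : Fin N → ℕ) : (em α).IsHomogeneous (∑ i : Fin N, ((i : ℕ) + 1) * α i) := by
  unfold em
  exact IsHomogeneous.prod _ _ _ fun i _ => (esymm_homog (N := N) ((i : ℕ) + 1)).pow (α i)

/-- symmetric polynomials of degree at most `d` are combinations of the elementary symmetric
monomials of weight at most `d` -/
theorem span_em {d : ℕ} {F : MvPolynomial (Fin N) ℂ} (hs : F.IsSymmetric)
    (hd : F.totalDegree ≤ d) :
    F ∈ Submodule.span ℂ (Set.range fun α : Ex N d => em (fun i => (α.1 i : ℕ))) := by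
  classical
  obtain ⟨q, hq⟩ := (esymmAlgHom_fin_bijective ℂ N).2 ⟨F, hs⟩
  have hF : F = ∑ α ∈ q.support, q.coeff α • em (fun i => α i) := by
    have h1 := esymmAlgHom_apply (σ := Fin N) (R := ℂ) q
    rw [hq] at h1
    rw [show F = aeval (fun i : Fin N => esymm (Fin N) ℂ (i + 1)) q from h1, aeval_def,
      eval₂_eq']
    refine Finset.sum_congr rfl fun α _ => ?_
    rw [MvPolynomial.algebraMap_eq, MvPolynomial.smul_eq_C_mul]
    rfl
  have hF2 : F = ∑ n ∈ range (d + 1), homogeneousComponent n F := by
    conv_lhs => rw [← sum_homogeneousComponent F]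
    apply Finset.sum_subset
    · intro n hn
      rw [mem_range] at hn ⊢
      omega
    · intro n _ hn
      rw [mem_range] at hn
      exact homogeneousComponent_eq_zero n F (by omega)
  rw [hF2]
  refine Submodule.sum_mem _ fun n hn => ?_
  rw [mem_range] at hn
  rw [hF, map_sum]
  refine Submodule.sum_mem _ fun α _ => ?_
  rw [map_smul]
  apply Submodule.smul_mem
  have h2 : homogeneousComponent n (em (fun i => α i) : MvPolynomial (Fin N) ℂ) =
      if n = ∑ i : Fin N, ((i : ℕ) + 1) * α i then em (fun i => α i) else 0 := by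
    apply homogeneousComponent_of_mem
    exact em_homog _
  rw [h2]
  split_ifs with h3
  · apply Submodule.subset_span
    have hle : ∀ i : Fin N, α i ≤ d := by
      intro i
      have h4 : ((i : ℕ) + 1) * α i ≤ ∑ i : Fin N, ((i : ℕ) + 1) * α i :=
        Finset.single_le_sum (f := fun i : Fin N => ((i : ℕ) + 1) * α i)
          (fun _ _ => Nat.zero_le _) (Finset.mem_univ i)
      have h5 : α i ≤ ((i : ℕ) + 1) * α i := Nat.le_mul_of_pos_left _ (by omega)
      omega
    refine ⟨⟨fun i => ⟨α i, by have := hle i; omega⟩, ?_⟩, ?_⟩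
    · simp only
      omega
    · rfl
  · exact Submodule.zero_mem _

end

end Pool.Agent.H481.IN
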