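import Pool.Agent.H481.AC5

/-!
The probability that prescribed grid points belong to the configuration.
-/

open Finset
open Pool.Agent.R319.UM
open scoped Matrix

namespace Pool.Agent.H481.MG

open AC

noncomputable section

variable {N K : ℕ} {ι : Type} [Fintype ι] [DecidableEq ι]

/-- the vectors of the powers -/
def VV (N : ℕ) (u : ι → Fin K) : Matrix (Fin N) ι ℂ := fun a t => rt K (u t) ^ (a : ℕ)

/-- the mean of a product, exactly -/
lemma gprod_eq (hK : 0 < K) (w : Fin K → ℝ) :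
    ((∑ k : Fin N → Fin K, SG.gw N K k * ∏ i, w (k i) : ℝ) : ℂ) =
      (mm w N).det / (K : ℂ) ^ N := by
  have hNf : (N.factorial : ℂ) ≠ 0 := by exact_mod_cast N.factorial_ne_zero
  have hK0 : (K : ℂ) ≠ 0 := by exact_mod_cast hK.ne'
  have h2 := SB.sum_V2 (N := N) (rt K) (fun _ x => (w x : ℂ))
  have h3 : ∀ σ : Equiv.Perm (Fin N), ∑ ρ : Equiv.Perm (Fin N), ((Equiv.Perm.sign ρ : ℤ) : ℂ) *
      ∏ k, ∑ x, (w x : ℂ) * (rt K x ^ (σ k : ℕ) * (starRingEnd ℂ) (rt K x ^ (σ (ρ k) : ℕ))) =
      (mm w N).det := by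
    intro σ
    rw [← Matrix.det_submatrix_equiv_self σ, ← Matrix.det_transpose, Matrix.det_apply']
    rfl
  simp only [h3] at h2
  rw [Finset.sum_const, Finset.card_univ, Fintype.card_perm, Fintype.card_fin,
    nsmul_eq_mul] at h2
  push_cast
  have h4 : ∀ k : Fin N → Fin K, (SG.gw N K k : ℂ) * ∏ i, (w (k i) : ℂ) =
      ((N.factorial : ℂ) * (K : ℂ) ^ N)⁻¹ *
        ((∏ i, (w (k i) : ℂ)) * (V2 (fun i => rt K (k i)) : ℂ)) := by
    intro k
    have e : V2 (gz K k) = V2 (fun i => rt K (k i)) := rfl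
    unfold SG.gw
    rw [e]
    push_cast
    rw [div_eq_mul_inv]
    ring
  simp only [h4]
  rw [← Finset.mul_sum, h2]
  field_simp

lemma mm_one (hK : N ≤ K) (hK0 : 0 < K) :
    mm (fun _ : Fin K => (1 : ℝ)) N = (K : ℂ) • (1 : Matrix (Fin N) (Fin N) ℂ) := by
  ext a b
  unfold mm
  simp only [Complex.ofReal_one, one_mul]
  have h := one_disc hK0 (lt_of_lt_of_le a.2 hK) (lt_of_lt_of_le b.2 hK)
  have h' : ∑ x : Fin K, (rt K x ^ (a : ℕ) * (starRingEnd ℂ) (rt K x ^ (b : ℕ))) =
      if (a : ℕ) = b then (K : ℂ) else 0 := h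
  rw [h', Matrix.smul_apply, Matrix.one_apply, smul_eq_mul]
  by_cases hab : a = b
  · rw [if_pos hab, if_pos (by rw [hab]), mul_one]
  · rw [if_neg hab, if_neg (fun h => hab (Fin.ext h)), mul_zero]

open Classical in
/-- the weight of the set of the points `u` -/
def wt (s : ℝ) (u : ι → Fin K) (x : Fin K) : ℝ := 1 + s * if ∃ t, u t = x then 1 else 0

lemma mm_wt (hK : N ≤ K) (hK0 : 0 < K) (s : ℝ) {u : ι → Fin K} (hu : Function.Injective u) :
    mm (wt s u) N = (K : ℂ) • (1 : Matrix (Fin N) (Fin N) ℂ) +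
      (s : ℂ) • (VV N u * (VV N u)ᴴ) := by
  classical
  rw [← mm_one hK hK0]
  ext a b
  rw [Matrix.add_apply, Matrix.smul_apply, Matrix.mul_apply, smul_eq_mul]
  unfold mm wt
  have e : ∀ x : Fin K, (((1 + s * (if ∃ t, u t = x then (1 : ℝ) else 0) : ℝ)) : ℂ) *
      (rt K x ^ (a : ℕ) * (starRingEnd ℂ) (rt K x ^ (b : ℕ))) =
      ((1 : ℝ) : ℂ) * (rt K x ^ (a : ℕ) * (starRingEnd ℂ) (rt K x ^ (b : ℕ))) +
      (s : ℂ) * ((if ∃ t, u t = x then (1 : ℂ) else 0) *
        (rt K x ^ (a : ℕ) * (starRingEnd ℂ) (rt K x ^ (b : ℕ)))) := by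
    intro x
    split_ifs <;> push_cast <;> ring
  simp only [e]
  rw [Finset.sum_add_distrib]
  congr 1
  rw [← Finset.mul_sum]
  congr 1
  have e2 : ∀ x : Fin K, (if ∃ t, u t = x then (1 : ℂ) else 0) *
      (rt K x ^ (a : ℕ) * (starRingEnd ℂ) (rt K x ^ (b : ℕ))) =
      ∑ t, if u t = x then (rt K x ^ (a : ℕ) * (starRingEnd ℂ) (rt K x ^ (b : ℕ))) else 0 := by
    intro x
    by_cases hx : ∃ t, u t = x
    · obtain ⟨t, ht⟩ := hx
      rw [if_pos ⟨t, ht⟩, one_mul, Finset.sum_eq_single t]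
      · rw [if_pos ht]
      · intro t' _ hne
        rw [if_neg]
        intro h
        exact hne (hu (h.trans ht.symm))
      · intro h
        exact absurd (Finset.mem_univ t) h
    · rw [if_neg hx, zero_mul]
      symm
      refine Finset.sum_eq_zero fun t _ => ?_
      rw [if_neg]
      intro h
      exact hx ⟨t, h⟩
  simp only [e2]
  rw [Finset.sum_comm]
  refine Finset.sum_congr rfl fun t _ => ?_
  rw [Finset.sum_ite_eq univ (u t), if_pos (Finset.mem_univ _)]
  rw [Matrix.conjTranspose_apply]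
  rfl

/-- the determinant -/
lemma det_wt (hK : N ≤ K) (hK0 : 0 < K) (s : ℝ) {u : ι → Fin K} (hu : Function.Injective u) :
    (mm (wt s u) N).det / (K : ℂ) ^ N =
      (1 + ((s : ℂ) / K) • ((VV N u)ᴴ * VV N u)).det := by
  have hKc : (K : ℂ) ≠ 0 := by exact_mod_cast hK0.ne'
  rw [mm_wt hK hK0 s hu]
  have e : (K : ℂ) • (1 : Matrix (Fin N) (Fin N) ℂ) + (s : ℂ) • (VV N u * (VV N u)ᴴ) =
      (K : ℂ) • (1 + VV N u * (((s : ℂ) / K) • (VV N u)ᴴ)) := by
    rw [smul_add, Matrix.mul_smul, smul_smul]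
    congr 2
    field_simp
  rw [e, Matrix.det_smul, Fintype.card_fin, Matrix.det_one_add_mul_comm, Matrix.smul_mul]
  field_simp

open Classical in
/-- the number of the points of the configuration in the set -/
def nA (u : ι → Fin K) (k : Fin N → Fin K) : ℕ := (univ.filter fun i => ∃ t, u t = k i).card

omit [DecidableEq ι] in
lemma prod_wt (s : ℝ) (u : ι → Fin K) (k : Fin N → Fin K) :
    ∏ i, wt s u (k i) = (1 + s) ^ nA u k := by
  classical
  unfold wt nA
  have e : ∀ i, 1 + s * (if ∃ t, u t = k i then (1 : ℝ) else 0) =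
      if ∃ t, u t = k i then 1 + s else 1 := by
    intro i
    split_ifs <;> ring
  simp only [e]
  rw [Finset.prod_ite, Finset.prod_const, Finset.prod_const_one, mul_one]

omit [DecidableEq ι] in
lemma nA_le {u : ι → Fin K} {k : Fin N → Fin K} (hk : Function.Injective k) :
    nA u k ≤ Fintype.card ι := by
  classical
  unfold nA
  calc (univ.filter fun i => ∃ t, u t = k i).card
      = ((univ.filter fun i => ∃ t, u t = k i).image k).card :=
        (Finset.card_image_of_injective _ hk).symm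
    _ ≤ (univ.image u).card := by
        refine Finset.card_le_card fun x hx => ?_
        rw [Finset.mem_image] at hx
        obtain ⟨i, hi, rfl⟩ := hx
        obtain ⟨t, ht⟩ := (Finset.mem_filter.1 hi).2
        exact Finset.mem_image.2 ⟨t, Finset.mem_univ _, ht⟩
    _ ≤ Fintype.card ι := by
        refine Finset.card_image_le.trans ?_
        rw [card_univ]

omit [DecidableEq ι] in
lemma nA_eq {u : ι → Fin K} (hu : Function.Injective u) {k : Fin N → Fin K}
    (hk : Function.Injective k) : nA u k = Fintype.card ι ↔ ∀ t, ∃ i, k i = u t := by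
  classical
  have h1 : nA u k = ((univ.filter fun i => ∃ t, u t = k i).image k).card := by
    unfold nA
    exact (Finset.card_image_of_injective _ hk).symm
  have h2 : Fintype.card ι = (univ.image u).card := by
    rw [Finset.card_image_of_injective _ hu, card_univ]
  have hsub : (univ.filter fun i => ∃ t, u t = k i).image k ⊆ univ.image u := by
    intro x hx
    rw [Finset.mem_image] at hx
    obtain ⟨i, hi, rfl⟩ := hx
    obtain ⟨t, ht⟩ := (Finset.mem_filter.1 hi).2
    exact Finset.mem_image.2 ⟨t, Finset.mem_univ _, ht⟩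
  constructor
  · intro h t
    have heq : (univ.filter fun i => ∃ t, u t = k i).image k = univ.image u :=
      Finset.eq_of_subset_of_card_le hsub (by rw [← h1, ← h2, h])
    have hmem : u t ∈ (univ.filter fun i => ∃ t, u t = k i).image k := by
      rw [heq]
      exact Finset.mem_image_of_mem u (Finset.mem_univ t)
    obtain ⟨i, _, hi⟩ := Finset.mem_image.1 hmem
    exact ⟨i, hi⟩
  · intro h
    rw [h1, h2]
    congr 1
    refine Finset.Subset.antisymm hsub fun x hx => ?_
    obtain ⟨t, _, rfl⟩ := Finset.mem_image.1 hx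
    obtain ⟨i, hi⟩ := h t
    exact Finset.mem_image.2 ⟨i, Finset.mem_filter.2 ⟨Finset.mem_univ _, t, hi.symm⟩, hi⟩

lemma inj_of_gw' {k : Fin N → Fin K} (hk : SG.gw N K k ≠ 0) : Function.Injective k := by
  have h : Function.Injective (gz K k) := by
    by_contra h
    apply hk
    unfold SG.gw
    rw [V2_zero h, zero_div]
  intro a b hab
  exact h (by
    have e : ∀ i, gz K k i = rt K (k i) := fun _ => rfl
    rw [e, e, hab])

open Classical in
/-- the probability that all the points `u` belong to the configuration -/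
def pin (N : ℕ) (u : ι → Fin K) : ℝ :=
  ∑ k : Fin N → Fin K, SG.gw N K k * if ∀ t, ∃ i, k i = u t then 1 else 0

/-- **the probability of prescribed points** -/
theorem pin_eq (hK : N ≤ K) (hK0 : 0 < K) {u : ι → Fin K} (hu : Function.Injective u) :
    (pin N u : ℂ) = ((VV N u)ᴴ * VV N u).det / (K : ℂ) ^ Fintype.card ι := by
  classical
  have hKc : (K : ℂ) ≠ 0 := by exact_mod_cast hK0.ne'
  set q := Fintype.card ι with hq
  set G := (VV N u)ᴴ * VV N u with hG
  -- the two functions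
  have key : ∀ ε : ℝ, 0 < ε →
      ((∑ k : Fin N → Fin K, SG.gw N K k * (ε ^ (q - nA u k) * (1 + ε) ^ nA u k) : ℝ) : ℂ) =
        ((ε : ℂ) • (1 : Matrix ι ι ℂ) + (K : ℂ)⁻¹ • G).det := by
    intro ε hε
    have hεc : (ε : ℂ) ≠ 0 := by exact_mod_cast hε.ne'
    have h1 := gprod_eq (N := N) hK0 (wt ε⁻¹ u)
    rw [det_wt hK hK0 ε⁻¹ hu] at h1
    have e1 : ∑ k : Fin N → Fin K, SG.gw N K k * (ε ^ (q - nA u k) * (1 + ε) ^ nA u k) =
        ε ^ q * ∑ k : Fin N → Fin K, SG.gw N K k * ∏ i, wt ε⁻¹ u (k i) := by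
      rw [Finset.mul_sum]
      refine Finset.sum_congr rfl fun k _ => ?_
      by_cases hk : SG.gw N K k = 0
      · rw [hk]
        ring
      · have hle := nA_le (u := u) (inj_of_gw' hk)
        rw [prod_wt]
        have e2 : (1 + ε⁻¹) = (1 + ε) / ε := by
          field_simp
          ring
        have e3 : ε ^ q = ε ^ (q - nA u k) * ε ^ nA u k := by
          rw [← pow_add]
          congr 1
          omega
        rw [e2, div_pow, e3]
        field_simp
    rw [e1]
    push_cast at h1 ⊢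
    rw [h1]
    have e4 : (ε : ℂ) • (1 : Matrix ι ι ℂ) + (K : ℂ)⁻¹ • G =
        (ε : ℂ) • (1 + ((ε : ℂ)⁻¹ / K) • G) := by
      rw [smul_add, smul_smul]
      congr 2
      field_simp
    rw [e4, Matrix.det_smul]
  have cL : Continuous fun ε : ℝ =>
      ((∑ k : Fin N → Fin K, SG.gw N K k * (ε ^ (q - nA u k) * (1 + ε) ^ nA u k) : ℝ) : ℂ) := by
    fun_prop
  have cR : Continuous fun ε : ℝ => ((ε : ℂ) • (1 : Matrix ι ι ℂ) + (K : ℂ)⁻¹ • G).det := by
    refine Continuous.matrix_det ?_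
    fun_prop
  have hlim : ((∑ k : Fin N → Fin K, SG.gw N K k * ((0 : ℝ) ^ (q - nA u k) *
      (1 + (0 : ℝ)) ^ nA u k) : ℝ) : ℂ) =
      (((0 : ℝ) : ℂ) • (1 : Matrix ι ι ℂ) + (K : ℂ)⁻¹ • G).det := by
    have t1 := (cL.tendsto 0).mono_left (nhdsWithin_le_nhds (s := Set.Ioi (0 : ℝ)))
    have t2 := (cR.tendsto 0).mono_left (nhdsWithin_le_nhds (s := Set.Ioi (0 : ℝ)))
    have h := t1.congr' (f₂ := fun ε : ℝ =>
      ((ε : ℂ) • (1 : Matrix ι ι ℂ) + (K : ℂ)⁻¹ • G).det) (by
        filter_upwards [self_mem_nhdsWithin] with ε hε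
        exact key ε hε)
    exact tendsto_nhds_unique h t2
  have eL : ∑ k : Fin N → Fin K, SG.gw N K k * ((0 : ℝ) ^ (q - nA u k) *
      (1 + (0 : ℝ)) ^ nA u k) = pin N u := by
    unfold pin
    refine Finset.sum_congr rfl fun k _ => ?_
    by_cases hk : SG.gw N K k = 0
    · rw [hk]
      ring
    · have hinj := inj_of_gw' hk
      have hle := nA_le (u := u) hinj
      rw [add_zero, one_pow, mul_one]
      congr 1
      by_cases h : ∀ t, ∃ i, k i = u t
      · rw [if_pos h, (nA_eq hu hinj).2 h, ← hq, Nat.sub_self, pow_zero]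
      · rw [if_neg h]
        have hne : nA u k ≠ q := fun h2 => h ((nA_eq hu hinj).1 h2)
        rw [zero_pow]
        omega
  rw [eL] at hlim
  rw [hlim, Complex.ofReal_zero, zero_smul, zero_add, Matrix.det_smul, inv_pow]
  ring

end

end Pool.Agent.H481.MG
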