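import Pool.Agent.H481.MG9

/-!
Negative correlation of the double points.
-/

open MvPolynomial Finset MeasureTheory
open Pool.Agent.R319.UM
open scoped Matrix ComplexOrder

namespace Pool.Agent.H481.MG

open SB

set_option linter.unusedSectionVars false

noncomputable section

section fisch

variable {ι κ : Type} [Fintype ι] [DecidableEq ι] [Fintype κ] [DecidableEq κ]

/-- Fischer's inequality for semidefinite matrices -/
theorem fischer0 (mono : ∀ S P : Matrix κ κ ℂ, S.PosSemidef → P.PosSemidef →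
    S.det.re ≤ (S + P).det.re) (A : Matrix ι ι ℂ) (B : Matrix ι κ ℂ) (D : Matrix κ κ ℂ)
    (hG : (Matrix.fromBlocks A B Bᴴ D).PosSemidef) :
    (Matrix.fromBlocks A B Bᴴ D).det.re ≤ A.det.re * D.det.re := by
  have hA : A.PosSemidef := by
    have h := hG.submatrix (Sum.inl : ι → ι ⊕ κ)
    have e : (Matrix.fromBlocks A B Bᴴ D).submatrix Sum.inl Sum.inl = A := by
      ext i j
      rfl
    rwa [e] at h
  have key : ∀ δ : ℝ, 0 < δ →
      (Matrix.fromBlocks (A + (δ : ℂ) • 1) B Bᴴ (D + (δ : ℂ) • 1)).det.re ≤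
        (A + (δ : ℂ) • (1 : Matrix ι ι ℂ)).det.re * (D + (δ : ℂ) • (1 : Matrix κ κ ℂ)).det.re := by
    intro δ hδ
    have hδc : (0 : ℂ) < (δ : ℂ) := by
      rw [Complex.lt_def]
      simp [hδ]
    refine fischer mono _ B _ ?_ ?_
    · have e : Matrix.fromBlocks (A + (δ : ℂ) • 1) B Bᴴ (D + (δ : ℂ) • 1) =
          Matrix.fromBlocks A B Bᴴ D + (δ : ℂ) • (1 : Matrix (ι ⊕ κ) (ι ⊕ κ) ℂ) := by
        rw [← Matrix.fromBlocks_one, Matrix.fromBlocks_smul, Matrix.fromBlocks_add]
        simp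
      rw [e]
      exact hG.add ((Matrix.PosDef.one.smul hδc).posSemidef)
    · exact Matrix.PosDef.posSemidef_add hA (Matrix.PosDef.one.smul hδc)
  have cL : Continuous fun δ : ℝ =>
      (Matrix.fromBlocks (A + (δ : ℂ) • 1) B Bᴴ (D + (δ : ℂ) • 1)).det.re := by
    refine Complex.continuous_re.comp (Continuous.matrix_det ?_)
    refine Continuous.matrix_fromBlocks ?_ continuous_const continuous_const ?_ <;> fun_prop
  have cR : Continuous fun δ : ℝ => (A + (δ : ℂ) • (1 : Matrix ι ι ℂ)).det.re *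
      (D + (δ : ℂ) • (1 : Matrix κ κ ℂ)).det.re := by
    refine Continuous.mul (Complex.continuous_re.comp (Continuous.matrix_det ?_))
      (Complex.continuous_re.comp (Continuous.matrix_det ?_)) <;> fun_prop
  have h := le_of_tendsto_of_tendsto
    ((cL.tendsto 0).mono_left (nhdsWithin_le_nhds (s := Set.Ioi (0 : ℝ))))
    ((cR.tendsto 0).mono_left (nhdsWithin_le_nhds (s := Set.Ioi (0 : ℝ))))
    (by filter_upwards [self_mem_nhdsWithin] with δ hδ
        exact key δ hδ)
  simpa using h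

end fisch

variable {N K M : ℕ} (d : Data K M)

/-- the two positions of a source -/
def us (K : ℕ) (l : Fin M) : Fin 2 → XX K M := ![Sum.inr (l, true), Sum.inr (l, false)]

/-- the positions of two sources -/
def us2 (K : ℕ) (l l' : Fin M) : Fin 2 ⊕ Fin 2 → XX K M := Sum.elim (us K l) (us K l')

lemma us_inj (l : Fin M) : Function.Injective (us K l) := by
  intro a b h
  fin_cases a <;> fin_cases b <;> simp [us] at h ⊢

lemma us2_inj {l l' : Fin M} (hl : l ≠ l') : Function.Injective (us2 K l l') := by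
  intro a b h
  rcases a with a | a <;> rcases b with b | b
  · exact congrArg Sum.inl (us_inj l h)
  · exfalso
    fin_cases a <;> fin_cases b <;> simp [us2, us, hl] at h
  · exfalso
    fin_cases a <;> fin_cases b <;> simp [us2, us, hl.symm] at h
  · exact congrArg Sum.inr (us_inj l' h)

lemma src_us (l : Fin M) (t : Fin 2) : src (us K l t) = some l := by
  fin_cases t <;> rfl

lemma us_of_src {y : XX K M} {l : Fin M} (h : src y = some l) : ∃ t, y = us K l t := by
  rcases y with q | ⟨l', b⟩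
  · simp [src] at h
  · simp only [src, Sum.elim_inr, Option.some.injEq] at h
    subst h
    cases b
    · exact ⟨1, rfl⟩
    · exact ⟨0, rfl⟩

lemma cnt_zero {S : Finset (Fin N)} {x : Fin N → XX K M} {l : Fin M}
    (h : ∀ k ∈ S, src (x k) ≠ some l) : cnt S x l = 0 := by
  unfold cnt
  refine Finset.sum_eq_zero fun k hk => ?_
  unfold ee
  rw [if_neg (h k hk)]

/-- two unused sources -/
lemma EE_T'22 {L : ℕ} (hL : N < L) (hL2 : 2 < L) (S : Finset (Fin N)) (x : Fin N → XX K M)
    {l0 l1 : Fin M} (hl : l0 ≠ l1) (h0 : cnt S x l0 = 0) (h1 : cnt S x l1 = 0) :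
    EE M L (fun s w => tt L (s l0) (w l0) ^ 2 * tt L (s l1) (w l1) ^ 2 *
      ∏ k ∈ S, d.T' L w (x k)) = ∏ k ∈ S, BB K M (x k) := by
  classical
  simp only [prod_T']
  have e : (fun (s : Fin M → Bool) (w : Fin M → Fin L) => tt L (s l0) (w l0) ^ 2 *
      tt L (s l1) (w l1) ^ 2 * ((∏ k ∈ S, d.C (x k)) * ∏ l, rt L (w l) ^ cnt S x l)) =
      fun s w => (∏ k ∈ S, d.C (x k)) * ∏ l, ((if l = l0 then tt L (s l) (w l) ^ 2 else 1) *
        (if l = l1 then tt L (s l) (w l) ^ 2 else 1)) * rt L (w l) ^ cnt S x l := by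
    funext s w
    rw [Finset.prod_mul_distrib, Finset.prod_mul_distrib, Finset.prod_ite_eq',
      Finset.prod_ite_eq']
    simp only [Finset.mem_univ, if_true]
    ring
  rw [e, EE_mul, EE_prod (fun l b w => ((if l = l0 then tt L b w ^ 2 else 1) *
    (if l = l1 then tt L b w ^ 2 else 1)) * rt L w ^ cnt S x l), ← prod_C]
  congr 1
  have hmem : l1 ∈ Finset.univ.erase l0 := Finset.mem_erase.2 ⟨hl.symm, Finset.mem_univ _⟩
  rw [← Finset.mul_prod_erase Finset.univ _ (Finset.mem_univ l0),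
    ← Finset.mul_prod_erase (Finset.univ.erase l0) _ hmem,
    ← Finset.mul_prod_erase Finset.univ (fun l => if cnt S x l = 0 then (1 : ℂ) else 0)
      (Finset.mem_univ l0), ← Finset.mul_prod_erase (Finset.univ.erase l0)
      (fun l => if cnt S x l = 0 then (1 : ℂ) else 0) hmem]
  rw [h0, h1]
  simp only [if_true, pow_zero, mul_one, one_mul, if_neg hl, if_neg hl.symm]
  rw [avg2 hL2]
  have : ∏ l ∈ (Finset.univ.erase l0).erase l1, (∑ b : Bool, ∑ w : Fin L, lam L b w *
      (((if l = l0 then tt L b w ^ 2 else 1) * (if l = l1 then tt L b w ^ 2 else 1)) *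
        rt L w ^ cnt S x l)) =
      ∏ l ∈ (Finset.univ.erase l0).erase l1, (if cnt S x l = 0 then (1 : ℂ) else 0) := by
    refine Finset.prod_congr rfl fun l hl' => ?_
    rw [Finset.mem_erase, Finset.mem_erase] at hl'
    simp only [if_neg hl'.1, if_neg hl'.2.1, one_mul]
    exact avg0 (by omega) (lt_of_le_of_lt (cnt_le S x l) hL)
  rw [this]
  ring

/-- one source -/
theorem one_source (hN : 0 < N) {D : ℕ} (hD : N ≤ D) (hK : D ≤ K) (hg : d.Grid) (hd : d.Match D)
    {L : ℕ} (hL : N < L) (hL2 : 2 < L) (l : Fin M) :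
    ∑ x : Fin N → XX K M, usd (us K l) x * (d.W L x * (V2 (fun k => d.pos (x k)) : ℂ)) =
      d.a ^ 2 * ((N.factorial : ℂ) *
        ((VX d.pos N (us K l))ᴴ * VX d.pos N (us K l)).det) := by
  have h := used_mass d hN hD hK hg hd (L := L) (us_inj (K := K) l) (c := - d.a ^ 2) (κ := -1)
    (θ := fun s w => tt L (s l) (w l) ^ 2) ?_ ?_ ?_ ?_
  · rw [h]
    ring
  · intro t
    fin_cases t <;> simp [us, BB]
  · intro s w
    rw [Fin.prod_univ_two]
    simp only [us, Data.T, Matrix.cons_val_zero, Matrix.cons_val_one, Sum.elim_inr, sg_true,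
      sg_false]
    ring
  · rintro y ⟨t, ht⟩
    rw [src_us] at ht
    exact us_of_src ht
  · intro S x hS
    rw [EE_T'2 d hL hL2 S x l (cnt_zero fun k hk => by
      have := hS k hk 0
      rwa [src_us] at this)]
    ring

/-- two sources -/
theorem two_sources (hN : 0 < N) {D : ℕ} (hD : N ≤ D) (hK : D ≤ K) (hg : d.Grid)
    (hd : d.Match D) {L : ℕ} (hL : N < L) (hL2 : 2 < L) {l l' : Fin M} (hl : l ≠ l') :
    ∑ x : Fin N → XX K M, usd (us2 K l l') x * (d.W L x * (V2 (fun k => d.pos (x k)) : ℂ)) =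
      d.a ^ 4 * ((N.factorial : ℂ) *
        ((VX d.pos N (us2 K l l'))ᴴ * VX d.pos N (us2 K l l')).det) := by
  have h := used_mass d hN hD hK hg hd (L := L) (us2_inj (K := K) hl) (c := d.a ^ 4) (κ := 1)
    (θ := fun s w => tt L (s l) (w l) ^ 2 * tt L (s l') (w l') ^ 2) ?_ ?_ ?_ ?_
  · rw [h]
    ring
  · intro t
    rcases t with t | t <;> fin_cases t <;> simp [us2, us, BB]
  · intro s w
    rw [Fintype.prod_sum_type, Fin.prod_univ_two, Fin.prod_univ_two]
    simp only [us2, us, Data.T, Matrix.cons_val_zero, Matrix.cons_val_one, Sum.elim_inl,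
      Sum.elim_inr, sg_true, sg_false]
    ring
  · rintro y ⟨t, ht⟩
    rcases t with t | t
    · have : src y = some l := by rw [ht]; exact src_us l t
      obtain ⟨t', h'⟩ := us_of_src this
      exact ⟨Sum.inl t', h'⟩
    · have : src y = some l' := by rw [ht]; exact src_us l' t
      obtain ⟨t', h'⟩ := us_of_src this
      exact ⟨Sum.inr t', h'⟩
  · intro S x hS
    rw [EE_T'22 d hL hL2 S x hl
      (cnt_zero fun k hk => by
        have := hS k hk (Sum.inl 0)
        have e : src (us2 K l l' (Sum.inl 0)) = some l := src_us l 0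
        rwa [e] at this)
      (cnt_zero fun k hk => by
        have := hS k hk (Sum.inr 0)
        have e : src (us2 K l l' (Sum.inr 0)) = some l' := src_us l' 0
        rwa [e] at this)]
    ring

/-- **negative correlation**, before the limit -/
theorem neg_cor (hN : 0 < N) {D : ℕ} (hD : N ≤ D) (hK : D ≤ K) (hg : d.Grid)
    (hd : d.Match D) {L : ℕ} (hL : N < L) (hL2 : 2 < L) {a : ℝ} (ha : d.a = a) {l l' : Fin M}
    (hl : l ≠ l') :
    (∑ x : Fin N → XX K M, usd (us2 K l l') x *
      (d.W L x * (V2 (fun k => d.pos (x k)) : ℂ))).re * (N.factorial : ℝ) ≤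
    (∑ x : Fin N → XX K M, usd (us K l) x * (d.W L x * (V2 (fun k => d.pos (x k)) : ℂ))).re *
    (∑ x : Fin N → XX K M, usd (us K l') x * (d.W L x * (V2 (fun k => d.pos (x k)) : ℂ))).re := by
  rw [one_source d hN hD hK hg hd hL hL2, one_source d hN hD hK hg hd hL hL2,
    two_sources d hN hD hK hg hd hL hL2 hl, ha]
  set A := (VX d.pos N (us K l))ᴴ * VX d.pos N (us K l) with hA
  set B := (VX d.pos N (us K l))ᴴ * VX d.pos N (us K l') with hB
  set C := (VX d.pos N (us K l'))ᴴ * VX d.pos N (us K l') with hC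
  have eG : (VX d.pos N (us2 K l l'))ᴴ * VX d.pos N (us2 K l l') =
      Matrix.fromBlocks A B Bᴴ C := by
    ext i j
    rcases i with i | i <;> rcases j with j | j
    · rfl
    · rfl
    · rw [Matrix.fromBlocks_apply₂₁, hB, Matrix.conjTranspose_mul, Matrix.conjTranspose_conjTranspose]
      rfl
    · rfl
  have hG : (Matrix.fromBlocks A B Bᴴ C).PosSemidef := by
    rw [← eG]
    exact Matrix.posSemidef_conjTranspose_mul_self _
  have h := fischer0 mono_two A B C hG
  rw [eG]
  have e1 : (((a : ℂ) ^ 4 * ((N.factorial : ℂ) * (Matrix.fromBlocks A B Bᴴ C).det)) : ℂ).re =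
      a ^ 4 * N.factorial * (Matrix.fromBlocks A B Bᴴ C).det.re := by
    have : ((a : ℂ) ^ 4 * ((N.factorial : ℂ) * (Matrix.fromBlocks A B Bᴴ C).det)) =
        ((a ^ 4 * N.factorial : ℝ) : ℂ) * (Matrix.fromBlocks A B Bᴴ C).det := by
      push_cast
      ring
    rw [this, Complex.re_ofReal_mul]
  have e2 : ∀ Q : Matrix (Fin 2) (Fin 2) ℂ, (((a : ℂ) ^ 2 * ((N.factorial : ℂ) * Q.det)) : ℂ).re =
      a ^ 2 * N.factorial * Q.det.re := by
    intro Q
    have : ((a : ℂ) ^ 2 * ((N.factorial : ℂ) * Q.det)) =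
        ((a ^ 2 * N.factorial : ℝ) : ℂ) * Q.det := by
      push_cast
      ring
    rw [this, Complex.re_ofReal_mul]
  rw [e1, e2, e2]
  have h2 : 0 ≤ a ^ 4 * (N.factorial : ℝ) ^ 2 := by positivity
  have h3 := mul_le_mul_of_nonneg_left h h2
  calc _ = a ^ 4 * (N.factorial : ℝ) ^ 2 * (Matrix.fromBlocks A B Bᴴ C).det.re := by ring
    _ ≤ _ := h3
    _ = _ := by ring

end

end Pool.Agent.H481.MG
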