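import Pool.Agent.H481.MG6

/-!
The smallest distance for all laws with the correlations of range `R`: the two bounds.
-/

open Finset MeasureTheory
open Pool.Agent.R319.UM

namespace Pool.Agent.H481.MG

open AC

noncomputable section

variable {N M R : ℕ} {ν : Measure (Fin N → ℂ)}

/-- **the smallest distance is not large** -/
theorem far (hN : 2 ≤ N) (hR : 1 ≤ R) {x : ℝ} (hx : 0 < x)
    [IsProbabilityMeasure ν] (h1 : ∀ᵐ z ∂ν, ∀ i, ‖z i‖ = 1)
    (hm : ∀ F G : MvPolynomial (Fin N) ℂ, F.totalDegree ≤ R → G.totalDegree ≤ R →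
      ∫ z, MvPolynomial.eval z F * (starRingEnd ℂ) (MvPolynomial.eval z G) ∂ν =
        cue (fun z => MvPolynomial.eval z F * (starRingEnd ℂ) (MvPolynomial.eval z G))) :
    ν.real {z | ∀ i j, i ≠ j → x < ‖z i - z j‖} ≤
      400 / (min x (1 / N) * min (R : ℝ) ((N : ℝ) ^ (4 / 3 : ℝ))) := by
  have hN0 : (2 : ℝ) ≤ N := by exact_mod_cast hN
  have hR0 : (1 : ℝ) ≤ R := by exact_mod_cast hR
  set y : ℝ := min x (1 / N) with hy
  have hy0 : 0 < y := lt_min hx (by positivity)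
  set t : ℝ := y * min (R : ℝ) ((N : ℝ) ^ (4 / 3 : ℝ)) with ht
  have ht0 : 0 < t := mul_pos hy0 (lt_min (by linarith) (by positivity))
  have hsub : {z : Fin N → ℂ | ∀ i j, i ≠ j → x < ‖z i - z j‖} ⊆
      {z | ∀ i j, i ≠ j → y < ‖z i - z j‖} := fun z hz i j hij =>
    lt_of_le_of_lt (min_le_left _ _) (hz i j hij)
  refine (measureReal_mono hsub).trans ?_
  rcases lt_or_ge t 400 with h | h
  · refine measureReal_le_one.trans ?_
    rw [le_div_iff₀ ht0]
    linarith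
  set r : ℝ := Real.sqrt t with hr
  have hr2 : r ^ 2 = t := Real.sq_sqrt ht0.le
  have hr20 : (20 : ℝ) ≤ r := by
    rw [hr, Real.le_sqrt (by norm_num) ht0.le]
    linarith
  set M := ⌈r / y⌉₊ with hM
  have hM1 : r / y ≤ M := Nat.le_ceil _
  have hM2 : (M : ℝ) < r / y + 1 := Nat.ceil_lt_add_one (by positivity)
  have hyN : y ≤ 1 / N := min_le_right _ _
  have hry : 20 * (N : ℝ) ≤ r / y := by
    rw [le_div_iff₀ hy0]
    have : (N : ℝ) * y ≤ 1 := by
      rw [le_div_iff₀ (by linarith)] at hyN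
      linarith
    nlinarith
  have hMN : 10 * N ≤ M := by
    have : (10 : ℝ) * N ≤ M := by linarith
    exact_mod_cast this
  have hM0 : (0 : ℝ) < M := by linarith
  have hMR : 6 * (M - 1) ≤ R := by
    have h2 : t ≤ y * R := mul_le_mul_of_nonneg_left (min_le_left _ _) hy0.le
    have h3 : t / y ≤ R := by
      rw [div_le_iff₀ hy0]
      linarith
    have h4 : 6 * (r / y) ≤ t / y := by
      rw [← mul_div_assoc]
      refine div_le_div_of_nonneg_right ?_ hy0.le
      nlinarith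
    have h5 : ((6 * (M - 1) : ℕ) : ℝ) ≤ R := by
      rw [Nat.cast_mul, Nat.cast_sub (by omega)]
      push_cast
      linarith
    exact_mod_cast h5
  refine (far_le hN hMN hMR hy0 h1 hm).trans ?_
  have a1 : 342 / ((M : ℝ) * y) ^ 2 ≤ 342 / t := by
    refine div_le_div_of_nonneg_left (by norm_num) ht0 ?_
    rw [← hr2]
    refine pow_le_pow_left₀ (by positivity) ?_ 2
    rw [div_le_iff₀ hy0] at hM1
    exact hM1
  have a2 : (M : ℝ) ≤ 41 / 40 * (r / y) := by linarith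
  have a3 : (M : ℝ) ^ 3 ≤ (41 / 40 * (r / y)) ^ 3 := pow_le_pow_left₀ hM0.le a2 3
  have a4 : t ^ 3 ≤ y ^ 3 * (N : ℝ) ^ 4 := by
    have h2 : t ≤ y * (N : ℝ) ^ (4 / 3 : ℝ) := mul_le_mul_of_nonneg_left (min_le_right _ _) hy0.le
    have h3 := pow_le_pow_left₀ ht0.le h2 3
    refine h3.trans (le_of_eq ?_)
    rw [mul_pow]
    congr 1
    rw [← Real.rpow_natCast, ← Real.rpow_natCast, ← Real.rpow_mul (by positivity)]
    norm_num
  have a5 : 308 * (M : ℝ) ^ 3 / (N : ℝ) ^ 4 ≤ 58 / t := by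
    rw [div_le_div_iff₀ (by positivity) ht0]
    have h2 : (41 / 40 * (r / y)) ^ 3 = 68921 / 64000 * (r * t) / y ^ 3 := by
      rw [← hr2]
      field_simp
      ring
    rw [h2] at a3
    rw [le_div_iff₀ (by positivity)] at a3
    have h3 : 20 * (r * t) * t ≤ t ^ 3 := by
      have : 20 * r ≤ t := by nlinarith
      nlinarith [mul_le_mul_of_nonneg_right this (show 0 ≤ t ^ 2 by positivity)]
    have h4 : (M : ℝ) ^ 3 * y ^ 3 * (20 * t) ≤ 68921 / 64000 * (r * t) * (20 * t) :=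
      mul_le_mul_of_nonneg_right a3 (by positivity)
    have h5 : (M : ℝ) ^ 3 * y ^ 3 * (20 * t) ≤ 68921 / 64000 * (y ^ 3 * (N : ℝ) ^ 4) := by
      nlinarith
    have h6 : y ^ 3 * ((M : ℝ) ^ 3 * (20 * t)) ≤ y ^ 3 * (68921 / 64000 * (N : ℝ) ^ 4) := by
      nlinarith
    have h7 := le_of_mul_le_mul_left h6 (by positivity)
    have h8 : 0 < (N : ℝ) ^ 4 := by positivity
    nlinarith
  have a6 : 400 / t = 58 / t + 342 / t := by
    rw [← add_div]
    norm_num
  rw [a6]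
  exact add_le_add a5 a1

/-- the kernel is large near `1` -/
lemma FF_near (hM : 1 ≤ M) {w : ℂ} (hw : ‖w‖ = 1) (h : M * ‖w - 1‖ ≤ 1) :
    77 / 100 ≤ FF M w := by
  have hM0 : (0 : ℝ) < M := by exact_mod_cast hM
  have h1 := rho_le M hw
  have h2 : 11 / 12 ≤ PhR M w := by
    unfold PhR
    rw [le_div_iff₀ (by positivity)]
    unfold rho at h1
    have h3 : (M : ℝ) ^ 2 * ((M : ℝ) ^ 2 - 1) / 12 * ‖w - 1‖ ^ 2 ≤ (M : ℝ) ^ 2 / 12 := by
      have h4 : (M : ℝ) ^ 2 * ‖w - 1‖ ^ 2 ≤ 1 := by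
        rw [← mul_pow]
        exact pow_le_one₀ (by positivity) h
      have h5 : 0 ≤ ‖w - 1‖ ^ 2 := by positivity
      have h6 : 0 ≤ (M : ℝ) ^ 2 * ‖w - 1‖ ^ 2 := by positivity
      nlinarith [mul_le_mul_of_nonneg_left h4 (show 0 ≤ (M : ℝ) ^ 2 by positivity)]
    linarith
  unfold FF
  calc (77 : ℝ) / 100 ≤ (11 / 12) ^ 3 := by norm_num
    _ ≤ _ := pow_le_pow_left₀ (by norm_num) h2 3

lemma near_meas (x : ℝ) : MeasurableSet {z : Fin N → ℂ | ∃ i j, i ≠ j ∧ ‖z i - z j‖ ≤ x} := by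
  have e : {z : Fin N → ℂ | ∃ i j, i ≠ j ∧ ‖z i - z j‖ ≤ x} =
      {z : Fin N → ℂ | ∀ i j, i ≠ j → x < ‖z i - z j‖}ᶜ := by
    ext z
    simp
  rw [e]
  exact (far_meas x).compl

/-- the mean number of close pairs -/
theorem near_le (hN : 2 ≤ N) (hM : 1 ≤ M) (hR : 3 * (M - 1) ≤ R) (hR1 : 1 ≤ R) {x : ℝ}
    (hMx : M * x ≤ 1) [IsProbabilityMeasure ν] (h1 : ∀ᵐ z ∂ν, ∀ i, ‖z i‖ = 1)
    (hm : ∀ F G : MvPolynomial (Fin N) ℂ, F.totalDegree ≤ R → G.totalDegree ≤ R →
      ∫ z, MvPolynomial.eval z F * (starRingEnd ℂ) (MvPolynomial.eval z G) ∂ν =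
        cue (fun z => MvPolynomial.eval z F * (starRingEnd ℂ) (MvPolynomial.eval z G))) :
    ν.real {z | ∃ i j, i ≠ j ∧ ‖z i - z j‖ ≤ x} ≤ 217 / 1000 * (N : ℝ) ^ 4 / (M : ℝ) ^ 3 := by
  classical
  have hM0 : (0 : ℝ) < M := by exact_mod_cast hM
  obtain ⟨μ, hF⟩ := FF_lp hM
  have tY : TP (3 * (M - 1)) (fun z : Fin N → ℂ => ((YY (FF M) z : ℝ) : ℂ)) := TP_YY hF
  have tY' := tY.mono hR
  have m1 := real_mean (by omega) (le_refl (N + R)) h1 hm tY'
  have i1 := real_int h1 tY'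
  set B : Set (Fin N → ℂ) := {z | ∃ i j, i ≠ j ∧ ‖z i - z j‖ ≤ x} with hB
  have hBm : MeasurableSet B := near_meas x
  have key : 77 / 50 * ν.real B ≤ EG N (N + R) (YY (FF M)) := by
    have e1 : 77 / 50 * ν.real B = ∫ z, 77 / 50 * B.indicator (fun _ => (1 : ℝ)) z ∂ν := by
      rw [integral_const_mul, integral_indicator_const _ hBm, smul_eq_mul, mul_one]
    rw [e1, ← m1]
    refine integral_mono_ae ?_ i1 ?_
    · exact ((integrable_const (1 : ℝ)).indicator hBm).const_mul _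
    · filter_upwards [h1] with z hz
      by_cases hzB : z ∈ B
      · rw [Set.indicator_of_mem hzB]
        obtain ⟨i, j, hij, hd⟩ := hzB
        have f1 : ∀ a b : Fin N, ‖z a - z b‖ ≤ x → 77 / 100 ≤
            FF M (z a * (starRingEnd ℂ) (z b)) := by
          intro a b hab
          refine FF_near hM (pair_norm hz a b).1 ?_
          rw [(pair_norm hz a b).2]
          exact (mul_le_mul_of_nonneg_left hab hM0.le).trans hMx
        have f2 : ∀ a b : Fin N, 0 ≤ (if a = b then 0 else FF M (z a * (starRingEnd ℂ) (z b))) := by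
          intro a b
          split_ifs
          · exact le_rfl
          · exact FF_nonneg M _
        unfold YY
        have g1 : (∑ b, if i = b then 0 else FF M (z i * (starRingEnd ℂ) (z b))) +
            (∑ b, if j = b then 0 else FF M (z j * (starRingEnd ℂ) (z b))) ≤
            ∑ a, ∑ b, if a = b then 0 else FF M (z a * (starRingEnd ℂ) (z b)) := by
          have := Finset.sum_le_sum_of_subset_of_nonneg (Finset.subset_univ ({i, j} : Finset (Fin N)))
            (f := fun a => ∑ b, if a = b then 0 else FF M (z a * (starRingEnd ℂ) (z b)))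
            (fun a _ _ => Finset.sum_nonneg fun b _ => f2 a b)
          rw [Finset.sum_pair hij] at this
          exact this
        have g2 : FF M (z i * (starRingEnd ℂ) (z j)) ≤
            ∑ b, if i = b then 0 else FF M (z i * (starRingEnd ℂ) (z b)) := by
          have := Finset.single_le_sum (f := fun b => if i = b then 0 else
            FF M (z i * (starRingEnd ℂ) (z b))) (fun b _ => f2 i b) (Finset.mem_univ j)
          beta_reduce at this
          rwa [if_neg hij] at this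
        have g3 : FF M (z j * (starRingEnd ℂ) (z i)) ≤
            ∑ b, if j = b then 0 else FF M (z j * (starRingEnd ℂ) (z b)) := by
          have := Finset.single_le_sum (f := fun b => if j = b then 0 else
            FF M (z j * (starRingEnd ℂ) (z b))) (fun b _ => f2 j b) (Finset.mem_univ i)
          beta_reduce at this
          rwa [if_neg (Ne.symm hij)] at this
        have g4 := f1 i j hd
        have g5 := f1 j i (by rw [norm_sub_rev]; exact hd)
        linarith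
      · rw [Set.indicator_of_notMem hzB, mul_zero]
        exact YY_nonneg (FF_nonneg M) z
  have h2 := key.trans (E_le (N := N) (K := N + R) hM (by omega) (by omega))
  have h3 : (N : ℝ) ^ 4 / (3 * (M : ℝ) ^ 3) = 1 / 3 * ((N : ℝ) ^ 4 / (M : ℝ) ^ 3) := by
    field_simp
  rw [h3] at h2
  have h4 : 217 / 1000 * (N : ℝ) ^ 4 / (M : ℝ) ^ 3 = 217 / 1000 * ((N : ℝ) ^ 4 / (M : ℝ) ^ 3) := by
    ring
  rw [h4]
  have h5 : 0 ≤ (N : ℝ) ^ 4 / (M : ℝ) ^ 3 := by positivity
  linarith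

/-- **the smallest distance is not small** -/
theorem near (hN : 2 ≤ N) (hR : 1 ≤ R) {x : ℝ} (hx : 0 ≤ x)
    [IsProbabilityMeasure ν] (h1 : ∀ᵐ z ∂ν, ∀ i, ‖z i‖ = 1)
    (hm : ∀ F G : MvPolynomial (Fin N) ℂ, F.totalDegree ≤ R → G.totalDegree ≤ R →
      ∫ z, MvPolynomial.eval z F * (starRingEnd ℂ) (MvPolynomial.eval z G) ∂ν =
        cue (fun z => MvPolynomial.eval z F * (starRingEnd ℂ) (MvPolynomial.eval z G))) :
    ν.real {z | ∃ i j, i ≠ j ∧ ‖z i - z j‖ ≤ x} ≤
      (N : ℝ) ^ 4 * (2 * x ^ 3 + 6 / (R : ℝ) ^ 3) := by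
  have hN0 : (2 : ℝ) ≤ N := by exact_mod_cast hN
  have hR0 : (1 : ℝ) ≤ R := by exact_mod_cast hR
  have hRp : (0 : ℝ) < R := by linarith
  have hN4 : (16 : ℝ) ≤ (N : ℝ) ^ 4 := by
    calc (16 : ℝ) = 2 ^ 4 := by norm_num
      _ ≤ _ := pow_le_pow_left₀ (by norm_num) hN0 4
  have p1 : 0 ≤ 2 * x ^ 3 := by positivity
  have p2 : 0 ≤ 6 / (R : ℝ) ^ 3 := by positivity
  by_cases hA : ((R / 3 + 1 : ℕ) : ℝ) * x ≤ 1
  · refine (near_le hN (Nat.le_add_left 1 _) (by omega) hR hA h1 hm).trans ?_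
    have h2 : (R : ℝ) / 3 ≤ ((R / 3 + 1 : ℕ) : ℝ) := by
      have : R ≤ 3 * (R / 3 + 1) := by omega
      have h3 : (R : ℝ) ≤ 3 * ((R / 3 + 1 : ℕ) : ℝ) := by exact_mod_cast this
      linarith
    have h4 := pow_le_pow_left₀ (by positivity) h2 3
    have h5 : (0 : ℝ) < ((R / 3 + 1 : ℕ) : ℝ) := by positivity
    have h6 : 217 / 1000 * (N : ℝ) ^ 4 / ((R / 3 + 1 : ℕ) : ℝ) ^ 3 ≤
        217 / 1000 * (N : ℝ) ^ 4 / ((R : ℝ) / 3) ^ 3 :=
      div_le_div_of_nonneg_left (by positivity) (by positivity) h4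
    refine h6.trans ?_
    have h7 : 217 / 1000 * (N : ℝ) ^ 4 / ((R : ℝ) / 3) ^ 3 =
        (N : ℝ) ^ 4 * (5859 / 1000 / (R : ℝ) ^ 3) := by
      field_simp
      norm_num
    rw [h7]
    refine mul_le_mul_of_nonneg_left ?_ (by positivity)
    have h8 : 5859 / 1000 / (R : ℝ) ^ 3 ≤ 6 / (R : ℝ) ^ 3 :=
      div_le_div_of_nonneg_right (by norm_num) (by positivity)
    linarith
  · push Not at hA
    rcases lt_or_ge 1 x with hx1 | hx1
    · refine measureReal_le_one.trans ?_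
      have h2 : (1 : ℝ) ≤ x ^ 3 := one_le_pow₀ hx1.le
      nlinarith
    · have hx0 : 0 < x := by
        by_contra h
        have : x = 0 := le_antisymm (not_lt.1 h) hx
        rw [this, mul_zero] at hA
        linarith
      set M := ⌊1 / x⌋₊ with hM
      have h2 : (M : ℝ) ≤ 1 / x := Nat.floor_le (by positivity)
      have h3 : 1 / x < M + 1 := Nat.lt_floor_add_one _
      have h4 : 1 ≤ M := by
        rw [hM, Nat.one_le_floor_iff, le_div_iff₀ hx0]
        linarith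
      have hM0 : (1 : ℝ) ≤ M := by exact_mod_cast h4
      have h5 : M < R / 3 + 1 := by
        have : (M : ℝ) < ((R / 3 + 1 : ℕ) : ℝ) := by
          refine lt_of_le_of_lt h2 ?_
          rw [div_lt_iff₀ hx0]
          exact hA
        exact_mod_cast this
      have h6 : (M : ℝ) * x ≤ 1 := by
        rw [le_div_iff₀ hx0] at h2
        exact h2
      refine (near_le hN h4 (by omega) hR h6 h1 hm).trans ?_
      have h7 : 1 ≤ 2 * x * M := by
        rw [div_lt_iff₀ hx0] at h3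
        nlinarith
      have h8 : 1 ≤ (2 * x * M) ^ 3 := one_le_pow₀ h7
      have h9 : 217 / 1000 * (N : ℝ) ^ 4 / (M : ℝ) ^ 3 ≤ (N : ℝ) ^ 4 * (2 * x ^ 3) := by
        rw [div_le_iff₀ (by positivity)]
        have e : (N : ℝ) ^ 4 * (2 * x ^ 3) * (M : ℝ) ^ 3 = (N : ℝ) ^ 4 * ((2 * x * M) ^ 3 / 4) := by ring
        rw [e]
        nlinarith
      refine h9.trans (mul_le_mul_of_nonneg_left ?_ (by positivity))
      linarith

lemma ow_ge {D : ℕ} (hD : 2 ≤ D) : 4 / (D : ℝ) ≤ ‖1 - SG.ow D‖ := by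
  have hD0 : (2 : ℝ) ≤ D := by exact_mod_cast hD
  have hpi := Real.pi_pos
  have h := SG.ns_pow D 1
  rw [pow_one, Complex.normSq_eq_norm_sq] at h
  have h3 : 2 * Real.pi * (1 : ℕ) / D = 2 * (Real.pi / D) := by push_cast; ring
  rw [h3, Real.cos_two_mul] at h
  have h4 := Real.sin_sq_add_cos_sq (Real.pi / D)
  have h5 : 2 / Real.pi * (Real.pi / D) ≤ Real.sin (Real.pi / D) := by
    refine Real.mul_le_sin (by positivity) ?_
    exact div_le_div_of_nonneg_left hpi.le (by norm_num) hD0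
  have h6 : 2 / Real.pi * (Real.pi / D) = 2 / D := by field_simp
  rw [h6] at h5
  have h7 : 0 < 2 / (D : ℝ) := by positivity
  have h8 := pow_le_pow_left₀ h7.le h5 2
  refine le_of_sq_le_sq ?_ (norm_nonneg _)
  have e : 4 / (D : ℝ) = 2 * (2 / D) := by ring
  rw [h, e]
  nlinarith

/-- the rigid laws -/
theorem rigid (hN : 2 ≤ N) : ∀ᵐ z ∂(SG.glaw N (N + R)), ∀ i j, i ≠ j →
    4 / ((N : ℝ) + R) ≤ ‖z i - z j‖ := by
  have hN0 : (2 : ℝ) ≤ N := by exact_mod_cast hN
  have hR0 : (0 : ℝ) ≤ R := by positivity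
  filter_upwards [SG.glaw_sep (N := N) (show 0 < N + R by omega)] with z hz i j hij
  refine le_trans ?_ (hz i j hij)
  have := ow_ge (show 2 ≤ N + R by omega)
  push_cast at this
  exact this

end

end Pool.Agent.H481.MG
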