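import Pool.Agent.H481.MG10
import Pool.Agent.H481.MG7

/-!
The law with double points: it has double points with large probability.
-/

open MvPolynomial Finset MeasureTheory
open Pool.Agent.R319.UM
open scoped Matrix ComplexOrder

namespace Pool.Agent.H481.MG

open SB

set_option linter.unusedSectionVars false

noncomputable section

variable {N D : ℕ}

lemma at_zero_le {Φ Ψ : ℝ → ℝ} (hΦ : Continuous Φ) (hΨ : Continuous Ψ)
    (h : ∀ ε, 0 < ε → ε < Real.pi → Φ ε ≤ Ψ ε) : Φ 0 ≤ Ψ 0 := by
  have hc : IsClosed {ε | Φ ε ≤ Ψ ε} := isClosed_le hΦ hΨ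
  have hs : Set.Ioo 0 Real.pi ⊆ {ε | Φ ε ≤ Ψ ε} := fun ε hε => h ε hε.1 hε.2
  have h1 := closure_minimal hs hc
  rw [closure_Ioo Real.pi_pos.ne] at h1
  exact h1 ⟨le_refl _, Real.pi_pos.le⟩

lemma mass_cont {ι : Type} [Fintype ι] (u : ι → XX (2 * D) D) (A : ℝ) : Continuous fun ε : ℝ =>
    (∑ x : Fin N → XX (2 * D) D, usd u x * (dat D A ε).Wt (A : ℂ) x).re :=
  Complex.continuous_re.comp
    (continuous_finsetSum _ fun x _ => continuous_const.mul (Wt_cont A x))

/-- **negative correlation in the limit** -/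
theorem neg_zero' (hN : 0 < N) (hD : N ≤ D) (A : ℝ) {l l' : Fin D} (hl : l ≠ l') :
    (∑ x : Fin N → XX (2 * D) D, usd (us2 (2 * D) l l') x * (dat D A 0).Wt (A : ℂ) x).re *
      (N.factorial : ℝ) ≤
    (∑ x : Fin N → XX (2 * D) D, usd (us (2 * D) l) x * (dat D A 0).Wt (A : ℂ) x).re *
    (∑ x : Fin N → XX (2 * D) D, usd (us (2 * D) l') x * (dat D A 0).Wt (A : ℂ) x).re := by
  refine at_zero_le
    (Φ := fun ε => (∑ x : Fin N → XX (2 * D) D,
      usd (us2 (2 * D) l l') x * (dat D A ε).Wt (A : ℂ) x).re * (N.factorial : ℝ))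
    (Ψ := fun ε => (∑ x : Fin N → XX (2 * D) D,
      usd (us (2 * D) l) x * (dat D A ε).Wt (A : ℂ) x).re *
      (∑ x : Fin N → XX (2 * D) D, usd (us (2 * D) l') x * (dat D A ε).Wt (A : ℂ) x).re)
    ((mass_cont _ A).mul continuous_const) ((mass_cont _ A).mul (mass_cont _ A)) ?_
  intro ε h0 h1
  have hs : Complex.sin ε ≠ 0 := by
    rw [← Complex.ofReal_sin]
    exact_mod_cast (Real.sin_pos_of_pos_of_lt_pi h0 h1).ne'
  have h := neg_cor (dat D A ε) hN hD (by omega) (dat_grid D A ε) (dat_match (by omega) A hs)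
    (L := N + 3) (by omega) (by omega) (a := A / (2 * Real.sin ε)) (by
      simp only [dat]
      push_cast
      rfl) hl
  simp only [W_eq (dat D A ε) (show 2 < N + 3 by omega) (fun l => dat_delta h0 h1 l),
    dat_amp h0 h1] at h
  exact h

open Classical in
/-- the indicator function of the configurations which use all the positions `u` -/
def usR {X ι : Type} (u : ι → X) (x : Fin N → X) : ℝ := if ∀ t, ∃ k, x k = u t then 1 else 0

lemma usd_eq {X ι : Type} [Fintype ι] (u : ι → X) (x : Fin N → X) : usd u x = ((usR u x : ℝ) : ℂ) := by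
  unfold usd usR
  split_ifs <;> simp

lemma usR_nonneg {X ι : Type} (u : ι → X) (x : Fin N → X) : 0 ≤ usR u x := by
  unfold usR
  split_ifs <;> norm_num

lemma usR_sq {X ι : Type} (u : ι → X) (x : Fin N → X) : usR u x * usR u x = usR u x := by
  unfold usR
  split_ifs <;> norm_num

/-- the probability that the positions `u` are used -/
def pu {ι : Type} (N : ℕ) (u : ι → XX (2 * D) D) : ℝ :=
  ∑ x : Fin N → XX (2 * D) D, wr N D x * usR u x

lemma pu_nonneg {ι : Type} (hD : 0 < D) (u : ι → XX (2 * D) D) : 0 ≤ pu N u :=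
  Finset.sum_nonneg fun x _ => mul_nonneg (wr_nonneg hD x) (usR_nonneg u x)

lemma pu_mass {ι : Type} [Fintype ι] (hD : 0 < D) (u : ι → XX (2 * D) D) :
    (∑ x : Fin N → XX (2 * D) D, usd u x * (dat D (amp D) 0).Wt ((amp D : ℝ) : ℂ) x).re =
      N.factorial * pu N u := by
  have hNf : (N.factorial : ℂ) ≠ 0 := by exact_mod_cast N.factorial_ne_zero
  have h : ∑ x : Fin N → XX (2 * D) D, usd u x * (dat D (amp D) 0).Wt ((amp D : ℝ) : ℂ) x =
      ((N.factorial * pu N u : ℝ) : ℂ) := by
    unfold pu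
    push_cast
    rw [Finset.mul_sum]
    refine Finset.sum_congr rfl fun x _ => ?_
    rw [wr_eq hD, usd_eq]
    field_simp
  rw [h, Complex.ofReal_re]

lemma pu_two (hN : 0 < N) (hD : N ≤ D) {l l' : Fin D} (hl : l ≠ l') :
    pu N (us2 (2 * D) l l') ≤ pu N (us (2 * D) l) * pu N (us (2 * D) l') := by
  have h := neg_zero' (N := N) hN hD (amp D) hl
  rw [pu_mass (by omega), pu_mass (by omega), pu_mass (by omega)] at h
  have hNf : (0 : ℝ) < N.factorial := by exact_mod_cast N.factorial_pos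
  have h2 : ((N.factorial : ℝ) * N.factorial) * pu N (us2 (2 * D) l l') ≤
      ((N.factorial : ℝ) * N.factorial) *
        (pu N (us (2 * D) l) * pu N (us (2 * D) l')) := by linarith
  exact le_of_mul_le_mul_left h2 (by positivity)

lemma usR_mul (l l' : Fin D) (x : Fin N → XX (2 * D) D) :
    usR (us (2 * D) l) x * usR (us (2 * D) l') x = usR (us2 (2 * D) l l') x := by
  classical
  unfold usR
  by_cases h : ∀ t, ∃ k, x k = us (2 * D) l t
  · by_cases h' : ∀ t, ∃ k, x k = us (2 * D) l' t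
    · rw [if_pos h, if_pos h', if_pos, mul_one]
      intro t
      rcases t with t | t
      · exact h t
      · exact h' t
    · have h3 : ¬ ∀ t, ∃ k, x k = us2 (2 * D) l l' t := fun h2 => h' fun t => h2 (Sum.inr t)
      rw [if_neg h', if_neg h3, mul_zero]
  · have h3 : ¬ ∀ t, ∃ k, x k = us2 (2 * D) l l' t := fun h2 => h fun t => h2 (Sum.inl t)
    rw [if_neg h, if_neg h3, zero_mul]

/-- the number of the used sources -/
def YS (x : Fin N → XX (2 * D) D) : ℝ := ∑ l : Fin D, usR (us (2 * D) l) x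

lemma YS_nonneg (x : Fin N → XX (2 * D) D) : 0 ≤ YS x :=
  Finset.sum_nonneg fun _ _ => usR_nonneg _ x

lemma usR_good {x : Fin N → XX (2 * D) D} (hx : Good x) (l : Fin D) :
    (cnt univ x l : ℝ) = 2 * usR (us (2 * D) l) x := by
  classical
  rw [cnt_good hx]
  unfold usR
  by_cases h : ∃ k, x k = Sum.inr (l, true)
  · have h' := (hx.2 l).1 h
    rw [if_pos h, if_pos]
    · norm_num
    · intro t
      fin_cases t
      · exact h
      · exact h'
  · rw [if_neg h, if_neg]
    · norm_num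
    · intro h2
      exact h (h2 0)

lemma YS_mean (hN : 0 < N) (hD : N ≤ D) :
    ∑ x : Fin N → XX (2 * D) D, wr N D x * YS x =
      (N : ℝ) ^ 2 * ((N : ℝ) ^ 2 - 1) / (12 * (D : ℝ) ^ 3) := by
  have h := law_count (N := N) hN hD
  rw [law_int (show 0 < D by omega)] at h
  have e : ∀ x : Fin N → XX (2 * D) D, wr N D x • (nonsimple (fun k => ps0 D (x k)) : ℝ) =
      2 * (wr N D x * YS x) := by
    intro x
    by_cases hw : wr N D x = 0
    · rw [hw]
      simp
    · have hg := wr_good hw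
      rw [nonsimple_eq (by omega) hg]
      push_cast
      simp only [usR_good hg]
      unfold YS
      rw [← Finset.mul_sum, smul_eq_mul]
      ring
  simp only [e] at h
  rw [← Finset.mul_sum] at h
  have hD0 : (D : ℝ) ≠ 0 := by exact_mod_cast (show D ≠ 0 by omega)
  have e2 : (N : ℝ) ^ 2 * ((N : ℝ) ^ 2 - 1) / (6 * (D : ℝ) ^ 3) =
      2 * ((N : ℝ) ^ 2 * ((N : ℝ) ^ 2 - 1) / (12 * (D : ℝ) ^ 3)) := by
    field_simp
    ring
  rw [e2] at h
  linarith

lemma YS_pu : ∑ x : Fin N → XX (2 * D) D, wr N D x * YS x =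
    ∑ l : Fin D, pu N (us (2 * D) l) := by
  unfold YS pu
  simp only [Finset.mul_sum]
  rw [Finset.sum_comm]

/-- the second moment -/
lemma YS_sq (hN : 0 < N) (hD : N ≤ D) :
    ∑ x : Fin N → XX (2 * D) D, wr N D x * YS x ^ 2 ≤
      ∑ x : Fin N → XX (2 * D) D, wr N D x * YS x +
        (∑ x : Fin N → XX (2 * D) D, wr N D x * YS x) ^ 2 := by
  classical
  have e1 : ∑ x : Fin N → XX (2 * D) D, wr N D x * YS x ^ 2 =
      ∑ l : Fin D, ∑ l' : Fin D, ∑ x : Fin N → XX (2 * D) D,
        wr N D x * (usR (us (2 * D) l) x * usR (us (2 * D) l') x) := by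
    have e : ∀ x : Fin N → XX (2 * D) D, wr N D x * YS x ^ 2 =
        ∑ l : Fin D, ∑ l' : Fin D, wr N D x * (usR (us (2 * D) l) x * usR (us (2 * D) l') x) := by
      intro x
      unfold YS
      rw [pow_two, Finset.sum_mul_sum, Finset.mul_sum]
      exact Finset.sum_congr rfl fun l _ => by rw [Finset.mul_sum]
    simp only [e]
    rw [Finset.sum_comm]
    refine Finset.sum_congr rfl fun l _ => ?_
    rw [Finset.sum_comm]
  rw [e1, YS_pu, pow_two, Finset.sum_mul_sum, ← Finset.sum_add_distrib]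
  refine Finset.sum_le_sum fun l _ => ?_
  have e2 : pu N (us (2 * D) l) + ∑ l' : Fin D, pu N (us (2 * D) l) * pu N (us (2 * D) l') =
      ∑ l' : Fin D, ((if l' = l then pu N (us (2 * D) l) else 0) +
        pu N (us (2 * D) l) * pu N (us (2 * D) l')) := by
    rw [Finset.sum_add_distrib, Finset.sum_ite_eq' univ l, if_pos (Finset.mem_univ _)]
  rw [e2]
  refine Finset.sum_le_sum fun l' _ => ?_
  have hnn := mul_nonneg (pu_nonneg (N := N) (show 0 < D by omega) (us (2 * D) l))
    (pu_nonneg (N := N) (show 0 < D by omega) (us (2 * D) l'))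
  by_cases h : l' = l
  · rw [if_pos h]
    subst h
    simp only [usR_sq]
    have : ∑ x : Fin N → XX (2 * D) D, wr N D x * usR (us (2 * D) l') x =
        pu N (us (2 * D) l') := rfl
    rw [this]
    linarith
  · rw [if_neg h, zero_add]
    simp only [usR_mul]
    exact pu_two hN hD (Ne.symm h)

lemma double_set : {z : Fin N → ℂ | ∃ i j, i ≠ j ∧ z i = z j} =
    {z : Fin N → ℂ | ∃ i j, i ≠ j ∧ ‖z i - z j‖ ≤ 0} := by
  ext z
  simp only [Set.mem_ofPred_eq, norm_le_zero_iff, sub_eq_zero]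

lemma double_meas : MeasurableSet {z : Fin N → ℂ | ∃ i j, i ≠ j ∧ z i = z j} := by
  rw [double_set]
  exact near_meas 0

/-- **the law has double points with large probability** -/
theorem double_prob (hN : 0 < N) (hD : N ≤ D) {m : ℝ}
    (hm : m = (N : ℝ) ^ 2 * ((N : ℝ) ^ 2 - 1) / (12 * (D : ℝ) ^ 3)) :
    m / (1 + m) ≤ (law N D).real {z | ∃ i j, i ≠ j ∧ z i = z j} := by
  classical
  have hprob := law_prob hN hD
  have hN1 : (1 : ℝ) ≤ N := by exact_mod_cast hN
  have hm0 : 0 ≤ m := by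
    rw [hm]
    have : 0 ≤ (N : ℝ) ^ 2 - 1 := by nlinarith
    positivity
  set S : Set (Fin N → ℂ) := {z | ∃ i j, i ≠ j ∧ z i = z j} with hS
  have hSm : MeasurableSet S := double_meas
  have e1 : (law N D).real S = ∑ x : Fin N → XX (2 * D) D,
      wr N D x * S.indicator (fun _ => (1 : ℝ)) (fun k => ps0 D (x k)) := by
    have h := law_int (N := N) (show 0 < D by omega) (S.indicator fun _ => (1 : ℝ))
    rw [integral_indicator_const _ hSm, smul_eq_mul, mul_one] at h
    rw [h]
    rfl
  rw [e1]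
  have h1 := YS_mean (N := N) hN hD
  have h2 := YS_sq (N := N) hN hD
  rw [h1, ← hm] at h2
  set c : ℝ := 1 / (1 + m) with hc
  have hpt : ∀ x : Fin N → XX (2 * D) D, wr N D x * (2 * c * YS x - c ^ 2 * YS x ^ 2) ≤
      wr N D x * S.indicator (fun _ => (1 : ℝ)) (fun k => ps0 D (x k)) := by
    intro x
    by_cases hw : wr N D x = 0
    · rw [hw]
      simp
    · have hg := wr_good hw
      refine mul_le_mul_of_nonneg_left ?_ (wr_nonneg (by omega) x)
      by_cases hY : YS x = 0
      · rw [hY]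
        have : (0 : ℝ) ≤ S.indicator (fun _ => (1 : ℝ)) (fun k => ps0 D (x k)) :=
          Set.indicator_nonneg (fun _ _ => zero_le_one) _
        linarith
      · have hex : ∃ l : Fin D, usR (us (2 * D) l) x ≠ 0 := by
          by_contra hne
          push Not at hne
          exact hY (Finset.sum_eq_zero fun l _ => hne l)
        obtain ⟨l, hl⟩ := hex
        have hused : ∀ t, ∃ k, x k = us (2 * D) l t := by
          by_contra hne
          apply hl
          unfold usR
          rw [if_neg hne]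
        obtain ⟨i, hi⟩ := hused 0
        obtain ⟨j, hj⟩ := hused 1
        have hmem : (fun k => ps0 D (x k)) ∈ S := by
          refine ⟨i, j, ?_, ?_⟩
          · rintro rfl
            rw [hi] at hj
            simp [us] at hj
          · simp only [hi, hj]
            rfl
        rw [Set.indicator_of_mem hmem]
        nlinarith [sq_nonneg (1 - c * YS x)]
  refine le_trans ?_ (Finset.sum_le_sum fun x _ => hpt x)
  have e2 : ∑ x : Fin N → XX (2 * D) D, wr N D x * (2 * c * YS x - c ^ 2 * YS x ^ 2) =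
      2 * c * (∑ x : Fin N → XX (2 * D) D, wr N D x * YS x) -
      c ^ 2 * ∑ x : Fin N → XX (2 * D) D, wr N D x * YS x ^ 2 := by
    rw [Finset.mul_sum, Finset.mul_sum, ← Finset.sum_sub_distrib]
    refine Finset.sum_congr rfl fun x _ => ?_
    ring
  rw [e2, h1, ← hm]
  have h3 := mul_le_mul_of_nonneg_left h2 (sq_nonneg c)
  have e3 : m / (1 + m) = 2 * c * m - c ^ 2 * (m + m ^ 2) := by
    rw [hc]
    field_simp
    ring
  rw [e3]
  linarith

end

end Pool.Agent.H481.MG
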