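import Pool.Agent.H481.MG1

/-!
Fischer's inequality for the probabilities of prescribed points.
-/

open Finset
open Pool.Agent.R319.UM
open scoped Matrix ComplexOrder

namespace Pool.Agent.H481.MG

open AC

noncomputable section

variable {N K : ℕ} {ι κ : Type} [Fintype ι] [DecidableEq ι] [Fintype κ] [DecidableEq κ]

omit [DecidableEq ι] in
lemma pin_nonneg (u : ι → Fin K) : 0 ≤ pin N u := by
  classical
  unfold pin
  refine Finset.sum_nonneg fun k _ => mul_nonneg (SG.gw_nonneg K k) ?_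
  split_ifs <;> norm_num

omit [DecidableEq ι] [DecidableEq κ] in
lemma pin_mono (u : ι → Fin K) (u' : κ → Fin K) : pin N (Sum.elim u u') ≤ pin N u := by
  classical
  unfold pin
  refine Finset.sum_le_sum fun k _ => mul_le_mul_of_nonneg_left ?_ (SG.gw_nonneg K k)
  by_cases h : ∀ t, ∃ i, k i = Sum.elim u u' t
  · rw [if_pos h, if_pos]
    intro t
    exact h (Sum.inl t)
  · rw [if_neg h]
    split_ifs <;> norm_num

lemma psd_re {A : Matrix ι ι ℂ} (hA : A.PosSemidef) : A.det = (A.det.re : ℂ) ∧ 0 ≤ A.det.re := by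
  have h := hA.det_nonneg
  rw [Complex.le_def] at h
  refine ⟨?_, h.1⟩
  apply Complex.ext
  · simp
  · simp [← h.2]

/-- **Fischer's inequality** -/
theorem fischer (mono : ∀ S P : Matrix κ κ ℂ, S.PosSemidef → P.PosSemidef →
    S.det.re ≤ (S + P).det.re) (A : Matrix ι ι ℂ) (B : Matrix ι κ ℂ) (D : Matrix κ κ ℂ)
    (hG : (Matrix.fromBlocks A B Bᴴ D).PosSemidef) (hA : A.PosDef) :
    (Matrix.fromBlocks A B Bᴴ D).det.re ≤ A.det.re * D.det.re := by
  have hinv : Invertible A := hA.isUnit.invertible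
  have hS := (Matrix.PosDef.fromBlocks₁₁ B D hA).1 hG
  have hP : (Bᴴ * A⁻¹ * B).PosSemidef := hA.inv.posSemidef.conjTranspose_mul_mul_same B
  have h1 := mono _ _ hS hP
  rw [sub_add_cancel] at h1
  rw [Matrix.det_fromBlocks₁₁, Matrix.invOf_eq_nonsing_inv]
  obtain ⟨a1, a2⟩ := psd_re hA.posSemidef
  obtain ⟨b1, b2⟩ := psd_re hS
  rw [a1, b1, ← Complex.ofReal_mul, Complex.ofReal_re, Complex.ofReal_re]
  exact mul_le_mul_of_nonneg_left h1 a2

lemma mono_one (S P : Matrix (Fin 1) (Fin 1) ℂ) (hS : S.PosSemidef) (hP : P.PosSemidef) :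
    S.det.re ≤ (S + P).det.re := by
  rw [Matrix.det_fin_one, Matrix.det_fin_one, Matrix.add_apply, Complex.add_re]
  have h := hP.diag_nonneg (i := 0)
  rw [Complex.le_def] at h
  have := h.1
  simp only [Complex.zero_re] at this
  linarith

lemma mono_two (S P : Matrix (Fin 2) (Fin 2) ℂ) (hS : S.PosSemidef) (hP : P.PosSemidef) :
    S.det.re ≤ (S + P).det.re := by
  have gen : ∀ M : Matrix (Fin 2) (Fin 2) ℂ, M.PosSemidef → (M 0 0).im = 0 ∧ (M 1 1).im = 0 ∧
      0 ≤ (M 0 0).re ∧ 0 ≤ (M 1 1).re ∧ (M 1 0).re = (M 0 1).re ∧ (M 1 0).im = -(M 0 1).im ∧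
      (M 0 1).re ^ 2 + (M 0 1).im ^ 2 ≤ (M 0 0).re * (M 1 1).re := by
    intro M hM
    have d0 := hM.diag_nonneg (i := 0)
    have d1 := hM.diag_nonneg (i := 1)
    rw [Complex.le_def] at d0 d1
    have hh : M 1 0 = star (M 0 1) := (hM.1.apply 1 0).symm
    have hd := (psd_re hM).2
    rw [Matrix.det_fin_two] at hd
    have r0 : (M 0 0).im = 0 := d0.2.symm
    have r1 : (M 1 1).im = 0 := d1.2.symm
    have h1 : (M 1 0).re = (M 0 1).re := by rw [hh]; simp
    have h2 : (M 1 0).im = -(M 0 1).im := by rw [hh]; simp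
    refine ⟨r0, r1, d0.1, d1.1, h1, h2, ?_⟩
    simp only [Complex.sub_re, Complex.mul_re, r0, r1, h1, h2] at hd
    nlinarith
  obtain ⟨s1, s2, s3, s4, s5, s6, s7⟩ := gen S hS
  obtain ⟨p1, p2, p3, p4, p5, p6, p7⟩ := gen P hP
  rw [Matrix.det_fin_two, Matrix.det_fin_two]
  simp only [Complex.sub_re, Complex.mul_re, Matrix.add_apply, Complex.add_re, Complex.add_im,
    s1, s2, s5, s6, p1, p2, p5, p6]
  set a := (S 0 0).re
  set b := (S 1 1).re
  set c := (S 0 1).re
  set d := (S 0 1).im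
  set a' := (P 0 0).re
  set b' := (P 1 1).re
  set c' := (P 0 1).re
  set d' := (P 0 1).im
  -- `2 (c c' + d d') ≤ a b' + a' b`
  have h1 : (c * c' + d * d') ^ 2 ≤ (c ^ 2 + d ^ 2) * (c' ^ 2 + d' ^ 2) := by
    nlinarith [sq_nonneg (c * d' - d * c')]
  have h2 : (c ^ 2 + d ^ 2) * (c' ^ 2 + d' ^ 2) ≤ (a * b) * (a' * b') :=
    mul_le_mul s7 p7 (by positivity) (by positivity)
  have h3 : (2 * (c * c' + d * d')) ^ 2 ≤ (a * b' + a' * b) ^ 2 := by
    nlinarith [sq_nonneg (a * b' - a' * b)]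
  have h4 : 0 ≤ a * b' + a' * b := by positivity
  have h5 : 2 * (c * c' + d * d') ≤ a * b' + a' * b := abs_le_of_sq_le_sq' h3 h4 |>.2
  nlinarith

/-- **negative correlation** -/
theorem pin_mul (mono : ∀ S P : Matrix κ κ ℂ, S.PosSemidef → P.PosSemidef →
    S.det.re ≤ (S + P).det.re) (hK : N ≤ K) (hK0 : 0 < K) {u : ι → Fin K} {u' : κ → Fin K}
    (hu : Function.Injective (Sum.elim u u')) :
    pin N (Sum.elim u u') ≤ pin N u * pin N u' := by
  have hu1 : Function.Injective u := fun a b h => Sum.inl_injective (hu h)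
  have hu2 : Function.Injective u' := fun a b h => Sum.inr_injective (hu h)
  have hKr : (0 : ℝ) < K := by exact_mod_cast hK0
  have e1 := pin_eq hK hK0 hu
  have e2 := pin_eq hK hK0 hu1
  have e3 := pin_eq hK hK0 hu2
  set A := (VV N u)ᴴ * VV N u with hA
  set B := (VV N u)ᴴ * VV N u' with hB
  set D := (VV N u')ᴴ * VV N u' with hD
  have eG : (VV N (Sum.elim u u'))ᴴ * VV N (Sum.elim u u') = Matrix.fromBlocks A B Bᴴ D := by
    ext i j
    rcases i with i | i <;> rcases j with j | j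
    · rfl
    · rfl
    · rw [Matrix.fromBlocks_apply₂₁, hB, Matrix.conjTranspose_mul, Matrix.conjTranspose_conjTranspose]
      rfl
    · rfl
  have hG : (Matrix.fromBlocks A B Bᴴ D).PosSemidef := by
    rw [← eG]
    exact Matrix.posSemidef_conjTranspose_mul_self _
  have pA : A.PosSemidef := Matrix.posSemidef_conjTranspose_mul_self _
  have pD : D.PosSemidef := Matrix.posSemidef_conjTranspose_mul_self _
  rw [eG] at e1
  obtain ⟨g1, g2⟩ := psd_re hG
  obtain ⟨a1, a2⟩ := psd_re pA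
  obtain ⟨d1, d2⟩ := psd_re pD
  have f1 : pin N (Sum.elim u u') =
      (Matrix.fromBlocks A B Bᴴ D).det.re / (K : ℝ) ^ Fintype.card (ι ⊕ κ) := by
    rw [g1] at e1
    exact_mod_cast e1
  have f2 : pin N u = A.det.re / (K : ℝ) ^ Fintype.card ι := by
    rw [a1] at e2
    exact_mod_cast e2
  have f3 : pin N u' = D.det.re / (K : ℝ) ^ Fintype.card κ := by
    rw [d1] at e3
    exact_mod_cast e3
  by_cases h0 : A.det = 0
  · have : pin N u = 0 := by
      rw [f2, h0]
      simp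
    rw [this, zero_mul, ← this]
    exact pin_mono u u'
  · have hpd : A.PosDef := (pA.posDef_iff_det_ne_zero).2 h0
    have h := fischer mono A B D hG hpd
    rw [f1, f2, f3, Fintype.card_sum, pow_add, div_mul_div_comm]
    gcongr

/-- the pair function -/
def rho (N : ℕ) (w : ℂ) : ℝ := (N : ℝ) ^ 2 - ‖Dn N w‖ ^ 2

omit [Fintype ι] [DecidableEq ι] in
lemma gram_entry (u : ι → Fin K) (s t : ι) : ((VV N u)ᴴ * VV N u) s t =
    Dn N (rt K (u t) * (starRingEnd ℂ) (rt K (u s))) := by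
  rw [Matrix.mul_apply]
  unfold Dn
  rw [← Fin.sum_univ_eq_sum_range (fun j => (rt K (u t) * (starRingEnd ℂ) (rt K (u s))) ^ j) N]
  refine Finset.sum_congr rfl fun a _ => ?_
  rw [Matrix.conjTranspose_apply]
  have e1 : VV N u a s = rt K (u s) ^ (a : ℕ) := rfl
  have e2 : VV N u a t = rt K (u t) ^ (a : ℕ) := rfl
  rw [e1, e2, mul_pow, ← map_pow]
  exact mul_comm _ _

lemma Dn_one (N : ℕ) : Dn N 1 = N := by
  unfold Dn
  simp

lemma Dn_conj (N : ℕ) (w : ℂ) : (starRingEnd ℂ) (Dn N w) = Dn N ((starRingEnd ℂ) w) := by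
  unfold Dn
  rw [map_sum]
  simp only [map_pow]

/-- the pair probability -/
theorem pin_two (hK : N ≤ K) (hK0 : 0 < K) {x y : Fin K} (hxy : x ≠ y) :
    pin N ![x, y] = rho N (rt K x * (starRingEnd ℂ) (rt K y)) / (K : ℝ) ^ 2 := by
  have hu : Function.Injective ![x, y] := by
    intro a b h
    fin_cases a <;> fin_cases b <;> simp at h ⊢
    · exact hxy h
    · exact hxy h.symm
  have h := pin_eq hK hK0 hu
  rw [Matrix.det_fin_two] at h
  simp only [gram_entry] at h
  have hx : rt K x * (starRingEnd ℂ) (rt K x) = 1 := mul_conj_unit (rt_norm K x)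
  have hy : rt K y * (starRingEnd ℂ) (rt K y) = 1 := mul_conj_unit (rt_norm K y)
  have e0 : ![x, y] 0 = x := rfl
  have e1 : ![x, y] 1 = y := rfl
  rw [e0, e1, hx, hy, Dn_one] at h
  have e2 : Dn N (rt K y * (starRingEnd ℂ) (rt K x)) =
      (starRingEnd ℂ) (Dn N (rt K x * (starRingEnd ℂ) (rt K y))) := by
    rw [Dn_conj, map_mul, Complex.conj_conj]
    congr 1
    ring
  rw [e2, mul_comm ((starRingEnd ℂ) _) _, Complex.mul_conj, Complex.normSq_eq_norm_sq,
    Fintype.card_fin] at h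
  unfold rho
  have h2 : ((pin N ![x, y] : ℝ) : ℂ) =
      ((((N : ℝ) ^ 2 - ‖Dn N (rt K x * (starRingEnd ℂ) (rt K y))‖ ^ 2) / (K : ℝ) ^ 2 : ℝ) : ℂ) := by
    rw [h]
    push_cast
    ring
  exact_mod_cast h2

/-- the density -/
theorem pin_single (hK : N ≤ K) (hK0 : 0 < K) (x : Fin K) : pin N ![x] = N / (K : ℝ) := by
  have hu : Function.Injective ![x] := fun a b _ => Subsingleton.elim a b
  have h := pin_eq hK hK0 hu
  rw [Matrix.det_fin_one] at h
  simp only [gram_entry] at h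
  have hx : rt K x * (starRingEnd ℂ) (rt K x) = 1 := mul_conj_unit (rt_norm K x)
  have e0 : ![x] 0 = x := rfl
  rw [e0, hx, Dn_one, Fintype.card_fin, pow_one] at h
  have h2 : ((pin N ![x] : ℝ) : ℂ) = (((N : ℝ) / K : ℝ) : ℂ) := by
    rw [h]
    push_cast
    rfl
  exact_mod_cast h2

end

end Pool.Agent.H481.MG
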