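import Pool.Agent.H481.MG2

/-!
The first and the second moment of the number of close pairs on the grid.
-/

open Finset
open Pool.Agent.R319.UM

namespace Pool.Agent.H481.MG

open AC

noncomputable section

variable {N K : ℕ}

/-- the statistic of the pairs -/
def YY (f : ℂ → ℝ) (z : Fin N → ℂ) : ℝ :=
  ∑ i, ∑ j, if i = j then 0 else f (z i * (starRingEnd ℂ) (z j))

open Classical in
/-- the indicator function of the configuration -/
def ind (k : Fin N → Fin K) (x : Fin K) : ℝ := if ∃ i, k i = x then 1 else 0

lemma ind_nonneg (k : Fin N → Fin K) (x : Fin K) : 0 ≤ ind k x := by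
  unfold ind
  split_ifs <;> norm_num

lemma ind_le (k : Fin N → Fin K) (x : Fin K) : ind k x ≤ 1 := by
  unfold ind
  split_ifs <;> norm_num

lemma ind_sq (k : Fin N → Fin K) (x : Fin K) : ind k x * ind k x = ind k x := by
  unfold ind
  split_ifs <;> norm_num

lemma sum_ind {k : Fin N → Fin K} (hk : Function.Injective k) (h : Fin K → ℝ) :
    ∑ i, h (k i) = ∑ x, ind k x * h x := by
  classical
  have e : ∀ x, ind k x * h x = if x ∈ univ.image k then h x else 0 := by
    intro x
    unfold ind
    by_cases hx : ∃ i, k i = x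
    · obtain ⟨i, hi⟩ := hx
      rw [if_pos ⟨i, hi⟩, if_pos (Finset.mem_image.2 ⟨i, Finset.mem_univ _, hi⟩), one_mul]
    · rw [if_neg hx, if_neg, zero_mul]
      intro h2
      obtain ⟨i, _, hi⟩ := Finset.mem_image.1 h2
      exact hx ⟨i, hi⟩
  simp only [e]
  rw [Finset.sum_ite_mem, Finset.univ_inter, Finset.sum_image fun a _ b _ hab => hk hab]

/-- the function of two grid points -/
def gg (f : ℂ → ℝ) (x y : Fin K) : ℝ :=
  if x = y then 0 else f (rt K x * (starRingEnd ℂ) (rt K y))

lemma YY_ind (f : ℂ → ℝ) {k : Fin N → Fin K} (hk : Function.Injective k) :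
    YY f (gz K k) = ∑ x, ∑ y, ind k x * ind k y * gg f x y := by
  have e : ∀ i j : Fin N, (if i = j then 0 else f (gz K k i * (starRingEnd ℂ) (gz K k j))) =
      gg f (k i) (k j) := by
    intro i j
    unfold gg
    by_cases hij : i = j
    · rw [if_pos hij, if_pos (by rw [hij])]
    · rw [if_neg hij, if_neg fun h => hij (hk h)]
      rfl
  unfold YY
  simp only [e]
  have e2 : ∀ i, ∑ j, gg f (k i) (k j) = ∑ y, ind k y * gg f (k i) y := fun i =>
    sum_ind hk fun y => gg f (k i) y
  simp only [e2]
  rw [sum_ind hk fun x => ∑ y, ind k y * gg f x y]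
  refine Finset.sum_congr rfl fun x _ => ?_
  rw [Finset.mul_sum]
  exact Finset.sum_congr rfl fun y _ => by ring

/-- the pair probabilities -/
def p2 (N : ℕ) (x y : Fin K) : ℝ := ∑ k : Fin N → Fin K, SG.gw N K k * (ind k x * ind k y)

/-- the quadruple probabilities -/
def p4 (N : ℕ) (x y x' y' : Fin K) : ℝ :=
  ∑ k : Fin N → Fin K, SG.gw N K k * (ind k x * ind k y * (ind k x' * ind k y'))

/-- the mean over the grid -/
def EG (N K : ℕ) (f : (Fin N → ℂ) → ℝ) : ℝ := ∑ k : Fin N → Fin K, SG.gw N K k * f (gz K k)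

lemma first_moment (f : ℂ → ℝ) : EG N K (YY f) = ∑ x : Fin K, ∑ y, p2 N x y * gg f x y := by
  have e : ∀ k : Fin N → Fin K, SG.gw N K k * YY f (gz K k) =
      ∑ x, ∑ y, SG.gw N K k * (ind k x * ind k y) * gg f x y := by
    intro k
    by_cases hk : SG.gw N K k = 0
    · rw [hk]
      simp
    · rw [YY_ind f (inj_of_gw' hk), Finset.mul_sum]
      refine Finset.sum_congr rfl fun x _ => ?_
      rw [Finset.mul_sum]
      exact Finset.sum_congr rfl fun y _ => by ring
  unfold EG p2
  simp only [e, Finset.sum_mul]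
  rw [Finset.sum_comm]
  refine Finset.sum_congr rfl fun x _ => ?_
  rw [Finset.sum_comm]

lemma second_moment (f : ℂ → ℝ) : EG N K (fun z => YY f z ^ 2) =
    ∑ x : Fin K, ∑ y, ∑ x' : Fin K, ∑ y', p4 N x y x' y' * (gg f x y * gg f x' y') := by
  have e : ∀ k : Fin N → Fin K, SG.gw N K k * YY f (gz K k) ^ 2 =
      ∑ x, ∑ y, ∑ x', ∑ y', SG.gw N K k * (ind k x * ind k y * (ind k x' * ind k y')) *
        (gg f x y * gg f x' y') := by
    intro k
    by_cases hk : SG.gw N K k = 0
    · rw [hk]
      simp
    · rw [YY_ind f (inj_of_gw' hk), sq, Finset.sum_mul, Finset.mul_sum]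
      refine Finset.sum_congr rfl fun x _ => ?_
      rw [Finset.sum_mul, Finset.mul_sum]
      refine Finset.sum_congr rfl fun y _ => ?_
      rw [Finset.mul_sum, Finset.mul_sum]
      refine Finset.sum_congr rfl fun x' _ => ?_
      rw [Finset.mul_sum, Finset.mul_sum]
      exact Finset.sum_congr rfl fun y' _ => by ring
  unfold EG p4
  simp only [e, Finset.sum_mul]
  rw [Finset.sum_comm]
  refine Finset.sum_congr rfl fun x _ => ?_
  rw [Finset.sum_comm]
  refine Finset.sum_congr rfl fun y _ => ?_
  rw [Finset.sum_comm]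
  refine Finset.sum_congr rfl fun x' _ => ?_
  rw [Finset.sum_comm]

lemma p2_nonneg (x y : Fin K) : 0 ≤ p2 N x y :=
  Finset.sum_nonneg fun k _ => mul_nonneg (SG.gw_nonneg K k)
    (mul_nonneg (ind_nonneg k x) (ind_nonneg k y))

lemma pin_prod {ι : Type} [Fintype ι] (u : ι → Fin K) :
    pin N u = ∑ k : Fin N → Fin K, SG.gw N K k * ∏ t, ind k (u t) := by
  classical
  unfold pin
  refine Finset.sum_congr rfl fun k _ => ?_
  congr 1
  by_cases h : ∀ t, ∃ i, k i = u t
  · rw [if_pos h]
    symm
    refine Finset.prod_eq_one fun t _ => ?_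
    unfold ind
    rw [if_pos (h t)]
  · rw [if_neg h]
    push Not at h
    obtain ⟨t, ht⟩ := h
    symm
    refine Finset.prod_eq_zero (Finset.mem_univ t) ?_
    unfold ind
    rw [if_neg]
    rintro ⟨i, hi⟩
    exact ht i hi

lemma pin_two' (x y : Fin K) : pin N ![x, y] = p2 N x y := by
  rw [pin_prod]
  unfold p2
  refine Finset.sum_congr rfl fun k _ => ?_
  rw [Fin.prod_univ_two]
  rfl

lemma p2_eq (hK : N ≤ K) (hK0 : 0 < K) {x y : Fin K} (hxy : x ≠ y) :
    p2 N x y = rho N (rt K x * (starRingEnd ℂ) (rt K y)) / (K : ℝ) ^ 2 := by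
  rw [← pin_two hK hK0 hxy, pin_two']

/-- four different points -/
lemma p4_four (hK : N ≤ K) (hK0 : 0 < K) {x y x' y' : Fin K} (hxy : x ≠ y) (hxy' : x' ≠ y')
    (h1 : x' ≠ x) (h2 : x' ≠ y) (h3 : y' ≠ x) (h4 : y' ≠ y) :
    p4 N x y x' y' ≤ p2 N x y * p2 N x' y' := by
  classical
  have hinj : Function.Injective (Sum.elim ![x, y] ![x', y']) := by
    intro a b h
    rcases a with a | a <;> rcases b with b | b <;> fin_cases a <;> fin_cases b <;>
      simp at h ⊢ <;> first
        | exact hxy h
        | exact hxy h.symm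
        | exact hxy' h
        | exact hxy' h.symm
        | exact h1 h
        | exact h1 h.symm
        | exact h2 h
        | exact h2 h.symm
        | exact h3 h
        | exact h3 h.symm
        | exact h4 h
        | exact h4 h.symm
  have h := pin_mul (N := N) mono_two hK hK0 hinj
  rw [pin_two', pin_two'] at h
  refine le_trans (le_of_eq ?_) h
  rw [pin_prod]
  unfold p4
  refine Finset.sum_congr rfl fun k _ => ?_
  rw [Fintype.prod_sum_type, Fin.prod_univ_two, Fin.prod_univ_two]
  rfl

/-- three different points -/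
lemma p3_three (hK : N ≤ K) (hK0 : 0 < K) {x y w : Fin K} (hxy : x ≠ y)
    (h1 : w ≠ x) (h2 : w ≠ y) :
    ∑ k : Fin N → Fin K, SG.gw N K k * (ind k x * ind k y * ind k w) ≤
      p2 N x y * (N / K) := by
  classical
  have hinj : Function.Injective (Sum.elim ![x, y] ![w]) := by
    intro a b h
    rcases a with a | a <;> rcases b with b | b <;> fin_cases a <;> fin_cases b <;>
      simp at h ⊢ <;> first
        | exact hxy h
        | exact hxy h.symm
        | exact h1 h
        | exact h1 h.symm
        | exact h2 h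
        | exact h2 h.symm
  have h := pin_mul (N := N) mono_one hK hK0 hinj
  rw [pin_two', pin_single hK hK0] at h
  refine le_trans (le_of_eq ?_) h
  rw [pin_prod]
  refine Finset.sum_congr rfl fun k _ => ?_
  rw [Fintype.prod_sum_type, Fin.prod_univ_two, Fin.prod_univ_one]
  rfl

open Classical in
/-- the weight of the coincidences -/
def co (N : ℕ) (x y x' y' : Fin K) : ℝ :=
  ((N : ℝ) / K) * ((if x' = x then 1 else 0) + (if x' = y then 1 else 0) +
    ((if y' = x then 1 else 0) + (if y' = y then 1 else 0))) +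
    ((if x' = x ∧ y' = y then 1 else 0) + (if x' = y ∧ y' = x then 1 else 0))

lemma p4_le (hK : N ≤ K) (hK0 : 0 < K) {x y x' y' : Fin K} (hxy : x ≠ y) (hxy' : x' ≠ y') :
    p4 N x y x' y' ≤ p2 N x y * p2 N x' y' + p2 N x y * co N x y x' y' := by
  classical
  have hp := p2_nonneg (N := N) x y
  have hp' := p2_nonneg (N := N) x' y'
  have hNK : (0 : ℝ) ≤ (N : ℝ) / K := by positivity
  have hpp := mul_nonneg hp hp'
  -- the value of `co` from below
  have c1 : ∀ a b c d : ℝ, 0 ≤ a → 0 ≤ b → 0 ≤ c → 0 ≤ d → ∀ e g : ℝ, 0 ≤ e → 0 ≤ g →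
      0 ≤ ((N : ℝ) / K) * (a + b + (c + d)) + (e + g) := by
    intro a b c d ha hb hc hd e g he hg
    positivity
  by_cases h1 : x' = x ∨ x' = y
  · by_cases h2 : y' = x ∨ y' = y
    · -- both coincide
      have hle : p4 N x y x' y' ≤ p2 N x y := by
        unfold p4 p2
        refine Finset.sum_le_sum fun k _ => mul_le_mul_of_nonneg_left ?_ (SG.gw_nonneg K k)
        have hab := mul_nonneg (ind_nonneg k x) (ind_nonneg k y)
        have hcd : ind k x' * ind k y' ≤ 1 :=
          mul_le_one₀ (ind_le k x') (ind_nonneg k y') (ind_le k y')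
        calc _ ≤ ind k x * ind k y * 1 := mul_le_mul_of_nonneg_left hcd hab
          _ = _ := mul_one _
      have hco : 1 ≤ co N x y x' y' := by
        unfold co
        have hnn : 0 ≤ ((N : ℝ) / K) * ((if x' = x then (1 : ℝ) else 0) +
            (if x' = y then 1 else 0) + ((if y' = x then 1 else 0) +
              (if y' = y then 1 else 0))) := by
          refine mul_nonneg hNK ?_
          split_ifs <;> norm_num
        rcases h1 with h1 | h1 <;> rcases h2 with h2 | h2
        · exact absurd (h1.trans h2.symm) hxy'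
        · rw [if_pos (show x' = x ∧ y' = y from ⟨h1, h2⟩)]
          have : (0 : ℝ) ≤ (if x' = y ∧ y' = x then 1 else 0) := by split_ifs <;> norm_num
          linarith
        · rw [if_pos (show x' = y ∧ y' = x from ⟨h1, h2⟩)]
          have : (0 : ℝ) ≤ (if x' = x ∧ y' = y then 1 else 0) := by split_ifs <;> norm_num
          linarith
        · exact absurd (h1.trans h2.symm) hxy'
      nlinarith
    · push Not at h2
      have hle : p4 N x y x' y' ≤ p2 N x y * (N / K) := by
        refine le_trans ?_ (p3_three hK hK0 hxy h2.1 h2.2)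
        unfold p4
        refine Finset.sum_le_sum fun k _ => mul_le_mul_of_nonneg_left ?_ (SG.gw_nonneg K k)
        refine mul_le_mul_of_nonneg_left ?_ (mul_nonneg (ind_nonneg k x) (ind_nonneg k y))
        calc _ ≤ 1 * ind k y' := mul_le_mul_of_nonneg_right (ind_le k x') (ind_nonneg k y')
          _ = _ := one_mul _
      have hco : (N : ℝ) / K ≤ co N x y x' y' := by
        unfold co
        have hge : (1 : ℝ) ≤ (if x' = x then (1 : ℝ) else 0) +
            (if x' = y then 1 else 0) + ((if y' = x then 1 else 0) +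
              (if y' = y then 1 else 0)) := by
          rcases h1 with h1 | h1
          · rw [if_pos h1]
            split_ifs <;> norm_num
          · rw [if_pos h1]
            split_ifs <;> norm_num
        have hge2 : (0 : ℝ) ≤ (if x' = x ∧ y' = y then 1 else 0) +
            (if x' = y ∧ y' = x then 1 else 0) := by split_ifs <;> norm_num
        nlinarith
      nlinarith
  · push Not at h1
    by_cases h2 : y' = x ∨ y' = y
    · have hle : p4 N x y x' y' ≤ p2 N x y * (N / K) := by
        refine le_trans ?_ (p3_three hK hK0 hxy h1.1 h1.2)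
        unfold p4
        refine Finset.sum_le_sum fun k _ => mul_le_mul_of_nonneg_left ?_ (SG.gw_nonneg K k)
        refine mul_le_mul_of_nonneg_left ?_ (mul_nonneg (ind_nonneg k x) (ind_nonneg k y))
        calc _ ≤ ind k x' * 1 := mul_le_mul_of_nonneg_left (ind_le k y') (ind_nonneg k x')
          _ = _ := mul_one _
      have hco : (N : ℝ) / K ≤ co N x y x' y' := by
        unfold co
        have hge : (1 : ℝ) ≤ (if x' = x then (1 : ℝ) else 0) +
            (if x' = y then 1 else 0) + ((if y' = x then 1 else 0) +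
              (if y' = y then 1 else 0)) := by
          rcases h2 with h2 | h2
          · rw [if_pos h2]
            split_ifs <;> norm_num
          · rw [if_pos h2]
            split_ifs <;> norm_num
        have hge2 : (0 : ℝ) ≤ (if x' = x ∧ y' = y then 1 else 0) +
            (if x' = y ∧ y' = x then 1 else 0) := by split_ifs <;> norm_num
        nlinarith
      nlinarith
    · push Not at h2
      have hle := p4_four (N := N) hK hK0 hxy hxy' h1.1 h1.2 h2.1 h2.2
      have hco : 0 ≤ co N x y x' y' := by
        unfold co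
        refine c1 _ _ _ _ ?_ ?_ ?_ ?_ _ _ ?_ ?_ <;> split_ifs <;> norm_num
      nlinarith

/-- **the second moment** -/
theorem second_le (hK : N ≤ K) (hK0 : 0 < K) (f : ℂ → ℝ)
    (h0 : ∀ w, ‖w‖ = 1 → 0 ≤ f w ∧ f w ≤ 1) {S : ℝ}
    (hS1 : ∀ x : Fin K, ∑ y : Fin K, f (rt K x * (starRingEnd ℂ) (rt K y)) ≤ S)
    (hS2 : ∀ y : Fin K, ∑ x : Fin K, f (rt K x * (starRingEnd ℂ) (rt K y)) ≤ S) :
    EG N K (fun z => YY f z ^ 2) ≤ EG N K (YY f) ^ 2 + EG N K (YY f) * (4 * (N / K) * S + 2) := by
  classical
  have hu : ∀ x y : Fin K, ‖rt K x * (starRingEnd ℂ) (rt K y)‖ = 1 := fun x y => by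
    rw [norm_mul, Complex.norm_conj, rt_norm, rt_norm, one_mul]
  have g0 : ∀ x y : Fin K, 0 ≤ gg f x y := fun x y => by
    unfold gg
    split_ifs
    · exact le_rfl
    · exact (h0 _ (hu x y)).1
  have g1 : ∀ x y : Fin K, gg f x y ≤ 1 := fun x y => by
    unfold gg
    split_ifs
    · norm_num
    · exact (h0 _ (hu x y)).2
  have gle : ∀ x y : Fin K, gg f x y ≤ f (rt K x * (starRingEnd ℂ) (rt K y)) := fun x y => by
    unfold gg
    split_ifs
    · exact (h0 _ (hu x y)).1
    · exact le_rfl
  have G1 : ∀ x : Fin K, ∑ y, gg f x y ≤ S := fun x =>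
    (Finset.sum_le_sum fun y _ => gle x y).trans (hS1 x)
  have G2 : ∀ y : Fin K, ∑ x, gg f x y ≤ S := fun y =>
    (Finset.sum_le_sum fun x _ => gle x y).trans (hS2 y)
  have hNK : (0 : ℝ) ≤ (N : ℝ) / K := by positivity
  rw [second_moment, first_moment]
  set m := ∑ x : Fin K, ∑ y, p2 N x y * gg f x y with hm
  -- the sum with the coincidences
  have hco : ∀ x y : Fin K, ∑ x', ∑ y', co N x y x' y' * gg f x' y' ≤ 4 * (N / K) * S + 2 := by
    intro x y
    have e : ∀ x' y' : Fin K, co N x y x' y' * gg f x' y' =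
        ((N : ℝ) / K) * ((if x' = x then gg f x' y' else 0) + (if x' = y then gg f x' y' else 0) +
          ((if y' = x then gg f x' y' else 0) + (if y' = y then gg f x' y' else 0))) +
        ((if x' = x then (if y' = y then gg f x' y' else 0) else 0) +
          (if x' = y then (if y' = x then gg f x' y' else 0) else 0)) := by
      intro x' y'
      unfold co
      by_cases a1 : x' = x <;> by_cases a2 : x' = y <;> by_cases a3 : y' = x <;>
        by_cases a4 : y' = y <;> simp only [a1, a2, a3, a4, if_true, if_false, and_true,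
          and_false, true_and, false_and] <;> ring_nf <;> simp_all
    simp only [e, Finset.sum_add_distrib, ← Finset.mul_sum]
    have s1 : ∑ x', ∑ y', (if x' = x then gg f x' y' else 0) = ∑ y', gg f x y' := by
      rw [Finset.sum_comm]
      refine Finset.sum_congr rfl fun y' _ => ?_
      rw [Finset.sum_ite_eq' univ x, if_pos (Finset.mem_univ _)]
    have s2 : ∑ x', ∑ y', (if x' = y then gg f x' y' else 0) = ∑ y', gg f y y' := by
      rw [Finset.sum_comm]
      refine Finset.sum_congr rfl fun y' _ => ?_
      rw [Finset.sum_ite_eq' univ y, if_pos (Finset.mem_univ _)]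
    have s3 : ∑ x', ∑ y', (if y' = x then gg f x' y' else 0) = ∑ x', gg f x' x := by
      refine Finset.sum_congr rfl fun x' _ => ?_
      rw [Finset.sum_ite_eq' univ x, if_pos (Finset.mem_univ _)]
    have s4 : ∑ x', ∑ y', (if y' = y then gg f x' y' else 0) = ∑ x', gg f x' y := by
      refine Finset.sum_congr rfl fun x' _ => ?_
      rw [Finset.sum_ite_eq' univ y, if_pos (Finset.mem_univ _)]
    have s5 : ∑ x' : Fin K, ∑ y', (if x' = x then (if y' = y then gg f x' y' else 0) else 0) =
        gg f x y := by
      rw [Finset.sum_eq_single x]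
      · simp
      · intro b _ hb
        simp [hb]
      · intro h
        exact absurd (Finset.mem_univ x) h
    have s6 : ∑ x' : Fin K, ∑ y', (if x' = y then (if y' = x then gg f x' y' else 0) else 0) =
        gg f y x := by
      rw [Finset.sum_eq_single y]
      · simp
      · intro b _ hb
        simp [hb]
      · intro h
        exact absurd (Finset.mem_univ y) h
    rw [s1, s2, s3, s4, s5, s6]
    have := G1 x
    have := G1 y
    have := G2 x
    have := G2 y
    have := g1 x y
    have := g1 y x
    nlinarith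
  have h1 : ∀ x y : Fin K, ∑ x', ∑ y', p4 N x y x' y' * (gg f x y * gg f x' y') ≤
      p2 N x y * gg f x y * (m + (4 * (N / K) * S + 2)) := by
    intro x y
    by_cases hxy : x = y
    · have : gg f x y = 0 := by
        unfold gg
        rw [if_pos hxy]
      rw [this]
      simp
    have h2 : ∀ x' y' : Fin K, p4 N x y x' y' * (gg f x y * gg f x' y') ≤
        p2 N x y * gg f x y * (p2 N x' y' * gg f x' y' + co N x y x' y' * gg f x' y') := by
      intro x' y'
      by_cases hxy' : x' = y'
      · have : gg f x' y' = 0 := by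
          unfold gg
          rw [if_pos hxy']
        rw [this]
        simp
      have h3 := p4_le (N := N) hK hK0 hxy hxy'
      have h4 := mul_le_mul_of_nonneg_right h3 (mul_nonneg (g0 x y) (g0 x' y'))
      refine h4.trans (le_of_eq ?_)
      ring
    calc _ ≤ ∑ x', ∑ y', p2 N x y * gg f x y *
          (p2 N x' y' * gg f x' y' + co N x y x' y' * gg f x' y') :=
          Finset.sum_le_sum fun x' _ => Finset.sum_le_sum fun y' _ => h2 x' y'
      _ = p2 N x y * gg f x y * (m + ∑ x', ∑ y', co N x y x' y' * gg f x' y') := by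
          rw [hm, ← Finset.sum_add_distrib, Finset.mul_sum]
          refine Finset.sum_congr rfl fun x' _ => ?_
          rw [← Finset.sum_add_distrib, Finset.mul_sum]
      _ ≤ _ := by
          refine mul_le_mul_of_nonneg_left ?_ (mul_nonneg (p2_nonneg x y) (g0 x y))
          have := hco x y
          linarith
  calc _ ≤ ∑ x : Fin K, ∑ y, p2 N x y * gg f x y * (m + (4 * (N / K) * S + 2)) :=
        Finset.sum_le_sum fun x _ => Finset.sum_le_sum fun y _ => h1 x y
    _ = m * (m + (4 * (N / K) * S + 2)) := by
        rw [hm, Finset.sum_mul]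
        refine Finset.sum_congr rfl fun x _ => ?_
        rw [Finset.sum_mul]
    _ = _ := by ring

end

end Pool.Agent.H481.MG
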