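import Pool.Agent.H481.MG3

/-!
The test function and its means.
-/

open Finset
open Pool.Agent.R319.UM

namespace Pool.Agent.H481.MG

open AC

noncomputable section

variable {N K : ℕ}

/-! ### the pair function -/

lemma rho_eq (N : ℕ) {w : ℂ} (hw : ‖w‖ = 1) :
    rho N w = ∑ a ∈ range N, ∑ b ∈ range N, ‖w ^ a - w ^ b‖ ^ 2 / 2 := by
  have h1 : ∀ a b : ℕ, ‖w ^ a - w ^ b‖ ^ 2 / 2 = 1 - (w ^ a * (starRingEnd ℂ) (w ^ b)).re := by
    intro a b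
    rw [← Complex.normSq_eq_norm_sq, Complex.normSq_sub, Complex.normSq_eq_norm_sq,
      Complex.normSq_eq_norm_sq, norm_pow, norm_pow, hw]
    ring
  have h2 : ‖Dn N w‖ ^ 2 = ∑ a ∈ range N, ∑ b ∈ range N,
      (w ^ a * (starRingEnd ℂ) (w ^ b)).re := by
    have h3 : ((‖Dn N w‖ ^ 2 : ℝ) : ℂ) = Dn N w * (starRingEnd ℂ) (Dn N w) := by
      rw [Complex.mul_conj, Complex.normSq_eq_norm_sq]
    have h4 := congrArg Complex.re h3
    rw [Complex.ofReal_re] at h4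
    rw [h4]
    unfold Dn
    rw [map_sum, Finset.sum_mul_sum, Complex.re_sum]
    simp only [Complex.re_sum]
  unfold rho
  rw [h2]
  simp only [h1, Finset.sum_sub_distrib]
  simp
  ring

lemma rho_nonneg (N : ℕ) {w : ℂ} (hw : ‖w‖ = 1) : 0 ≤ rho N w := by
  rw [rho_eq N hw]
  exact Finset.sum_nonneg fun a _ => Finset.sum_nonneg fun b _ => by positivity

lemma rho_le (N : ℕ) {w : ℂ} (hw : ‖w‖ = 1) :
    rho N w ≤ (N : ℝ) ^ 2 * ((N : ℝ) ^ 2 - 1) / 12 * ‖w - 1‖ ^ 2 := by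
  rw [rho_eq N hw]
  calc ∑ a ∈ range N, ∑ b ∈ range N, ‖w ^ a - w ^ b‖ ^ 2 / 2 ≤
      ∑ a ∈ range N, ∑ b ∈ range N, ((a : ℝ) - (b : ℝ)) ^ 2 * (‖w - 1‖ ^ 2 / 2) := by
        refine Finset.sum_le_sum fun a _ => Finset.sum_le_sum fun b _ => ?_
        have := pow_le_pow_left₀ (norm_nonneg _) (SB.pow_sub_le hw a b) 2
        rw [mul_pow, sq_abs] at this
        linarith
    _ = _ := by
        simp only [← Finset.sum_mul]
        have h := SB.sq_sumR N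
        rw [← Fin.sum_univ_eq_sum_range (fun a => ∑ b ∈ range N, ((a : ℝ) - (b : ℝ)) ^ 2) N]
        simp only [← Fin.sum_univ_eq_sum_range (fun b => ((_ : ℝ) - (b : ℝ)) ^ 2) N]
        rw [h]
        ring

lemma pow_lower {w : ℂ} (hw : ‖w‖ = 1) (r : ℕ) :
    (r : ℝ) ^ 2 * ‖w - 1‖ ^ 2 - (r : ℝ) ^ 4 / 12 * ‖w - 1‖ ^ 4 ≤ ‖w ^ r - 1‖ ^ 2 := by
  have h1 : ‖w ^ r - 1‖ ^ 2 = ‖Dn r w‖ ^ 2 * ‖w - 1‖ ^ 2 := by
    have : w ^ r - 1 = Dn r w * (w - 1) := (geom_sum_mul w r).symm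
    rw [this, norm_mul, mul_pow]
  have h2 : ‖Dn r w‖ ^ 2 = (r : ℝ) ^ 2 - rho r w := by
    unfold rho
    ring
  have h3 := rho_le r hw
  have h4 : (r : ℝ) ^ 2 * ((r : ℝ) ^ 2 - 1) / 12 * ‖w - 1‖ ^ 2 ≤ (r : ℝ) ^ 4 / 12 * ‖w - 1‖ ^ 2 := by
    refine mul_le_mul_of_nonneg_right ?_ (sq_nonneg _)
    have : (0 : ℝ) ≤ (r : ℝ) ^ 2 := by positivity
    nlinarith
  rw [h1, h2]
  have h5 : 0 ≤ ‖w - 1‖ ^ 2 := sq_nonneg _
  have h6 : ((r : ℝ) ^ 2 - (r : ℝ) ^ 4 / 12 * ‖w - 1‖ ^ 2) * ‖w - 1‖ ^ 2 ≤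
      ((r : ℝ) ^ 2 - rho r w) * ‖w - 1‖ ^ 2 := mul_le_mul_of_nonneg_right (by linarith) h5
  refine le_trans (le_of_eq ?_) h6
  ring

lemma rho_ge (N : ℕ) {w : ℂ} (hw : ‖w‖ = 1) :
    (N : ℝ) ^ 2 * ((N : ℝ) ^ 2 - 1) / 12 * ‖w - 1‖ ^ 2 - (N : ℝ) ^ 6 / 24 * ‖w - 1‖ ^ 4 ≤
      rho N w := by
  rw [rho_eq N hw]
  have h1 : ∀ a b : ℕ, ((a : ℝ) - b) ^ 2 * ‖w - 1‖ ^ 2 - ((a : ℝ) - b) ^ 4 / 12 * ‖w - 1‖ ^ 4 ≤
      ‖w ^ a - w ^ b‖ ^ 2 := by
    have key : ∀ b r : ℕ, ‖w ^ (b + r) - w ^ b‖ = ‖w ^ r - 1‖ := by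
      intro b r
      have : w ^ (b + r) - w ^ b = w ^ b * (w ^ r - 1) := by rw [pow_add]; ring
      rw [this, norm_mul, norm_pow, hw, one_pow, one_mul]
    intro a b
    rcases le_total a b with h | h
    · obtain ⟨r, rfl⟩ := Nat.exists_eq_add_of_le h
      rw [norm_sub_rev (w ^ a) (w ^ (a + r)), key]
      have h2 := pow_lower hw r
      push_cast
      have e : (a : ℝ) - (a + r) = -r := by ring
      rw [e]
      have e2 : (-(r : ℝ)) ^ 2 = (r : ℝ) ^ 2 := by ring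
      have e4 : (-(r : ℝ)) ^ 4 = (r : ℝ) ^ 4 := by ring
      rw [e2, e4]
      exact h2
    · obtain ⟨r, rfl⟩ := Nat.exists_eq_add_of_le h
      rw [key]
      have h2 := pow_lower hw r
      push_cast
      have e : (b : ℝ) + r - b = r := by ring
      rw [e]
      exact h2
  have h2 : ∀ a ∈ range N, ∀ b ∈ range N, ((a : ℝ) - b) ^ 4 ≤ (N : ℝ) ^ 4 := by
    intro a ha b hb
    rw [mem_range] at ha hb
    have ha' : (a : ℝ) < N := by exact_mod_cast ha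
    have hb' : (b : ℝ) < N := by exact_mod_cast hb
    have ha0 : (0 : ℝ) ≤ a := Nat.cast_nonneg a
    have hb0 : (0 : ℝ) ≤ b := Nat.cast_nonneg b
    have h3 : |(a : ℝ) - b| ≤ N := by
      rw [abs_le]
      constructor <;> linarith
    have h4 := pow_le_pow_left₀ (abs_nonneg _) h3 4
    rwa [show |(a : ℝ) - b| ^ 4 = ((a : ℝ) - b) ^ 4 from by
      rw [← abs_pow, abs_of_nonneg (by positivity)]] at h4
  have h5 : ∑ a ∈ range N, ∑ b ∈ range N, (((a : ℝ) - b) ^ 2 * (‖w - 1‖ ^ 2 / 2) -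
      (N : ℝ) ^ 4 * (‖w - 1‖ ^ 4 / 24)) ≤
      ∑ a ∈ range N, ∑ b ∈ range N, ‖w ^ a - w ^ b‖ ^ 2 / 2 := by
    refine Finset.sum_le_sum fun a ha => Finset.sum_le_sum fun b hb => ?_
    have h6 := h1 a b
    have h7 := mul_le_mul_of_nonneg_right (h2 a ha b hb)
      (show (0 : ℝ) ≤ ‖w - 1‖ ^ 4 / 24 by positivity)
    linarith
  refine le_trans (le_of_eq ?_) h5
  simp only [Finset.sum_sub_distrib, ← Finset.sum_mul]
  have h := SB.sq_sumR N
  rw [← Fin.sum_univ_eq_sum_range (fun a => ∑ b ∈ range N, ((a : ℝ) - (b : ℝ)) ^ 2) N]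
  simp only [← Fin.sum_univ_eq_sum_range (fun b => ((_ : ℝ) - (b : ℝ)) ^ 2) N]
  rw [h]
  simp only [Finset.sum_const, card_range, nsmul_eq_mul]
  ring

/-! ### sums over the roots -/

lemma rt_pow_K (hK : 0 < K) (n : ℕ) :
    Complex.exp (2 * Real.pi * Complex.I / K) ^ n =
      Complex.exp (2 * Real.pi * Complex.I / K) ^ (n % K) := by
  refine pow_eq_pow_mod n ?_
  rw [← Complex.exp_nat_mul]
  have hK0 : (K : ℂ) ≠ 0 := by exact_mod_cast hK.ne'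
  have : (K : ℂ) * (2 * Real.pi * Complex.I / K) = 2 * Real.pi * Complex.I := by
    field_simp
  rw [this, Complex.exp_two_pi_mul_I]

lemma rt_sub (hK : 0 < K) (x y : Fin K) : haveI : NeZero K := ⟨hK.ne'⟩
    rt K (x - y) = rt K x * (starRingEnd ℂ) (rt K y) := by
  have : NeZero K := ⟨hK.ne'⟩
  have hv : ((x - y : Fin K) : ℕ) = (K - (y : ℕ) + x) % K := by
    rw [Fin.sub_def]
  have h1 : rt K (x - y) = Complex.exp (2 * Real.pi * Complex.I / K) ^ (K - (y : ℕ) + x) := by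
    unfold rt
    rw [hv, ← rt_pow_K hK]
  have h2 : Complex.exp (2 * Real.pi * Complex.I / K) ^ (K - (y : ℕ)) * rt K y = 1 := by
    unfold rt
    rw [← pow_add, Nat.sub_add_cancel y.2.le, rt_pow_K hK, Nat.mod_self, pow_zero]
  have h3 : rt K y * (starRingEnd ℂ) (rt K y) = 1 := mul_conj_unit (rt_norm K y)
  have h4 : Complex.exp (2 * Real.pi * Complex.I / K) ^ (K - (y : ℕ)) =
      (starRingEnd ℂ) (rt K y) := by
    calc _ = Complex.exp (2 * Real.pi * Complex.I / K) ^ (K - (y : ℕ)) *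
          (rt K y * (starRingEnd ℂ) (rt K y)) := by rw [h3, mul_one]
      _ = (Complex.exp (2 * Real.pi * Complex.I / K) ^ (K - (y : ℕ)) * rt K y) *
          (starRingEnd ℂ) (rt K y) := by ring
      _ = _ := by rw [h2, one_mul]
  rw [h1, pow_add, h4, mul_comm]
  rfl

lemma trans_left (hK : 0 < K) (h : ℂ → ℝ) (x : Fin K) :
    ∑ y : Fin K, h (rt K x * (starRingEnd ℂ) (rt K y)) = ∑ y : Fin K, h (rt K y) := by
  have : NeZero K := ⟨hK.ne'⟩
  rw [← Equiv.sum_comp (Equiv.subLeft x) (fun y => h (rt K y))]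
  refine Finset.sum_congr rfl fun y _ => ?_
  rw [Equiv.subLeft_apply, rt_sub hK]

lemma trans_right (hK : 0 < K) (h : ℂ → ℝ) (y : Fin K) :
    ∑ x : Fin K, h (rt K x * (starRingEnd ℂ) (rt K y)) = ∑ x : Fin K, h (rt K x) := by
  have : NeZero K := ⟨hK.ne'⟩
  rw [← Equiv.sum_comp (Equiv.subRight y) (fun y => h (rt K y))]
  refine Finset.sum_congr rfl fun x _ => ?_
  rw [Equiv.subRight_apply, rt_sub hK]

/-- the first moment -/
theorem EG_YY (hK : N ≤ K) (hK0 : 0 < K) (f : ℂ → ℝ) :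
    EG N K (YY f) = (∑ x : Fin K, f (rt K x) * rho N (rt K x)) / K := by
  have hKr : (K : ℝ) ≠ 0 := by exact_mod_cast hK0.ne'
  rw [first_moment]
  have e : ∀ x y : Fin K, p2 N x y * gg f x y =
      (f (rt K x * (starRingEnd ℂ) (rt K y)) * rho N (rt K x * (starRingEnd ℂ) (rt K y))) /
        (K : ℝ) ^ 2 := by
    intro x y
    unfold gg
    by_cases hxy : x = y
    · rw [if_pos hxy, hxy, mul_conj_unit (rt_norm K y)]
      unfold rho
      rw [Dn_one]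
      simp
    · rw [if_neg hxy, p2_eq hK hK0 hxy]
      ring
  simp only [e, ← Finset.sum_div]
  have e2 : ∀ x : Fin K, ∑ y : Fin K, f (rt K x * (starRingEnd ℂ) (rt K y)) *
      rho N (rt K x * (starRingEnd ℂ) (rt K y)) = ∑ y : Fin K, f (rt K y) * rho N (rt K y) :=
    fun x => trans_left hK0 (fun w => f w * rho N w) x
  simp only [e2]
  rw [Finset.sum_const, card_univ, Fintype.card_fin, nsmul_eq_mul]
  field_simp

end

end Pool.Agent.H481.MG
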