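import Pool.Agent.H481.MG4

/-!
The cube of Fejér's kernel.
-/

open Finset
open Pool.Agent.R319.UM

namespace Pool.Agent.H481.MG

open AC

noncomputable section

variable {N K M : ℕ}

/-- products of trigonometric polynomials -/
lemma LP.mul' {n n' : ℕ} {μ μ' : ℂ} {f g : ℂ → ℂ} (hf : LP n μ f) (hg : LP n' μ' g) :
    ∃ ν : ℂ, LP (n + n') ν (fun w => f w * g w) := by
  obtain ⟨a, b, -, h2⟩ := hf
  obtain ⟨a', b', -, h2'⟩ := hg
  have hL : LP (n + n') (∑ k ∈ range (n + 1), ∑ l ∈ range (n' + 1),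
      ((a k * a' l) * (if k + l = 0 then 1 else 0) + (a k * b' l) * (if k = l then 1 else 0) +
        ((b k * a' l) * (if l = k then 1 else 0) + (b k * b' l) * (if 0 = k + l then 1 else 0))))
      (fun w => ∑ k ∈ range (n + 1), ∑ l ∈ range (n' + 1),
        ((a k * a' l) * (w ^ (k + l) * (starRingEnd ℂ) w ^ 0) +
          (a k * b' l) * (w ^ k * (starRingEnd ℂ) w ^ l) +
        ((b k * a' l) * (w ^ l * (starRingEnd ℂ) w ^ k) +
          (b k * b' l) * (w ^ 0 * (starRingEnd ℂ) w ^ (k + l))))) := by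
    refine LP.sum _ _ _ fun k hk => LP.sum _ _ _ fun l hl => ?_
    rw [mem_range] at hk hl
    exact (((LP.mon _ _ _ (by omega) (by omega)).smul _).add
      ((LP.mon _ _ _ (by omega) (by omega)).smul _)).add
      (((LP.mon _ _ _ (by omega) (by omega)).smul _).add
      ((LP.mon _ _ _ (by omega) (by omega)).smul _))
  refine ⟨_, hL.congr fun w hw => ?_⟩
  rw [h2 w hw, h2' w hw, Finset.sum_mul_sum]
  refine Finset.sum_congr rfl fun k _ => Finset.sum_congr rfl fun l _ => ?_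
  rw [pow_add, pow_add]
  ring

/-- Fejér's kernel -/
def PhR (M : ℕ) (w : ℂ) : ℝ := ‖Dn M w‖ ^ 2 / (M : ℝ) ^ 2

lemma PhR_eq (M : ℕ) (w : ℂ) : ((PhR M w : ℝ) : ℂ) = Ph M w := by
  unfold PhR Ph
  rw [Complex.mul_conj, Complex.normSq_eq_norm_sq]
  push_cast
  rw [div_eq_mul_inv, mul_comm]

lemma PhR_nonneg (M : ℕ) (w : ℂ) : 0 ≤ PhR M w := by
  unfold PhR
  positivity

lemma Dn_le (M : ℕ) {w : ℂ} (hw : ‖w‖ = 1) : ‖Dn M w‖ ≤ M := by
  unfold Dn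
  refine (norm_sum_le _ _).trans ?_
  simp [hw]

lemma PhR_le (hM : 1 ≤ M) {w : ℂ} (hw : ‖w‖ = 1) : PhR M w ≤ 1 := by
  unfold PhR
  have hM0 : (0 : ℝ) < M := by exact_mod_cast hM
  rw [div_le_one (by positivity)]
  exact pow_le_pow_left₀ (norm_nonneg _) (Dn_le M hw) 2

/-- the test function -/
def FF (M : ℕ) (w : ℂ) : ℝ := PhR M w ^ 3

/-- the test function for the far pairs -/
def GF (M : ℕ) (w : ℂ) : ℝ := FF M w * ‖w - 1‖ ^ 2

lemma FF_nonneg (M : ℕ) (w : ℂ) : 0 ≤ FF M w := pow_nonneg (PhR_nonneg M w) 3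

lemma FF_le_one (hM : 1 ≤ M) {w : ℂ} (hw : ‖w‖ = 1) : FF M w ≤ 1 :=
  pow_le_one₀ (PhR_nonneg M w) (PhR_le hM hw)

lemma FF_le (hM : 1 ≤ M) {w : ℂ} (hw : ‖w‖ = 1) : FF M w ≤ PhR M w := by
  unfold FF
  have h0 := PhR_nonneg M w
  have h1 := PhR_le hM hw
  calc PhR M w ^ 3 = PhR M w ^ 2 * PhR M w := by ring
    _ ≤ 1 * PhR M w := mul_le_mul_of_nonneg_right (pow_le_one₀ h0 h1) h0
    _ = _ := one_mul _

lemma Ph_lpR (hM : 1 ≤ M) : LP (M - 1) ((M : ℂ)⁻¹) (fun w => (PhR M w : ℂ)) :=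
  (Ph_lp' hM).congr fun w _ => PhR_eq M w

lemma FF_lp (hM : 1 ≤ M) : ∃ μ : ℂ, LP (3 * (M - 1)) μ (fun w => (FF M w : ℂ)) := by
  obtain ⟨μ, h1⟩ := LP.mul' (Ph_lpR hM) (Ph_lpR hM)
  obtain ⟨ν, h2⟩ := LP.mul' h1 (Ph_lpR hM)
  have e : M - 1 + (M - 1) + (M - 1) = 3 * (M - 1) := by ring
  rw [e] at h2
  refine ⟨ν, h2.congr fun w _ => ?_⟩
  unfold FF
  push_cast
  ring

lemma GF_lp (hM : 1 ≤ M) : ∃ μ : ℂ, LP (3 * (M - 1) + 1) μ (fun w => (GF M w : ℂ)) := by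
  obtain ⟨μ, h1⟩ := FF_lp hM
  have h2 : LP 1 (2 + (-1) * (0 + 0)) (fun w => (2 : ℂ) + (-1) *
      (w ^ 1 * (starRingEnd ℂ) w ^ 0 + w ^ 0 * (starRingEnd ℂ) w ^ 1)) := by
    have m1 := LP.mon 1 1 0 le_rfl (by omega)
    have m2 := LP.mon 1 0 1 (by omega) le_rfl
    simp only [one_ne_zero, zero_ne_one, if_false] at m1 m2
    exact (LP.const 1 2).add ((m1.add m2).smul (-1))
  obtain ⟨ν, h3⟩ := LP.mul' h1 h2
  refine ⟨ν, h3.congr fun w hw => ?_⟩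
  unfold GF
  push_cast
  congr 1
  have h4 : ((‖w - 1‖ ^ 2 : ℝ) : ℂ) = (w - 1) * (starRingEnd ℂ) (w - 1) := by
    rw [Complex.mul_conj, Complex.normSq_eq_norm_sq]
  push_cast at h4
  rw [h4, map_sub, map_one]
  have h5 := mul_conj_unit hw
  linear_combination h5

/-- the sum of Fejér's kernel -/
lemma sum_PhR (hM : 1 ≤ M) (hK : M ≤ K) : ∑ x : Fin K, PhR M (rt K x) = K / M := by
  have h := (Ph_lpR hM).mean (K := K) (by omega)
  have h2 : ((∑ x : Fin K, PhR M (rt K x) : ℝ) : ℂ) = ((K / M : ℝ) : ℂ) := by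
    push_cast
    rw [h]
    ring
  exact_mod_cast h2

lemma sum_Dn (hM : 1 ≤ M) (hK : M ≤ K) : ∑ x : Fin K, ‖Dn M (rt K x)‖ ^ 2 = K * M := by
  have hM0 : (0 : ℝ) < M := by exact_mod_cast hM
  have h := sum_PhR hM hK
  unfold PhR at h
  rw [← Finset.sum_div, div_eq_iff (by positivity)] at h
  rw [h]
  field_simp

/-- the product which gives the lower bound -/
lemma cross (hM : 1 ≤ M) (hK : 3 * M < K) :
    ∑ x : Fin K, (Dn M (rt K x) ^ 2 * (1 - rt K x ^ M) * (starRingEnd ℂ) (Dn M (rt K x))) =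
      (K : ℂ) * ((M : ℂ) * (M + 1) / 2) := by
  have hL : LP (3 * M) (∑ i ∈ range M, ∑ j ∈ range M, ∑ l ∈ range M,
      ((if i + j = l then 1 else 0) + (-1) * (if i + j + M = l then 1 else 0)))
      (fun w => ∑ i ∈ range M, ∑ j ∈ range M, ∑ l ∈ range M,
        (w ^ (i + j) * (starRingEnd ℂ) w ^ l + (-1) * (w ^ (i + j + M) *
          (starRingEnd ℂ) w ^ l))) := by
    refine LP.sum _ _ _ fun i hi => LP.sum _ _ _ fun j hj => LP.sum _ _ _ fun l hl => ?_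
    rw [mem_range] at hi hj hl
    exact (LP.mon _ _ _ (by omega) (by omega)).add ((LP.mon _ _ _ (by omega) (by omega)).smul (-1))
  have h := hL.mean hK
  have e1 : ∀ w : ℂ, ∑ i ∈ range M, ∑ j ∈ range M, ∑ l ∈ range M,
        (w ^ (i + j) * (starRingEnd ℂ) w ^ l + (-1) * (w ^ (i + j + M) *
          (starRingEnd ℂ) w ^ l)) =
      Dn M w ^ 2 * (1 - w ^ M) * (starRingEnd ℂ) (Dn M w) := by
    intro w
    have e : ∀ i j l : ℕ, w ^ (i + j) * (starRingEnd ℂ) w ^ l + (-1) * (w ^ (i + j + M) *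
          (starRingEnd ℂ) w ^ l) = w ^ i * (w ^ j * ((1 - w ^ M) * (starRingEnd ℂ) w ^ l)) := by
      intro i j l
      rw [pow_add, pow_add, pow_add]
      ring
    simp only [e, ← Finset.mul_sum, ← Finset.sum_mul]
    unfold Dn
    rw [map_sum]
    simp only [map_pow]
    ring
  simp only [e1] at h
  rw [h]
  congr 1
  have e2 : ∀ i ∈ range M, ∀ j ∈ range M, ∑ l ∈ range M,
      ((if i + j = l then (1 : ℂ) else 0) + (-1) * (if i + j + M = l then 1 else 0)) =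
      if i + j < M then 1 else 0 := by
    intro i _ j _
    rw [Finset.sum_add_distrib, ← Finset.mul_sum, Finset.sum_ite_eq (range M) (i + j),
      Finset.sum_ite_eq (range M) (i + j + M)]
    simp only [mem_range]
    rw [if_neg (show ¬ (i + j + M < M) by omega)]
    ring
  have e3 : ∀ i ∈ range M, ∑ j ∈ range M, (if i + j < M then (1 : ℂ) else 0) = (M : ℂ) - i := by
    intro i hi
    rw [mem_range] at hi
    rw [Finset.sum_boole]
    have : (range M).filter (fun j => i + j < M) = range (M - i) := by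
      ext j
      simp only [mem_filter, mem_range]
      omega
    rw [this, card_range, Nat.cast_sub hi.le]
  have e4 : ∑ i ∈ range M, ((i : ℕ) : ℂ) = (M : ℂ) * (M - 1) / 2 := by
    have h5 := Finset.sum_range_id_mul_two M
    have h6 : ((∑ i ∈ range M, i : ℕ) : ℂ) * 2 = (M : ℂ) * (M - 1) := by
      have h7 : (((∑ i ∈ range M, i) * 2 : ℕ) : ℂ) = ((M * (M - 1) : ℕ) : ℂ) := by rw [h5]
      rw [Nat.cast_mul, Nat.cast_mul, Nat.cast_sub hM] at h7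
      push_cast at h7 ⊢
      exact h7
    push_cast at h6
    linear_combination h6 / 2
  calc _ = ∑ i ∈ range M, ((M : ℂ) - i) := by
        refine Finset.sum_congr rfl fun i hi => ?_
        rw [Finset.sum_congr rfl (e2 i hi), e3 i hi]
    _ = _ := by
        rw [Finset.sum_sub_distrib, e4]
        simp
        ring

lemma Dn_mul (M : ℕ) (w : ℂ) : Dn M w * (w - 1) = w ^ M - 1 := geom_sum_mul w M

/-- the lower bound for the second moment of the kernel -/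
lemma GF_ge (hM : 1 ≤ M) (hK : 3 * M < K) :
    (K : ℝ) / (4 * (M : ℝ) ^ 3) ≤ ∑ x : Fin K, GF M (rt K x) := by
  have hM0 : (0 : ℝ) < M := by exact_mod_cast hM
  have hK0 : (0 : ℝ) < K := by exact_mod_cast (show 0 < K by omega)
  set P : ℂ → ℂ := fun w => Dn M w ^ 2 * (1 - w ^ M) with hP
  have e : ∀ w : ℂ, GF M w = ‖P w‖ ^ 2 / (M : ℝ) ^ 6 := by
    intro w
    have h1 : ‖Dn M w‖ * ‖w - 1‖ = ‖1 - w ^ M‖ := by
      rw [← norm_mul, Dn_mul, norm_sub_rev]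
    unfold GF FF PhR
    rw [hP]
    beta_reduce
    rw [norm_mul, norm_pow, ← h1]
    field_simp
  simp only [e]
  rw [← Finset.sum_div, le_div_iff₀ (by positivity)]
  have hc := cross hM hK
  have h1 : (K : ℝ) * ((M : ℝ) * (M + 1) / 2) ≤ ∑ x : Fin K, ‖P (rt K x)‖ * ‖Dn M (rt K x)‖ := by
    have h2 := congrArg norm hc
    have h3 : ‖(K : ℂ) * ((M : ℂ) * (M + 1) / 2)‖ = (K : ℝ) * ((M : ℝ) * (M + 1) / 2) := by
      have : (K : ℂ) * ((M : ℂ) * (M + 1) / 2) = ((K * (M * (M + 1) / 2) : ℝ) : ℂ) := by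
        push_cast
        rfl
      rw [this, Complex.norm_real, Real.norm_of_nonneg (by positivity)]
    rw [h3] at h2
    rw [← h2]
    refine (norm_sum_le _ _).trans (Finset.sum_le_sum fun x _ => ?_)
    rw [norm_mul, Complex.norm_conj]
  have h2 := Finset.sum_mul_sq_le_sq_mul_sq univ (fun x : Fin K => ‖P (rt K x)‖)
    (fun x : Fin K => ‖Dn M (rt K x)‖)
  rw [sum_Dn hM (by omega)] at h2
  have h3 : ((K : ℝ) * ((M : ℝ) * (M + 1) / 2)) ^ 2 ≤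
      (∑ x : Fin K, ‖P (rt K x)‖ * ‖Dn M (rt K x)‖) ^ 2 :=
    pow_le_pow_left₀ (by positivity) h1 2
  have h4 := h3.trans h2
  have h5 : (K : ℝ) * M * (K / (4 * (M : ℝ) ^ 3) * (M : ℝ) ^ 6) ≤
      ((K : ℝ) * ((M : ℝ) * (M + 1) / 2)) ^ 2 := by
    have e1 : (K : ℝ) * M * (K / (4 * (M : ℝ) ^ 3) * (M : ℝ) ^ 6) =
        (K : ℝ) ^ 2 * (M : ℝ) ^ 4 / 4 := by
      field_simp
    have e2 : ((K : ℝ) * ((M : ℝ) * (M + 1) / 2)) ^ 2 =
        (K : ℝ) ^ 2 * (M : ℝ) ^ 2 * (M + 1) ^ 2 / 4 := by ring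
    rw [e1, e2]
    have e3 : (M : ℝ) ^ 2 ≤ (M + 1) ^ 2 := by nlinarith
    have e4 : 0 ≤ (K : ℝ) ^ 2 * (M : ℝ) ^ 2 := by positivity
    nlinarith
  have h6 : (K : ℝ) * M * (K / (4 * (M : ℝ) ^ 3) * (M : ℝ) ^ 6) ≤
      (K : ℝ) * M * ∑ x : Fin K, ‖P (rt K x)‖ ^ 2 := by
    refine h5.trans (h4.trans (le_of_eq ?_))
    ring
  exact le_of_mul_le_mul_left h6 (by positivity)

lemma one_sub_le (M : ℕ) {w : ℂ} (hw : ‖w‖ = 1) : ‖w ^ M - 1‖ ≤ 2 := by
  refine (norm_sub_le _ _).trans ?_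
  rw [norm_pow, hw]
  norm_num

/-- the upper bounds for the moments of the kernel -/
lemma GF_le (hM : 1 ≤ M) (hK : M ≤ K) :
    ∑ x : Fin K, GF M (rt K x) ≤ 4 * K / (M : ℝ) ^ 3 := by
  have hM0 : (0 : ℝ) < M := by exact_mod_cast hM
  have h1 : ∀ x : Fin K, GF M (rt K x) ≤ 4 / (M : ℝ) ^ 4 * ‖Dn M (rt K x)‖ ^ 2 := by
    intro x
    have hw := rt_norm K x
    have h2 : ‖Dn M (rt K x)‖ * ‖rt K x - 1‖ ≤ 2 := by
      rw [← norm_mul, Dn_mul]
      exact one_sub_le M hw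
    have h3 := Dn_le M hw
    have e : GF M (rt K x) = (‖Dn M (rt K x)‖ * ‖rt K x - 1‖) ^ 2 * ‖Dn M (rt K x)‖ ^ 2 *
        ‖Dn M (rt K x)‖ ^ 2 / (M : ℝ) ^ 6 := by
      unfold GF FF PhR
      field_simp
    rw [e, div_le_iff₀ (by positivity)]
    have h4 : (‖Dn M (rt K x)‖ * ‖rt K x - 1‖) ^ 2 ≤ 2 ^ 2 :=
      pow_le_pow_left₀ (by positivity) h2 2
    have h5 : ‖Dn M (rt K x)‖ ^ 2 ≤ (M : ℝ) ^ 2 := pow_le_pow_left₀ (norm_nonneg _) h3 2
    calc _ ≤ 2 ^ 2 * (M : ℝ) ^ 2 * ‖Dn M (rt K x)‖ ^ 2 := by gcongr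
      _ = _ := by
        field_simp
        ring
  refine (Finset.sum_le_sum fun x _ => h1 x).trans (le_of_eq ?_)
  rw [← Finset.mul_sum, sum_Dn hM hK]
  field_simp

lemma GF2_le (hM : 1 ≤ M) (hK : M ≤ K) :
    ∑ x : Fin K, GF M (rt K x) * ‖rt K x - 1‖ ^ 2 ≤ 16 * K / (M : ℝ) ^ 5 := by
  have hM0 : (0 : ℝ) < M := by exact_mod_cast hM
  have h1 : ∀ x : Fin K, GF M (rt K x) * ‖rt K x - 1‖ ^ 2 ≤
      16 / (M : ℝ) ^ 6 * ‖Dn M (rt K x)‖ ^ 2 := by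
    intro x
    have hw := rt_norm K x
    have h2 : ‖Dn M (rt K x)‖ * ‖rt K x - 1‖ ≤ 2 := by
      rw [← norm_mul, Dn_mul]
      exact one_sub_le M hw
    have e : GF M (rt K x) * ‖rt K x - 1‖ ^ 2 = (‖Dn M (rt K x)‖ * ‖rt K x - 1‖) ^ 4 *
        ‖Dn M (rt K x)‖ ^ 2 / (M : ℝ) ^ 6 := by
      unfold GF FF PhR
      field_simp
    rw [e, div_le_iff₀ (by positivity)]
    have h4 : (‖Dn M (rt K x)‖ * ‖rt K x - 1‖) ^ 4 ≤ 2 ^ 4 :=
      pow_le_pow_left₀ (by positivity) h2 4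
    calc _ ≤ 2 ^ 4 * ‖Dn M (rt K x)‖ ^ 2 := by gcongr
      _ = _ := by
        field_simp
        ring
  refine (Finset.sum_le_sum fun x _ => h1 x).trans (le_of_eq ?_)
  rw [← Finset.mul_sum, sum_Dn hM hK]
  field_simp

end

end Pool.Agent.H481.MG
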