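import Pool.Agent.H481.MG5

/-!
The smallest distance for all laws with the correlations of range `R`.
-/

open Finset MeasureTheory
open Pool.Agent.R319.UM

namespace Pool.Agent.H481.MG

open AC

noncomputable section

variable {N K M : ℕ}

lemma E_ge (hN : 2 ≤ N) (hM : 10 * N ≤ M) (hK : 3 * M < K) :
    (N : ℝ) ^ 4 / (128 * (M : ℝ) ^ 3) ≤ EG N K (YY (FF M)) := by
  have hN0 : (2 : ℝ) ≤ N := by exact_mod_cast hN
  have hM1 : 1 ≤ M := by omega
  have hM0 : (0 : ℝ) < M := by exact_mod_cast (show 0 < M by omega)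
  have hK0 : (0 : ℝ) < K := by exact_mod_cast (show 0 < K by omega)
  rw [EG_YY (by omega) (by omega), le_div_iff₀ hK0]
  have h1 := GF_ge hM1 hK
  have h2 := GF2_le hM1 (show M ≤ K by omega)
  have h3 : (N : ℝ) ^ 2 * ((N : ℝ) ^ 2 - 1) / 12 * (∑ x : Fin K, GF M (rt K x)) -
      (N : ℝ) ^ 6 / 24 * (∑ x : Fin K, GF M (rt K x) * ‖rt K x - 1‖ ^ 2) ≤
      ∑ x : Fin K, FF M (rt K x) * rho N (rt K x) := by
    rw [Finset.mul_sum, Finset.mul_sum, ← Finset.sum_sub_distrib]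
    refine Finset.sum_le_sum fun x _ => ?_
    have h4 := mul_le_mul_of_nonneg_left (rho_ge N (rt_norm K x)) (FF_nonneg M (rt K x))
    refine le_trans (le_of_eq ?_) h4
    unfold GF
    ring
  have h5 : (N : ℝ) ^ 4 / 16 ≤ (N : ℝ) ^ 2 * ((N : ℝ) ^ 2 - 1) / 12 := by
    nlinarith [mul_nonneg (sq_nonneg (N : ℝ)) (show (0 : ℝ) ≤ (N : ℝ) ^ 2 - 4 by nlinarith)]
  have h6 : (N : ℝ) ^ 4 / 16 * ((K : ℝ) / (4 * (M : ℝ) ^ 3)) ≤
      (N : ℝ) ^ 2 * ((N : ℝ) ^ 2 - 1) / 12 * (∑ x : Fin K, GF M (rt K x)) :=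
    mul_le_mul h5 h1 (by positivity) (le_trans (by positivity) h5)
  have h7 : (N : ℝ) ^ 6 / 24 * (∑ x : Fin K, GF M (rt K x) * ‖rt K x - 1‖ ^ 2) ≤
      (N : ℝ) ^ 6 / 24 * (16 * K / (M : ℝ) ^ 5) :=
    mul_le_mul_of_nonneg_left h2 (by positivity)
  refine le_trans ?_ ((sub_le_sub h6 h7).trans h3)
  have h8 : (10 : ℝ) * N ≤ M := by exact_mod_cast hM
  have h9 : (100 : ℝ) * (N : ℝ) ^ 2 ≤ (M : ℝ) ^ 2 := by nlinarith
  have e1 : (N : ℝ) ^ 4 / 16 * ((K : ℝ) / (4 * (M : ℝ) ^ 3)) -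
      (N : ℝ) ^ 6 / 24 * (16 * K / (M : ℝ) ^ 5) =
      (N : ℝ) ^ 4 * K / (M : ℝ) ^ 5 * ((M : ℝ) ^ 2 / 64 - 2 / 3 * (N : ℝ) ^ 2) := by
    field_simp
    ring
  have e2 : (N : ℝ) ^ 4 / (128 * (M : ℝ) ^ 3) * K =
      (N : ℝ) ^ 4 * K / (M : ℝ) ^ 5 * ((M : ℝ) ^ 2 / 128) := by
    field_simp
  rw [e1, e2]
  refine mul_le_mul_of_nonneg_left ?_ (by positivity)
  nlinarith

lemma E_up (hNK : N ≤ K) (hK0 : 0 < K) (f : ℂ → ℝ) (hf : ∀ w, 0 ≤ f w) :
    EG N K (YY f) ≤ (N : ℝ) ^ 4 / 12 * ((∑ x : Fin K, f (rt K x) * ‖rt K x - 1‖ ^ 2) / K) := by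
  have hK1 : (0 : ℝ) < K := by exact_mod_cast hK0
  rw [EG_YY hNK hK0, ← mul_div_assoc]
  refine div_le_div_of_nonneg_right ?_ hK1.le
  rw [Finset.mul_sum]
  refine Finset.sum_le_sum fun x _ => ?_
  have h4 := mul_le_mul_of_nonneg_left (rho_le N (rt_norm K x)) (hf (rt K x))
  refine h4.trans ?_
  have h5 : (N : ℝ) ^ 2 * ((N : ℝ) ^ 2 - 1) / 12 ≤ (N : ℝ) ^ 4 / 12 := by nlinarith [sq_nonneg (N : ℝ)]
  have h6 : 0 ≤ f (rt K x) * ‖rt K x - 1‖ ^ 2 := mul_nonneg (hf _) (by positivity)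
  nlinarith

lemma E_le (hM : 1 ≤ M) (hMK : M ≤ K) (hNK : N ≤ K) :
    EG N K (YY (FF M)) ≤ (N : ℝ) ^ 4 / (3 * (M : ℝ) ^ 3) := by
  have hM0 : (0 : ℝ) < M := by exact_mod_cast hM
  have hK0 : (0 : ℝ) < K := by exact_mod_cast (show 0 < K by omega)
  refine (E_up hNK (by omega) (FF M) (FF_nonneg M)).trans ?_
  have h1 : (∑ x : Fin K, FF M (rt K x) * ‖rt K x - 1‖ ^ 2) / K ≤ 4 / (M : ℝ) ^ 3 := by
    rw [div_le_iff₀ hK0]
    refine (GF_le hM hMK).trans (le_of_eq ?_)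
    ring
  refine (mul_le_mul_of_nonneg_left h1 (by positivity)).trans (le_of_eq ?_)
  field_simp
  ring

lemma GF_nonneg (M : ℕ) (w : ℂ) : 0 ≤ GF M w := mul_nonneg (FF_nonneg M w) (by positivity)

lemma EG_GF_le (hM : 1 ≤ M) (hMK : M ≤ K) (hNK : N ≤ K) :
    EG N K (YY (GF M)) ≤ 4 * (N : ℝ) ^ 4 / (3 * (M : ℝ) ^ 5) := by
  have hM0 : (0 : ℝ) < M := by exact_mod_cast hM
  have hK0 : (0 : ℝ) < K := by exact_mod_cast (show 0 < K by omega)
  refine (E_up hNK (by omega) (GF M) (GF_nonneg M)).trans ?_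
  have h1 : (∑ x : Fin K, GF M (rt K x) * ‖rt K x - 1‖ ^ 2) / K ≤ 16 / (M : ℝ) ^ 5 := by
    rw [div_le_iff₀ hK0]
    refine (GF2_le hM hMK).trans (le_of_eq ?_)
    ring
  refine (mul_le_mul_of_nonneg_left h1 (by positivity)).trans (le_of_eq ?_)
  field_simp
  ring

lemma E2_le (hM : 1 ≤ M) (hMK : M ≤ K) (hNK : N ≤ K) :
    EG N K (fun z => YY (FF M) z ^ 2) ≤
      EG N K (YY (FF M)) ^ 2 + EG N K (YY (FF M)) * (4 * N / M + 2) := by
  have hM0 : (0 : ℝ) < M := by exact_mod_cast hM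
  have hK0 : (0 : ℝ) < K := by exact_mod_cast (show 0 < K by omega)
  have h := second_le (N := N) hNK (show 0 < K by omega) (FF M)
    (fun w hw => ⟨FF_nonneg M w, FF_le_one hM hw⟩) (S := (K : ℝ) / M)
    (fun x => by
      rw [trans_left (by omega) (FF M) x, ← sum_PhR hM hMK]
      exact Finset.sum_le_sum fun y _ => FF_le hM (rt_norm K y))
    (fun y => by
      rw [trans_right (by omega) (FF M) y, ← sum_PhR hM hMK]
      exact Finset.sum_le_sum fun y _ => FF_le hM (rt_norm K y))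
  have e : 4 * ((N : ℝ) / K) * (K / M) + 2 = 4 * N / M + 2 := by
    field_simp
  rw [e] at h
  exact h

/-- the statistic of the pairs is a trigonometric polynomial -/
lemma TP_YY {n : ℕ} {μ : ℂ} {f : ℂ → ℝ} (hf : LP n μ (fun w => (f w : ℂ))) :
    TP n (fun z : Fin N → ℂ => ((YY f z : ℝ) : ℂ)) := by
  have h : TP n (fun z : Fin N → ℂ => ∑ i, ∑ j, if i = j then (0 : ℂ) else
      (f (z i * (starRingEnd ℂ) (z j)) : ℂ)) := by
    refine TP.sum _ _ fun i _ => TP.sum _ _ fun j _ => ?_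
    by_cases hij : i = j
    · simp only [if_pos hij]
      exact TP.const n 0
    · simp only [if_neg hij]
      exact hf.tp i j
  refine TP.congr _ _ h fun z _ => ?_
  unfold YY
  push_cast
  refine Finset.sum_congr rfl fun i _ => Finset.sum_congr rfl fun j _ => ?_
  split_ifs <;> simp

section cls

variable {R : ℕ} {ν : Measure (Fin N → ℂ)}

lemma real_int [IsProbabilityMeasure ν] (h1 : ∀ᵐ z ∂ν, ∀ i, ‖z i‖ = 1) {n : ℕ}
    {f : (Fin N → ℂ) → ℝ} (hf : TP n (fun z => (f z : ℂ))) : Integrable f ν := by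
  have := (hf.integrable h1).re
  simpa using this

lemma real_mean (hN : 0 < N) (hK : N + R ≤ K) [IsProbabilityMeasure ν]
    (h1 : ∀ᵐ z ∂ν, ∀ i, ‖z i‖ = 1)
    (hm : ∀ F G : MvPolynomial (Fin N) ℂ, F.totalDegree ≤ R → G.totalDegree ≤ R →
      ∫ z, MvPolynomial.eval z F * (starRingEnd ℂ) (MvPolynomial.eval z G) ∂ν =
        cue (fun z => MvPolynomial.eval z F * (starRingEnd ℂ) (MvPolynomial.eval z G)))
    {f : (Fin N → ℂ) → ℝ} (hf : TP R (fun z => (f z : ℂ))) : ∫ z, f z ∂ν = EG N K f := by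
  have h := hf.mean hN hK h1 hm
  have h2 : ∫ z, ((f z : ℝ) : ℂ) ∂ν = ((∫ z, f z ∂ν : ℝ) : ℂ) := integral_ofReal
  rw [h2] at h
  have e : E0 N K (fun z => (f z : ℂ)) = ((EG N K f : ℝ) : ℂ) := by
    unfold E0 EG
    push_cast
    rfl
  rw [e] at h
  exact_mod_cast h

lemma far_meas (x : ℝ) : MeasurableSet {z : Fin N → ℂ | ∀ i j, i ≠ j → x < ‖z i - z j‖} := by
  have e : {z : Fin N → ℂ | ∀ i j, i ≠ j → x < ‖z i - z j‖} =
      ⋂ i, ⋂ j, {z : Fin N → ℂ | i ≠ j → x < ‖z i - z j‖} := by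
    ext z
    simp
  rw [e]
  refine MeasurableSet.iInter fun i => MeasurableSet.iInter fun j => ?_
  by_cases hij : i = j
  · have : {z : Fin N → ℂ | i ≠ j → x < ‖z i - z j‖} = Set.univ := by
      ext z
      simp [hij]
    rw [this]
    exact MeasurableSet.univ
  · have : {z : Fin N → ℂ | i ≠ j → x < ‖z i - z j‖} = {z : Fin N → ℂ | x < ‖z i - z j‖} := by
      ext z
      simp [hij]
    rw [this]
    exact (isOpen_lt continuous_const (by fun_prop)).measurableSet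

lemma pair_norm {z : Fin N → ℂ} (hz : ∀ i, ‖z i‖ = 1) (i j : Fin N) :
    ‖z i * (starRingEnd ℂ) (z j)‖ = 1 ∧ ‖z i * (starRingEnd ℂ) (z j) - 1‖ = ‖z i - z j‖ := by
  constructor
  · rw [norm_mul, Complex.norm_conj, hz, hz, one_mul]
  · have e : z i * (starRingEnd ℂ) (z j) - 1 = (z i - z j) * (starRingEnd ℂ) (z j) := by
      rw [sub_mul, mul_conj_unit (hz j)]
    rw [e, norm_mul, Complex.norm_conj, hz, mul_one]

lemma YY_nonneg {f : ℂ → ℝ} (hf : ∀ w, 0 ≤ f w) (z : Fin N → ℂ) : 0 ≤ YY f z := by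
  unfold YY
  refine Finset.sum_nonneg fun i _ => Finset.sum_nonneg fun j _ => ?_
  split_ifs
  · exact le_rfl
  · exact hf _

/-- **no close pairs** -/
theorem far_le (hN : 2 ≤ N) (hM : 10 * N ≤ M) (hR : 6 * (M - 1) ≤ R) {x : ℝ} (hx : 0 < x)
    [IsProbabilityMeasure ν] (h1 : ∀ᵐ z ∂ν, ∀ i, ‖z i‖ = 1)
    (hm : ∀ F G : MvPolynomial (Fin N) ℂ, F.totalDegree ≤ R → G.totalDegree ≤ R →
      ∫ z, MvPolynomial.eval z F * (starRingEnd ℂ) (MvPolynomial.eval z G) ∂ν =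
        cue (fun z => MvPolynomial.eval z F * (starRingEnd ℂ) (MvPolynomial.eval z G))) :
    ν.real {z | ∀ i j, i ≠ j → x < ‖z i - z j‖} ≤
      308 * (M : ℝ) ^ 3 / (N : ℝ) ^ 4 + 342 / (M * x) ^ 2 := by
  classical
  have hN0 : (0 : ℝ) < N := by exact_mod_cast (show 0 < N by omega)
  have hM0 : (0 : ℝ) < M := by exact_mod_cast (show 0 < M by omega)
  have hM1 : 1 ≤ M := by omega
  set K := N + R with hK
  have hK3 : 3 * M < K := by omega
  set E := EG N K (YY (FF M)) with hE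
  have hEge := E_ge hN hM hK3
  have hEpos : 0 < E := lt_of_lt_of_le (by positivity) hEge
  obtain ⟨μ, hF⟩ := FF_lp hM1
  obtain ⟨μ', hG⟩ := GF_lp hM1
  have tY : TP (3 * (M - 1)) (fun z : Fin N → ℂ => ((YY (FF M) z : ℝ) : ℂ)) := TP_YY hF
  have tG : TP (3 * (M - 1) + 1) (fun z : Fin N → ℂ => ((YY (GF M) z : ℝ) : ℂ)) := TP_YY hG
  have tY2 : TP R (fun z : Fin N → ℂ => (((YY (FF M) z) ^ 2 : ℝ) : ℂ)) := by
    refine TP.mono (show 3 * (M - 1) + 3 * (M - 1) ≤ R by omega) ?_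
    refine TP.congr _ _ (tY.mul tY) fun z _ => ?_
    push_cast
    ring
  have tY' := tY.mono (show 3 * (M - 1) ≤ R by omega)
  have tG' := tG.mono (show 3 * (M - 1) + 1 ≤ R by omega)
  have m1 := real_mean (by omega) (le_refl K) h1 hm tY'
  have m2 := real_mean (by omega) (le_refl K) h1 hm tG'
  have m3 := real_mean (by omega) (le_refl K) h1 hm tY2
  have i1 := real_int h1 tY'
  have i2 := real_int h1 tG'
  have i3 := real_int h1 tY2
  set A : Set (Fin N → ℂ) := {z | ∀ i j, i ≠ j → x < ‖z i - z j‖} with hA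
  have hAm : MeasurableSet A := far_meas x
  have key : E ^ 2 * ν.real A ≤ E ^ 2 - 2 * E * E + EG N K (fun z => YY (FF M) z ^ 2) +
      2 * E / x ^ 2 * EG N K (YY (GF M)) := by
    have e1 : E ^ 2 * ν.real A = ∫ z, E ^ 2 * A.indicator (fun _ => (1 : ℝ)) z ∂ν := by
      rw [integral_const_mul, integral_indicator_const _ hAm, smul_eq_mul, mul_one]
    have e2 : E ^ 2 - 2 * E * E + EG N K (fun z => YY (FF M) z ^ 2) +
      2 * E / x ^ 2 * EG N K (YY (GF M)) = ∫ z, (E ^ 2 - 2 * E * YY (FF M) z +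
        YY (FF M) z ^ 2 + 2 * E / x ^ 2 * YY (GF M) z) ∂ν := by
      have j1 : Integrable (fun z => 2 * E * YY (FF M) z) ν := i1.const_mul _
      have j2 : Integrable (fun z => 2 * E / x ^ 2 * YY (GF M) z) ν := i2.const_mul _
      have j3 : Integrable (fun _ : Fin N → ℂ => E ^ 2) ν := integrable_const _
      have j4 : Integrable (fun z => E ^ 2 - 2 * E * YY (FF M) z) ν := j3.sub j1
      have j5 : Integrable (fun z => E ^ 2 - 2 * E * YY (FF M) z + YY (FF M) z ^ 2) ν := j4.add i3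
      have s1 := integral_add j5 j2
      have s2 := integral_add j4 i3
      have s3 := integral_sub j3 j1
      rw [s1, s2, s3, integral_const_mul, integral_const_mul, m1, m2, m3]
      simp [← hE]
    rw [e1, e2]
    refine integral_mono_ae ?_ ?_ ?_
    · exact ((integrable_const (1 : ℝ)).indicator hAm).const_mul _
    · exact (((integrable_const _).sub (i1.const_mul _)).add i3).add (i2.const_mul _)
    · filter_upwards [h1] with z hz
      have g1 := YY_nonneg (FF_nonneg M) z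
      have g2 := YY_nonneg (GF_nonneg M) z
      by_cases hzA : z ∈ A
      · rw [Set.indicator_of_mem hzA]
        have h3 : YY (FF M) z ≤ YY (GF M) z / x ^ 2 := by
          unfold YY
          rw [Finset.sum_div]
          refine Finset.sum_le_sum fun i _ => ?_
          rw [Finset.sum_div]
          refine Finset.sum_le_sum fun j _ => ?_
          by_cases hij : i = j
          · rw [if_pos hij, if_pos hij, zero_div]
          · rw [if_neg hij, if_neg hij, le_div_iff₀ (by positivity)]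
            unfold GF
            refine mul_le_mul_of_nonneg_left ?_ (FF_nonneg M _)
            rw [(pair_norm hz i j).2]
            exact pow_le_pow_left₀ hx.le (hzA i j hij).le 2
        have h4 : 2 * E / x ^ 2 * YY (GF M) z = 2 * E * (YY (GF M) z / x ^ 2) := by ring
        rw [h4]
        have h5 := mul_le_mul_of_nonneg_left h3 (show 0 ≤ 2 * E by positivity)
        nlinarith [sq_nonneg (YY (FF M) z)]
      · rw [Set.indicator_of_notMem hzA]
        have h4 : 0 ≤ 2 * E / x ^ 2 * YY (GF M) z := by positivity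
        nlinarith [sq_nonneg (E - YY (FF M) z)]
  have b2 := E2_le (N := N) hM1 (show M ≤ K by omega) (show N ≤ K by omega)
  have b3 := EG_GF_le (N := N) hM1 (show M ≤ K by omega) (show N ≤ K by omega)
  rw [← hE] at b2
  have hNM : (4 : ℝ) * N / M + 2 ≤ 12 / 5 := by
    have h8 : (10 : ℝ) * N ≤ M := by exact_mod_cast hM
    have : (4 : ℝ) * N / M ≤ 2 / 5 := by
      rw [div_le_iff₀ hM0]
      linarith
    linarith
  have b4 : E ^ 2 * ν.real A ≤ E * (12 / 5) + 2 * E / x ^ 2 * (4 * (N : ℝ) ^ 4 / (3 * (M : ℝ) ^ 5)) := by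
    have h5 := mul_le_mul_of_nonneg_left hNM hEpos.le
    have h6 := mul_le_mul_of_nonneg_left b3 (show 0 ≤ 2 * E / x ^ 2 by positivity)
    nlinarith
  have b5 : E * ν.real A ≤ 12 / 5 + 8 * (N : ℝ) ^ 4 / (3 * (M : ℝ) ^ 5 * x ^ 2) := by
    have h6 : E * (E * ν.real A) ≤ E * (12 / 5 + 8 * (N : ℝ) ^ 4 / (3 * (M : ℝ) ^ 5 * x ^ 2)) := by
      refine le_trans (le_of_eq (by ring)) (b4.trans (le_of_eq ?_))
      field_simp
      ring
    exact le_of_mul_le_mul_left h6 hEpos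
  have hP0 : 0 ≤ ν.real A := measureReal_nonneg
  have b6 : (N : ℝ) ^ 4 / (128 * (M : ℝ) ^ 3) * ν.real A ≤
      12 / 5 + 8 * (N : ℝ) ^ 4 / (3 * (M : ℝ) ^ 5 * x ^ 2) :=
    (mul_le_mul_of_nonneg_right hEge hP0).trans b5
  have b7 : ν.real A ≤ (12 / 5 + 8 * (N : ℝ) ^ 4 / (3 * (M : ℝ) ^ 5 * x ^ 2)) *
      (128 * (M : ℝ) ^ 3 / (N : ℝ) ^ 4) := by
    have h6 : 0 < (N : ℝ) ^ 4 / (128 * (M : ℝ) ^ 3) := by positivity
    have h7 : ν.real A ≤ (12 / 5 + 8 * (N : ℝ) ^ 4 / (3 * (M : ℝ) ^ 5 * x ^ 2)) /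
        ((N : ℝ) ^ 4 / (128 * (M : ℝ) ^ 3)) := by
      rw [le_div_iff₀ h6, mul_comm]
      exact b6
    refine h7.trans (le_of_eq ?_)
    field_simp
  refine b7.trans ?_
  have e3 : (12 / 5 + 8 * (N : ℝ) ^ 4 / (3 * (M : ℝ) ^ 5 * x ^ 2)) *
      (128 * (M : ℝ) ^ 3 / (N : ℝ) ^ 4) =
      (1536 / 5) * ((M : ℝ) ^ 3 / (N : ℝ) ^ 4) + (1024 / 3) * (1 / (M * x) ^ 2) := by
    field_simp
    ring
  have e4 : 308 * (M : ℝ) ^ 3 / (N : ℝ) ^ 4 + 342 / (M * x) ^ 2 =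
      308 * ((M : ℝ) ^ 3 / (N : ℝ) ^ 4) + 342 * (1 / (M * x) ^ 2) := by ring
  rw [e3, e4]
  have p1 : 0 ≤ (M : ℝ) ^ 3 / (N : ℝ) ^ 4 := by positivity
  have p2 : 0 ≤ 1 / ((M : ℝ) * x) ^ 2 := by positivity
  linarith

end cls

end

end Pool.Agent.H481.MG
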