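import Pool.Agent.H481.SB9
import Pool.Agent.H481.MG2

/-!
The mass of the configurations which use prescribed sources.
-/

open MvPolynomial Finset MeasureTheory
open Pool.Agent.R319.UM
open scoped Matrix

namespace Pool.Agent.H481.MG

open SB

set_option linter.unusedSectionVars false

noncomputable section

section general

variable {N : ℕ} {X : Type} [Fintype X] {ι : Type} [Fintype ι] [DecidableEq ι]

/-- the moments of a weight -/
def mom (pos : X → ℂ) (N : ℕ) (T : X → ℂ) : Matrix (Fin N) (Fin N) ℂ := fun a b =>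
  ∑ x, T x * (pos x ^ (a : ℕ) * (starRingEnd ℂ) (pos x ^ (b : ℕ)))

lemma sum_det (pos : X → ℂ) (T : X → ℂ) :
    ∑ x : Fin N → X, (∏ k, T (x k)) * (V2 (fun k => pos (x k)) : ℂ) =
      (N.factorial : ℂ) * (mom pos N T).det := by
  have h2 := SB.sum_V2 (N := N) pos (fun _ => T)
  have h3 : ∀ σ : Equiv.Perm (Fin N), ∑ ρ : Equiv.Perm (Fin N), ((Equiv.Perm.sign ρ : ℤ) : ℂ) *
      ∏ k, ∑ x, T x * (pos x ^ (σ k : ℕ) * (starRingEnd ℂ) (pos x ^ (σ (ρ k) : ℕ))) =
      (mom pos N T).det := by
    intro σ
    rw [← Matrix.det_submatrix_equiv_self σ, ← Matrix.det_transpose, Matrix.det_apply']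
    rfl
  simp only [h3] at h2
  rw [Finset.sum_const, Finset.card_univ, Fintype.card_perm, Fintype.card_fin,
    nsmul_eq_mul] at h2
  exact h2

/-- the vectors of the powers -/
def VX (pos : X → ℂ) (N : ℕ) (u : ι → X) : Matrix (Fin N) ι ℂ := fun a t => pos (u t) ^ (a : ℕ)

open Classical in
/-- the weight with additional masses at `u` -/
def T1 (β : X → ℂ) (s : ℂ) (u : ι → X) (x : X) : ℂ := β x + s * if ∃ t, u t = x then 1 else 0

variable {pos : X → ℂ} {β : X → ℂ} {u : ι → X}

lemma mom_T1 (hβ : mom pos N β = 1) (hu : Function.Injective u) (s : ℂ) :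
    mom pos N (T1 β s u) = 1 + s • (VX pos N u * (VX pos N u)ᴴ) := by
  classical
  rw [← hβ]
  ext a b
  rw [Matrix.add_apply, Matrix.smul_apply, Matrix.mul_apply, smul_eq_mul]
  unfold mom T1
  have e : ∀ x : X, (β x + s * (if ∃ t, u t = x then (1 : ℂ) else 0)) *
      (pos x ^ (a : ℕ) * (starRingEnd ℂ) (pos x ^ (b : ℕ))) =
      β x * (pos x ^ (a : ℕ) * (starRingEnd ℂ) (pos x ^ (b : ℕ))) +
      s * ((if ∃ t, u t = x then (1 : ℂ) else 0) *
        (pos x ^ (a : ℕ) * (starRingEnd ℂ) (pos x ^ (b : ℕ)))) := by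
    intro x
    ring
  simp only [e]
  rw [Finset.sum_add_distrib]
  congr 1
  rw [← Finset.mul_sum]
  congr 1
  have e2 : ∀ x : X, (if ∃ t, u t = x then (1 : ℂ) else 0) *
      (pos x ^ (a : ℕ) * (starRingEnd ℂ) (pos x ^ (b : ℕ))) =
      ∑ t, if u t = x then (pos x ^ (a : ℕ) * (starRingEnd ℂ) (pos x ^ (b : ℕ))) else 0 := by
    intro x
    by_cases hx : ∃ t, u t = x
    · obtain ⟨t, ht⟩ := hx
      rw [if_pos ⟨t, ht⟩, one_mul, Finset.sum_eq_single t]
      · rw [if_pos ht]
      · intro t' _ hne
        rw [if_neg]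
        intro h
        exact hne (hu (h.trans ht.symm))
      · intro h
        exact absurd (Finset.mem_univ t) h
    · rw [if_neg hx, zero_mul]
      symm
      refine Finset.sum_eq_zero fun t _ => ?_
      rw [if_neg]
      intro h
      exact hx ⟨t, h⟩
  simp only [e2]
  rw [Finset.sum_comm]
  refine Finset.sum_congr rfl fun t _ => ?_
  rw [Finset.sum_ite_eq univ (u t), if_pos (Finset.mem_univ _)]
  rw [Matrix.conjTranspose_apply]
  rfl

open Classical in
/-- the number of the points in the set -/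
def nU (u : ι → X) (x : Fin N → X) : ℕ := (univ.filter fun i => ∃ t, u t = x i).card

lemma prod_T1 (hβ0 : ∀ t, β (u t) = 0) (s : ℂ) (x : Fin N → X) :
    ∏ i, T1 β s u (x i) = s ^ nU u x * ∏ i, T1 β 1 u (x i) := by
  classical
  have e : ∀ i, T1 β s u (x i) = (if ∃ t, u t = x i then s else 1) * T1 β 1 u (x i) := by
    intro i
    unfold T1
    by_cases h : ∃ t, u t = x i
    · obtain ⟨t, ht⟩ := h
      rw [if_pos ⟨t, ht⟩, if_pos ⟨t, ht⟩, ← ht, hβ0 t]
      ring
    · rw [if_neg h, if_neg h]
      ring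
  simp only [e]
  rw [Finset.prod_mul_distrib, Finset.prod_ite, Finset.prod_const, Finset.prod_const_one, mul_one]
  rfl

lemma nU_le {x : Fin N → X} (hx : Function.Injective x) :
    nU u x ≤ Fintype.card ι := by
  classical
  unfold nU
  calc (univ.filter fun i => ∃ t, u t = x i).card
      = ((univ.filter fun i => ∃ t, u t = x i).image x).card :=
        (Finset.card_image_of_injective _ hx).symm
    _ ≤ (univ.image u).card := by
        refine Finset.card_le_card fun y hy => ?_
        rw [Finset.mem_image] at hy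
        obtain ⟨i, hi, rfl⟩ := hy
        obtain ⟨t, ht⟩ := (Finset.mem_filter.1 hi).2
        exact Finset.mem_image.2 ⟨t, Finset.mem_univ _, ht⟩
    _ ≤ Fintype.card ι := by
        refine Finset.card_image_le.trans ?_
        rw [card_univ]

lemma nU_eq (hu : Function.Injective u) {x : Fin N → X}
    (hx : Function.Injective x) : nU u x = Fintype.card ι ↔ ∀ t, ∃ i, x i = u t := by
  classical
  have h1 : nU u x = ((univ.filter fun i => ∃ t, u t = x i).image x).card := by
    unfold nU
    exact (Finset.card_image_of_injective _ hx).symm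
  have h2 : Fintype.card ι = (univ.image u).card := by
    rw [Finset.card_image_of_injective _ hu, card_univ]
  have hsub : (univ.filter fun i => ∃ t, u t = x i).image x ⊆ univ.image u := by
    intro y hy
    rw [Finset.mem_image] at hy
    obtain ⟨i, hi, rfl⟩ := hy
    obtain ⟨t, ht⟩ := (Finset.mem_filter.1 hi).2
    exact Finset.mem_image.2 ⟨t, Finset.mem_univ _, ht⟩
  constructor
  · intro h t
    have heq : (univ.filter fun i => ∃ t, u t = x i).image x = univ.image u :=
      Finset.eq_of_subset_of_card_le hsub (by rw [← h1, ← h2, h])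
    have hmem : u t ∈ (univ.filter fun i => ∃ t, u t = x i).image x := by
      rw [heq]
      exact Finset.mem_image_of_mem u (Finset.mem_univ t)
    obtain ⟨i, _, hi⟩ := Finset.mem_image.1 hmem
    exact ⟨i, hi⟩
  · intro h
    rw [h1, h2]
    congr 1
    refine Finset.Subset.antisymm hsub fun y hy => ?_
    obtain ⟨t, _, rfl⟩ := Finset.mem_image.1 hy
    obtain ⟨i, hi⟩ := h t
    exact Finset.mem_image.2 ⟨i, Finset.mem_filter.2 ⟨Finset.mem_univ _, t, hi.symm⟩, hi⟩

open Classical in
/-- the indicator function of the configurations which use all the positions `u` -/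
def usd (u : ι → X) (x : Fin N → X) : ℂ := if ∀ t, ∃ k, x k = u t then 1 else 0

open Classical in
/-- the indicator function of `x ∘ e = u` -/
def hit (e : ι → Fin N) (u : ι → X) (x : Fin N → X) : ℂ := ∏ t, if x (e t) = u t then 1 else 0

lemma hit_one {e : ι → Fin N} {x : Fin N → X} (h : ∀ t, x (e t) = u t) : hit e u x = 1 := by
  unfold hit
  exact Finset.prod_eq_one fun t _ => if_pos (h t)

lemma hit_zero {e : ι → Fin N} {x : Fin N → X} {t : ι} (h : x (e t) ≠ u t) : hit e u x = 0 := by
  unfold hit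
  exact Finset.prod_eq_zero (i := t) (Finset.mem_univ t) (if_neg h)

/-- **the mass of the configurations through prescribed points** -/
theorem gram_mass (hβ : mom pos N β = 1) (hβ0 : ∀ t, β (u t) = 0) (hu : Function.Injective u) :
    ∑ x : Fin N → X, usd u x *
      ((∏ k, T1 β 1 u (x k)) * (V2 (fun k => pos (x k)) : ℂ)) =
      (N.factorial : ℂ) * ((VX pos N u)ᴴ * VX pos N u).det := by
  set q := Fintype.card ι with hq
  set G := (VX pos N u)ᴴ * VX pos N u with hG
  have inj : ∀ x : Fin N → X, (V2 (fun k => pos (x k)) : ℂ) ≠ 0 → Function.Injective x := by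
    intro x hx
    by_contra hni
    apply hx
    rw [V2_zero]
    · simp
    · intro h
      apply hni
      intro a b hab
      exact h (by simp only [hab])
  have key : ∀ ε : ℝ, 0 < ε →
      ∑ x : Fin N → X, (ε : ℂ) ^ (q - nU u x) *
        ((∏ k, T1 β 1 u (x k)) * (V2 (fun k => pos (x k)) : ℂ)) =
        (N.factorial : ℂ) * ((ε : ℂ) • (1 : Matrix ι ι ℂ) + G).det := by
    intro ε hε
    have hεc : (ε : ℂ) ≠ 0 := by exact_mod_cast hε.ne'
    have h1 := sum_det (N := N) pos (T1 β (ε : ℂ)⁻¹ u)
    rw [mom_T1 hβ hu, ← Matrix.smul_mul, Matrix.det_one_add_mul_comm, Matrix.mul_smul] at h1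
    have e4 : (ε : ℂ) • (1 : Matrix ι ι ℂ) + G = (ε : ℂ) • (1 + ((ε : ℂ)⁻¹) • G) := by
      rw [smul_add, smul_smul, mul_inv_cancel₀ hεc, one_smul]
    rw [e4, Matrix.det_smul, ← hq, mul_left_comm, ← h1, Finset.mul_sum]
    refine Finset.sum_congr rfl fun x _ => ?_
    by_cases hx : (V2 (fun k => pos (x k)) : ℂ) = 0
    · rw [hx]
      ring
    · have hle := nU_le (u := u) (inj x hx)
      rw [prod_T1 hβ0 (ε : ℂ)⁻¹ x]
      have e3 : (ε : ℂ) ^ q = (ε : ℂ) ^ (q - nU u x) * (ε : ℂ) ^ nU u x := by
        rw [← pow_add]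
        congr 1
        omega
      rw [e3, inv_pow]
      field_simp
  have cL : Continuous fun ε : ℝ => ∑ x : Fin N → X, (ε : ℂ) ^ (q - nU u x) *
        ((∏ k, T1 β 1 u (x k)) * (V2 (fun k => pos (x k)) : ℂ)) := by
    refine continuous_finsetSum _ fun x _ => ?_
    exact (Complex.continuous_ofReal.pow _).mul continuous_const
  have cR : Continuous fun ε : ℝ =>
      (N.factorial : ℂ) * ((ε : ℂ) • (1 : Matrix ι ι ℂ) + G).det := by
    refine continuous_const.mul (Continuous.matrix_det ?_)
    fun_prop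
  have hlim := tendsto_nhds_unique
    (((cL.tendsto 0).mono_left (nhdsWithin_le_nhds (s := Set.Ioi (0 : ℝ)))).congr' (by
        filter_upwards [self_mem_nhdsWithin] with ε hε
        exact key ε hε))
    ((cR.tendsto 0).mono_left (nhdsWithin_le_nhds (s := Set.Ioi (0 : ℝ))))
  rw [Complex.ofReal_zero, zero_smul, zero_add] at hlim
  rw [← hlim]
  refine Finset.sum_congr rfl fun x _ => ?_
  by_cases hx : (V2 (fun k => pos (x k)) : ℂ) = 0
  · rw [hx]
    ring
  · have hinj := inj x hx
    have hle := nU_le (u := u) hinj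
    congr 1
    unfold usd
    by_cases h : ∀ t, ∃ i, x i = u t
    · rw [if_pos h, (nU_eq hu hinj).2 h, ← hq, Nat.sub_self, pow_zero]
    · rw [if_neg h]
      have hne : nU u x ≠ q := fun h2 => h ((nU_eq hu hinj).1 h2)
      rw [zero_pow]
      omega

/-! ### the slots -/

open Classical in
/-- weights with prescribed slots -/
def pins (e : ι → Fin N) (u : ι → X) (T : X → ℂ) : Fin N → X → ℂ := fun k x =>
  if h : ∃ t, e t = k then (if x = u h.choose then 1 else 0) else T x

open Classical in
lemma pins_prod {e : ι → Fin N} (he : Function.Injective e) (T : X → ℂ) (x : Fin N → X) :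
    ∏ k, pins e u T k (x k) = hit e u x * ∏ k ∈ (univ.image e)ᶜ, T (x k) := by
  unfold hit
  rw [← Finset.prod_mul_prod_compl (univ.image e) (fun k => pins e u T k (x k))]
  congr 1
  · rw [Finset.prod_image fun a _ b _ hab => he hab]
    refine Finset.prod_congr rfl fun t _ => ?_
    unfold pins
    have h : ∃ t', e t' = e t := ⟨t, rfl⟩
    rw [dif_pos h]
    have : h.choose = t := he h.choose_spec
    rw [this]
  · refine Finset.prod_congr rfl fun k hk => ?_
    rw [Finset.mem_compl] at hk
    unfold pins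
    rw [dif_neg]
    rintro ⟨t, ht⟩
    exact hk (Finset.mem_image.2 ⟨t, Finset.mem_univ _, ht⟩)

open Classical in
/-- summation over the slots -/
lemma sum_slots {x : Fin N → X} (hx : Function.Injective x) :
    ∑ e : ι → Fin N, hit e u x = usd u x := by
  unfold hit usd
  have h := Finset.prod_univ_sum (fun _ : ι => (univ : Finset (Fin N)))
    (fun t k => if x k = u t then (1 : ℂ) else 0)
  rw [Fintype.piFinset_univ] at h
  rw [← h]
  have e1 : ∀ t, ∑ k : Fin N, (if x k = u t then (1 : ℂ) else 0) =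
      if ∃ k, x k = u t then 1 else 0 := by
    intro t
    by_cases h : ∃ k, x k = u t
    · obtain ⟨k0, hk0⟩ := h
      rw [if_pos ⟨k0, hk0⟩, Finset.sum_eq_single k0]
      · rw [if_pos hk0]
      · intro k _ hk
        rw [if_neg]
        intro hxk
        exact hk (hx (hxk.trans hk0.symm))
      · simp
    · rw [if_neg h]
      push Not at h
      exact Finset.sum_eq_zero fun k _ => if_neg (h k)
  simp only [e1]
  by_cases h : ∀ t, ∃ k, x k = u t
  · rw [if_pos h]
    exact Finset.prod_eq_one fun t _ => if_pos (h t)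
  · rw [if_neg h]
    push Not at h
    obtain ⟨t, ht⟩ := h
    refine Finset.prod_eq_zero (Finset.mem_univ t) (if_neg ?_)
    rintro ⟨k, hk⟩
    exact ht k hk

open Classical in
lemma slot_T1 (hβ0 : ∀ t, β (u t) = 0) {x : Fin N → X} (hx : Function.Injective x)
    (e : ι → Fin N) :
    hit e u x * ∏ k ∈ (univ.image e)ᶜ, β (x k) = hit e u x * ∏ k, T1 β 1 u (x k) := by
  by_cases h : ∀ t, x (e t) = u t
  · congr 1
    rw [← Finset.prod_mul_prod_compl (univ.image e) (fun k => T1 β 1 u (x k))]
    have a1 : ∏ k ∈ univ.image e, T1 β 1 u (x k) = 1 := by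
      refine Finset.prod_eq_one fun k hk => ?_
      obtain ⟨t, _, rfl⟩ := Finset.mem_image.1 hk
      unfold T1
      rw [if_pos ⟨t, (h t).symm⟩, h t, hβ0 t]
      ring
    have a2 : ∏ k ∈ (univ.image e)ᶜ, β (x k) = ∏ k ∈ (univ.image e)ᶜ, T1 β 1 u (x k) := by
      refine Finset.prod_congr rfl fun k hk => ?_
      rw [Finset.mem_compl] at hk
      unfold T1
      rw [if_neg, mul_zero, add_zero]
      rintro ⟨t, ht⟩
      apply hk
      rw [← h t] at ht
      exact Finset.mem_image.2 ⟨t, Finset.mem_univ _, hx ht⟩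
    rw [a1, one_mul, a2]
  · push Not at h
    obtain ⟨t, ht⟩ := h
    rw [hit_zero ht, zero_mul, zero_mul]

end general

end

end Pool.Agent.H481.MG
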