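import Pool.Agent.H481.MG8

/-!
The mass of the configurations which use prescribed sources, for the law with double points.
-/

open MvPolynomial Finset MeasureTheory
open Pool.Agent.R319.UM
open scoped Matrix

namespace Pool.Agent.H481.MG

open SB

set_option linter.unusedSectionVars false

noncomputable section

variable {N K M : ℕ} {ι : Type} [Fintype ι] [DecidableEq ι] (d : Data K M)

lemma V2_inj {X : Type} {pos : X → ℂ} {x : Fin N → X}
    (hx : (V2 (fun k => pos (x k)) : ℂ) ≠ 0) : Function.Injective x := by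
  by_contra hni
  apply hx
  rw [V2_zero]
  · simp
  · intro h
    apply hni
    intro a b hab
    exact h (by simp only [hab])

/-- the mass of the configurations with prescribed slots -/
theorem pins_id (hN : 0 < N) {D : ℕ} (hD : N ≤ D) (hd : d.Match D) {L : ℕ}
    {u : ι → XX K M} {c κ : ℂ}
    {θ : (Fin M → Bool) → (Fin M → Fin L) → ℂ}
    (hθ : ∀ s w, ∏ t, d.T L s w (u t) = c * θ s w)
    (hpar : ∀ y, (∃ t, src y = src (u t)) → ∃ t, y = u t)
    (hE : ∀ (S : Finset (Fin N)) (x : Fin N → XX K M), (∀ k ∈ S, ∀ t, src (x k) ≠ src (u t)) →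
      EE M L (fun s w => θ s w * ∏ k ∈ S, d.T' L w (x k)) = κ * ∏ k ∈ S, BB K M (x k))
    {e : ι → Fin N} (he : Function.Injective e) :
    ∑ x : Fin N → XX K M, hit e u x *
      (d.W L x * (V2 (fun k => d.pos (x k)) : ℂ)) =
      (c * κ) * ∑ x : Fin N → XX K M, (∏ k, pins e u (BB K M) k (x k)) *
          (V2 (fun k => d.pos (x k)) : ℂ) := by
  have hdeg : ∀ j, (VP N).degreeOf j < D := by
    intro j
    have h2 := VP_deg hN j
    omega
  have e1 : ∀ x : Fin N → XX K M, hit e u x *
      (d.W L x * (V2 (fun k => d.pos (x k)) : ℂ)) =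
      EE M L (fun s w => (c * θ s w) * ((∏ k, pins e u (d.T L s w) k (x k)) *
        (V2 (fun k => d.pos (x k)) : ℂ))) := by
    intro x
    unfold Data.W
    rw [← EE_mul', ← EE_mul]
    congr 1
    funext s w
    rw [pins_prod he]
    by_cases h : ∀ t, x (e t) = u t
    · rw [hit_one h, ← Finset.prod_mul_prod_compl (univ.image e) (fun k => d.T L s w (x k)),
        Finset.prod_image fun a _ b _ hab => he hab]
      have h2 : ∏ t, d.T L s w (x (e t)) = c * θ s w := by
        rw [← hθ]
        exact Finset.prod_congr rfl fun t _ => by rw [h t]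
      rw [h2]
      ring
    · push Not at h
      obtain ⟨t, ht⟩ := h
      rw [hit_zero ht]
      ring
  simp only [e1]
  rw [← EE_sum]
  have e2 : ∀ s w, ∑ x : Fin N → XX K M, (c * θ s w) *
      ((∏ k, pins e u (d.T L s w) k (x k)) * (V2 (fun k => d.pos (x k)) : ℂ)) =
      ∑ x : Fin N → XX K M, c * ((θ s w *
      (∏ k, pins e u (d.T' L w) k (x k))) * (V2 (fun k => d.pos (x k)) : ℂ)) := by
    intro s w
    rw [← Finset.mul_sum]
    have h := swap (D := D) d.pos d.pos (pins e u (d.T L s w)) (pins e u (d.T' L w))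
      (fun k a ha b hb => by
        unfold pins
        by_cases hki : ∃ t, e t = k
        · simp only [dif_pos hki]
        · simp only [dif_neg hki]
          exact T_mom d hd L s w ha hb) (VP N) (VP N) hdeg hdeg
    simp only [VP_eval] at h
    rw [h, Finset.mul_sum]
    refine Finset.sum_congr rfl fun x _ => ?_
    ring
  simp only [e2]
  rw [EE_sum, Finset.mul_sum]
  refine Finset.sum_congr rfl fun x _ => ?_
  rw [EE_mul]
  have e3 : EE M L (fun s w => (θ s w * (∏ k, pins e u (d.T' L w) k (x k))) *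
      (V2 (fun k => d.pos (x k)) : ℂ)) =
      (κ * ∏ k, pins e u (BB K M) k (x k)) * (V2 (fun k => d.pos (x k)) : ℂ) := by
    rw [EE_mul' _ (fun s w => θ s w * (∏ k, pins e u (d.T' L w) k (x k)))]
    by_cases hV : (V2 (fun k => d.pos (x k)) : ℂ) = 0
    · rw [hV]
      ring
    · have hinj := V2_inj hV
      congr 1
      simp only [pins_prod he]
      by_cases h : ∀ t, x (e t) = u t
      · simp only [hit_one h, one_mul]
        refine hE _ x ?_
        intro k hk t ht
        rw [Finset.mem_compl] at hk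
        obtain ⟨t', ht'⟩ := hpar (x k) ⟨t, ht⟩
        apply hk
        rw [← h t'] at ht'
        exact Finset.mem_image.2 ⟨t', Finset.mem_univ _, (hinj ht').symm⟩
      · push Not at h
        obtain ⟨t, ht⟩ := h
        simp only [hit_zero ht, zero_mul, mul_zero]
        unfold EE
        simp
  rw [e3]
  ring

/-- **the mass of the configurations which use prescribed positions** -/
theorem used_mass (hN : 0 < N) {D : ℕ} (hD : N ≤ D) (hK : D ≤ K) (hg : d.Grid) (hd : d.Match D)
    {L : ℕ} {u : ι → XX K M} (hu : Function.Injective u) (hu0 : ∀ t, BB K M (u t) = 0) {c κ : ℂ}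
    {θ : (Fin M → Bool) → (Fin M → Fin L) → ℂ}
    (hθ : ∀ s w, ∏ t, d.T L s w (u t) = c * θ s w)
    (hpar : ∀ y, (∃ t, src y = src (u t)) → ∃ t, y = u t)
    (hE : ∀ (S : Finset (Fin N)) (x : Fin N → XX K M), (∀ k ∈ S, ∀ t, src (x k) ≠ src (u t)) →
      EE M L (fun s w => θ s w * ∏ k ∈ S, d.T' L w (x k)) = κ * ∏ k ∈ S, BB K M (x k)) :
    ∑ x : Fin N → XX K M, usd u x *
      (d.W L x * (V2 (fun k => d.pos (x k)) : ℂ)) =
      (c * κ) * ((N.factorial : ℂ) * ((VX d.pos N u)ᴴ * VX d.pos N u).det) := by
  have hβ : mom d.pos N (BB K M) = 1 := by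
    ext a b
    unfold mom
    rw [BB_mom d hg (by have := a.2; omega) (by have := b.2; omega), Matrix.one_apply]
    by_cases hab : a = b
    · rw [if_pos hab, if_pos (by rw [hab])]
    · rw [if_neg hab, if_neg (fun h => hab (Fin.ext h))]
  rw [← gram_mass hβ hu0 hu]
  have e1 : ∀ x : Fin N → XX K M, usd u x *
      (d.W L x * (V2 (fun k => d.pos (x k)) : ℂ)) =
      ∑ e : ι → Fin N, hit e u x *
      (d.W L x * (V2 (fun k => d.pos (x k)) : ℂ)) := by
    intro x
    by_cases hV : (V2 (fun k => d.pos (x k)) : ℂ) = 0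
    · rw [hV]
      simp
    · rw [← Finset.sum_mul, sum_slots (V2_inj hV)]
  have e2 : ∀ x : Fin N → XX K M, usd u x *
      ((∏ k, T1 (BB K M) 1 u (x k)) * (V2 (fun k => d.pos (x k)) : ℂ)) =
      ∑ e : ι → Fin N, (hit e u x *
        ∏ k ∈ (univ.image e)ᶜ, BB K M (x k)) * (V2 (fun k => d.pos (x k)) : ℂ) := by
    intro x
    by_cases hV : (V2 (fun k => d.pos (x k)) : ℂ) = 0
    · rw [hV]
      simp
    · simp only [slot_T1 hu0 (V2_inj hV)]
      rw [← sum_slots (V2_inj hV), Finset.sum_mul]
      refine Finset.sum_congr rfl fun e _ => ?_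
      ring
  rw [Finset.sum_congr rfl fun x _ => e1 x, Finset.sum_congr rfl fun x _ => e2 x]
  have s1 := Finset.sum_comm (s := (univ : Finset (Fin N → XX K M)))
    (t := (univ : Finset (ι → Fin N)))
    (f := fun x e => hit e u x * (d.W L x * (V2 (fun k => d.pos (x k)) : ℂ)))
  have s2 := Finset.sum_comm (s := (univ : Finset (Fin N → XX K M)))
    (t := (univ : Finset (ι → Fin N)))
    (f := fun x e => (hit e u x * ∏ k ∈ (univ.image e)ᶜ, BB K M (x k)) *
      (V2 (fun k => d.pos (x k)) : ℂ))
  rw [s1, s2, Finset.mul_sum]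
  refine Finset.sum_congr rfl fun e _ => ?_
  by_cases he : Function.Injective e
  · rw [pins_id d hN hD hd hθ hpar hE he]
    congr 1
    refine Finset.sum_congr rfl fun x _ => ?_
    rw [pins_prod he]
  · have h0 : ∀ x : Fin N → XX K M, hit e u x = 0 := by
      intro x
      by_contra hne
      apply he
      intro a b hab
      have ha : x (e a) = u a := by
        by_contra h
        exact hne (hit_zero h)
      have hb : x (e b) = u b := by
        by_contra h
        exact hne (hit_zero h)
      exact hu (by rw [← ha, ← hb, hab])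
    simp only [h0, zero_mul, Finset.sum_const_zero, mul_zero]

end

end Pool.Agent.H481.MG
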