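import Mathlib

/-!
Definitions for the moment bounds.
-/

namespace Pool.Agent.H481.MO

/-- truncated exponential -/
noncomputable def tr (l : ℕ) (z : ℂ) : ℂ := ∑ i ∈ Finset.range l, z ^ i / (i.factorial : ℂ)

/-- block sums -/
noncomputable def Qf (P : ℕ → ℂ) (a b : ℕ) : ℂ :=
  ∑ n ∈ Finset.Ico ((2 : ℕ) ^ a) (2 ^ (a + 1)), (((1 - (n : ℝ) / 2 ^ b) ^ 2 / (n : ℝ) : ℝ) : ℂ) * P n

/-- the integer sequence `1, 2, 2, 4, 4, 8, 8, …` with `s_j² ≥ 2^j` and `∑ s_j / 2^j ≤ 4` -/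
def sj (j : ℕ) : ℕ := 2 ^ ((j + 1) / 2)

end Pool.Agent.H481.MO
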