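import Pool.Agent.H481.TM1

/-!
Even orthogonal groups: the quadrature for the weight `dθ` with a node at `θ = 0`.
-/

open Finset MeasureTheory
open Pool.Agent.R319.UM

namespace Pool.Agent.H481.OB

noncomputable section

/-- the angles of the nodes -/
def an (M : ℕ) (l : Fin M) : ℝ := 2 * Real.pi * (l : ℕ) / M

lemma cos_sum {M k : ℕ} (hM : 0 < M) (hk : k < M) :
    ∑ l : Fin M, Real.cos (k * an M l) = if k = 0 then (M : ℝ) else 0 := by
  have h := one_disc hM hk hM
  have e : ∀ l : Fin M, Real.cos (k * an M l) =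
      (((Complex.exp (2 * Real.pi * Complex.I / M) ^ (l : ℕ)) ^ k *
        (starRingEnd ℂ) ((Complex.exp (2 * Real.pi * Complex.I / M) ^ (l : ℕ)) ^ 0))).re := by
    intro l
    rw [pow_zero, map_one, mul_one, ← Complex.exp_nat_mul, ← Complex.exp_nat_mul]
    have : ((k : ℂ) * ((l : ℕ) * (2 * Real.pi * Complex.I / M))) =
        ((k * an M l : ℝ) : ℂ) * Complex.I := by
      unfold an
      push_cast
      ring
    rw [this, Complex.exp_ofReal_mul_I_re]
  simp only [e]
  rw [← Complex.re_sum, h]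
  split_ifs <;> simp

lemma cos_int (k : ℕ) :
    ∫ θ in Set.Ioc (0 : ℝ) Real.pi, Real.cos (k * θ) = if k = 0 then Real.pi else 0 := by
  rw [← intervalIntegral.integral_of_le Real.pi_pos.le]
  by_cases hk : k = 0
  · rw [if_pos hk, hk]
    simp
  · rw [if_neg hk]
    have hk' : (k : ℝ) ≠ 0 := by exact_mod_cast hk
    rw [intervalIntegral.integral_comp_mul_left (fun x => Real.cos x) hk', integral_cos]
    rw [mul_zero, Real.sin_zero, Real.sin_nat_mul_pi]
    simp

/-- products of cosines -/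
lemma cos_step (a k : ℕ) (θ : ℝ) :
    Real.cos θ ^ (a + 1) * Real.cos ((k + 1 : ℕ) * θ) =
      (Real.cos θ ^ a * Real.cos ((k + 2 : ℕ) * θ) + Real.cos θ ^ a * Real.cos (k * θ)) / 2 := by
  have h : Real.cos ((k + 2 : ℕ) * θ) + Real.cos (k * θ) =
      2 * (Real.cos ((k + 1 : ℕ) * θ) * Real.cos θ) := by
    have e1 : ((k + 2 : ℕ) : ℝ) * θ = (k + 1 : ℕ) * θ + θ := by push_cast; ring
    have e2 : (k : ℝ) * θ = (k + 1 : ℕ) * θ - θ := by push_cast; ring
    rw [e1, e2, Real.cos_add, Real.cos_sub]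
    ring
  rw [pow_succ]
  linear_combination -(Real.cos θ ^ a / 2) * h

lemma cos_step0 (a : ℕ) (θ : ℝ) :
    Real.cos θ ^ (a + 1) * Real.cos ((0 : ℕ) * θ) = Real.cos θ ^ a * Real.cos ((1 : ℕ) * θ) := by
  rw [Nat.cast_zero, zero_mul, Real.cos_zero, Nat.cast_one, one_mul, mul_one, pow_succ]

lemma int_ok (a k : ℕ) : Integrable (fun θ : ℝ => Real.cos θ ^ a * Real.cos (k * θ))
    (volume.restrict (Set.Ioc (0 : ℝ) Real.pi)) := by
  have hc : Continuous fun θ : ℝ => Real.cos θ ^ a * Real.cos (k * θ) := by fun_prop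
  exact (hc.continuousOn.integrableOn_compact isCompact_Icc).mono_set Set.Ioc_subset_Icc_self

/-- the quadrature formula -/
theorem quad1 {M : ℕ} (hM : 0 < M) : ∀ a k : ℕ, a + k < M →
    (M : ℝ)⁻¹ * ∑ l : Fin M, Real.cos (an M l) ^ a * Real.cos (k * an M l) =
      (Real.pi)⁻¹ * ∫ θ in Set.Ioc (0 : ℝ) Real.pi, Real.cos θ ^ a * Real.cos (k * θ) := by
  have hMr : (M : ℝ) ≠ 0 := by exact_mod_cast hM.ne'
  intro a
  induction a with
  | zero =>
    intro k hk
    simp only [pow_zero, one_mul]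
    rw [cos_sum hM (by omega), cos_int]
    by_cases h : k = 0
    · rw [if_pos h, if_pos h, inv_mul_cancel₀ hMr, inv_mul_cancel₀ Real.pi_ne_zero]
    · rw [if_neg h, if_neg h, mul_zero, mul_zero]
  | succ a ih =>
    intro k hk
    cases k with
    | zero =>
      simp only [cos_step0]
      exact ih 1 (by omega)
    | succ k =>
      simp only [cos_step]
      have h1 := ih (k + 2) (by omega)
      have h2 := ih k (by omega)
      rw [integral_div, integral_add (int_ok _ _) (int_ok _ _), ← Finset.sum_div,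
        Finset.sum_add_distrib]
      linear_combination (h1 + h2) / 2

lemma quad1' {M : ℕ} (hM : 0 < M) {a : ℕ} (ha : a < M) :
    (M : ℝ)⁻¹ * ∑ l : Fin M, Real.cos (an M l) ^ a =
      (Real.pi)⁻¹ * ∫ θ in Set.Ioc (0 : ℝ) Real.pi, Real.cos θ ^ a := by
  have h := quad1 hM a 0 (by omega)
  simpa using h

/-! ### several variables -/

variable {N : ℕ}

/-- the box -/
def bx (N : ℕ) : Set (Fin N → ℝ) := Set.univ.pi fun _ => Set.Ioc 0 Real.pi

/-- the cosines -/
def cz (θ : Fin N → ℝ) : Fin N → ℝ := fun j => Real.cos (θ j)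

/-- the nodes -/
def nz (M : ℕ) (l : Fin N → Fin M) : Fin N → ℝ := fun j => Real.cos (an M (l j))

lemma mono_int (d : Fin N → ℕ) :
    ∫ θ in bx N, ∏ j, cz θ j ^ d j = ∏ j, ∫ x in Set.Ioc (0 : ℝ) Real.pi, Real.cos x ^ d j := by
  unfold bx cz
  rw [volume_pi, Measure.restrict_pi_pi]
  exact integral_fintype_prod_eq_prod (𝕜 := ℝ) (fun j (x : ℝ) => Real.cos x ^ d j)

lemma mono_sum {M : ℕ} (d : Fin N → ℕ) :
    ∑ l : Fin N → Fin M, ∏ j, nz M l j ^ d j = ∏ j, ∑ x : Fin M, Real.cos (an M x) ^ d j := by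
  classical
  unfold nz
  rw [Finset.prod_univ_sum, Fintype.piFinset_univ]

lemma int_bx {f : (Fin N → ℝ) → ℝ} (hf : Continuous f) : IntegrableOn f (bx N) := by
  have h : IntegrableOn f (Set.univ.pi fun _ : Fin N => Set.Icc (0 : ℝ) Real.pi) :=
    hf.continuousOn.integrableOn_compact (isCompact_univ_pi fun _ => isCompact_Icc)
  exact h.mono_set (Set.pi_mono fun _ _ => Set.Ioc_subset_Icc_self)

lemma cz_cont : Continuous (cz : (Fin N → ℝ) → Fin N → ℝ) := by
  refine continuous_pi fun j => ?_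
  unfold cz
  fun_prop

open MvPolynomial in
/-- the quadrature formula in several variables -/
theorem quadN {M : ℕ} (hM : 0 < M) (P : MvPolynomial (Fin N) ℝ) (hP : ∀ j, P.degreeOf j < M) :
    ((M : ℝ) ^ N)⁻¹ * ∑ l : Fin N → Fin M, eval (nz M l) P =
      ((Real.pi) ^ N)⁻¹ * ∫ θ in bx N, eval (cz θ) P := by
  have e : ∀ x : Fin N → ℝ, eval x P = ∑ d ∈ P.support, P.coeff d * ∏ j, x j ^ d j :=
    fun x => MvPolynomial.eval_eq' x P
  simp only [e]
  rw [Finset.sum_comm, integral_finsetSum, Finset.mul_sum, Finset.mul_sum]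
  · refine Finset.sum_congr rfl fun d hd => ?_
    rw [integral_const_mul, mono_int, ← Finset.mul_sum, mono_sum]
    have h : ∀ j, d j < M := fun j =>
      lt_of_le_of_lt (MvPolynomial.monomial_le_degreeOf j hd) (hP j)
    have h2 : ((M : ℝ) ^ N)⁻¹ * ∏ j, ∑ x : Fin M, Real.cos (an M x) ^ d j =
        ∏ j, ((M : ℝ)⁻¹ * ∑ x : Fin M, Real.cos (an M x) ^ d j) := by
      rw [Finset.prod_mul_distrib]
      simp
    have h3 : ((Real.pi) ^ N)⁻¹ * ∏ j, ∫ x in Set.Ioc (0 : ℝ) Real.pi, Real.cos x ^ d j =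
        ∏ j, ((Real.pi)⁻¹ * ∫ x in Set.Ioc (0 : ℝ) Real.pi, Real.cos x ^ d j) := by
      rw [Finset.prod_mul_distrib]
      simp
    have h4 := Finset.prod_congr rfl fun j (_ : j ∈ (univ : Finset (Fin N))) => quad1' hM (h j)
    rw [← h2, ← h3] at h4
    linear_combination P.coeff d * h4
  · intro d _
    refine (int_bx ?_).integrable
    exact continuous_const.mul (continuous_finsetProd _ fun j _ =>
      ((continuous_apply j).comp cz_cont).pow _)

end

end Pool.Agent.H481.OB
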