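import Pool.Agent.H481.OB1

/-!
Even orthogonal groups: the one-level formula for the discrete ensemble.
-/

open Finset MeasureTheory
open Pool.Agent.R319.UM

namespace Pool.Agent.H481.OB

noncomputable section

variable {N : ℕ}

/-- the squared Vandermonde determinant -/
def Vd (x : Fin N → ℝ) : ℝ := ∏ i, ∏ j ∈ Finset.Ioi i, (x j - x i) ^ 2

lemma Vd_nonneg (x : Fin N → ℝ) : 0 ≤ Vd x :=
  Finset.prod_nonneg fun _ _ => Finset.prod_nonneg fun _ _ => sq_nonneg _

lemma Vd_det (x : Fin N → ℝ) : Vd x = (Matrix.vandermonde x).det ^ 2 := by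
  rw [Matrix.det_vandermonde]
  unfold Vd
  rw [← Finset.prod_pow]
  exact Finset.prod_congr rfl fun i _ => Finset.prod_pow _ _ _

lemma Vd_inj {x : Fin N → ℝ} (h : Vd x ≠ 0) : Function.Injective x := by
  rw [Vd_det] at h
  have h2 : (Matrix.vandermonde x).det ≠ 0 := by
    intro h3
    rw [h3] at h
    exact h (by norm_num)
  exact Matrix.det_vandermonde_ne_zero_iff.1 h2

/-- the cosines at the nodes -/
def tc (M : ℕ) (i : Fin N) (l : Fin M) : ℝ := Real.cos ((i : ℕ) * an M l)

/-- the norms -/
def hh (i : ℕ) : ℝ := if i = 0 then 1 else 1 / 2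

lemma hh_pos (i : ℕ) : 0 < hh i := by
  unfold hh
  split_ifs <;> norm_num

/-- orthogonality -/
lemma tc_orth {M : ℕ} (hM : 2 * N ≤ M + 1) (i j : Fin N) :
    ∑ l : Fin M, tc M i l * tc M j l = if i = j then (M : ℝ) * hh i else 0 := by
  have hi := i.is_lt
  have hj := j.is_lt
  have hM0 : 0 < M := by omega
  have key : ∀ a b : ℕ, b ≤ a → a + b < M →
      ∑ l : Fin M, Real.cos (a * an M l) * Real.cos (b * an M l) =
        if a = b then (M : ℝ) * hh a else 0 := by
    intro a b hab hlt
    have e : ∀ l : Fin M, Real.cos (a * an M l) * Real.cos (b * an M l) =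
        (Real.cos ((a + b : ℕ) * an M l) + Real.cos ((a - b : ℕ) * an M l)) / 2 := by
      intro l
      have e1 : ((a + b : ℕ) : ℝ) * an M l = a * an M l + b * an M l := by push_cast; ring
      have e2 : ((a - b : ℕ) : ℝ) * an M l = a * an M l - b * an M l := by
        rw [Nat.cast_sub hab]
        ring
      rw [e1, e2, Real.cos_add, Real.cos_sub]
      ring
    simp only [e]
    rw [← Finset.sum_div, Finset.sum_add_distrib, cos_sum hM0 hlt, cos_sum hM0 (by omega)]
    unfold hh
    by_cases h : a = b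
    · subst h
      by_cases h0 : a = 0
      · subst h0
        norm_num
      · rw [if_neg (by omega), if_pos (by omega), if_pos rfl, if_neg h0]
        ring
    · rw [if_neg (by omega), if_neg (by omega), if_neg h]
      norm_num
  unfold tc
  rcases le_total (j : ℕ) (i : ℕ) with h | h
  · rw [key i j h (by omega)]
    simp only [Fin.ext_iff]
  · have := key j i h (by omega)
    simp only [mul_comm (Real.cos ((j : ℕ) * _))] at this
    rw [this]
    by_cases hij : i = j
    · rw [if_pos hij, if_pos (by rw [hij]), hij]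
    · rw [if_neg hij, if_neg (fun h => hij (Fin.ext h.symm))]

/-- the determinant -/
def Dt (M : ℕ) (l : Fin N → Fin M) : ℝ := (Matrix.of fun i j => tc M i (l j)).det

lemma Dt_expand {M : ℕ} (l : Fin N → Fin M) :
    Dt M l = ∑ σ : Equiv.Perm (Fin N), ((Equiv.Perm.sign σ : ℤ) : ℝ) *
      ∏ j, tc M (σ j) (l j) := by
  unfold Dt
  rw [Matrix.det_apply']
  rfl

/-- the determinant is a multiple of the Vandermonde determinant -/
lemma Dt_eq (N : ℕ) : ∃ κ : ℝ, κ ≠ 0 ∧ ∀ (M : ℕ) (l : Fin N → Fin M),
    Vd (nz M l) = κ * Dt M l ^ 2 := by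
  set c : ℕ → ℝ := fun i => ((Polynomial.Chebyshev.T ℝ (i : ℤ)).leadingCoeff) with hc
  have hc0 : ∀ i, c i ≠ 0 := by
    intro i
    rw [hc]
    simp only
    rw [Polynomial.Chebyshev.leadingCoeff_T]
    positivity
  refine ⟨(∏ i : Fin N, (c i)⁻¹) ^ 2, pow_ne_zero _ (Finset.prod_ne_zero_iff.2 fun i _ =>
    inv_ne_zero (hc0 i)), fun M l => ?_⟩
  set p : Fin N → Polynomial ℝ := fun i =>
    Polynomial.C (c i)⁻¹ * Polynomial.Chebyshev.T ℝ (i : ℕ) with hp
  have hdeg : ∀ i, (p i).natDegree = i := by
    intro i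
    rw [hp]
    simp only
    rw [Polynomial.natDegree_C_mul (inv_ne_zero (hc0 i)), Polynomial.Chebyshev.natDegree_T]
    simp
  have hmon : ∀ i, (p i).Monic := by
    intro i
    rw [hp]
    simp only
    unfold Polynomial.Monic
    rw [Polynomial.leadingCoeff_mul, Polynomial.leadingCoeff_C]
    exact inv_mul_cancel₀ (hc0 i)
  have h := Matrix.det_eval_matrixOfPolynomials_eq_det_vandermonde (nz M l) p hdeg hmon
  have h2 : (Matrix.of fun i j : Fin N => (p j).eval (nz M l i)).det =
      (∏ i : Fin N, (c i)⁻¹) * Dt M l := by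
    unfold Dt
    rw [← Matrix.det_mul_column, ← Matrix.det_transpose]
    congr 1
    ext i j
    simp only [Matrix.transpose_apply, Matrix.of_apply, hp, Polynomial.eval_mul,
      Polynomial.eval_C]
    congr 1
    unfold nz tc
    rw [Polynomial.Chebyshev.T_real_cos]
    simp
  rw [Vd_det, h, h2]
  ring

/-- the one-level formula -/
theorem one_level {M : ℕ} (hM : 2 * N ≤ M + 1) (φ : Fin M → ℝ) :
    ∑ l : Fin N → Fin M, (∑ a, φ (l a)) * Dt M l ^ 2 =
      ((N.factorial : ℝ) * ∏ i : Fin N, ((M : ℝ) * hh i)) *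
        ∑ i : Fin N, (∑ x : Fin M, φ x * tc M i x ^ 2) / ((M : ℝ) * hh i) := by
  classical
  have hMh : ∀ i : Fin N, (M : ℝ) * hh i ≠ 0 := by
    intro i
    have : (0 : ℝ) < M := by
      have := i.is_lt
      exact_mod_cast (by omega : 0 < M)
    exact (mul_pos this (hh_pos _)).ne'
  -- one slot
  have slot : ∀ a : Fin N, ∑ l : Fin N → Fin M, φ (l a) * Dt M l ^ 2 =
      ∑ σ : Equiv.Perm (Fin N), (∏ i : Fin N, ((M : ℝ) * hh i)) *
        ((∑ x : Fin M, φ x * tc M (σ a) x ^ 2) / ((M : ℝ) * hh (σ a))) := by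
    intro a
    have e1 : ∀ l : Fin N → Fin M, φ (l a) * Dt M l ^ 2 =
        ∑ σ : Equiv.Perm (Fin N), ∑ τ : Equiv.Perm (Fin N),
          (((Equiv.Perm.sign σ : ℤ) : ℝ) * ((Equiv.Perm.sign τ : ℤ) : ℝ)) *
          ∏ j, ((if j = a then φ (l j) else 1) * (tc M (σ j) (l j) * tc M (τ j) (l j))) := by
      intro l
      rw [sq, Dt_expand, Finset.sum_mul_sum, Finset.mul_sum]
      refine Finset.sum_congr rfl fun σ _ => ?_
      rw [Finset.mul_sum]
      refine Finset.sum_congr rfl fun τ _ => ?_
      rw [Finset.prod_mul_distrib, Finset.prod_mul_distrib, Finset.prod_ite_eq' univ a,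
        if_pos (Finset.mem_univ _)]
      ring
    simp only [e1]
    rw [Finset.sum_comm]
    refine Finset.sum_congr rfl fun σ _ => ?_
    rw [Finset.sum_comm, Finset.sum_eq_single σ]
    · rw [← Finset.mul_sum]
      have hs : ((Equiv.Perm.sign σ : ℤ) : ℝ) * ((Equiv.Perm.sign σ : ℤ) : ℝ) = 1 := by
        rcases Int.units_eq_one_or (Equiv.Perm.sign σ) with h | h <;> rw [h] <;> simp
      rw [hs, one_mul]
      have h2 := Finset.prod_univ_sum (fun _ : Fin N => (Finset.univ : Finset (Fin M)))
        (fun j x => ((if j = a then φ x else 1) * (tc M (σ j) x * tc M (σ j) x)))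
      rw [Fintype.piFinset_univ] at h2
      rw [← h2]
      have h3 : ∀ j : Fin N, ∑ x : Fin M, (if j = a then φ x else 1) *
          (tc M (σ j) x * tc M (σ j) x) =
          ((M : ℝ) * hh (σ j)) * (if j = a then
            (∑ x : Fin M, φ x * tc M (σ a) x ^ 2) / ((M : ℝ) * hh (σ a)) else 1) := by
        intro j
        by_cases hj : j = a
        · subst hj
          simp only [if_true]
          rw [mul_div_cancel₀ _ (hMh _)]
          exact Finset.sum_congr rfl fun x _ => by ring
        · simp only [if_neg hj, one_mul, mul_one]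
          rw [tc_orth hM, if_pos rfl]
      simp only [h3]
      rw [Finset.prod_mul_distrib, Finset.prod_ite_eq' univ a, if_pos (Finset.mem_univ _),
        Equiv.prod_comp σ (fun i : Fin N => (M : ℝ) * hh i)]
    · intro τ _ hτ
      rw [← Finset.mul_sum]
      have h2 := Finset.prod_univ_sum (fun _ : Fin N => (Finset.univ : Finset (Fin M)))
        (fun j x => ((if j = a then φ x else 1) * (tc M (σ j) x * tc M (τ j) x)))
      rw [Fintype.piFinset_univ] at h2
      rw [← h2]
      have hex : ∃ j, j ≠ a ∧ σ j ≠ τ j := by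
        by_contra hc
        push Not at hc
        apply hτ
        ext1 j
        by_cases hj : j = a
        · -- the last slot is forced
          subst hj
          by_contra hne
          have h4 : σ (σ.symm (τ j)) = τ j := σ.apply_symm_apply _
          have h5 : σ.symm (τ j) ≠ j := by
            intro h6
            rw [h6] at h4
            exact hne h4.symm
          have h6 := hc _ h5
          rw [h4] at h6
          exact h5 (τ.injective h6.symm)
        · exact (hc j hj).symm
      obtain ⟨j, hj, hne⟩ := hex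
      rw [Finset.prod_eq_zero (Finset.mem_univ j), mul_zero]
      simp only [if_neg hj, one_mul]
      rw [tc_orth hM, if_neg hne]
    · intro h
      exact absurd (Finset.mem_univ _) h
  have e2 : ∀ l : Fin N → Fin M, (∑ a, φ (l a)) * Dt M l ^ 2 =
      ∑ a, φ (l a) * Dt M l ^ 2 := fun l => Finset.sum_mul _ _ _
  simp only [e2]
  rw [Finset.sum_comm]
  simp only [slot]
  rw [Finset.sum_comm]
  have e3 : ∀ σ : Equiv.Perm (Fin N), ∑ a : Fin N, (∏ i : Fin N, ((M : ℝ) * hh i)) *
      ((∑ x : Fin M, φ x * tc M (σ a) x ^ 2) / ((M : ℝ) * hh (σ a))) =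
      (∏ i : Fin N, ((M : ℝ) * hh i)) *
        ∑ i : Fin N, (∑ x : Fin M, φ x * tc M i x ^ 2) / ((M : ℝ) * hh i) := by
    intro σ
    rw [← Finset.mul_sum, Equiv.sum_comp σ
      (fun i : Fin N => (∑ x : Fin M, φ x * tc M i x ^ 2) / ((M : ℝ) * hh i))]
  simp only [e3]
  rw [Finset.sum_const, Finset.card_univ, Fintype.card_perm, Fintype.card_fin, nsmul_eq_mul]
  ring

end

end Pool.Agent.H481.OB
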