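import Pool.Agent.H481.OB2

/-!
Even orthogonal groups: the means over the group and over the nodes.
-/

open Finset MeasureTheory MvPolynomial
open Pool.Agent.R319.UM

namespace Pool.Agent.H481.OB

noncomputable section

variable {N : ℕ}

/-- the Vandermonde polynomial -/
def VR (N : ℕ) : MvPolynomial (Fin N) ℝ :=
  (Matrix.vandermonde (fun i => (MvPolynomial.X i : MvPolynomial (Fin N) ℝ))).det

lemma VR_eval (x : Fin N → ℝ) : MvPolynomial.eval x (VR N) ^ 2 = Vd x := by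
  rw [Vd_det]
  congr 1
  unfold VR
  rw [RingHom.map_det]
  congr 1
  ext a b
  simp [Matrix.vandermonde_apply]

lemma VR_deg (k : Fin N) : (VR N).degreeOf k ≤ N - 1 := by
  unfold VR
  rw [Matrix.det_apply]
  refine (MvPolynomial.degreeOf_sum_le _ _ _).trans (Finset.sup_le fun σ _ => ?_)
  have h1 : ∀ p : MvPolynomial (Fin N) ℝ,
      MvPolynomial.degreeOf k (Equiv.Perm.sign σ • p) ≤ MvPolynomial.degreeOf k p := by
    intro p
    rcases Int.units_eq_one_or (Equiv.Perm.sign σ) with h | h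
    · rw [h, one_smul]
    · rw [h, Units.neg_smul, one_smul, MvPolynomial.degreeOf_neg]
  refine (h1 _).trans ?_
  refine (MvPolynomial.degreeOf_prod_le _ _ _).trans ?_
  simp only [Matrix.vandermonde_apply]
  have h2 : ∀ i : Fin N, MvPolynomial.degreeOf k
      ((MvPolynomial.X (σ i) : MvPolynomial (Fin N) ℝ) ^ (i : ℕ)) ≤
      if i = σ.symm k then N - 1 else 0 := by
    intro i
    refine (MvPolynomial.degreeOf_pow_le _ _ _).trans ?_
    rw [MvPolynomial.degreeOf_X]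
    by_cases h : k = σ i
    · rw [if_pos h, if_pos (by rw [h, Equiv.symm_apply_apply])]
      have := i.2
      omega
    · rw [if_neg h]
      omega
  refine (Finset.sum_le_sum fun i _ => h2 i).trans ?_
  rw [Finset.sum_ite_eq' univ (σ.symm k)]
  simp

/-- the mean over the group `SO(2N)`, as a function of the cosines of the eigenangles -/
def so (N : ℕ) (f : (Fin N → ℝ) → ℝ) : ℝ :=
  (∫ θ in bx N, f (cz θ) * Vd (cz θ)) / ∫ θ in bx N, Vd (cz θ)

/-- the mean over the nodes -/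
def dm (M : ℕ) (f : (Fin N → ℝ) → ℝ) : ℝ :=
  (∑ l : Fin N → Fin M, f (nz M l) * Vd (nz M l)) / ∑ l : Fin N → Fin M, Vd (nz M l)

lemma quadV {M R : ℕ} (hN : 0 < N) (hM : 2 * N + R ≤ M + 1) (F : MvPolynomial (Fin N) ℝ)
    (hF : F.totalDegree ≤ R) :
    ((M : ℝ) ^ N)⁻¹ * ∑ l : Fin N → Fin M, eval (nz M l) F * Vd (nz M l) =
      ((Real.pi) ^ N)⁻¹ * ∫ θ in bx N, eval (cz θ) F * Vd (cz θ) := by
  have hdeg : ∀ j, (F * (VR N * VR N)).degreeOf j < M := by
    intro j
    refine lt_of_le_of_lt (MvPolynomial.degreeOf_mul_le _ _ _) ?_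
    have h1 := MvPolynomial.degreeOf_le_totalDegree F j
    have h2 := MvPolynomial.degreeOf_mul_le j (VR N) (VR N)
    have h3 := VR_deg (N := N) j
    omega
  have h := quadN (by omega) (F * (VR N * VR N)) hdeg
  have e : ∀ x : Fin N → ℝ, eval x (F * (VR N * VR N)) = eval x F * Vd x := by
    intro x
    rw [map_mul, map_mul, ← sq, VR_eval]
  simp only [e] at h
  exact h

theorem so_dm {M R : ℕ} (hN : 0 < N) (hM : 2 * N + R ≤ M + 1) (F : MvPolynomial (Fin N) ℝ)
    (hF : F.totalDegree ≤ R) :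
    so N (fun x => eval x F) = dm M (fun x => eval x F) := by
  have h1 := quadV hN hM F hF
  have h2 := quadV (R := 0) hN (by omega : 2 * N + 0 ≤ M + 1) 1 (by simp)
  simp only [map_one, one_mul] at h2
  have hM0 : (0 : ℝ) < (M : ℝ) ^ N := by
    have : 0 < M := by omega
    positivity
  have hpi : (0 : ℝ) < Real.pi ^ N := by positivity
  unfold so dm
  set A := ∑ l : Fin N → Fin M, eval (nz M l) F * Vd (nz M l)
  set B := ∑ l : Fin N → Fin M, Vd (nz M l)
  set C := ∫ θ in bx N, eval (cz θ) F * Vd (cz θ)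
  set E := ∫ θ in bx N, Vd (cz θ)
  have hA : A = (M : ℝ) ^ N * (((Real.pi) ^ N)⁻¹ * C) := by
    rw [← h1]
    field_simp
  have hB : B = (M : ℝ) ^ N * (((Real.pi) ^ N)⁻¹ * E) := by
    rw [← h2]
    field_simp
  rw [hA, hB, mul_div_mul_left _ _ hM0.ne', mul_div_mul_left _ _ (inv_pos.2 hpi).ne']

/-- the total mass -/
lemma Dt_total {M : ℕ} (hN : 0 < N) (hM : 2 * N ≤ M + 1) :
    ∑ l : Fin N → Fin M, Dt M l ^ 2 = (N.factorial : ℝ) * ∏ i : Fin N, ((M : ℝ) * hh i) := by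
  have h := one_level hM (fun _ : Fin M => (1 : ℝ))
  have hM0 : (0 : ℝ) < M := by exact_mod_cast (by omega : 0 < M)
  have hN0 : (N : ℝ) ≠ 0 := by exact_mod_cast hN.ne'
  have e1 : ∀ i : Fin N, (∑ x : Fin M, (1 : ℝ) * tc M i x ^ 2) / ((M : ℝ) * hh i) = 1 := by
    intro i
    have h2 := tc_orth hM i i
    rw [if_pos rfl] at h2
    have h3 : ∑ x : Fin M, (1 : ℝ) * tc M i x ^ 2 = (M : ℝ) * hh i := by
      rw [← h2]
      exact Finset.sum_congr rfl fun x _ => by ring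
    rw [h3, div_self (mul_pos hM0 (hh_pos _)).ne']
  simp only [e1] at h
  simp only [Finset.sum_const, Finset.card_univ, Fintype.card_fin, nsmul_eq_mul, mul_one] at h
  rw [← Finset.mul_sum, mul_comm] at h
  exact mul_right_cancel₀ hN0 h

lemma Vd_total_pos {M : ℕ} (hN : 0 < N) (hM : 2 * N ≤ M + 1) :
    0 < ∑ l : Fin N → Fin M, Vd (nz M l) := by
  obtain ⟨κ, hκ, hV⟩ := Dt_eq N
  have h1 : ∑ l : Fin N → Fin M, Vd (nz M l) = κ * ((N.factorial : ℝ) *
      ∏ i : Fin N, ((M : ℝ) * hh i)) := by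
    simp only [hV]
    rw [← Finset.mul_sum, Dt_total hN hM]
  have hM0 : (0 : ℝ) < M := by exact_mod_cast (by omega : 0 < M)
  have h2 : (0 : ℝ) < (N.factorial : ℝ) * ∏ i : Fin N, ((M : ℝ) * hh i) :=
    mul_pos (by exact_mod_cast N.factorial_pos)
      (Finset.prod_pos fun i _ => mul_pos hM0 (hh_pos _))
  have h3 : 0 ≤ ∑ l : Fin N → Fin M, Vd (nz M l) := Finset.sum_nonneg fun l _ => Vd_nonneg _
  refine lt_of_le_of_ne h3 fun h => ?_
  rw [h1] at h
  exact mul_ne_zero hκ h2.ne' h.symm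

/-- the one-level formula for the mean over the nodes -/
theorem dm_level {M : ℕ} (hN : 0 < N) (hM : 2 * N ≤ M + 1) (φ : Fin M → ℝ) :
    (∑ l : Fin N → Fin M, (∑ a, φ (l a)) * Vd (nz M l)) / ∑ l : Fin N → Fin M, Vd (nz M l) =
      ∑ i : Fin N, (∑ x : Fin M, φ x * tc M i x ^ 2) / ((M : ℝ) * hh i) := by
  obtain ⟨κ, hκ, hV⟩ := Dt_eq N
  have hpos := Vd_total_pos hN hM
  rw [div_eq_iff hpos.ne']
  simp only [hV]
  have e : ∀ l : Fin N → Fin M, (∑ a, φ (l a)) * (κ * Dt M l ^ 2) =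
      κ * ((∑ a, φ (l a)) * Dt M l ^ 2) := fun l => by ring
  simp only [e]
  rw [← Finset.mul_sum, ← Finset.mul_sum, one_level hM, Dt_total hN hM]
  ring

end

end Pool.Agent.H481.OB
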