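import Pool.Agent.H481.OB3

/-!
Even orthogonal groups: the upper bound for the number of the eigenvalues `1`.
-/

open Finset MeasureTheory
open Pool.Agent.R319.UM

namespace Pool.Agent.H481.OB

noncomputable section

variable {N : ℕ}

/-- the Fejér kernel as a polynomial in `cos θ` -/
def fj (L : ℕ) : Polynomial ℝ :=
  Polynomial.C (1 / (L : ℝ) ^ 2) * ∑ k ∈ range L, ∑ l ∈ range L,
    Polynomial.Chebyshev.T ℝ ((k : ℤ) - l)

lemma fj_deg {L : ℕ} (hL : 0 < L) : (fj L).natDegree ≤ L - 1 := by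
  unfold fj
  refine (Polynomial.natDegree_C_mul_le _ _).trans ?_
  refine Polynomial.natDegree_sum_le_of_forall_le _ _ fun k hk => ?_
  refine Polynomial.natDegree_sum_le_of_forall_le _ _ fun l hl => ?_
  rw [Polynomial.Chebyshev.natDegree_T]
  rw [Finset.mem_range] at hk hl
  omega

/-- the point of the circle -/
def ei (θ : ℝ) : ℂ := Complex.exp (θ * Complex.I)

lemma ei_pow (θ : ℝ) (k : ℕ) : ei θ ^ k = Complex.exp ((k * θ : ℝ) * Complex.I) := by
  unfold ei
  rw [← Complex.exp_nat_mul]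
  congr 1
  push_cast
  ring

lemma ei_conj (θ : ℝ) (l : ℕ) :
    (starRingEnd ℂ) (ei θ ^ l) = Complex.exp ((-(l * θ) : ℝ) * Complex.I) := by
  rw [ei_pow, ← Complex.exp_conj, map_mul, Complex.conj_I, Complex.conj_ofReal]
  congr 1
  push_cast
  ring

lemma fj_eval (L : ℕ) (θ : ℝ) :
    (fj L).eval (Real.cos θ) = 1 / (L : ℝ) ^ 2 * ‖∑ k ∈ range L, ei θ ^ k‖ ^ 2 := by
  unfold fj
  rw [Polynomial.eval_mul, Polynomial.eval_C, Polynomial.eval_finsetSum]
  congr 1
  have h : ((‖∑ k ∈ range L, ei θ ^ k‖ ^ 2 : ℝ) : ℂ) =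
      ∑ k ∈ range L, ∑ l ∈ range L, ei θ ^ k * (starRingEnd ℂ) (ei θ ^ l) := by
    rw [← Complex.normSq_eq_norm_sq, ← Complex.mul_conj, map_sum, Finset.sum_mul_sum]
  have h2 := congrArg Complex.re h
  rw [Complex.ofReal_re, Complex.re_sum] at h2
  rw [h2]
  refine Finset.sum_congr rfl fun k _ => ?_
  rw [Polynomial.eval_finsetSum, Complex.re_sum]
  refine Finset.sum_congr rfl fun l _ => ?_
  rw [Polynomial.Chebyshev.T_real_cos, ei_pow, ei_conj, ← Complex.exp_add]
  have : ((k * θ : ℝ) : ℂ) * Complex.I + ((-(l * θ) : ℝ) : ℂ) * Complex.I =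
      (((k : ℝ) - l) * θ : ℝ) * Complex.I := by
    push_cast
    ring
  rw [this, Complex.exp_ofReal_mul_I_re]
  congr 1
  push_cast
  ring

lemma fj_nonneg (L : ℕ) {x : ℝ} (h1 : -1 ≤ x) (h2 : x ≤ 1) : 0 ≤ (fj L).eval x := by
  rw [← Real.cos_arccos h1 h2, fj_eval]
  positivity

lemma fj_one {L : ℕ} (hL : 0 < L) : (fj L).eval 1 = 1 := by
  have h := fj_eval L 0
  rw [Real.cos_zero] at h
  rw [h]
  have : ei 0 = 1 := by
    unfold ei
    simp
  rw [this]
  have hL0 : (L : ℝ) ≠ 0 := by exact_mod_cast hL.ne'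
  simp only [one_pow, Finset.sum_const, Finset.card_range, nsmul_eq_mul, mul_one,
    Complex.norm_natCast]
  field_simp

lemma count_pairs (L p : ℕ) :
    ∑ k ∈ range L, ∑ l ∈ range L, (if k + p = l then (1 : ℝ) else 0) = ((L - p : ℕ) : ℝ) := by
  have h1 : ∀ k ∈ range L, ∑ l ∈ range L, (if k + p = l then (1 : ℝ) else 0) =
      if k < L - p then 1 else 0 := by
    intro k _
    rw [Finset.sum_ite_eq (range L) (k + p)]
    simp only [Finset.mem_range]
    by_cases h : k < L - p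
    · rw [if_pos h, if_pos (by omega)]
    · rw [if_neg h, if_neg (by omega)]
  rw [Finset.sum_congr rfl h1, Finset.sum_ite, Finset.sum_const_zero, add_zero,
    Finset.sum_const, nsmul_eq_mul, mul_one]
  congr 1
  have : (range L).filter (fun k => k < L - p) = range (L - p) := by
    ext k
    simp only [Finset.mem_filter, Finset.mem_range]
    omega
  rw [this, Finset.card_range]

lemma fj_mean {L p M : ℕ} (hL : 0 < L) (hM : L + p ≤ M) :
    ∑ x : Fin M, (fj L).eval (Real.cos (an M x)) * Real.cos (p * an M x) =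
      (M : ℝ) * ((L - p : ℕ) : ℝ) / (L : ℝ) ^ 2 := by
  have hM0 : 0 < M := by omega
  have e : ∀ x : Fin M, (fj L).eval (Real.cos (an M x)) * Real.cos (p * an M x) =
      1 / (L : ℝ) ^ 2 * ∑ k ∈ range L, ∑ l ∈ range L,
        ((Complex.exp (2 * Real.pi * Complex.I / M) ^ (x : ℕ)) ^ (k + p) *
          (starRingEnd ℂ) ((Complex.exp (2 * Real.pi * Complex.I / M) ^ (x : ℕ)) ^ l)).re := by
    intro x
    rw [fj_eval, mul_assoc]
    congr 1
    have hw : Complex.exp (2 * Real.pi * Complex.I / M) ^ (x : ℕ) = ei (an M x) := by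
      unfold ei an
      rw [← Complex.exp_nat_mul]
      congr 1
      push_cast
      ring
    rw [hw]
    have h : ((‖∑ k ∈ range L, ei (an M x) ^ k‖ ^ 2 : ℝ) : ℂ) =
        ∑ k ∈ range L, ∑ l ∈ range L,
          ei (an M x) ^ k * (starRingEnd ℂ) (ei (an M x) ^ l) := by
      rw [← Complex.normSq_eq_norm_sq, ← Complex.mul_conj, map_sum, Finset.sum_mul_sum]
    have h3 : ((‖∑ k ∈ range L, ei (an M x) ^ k‖ ^ 2 : ℝ) : ℂ) * ei (an M x) ^ p =
        ∑ k ∈ range L, ∑ l ∈ range L,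
          ei (an M x) ^ (k + p) * (starRingEnd ℂ) (ei (an M x) ^ l) := by
      rw [h, Finset.sum_mul]
      refine Finset.sum_congr rfl fun k _ => ?_
      rw [Finset.sum_mul]
      refine Finset.sum_congr rfl fun l _ => ?_
      rw [pow_add]
      ring
    have h4 := congrArg Complex.re h3
    rw [Complex.re_ofReal_mul, ei_pow, Complex.exp_ofReal_mul_I_re, Complex.re_sum] at h4
    rw [h4]
    exact Finset.sum_congr rfl fun k _ => Complex.re_sum _ _
  simp only [e]
  rw [← Finset.mul_sum, Finset.sum_comm]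
  have h5 : ∀ k ∈ range L, ∑ x : Fin M, ∑ l ∈ range L,
      ((Complex.exp (2 * Real.pi * Complex.I / M) ^ (x : ℕ)) ^ (k + p) *
        (starRingEnd ℂ) ((Complex.exp (2 * Real.pi * Complex.I / M) ^ (x : ℕ)) ^ l)).re =
      ∑ l ∈ range L, (M : ℝ) * (if k + p = l then (1 : ℝ) else 0) := by
    intro k hk
    rw [Finset.sum_comm]
    refine Finset.sum_congr rfl fun l hl => ?_
    rw [Finset.mem_range] at hk hl
    rw [← Complex.re_sum, one_disc hM0 (by omega) (by omega)]
    split_ifs <;> simp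
  rw [Finset.sum_congr rfl h5]
  have h6 : ∑ k ∈ range L, ∑ l ∈ range L, (M : ℝ) * (if k + p = l then (1 : ℝ) else 0) =
      (M : ℝ) * ((L - p : ℕ) : ℝ) := by
    rw [← count_pairs, Finset.mul_sum]
    exact Finset.sum_congr rfl fun k _ => (Finset.mul_sum _ _ _).symm
  rw [h6]
  ring

/-- the one-level sum of the Fejér kernel -/
lemma fj_level {L M : ℕ} (hL : 0 < L) (hM : L + 2 * N ≤ M) (i : Fin N) :
    (∑ x : Fin M, (fj L).eval (Real.cos (an M x)) * tc M i x ^ 2) / ((M : ℝ) * hh i) =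
      1 / (L : ℝ) + if (i : ℕ) = 0 then 0 else ((L - 2 * i : ℕ) : ℝ) / (L : ℝ) ^ 2 := by
  have hi := i.is_lt
  have hM0 : (M : ℝ) ≠ 0 := by exact_mod_cast (by omega : M ≠ 0)
  have hL0 : (L : ℝ) ≠ 0 := by exact_mod_cast hL.ne'
  have h0 := fj_mean (L := L) (p := 0) (M := M) hL (by omega)
  have h2 := fj_mean (L := L) (p := 2 * i) (M := M) hL (by omega)
  have e0 : ∑ x : Fin M, (fj L).eval (Real.cos (an M x)) = (M : ℝ) / L := by
    have : ∀ x : Fin M, (fj L).eval (Real.cos (an M x)) =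
        (fj L).eval (Real.cos (an M x)) * Real.cos ((0 : ℕ) * an M x) := by
      intro x
      simp
    rw [Finset.sum_congr rfl fun x _ => this x, h0, Nat.sub_zero]
    field_simp
  have e : ∀ x : Fin M, (fj L).eval (Real.cos (an M x)) * tc M i x ^ 2 =
      ((fj L).eval (Real.cos (an M x)) +
        (fj L).eval (Real.cos (an M x)) * Real.cos ((2 * (i : ℕ) : ℕ) * an M x)) / 2 := by
    intro x
    unfold tc
    have h3 : Real.cos ((2 * (i : ℕ) : ℕ) * an M x) =
        2 * Real.cos ((i : ℕ) * an M x) ^ 2 - 1 := by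
      rw [← Real.cos_two_mul]
      congr 1
      push_cast
      ring
    rw [h3]
    ring
  simp only [e]
  rw [← Finset.sum_div, Finset.sum_add_distrib, e0, h2]
  unfold hh
  by_cases h : (i : ℕ) = 0
  · rw [if_pos h, if_pos h, h, mul_zero, Nat.sub_zero]
    field_simp
    ring
  · rw [if_neg h, if_neg h]
    field_simp

/-- the sum over the levels -/
lemma level_sum {L : ℕ} (hN : 0 < N) (hL : 2 * N ≤ L + 2) :
    ∑ i : Fin N, (1 / (L : ℝ) + if (i : ℕ) = 0 then 0 else
      ((L - 2 * i : ℕ) : ℝ) / (L : ℝ) ^ 2) =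
      (2 * N - 1) / (L : ℝ) - N * (N - 1) / (L : ℝ) ^ 2 := by
  by_cases hL0 : L = 0
  · subst hL0
    have : N = 1 := by omega
    subst this
    simp
  have hLr : (L : ℝ) ≠ 0 := by exact_mod_cast hL0
  rw [Fin.sum_univ_eq_sum_range (fun i => (1 / (L : ℝ) + if i = 0 then 0 else
      ((L - 2 * i : ℕ) : ℝ) / (L : ℝ) ^ 2)) N]
  obtain ⟨n, rfl⟩ := Nat.exists_eq_succ_of_ne_zero hN.ne'
  rw [Finset.sum_range_succ']
  have e : ∀ i ∈ range n, (1 / (L : ℝ) + if i + 1 = 0 then 0 else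
      ((L - 2 * (i + 1) : ℕ) : ℝ) / (L : ℝ) ^ 2) =
      (2 / (L : ℝ) - 2 / (L : ℝ) ^ 2) - 2 / (L : ℝ) ^ 2 * i := by
    intro i hi
    rw [Finset.mem_range] at hi
    rw [if_neg (by omega), Nat.cast_sub (by omega)]
    push_cast
    field_simp
    ring
  rw [Finset.sum_congr rfl e, Finset.sum_sub_distrib, ← Finset.mul_sum]
  have hg : ∑ i ∈ range n, (i : ℝ) = n * (n - 1) / 2 := by
    have h := Finset.sum_range_id_mul_two n
    have h2 : ((∑ i ∈ range n, i : ℕ) : ℝ) * 2 = (n : ℝ) * ((n - 1 : ℕ) : ℝ) := by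
      exact_mod_cast h
    push_cast at h2
    rcases Nat.eq_zero_or_pos n with h0 | h0
    · subst h0
      simp
    · rw [Nat.cast_sub h0, Nat.cast_one] at h2
      linarith
  rw [hg]
  simp only [Finset.sum_const, Finset.card_range, nsmul_eq_mul, if_true, add_zero,
    Nat.succ_eq_add_one]
  push_cast
  field_simp
  ring

end

end Pool.Agent.H481.OB
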