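import Pool.Agent.H481.OB4

/-!
Even orthogonal groups: the bound for the number of the eigenvalues `1` and the extremal law.
-/

open Finset MeasureTheory
open Pool.Agent.R319.UM

namespace Pool.Agent.H481.OB

noncomputable section

variable {N : ℕ}

/-- the class -/
def Cl (N R : ℕ) (ν : Measure (Fin N → ℝ)) : Prop :=
  ∀ F : MvPolynomial (Fin N) ℝ, F.totalDegree ≤ R →
    ∫ x, MvPolynomial.eval x F ∂ν = so N (fun x => MvPolynomial.eval x F)

/-- a polynomial in one of the variables -/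
lemma aeval_deg (p : Polynomial ℝ) (j : Fin N) :
    (Polynomial.aeval (MvPolynomial.X j : MvPolynomial (Fin N) ℝ) p).totalDegree ≤
      p.natDegree := by
  rw [Polynomial.aeval_eq_sum_range]
  refine (MvPolynomial.totalDegree_finsetSum _ _).trans (Finset.sup_le fun i hi => ?_)
  refine (MvPolynomial.totalDegree_smul_le _ _).trans ?_
  refine (MvPolynomial.totalDegree_X_pow j i).le.trans ?_
  rw [Finset.mem_range] at hi
  omega

lemma aeval_eval (p : Polynomial ℝ) (j : Fin N) (x : Fin N → ℝ) :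
    MvPolynomial.eval x (Polynomial.aeval (MvPolynomial.X j : MvPolynomial (Fin N) ℝ) p) =
      p.eval (x j) := by
  rw [Polynomial.aeval_eq_sum_range, map_sum, Polynomial.eval_eq_sum_range]
  refine Finset.sum_congr rfl fun i _ => ?_
  rw [MvPolynomial.smul_eval, map_pow, MvPolynomial.eval_X]

/-- the sum of the Fejér kernels -/
def QF (N L : ℕ) : MvPolynomial (Fin N) ℝ :=
  ∑ j, Polynomial.aeval (MvPolynomial.X j : MvPolynomial (Fin N) ℝ) (fj L)

lemma QF_deg {L : ℕ} (hL : 0 < L) : (QF N L).totalDegree ≤ L - 1 := by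
  unfold QF
  refine (MvPolynomial.totalDegree_finsetSum _ _).trans (Finset.sup_le fun j _ => ?_)
  exact (aeval_deg _ _).trans (fj_deg hL)

lemma QF_eval (L : ℕ) (x : Fin N → ℝ) :
    MvPolynomial.eval x (QF N L) = ∑ j, (fj L).eval (x j) := by
  unfold QF
  rw [map_sum]
  exact Finset.sum_congr rfl fun j _ => aeval_eval _ _ _

/-- the number of the points at `1` -/
def cnt (x : Fin N → ℝ) : ℝ := ∑ j, if x j = 1 then (1 : ℝ) else 0

lemma cnt_meas : Measurable (cnt : (Fin N → ℝ) → ℝ) := by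
  unfold cnt
  refine Finset.measurable_sum _ fun j _ => ?_
  exact Measurable.ite (measurableSet_eq_fun (measurable_pi_apply j) measurable_const)
    measurable_const measurable_const

lemma cnt_nonneg (x : Fin N → ℝ) : 0 ≤ cnt x :=
  Finset.sum_nonneg fun j _ => by split_ifs <;> norm_num

lemma cnt_le (x : Fin N → ℝ) : cnt x ≤ N := by
  unfold cnt
  calc ∑ j, (if x j = 1 then (1 : ℝ) else 0) ≤ ∑ _j : Fin N, (1 : ℝ) :=
        Finset.sum_le_sum fun j _ => by split_ifs <;> norm_num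
    _ = N := by simp

lemma cnt_int {ν : Measure (Fin N → ℝ)} [IsProbabilityMeasure ν] : Integrable cnt ν := by
  refine Integrable.of_bound cnt_meas.aestronglyMeasurable (N : ℝ)
    (Filter.Eventually.of_forall fun x => ?_)
  rw [Real.norm_of_nonneg (cnt_nonneg x)]
  exact cnt_le x

lemma cnt_le_fj {L : ℕ} (hL : 0 < L) {x : Fin N → ℝ} (hx : ∀ j, -1 ≤ x j ∧ x j ≤ 1) :
    cnt x ≤ MvPolynomial.eval x (QF N L) := by
  rw [QF_eval]
  refine Finset.sum_le_sum fun j _ => ?_
  by_cases h : x j = 1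
  · rw [if_pos h, h, fj_one hL]
  · rw [if_neg h]
    exact fj_nonneg L (hx j).1 (hx j).2

lemma eval_int {ν : Measure (Fin N → ℝ)} [IsProbabilityMeasure ν]
    (h1 : ∀ᵐ x ∂ν, ∀ j, -1 ≤ x j ∧ x j ≤ 1) (F : MvPolynomial (Fin N) ℝ) :
    Integrable (fun x => MvPolynomial.eval x F) ν := by
  have hc : Continuous fun x : Fin N → ℝ => MvPolynomial.eval x F :=
    MvPolynomial.continuous_eval F
  obtain ⟨C, hC⟩ := (isCompact_univ_pi (fun _ : Fin N => isCompact_Icc (a := (-1 : ℝ))
    (b := 1))).exists_bound_of_continuousOn hc.continuousOn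
  refine Integrable.of_bound hc.aestronglyMeasurable C ?_
  filter_upwards [h1] with x hx
  exact hC x fun j _ => hx j

/-- the upper bound -/
theorem upper {R : ℕ} (hN : 0 < N) (hR : 2 * N ≤ R + 3) {ν : Measure (Fin N → ℝ)}
    [IsProbabilityMeasure ν] (h1 : ∀ᵐ x ∂ν, ∀ j, -1 ≤ x j ∧ x j ≤ 1) (hm : Cl N R ν) :
    ∫ x, cnt x ∂ν ≤ (2 * N - 1) / ((R : ℝ) + 1) - N * (N - 1) / ((R : ℝ) + 1) ^ 2 := by
  have hL : 0 < R + 1 := by omega
  have h2 : ∫ x, cnt x ∂ν ≤ ∫ x, MvPolynomial.eval x (QF N (R + 1)) ∂ν := by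
    refine integral_mono_ae cnt_int (eval_int h1 _) ?_
    filter_upwards [h1] with x hx
    exact cnt_le_fj hL hx
  refine h2.trans (le_of_eq ?_)
  have hdeg : (QF N (R + 1)).totalDegree ≤ R := (QF_deg hL).trans (by omega)
  rw [hm _ hdeg, so_dm (M := R + 1 + 2 * N) hN (by omega) _ hdeg]
  unfold dm
  have e : ∀ l : Fin N → Fin (R + 1 + 2 * N),
      MvPolynomial.eval (nz (R + 1 + 2 * N) l) (QF N (R + 1)) =
      ∑ a, (fj (R + 1)).eval (Real.cos (an (R + 1 + 2 * N) (l a))) := by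
    intro l
    rw [QF_eval]
    rfl
  simp only [e]
  rw [dm_level hN (by omega)
    (fun x : Fin (R + 1 + 2 * N) => (fj (R + 1)).eval (Real.cos (an (R + 1 + 2 * N) x)))]
  rw [Finset.sum_congr rfl fun i _ => fj_level hL (le_refl _) i]
  rw [level_sum hN (by omega)]
  push_cast
  ring

/-! ### the law -/

/-- a finite law -/
def flr {Y : Type*} [Fintype Y] (W : Y → ℝ) (p : Y → Fin N → ℝ) : Measure (Fin N → ℝ) :=
  ∑ y, ENNReal.ofReal (W y) • Measure.dirac (p y)

section
variable {Y : Type*} [Fintype Y] {W : Y → ℝ} {p : Y → Fin N → ℝ}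

lemma flr_prob (hW : ∀ y, 0 ≤ W y) (h1 : ∑ y, W y = 1) : IsProbabilityMeasure (flr W p) := by
  constructor
  unfold flr
  rw [Measure.coe_finsetSum, Finset.sum_apply]
  simp only [Measure.smul_apply, Measure.dirac_apply, Set.mem_univ, Set.indicator_of_mem,
    Pi.one_apply, smul_eq_mul, mul_one]
  rw [← ENNReal.ofReal_sum_of_nonneg fun y _ => hW y, h1, ENNReal.ofReal_one]

lemma flr_int (hW : ∀ y, 0 ≤ W y) (f : (Fin N → ℝ) → ℝ) :
    ∫ z, f z ∂(flr W p) = ∑ y, W y * f (p y) := by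
  unfold flr
  have hint : ∀ y, Integrable f (ENNReal.ofReal (W y) • Measure.dirac (p y)) := by
    intro y
    exact (integrable_dirac (by simp)).smul_measure ENNReal.ofReal_ne_top
  rw [integral_finsetSum_measure fun x _ => hint x]
  refine Finset.sum_congr rfl fun x _ => ?_
  rw [integral_smul_measure, integral_dirac, ENNReal.toReal_ofReal (hW x), smul_eq_mul]

lemma flr_ae {P : (Fin N → ℝ) → Prop} (h : ∀ y, W y ≠ 0 → P (p y)) : ∀ᵐ z ∂(flr W p), P z := by
  unfold flr
  rw [Filter.Eventually, MeasureTheory.mem_ae_iff]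
  rw [Measure.coe_finsetSum, Finset.sum_apply]
  refine Finset.sum_eq_zero fun y _ => ?_
  rw [Measure.smul_apply]
  by_cases hw : W y = 0
  · rw [hw]
    simp
  · have hp := h y hw
    have : (Measure.dirac (p y)) {z | P z}ᶜ = 0 := by
      rw [Measure.dirac_apply]
      simp [hp]
    rw [this]
    simp

end

/-- the weights -/
def gW (N M : ℕ) (l : Fin N → Fin M) : ℝ := Vd (nz M l) / ∑ l' : Fin N → Fin M, Vd (nz M l')

lemma gW_nonneg (M : ℕ) (l : Fin N → Fin M) : 0 ≤ gW N M l :=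
  div_nonneg (Vd_nonneg _) (Finset.sum_nonneg fun _ _ => Vd_nonneg _)

/-- the law -/
def gl (N M : ℕ) : Measure (Fin N → ℝ) := flr (gW N M) (nz M)

lemma gl_prob {M : ℕ} (hN : 0 < N) (hM : 2 * N ≤ M + 1) : IsProbabilityMeasure (gl N M) := by
  refine flr_prob (gW_nonneg M) ?_
  unfold gW
  rw [← Finset.sum_div, div_self (Vd_total_pos hN hM).ne']

lemma gl_range (M : ℕ) : ∀ᵐ x ∂(gl N M), ∀ j, -1 ≤ x j ∧ x j ≤ 1 :=
  flr_ae fun _ _ _ => ⟨Real.neg_one_le_cos _, Real.cos_le_one _⟩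

lemma gW_inj {M : ℕ} {l : Fin N → Fin M} (h : gW N M l ≠ 0) : Function.Injective (nz M l) := by
  refine Vd_inj fun h0 => h ?_
  unfold gW
  rw [h0, zero_div]

lemma gl_distinct (M : ℕ) : ∀ᵐ x ∂(gl N M), Function.Injective x := flr_ae fun _ h => gW_inj h

lemma gl_mom {M R : ℕ} (hN : 0 < N) (hM : 2 * N + R ≤ M + 1) : Cl N R (gl N M) := by
  intro F hF
  rw [so_dm hN hM F hF]
  unfold gl dm
  rw [flr_int (gW_nonneg M), Finset.sum_div]
  refine Finset.sum_congr rfl fun l _ => ?_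
  unfold gW
  ring

lemma nz_one {M : ℕ} (l : Fin N → Fin M) (j : Fin N) : nz M l j = 1 ↔ (l j : ℕ) = 0 := by
  have hlt := (l j).is_lt
  have hM : (0 : ℝ) < M := by exact_mod_cast (by omega : 0 < M)
  unfold nz an
  constructor
  · intro h
    have h1 : 2 * Real.pi * ((l j : ℕ) : ℝ) / M < 2 * Real.pi := by
      rw [div_lt_iff₀ hM]
      have : ((l j : ℕ) : ℝ) < M := by exact_mod_cast hlt
      have := Real.pi_pos
      nlinarith
    have h0 : 0 ≤ 2 * Real.pi * ((l j : ℕ) : ℝ) / M := by positivity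
    have h2 := (Real.cos_eq_one_iff_of_lt_of_lt (by linarith [Real.pi_pos]) h1).1 h
    have h3 : 2 * Real.pi * ((l j : ℕ) : ℝ) = 0 := by
      rcases div_eq_zero_iff.1 h2 with h4 | h4
      · exact h4
      · exact absurd h4 hM.ne'
    have h4 : ((l j : ℕ) : ℝ) = 0 := by
      rcases mul_eq_zero.1 h3 with h5 | h5
      · exact absurd h5 (by positivity)
      · exact h5
    exact_mod_cast h4
  · intro h
    rw [h]
    simp

/-- the mean number of the points at `1` -/
lemma gl_cnt {M : ℕ} (hN : 0 < N) (hM : 2 * N ≤ M + 1) :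
    ∫ x, cnt x ∂(gl N M) = (2 * N - 1) / (M : ℝ) := by
  have hM0 : (M : ℝ) ≠ 0 := by exact_mod_cast (by omega : M ≠ 0)
  unfold gl
  rw [flr_int (gW_nonneg M)]
  have e : ∀ l : Fin N → Fin M, gW N M l * cnt (nz M l) =
      ((∑ a, if (l a : ℕ) = 0 then (1 : ℝ) else 0) * Vd (nz M l)) /
        ∑ l' : Fin N → Fin M, Vd (nz M l') := by
    intro l
    unfold gW cnt
    have : ∀ j, (if nz M l j = 1 then (1 : ℝ) else 0) = if (l j : ℕ) = 0 then (1 : ℝ) else 0 := by
      intro j
      by_cases h : (l j : ℕ) = 0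
      · rw [if_pos h, if_pos ((nz_one l j).2 h)]
      · rw [if_neg h, if_neg fun h2 => h ((nz_one l j).1 h2)]
    simp only [this]
    ring
  simp only [e]
  rw [← Finset.sum_div, dm_level hN hM (fun x : Fin M => if (x : ℕ) = 0 then (1 : ℝ) else 0)]
  have hM' : 0 < M := by omega
  have e2 : ∀ i : Fin N, (∑ x : Fin M, (if (x : ℕ) = 0 then (1 : ℝ) else 0) *
      tc M i x ^ 2) / ((M : ℝ) * hh i) = 1 / ((M : ℝ) * hh i) := by
    intro i
    congr 1
    rw [Finset.sum_eq_single (⟨0, hM'⟩ : Fin M)]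
    · unfold tc an
      simp
    · intro x _ hx
      rw [if_neg fun h => hx (Fin.ext h), zero_mul]
    · intro h
      exact absurd (Finset.mem_univ _) h
  simp only [e2]
  rw [Fin.sum_univ_eq_sum_range (fun i => 1 / ((M : ℝ) * hh i)) N]
  obtain ⟨n, rfl⟩ := Nat.exists_eq_succ_of_ne_zero hN.ne'
  rw [Finset.sum_range_succ']
  have e3 : ∀ i ∈ range n, 1 / ((M : ℝ) * hh (i + 1)) = 2 / (M : ℝ) := by
    intro i _
    unfold hh
    rw [if_neg (by omega)]
    field_simp
  rw [Finset.sum_congr rfl e3]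
  unfold hh
  simp only [Finset.sum_const, Finset.card_range, nsmul_eq_mul, if_true, mul_one,
    Nat.succ_eq_add_one]
  push_cast
  field_simp
  ring

/-- the probability of a point at `1` -/
lemma gl_some {M : ℕ} (hN : 0 < N) (hM : 2 * N ≤ M + 1) :
    ((gl N M) {x | ∃ j, x j = 1}).toReal = (2 * N - 1) / (M : ℝ) := by
  classical
  have := gl_prob (N := N) (M := M) hN hM
  rw [← gl_cnt hN hM]
  have hms : MeasurableSet {x : Fin N → ℝ | ∃ j, x j = 1} := by
    have : {x : Fin N → ℝ | ∃ j, x j = 1} = ⋃ j, {x : Fin N → ℝ | x j = 1} := by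
      ext x
      simp
    rw [this]
    exact MeasurableSet.iUnion fun j =>
      measurableSet_eq_fun (measurable_pi_apply j) measurable_const
  have h1 : ((gl N M) {x | ∃ j, x j = 1}).toReal =
      ∫ x, Set.indicator {x : Fin N → ℝ | ∃ j, x j = 1} (fun _ => (1 : ℝ)) x ∂(gl N M) := by
    rw [integral_indicator hms, setIntegral_const, smul_eq_mul, mul_one]
    rfl
  rw [h1]
  refine integral_congr_ae ?_
  filter_upwards [gl_distinct (N := N) M] with x hx
  unfold cnt
  by_cases h : ∃ j, x j = 1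
  · rw [Set.indicator_of_mem (by exact h)]
    obtain ⟨j, hj⟩ := h
    rw [Finset.sum_eq_single j]
    · rw [if_pos hj]
    · intro i _ hij
      rw [if_neg fun h2 => hij (hx (h2.trans hj.symm))]
    · intro h2
      exact absurd (Finset.mem_univ _) h2
  · rw [Set.indicator_of_notMem (by exact h)]
    push Not at h
    exact (Finset.sum_eq_zero fun j _ => if_neg (h j)).symm

end

end Pool.Agent.H481.OB
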