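import Pool.Agent.H481.SB10

/-!
Points off the circle: sums over configurations with two families of positions, one for the
holomorphic and one for the antiholomorphic factors.
-/

open MvPolynomial Finset MeasureTheory
open Pool.Agent.R319.UM
open Pool.Agent.H481.SB

namespace Pool.Agent.H481.OL

noncomputable section

variable {N K M : ℕ}

/-- the monomial product with two arguments -/
def mon2 (a b : Fin N → ℕ) (z z' : Fin N → ℂ) : ℂ :=
  ∏ j, (z j ^ a j * (starRingEnd ℂ) (z' j ^ b j))

lemma expand2 (P Q : MvPolynomial (Fin N) ℂ) (z z' : Fin N → ℂ) :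
    eval z P * (starRingEnd ℂ) (eval z' Q) =
      ∑ d ∈ P.support, ∑ e ∈ Q.support, P.coeff d * (starRingEnd ℂ) (Q.coeff e) *
        mon2 d e z z' := by
  rw [MvPolynomial.eval_eq', MvPolynomial.eval_eq', map_sum, Finset.sum_mul_sum]
  refine Finset.sum_congr rfl fun d _ => Finset.sum_congr rfl fun e _ => ?_
  unfold mon2
  rw [map_mul, map_prod, Finset.prod_mul_distrib]
  ring

lemma sum_mon2 {X : Type*} [Fintype X] (pos pos' : X → ℂ) (T : Fin N → X → ℂ)
    (d e : Fin N → ℕ) :
    ∑ x : Fin N → X, (∏ k, T k (x k)) * mon2 d e (fun k => pos (x k)) (fun k => pos' (x k)) =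
      ∏ k, ∑ x, T k x * (pos x ^ d k * (starRingEnd ℂ) (pos' x ^ e k)) := by
  classical
  rw [Finset.prod_univ_sum, Fintype.piFinset_univ]
  refine Finset.sum_congr rfl fun x _ => ?_
  unfold mon2
  rw [← Finset.prod_mul_distrib]

lemma sum_expand2 {X : Type*} [Fintype X] (pos pos' : X → ℂ) (T : Fin N → X → ℂ)
    (P Q : MvPolynomial (Fin N) ℂ) :
    ∑ x : Fin N → X, (∏ k, T k (x k)) *
        (eval (fun k => pos (x k)) P * (starRingEnd ℂ) (eval (fun k => pos' (x k)) Q)) =
      ∑ d ∈ P.support, ∑ e ∈ Q.support, P.coeff d * (starRingEnd ℂ) (Q.coeff e) *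
        ∏ k, ∑ x, T k x * (pos x ^ d k * (starRingEnd ℂ) (pos' x ^ e k)) := by
  simp only [expand2, ← sum_mon2]
  simp only [Finset.mul_sum]
  rw [Finset.sum_comm]
  refine Finset.sum_congr rfl fun d _ => ?_
  rw [Finset.sum_comm]
  refine Finset.sum_congr rfl fun e _ => Finset.sum_congr rfl fun x _ => ?_
  ring

theorem swap2 {X Y : Type*} [Fintype X] [Fintype Y] {D : ℕ} (pos pos' : X → ℂ)
    (qos qos' : Y → ℂ) (T : Fin N → X → ℂ) (T' : Fin N → Y → ℂ)
    (h : ∀ k, ∀ a < D, ∀ b < D, ∑ x, T k x * (pos x ^ a * (starRingEnd ℂ) (pos' x ^ b)) =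
      ∑ x, T' k x * (qos x ^ a * (starRingEnd ℂ) (qos' x ^ b)))
    (P Q : MvPolynomial (Fin N) ℂ) (hP : ∀ j, P.degreeOf j < D) (hQ : ∀ j, Q.degreeOf j < D) :
    ∑ x : Fin N → X, (∏ k, T k (x k)) *
        (eval (fun k => pos (x k)) P * (starRingEnd ℂ) (eval (fun k => pos' (x k)) Q)) =
      ∑ x : Fin N → Y, (∏ k, T' k (x k)) *
        (eval (fun k => qos (x k)) P * (starRingEnd ℂ) (eval (fun k => qos' (x k)) Q)) := by
  rw [sum_expand2, sum_expand2]
  refine Finset.sum_congr rfl fun d hd => Finset.sum_congr rfl fun e he => ?_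
  congr 1
  refine Finset.prod_congr rfl fun k _ => h k _ ?_ _ ?_
  · exact lt_of_le_of_lt (MvPolynomial.monomial_le_degreeOf k hd) (hP k)
  · exact lt_of_le_of_lt (MvPolynomial.monomial_le_degreeOf k he) (hQ k)

variable (d : Data K M) (p' : Fin M → Bool → ℂ)

/-- the positions of the antiholomorphic factors -/
def pos' : XX K M → ℂ := Sum.elim d.g (fun q => p' q.1 q.2)

/-- the fields match the sources at the low frequencies -/
def Match2 (D : ℕ) : Prop :=
  ∀ l, ∀ a < D, ∀ b < D, ∑ k, d.ps l k * (K : ℂ)⁻¹ * (d.g k ^ a * (starRingEnd ℂ) (d.g k ^ b)) =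
    d.a * (d.p l true ^ a * (starRingEnd ℂ) (p' l true ^ b) -
      d.p l false ^ a * (starRingEnd ℂ) (p' l false ^ b))

lemma T_mom2 {D : ℕ} (hd : Match2 d p' D) (L : ℕ) (s : Fin M → Bool) (w : Fin M → Fin L)
    {a b : ℕ} (ha : a < D) (hb : b < D) :
    ∑ x, d.T L s w x * (d.pos x ^ a * (starRingEnd ℂ) (pos' d p' x ^ b)) =
      ∑ x, d.T' L w x * (d.pos x ^ a * (starRingEnd ℂ) (pos' d p' x ^ b)) := by
  rw [Fintype.sum_sum_type, Fintype.sum_sum_type, Fintype.sum_prod_type, Fintype.sum_prod_type]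
  simp only [Data.T, Data.T', Data.pos, pos', Sum.elim_inl, Sum.elim_inr, Fintype.sum_bool,
    sg_true, sg_false]
  have e1 : ∀ k, (1 + ∑ l, sg (s l) * d.ps l k) * (K : ℂ)⁻¹ *
      (d.g k ^ a * (starRingEnd ℂ) (d.g k ^ b)) =
      (K : ℂ)⁻¹ * (d.g k ^ a * (starRingEnd ℂ) (d.g k ^ b)) +
        ∑ l, sg (s l) * (d.ps l k * (K : ℂ)⁻¹ * (d.g k ^ a * (starRingEnd ℂ) (d.g k ^ b))) := by
    intro k
    rw [add_mul, add_mul, one_mul, Finset.sum_mul, Finset.sum_mul]
    congr 1
    refine Finset.sum_congr rfl fun l _ => ?_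
    ring
  simp only [e1]
  rw [Finset.sum_add_distrib, add_assoc]
  congr 1
  rw [Finset.sum_comm]
  simp only [← Finset.mul_sum, hd _ _ ha _ hb]
  rw [← Finset.sum_add_distrib]
  refine Finset.sum_congr rfl fun l _ => ?_
  unfold tt
  ring

lemma BB_mom2 (hg : d.Grid) {a b : ℕ} (ha : a < K) (hb : b < K) :
    ∑ x, BB K M x * (d.pos x ^ a * (starRingEnd ℂ) (pos' d p' x ^ b)) =
      if a = b then 1 else 0 := by
  rw [Fintype.sum_sum_type]
  simp only [BB, Sum.elim_inl, Sum.elim_inr, zero_mul, Finset.sum_const_zero, add_zero, Data.pos,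
    pos']
  simp only [hg _]
  rw [← Finset.mul_sum, one_disc (by omega) ha hb]
  have : (K : ℂ) ≠ 0 := by
    have : 0 < K := by omega
    exact_mod_cast this.ne'
  split_ifs
  · field_simp
  · simp

/-- the holomorphic form of the squared Vandermonde determinant -/
def VV (x : Fin N → XX K M) : ℂ :=
  eval (fun k => d.pos (x k)) (VP N) * (starRingEnd ℂ) (eval (fun k => pos' d p' (x k)) (VP N))

/-- **the exact identity** -/
theorem exact_id2 (hN : 0 < N) {D R : ℕ} (hD : N + R ≤ D) (hK : D ≤ K) (hg : d.Grid)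
    (hd : Match2 d p' D) {L : ℕ}
    (hL : N < L) (hL2 : 2 < L) (F G : MvPolynomial (Fin N) ℂ) (hF : F.totalDegree ≤ R)
    (hG : G.totalDegree ≤ R) :
    ∑ x : Fin N → XX K M, d.W L x * VV d p' x *
      (eval (fun k => d.pos (x k)) F * (starRingEnd ℂ) (eval (fun k => pos' d p' (x k)) G)) =
      (N.factorial : ℂ) *
        cue (fun z => eval z F * (starRingEnd ℂ) (eval z G)) := by
  have hdeg : ∀ P : MvPolynomial (Fin N) ℂ, P.totalDegree ≤ R →
      ∀ j, (P * VP N).degreeOf j < D := by
    intro P hP j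
    refine lt_of_le_of_lt (MvPolynomial.degreeOf_mul_le _ _ _) ?_
    have h1 := MvPolynomial.degreeOf_le_totalDegree P j
    have h2 := VP_deg hN j
    omega
  have e0 : ∀ x : Fin N → XX K M, d.W L x * VV d p' x *
      (eval (fun k => d.pos (x k)) F * (starRingEnd ℂ) (eval (fun k => pos' d p' (x k)) G)) =
      d.W L x * (eval (fun k => d.pos (x k)) (F * VP N) *
        (starRingEnd ℂ) (eval (fun k => pos' d p' (x k)) (G * VP N))) := by
    intro x
    unfold VV
    rw [map_mul, map_mul, map_mul]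
    ring
  simp only [e0]
  have e1 : ∀ x : Fin N → XX K M, d.W L x *
      (eval (fun k => d.pos (x k)) (F * VP N) *
        (starRingEnd ℂ) (eval (fun k => pos' d p' (x k)) (G * VP N))) =
      EE M L (fun s w => (∏ k, d.T L s w (x k)) * (eval (fun k => d.pos (x k)) (F * VP N) *
        (starRingEnd ℂ) (eval (fun k => pos' d p' (x k)) (G * VP N)))) := by
    intro x
    unfold Data.W
    rw [← EE_mul']
  simp only [e1]
  rw [← EE_sum]
  have e2 : ∀ s w, ∑ x : Fin N → XX K M, (∏ k, d.T L s w (x k)) *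
      (eval (fun k => d.pos (x k)) (F * VP N) *
        (starRingEnd ℂ) (eval (fun k => pos' d p' (x k)) (G * VP N))) =
      ∑ x : Fin N → XX K M, (∏ k, d.T' L w (x k)) *
      (eval (fun k => d.pos (x k)) (F * VP N) *
        (starRingEnd ℂ) (eval (fun k => pos' d p' (x k)) (G * VP N))) := by
    intro s w
    exact swap2 d.pos (pos' d p') d.pos (pos' d p') (fun _ => d.T L s w) (fun _ => d.T' L w)
      (fun k a ha b hb => T_mom2 d p' hd L s w ha hb) _ _ (hdeg F hF) (hdeg G hG)
  simp only [e2]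
  rw [EE_sum]
  have e3 : ∀ x : Fin N → XX K M, EE M L (fun _ w => (∏ k, d.T' L w (x k)) *
      (eval (fun k => d.pos (x k)) (F * VP N) *
        (starRingEnd ℂ) (eval (fun k => pos' d p' (x k)) (G * VP N)))) =
      (∏ k, BB K M (x k)) * (eval (fun k => d.pos (x k)) (F * VP N) *
        (starRingEnd ℂ) (eval (fun k => pos' d p' (x k)) (G * VP N))) := by
    intro x
    rw [EE_mul' _ (fun _ w => (∏ k, d.T' L w (x k))), EE_T' d hL hL2]
  simp only [e3]
  have hK0 : 0 < K := by omega
  have e4 := swap2 (D := D) d.pos (pos' d p')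
    (fun k : Fin K => Complex.exp (2 * Real.pi * Complex.I / K) ^ (k : ℕ))
    (fun k : Fin K => Complex.exp (2 * Real.pi * Complex.I / K) ^ (k : ℕ))
    (fun _ : Fin N => BB K M) (fun _ _ => (K : ℂ)⁻¹) (fun k a ha b hb => by
      rw [BB_mom2 d p' hg (by omega) (by omega), ← Finset.mul_sum,
        one_disc (by omega) (by omega) (by omega)]
      have : (K : ℂ) ≠ 0 := by exact_mod_cast hK0.ne'
      split_ifs
      · field_simp
      · simp) (F * VP N) (G * VP N) (hdeg F hF) (hdeg G hG)
  rw [e4, cue_as_grid hN (by omega : N + R ≤ K) F G hF hG]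
  refine Finset.sum_congr rfl fun x _ => ?_
  have h5 : gz K x = fun r => Complex.exp (2 * Real.pi * Complex.I / K) ^ (x r : ℕ) := rfl
  rw [h5, ← VP_eval, map_mul, map_mul, map_mul]
  ring

/-- the Vandermonde determinant of a degenerate configuration -/
lemma VP_zero {z : Fin N → ℂ} (h : ¬ Function.Injective z) : eval z (VP N) = 0 := by
  have h1 : eval z (VP N) = (Matrix.vandermonde z).det := by
    unfold VP
    rw [RingHom.map_det]
    congr 1
    ext a b
    simp [Matrix.vandermonde_apply]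
  rw [h1]
  by_contra hne
  exact h (Matrix.det_vandermonde_ne_zero_iff.1 hne)

lemma VV_zero {x : Fin N → XX K M} (h : ¬ Function.Injective x) : VV d p' x = 0 := by
  unfold VV
  rw [VP_zero, zero_mul]
  intro h2
  apply h
  intro a b hab
  exact h2 (by simp only [hab])

/-- the mass of the configurations in which the slots `i` and `j` are at the two points of the
source `l` -/
theorem two_id2 (hN : 0 < N) {D : ℕ} (hD : N ≤ D) (hd : Match2 d p' D) {L : ℕ}
    (hL : N < L) (hL2 : 2 < L) {i j : Fin N} (hij : i ≠ j) (l : Fin M) :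
    ∑ x : Fin N → XX K M, (if x i = Sum.inr (l, true) then (1 : ℂ) else 0) *
      (if x j = Sum.inr (l, false) then 1 else 0) *
      (d.W L x * VV d p' x) =
      d.a ^ 2 * ∑ x : Fin N → XX K M,
        (∏ k, two i j (Sum.inr (l, true)) (Sum.inr (l, false)) (BB K M) k (x k)) *
          VV d p' x := by
  classical
  set u : XX K M := Sum.inr (l, true) with hu
  set v : XX K M := Sum.inr (l, false) with hv
  have hdeg : ∀ j, (VP N).degreeOf j < D := by
    intro j
    have h2 := VP_deg hN j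
    omega
  have e1 : ∀ x : Fin N → XX K M, (if x i = u then (1 : ℂ) else 0) *
      (if x j = v then 1 else 0) * (d.W L x * VV d p' x) =
      EE M L (fun s w => (- d.a ^ 2 * tt L (s l) (w l) ^ 2) *
        ((∏ k, two i j u v (d.T L s w) k (x k)) * VV d p' x)) := by
    intro x
    unfold Data.W
    rw [← EE_mul', ← EE_mul]
    congr 1
    funext s w
    rw [two_prod hij]
    by_cases hi : x i = u
    · by_cases hj : x j = v
      · rw [← Finset.mul_prod_erase univ (fun k => d.T L s w (x k)) (Finset.mem_univ i),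
          ← Finset.mul_prod_erase (univ.erase i) (fun k => d.T L s w (x k))
            (Finset.mem_erase.2 ⟨hij.symm, Finset.mem_univ j⟩)]
        have t1 : d.T L s w (x i) = d.a * tt L (s l) (w l) := by
          rw [hi, hu]
          simp [Data.T]
        have t2 : d.T L s w (x j) = - d.a * tt L (s l) (w l) := by
          rw [hj, hv]
          simp [Data.T]
        rw [t1, t2, if_pos hi, if_pos hj]
        ring
      · rw [if_neg hj]
        ring
    · rw [if_neg hi]
      ring
  simp only [e1]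
  rw [← EE_sum]
  have e2 : ∀ s w, ∑ x : Fin N → XX K M, (- d.a ^ 2 * tt L (s l) (w l) ^ 2) *
      ((∏ k, two i j u v (d.T L s w) k (x k)) * VV d p' x) =
      ∑ x : Fin N → XX K M, (- d.a ^ 2) * ((tt L (s l) (w l) ^ 2 *
      (∏ k, two i j u v (d.T' L w) k (x k))) * VV d p' x) := by
    intro s w
    rw [← Finset.mul_sum]
    have h := swap2 (D := D) d.pos (pos' d p') d.pos (pos' d p') (two i j u v (d.T L s w))
      (two i j u v (d.T' L w)) (fun k a ha b hb => by
        unfold two
        by_cases hki : k = i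
        · simp only [if_pos hki]
        · by_cases hkj : k = j
          · simp only [if_pos hkj, if_neg hki]
          · simp only [if_neg hkj, if_neg hki]
            exact T_mom2 d p' hd L s w ha hb) (VP N) (VP N) hdeg hdeg
    unfold VV
    rw [h, Finset.mul_sum]
    refine Finset.sum_congr rfl fun x _ => ?_
    ring
  simp only [e2]
  rw [EE_sum, Finset.mul_sum]
  refine Finset.sum_congr rfl fun x _ => ?_
  rw [EE_mul]
  have e3 : EE M L (fun s w => (tt L (s l) (w l) ^ 2 * (∏ k, two i j u v (d.T' L w) k (x k))) *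
      VV d p' x) =
      (- ∏ k, two i j u v (BB K M) k (x k)) * VV d p' x := by
    rw [EE_mul' _ (fun s w => tt L (s l) (w l) ^ 2 * (∏ k, two i j u v (d.T' L w) k (x k)))]
    by_cases hinj : Function.Injective x
    · congr 1
      simp only [two_prod hij]
      by_cases hi : x i = u
      · by_cases hj : x j = v
        · simp only [if_pos hi, if_pos hj, one_mul]
          refine EE_T'2 d hL hL2 _ x l ?_
          unfold cnt
          refine Finset.sum_eq_zero fun k hk => ?_
          rw [Finset.mem_erase, Finset.mem_erase] at hk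
          unfold ee
          rw [if_neg]
          intro hs
          rcases hx : x k with q | ⟨l', b⟩
          · rw [hx] at hs
            simp [src] at hs
          · rw [hx] at hs
            simp only [src, Sum.elim_inr, Option.some.injEq] at hs
            subst hs
            cases b
            · exact hk.1 (hinj (by rw [hx, hj]))
            · exact hk.2.1 (hinj (by rw [hx, hi]))
        · simp only [if_neg hj, mul_zero, zero_mul, neg_zero]
          unfold EE
          simp
      · simp only [if_neg hi, mul_zero, zero_mul, neg_zero]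
        unfold EE
        simp
    · rw [VV_zero d p' hinj]
      simp
  rw [e3]
  ring

/-! ### the determinant -/

lemma VV_perm (x : Fin N → XX K M) :
    VV d p' x = ∑ σ : Equiv.Perm (Fin N), ∑ π : Equiv.Perm (Fin N),
      (((Equiv.Perm.sign σ : ℤ) : ℂ) * ((Equiv.Perm.sign π : ℤ) : ℂ)) *
        mon2 (fun k => (σ k : ℕ)) (fun k => (π k : ℕ)) (fun k => d.pos (x k))
          (fun k => pos' d p' (x k)) := by
  unfold VV
  rw [VP_perm, VP_perm, map_sum, Finset.sum_mul_sum]
  refine Finset.sum_congr rfl fun σ _ => Finset.sum_congr rfl fun π _ => ?_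
  unfold mon2
  rw [map_mul, map_prod, Finset.prod_mul_distrib]
  have : (starRingEnd ℂ) ((Equiv.Perm.sign π : ℤ) : ℂ) = ((Equiv.Perm.sign π : ℤ) : ℂ) := by
    simp
  rw [this]
  ring

lemma sum_VV (T : Fin N → XX K M → ℂ) :
    ∑ x : Fin N → XX K M, (∏ k, T k (x k)) * VV d p' x =
      ∑ σ : Equiv.Perm (Fin N), ∑ ρ : Equiv.Perm (Fin N), ((Equiv.Perm.sign ρ : ℤ) : ℂ) *
        ∏ k, ∑ x, T k x * (d.pos x ^ (σ k : ℕ) *
          (starRingEnd ℂ) (pos' d p' x ^ (σ (ρ k) : ℕ))) := by
  simp only [VV_perm, Finset.mul_sum]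
  rw [Finset.sum_comm]
  refine Finset.sum_congr rfl fun σ _ => ?_
  rw [Finset.sum_comm]
  rw [← Equiv.sum_comp (Equiv.mulLeft σ)]
  refine Finset.sum_congr rfl fun ρ _ => ?_
  have h := sum_mon2 d.pos (pos' d p') T (fun k => (σ k : ℕ)) (fun k => (σ (ρ k) : ℕ))
  simp only [Equiv.coe_mulLeft, Equiv.Perm.coe_mul, Function.comp_apply, Equiv.Perm.sign_mul]
  rw [← h, Finset.mul_sum]
  refine Finset.sum_congr rfl fun x _ => ?_
  have hs : ((Equiv.Perm.sign σ : ℤ) : ℂ) * ((Equiv.Perm.sign σ : ℤ) : ℂ) = 1 := by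
    rcases Int.units_eq_one_or (Equiv.Perm.sign σ) with h | h <;> rw [h] <;> simp
  push_cast
  linear_combination (∏ k, T k (x k)) * ((Equiv.Perm.sign ρ : ℤ) : ℂ) *
    mon2 (fun k => (σ k : ℕ)) (fun k => (σ (ρ k) : ℕ)) (fun k => d.pos (x k))
      (fun k => pos' d p' (x k)) * hs

lemma pow_one_of {z w : ℂ} (h : z * (starRingEnd ℂ) w = 1) (n : ℕ) :
    z ^ n * (starRingEnd ℂ) (w ^ n) = 1 := by
  rw [map_pow, ← mul_pow, h, one_pow]

/-- the two point function -/
lemma two_det2 (hg : d.Grid) (hNK : N ≤ K)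
    (hp : ∀ l b, d.p l b * (starRingEnd ℂ) (p' l b) = 1) {i j : Fin N}
    (hij : i ≠ j) (l : Fin M) :
    ∑ x : Fin N → XX K M,
        (∏ k, two i j (Sum.inr (l, true)) (Sum.inr (l, false)) (BB K M) k (x k)) *
          VV d p' x =
      ∑ σ : Equiv.Perm (Fin N), (1 - (d.p l true * (starRingEnd ℂ) (p' l false)) ^ (σ i : ℕ) *
        (d.p l false * (starRingEnd ℂ) (p' l true)) ^ (σ j : ℕ)) := by
  classical
  rw [sum_VV]
  refine Finset.sum_congr rfl fun σ _ => ?_
  set μ : Fin N → ℕ → ℕ → ℂ := fun k α β =>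
    ∑ x, two i j (Sum.inr (l, true)) (Sum.inr (l, false)) (BB K M) k x *
      (d.pos x ^ α * (starRingEnd ℂ) (pos' d p' x ^ β)) with hμ
  have m1 : ∀ α β, μ i α β = d.p l true ^ α * (starRingEnd ℂ) (p' l true ^ β) := by
    intro α β
    rw [hμ]
    simp only [two, if_true, ite_mul, one_mul, zero_mul, Finset.sum_ite_eq', Finset.mem_univ]
    simp [Data.pos, pos']
  have m2 : ∀ α β, μ j α β = d.p l false ^ α * (starRingEnd ℂ) (p' l false ^ β) := by
    intro α β
    rw [hμ]
    simp only [two, if_true, if_neg hij.symm, ite_mul, one_mul, zero_mul, Finset.sum_ite_eq',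
      Finset.mem_univ]
    simp [Data.pos, pos']
  have m3 : ∀ k, k ≠ i → k ≠ j → ∀ α < K, ∀ β < K, μ k α β = if α = β then 1 else 0 := by
    intro k hki hkj α hα β hβ
    rw [hμ]
    simp only [two, if_neg hki, if_neg hkj]
    exact BB_mom2 d p' hg hα hβ
  have hlt : ∀ k : Fin N, (k : ℕ) < K := fun k => lt_of_lt_of_le k.2 hNK
  change ∑ ρ : Equiv.Perm (Fin N), ((Equiv.Perm.sign ρ : ℤ) : ℂ) *
    ∏ k, μ k (σ k) (σ (ρ k)) = _
  have hne : (1 : Equiv.Perm (Fin N)) ≠ Equiv.swap i j := by
    intro h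
    have := congrArg (fun e : Equiv.Perm (Fin N) => e i) h
    simp at this
    exact hij this
  rw [← Finset.sum_subset (Finset.subset_univ {(1 : Equiv.Perm (Fin N)), Equiv.swap i j}),
    Finset.sum_pair hne]
  · have hS : ∀ (f : Fin N → ℂ), ∏ k, f k = f i * (f j * ∏ k ∈ (univ.erase i).erase j, f k) := by
      intro f
      rw [← Finset.mul_prod_erase univ _ (Finset.mem_univ i),
        ← Finset.mul_prod_erase (univ.erase i) _
          (Finset.mem_erase.2 ⟨hij.symm, Finset.mem_univ j⟩)]
    have p1 : ∏ k, μ k (σ k) (σ ((1 : Equiv.Perm (Fin N)) k)) = 1 := by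
      rw [hS, m1, m2, Finset.prod_eq_one]
      · simp only [Equiv.Perm.coe_one, id_eq]
        rw [pow_one_of (hp _ _), pow_one_of (hp _ _)]
        ring
      · intro k hk
        rw [Finset.mem_erase, Finset.mem_erase] at hk
        rw [m3 k hk.2.1 hk.1 _ (hlt _) _ (hlt _)]
        simp
    have p2 : ∏ k, μ k (σ k) (σ ((Equiv.swap i j) k)) =
        (d.p l true * (starRingEnd ℂ) (p' l false)) ^ (σ i : ℕ) *
        (d.p l false * (starRingEnd ℂ) (p' l true)) ^ (σ j : ℕ) := by
      rw [hS, m1, m2, Finset.prod_eq_one]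
      · rw [Equiv.swap_apply_left, Equiv.swap_apply_right]
        simp only [map_pow, mul_pow]
        ring
      · intro k hk
        rw [Finset.mem_erase, Finset.mem_erase] at hk
        rw [m3 k hk.2.1 hk.1 _ (hlt _) _ (hlt _), Equiv.swap_apply_of_ne_of_ne hk.2.1 hk.1]
        simp
    rw [p1, p2, Equiv.Perm.sign_one, Equiv.Perm.sign_swap hij]
    push_cast
    ring
  · intro ρ _ hρ
    have : ∃ k, k ≠ i ∧ k ≠ j ∧ ρ k ≠ k := by
      by_contra hc
      push Not at hc
      rcases perm_two hc with h | h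
      · exact hρ (by rw [h]; simp)
      · exact hρ (by rw [h]; simp)
    obtain ⟨k, hki, hkj, hk⟩ := this
    rw [Finset.prod_eq_zero (Finset.mem_univ k), mul_zero]
    rw [m3 k hki hkj _ (hlt _) _ (hlt _), if_neg]
    intro h
    exact hk (σ.injective (Fin.ext h)).symm

end

end Pool.Agent.H481.OL
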