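import Pool.Agent.H481.OL1

/-!
Points off the circle: the masses of the configurations.
-/

open MvPolynomial Finset MeasureTheory
open Pool.Agent.R319.UM
open Pool.Agent.H481.SB

namespace Pool.Agent.H481.OL

noncomputable section

variable {N K M : ℕ}

/-- the permutation of the slots that exchanges the points of the sources -/
lemma exists_perm {x : Fin N → XX K M} (hx : Good x) :
    ∃ π : Equiv.Perm (Fin N), π ^ 2 = 1 ∧ ∀ k, x (π k) = par (x k) := by
  have h : ∀ k, ∃ j, x j = par (x k) := by
    intro k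
    rcases hk : x k with q | q
    · exact ⟨k, hk⟩
    · obtain ⟨j, hj⟩ := good_par hx hk
      exact ⟨j, by rw [hj, hk]⟩
  choose f hf using h
  have hinv : Function.Involutive f := by
    intro k
    apply hx.1
    rw [hf, hf, par_par]
  refine ⟨hinv.toPerm f, ?_, hf⟩
  ext k
  rw [sq]
  simp [hinv k]

lemma VP_perm_eq (z : Fin N → ℂ) (π : Equiv.Perm (Fin N)) :
    eval (fun k => z (π k)) (VP N) = ((Equiv.Perm.sign π : ℤ) : ℂ) * eval z (VP N) := by
  have h : ∀ z : Fin N → ℂ, eval z (VP N) = (Matrix.vandermonde z).det := by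
    intro z
    unfold VP
    rw [RingHom.map_det]
    congr 1
    ext a b
    simp [Matrix.vandermonde_apply]
  rw [h, h, ← Matrix.det_permute]
  rfl

/-- number of the slots at sources -/
def nsrc (x : Fin N → XX K M) : ℕ := (univ.filter fun k => par (x k) ≠ x k).card

lemma par_ne_iff (x : XX K M) : par x ≠ x ↔ ∃ q, x = Sum.inr q := by
  rcases x with k | ⟨l, b⟩
  · simp [par]
  · cases b <;> simp [par]

lemma fac_pow (c : ℂ) (x : Fin N → XX K M) : ∏ k, fac c (x k) = c ^ nsrc x := by
  unfold nsrc
  rw [← Finset.prod_const, Finset.prod_filter]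
  refine Finset.prod_congr rfl fun k _ => ?_
  by_cases h : par (x k) ≠ x k
  · rw [if_pos h]
    obtain ⟨q, hq⟩ := (par_ne_iff _).1 h
    rw [hq]
    simp [fac]
  · rw [if_neg h]
    rcases hk : x k with i | q
    · simp [fac]
    · exact absurd ((par_ne_iff _).2 ⟨q, hk⟩) h

lemma nsrc_eq (x : Fin N → XX K M) : nsrc x = ∑ l, cnt univ x l := by
  unfold nsrc
  rw [Finset.card_filter]
  unfold cnt
  rw [Finset.sum_comm]
  refine Finset.sum_congr rfl fun i _ => ?_
  by_cases h : par (x i) ≠ x i
  · rw [if_pos h]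
    obtain ⟨⟨l, b⟩, hq⟩ := (par_ne_iff _).1 h
    rw [hq]
    simp [ee, src]
  · rw [if_neg h]
    rcases hk : x i with k | q
    · simp [ee, src]
    · exact absurd ((par_ne_iff _).2 ⟨q, hk⟩) h

lemma nsrc_even {x : Fin N → XX K M} (hx : Good x) : Even (nsrc x) := by
  classical
  rw [nsrc_eq]
  refine Finset.even_sum _ fun l _ => ?_
  rw [cnt_good hx]
  split_ifs
  · exact even_two
  · exact Even.zero

lemma sign_eq {x : Fin N → XX K M} (hx : Good x) {π : Equiv.Perm (Fin N)} (h2 : π ^ 2 = 1)
    (hπ : ∀ k, x (π k) = par (x k)) :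
    ((Equiv.Perm.sign π : ℤ) : ℂ) = (-1) ^ (nsrc x / 2) := by
  classical
  rw [Equiv.Perm.sign_of_pow_two_eq_one h2]
  have e : Fintype.card (Fin N) - Fintype.card (Function.fixedPoints π) = nsrc x := by
    have h1 : Fintype.card (Function.fixedPoints π) = (univ.filter fun k => π k = k).card := by
      rw [Fintype.card_subtype]
      rfl
    rw [h1]
    unfold nsrc
    have h3 : (univ.filter fun k => par (x k) ≠ x k) = (univ.filter fun k => ¬ (π k = k)) := by
      ext k
      simp only [Finset.mem_filter, Finset.mem_univ, true_and]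
      rw [← hπ]
      exact not_congr ⟨fun h => hx.1 h, fun h => by rw [h]⟩
    rw [h3]
    have h4 := Finset.card_filter_add_card_filter_not (s := (univ : Finset (Fin N)))
      (fun k => π k = k)
    rw [Finset.card_univ] at h4
    omega
  rw [e]
  push_cast
  rfl

variable (d : Data K M)

/-- the positions of the partners -/
def flip (d : Data K M) : Fin M → Bool → ℂ := fun l b => d.p l (!b)

lemma pos'_flip (x : XX K M) : pos' d (flip d) x = d.pos (par x) := by
  rcases x with k | ⟨l, b⟩ <;> rfl

lemma VV_good {x : Fin N → XX K M} (hx : Good x) :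
    VV d (flip d) x * ∏ k, fac Complex.I (x k) = (V2 (fun k => d.pos (x k)) : ℂ) := by
  obtain ⟨π, h2, hπ⟩ := exists_perm hx
  have e1 : (fun k => pos' d (flip d) (x k)) = fun k => d.pos (x (π k)) := by
    funext k
    rw [pos'_flip, hπ]
  unfold VV
  rw [e1, VP_perm_eq (fun k => d.pos (x k)) π, map_mul, sign_eq hx h2 hπ, fac_pow,
    ← VP_eval]
  obtain ⟨m, hm⟩ := nsrc_even hx
  have h3 : nsrc x / 2 = m := by omega
  rw [h3, hm, pow_add, ← mul_pow, Complex.I_mul_I, map_pow, map_neg, map_one]
  have h4 : ((-1 : ℂ) ^ m) * ((-1) ^ m) = 1 := by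
    rw [← mul_pow]
    norm_num
  linear_combination (eval (fun k => d.pos (x k)) (VP N) *
    (starRingEnd ℂ) (eval (fun k => d.pos (x k)) (VP N))) * h4

open Classical in
/-- the mass of a configuration -/
def Wo (a : ℂ) (x : Fin N → XX K M) : ℂ :=
  if Good x then (∑ s : Fin M → Bool, ∏ k, d.Gm s (x k)) / 2 ^ M * (∏ k, fac a (x k)) *
    (V2 (fun k => d.pos (x k)) : ℂ)
  else 0

theorem Wo_eq {L : ℕ} (hL2 : 2 < L) {a : ℂ} (ha : d.a = a * Complex.I)
    (x : Fin N → XX K M) :
    d.W L x * VV d (flip d) x = Wo d a x := by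
  unfold Wo
  by_cases hg : Good x
  · rw [if_pos hg, W_inj d hL2 hg.1, ← VV_good d hg]
    simp only [ka_eq, Finset.prod_mul_distrib]
    have h1 := sgn_good hg
    have h2 : ∏ k, fac d.a (x k) = (∏ k, fac a (x k)) * ∏ k, fac Complex.I (x k) := by
      rw [← Finset.prod_mul_distrib]
      refine Finset.prod_congr rfl fun k _ => ?_
      rcases x k with q | q <;> simp [fac, ha]
    rw [h2]
    linear_combination ((∑ s : Fin M → Bool, ∏ k, d.Gm s (x k)) / 2 ^ M *
      (∏ k, fac a (x k)) * (∏ k, fac Complex.I (x k)) * VV d (flip d) x) * h1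
  · rw [if_neg hg]
    by_cases hinj : Function.Injective x
    · rw [W_inj d hL2 hinj, bad_zero hinj hg]
      ring
    · rw [VV_zero d _ hinj]
      ring

/-- symmetric polynomials do not see the exchange of the points of the sources -/
lemma sym_flip {x : Fin N → XX K M} (hx : Good x) {G : MvPolynomial (Fin N) ℂ}
    (hG : G.IsSymmetric) : eval (fun k => pos' d (flip d) (x k)) G =
      eval (fun k => d.pos (x k)) G := by
  obtain ⟨π, -, hπ⟩ := exists_perm hx
  have e1 : (fun k => pos' d (flip d) (x k)) = (fun k => d.pos (x k)) ∘ π := by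
    funext k
    rw [pos'_flip, Function.comp_apply, hπ]
  rw [e1, ← MvPolynomial.eval_rename, hG π]

end

end Pool.Agent.H481.OL
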