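import Pool.Agent.H481.OL2

/-!
Points off the circle: the concrete data, with Poisson kernels as fields.
-/

open MvPolynomial Finset MeasureTheory
open Pool.Agent.R319.UM
open Pool.Agent.H481.SB

namespace Pool.Agent.H481.OL

noncomputable section

variable {N D : ℕ}

/-- the field of a source at the relative position `u` -/
def kr (D : ℕ) (δ : ℝ) (u : ℂ) : ℂ :=
  ∑ j ∈ range (2 * D), 2 * Complex.I * Complex.sinh (((j : ℤ) + 1 - D : ℤ) * δ) *
    u ^ ((j : ℤ) + 1 - D)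

/-- the amplitude -/
def ao (D : ℕ) (δ : ℝ) : ℝ := (2 * D * Real.sinh (D * δ))⁻¹

/-- the data -/
def dt (D : ℕ) (δ : ℝ) : Data (2 * D) D where
  g := gr D
  p := fun l b => ct D l * Complex.exp (sg b * δ)
  ps := fun l k => ao D δ * kr D δ (ct D l * (starRingEnd ℂ) (gr D k))
  a := ao D δ * Complex.I

lemma sg_conj (b : Bool) : (starRingEnd ℂ) (sg b) = sg b := by cases b <;> simp

lemma dt_pair (δ : ℝ) (l : Fin D) (b : Bool) :
    (dt D δ).p l b * (starRingEnd ℂ) (flip (dt D δ) l b) = 1 := by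
  simp only [dt, flip]
  rw [map_mul, ← Complex.exp_conj, map_mul, sg_conj, Complex.conj_ofReal]
  have h := unit_pow (ct_norm l) 1
  rw [pow_one] at h
  have h2 : Complex.exp (sg b * δ) * Complex.exp (sg (!b) * δ) = 1 := by
    rw [← Complex.exp_add]
    cases b <;> simp
  linear_combination h2 * (ct D l * (starRingEnd ℂ) (ct D l)) + h

lemma exp_moment (δ : ℝ) (l : Fin D) (b : Bool) (a c : ℕ) :
    (ct D l * Complex.exp (sg b * δ)) ^ a *
      (starRingEnd ℂ) ((ct D l * Complex.exp (sg (!b) * δ)) ^ c) =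
      ct D l ^ ((a : ℤ) - c) * Complex.exp (sg b * (((a : ℤ) - c : ℤ) * δ)) := by
  rw [mul_pow, mul_pow, map_mul, ← unit_zpow (ct_norm l)]
  have h1 : (starRingEnd ℂ) (Complex.exp (sg (!b) * δ) ^ c) = Complex.exp (sg (!b) * δ) ^ c := by
    rw [map_pow, ← Complex.exp_conj, map_mul, sg_conj, Complex.conj_ofReal]
  have h2 : Complex.exp (sg b * δ) ^ a * Complex.exp (sg (!b) * δ) ^ c =
      Complex.exp (sg b * (((a : ℤ) - c : ℤ) * δ)) := by
    rw [← Complex.exp_nat_mul, ← Complex.exp_nat_mul, ← Complex.exp_add]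
    congr 1
    push_cast
    cases b <;> simp <;> ring
  rw [h1, ← h2]
  ring

theorem dt_match (hD : 0 < D) (δ : ℝ) : Match2 (dt D δ) (flip (dt D δ)) D := by
  intro l a ha b hb
  simp only [dt, flip]
  have hct : ct D l ≠ 0 := by
    intro h0
    have := ct_norm l
    rw [h0, norm_zero] at this
    norm_num at this
  have hgr : ∀ k, gr D k ≠ 0 := by
    intro k h0
    have := gr_norm k
    rw [h0, norm_zero] at this
    norm_num at this
  have hgc : ∀ k, (starRingEnd ℂ) (gr D k) = (gr D k)⁻¹ :=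
    fun k => (Complex.inv_eq_conj (gr_norm k)).symm
  set m : ℤ := (a : ℤ) - b with hm
  have t1 := exp_moment δ l true a b
  have t2 := exp_moment δ l false a b
  rw [← hm] at t1 t2
  rw [t1, t2, ← mul_sub, sg_true, sg_false, one_mul]
  have e0 : Complex.exp ((m : ℂ) * δ) - Complex.exp (-1 * ((m : ℂ) * δ)) =
      2 * Complex.sinh (m * δ) := by
    rw [Complex.sinh, neg_one_mul]
    ring
  rw [e0]
  have e1 : ∀ k, ao D δ * kr D δ (ct D l * (starRingEnd ℂ) (gr D k)) *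
      ((2 * D : ℕ) : ℂ)⁻¹ * (gr D k ^ a * (starRingEnd ℂ) (gr D k ^ b)) =
      ∑ j ∈ range (2 * D), (ao D δ * (2 * Complex.I) * ((2 * D : ℕ) : ℂ)⁻¹ *
        Complex.sinh (((j : ℤ) + 1 - D : ℤ) * δ) *
        ct D l ^ ((j : ℤ) + 1 - D)) * gr D k ^ (m - ((j : ℤ) + 1 - D)) := by
    intro k
    rw [unit_zpow (gr_norm k), ← hm]
    unfold kr
    rw [Finset.mul_sum, Finset.sum_mul, Finset.sum_mul]
    refine Finset.sum_congr rfl fun j _ => ?_
    rw [mul_zpow, hgc, inv_zpow, zpow_sub₀ (hgr k) m ((j : ℤ) + 1 - D), div_eq_mul_inv]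
    ring
  simp only [e1]
  rw [Finset.sum_comm]
  simp only [← Finset.mul_sum]
  have e2 : ∀ j ∈ range (2 * D), (ao D δ * (2 * Complex.I) * ((2 * D : ℕ) : ℂ)⁻¹ *
        Complex.sinh (((j : ℤ) + 1 - D : ℤ) * δ) *
        ct D l ^ ((j : ℤ) + 1 - D)) * ∑ k, gr D k ^ (m - ((j : ℤ) + 1 - D)) =
      if j = (m + D - 1).toNat then ao D δ * (2 * Complex.I) *
        Complex.sinh (m * δ) * ct D l ^ m else 0 := by
    intro j hj
    rw [Finset.mem_range] at hj
    rw [gr_orth hD (by omega) (by omega)]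
    by_cases hjm : j = (m + D - 1).toNat
    · rw [if_pos hjm, if_pos (by omega)]
      have h2 : (j : ℤ) + 1 - D = m := by omega
      rw [h2]
      have : ((2 * D : ℕ) : ℂ) ≠ 0 := by
        have : 0 < 2 * D := by omega
        exact_mod_cast this.ne'
      field_simp
    · rw [if_neg hjm, if_neg (by omega), mul_zero]
  rw [Finset.sum_congr rfl e2, Finset.sum_ite_eq', if_pos (by rw [Finset.mem_range]; omega)]
  ring

/-! ### the closed form of the field -/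

lemma geo_z {A : ℂ} (hA : A ≠ 0) : (A - 1) * ∑ j ∈ range (2 * D), A ^ ((j : ℤ) + 1 - D) =
    A ^ ((1 : ℤ) - D) * (A ^ (2 * D) - 1) := by
  have h : ∑ j ∈ range (2 * D), A ^ ((j : ℤ) + 1 - D) =
      A ^ ((1 : ℤ) - D) * ∑ j ∈ range (2 * D), A ^ j := by
    rw [Finset.mul_sum]
    refine Finset.sum_congr rfl fun j _ => ?_
    rw [← zpow_natCast A j, ← zpow_add₀ hA]
    congr 1
    ring
  rw [h]
  have := mul_geom_sum A (2 * D)
  linear_combination A ^ ((1 : ℤ) - D) * this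

lemma kr_closed {δ : ℝ} {u : ℂ} (hu1 : ‖u‖ = 1) (hu : u ^ (2 * D) = -1) :
    kr D δ u * ((‖u - Complex.exp δ‖ ^ 2 : ℝ) : ℂ) =
      -(2 * Complex.I * Complex.cosh (D * δ) * u ^ (-(D : ℤ)) * (Complex.exp δ ^ 2 - 1)) := by
  set r := Complex.exp (δ : ℂ) with hr
  have hr0 : r ≠ 0 := Complex.exp_ne_zero _
  have hu0 : u ≠ 0 := by
    intro h0
    rw [h0, norm_zero] at hu1
    norm_num at hu1
  have hrn : ∀ n : ℤ, r ^ n = Complex.exp (n * δ) := by
    intro n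
    rw [hr, ← Complex.exp_int_mul]
  have hk : kr D δ u = Complex.I * (∑ j ∈ range (2 * D), (r * u) ^ ((j : ℤ) + 1 - D) -
      ∑ j ∈ range (2 * D), (r⁻¹ * u) ^ ((j : ℤ) + 1 - D)) := by
    unfold kr
    rw [← Finset.sum_sub_distrib, Finset.mul_sum]
    refine Finset.sum_congr rfl fun j _ => ?_
    rw [mul_zpow, mul_zpow, inv_zpow, ← zpow_neg, hrn, hrn, Complex.sinh]
    push_cast
    ring_nf
  have hA := geo_z (D := D) (mul_ne_zero hr0 hu0)
  have hB := geo_z (D := D) (mul_ne_zero (inv_ne_zero hr0) hu0)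
  set SA := ∑ j ∈ range (2 * D), (r * u) ^ ((j : ℤ) + 1 - D) with hSA
  set SB := ∑ j ∈ range (2 * D), (r⁻¹ * u) ^ ((j : ℤ) + 1 - D) with hSB
  rw [mul_pow, hu, mul_zpow] at hA hB
  have hc : r ^ (-(D : ℤ)) * (r ^ (2 * D) + 1) = 2 * Complex.cosh (D * δ) := by
    have h1 : r ^ (-(D : ℤ)) * r ^ (2 * D) = r ^ (D : ℤ) := by
      rw [← zpow_natCast r (2 * D), ← zpow_add₀ hr0]
      congr 1
      push_cast
      ring
    rw [mul_add, h1, mul_one, hrn, hrn, Complex.cosh]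
    push_cast
    ring_nf
  have hA' : (r * u - 1) * SA = -(u ^ ((1 : ℤ) - D) * r * (2 * Complex.cosh (D * δ))) := by
    rw [hA, ← hc]
    have : r ^ ((1 : ℤ) - D) = r * r ^ (-(D : ℤ)) := by
      rw [sub_eq_add_neg, zpow_add₀ hr0, zpow_one]
    rw [this]
    ring
  have hB' : (r⁻¹ * u - 1) * SB = -(u ^ ((1 : ℤ) - D) * r⁻¹ * (2 * Complex.cosh (D * δ))) := by
    rw [hB, ← hc]
    have h1 : r⁻¹ ^ ((1 : ℤ) - D) = r⁻¹ * r ^ (D : ℤ) := by
      rw [inv_zpow, ← zpow_neg, neg_sub, sub_eq_add_neg, zpow_add₀ hr0, zpow_neg_one, mul_comm]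
    have h2 : r⁻¹ ^ (2 * D) * r ^ (D : ℤ) = r ^ (-(D : ℤ)) := by
      rw [inv_pow, ← zpow_natCast r (2 * D), ← zpow_neg, ← zpow_add₀ hr0]
      congr 1
      push_cast
      ring
    have h3 : r ^ (D : ℤ) = r ^ (-(D : ℤ)) * r ^ (2 * D) := by
      rw [← zpow_natCast r (2 * D), ← zpow_add₀ hr0]
      congr 1
      push_cast
      ring
    rw [h1]
    linear_combination (-(u ^ ((1 : ℤ) - D) * r⁻¹)) * h2 - (u ^ ((1 : ℤ) - D) * r⁻¹) * h3
  have hn : ((‖u - r‖ ^ 2 : ℝ) : ℂ) * u = -((r * u - 1) * (u - r)) := by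
    rw [← Complex.normSq_eq_norm_sq, ← Complex.mul_conj, map_sub]
    have h1 : (starRingEnd ℂ) u = u⁻¹ := (Complex.inv_eq_conj hu1).symm
    have h2 : (starRingEnd ℂ) r = r := by
      rw [hr, ← Complex.exp_conj, Complex.conj_ofReal]
    rw [h1, h2]
    field_simp
    ring
  have hB'' : (u - r) * SB = -(u ^ ((1 : ℤ) - D) * (2 * Complex.cosh (D * δ))) := by
    have : (u - r) = r * (r⁻¹ * u - 1) := by
      field_simp
    rw [this, mul_assoc, hB']
    field_simp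
  have hu1D : u ^ ((1 : ℤ) - D) = u * u ^ (-(D : ℤ)) := by
    rw [sub_eq_add_neg, zpow_add₀ hu0, zpow_one]
  apply mul_right_cancel₀ hu0
  rw [hk]
  rw [hu1D] at hA' hB''
  calc Complex.I * (SA - SB) * ((‖u - r‖ ^ 2 : ℝ) : ℂ) * u
      = Complex.I * (SA - SB) * (((‖u - r‖ ^ 2 : ℝ) : ℂ) * u) := by ring
    _ = -(Complex.I * (((r * u - 1) * SA) * (u - r) - ((u - r) * SB) * (r * u - 1))) := by
        rw [hn]; ring
    _ = _ := by
        rw [hA', hB'']
        ring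

lemma kr_norm {δ : ℝ} (hδ : 0 < δ) {u : ℂ} (hu1 : ‖u‖ = 1) (hu : u ^ (2 * D) = -1) :
    ‖kr D δ u‖ * ‖u - Complex.exp δ‖ ^ 2 =
      2 * Real.cosh (D * δ) * (Real.exp δ ^ 2 - 1) := by
  have h := congrArg norm (kr_closed (D := D) (δ := δ) hu1 hu)
  have h1 : (Complex.exp δ ^ 2 - 1 : ℂ) = ((Real.exp δ ^ 2 - 1 : ℝ) : ℂ) := by
    push_cast
    rfl
  have h2 : Complex.cosh (D * δ) = ((Real.cosh (D * δ) : ℝ) : ℂ) := by
    push_cast
    rfl
  have hr : 1 ≤ Real.exp δ := Real.one_le_exp hδ.le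
  rw [norm_mul, Complex.norm_real, norm_neg, norm_mul, norm_mul, norm_mul, norm_mul, norm_zpow,
    hu1, one_zpow, Complex.norm_I, h1, h2, Complex.norm_real, Complex.norm_real,
    Real.norm_of_nonneg (by positivity), Real.norm_of_nonneg (Real.cosh_pos _).le,
    Real.norm_of_nonneg (by nlinarith)] at h
  rw [h]
  simp

lemma kr_real {δ : ℝ} {u : ℂ} (hu1 : ‖u‖ = 1) (hu : u ^ (2 * D) = -1)
    (hne : u ≠ Complex.exp δ) : (starRingEnd ℂ) (kr D δ u) = kr D δ u := by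
  have h := kr_closed (D := D) (δ := δ) hu1 hu
  have h0 : ((‖u - Complex.exp δ‖ ^ 2 : ℝ) : ℂ) ≠ 0 := by
    have : ‖u - Complex.exp δ‖ ≠ 0 := norm_ne_zero_iff.2 (sub_ne_zero.2 hne)
    exact_mod_cast pow_ne_zero 2 this
  have hu0 : u ≠ 0 := by
    intro h0
    rw [h0, norm_zero] at hu1
    norm_num at hu1
  apply mul_right_cancel₀ h0
  rw [h]
  have h2 := congrArg (starRingEnd ℂ) h
  rw [map_mul, Complex.conj_ofReal] at h2
  rw [h2]
  have h1 : (starRingEnd ℂ) u = u⁻¹ := (Complex.inv_eq_conj hu1).symm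
  have hc : (starRingEnd ℂ) (Complex.cosh (D * δ)) = Complex.cosh (D * δ) := by
    have : Complex.cosh (D * δ) = ((Real.cosh (D * δ) : ℝ) : ℂ) := by push_cast; rfl
    rw [this, Complex.conj_ofReal]
  have he : (starRingEnd ℂ) (Complex.exp δ) = Complex.exp δ := by
    rw [← Complex.exp_conj, Complex.conj_ofReal]
  simp only [map_neg, map_mul, map_sub, map_pow, map_one, map_zpow₀, h1, hc, he, Complex.conj_I,
    map_ofNat]
  have h3 : u⁻¹ ^ (-(D : ℤ)) = - u ^ (-(D : ℤ)) := by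
    have h4 : u⁻¹ ^ (-(D : ℤ)) = u ^ (2 * D) * u ^ (-(D : ℤ)) := by
      rw [inv_zpow, ← zpow_neg, ← zpow_natCast u (2 * D), ← zpow_add₀ hu0]
      congr 1
      push_cast
      ring
    rw [h4, hu]
    ring
  rw [h3]
  ring

/-- Parseval for all moduli -/
lemma parseval2 (hD : 0 < D) (x : ℂ) :
    ∑ l, ‖∑ j ∈ range D, x ^ j * ct D l ^ (D - 1 - j)‖ ^ 2 =
      D * ∑ j ∈ range D, (‖x‖ ^ 2) ^ j := by
  have e : ∀ l, ((‖∑ j ∈ range D, x ^ j * ct D l ^ (D - 1 - j)‖ ^ 2 : ℝ) : ℂ) =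
      ∑ j ∈ range D, ∑ j' ∈ range D, (x ^ j * (starRingEnd ℂ) (x ^ j')) *
        (ct D l ^ (D - 1 - j) * (starRingEnd ℂ) (ct D l ^ (D - 1 - j'))) := by
    intro l
    rw [← Complex.normSq_eq_norm_sq, ← Complex.mul_conj, map_sum, Finset.sum_mul_sum]
    refine Finset.sum_congr rfl fun j _ => Finset.sum_congr rfl fun j' _ => ?_
    rw [map_mul]
    ring
  have key : ((∑ l, ‖∑ j ∈ range D, x ^ j * ct D l ^ (D - 1 - j)‖ ^ 2 : ℝ) : ℂ) =
      ((D * ∑ j ∈ range D, (‖x‖ ^ 2) ^ j : ℝ) : ℂ) := by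
    rw [Complex.ofReal_sum]
    simp only [e]
    rw [Finset.sum_comm]
    have e2 : ∀ j ∈ range D, ∑ l, ∑ j' ∈ range D,
        (x ^ j * (starRingEnd ℂ) (x ^ j')) *
        (ct D l ^ (D - 1 - j) * (starRingEnd ℂ) (ct D l ^ (D - 1 - j'))) =
        D * (((‖x‖ ^ 2) ^ j : ℝ) : ℂ) := by
      intro j hj
      rw [Finset.mem_range] at hj
      rw [Finset.sum_comm, Finset.sum_eq_single j]
      · rw [← Finset.mul_sum, ct_orth hD (by omega) (by omega), if_pos rfl, Complex.mul_conj,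
          Complex.normSq_eq_norm_sq, norm_pow]
        push_cast
        ring
      · intro j' hj' hne
        rw [Finset.mem_range] at hj'
        rw [← Finset.mul_sum, ct_orth hD (by omega) (by omega), if_neg (by omega), mul_zero]
      · intro h
        exact absurd (Finset.mem_range.2 hj) h
    rw [Finset.sum_congr rfl e2, ← Finset.mul_sum]
    push_cast
    ring
  exact_mod_cast key

/-- the sum of the moduli of the fields -/
lemma kr_sum (hD : 0 < D) {δ : ℝ} (hδ : 0 < δ) (k : Fin (2 * D)) :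
    ∑ l, ‖kr D δ (ct D l * (starRingEnd ℂ) (gr D k))‖ = 2 * D * Real.sinh (D * δ) := by
  set ρ := Real.exp δ with hρ
  have hρ1 : 1 < ρ := Real.one_lt_exp_iff.2 hδ
  have hρc : Complex.exp δ = (ρ : ℂ) := by
    rw [hρ]
    push_cast
    rfl
  have hy := parseval2 hD ((ρ : ℂ) * gr D k)
  have hyn : ‖(ρ : ℂ) * gr D k‖ = ρ := by
    rw [norm_mul, gr_norm, mul_one, Complex.norm_real, Real.norm_of_nonneg (by positivity)]
  rw [hyn] at hy
  have hd : ∀ l, ‖((ρ : ℂ) * gr D k) ^ D - ct D l ^ D‖ ^ 2 = ρ ^ (2 * D) + 1 := by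
    intro l
    rw [mul_pow, gr_half hD, ct_half hD, ← Complex.normSq_eq_norm_sq]
    obtain ⟨q, hq⟩ : ∃ q : ℝ, q = ρ ^ D := ⟨_, rfl⟩
    have h1 : ((ρ : ℂ) ^ D) = (q : ℂ) := by rw [hq]; push_cast; rfl
    have h2 : ρ ^ (2 * D) = q ^ 2 := by rw [hq, ← pow_mul, mul_comm]
    rw [h1, h2]
    rcases neg_one_pow_eq_or ℂ (k : ℕ) with h | h <;> rw [h] <;>
      simp [Complex.normSq_apply] <;> ring
  have hdist : ∀ l, ‖ct D l * (starRingEnd ℂ) (gr D k) - Complex.exp δ‖ =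
      ‖(ρ : ℂ) * gr D k - ct D l‖ := by
    intro l
    have : ct D l * (starRingEnd ℂ) (gr D k) - Complex.exp δ =
        -(((ρ : ℂ) * gr D k - ct D l) * (starRingEnd ℂ) (gr D k)) := by
      have h := unit_pow (gr_norm k) 1
      rw [pow_one] at h
      rw [hρc]
      linear_combination (ρ : ℂ) * h
    rw [this, norm_neg, norm_mul, Complex.norm_conj, gr_norm, mul_one]
  have hpos : 0 < ρ ^ (2 * D) + 1 := by positivity
  have e : ∀ l, ‖kr D δ (ct D l * (starRingEnd ℂ) (gr D k))‖ =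
      (2 * Real.cosh (D * δ) * (ρ ^ 2 - 1) / (ρ ^ (2 * D) + 1)) *
        ‖∑ j ∈ range D, ((ρ : ℂ) * gr D k) ^ j * ct D l ^ (D - 1 - j)‖ ^ 2 := by
    intro l
    have h1 := kr_norm (D := D) hδ (rel_norm l k) (rel_pow hD l k)
    rw [hdist] at h1
    have h2 : ((ρ : ℂ) * gr D k) ^ D - ct D l ^ D =
        (∑ j ∈ range D, ((ρ : ℂ) * gr D k) ^ j * ct D l ^ (D - 1 - j)) *
          ((ρ : ℂ) * gr D k - ct D l) :=
      (Commute.geom_sum₂_mul (Commute.all _ _) _).symm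
    have h3 := hd l
    rw [h2, norm_mul, mul_pow] at h3
    have h4 : ‖(ρ : ℂ) * gr D k - ct D l‖ ^ 2 ≠ 0 := by
      intro h0
      rw [h0, mul_zero] at h3
      linarith
    rw [← hρ] at h1
    rw [div_mul_eq_mul_div, eq_div_iff hpos.ne', ← h3]
    linear_combination
      ‖∑ j ∈ range D, ((ρ : ℂ) * gr D k) ^ j * ct D l ^ (D - 1 - j)‖ ^ 2 * h1
  simp only [e]
  rw [← Finset.mul_sum, hy]
  have h5 : (ρ ^ 2 - 1) * ∑ j ∈ range D, (ρ ^ 2) ^ j = ρ ^ (2 * D) - 1 := by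
    rw [mul_geom_sum, ← pow_mul]
  have h6 : Real.cosh (D * δ) * (ρ ^ (2 * D) - 1) = Real.sinh (D * δ) * (ρ ^ (2 * D) + 1) := by
    have h7 : ρ ^ (2 * D) = Real.exp (D * δ) ^ 2 := by
      rw [hρ, ← Real.exp_nat_mul, ← Real.exp_nat_mul]
      congr 1
      push_cast
      ring
    have h8 : Real.exp (D * δ) * Real.exp (-(D * δ)) = 1 := by
      rw [← Real.exp_add]
      simp
    rw [h7, Real.cosh_eq, Real.sinh_eq]
    linear_combination (Real.exp (D * δ)) * h8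
  rw [div_mul_eq_mul_div, div_eq_iff hpos.ne']
  linear_combination (2 * Real.cosh (D * δ) * D) * h5 + (2 * D : ℝ) * h6

end

end Pool.Agent.H481.OL
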