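import Pool.Agent.H481.OL3

/-!
Points off the circle: the law.
-/

open MvPolynomial Finset MeasureTheory
open Pool.Agent.R319.UM
open Pool.Agent.H481.SB

namespace Pool.Agent.H481.OL

noncomputable section

variable {N D : ℕ}

lemma ao_pos (hD : 0 < D) {δ : ℝ} (hδ : 0 < δ) : 0 < ao D δ := by
  have hDr : (0 : ℝ) < D := by exact_mod_cast hD
  have : 0 < Real.sinh (D * δ) := Real.sinh_pos_iff.2 (by positivity)
  unfold ao
  positivity

lemma Gm_nno (hD : 0 < D) {δ : ℝ} (hδ : 0 < δ) (s : Fin D → Bool) (x : XX (2 * D) D) :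
    NN ((dt D δ).Gm s x) := by
  have hDr : (0 : ℝ) < D := by exact_mod_cast hD
  have hao := ao_pos hD hδ
  rcases x with k | q
  · simp only [Data.Gm, Sum.elim_inl, dt]
    refine NN.mul ?_ ⟨((2 * D : ℕ) : ℝ)⁻¹, by positivity, by push_cast; rfl⟩
    set z : ℂ := ∑ l, sg (s l) * (ao D δ * kr D δ (ct D l * (starRingEnd ℂ) (gr D k))) with hz
    have hne : ∀ l, ct D l * (starRingEnd ℂ) (gr D k) ≠ Complex.exp δ := by
      intro l h
      have h1 := congrArg norm h
      rw [rel_norm] at h1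
      have h2 : ‖Complex.exp (δ : ℂ)‖ = Real.exp δ := by
        rw [Complex.norm_exp, Complex.ofReal_re]
      rw [h2] at h1
      have := Real.one_lt_exp_iff.2 hδ
      linarith
    have hr : (starRingEnd ℂ) z = z := by
      rw [hz, map_sum]
      refine Finset.sum_congr rfl fun l _ => ?_
      rw [map_mul, map_mul, kr_real (rel_norm l k) (rel_pow hD l k) (hne l), Complex.conj_ofReal,
        sg_conj]
    have hn : ‖z‖ ≤ 1 := by
      calc ‖z‖ ≤ ∑ l, ‖sg (s l) * (ao D δ * kr D δ (ct D l * (starRingEnd ℂ) (gr D k)))‖ :=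
            norm_sum_le _ _
        _ = ∑ l, ao D δ * ‖kr D δ (ct D l * (starRingEnd ℂ) (gr D k))‖ := by
          refine Finset.sum_congr rfl fun l _ => ?_
          rw [norm_mul, norm_mul, Complex.norm_real, Real.norm_eq_abs, abs_of_pos hao]
          cases s l <;> simp
        _ = 1 := by
          rw [← Finset.mul_sum, kr_sum hD hδ]
          unfold ao
          have : 0 < Real.sinh (D * δ) := Real.sinh_pos_iff.2 (by positivity)
          field_simp
    have hre : z = (z.re : ℂ) := (Complex.conj_eq_iff_re.1 hr).symm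
    refine ⟨1 + z.re, ?_, ?_⟩
    · have := Complex.abs_re_le_norm z
      have := neg_abs_le z.re
      linarith
    · rw [hre]
      push_cast
      simp
  · simp only [Data.Gm, Sum.elim_inr]
    exact ⟨1, zero_le_one, by simp⟩

lemma Wo_nn (hD : 0 < D) {δ : ℝ} (hδ : 0 < δ) (x : Fin N → XX (2 * D) D) :
    NN (Wo (dt D δ) (ao D δ : ℂ) x) := by
  classical
  have hao := ao_pos hD hδ
  unfold Wo
  by_cases h : Good x
  · rw [if_pos h]
    refine NN.mul (NN.mul ?_ ?_) ?_
    · rw [div_eq_mul_inv]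
      refine NN.mul (NN.sum _ _ fun s _ => NN.prod _ _ fun k _ => Gm_nno hD hδ s (x k)) ?_
      exact ⟨((2 : ℝ) ^ D)⁻¹, by positivity, by push_cast; rfl⟩
    · refine NN.prod _ _ fun k _ => ?_
      rcases x k with q | q
      · exact ⟨1, zero_le_one, by simp [fac]⟩
      · exact ⟨ao D δ, hao.le, by simp [fac]⟩
    · refine ⟨V2 (fun k => (dt D δ).pos (x k)), ?_, rfl⟩
      unfold V2
      exact Finset.prod_nonneg fun i _ => Finset.prod_nonneg fun j _ => by positivity
  · rw [if_neg h]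
    exact ⟨0, le_refl _, by simp⟩

theorem id_o (hN : 0 < N) {R : ℕ} (hD : N + R ≤ D) (δ : ℝ) (F G : MvPolynomial (Fin N) ℂ)
    (hF : F.totalDegree ≤ R) (hG : G.totalDegree ≤ R) (hGs : G.IsSymmetric) :
    ∑ x : Fin N → XX (2 * D) D, Wo (dt D δ) (ao D δ : ℂ) x *
      (eval (fun k => (dt D δ).pos (x k)) F *
        (starRingEnd ℂ) (eval (fun k => (dt D δ).pos (x k)) G)) =
      (N.factorial : ℂ) * cue (fun z => eval z F * (starRingEnd ℂ) (eval z G)) := by
  have h := exact_id2 (dt D δ) (flip (dt D δ)) hN hD (by omega) (fun _ => rfl)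
    (dt_match (by omega) δ) (L := N + 3) (by omega) (by omega) F G hF hG
  rw [← h]
  refine Finset.sum_congr rfl fun x _ => ?_
  rw [Wo_eq (dt D δ) (by omega) (a := (ao D δ : ℂ)) rfl x]
  by_cases hg : Good x
  · rw [sym_flip (dt D δ) hg hGs]
  · have : Wo (dt D δ) (ao D δ : ℂ) x = 0 := by
      unfold Wo
      rw [if_neg hg]
    rw [this, zero_mul, zero_mul]

/-- the sum of squares of hyperbolic sines -/
def SS (N : ℕ) (δ : ℝ) : ℝ := ∑ a : Fin N, ∑ b : Fin N, Real.sinh (δ * ((a : ℕ) - (b : ℕ))) ^ 2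

lemma sinh_sum (δ : ℝ) : ∑ a : Fin N, ∑ b : Fin N,
    (1 - Real.exp (2 * δ) ^ (a : ℕ) * Real.exp (-(2 * δ)) ^ (b : ℕ)) = -(2 * SS N δ) := by
  have h5 : (∑ a : Fin N, ∑ b : Fin N,
      (1 - Real.exp (2 * δ) ^ (a : ℕ) * Real.exp (-(2 * δ)) ^ (b : ℕ))) * 2 =
      (-(2 * SS N δ)) * 2 := by
    unfold SS
    rw [mul_two]
    nth_rewrite 2 [Finset.sum_comm]
    rw [← Finset.sum_add_distrib, Finset.mul_sum, ← Finset.sum_neg_distrib, Finset.sum_mul]
    refine Finset.sum_congr rfl fun a _ => ?_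
    rw [← Finset.sum_add_distrib, Finset.mul_sum, ← Finset.sum_neg_distrib, Finset.sum_mul]
    refine Finset.sum_congr rfl fun b _ => ?_
    have e1 : ∀ a b : ℕ, Real.exp (2 * δ) ^ a * Real.exp (-(2 * δ)) ^ b =
        Real.exp (δ * ((a : ℝ) - b)) ^ 2 := by
      intro a b
      rw [← Real.exp_nat_mul, ← Real.exp_nat_mul, ← Real.exp_nat_mul, ← Real.exp_add]
      congr 1
      push_cast
      ring
    rw [e1, e1]
    have e2 : Real.exp (δ * (((b : ℕ) : ℝ) - ((a : ℕ) : ℝ))) =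
        Real.exp (-(δ * (((a : ℕ) : ℝ) - ((b : ℕ) : ℝ)))) := by
      congr 1
      ring
    have e3 : Real.exp (δ * (((a : ℕ) : ℝ) - ((b : ℕ) : ℝ))) *
        Real.exp (-(δ * (((a : ℕ) : ℝ) - ((b : ℕ) : ℝ)))) = 1 := by
      rw [← Real.exp_add]
      simp
    rw [e2, Real.sinh_eq]
    linear_combination (-2 : ℝ) * e3
  linarith

theorem count_o (hN : 0 < N) (hD : N ≤ D) (δ : ℝ) (l : Fin D) :
    ∑ i : Fin N, ∑ j ∈ univ.erase i, ∑ x : Fin N → XX (2 * D) D,
      (if x i = Sum.inr (l, true) then (1 : ℂ) else 0) *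
      (if x j = Sum.inr (l, false) then 1 else 0) * Wo (dt D δ) (ao D δ : ℂ) x =
      (N.factorial : ℂ) * ((ao D δ ^ 2 * (2 * SS N δ) : ℝ) : ℂ) := by
  have e1 : ∀ i : Fin N, ∀ j ∈ univ.erase i, ∑ x : Fin N → XX (2 * D) D,
      (if x i = Sum.inr (l, true) then (1 : ℂ) else 0) *
      (if x j = Sum.inr (l, false) then 1 else 0) * Wo (dt D δ) (ao D δ : ℂ) x =
      (dt D δ).a ^ 2 * ∑ σ : Equiv.Perm (Fin N),
        (1 - ((dt D δ).p l true * (starRingEnd ℂ) (flip (dt D δ) l false)) ^ (σ i : ℕ) *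
        ((dt D δ).p l false * (starRingEnd ℂ) (flip (dt D δ) l true)) ^ (σ j : ℕ)) := by
    intro i j hj
    have hij : i ≠ j := (Finset.ne_of_mem_erase hj).symm
    have h2 := two_id2 (dt D δ) (flip (dt D δ)) hN hD (dt_match (by omega) δ) (L := N + 3)
      (by omega) (by omega) hij l
    rw [two_det2 (dt D δ) (flip (dt D δ)) (fun _ => rfl) (by omega) (dt_pair δ) hij l] at h2
    rw [← h2]
    refine Finset.sum_congr rfl fun x _ => ?_
    rw [Wo_eq (dt D δ) (by omega) (a := (ao D δ : ℂ)) rfl x]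
  simp only [Finset.sum_congr rfl (e1 _)]
  simp only [← Finset.mul_sum]
  have hU1 : (dt D δ).p l true * (starRingEnd ℂ) (flip (dt D δ) l false) =
      ((Real.exp (2 * δ) : ℝ) : ℂ) := by
    simp only [dt, flip, Bool.not_false, sg_true, one_mul]
    rw [map_mul, ← Complex.exp_conj, Complex.conj_ofReal]
    have h := unit_pow (ct_norm l) 1
    rw [pow_one] at h
    have h2 : Complex.exp (δ : ℂ) * Complex.exp δ = ((Real.exp (2 * δ) : ℝ) : ℂ) := by
      rw [← Complex.exp_add]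
      push_cast
      congr 1
      ring
    rw [← h2]
    linear_combination (Complex.exp (δ : ℂ) * Complex.exp δ) * h
  have hU2 : (dt D δ).p l false * (starRingEnd ℂ) (flip (dt D δ) l true) =
      ((Real.exp (-(2 * δ)) : ℝ) : ℂ) := by
    simp only [dt, flip, Bool.not_true, sg_false]
    rw [map_mul, ← Complex.exp_conj, map_mul, map_neg, map_one, Complex.conj_ofReal]
    have h := unit_pow (ct_norm l) 1
    rw [pow_one] at h
    have h2 : Complex.exp (-1 * δ : ℂ) * Complex.exp (-1 * δ) =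
        ((Real.exp (-(2 * δ)) : ℝ) : ℂ) := by
      rw [← Complex.exp_add]
      push_cast
      congr 1
      ring
    rw [← h2]
    linear_combination (Complex.exp (-1 * δ : ℂ) * Complex.exp (-1 * δ)) * h
  rw [hU1, hU2]
  rw [slots (fun a b => 1 - ((Real.exp (2 * δ) : ℝ) : ℂ) ^ a *
    ((Real.exp (-(2 * δ)) : ℝ) : ℂ) ^ b) (fun a => by
      rw [← mul_pow, ← Complex.ofReal_mul, ← Real.exp_add]
      simp)]
  have h3 : ∑ a : Fin N, ∑ b : Fin N, (1 - ((Real.exp (2 * δ) : ℝ) : ℂ) ^ (a : ℕ) *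
      ((Real.exp (-(2 * δ)) : ℝ) : ℂ) ^ (b : ℕ)) = ((-(2 * SS N δ) : ℝ) : ℂ) := by
    rw [← sinh_sum]
    push_cast
    rfl
  rw [h3]
  simp only [dt]
  push_cast
  linear_combination (-(N.factorial : ℂ) * (ao D δ : ℂ) ^ 2 * (2 * (SS N δ : ℂ))) * Complex.I_sq

/-! ### the law -/

/-- the probability of a configuration -/
def wo (N D : ℕ) (δ : ℝ) (x : Fin N → XX (2 * D) D) : ℝ :=
  (Wo (dt D δ) (ao D δ : ℂ) x).re / N.factorial

lemma wo_eq (hD : 0 < D) {δ : ℝ} (hδ : 0 < δ) (x : Fin N → XX (2 * D) D) :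
    (wo N D δ x : ℂ) = Wo (dt D δ) (ao D δ : ℂ) x / N.factorial := by
  obtain ⟨r, _, h⟩ := Wo_nn hD hδ x
  unfold wo
  rw [h, Complex.ofReal_re]
  push_cast
  rfl

lemma wo_nonneg (hD : 0 < D) {δ : ℝ} (hδ : 0 < δ) (x : Fin N → XX (2 * D) D) :
    0 ≤ wo N D δ x := by
  obtain ⟨r, hr, h⟩ := Wo_nn hD hδ x
  unfold wo
  rw [h, Complex.ofReal_re]
  positivity

lemma wo_good {δ : ℝ} {x : Fin N → XX (2 * D) D} (h : wo N D δ x ≠ 0) : Good x := by
  by_contra hg
  apply h
  unfold wo Wo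
  rw [if_neg hg]
  simp

/-- **the law** -/
def lawo (N D : ℕ) (δ : ℝ) : Measure (Fin N → ℂ) :=
  ∑ x : Fin N → XX (2 * D) D,
    ENNReal.ofReal (wo N D δ x) • Measure.dirac (fun k => (dt D δ).pos (x k))

lemma lawo_int (hD : 0 < D) {δ : ℝ} (hδ : 0 < δ) {E : Type*} [NormedAddCommGroup E]
    [NormedSpace ℝ E] [CompleteSpace E] (f : (Fin N → ℂ) → E) :
    ∫ z, f z ∂(lawo N D δ) =
      ∑ x : Fin N → XX (2 * D) D, wo N D δ x • f (fun k => (dt D δ).pos (x k)) := by
  unfold lawo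
  have hint : ∀ x : Fin N → XX (2 * D) D,
      Integrable f (ENNReal.ofReal (wo N D δ x) •
        Measure.dirac (fun k => (dt D δ).pos (x k))) := by
    intro x
    exact (integrable_dirac (by simp)).smul_measure ENNReal.ofReal_ne_top
  rw [integral_finsetSum_measure fun x _ => hint x]
  refine Finset.sum_congr rfl fun x _ => ?_
  rw [integral_smul_measure, integral_dirac, ENNReal.toReal_ofReal (wo_nonneg hD hδ x)]

lemma lawo_ae {δ : ℝ} {p : (Fin N → ℂ) → Prop}
    (h : ∀ x : Fin N → XX (2 * D) D, Good x → p (fun k => (dt D δ).pos (x k))) :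
    ∀ᵐ z ∂(lawo N D δ), p z := by
  unfold lawo
  rw [Filter.Eventually, MeasureTheory.mem_ae_iff]
  rw [Measure.coe_finsetSum, Finset.sum_apply]
  refine Finset.sum_eq_zero fun x _ => ?_
  rw [Measure.smul_apply]
  by_cases hw : wo N D δ x = 0
  · rw [hw]
    simp
  · have hp := h x (wo_good hw)
    have : (Measure.dirac (fun k => (dt D δ).pos (x k))) {z | p z}ᶜ = 0 := by
      rw [Measure.dirac_apply]
      simp [hp]
    rw [this]
    simp

lemma wo_sum (hN : 0 < N) (hD : N ≤ D) {δ : ℝ} (hδ : 0 < δ) :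
    ∑ x : Fin N → XX (2 * D) D, wo N D δ x = 1 := by
  have h := id_o (R := 0) hN (by omega : N + 0 ≤ D) δ (1 : MvPolynomial (Fin N) ℂ) 1 (by simp)
    (by simp) MvPolynomial.IsSymmetric.one
  rw [cue_one hN] at h
  simp only [map_one, mul_one] at h
  have hNf : (N.factorial : ℂ) ≠ 0 := by exact_mod_cast N.factorial_ne_zero
  have : ((∑ x : Fin N → XX (2 * D) D, wo N D δ x : ℝ) : ℂ) = 1 := by
    rw [Complex.ofReal_sum]
    simp only [wo_eq (show 0 < D by omega) hδ]
    rw [← Finset.sum_div, h, div_self hNf]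
  exact_mod_cast this

lemma lawo_prob (hN : 0 < N) (hD : N ≤ D) {δ : ℝ} (hδ : 0 < δ) :
    IsProbabilityMeasure (lawo N D δ) := by
  constructor
  unfold lawo
  rw [Measure.coe_finsetSum, Finset.sum_apply]
  simp only [Measure.smul_apply, Measure.dirac_apply, Set.mem_univ, Set.indicator_of_mem,
    Pi.one_apply, smul_eq_mul, mul_one]
  rw [← ENNReal.ofReal_sum_of_nonneg fun x _ => wo_nonneg (by omega) hδ x, wo_sum hN hD hδ,
    ENNReal.ofReal_one]

theorem lawo_mom (hN : 0 < N) {R : ℕ} (hD : N + R ≤ D) {δ : ℝ} (hδ : 0 < δ)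
    (F G : MvPolynomial (Fin N) ℂ) (hF : F.totalDegree ≤ R) (hG : G.totalDegree ≤ R)
    (hGs : G.IsSymmetric) :
    ∫ z, eval z F * (starRingEnd ℂ) (eval z G) ∂(lawo N D δ) =
      cue (fun z => eval z F * (starRingEnd ℂ) (eval z G)) := by
  rw [lawo_int (show 0 < D by omega) hδ]
  have h := id_o hN hD δ F G hF hG hGs
  have hNf : (N.factorial : ℂ) ≠ 0 := by exact_mod_cast N.factorial_ne_zero
  have e : ∀ x : Fin N → XX (2 * D) D, wo N D δ x • (eval (fun k => (dt D δ).pos (x k)) F *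
      (starRingEnd ℂ) (eval (fun k => (dt D δ).pos (x k)) G)) =
      (Wo (dt D δ) (ao D δ : ℂ) x * (eval (fun k => (dt D δ).pos (x k)) F *
        (starRingEnd ℂ) (eval (fun k => (dt D δ).pos (x k)) G))) / N.factorial := by
    intro x
    rw [Complex.real_smul, wo_eq (show 0 < D by omega) hδ]
    ring
  simp only [e]
  rw [← Finset.sum_div, h]
  field_simp

/-! ### geometry of the configurations -/

lemma po_norm_grid (δ : ℝ) (k : Fin (2 * D)) : ‖(dt D δ).pos (Sum.inl k)‖ = 1 := gr_norm k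

lemma po_norm_src (δ : ℝ) (l : Fin D) (b : Bool) :
    ‖(dt D δ).pos (Sum.inr (l, b))‖ = if b then Real.exp δ else Real.exp (-δ) := by
  simp only [Data.pos, Sum.elim_inr, dt]
  rw [norm_mul, ct_norm, one_mul, Complex.norm_exp]
  cases b <;> simp

lemma po_pair (δ : ℝ) (x : XX (2 * D) D) :
    (dt D δ).pos (par x) * (starRingEnd ℂ) ((dt D δ).pos x) = 1 := by
  rcases x with k | ⟨l, b⟩
  · have h := unit_pow (gr_norm k) 1
    rw [pow_one] at h
    exact h
  · have h := dt_pair δ l (!b)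
    rw [flip, Bool.not_not] at h
    exact h

/-- the number of the points off the circle -/
def offc (z : Fin N → ℂ) : ℕ := (univ.filter fun i => ‖z i‖ ≠ 1).card

lemma offc_eq {δ : ℝ} (hδ : 0 < δ) (x : Fin N → XX (2 * D) D) :
    offc (fun k => (dt D δ).pos (x k)) = nsrc x := by
  unfold offc nsrc
  congr 1
  ext k
  simp only [Finset.mem_filter, Finset.mem_univ, true_and]
  rw [par_ne_iff]
  rcases hk : x k with i | ⟨l, b⟩
  · rw [po_norm_grid]
    simp
  · rw [po_norm_src]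
    have h1 := Real.one_lt_exp_iff.2 hδ
    have h2 : Real.exp (-δ) < 1 := by
      have := Real.exp_lt_exp.2 (show -δ < 0 by linarith)
      rwa [Real.exp_zero] at this
    constructor
    · intro _
      exact ⟨_, rfl⟩
    · intro _
      cases b
      · simp only [Bool.false_eq_true, if_false]
        exact h2.ne
      · simp only [if_true]
        exact h1.ne'

lemma po_inj (hD : 0 < D) {δ : ℝ} (hδ : 0 < δ) : Function.Injective (dt D δ).pos := by
  have h1 := Real.one_lt_exp_iff.2 hδ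
  have h2 : Real.exp (-δ) < 1 := by
    have := Real.exp_lt_exp.2 (show -δ < 0 by linarith)
    rwa [Real.exp_zero] at this
  intro x y h
  rcases x with k | ⟨l, b⟩ <;> rcases y with k' | ⟨l', b'⟩
  · rw [gr_inj hD (show gr D k = gr D k' from h)]
  · have h3 := congrArg norm h
    rw [po_norm_grid, po_norm_src] at h3
    cases b'
    · simp only [Bool.false_eq_true, if_false] at h3
      exact absurd h3.symm h2.ne
    · simp only [if_true] at h3
      exact absurd h3 h1.ne
  · have h3 := congrArg norm h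
    rw [po_norm_grid, po_norm_src] at h3
    cases b
    · simp only [Bool.false_eq_true, if_false] at h3
      exact absurd h3 h2.ne
    · simp only [if_true] at h3
      exact absurd h3 h1.ne'
  · have h3 := congrArg norm h
    rw [po_norm_src, po_norm_src] at h3
    have hb : b = b' := by
      cases b <;> cases b' <;> simp at h3 ⊢ <;> linarith
    subst hb
    have h4 : ct D l * Complex.exp (sg b * δ) = ct D l' * Complex.exp (sg b * δ) := h
    have h5 := mul_right_cancel₀ (Complex.exp_ne_zero _) h4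
    rw [ct_inj hD h5]

/-- **the number of the points off the circle** -/
theorem lawo_count (hN : 0 < N) (hD : N ≤ D) {δ : ℝ} (hδ : 0 < δ) :
    ∫ z, (offc z : ℝ) ∂(lawo N D δ) = SS N δ / (D * Real.sinh (D * δ) ^ 2) := by
  classical
  have hD0 : 0 < D := by omega
  rw [lawo_int hD0 hδ]
  have hNf : (N.factorial : ℂ) ≠ 0 := by exact_mod_cast N.factorial_ne_zero
  have hDr : (0 : ℝ) < D := by exact_mod_cast hD0
  have hsh : 0 < Real.sinh (D * δ) := Real.sinh_pos_iff.2 (by positivity)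
  have key : ((∑ x : Fin N → XX (2 * D) D,
      wo N D δ x • (offc (fun k => (dt D δ).pos (x k)) : ℝ) : ℝ) : ℂ) =
      ((SS N δ / (D * Real.sinh (D * δ) ^ 2) : ℝ) : ℂ) := by
    rw [Complex.ofReal_sum]
    have e1 : ∀ x : Fin N → XX (2 * D) D,
        ((wo N D δ x • (offc (fun k => (dt D δ).pos (x k)) : ℝ) : ℝ) : ℂ) =
        ∑ l : Fin D, ∑ i : Fin N, ∑ j ∈ univ.erase i, (2 / (N.factorial : ℂ)) *
          ((if x i = Sum.inr (l, true) then (1 : ℂ) else 0) *
          (if x j = Sum.inr (l, false) then 1 else 0) *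
            Wo (dt D δ) (ao D δ : ℂ) x) := by
      intro x
      by_cases hg : Good x
      · rw [smul_eq_mul, Complex.ofReal_mul, wo_eq hD0 hδ, offc_eq hδ, nsrc_eq]
        push_cast
        rw [Finset.mul_sum]
        refine Finset.sum_congr rfl fun l _ => ?_
        rw [pairs_eq hg, Finset.mul_sum, Finset.mul_sum]
        refine Finset.sum_congr rfl fun i _ => ?_
        rw [Finset.mul_sum, Finset.mul_sum]
        refine Finset.sum_congr rfl fun j _ => ?_
        ring
      · have h0 : Wo (dt D δ) (ao D δ : ℂ) x = 0 := by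
          unfold Wo
          rw [if_neg hg]
        have h1 : wo N D δ x = 0 := by
          unfold wo
          rw [h0]
          simp
        rw [h0, h1]
        simp
    simp only [e1]
    rw [Finset.sum_comm]
    have e2 : ∀ l : Fin D, ∑ x : Fin N → XX (2 * D) D, ∑ i : Fin N,
        ∑ j ∈ univ.erase i, (2 / (N.factorial : ℂ)) *
          ((if x i = Sum.inr (l, true) then (1 : ℂ) else 0) *
          (if x j = Sum.inr (l, false) then 1 else 0) *
            Wo (dt D δ) (ao D δ : ℂ) x) =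
        ((4 * ao D δ ^ 2 * SS N δ : ℝ) : ℂ) := by
      intro l
      rw [Finset.sum_comm]
      have e3 : ∀ i : Fin N, ∑ x : Fin N → XX (2 * D) D,
        ∑ j ∈ univ.erase i, (2 / (N.factorial : ℂ)) *
          ((if x i = Sum.inr (l, true) then (1 : ℂ) else 0) *
          (if x j = Sum.inr (l, false) then 1 else 0) *
            Wo (dt D δ) (ao D δ : ℂ) x) =
        ∑ j ∈ univ.erase i, (2 / (N.factorial : ℂ)) * ∑ x : Fin N → XX (2 * D) D,
          ((if x i = Sum.inr (l, true) then (1 : ℂ) else 0) *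
          (if x j = Sum.inr (l, false) then 1 else 0) *
            Wo (dt D δ) (ao D δ : ℂ) x) := by
        intro i
        rw [Finset.sum_comm]
        refine Finset.sum_congr rfl fun j _ => ?_
        rw [Finset.mul_sum]
      rw [Finset.sum_congr rfl fun i _ => e3 i]
      simp only [← Finset.mul_sum]
      rw [count_o hN hD]
      push_cast
      field_simp
      ring
    simp only [e2]
    rw [Finset.sum_const, Finset.card_univ, Fintype.card_fin, nsmul_eq_mul]
    have : ((D : ℂ)) = ((D : ℝ) : ℂ) := by push_cast; rfl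
    rw [this, ← Complex.ofReal_mul]
    congr 1
    unfold ao
    field_simp
    ring
  exact_mod_cast key

lemma sum_sq_real (N : ℕ) : ∑ a : Fin N, ∑ b : Fin N, (((a : ℕ) : ℝ) - ((b : ℕ) : ℝ)) ^ 2 =
    (N : ℝ) ^ 2 * ((N : ℝ) ^ 2 - 1) / 6 := by
  have h := sq_sum N
  have : ((∑ a : Fin N, ∑ b : Fin N, (((a : ℕ) : ℝ) - ((b : ℕ) : ℝ)) ^ 2 : ℝ) : ℂ) =
      (((N : ℝ) ^ 2 * ((N : ℝ) ^ 2 - 1) / 6 : ℝ) : ℂ) := by
    push_cast
    exact h
  exact_mod_cast this

/-- an explicit lower bound -/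
lemma SS_lower (N : ℕ) (δ : ℝ) :
    δ ^ 2 * ((N : ℝ) ^ 2 * ((N : ℝ) ^ 2 - 1) / 6) ≤ SS N δ := by
  have h : ∀ y : ℝ, y ^ 2 ≤ Real.sinh y ^ 2 := by
    intro y
    rw [← sq_abs y, ← sq_abs (Real.sinh y)]
    refine pow_le_pow_left₀ (abs_nonneg _) ?_ 2
    rw [Real.abs_sinh]
    exact Real.self_le_sinh_iff.2 (abs_nonneg _)
  have h1 := sum_sq_real N
  rw [← h1, Finset.mul_sum]
  unfold SS
  refine Finset.sum_le_sum fun a _ => ?_
  rw [Finset.mul_sum]
  refine Finset.sum_le_sum fun b _ => ?_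
  rw [← mul_pow]
  exact h _

lemma sinh_one_sq : Real.sinh 1 ^ 2 < 3 / 2 := by
  have h1 := Real.exp_one_lt_d9
  have h2 := Real.exp_one_gt_d9
  have h3 : Real.exp 1 * Real.exp (-1) = 1 := by
    rw [← Real.exp_add]
    simp
  rw [Real.sinh_eq]
  have h4 : 0 < Real.exp (-1) := Real.exp_pos _
  have h5 : (Real.exp 1 - Real.exp (-1)) ^ 2 = Real.exp 1 ^ 2 + Real.exp (-1) ^ 2 - 2 := by
    linear_combination (-2 : ℝ) * h3
  rw [div_pow, h5]
  have h6 : Real.exp (-1) < 0.37 := by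
    have : Real.exp (-1) = 1 / Real.exp 1 := by
      field_simp
      linarith
    rw [this, div_lt_iff₀ (Real.exp_pos 1)]
    nlinarith
  nlinarith

/-- the explicit lower bound for the number of the points off the circle -/
theorem lower (hN : 0 < N) (hD : N ≤ D) :
    (N : ℝ) ^ 2 * ((N : ℝ) ^ 2 - 1) / (9 * (D : ℝ) ^ 3) ≤
      SS N (1 / D) / (D * Real.sinh (D * (1 / D)) ^ 2) := by
  have hD0 : 0 < D := by omega
  have hDr : (0 : ℝ) < D := by exact_mod_cast hD0
  have hN1 : (1 : ℝ) ≤ N := by exact_mod_cast hN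
  have h1 := SS_lower N (1 / (D : ℝ))
  have h2 : (D : ℝ) * (1 / D) = 1 := by field_simp
  rw [h2]
  have hs : 0 < Real.sinh 1 := Real.sinh_pos_iff.2 one_pos
  have h3 := sinh_one_sq
  have h4 : 0 ≤ (N : ℝ) ^ 2 * ((N : ℝ) ^ 2 - 1) := by
    have : (0 : ℝ) ≤ (N : ℝ) ^ 2 - 1 := by nlinarith
    positivity
  rw [div_le_div_iff₀ (by positivity) (by positivity)]
  have h5 : (N : ℝ) ^ 2 * ((N : ℝ) ^ 2 - 1) ≤ 6 * (D : ℝ) ^ 2 * SS N (1 / D) := by
    have : (1 / (D : ℝ)) ^ 2 * ((N : ℝ) ^ 2 * ((N : ℝ) ^ 2 - 1) / 6) =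
        ((N : ℝ) ^ 2 * ((N : ℝ) ^ 2 - 1)) / (6 * (D : ℝ) ^ 2) := by
      field_simp
    rw [this, div_le_iff₀ (by positivity)] at h1
    linarith
  calc (N : ℝ) ^ 2 * ((N : ℝ) ^ 2 - 1) * (D * Real.sinh 1 ^ 2)
      ≤ (N : ℝ) ^ 2 * ((N : ℝ) ^ 2 - 1) * (D * (3 / 2)) := by
        refine mul_le_mul_of_nonneg_left ?_ h4
        exact mul_le_mul_of_nonneg_left h3.le hDr.le
    _ ≤ (6 * (D : ℝ) ^ 2 * SS N (1 / D)) * (D * (3 / 2)) := by
        refine mul_le_mul_of_nonneg_right h5 (by positivity)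
    _ = SS N (1 / D) * (9 * (D : ℝ) ^ 3) := by ring

end

end Pool.Agent.H481.OL
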