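import Pool.Graph.R_pool_sql_team_seeded_b0a926ef.R319.UM7

/-!
Two-point noise: sums over configurations with product weights, and the complex noise.
-/

open MvPolynomial Finset MeasureTheory
open Pool.Agent.R319.UM

namespace Pool.Agent.H481.SB

noncomputable section

variable {N : ℕ}

/-- product weights against a monomial -/
lemma sum_mon {X : Type*} [Fintype X] (pos : X → ℂ) (T : Fin N → X → ℂ) (d e : Fin N → ℕ) :
    ∑ x : Fin N → X, (∏ k, T k (x k)) * mon d e (fun k => pos (x k)) =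
      ∏ k, ∑ x, T k x * (pos x ^ d k * (starRingEnd ℂ) (pos x ^ e k)) := by
  classical
  rw [Finset.prod_univ_sum, Fintype.piFinset_univ]
  refine Finset.sum_congr rfl fun x _ => ?_
  unfold mon
  rw [← Finset.prod_mul_distrib]

/-- product weights against `P conj Q` -/
lemma sum_expand {X : Type*} [Fintype X] (pos : X → ℂ) (T : Fin N → X → ℂ)
    (P Q : MvPolynomial (Fin N) ℂ) :
    ∑ x : Fin N → X, (∏ k, T k (x k)) *
        (eval (fun k => pos (x k)) P * (starRingEnd ℂ) (eval (fun k => pos (x k)) Q)) =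
      ∑ d ∈ P.support, ∑ e ∈ Q.support, P.coeff d * (starRingEnd ℂ) (Q.coeff e) *
        ∏ k, ∑ x, T k x * (pos x ^ d k * (starRingEnd ℂ) (pos x ^ e k)) := by
  simp only [expand, ← sum_mon]
  simp only [Finset.mul_sum]
  rw [Finset.sum_comm]
  refine Finset.sum_congr rfl fun d _ => ?_
  rw [Finset.sum_comm]
  refine Finset.sum_congr rfl fun e _ => Finset.sum_congr rfl fun x _ => ?_
  ring

/-- **swap lemma**: only the low moments of the weights matter -/
theorem swap {X Y : Type*} [Fintype X] [Fintype Y] {D : ℕ} (pos : X → ℂ) (pos' : Y → ℂ)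
    (T : Fin N → X → ℂ) (T' : Fin N → Y → ℂ)
    (h : ∀ k, ∀ a < D, ∀ b < D, ∑ x, T k x * (pos x ^ a * (starRingEnd ℂ) (pos x ^ b)) =
      ∑ x, T' k x * (pos' x ^ a * (starRingEnd ℂ) (pos' x ^ b)))
    (P Q : MvPolynomial (Fin N) ℂ) (hP : ∀ j, P.degreeOf j < D) (hQ : ∀ j, Q.degreeOf j < D) :
    ∑ x : Fin N → X, (∏ k, T k (x k)) *
        (eval (fun k => pos (x k)) P * (starRingEnd ℂ) (eval (fun k => pos (x k)) Q)) =
      ∑ x : Fin N → Y, (∏ k, T' k (x k)) *
        (eval (fun k => pos' (x k)) P * (starRingEnd ℂ) (eval (fun k => pos' (x k)) Q)) := by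
  rw [sum_expand, sum_expand]
  refine Finset.sum_congr rfl fun d hd => Finset.sum_congr rfl fun e he => ?_
  congr 1
  refine Finset.prod_congr rfl fun k _ => h k _ ?_ _ ?_
  · exact lt_of_le_of_lt (MvPolynomial.monomial_le_degreeOf k hd) (hP k)
  · exact lt_of_le_of_lt (MvPolynomial.monomial_le_degreeOf k he) (hQ k)

/-! ### the complex noise -/

/-- the sign of a Boolean -/
def sg (b : Bool) : ℂ := if b then 1 else -1

@[simp] lemma sg_true : sg true = 1 := by simp [sg]
@[simp] lemma sg_false : sg false = -1 := by simp [sg]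

/-- roots of unity -/
def rt (L : ℕ) (w : Fin L) : ℂ := Complex.exp (2 * Real.pi * Complex.I / L) ^ (w : ℕ)

/-- the weights of the noise -/
def lam (L : ℕ) (b : Bool) (w : Fin L) : ℂ :=
  (1 + sg b * (starRingEnd ℂ) (rt L w)) / (2 * L)

lemma sum_rt {L n : ℕ} (hL : 0 < L) (hn : n < L) :
    ∑ w : Fin L, rt L w ^ n = if n = 0 then (L : ℂ) else 0 := by
  have := one_disc hL hn hL
  simpa [rt] using this

lemma sum_rt1 {L n : ℕ} (hL : 1 < L) (hn : n < L) :
    ∑ w : Fin L, rt L w ^ n * (starRingEnd ℂ) (rt L w) = if n = 1 then (L : ℂ) else 0 := by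
  have := one_disc (by omega : 0 < L) hn hL
  simpa [rt] using this

/-- moments of the noise -/
lemma lam_mom {L n : ℕ} (hL : 1 < L) (hn : n < L) (b : Bool) :
    ∑ w : Fin L, lam L b w * rt L w ^ n =
      ((if n = 0 then 1 else 0) + sg b * (if n = 1 then 1 else 0)) / 2 := by
  have hL0 : (L : ℂ) ≠ 0 := by
    have : 0 < L := by omega
    exact_mod_cast this.ne'
  have e : ∀ w : Fin L, lam L b w * rt L w ^ n =
      (2 * (L : ℂ))⁻¹ * (rt L w ^ n) +
        (2 * (L : ℂ))⁻¹ * sg b * (rt L w ^ n * (starRingEnd ℂ) (rt L w)) := by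
    intro w
    unfold lam
    field_simp
  simp only [e]
  rw [Finset.sum_add_distrib, ← Finset.mul_sum, ← Finset.mul_sum, sum_rt (by omega) hn,
    sum_rt1 hL hn]
  split_ifs <;> field_simp <;> ring

/-- the second part of the noise -/
def tt (L : ℕ) (b : Bool) (w : Fin L) : ℂ := rt L w - sg b

lemma sg_sq (b : Bool) : sg b * sg b = 1 := by cases b <;> simp

lemma lam_tt0 {L : ℕ} (hL : 2 < L) (b : Bool) : ∑ w : Fin L, lam L b w = 1 / 2 := by
  have := lam_mom (n := 0) (by omega : 1 < L) (by omega) b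
  simpa using this

lemma lam_tt1 {L : ℕ} (hL : 2 < L) (b : Bool) : ∑ w : Fin L, lam L b w * tt L b w = 0 := by
  have h0 := lam_mom (n := 0) (by omega : 1 < L) (by omega) b
  have h1 := lam_mom (n := 1) (by omega : 1 < L) (by omega) b
  have e : ∀ w : Fin L, lam L b w * tt L b w =
      lam L b w * rt L w ^ 1 - sg b * (lam L b w * rt L w ^ 0) := by
    intro w
    unfold tt
    ring
  simp only [e]
  rw [Finset.sum_sub_distrib, ← Finset.mul_sum, h0, h1]
  simp
  ring

lemma lam_tt2 {L : ℕ} (hL : 2 < L) (b : Bool) :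
    ∑ w : Fin L, lam L b w * tt L b w ^ 2 = -1 / 2 := by
  have h0 := lam_mom (n := 0) (by omega : 1 < L) (by omega) b
  have h1 := lam_mom (n := 1) (by omega : 1 < L) (by omega) b
  have h2 := lam_mom (n := 2) (by omega : 1 < L) (by omega) b
  have e : ∀ w : Fin L, lam L b w * tt L b w ^ 2 =
      lam L b w * rt L w ^ 2 - 2 * sg b * (lam L b w * rt L w ^ 1) +
        (sg b * sg b) * (lam L b w * rt L w ^ 0) := by
    intro w
    unfold tt
    ring
  simp only [e]
  rw [Finset.sum_add_distrib, Finset.sum_sub_distrib, ← Finset.mul_sum, ← Finset.mul_sum, h0, h1,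
    h2, sg_sq]
  have := sg_sq b
  simp only [one_ne_zero, if_false, OfNat.ofNat_ne_zero, OfNat.ofNat_ne_one, if_true,
    zero_ne_one]
  linear_combination (-1 : ℂ) * this

/-- the noise functional -/
def EE (M L : ℕ) (F : (Fin M → Bool) → (Fin M → Fin L) → ℂ) : ℂ :=
  ∑ s : Fin M → Bool, ∑ w : Fin M → Fin L, (∏ l, lam L (s l) (w l)) * F s w

lemma EE_sum {M L : ℕ} {ι : Type*} (S : Finset ι)
    (F : ι → (Fin M → Bool) → (Fin M → Fin L) → ℂ) :
    EE M L (fun s w => ∑ i ∈ S, F i s w) = ∑ i ∈ S, EE M L (F i) := by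
  unfold EE
  simp only [Finset.mul_sum]
  rw [Finset.sum_comm (s := S)]
  refine Finset.sum_congr rfl fun s _ => ?_
  rw [Finset.sum_comm (s := S)]

lemma EE_mul {M L : ℕ} (c : ℂ) (F : (Fin M → Bool) → (Fin M → Fin L) → ℂ) :
    EE M L (fun s w => c * F s w) = c * EE M L F := by
  unfold EE
  rw [Finset.mul_sum]
  refine Finset.sum_congr rfl fun s _ => ?_
  rw [Finset.mul_sum]
  refine Finset.sum_congr rfl fun w _ => ?_
  ring

lemma EE_mul' {M L : ℕ} (c : ℂ) (F : (Fin M → Bool) → (Fin M → Fin L) → ℂ) :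
    EE M L (fun s w => F s w * c) = EE M L F * c := by
  rw [mul_comm, ← EE_mul]
  congr 1
  funext s w
  ring

/-- semi-factorisation: the first noise is kept -/
lemma EE_semi {M L : ℕ} (Φ : (Fin M → Bool) → ℂ) (f : Fin M → Bool → Fin L → ℂ) :
    EE M L (fun s w => Φ s * ∏ l, f l (s l) (w l)) =
      ∑ s : Fin M → Bool, Φ s * ∏ l, ∑ w : Fin L, lam L (s l) w * f l (s l) w := by
  classical
  unfold EE
  refine Finset.sum_congr rfl fun s _ => ?_
  rw [Finset.prod_univ_sum, Fintype.piFinset_univ, Finset.mul_sum]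
  refine Finset.sum_congr rfl fun w _ => ?_
  rw [Finset.prod_mul_distrib]
  ring

/-- factorisation -/
lemma EE_prod {M L : ℕ} (f : Fin M → Bool → Fin L → ℂ) :
    EE M L (fun s w => ∏ l, f l (s l) (w l)) =
      ∏ l, ∑ b : Bool, ∑ w : Fin L, lam L b w * f l b w := by
  classical
  have h := EE_semi (M := M) (L := L) (fun _ => 1) f
  simp only [one_mul] at h
  rw [h, Finset.prod_univ_sum, Fintype.piFinset_univ]

/-- the moments after averaging over the sign -/
lemma avg0 {L n : ℕ} (hL : 1 < L) (hn : n < L) :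
    ∑ b : Bool, ∑ w : Fin L, lam L b w * rt L w ^ n = if n = 0 then 1 else 0 := by
  rw [Fintype.sum_bool, lam_mom hL hn, lam_mom hL hn]
  simp only [sg_true, sg_false]
  ring

lemma avg2 {L : ℕ} (hL : 2 < L) :
    ∑ b : Bool, ∑ w : Fin L, lam L b w * tt L b w ^ 2 = -1 := by
  rw [Fintype.sum_bool, lam_tt2 hL, lam_tt2 hL]
  ring

end

end Pool.Agent.H481.SB
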