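import Pool.Agent.H481.SB10

/-!
The pair correlation bound for the number of the points which are not simple, continued.
-/

open MvPolynomial Finset MeasureTheory
open Pool.Agent.R319.UM

namespace Pool.Agent.H481.SB

noncomputable section

variable {N : ℕ}

/-- the geometric sum -/
def Sm (m : ℕ) (w : ℂ) : ℂ := ∑ a ∈ range (m + 1), w ^ a

/-- pairs of exponents -/
def PP (m : ℕ) : Finset (ℕ × ℕ) := range (m + 1) ×ˢ range (m + 1)

lemma PP_le {m : ℕ} {p : ℕ × ℕ} (hp : p ∈ PP m) : p.1 + p.2 ≤ 2 * m := by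
  unfold PP at hp
  rw [Finset.mem_product, Finset.mem_range, Finset.mem_range] at hp
  omega

lemma Sm_sq (m : ℕ) (w : ℂ) : Sm m w ^ 2 = ∑ p ∈ PP m, w ^ (p.1 + p.2) := by
  unfold Sm PP
  rw [sq, Finset.sum_mul_sum, Finset.sum_product]
  refine Finset.sum_congr rfl fun a _ => Finset.sum_congr rfl fun b _ => ?_
  rw [pow_add]

lemma Sm_four (m : ℕ) (w : ℂ) : ((‖Sm m w‖ ^ 4 : ℝ) : ℂ) =
    ∑ p ∈ PP m, ∑ q ∈ PP m, w ^ (p.1 + p.2) * (starRingEnd ℂ) (w ^ (q.1 + q.2)) := by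
  have h1 : ((‖Sm m w‖ ^ 4 : ℝ) : ℂ) = Sm m w ^ 2 * (starRingEnd ℂ) (Sm m w ^ 2) := by
    rw [Complex.mul_conj, Complex.normSq_eq_norm_sq, norm_pow]
    congr 1
    ring
  rw [h1, Sm_sq, map_sum, Finset.sum_mul_sum]

/-- the distance of exponents -/
def dst (s t : ℕ) : ℕ := max s t - min s t

lemma unit_dst {z : ℂ} (h : ‖z‖ = 1) (s t : ℕ) : z ^ s * (starRingEnd ℂ) (z ^ t) =
    if t ≤ s then z ^ dst s t else (starRingEnd ℂ) (z ^ dst s t) := by
  unfold dst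
  split_ifs with hst
  · rw [max_eq_left hst, min_eq_right hst]
    obtain ⟨r, rfl⟩ := Nat.exists_eq_add_of_le hst
    rw [Nat.add_sub_cancel_left, pow_add]
    have := unit_pow h t
    linear_combination z ^ r * this
  · have hst' : s ≤ t := by omega
    rw [max_eq_right hst', min_eq_left hst']
    obtain ⟨r, rfl⟩ := Nat.exists_eq_add_of_le hst'
    rw [Nat.add_sub_cancel_left, pow_add, map_mul]
    have := unit_pow h s
    linear_combination (starRingEnd ℂ) (z ^ r) * this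

lemma UU_dst {z : Fin N → ℂ} (hz : ∀ i, ‖z i‖ = 1) (s t : ℕ) :
    ∑ i, ∑ j, (z i * (starRingEnd ℂ) (z j)) ^ s *
      (starRingEnd ℂ) ((z i * (starRingEnd ℂ) (z j)) ^ t) = UU z (dst s t) := by
  have h1 : ∀ i j, (z i * (starRingEnd ℂ) (z j)) ^ s *
      (starRingEnd ℂ) ((z i * (starRingEnd ℂ) (z j)) ^ t) =
      (z i ^ s * (starRingEnd ℂ) (z i ^ t)) * (starRingEnd ℂ) (z j ^ s * (starRingEnd ℂ) (z j ^ t)) := by
    intro i j
    simp only [map_pow, map_mul, Complex.conj_conj]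
    ring
  simp only [h1]
  rw [← Finset.sum_mul_sum, ← map_sum]
  unfold UU
  rw [eval_psum]
  by_cases hst : t ≤ s
  · have h2 : ∀ i, z i ^ s * (starRingEnd ℂ) (z i ^ t) = z i ^ dst s t := by
      intro i
      rw [unit_dst (hz i), if_pos hst]
    simp only [h2]
  · have h2 : ∀ i, z i ^ s * (starRingEnd ℂ) (z i ^ t) = (starRingEnd ℂ) (z i ^ dst s t) := by
      intro i
      rw [unit_dst (hz i), if_neg hst]
    simp only [h2]
    rw [← map_sum, Complex.conj_conj, mul_comm]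

/-- the statistic -/
def QQ (m : ℕ) (z : Fin N → ℂ) : ℂ :=
  ∑ p ∈ PP m, ∑ q ∈ PP m, UU z (dst (p.1 + p.2) (q.1 + q.2))

lemma QQ_eq (m : ℕ) {z : Fin N → ℂ} (hz : ∀ i, ‖z i‖ = 1) :
    QQ m z = ((∑ i, ∑ j, ‖Sm m (z i * (starRingEnd ℂ) (z j))‖ ^ 4 : ℝ) : ℂ) := by
  rw [Complex.ofReal_sum]
  simp only [Complex.ofReal_sum, Sm_four]
  unfold QQ
  simp only [← UU_dst hz]
  have e1 : ∀ p ∈ PP m, ∑ q ∈ PP m, ∑ i, ∑ j, (z i * (starRingEnd ℂ) (z j)) ^ (p.1 + p.2) *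
      (starRingEnd ℂ) ((z i * (starRingEnd ℂ) (z j)) ^ (q.1 + q.2)) =
      ∑ i, ∑ j, ∑ q ∈ PP m, (z i * (starRingEnd ℂ) (z j)) ^ (p.1 + p.2) *
      (starRingEnd ℂ) ((z i * (starRingEnd ℂ) (z j)) ^ (q.1 + q.2)) := by
    intro p _
    rw [Finset.sum_comm]
    refine Finset.sum_congr rfl fun i _ => ?_
    rw [Finset.sum_comm]
  rw [Finset.sum_congr rfl e1, Finset.sum_comm]
  refine Finset.sum_congr rfl fun i _ => ?_
  rw [Finset.sum_comm]

lemma Sm_one (m : ℕ) : Sm m 1 = (m : ℂ) + 1 := by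
  unfold Sm
  simp

/-- the pointwise bound -/
lemma nonsimple_le (m : ℕ) {z : Fin N → ℂ} (hz : ∀ i, ‖z i‖ = 1) :
    (nonsimple z : ℝ) ≤ (QQ m z).re / ((m : ℝ) + 1) ^ 4 - N := by
  classical
  have hm : (0 : ℝ) < (m : ℝ) + 1 := by positivity
  rw [QQ_eq m hz, Complex.ofReal_re]
  have hone : ∀ i, ‖Sm m (z i * (starRingEnd ℂ) (z i))‖ ^ 4 = ((m : ℝ) + 1) ^ 4 := by
    intro i
    rw [Complex.mul_conj, Complex.normSq_eq_norm_sq, hz]
    simp only [one_pow, Complex.ofReal_one, Sm_one]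
    congr 1
    have : ((m : ℂ) + 1) = (((m : ℝ) + 1 : ℝ) : ℂ) := by push_cast; rfl
    rw [this, Complex.norm_real, Real.norm_eq_abs, abs_of_pos hm]
  have key : ∀ i, (1 + if ∃ j, j ≠ i ∧ z j = z i then (1 : ℝ) else 0) * ((m : ℝ) + 1) ^ 4 ≤
      ∑ j, ‖Sm m (z i * (starRingEnd ℂ) (z j))‖ ^ 4 := by
    intro i
    rw [← Finset.add_sum_erase univ _ (Finset.mem_univ i), hone]
    split_ifs with h
    · obtain ⟨j, hj, hjz⟩ := h
      have := Finset.single_le_sum (f := fun j => ‖Sm m (z i * (starRingEnd ℂ) (z j))‖ ^ 4)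
        (fun j _ => by positivity) (Finset.mem_erase.2 ⟨hj, Finset.mem_univ j⟩)
      simp only [hjz, hone] at this
      linarith
    · have : 0 ≤ ∑ j ∈ univ.erase i, ‖Sm m (z i * (starRingEnd ℂ) (z j))‖ ^ 4 :=
        Finset.sum_nonneg fun j _ => by positivity
      linarith
  have h2 := Finset.sum_le_sum fun i (_ : i ∈ (univ : Finset (Fin N))) => key i
  rw [← Finset.sum_mul, Finset.sum_add_distrib, Finset.sum_const, Finset.card_univ,
    Fintype.card_fin, nsmul_eq_mul, mul_one] at h2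
  have h3 : (nonsimple z : ℝ) = ∑ i, if ∃ j, j ≠ i ∧ z j = z i then (1 : ℝ) else 0 := by
    unfold nonsimple
    rw [Finset.card_filter]
    push_cast
    rfl
  rw [← h3] at h2
  rw [le_sub_iff_add_le, le_div_iff₀ (by positivity)]
  linarith

/-- the form factor, with the value at zero -/
def ff (N k : ℕ) : ℂ := if k = 0 then (N : ℂ) ^ 2 else (min k N : ℕ)

lemma cue_UU (hN : 0 < N) (k : ℕ) : cue (N := N) (fun z => UU z k) = ff N k := by
  unfold ff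
  split_ifs with hk
  · subst hk
    have h := cue_one hN
    have hNf : (N.factorial : ℂ) ≠ 0 := by exact_mod_cast N.factorial_ne_zero
    have h1 : cue (N := N) (fun z => eval z (1 : MvPolynomial (Fin N) ℂ) *
      (starRingEnd ℂ) (eval z (1 : MvPolynomial (Fin N) ℂ))) = 1 := by
      apply mul_left_cancel₀ hNf
      rw [h, mul_one]
    have h2 : (fun z : Fin N → ℂ => UU z 0) = fun z => (N : ℂ) ^ 2 *
        (eval z (1 : MvPolynomial (Fin N) ℂ) *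
        (starRingEnd ℂ) (eval z (1 : MvPolynomial (Fin N) ℂ))) := by
      funext z
      unfold UU
      rw [eval_psum]
      simp
      ring
    rw [h2]
    have h3 : ∀ (c : ℂ) (f : (Fin N → ℂ) → ℂ), cue (fun z => c * f z) = c * cue f := by
      intro c f
      unfold cue
      simp only [mul_assoc]
      rw [integral_const_mul]
      ring
    rw [h3, h1, mul_one]
  · exact form_factor hN (by omega)

/-- the two point function -/
def TT (N : ℕ) (x : ℂ) : ℂ :=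
  ∑ a : Fin N, ∑ b : Fin N, (1 - x ^ (a : ℕ) * (starRingEnd ℂ) (x ^ (b : ℕ)))

lemma pow_sub_le {x : ℂ} (hx : ‖x‖ = 1) (a b : ℕ) :
    ‖x ^ a - x ^ b‖ ≤ |(a : ℝ) - b| * ‖x - 1‖ := by
  have h1 : ∀ n : ℕ, ‖x ^ n - 1‖ ≤ n * ‖x - 1‖ := by
    intro n
    rw [← geom_sum_mul, norm_mul]
    refine mul_le_mul_of_nonneg_right ?_ (norm_nonneg _)
    refine (norm_sum_le _ _).trans ?_
    simp [hx]
  rcases le_total a b with h | h
  · obtain ⟨r, rfl⟩ := Nat.exists_eq_add_of_le h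
    have : x ^ a - x ^ (a + r) = -(x ^ a * (x ^ r - 1)) := by rw [pow_add]; ring
    rw [this, norm_neg, norm_mul, norm_pow, hx, one_pow, one_mul]
    refine (h1 r).trans (le_of_eq ?_)
    push_cast
    rw [show (a : ℝ) - (a + r) = -r by ring, abs_neg, abs_of_nonneg (Nat.cast_nonneg r)]
  · obtain ⟨r, rfl⟩ := Nat.exists_eq_add_of_le h
    have : x ^ (b + r) - x ^ b = x ^ b * (x ^ r - 1) := by rw [pow_add]; ring
    rw [this, norm_mul, norm_pow, hx, one_pow, one_mul]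
    refine (h1 r).trans (le_of_eq ?_)
    push_cast
    rw [show (b : ℝ) + r - b = r by ring, abs_of_nonneg (Nat.cast_nonneg r)]

lemma sq_sumR (N : ℕ) : ∑ a : Fin N, ∑ b : Fin N, (((a : ℕ) : ℝ) - ((b : ℕ) : ℝ)) ^ 2 =
    (N : ℝ) ^ 2 * ((N : ℝ) ^ 2 - 1) / 6 := by
  have h := sq_sum N
  have : ((∑ a : Fin N, ∑ b : Fin N, (((a : ℕ) : ℝ) - ((b : ℕ) : ℝ)) ^ 2 : ℝ) : ℂ) =
      (((N : ℝ) ^ 2 * ((N : ℝ) ^ 2 - 1) / 6 : ℝ) : ℂ) := by
    push_cast
    exact h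
  exact_mod_cast this

lemma TT_le {x : ℂ} (hx : ‖x‖ = 1) :
    (TT N x).re ≤ (N : ℝ) ^ 2 * ((N : ℝ) ^ 2 - 1) / 12 * ‖x - 1‖ ^ 2 := by
  unfold TT
  rw [Complex.re_sum]
  simp only [Complex.re_sum]
  have h1 : ∀ a b : ℕ, (1 - x ^ a * (starRingEnd ℂ) (x ^ b)).re = ‖x ^ a - x ^ b‖ ^ 2 / 2 := by
    intro a b
    rw [← Complex.normSq_eq_norm_sq, Complex.normSq_sub, Complex.normSq_eq_norm_sq,
      Complex.normSq_eq_norm_sq, norm_pow, norm_pow, hx, Complex.sub_re, Complex.one_re]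
    ring
  simp only [h1]
  calc ∑ a : Fin N, ∑ b : Fin N, ‖x ^ (a : ℕ) - x ^ (b : ℕ)‖ ^ 2 / 2 ≤
      ∑ a : Fin N, ∑ b : Fin N, (((a : ℕ) : ℝ) - ((b : ℕ) : ℝ)) ^ 2 * (‖x - 1‖ ^ 2 / 2) := by
        refine Finset.sum_le_sum fun a _ => Finset.sum_le_sum fun b _ => ?_
        have := pow_le_pow_left₀ (norm_nonneg _) (pow_sub_le hx a b) 2
        rw [mul_pow, sq_abs] at this
        linarith
    _ = _ := by
        simp only [← Finset.sum_mul]
        rw [sq_sumR]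
        ring

/-- the mean of `|Sm|⁴ |x - 1|²` over the grid -/
lemma grid_four {K m : ℕ} (hK : 2 * m + 1 < K) :
    ∑ x : Fin K, (K : ℝ)⁻¹ * (‖Sm m (Complex.exp (2 * Real.pi * Complex.I / K) ^ (x : ℕ))‖ ^ 4 *
      ‖Complex.exp (2 * Real.pi * Complex.I / K) ^ (x : ℕ) - 1‖ ^ 2) = 2 * ((m : ℝ) + 1) := by
  have hK0 : 0 < K := by omega
  have hKc : (K : ℂ) ≠ 0 := by exact_mod_cast hK0.ne'
  set ζ := Complex.exp (2 * Real.pi * Complex.I / K) with hζ
  have hζ1 : ‖ζ‖ = 1 := by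
    have : (2 * Real.pi * Complex.I / K : ℂ) = ((2 * Real.pi / K : ℝ) : ℂ) * Complex.I := by
      push_cast
      ring
    rw [hζ, this, Complex.norm_exp_ofReal_mul_I]
  have key : ∀ x : Fin K, (((K : ℝ)⁻¹ * (‖Sm m (ζ ^ (x : ℕ))‖ ^ 4 * ‖ζ ^ (x : ℕ) - 1‖ ^ 2) : ℝ) : ℂ) =
      ∑ a ∈ range (m + 1), ∑ b ∈ range (m + 1), (K : ℂ)⁻¹ *
        (2 * ((ζ ^ (x : ℕ)) ^ a * (starRingEnd ℂ) ((ζ ^ (x : ℕ)) ^ b)) -
        (ζ ^ (x : ℕ)) ^ (a + (m + 1)) * (starRingEnd ℂ) ((ζ ^ (x : ℕ)) ^ b) -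
        (ζ ^ (x : ℕ)) ^ a * (starRingEnd ℂ) ((ζ ^ (x : ℕ)) ^ (b + (m + 1)))) := by
    intro x
    set u := ζ ^ (x : ℕ) with hu
    have hu1 : ‖u‖ = 1 := by rw [hu, norm_pow, hζ1, one_pow]
    have h1 : Sm m u * (u - 1) = u ^ (m + 1) - 1 := by
      unfold Sm
      exact geom_sum_mul u (m + 1)
    have h2 : ((‖Sm m u‖ ^ 4 * ‖u - 1‖ ^ 2 : ℝ) : ℂ) =
        (Sm m u * (starRingEnd ℂ) (Sm m u)) *
          ((u ^ (m + 1) - 1) * (starRingEnd ℂ) (u ^ (m + 1) - 1)) := by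
      rw [← h1, Complex.mul_conj, Complex.mul_conj, Complex.normSq_eq_norm_sq,
        Complex.normSq_eq_norm_sq, norm_mul]
      push_cast
      ring
    rw [Complex.ofReal_mul, h2]
    have h3 : Sm m u * (starRingEnd ℂ) (Sm m u) =
        ∑ a ∈ range (m + 1), ∑ b ∈ range (m + 1), u ^ a * (starRingEnd ℂ) (u ^ b) := by
      unfold Sm
      rw [map_sum, Finset.sum_mul_sum]
    have h4 : (u ^ (m + 1) - 1) * (starRingEnd ℂ) (u ^ (m + 1) - 1) =
        2 - u ^ (m + 1) - (starRingEnd ℂ) (u ^ (m + 1)) := by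
      have := unit_pow hu1 (m + 1)
      rw [map_sub, map_one]
      linear_combination this
    rw [h3, h4, Finset.sum_mul, Finset.mul_sum]
    refine Finset.sum_congr rfl fun a _ => ?_
    rw [Finset.sum_mul, Finset.mul_sum]
    refine Finset.sum_congr rfl fun b _ => ?_
    rw [pow_add u a (m + 1), pow_add u b (m + 1), map_mul]
    push_cast
    ring
  have h5 : ((∑ x : Fin K, (K : ℝ)⁻¹ * (‖Sm m (ζ ^ (x : ℕ))‖ ^ 4 * ‖ζ ^ (x : ℕ) - 1‖ ^ 2) : ℝ) : ℂ) =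
      ((2 * ((m : ℝ) + 1) : ℝ) : ℂ) := by
    rw [Complex.ofReal_sum]
    simp only [key]
    rw [Finset.sum_comm]
    have h6 : ∀ a ∈ range (m + 1), ∑ x : Fin K, ∑ b ∈ range (m + 1), (K : ℂ)⁻¹ *
        (2 * ((ζ ^ (x : ℕ)) ^ a * (starRingEnd ℂ) ((ζ ^ (x : ℕ)) ^ b)) -
        (ζ ^ (x : ℕ)) ^ (a + (m + 1)) * (starRingEnd ℂ) ((ζ ^ (x : ℕ)) ^ b) -
        (ζ ^ (x : ℕ)) ^ a * (starRingEnd ℂ) ((ζ ^ (x : ℕ)) ^ (b + (m + 1)))) = 2 := by
      intro a ha
      rw [Finset.mem_range] at ha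
      rw [Finset.sum_comm, Finset.sum_eq_single a]
      · rw [← Finset.mul_sum, Finset.sum_sub_distrib, Finset.sum_sub_distrib, ← Finset.mul_sum,
          one_disc hK0 (by omega) (by omega), one_disc hK0 (by omega) (by omega),
          one_disc hK0 (by omega) (by omega), if_pos rfl, if_neg (by omega), if_neg (by omega)]
        field_simp
        ring
      · intro b hb hab
        rw [Finset.mem_range] at hb
        rw [← Finset.mul_sum, Finset.sum_sub_distrib, Finset.sum_sub_distrib, ← Finset.mul_sum,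
          one_disc hK0 (by omega) (by omega), one_disc hK0 (by omega) (by omega),
          one_disc hK0 (by omega) (by omega), if_neg (Ne.symm hab), if_neg (by omega),
          if_neg (by omega)]
        simp
      · intro h
        exact absurd (Finset.mem_range.2 ha) h
    rw [Finset.sum_congr rfl h6, Finset.sum_const, Finset.card_range, nsmul_eq_mul]
    push_cast
    ring
  exact_mod_cast h5

/-- the value of the statistic -/
lemma stat_le (m : ℕ) : (∑ p ∈ PP m, ∑ q ∈ PP m, ff N (dst (p.1 + p.2) (q.1 + q.2))).re ≤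
    (N : ℝ) * ((m : ℝ) + 1) ^ 4 + (N : ℝ) ^ 2 * ((N : ℝ) ^ 2 - 1) / 6 * ((m : ℝ) + 1) := by
  set K := 2 * m + N + 2 with hK
  have hK0 : 0 < K := by omega
  set ζ := Complex.exp (2 * Real.pi * Complex.I / K) with hζ
  have hζ1 : ‖ζ‖ = 1 := by
    have : (2 * Real.pi * Complex.I / K : ℂ) = ((2 * Real.pi / K : ℝ) : ℂ) * Complex.I := by
      push_cast
      ring
    rw [hζ, this, Complex.norm_exp_ofReal_mul_I]
  have e1 : ∀ p ∈ PP m, ∀ q ∈ PP m, ff N (dst (p.1 + p.2) (q.1 + q.2)) =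
      N + ∑ x : Fin K, (K : ℂ)⁻¹ * (((ζ ^ (x : ℕ)) ^ (p.1 + p.2) *
        (starRingEnd ℂ) ((ζ ^ (x : ℕ)) ^ (q.1 + q.2))) * TT N (ζ ^ (x : ℕ))) := by
    intro p hp q hq
    have h := pair_grid (N := N) (K := K) (s := p.1 + p.2) (t := q.1 + q.2)
      (by have := PP_le hp; omega) (by have := PP_le hq; omega)
    unfold TT
    rw [h]
    unfold ff dst
    by_cases hst : p.1 + p.2 = q.1 + q.2
    · rw [if_pos hst, if_pos (by rw [hst]; simp)]
      ring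
    · rw [if_neg hst, if_neg (by omega)]
      ring
  have e2 : ∑ p ∈ PP m, ∑ q ∈ PP m, ff N (dst (p.1 + p.2) (q.1 + q.2)) =
      N * ((m : ℂ) + 1) ^ 4 + ∑ x : Fin K, (K : ℂ)⁻¹ *
        (((‖Sm m (ζ ^ (x : ℕ))‖ ^ 4 : ℝ) : ℂ) * TT N (ζ ^ (x : ℕ))) := by
    rw [Finset.sum_congr rfl fun p hp => Finset.sum_congr rfl fun q hq => e1 p hp q hq]
    simp only [Finset.sum_add_distrib]
    congr 1
    · simp only [Finset.sum_const, nsmul_eq_mul]
      have : ((PP m).card : ℂ) = ((m : ℂ) + 1) ^ 2 := by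
        unfold PP
        rw [Finset.card_product, Finset.card_range]
        push_cast
        ring
      rw [this]
      ring
    · have h1 : ∀ p ∈ PP m, ∑ q ∈ PP m, ∑ x : Fin K, (K : ℂ)⁻¹ * (((ζ ^ (x : ℕ)) ^ (p.1 + p.2) *
        (starRingEnd ℂ) ((ζ ^ (x : ℕ)) ^ (q.1 + q.2))) * TT N (ζ ^ (x : ℕ))) =
        ∑ x : Fin K, ∑ q ∈ PP m, (K : ℂ)⁻¹ * (((ζ ^ (x : ℕ)) ^ (p.1 + p.2) *
        (starRingEnd ℂ) ((ζ ^ (x : ℕ)) ^ (q.1 + q.2))) * TT N (ζ ^ (x : ℕ))) :=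
        fun p _ => Finset.sum_comm
      rw [Finset.sum_congr rfl h1, Finset.sum_comm]
      refine Finset.sum_congr rfl fun x _ => ?_
      rw [Sm_four, Finset.sum_mul, Finset.mul_sum]
      refine Finset.sum_congr rfl fun p _ => ?_
      rw [Finset.sum_mul, Finset.mul_sum]
  rw [e2, Complex.add_re, Complex.re_sum]
  have e3 : ((N : ℂ) * ((m : ℂ) + 1) ^ 4).re = (N : ℝ) * ((m : ℝ) + 1) ^ 4 := by
    have : ((N : ℂ) * ((m : ℂ) + 1) ^ 4) = (((N : ℝ) * ((m : ℝ) + 1) ^ 4 : ℝ) : ℂ) := by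
      push_cast
      rfl
    rw [this, Complex.ofReal_re]
  rw [e3]
  refine add_le_add le_rfl ?_
  calc ∑ x : Fin K, ((K : ℂ)⁻¹ * (((‖Sm m (ζ ^ (x : ℕ))‖ ^ 4 : ℝ) : ℂ) * TT N (ζ ^ (x : ℕ)))).re
      ≤ ∑ x : Fin K, (N : ℝ) ^ 2 * ((N : ℝ) ^ 2 - 1) / 12 * ((K : ℝ)⁻¹ *
        (‖Sm m (ζ ^ (x : ℕ))‖ ^ 4 * ‖ζ ^ (x : ℕ) - 1‖ ^ 2)) := by
        refine Finset.sum_le_sum fun x _ => ?_
        have h1 : ((K : ℂ)⁻¹ * (((‖Sm m (ζ ^ (x : ℕ))‖ ^ 4 : ℝ) : ℂ) * TT N (ζ ^ (x : ℕ)))).re =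
            (K : ℝ)⁻¹ * ‖Sm m (ζ ^ (x : ℕ))‖ ^ 4 * (TT N (ζ ^ (x : ℕ))).re := by
          have : ((K : ℂ)⁻¹ * (((‖Sm m (ζ ^ (x : ℕ))‖ ^ 4 : ℝ) : ℂ) * TT N (ζ ^ (x : ℕ)))) =
              (((K : ℝ)⁻¹ * ‖Sm m (ζ ^ (x : ℕ))‖ ^ 4 : ℝ) : ℂ) * TT N (ζ ^ (x : ℕ)) := by
            push_cast
            ring
          rw [this, Complex.re_ofReal_mul]
        rw [h1]
        have h2 := TT_le (N := N) (x := ζ ^ (x : ℕ)) (by rw [norm_pow, hζ1, one_pow])
        have h3 : 0 ≤ (K : ℝ)⁻¹ * ‖Sm m (ζ ^ (x : ℕ))‖ ^ 4 := by positivity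
        have h4 := mul_le_mul_of_nonneg_left h2 h3
        linarith
    _ = (N : ℝ) ^ 2 * ((N : ℝ) ^ 2 - 1) / 6 * ((m : ℝ) + 1) := by
        rw [← Finset.mul_sum, grid_four (by omega)]
        ring

/-- **the pair correlation bound** -/
theorem pair_bound (hN : 0 < N) {R m : ℕ} (hm : 2 * m ≤ R) {ν : Measure (Fin N → ℂ)}
    [IsProbabilityMeasure ν] (h1 : ∀ᵐ z ∂ν, ∀ i, ‖z i‖ = 1)
    (hν : ∀ F G : MvPolynomial (Fin N) ℂ, F.totalDegree ≤ R → G.totalDegree ≤ R →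
      ∫ z, eval z F * (starRingEnd ℂ) (eval z G) ∂ν =
        cue (fun z => eval z F * (starRingEnd ℂ) (eval z G))) :
    ∫ z, (nonsimple z : ℝ) ∂ν ≤
      (N : ℝ) ^ 2 * ((N : ℝ) ^ 2 - 1) / (6 * ((m : ℝ) + 1) ^ 3) := by
  have hUint : ∀ k, Integrable (fun z : Fin N → ℂ => UU z k) ν := fun k => poly_int h1 _ _
  have hU : ∀ k ≤ R, ∫ z, UU z k ∂ν = ff N k := by
    intro k hk
    have hdeg : (psum (Fin N) ℂ k).totalDegree ≤ R := by
      unfold psum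
      refine (totalDegree_finsetSum _ _).trans (Finset.sup_le fun i _ => ?_)
      exact (totalDegree_X_pow i k).le.trans hk
    rw [← cue_UU hN]
    exact hν _ _ hdeg hdeg
  have hQint : Integrable (fun z : Fin N → ℂ => QQ m z) ν := by
    unfold QQ
    exact integrable_finsetSum _ fun p _ => integrable_finsetSum _ fun q _ => hUint _
  have hQ : ∫ z, QQ m z ∂ν = ∑ p ∈ PP m, ∑ q ∈ PP m, ff N (dst (p.1 + p.2) (q.1 + q.2)) := by
    unfold QQ
    rw [integral_finsetSum _ fun p _ => integrable_finsetSum _ fun q _ => hUint _]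
    refine Finset.sum_congr rfl fun p hp => ?_
    rw [integral_finsetSum _ fun q _ => hUint _]
    refine Finset.sum_congr rfl fun q hq => ?_
    refine hU _ ?_
    have := PP_le hp
    have := PP_le hq
    unfold dst
    omega
  have hre : ∫ z, (QQ m z).re ∂ν = (∑ p ∈ PP m, ∑ q ∈ PP m,
      ff N (dst (p.1 + p.2) (q.1 + q.2))).re := by
    rw [← hQ]
    exact integral_re hQint
  have hm1 : (0 : ℝ) < (m : ℝ) + 1 := by positivity
  have hrint : Integrable (fun z : Fin N → ℂ => (QQ m z).re / ((m : ℝ) + 1) ^ 4) ν :=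
    hQint.re.div_const _
  have hgint : Integrable (fun z : Fin N → ℂ => (QQ m z).re / ((m : ℝ) + 1) ^ 4 - N) ν :=
    hrint.sub (integrable_const _)
  have h2 : ∫ z, (nonsimple z : ℝ) ∂ν ≤ ∫ z, ((QQ m z).re / ((m : ℝ) + 1) ^ 4 - N) ∂ν := by
    refine integral_mono_of_nonneg ?_ hgint ?_
    · exact Filter.Eventually.of_forall fun z => Nat.cast_nonneg _
    · filter_upwards [h1] with z hz
      exact nonsimple_le m hz
  refine h2.trans ?_
  rw [integral_sub hrint (integrable_const _), integral_div, hre]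
  simp only [integral_const, probReal_univ, smul_eq_mul, one_mul]
  have h3 := stat_le (N := N) m
  rw [sub_le_iff_le_add, div_le_iff₀ (by positivity)]
  refine h3.trans (le_of_eq ?_)
  field_simp
  ring

end

end Pool.Agent.H481.SB
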