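import Pool.Agent.H481.SB1

/-!
Two-point noise: the exact identity.
-/

open MvPolynomial Finset MeasureTheory
open Pool.Agent.R319.UM

namespace Pool.Agent.H481.SB

noncomputable section

variable {N K M : ℕ}

/-- the set of the positions: grid points and the two points of each source -/
abbrev XX (K M : ℕ) := Fin K ⊕ (Fin M × Bool)

/-- the data of the construction -/
structure Data (K M : ℕ) where
  /-- the grid -/
  g : Fin K → ℂ
  /-- the sources -/
  p : Fin M → Bool → ℂ
  /-- the fields of the sources -/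
  ps : Fin M → Fin K → ℂ
  /-- the amplitude -/
  a : ℂ

variable (d : Data K M)

/-- the positions -/
def Data.pos : XX K M → ℂ := Sum.elim d.g (fun q => d.p q.1 q.2)

/-- the weights -/
def Data.T (L : ℕ) (s : Fin M → Bool) (w : Fin M → Fin L) : XX K M → ℂ :=
  Sum.elim (fun k => (1 + ∑ l, sg (s l) * d.ps l k) * (K : ℂ)⁻¹)
    (fun q => sg q.2 * d.a * tt L (s q.1) (w q.1))

/-- the holomorphic weights -/
def Data.T' (L : ℕ) (w : Fin M → Fin L) : XX K M → ℂ :=
  Sum.elim (fun _ => (K : ℂ)⁻¹) (fun q => sg q.2 * d.a * rt L (w q.1))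

/-- the fields match the sources at the low frequencies -/
def Data.Match (D : ℕ) : Prop :=
  ∀ l, ∀ a < D, ∀ b < D, ∑ k, d.ps l k * (K : ℂ)⁻¹ * (d.g k ^ a * (starRingEnd ℂ) (d.g k ^ b)) =
    d.a * (d.p l true ^ a * (starRingEnd ℂ) (d.p l true ^ b) -
      d.p l false ^ a * (starRingEnd ℂ) (d.p l false ^ b))

lemma T_mom {D : ℕ} (hd : d.Match D) (L : ℕ) (s : Fin M → Bool) (w : Fin M → Fin L)
    {a b : ℕ} (ha : a < D) (hb : b < D) :
    ∑ x, d.T L s w x * (d.pos x ^ a * (starRingEnd ℂ) (d.pos x ^ b)) =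
      ∑ x, d.T' L w x * (d.pos x ^ a * (starRingEnd ℂ) (d.pos x ^ b)) := by
  rw [Fintype.sum_sum_type, Fintype.sum_sum_type, Fintype.sum_prod_type, Fintype.sum_prod_type]
  simp only [Data.T, Data.T', Data.pos, Sum.elim_inl, Sum.elim_inr, Fintype.sum_bool, sg_true,
    sg_false]
  have e1 : ∀ k, (1 + ∑ l, sg (s l) * d.ps l k) * (K : ℂ)⁻¹ *
      (d.g k ^ a * (starRingEnd ℂ) (d.g k ^ b)) =
      (K : ℂ)⁻¹ * (d.g k ^ a * (starRingEnd ℂ) (d.g k ^ b)) +
        ∑ l, sg (s l) * (d.ps l k * (K : ℂ)⁻¹ * (d.g k ^ a * (starRingEnd ℂ) (d.g k ^ b))) := by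
    intro k
    rw [add_mul, add_mul, one_mul, Finset.sum_mul, Finset.sum_mul]
    congr 1
    refine Finset.sum_congr rfl fun l _ => ?_
    ring
  simp only [e1]
  rw [Finset.sum_add_distrib, add_assoc]
  congr 1
  rw [Finset.sum_comm]
  simp only [← Finset.mul_sum, hd _ _ ha _ hb]
  rw [← Finset.sum_add_distrib]
  refine Finset.sum_congr rfl fun l _ => ?_
  unfold tt
  ring

/-- the source of a position -/
def src : XX K M → Option (Fin M) := Sum.elim (fun _ => none) (fun q => some q.1)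

/-- indicator of a source -/
def ee (x : XX K M) (l : Fin M) : ℕ := if src x = some l then 1 else 0

lemma ee_le (x : XX K M) (l : Fin M) : ee x l ≤ 1 := by
  unfold ee
  split_ifs <;> omega

/-- the coefficients of the holomorphic weights -/
def Data.C : XX K M → ℂ := Sum.elim (fun _ => (K : ℂ)⁻¹) (fun q => sg q.2 * d.a)

/-- the grid part -/
def Data.Gm (s : Fin M → Bool) : XX K M → ℂ :=
  Sum.elim (fun k => (1 + ∑ l, sg (s l) * d.ps l k) * (K : ℂ)⁻¹) (fun _ => 1)

/-- the source part -/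
def Data.ka : XX K M → ℂ := Sum.elim (fun _ => 1) (fun q => sg q.2 * d.a)

lemma prod_ee (f : Fin M → ℂ) (x : XX K M) :
    ∏ l, f l ^ ee x l = Sum.elim (fun _ => 1) (fun q => f q.1) x := by
  rcases x with k | ⟨l, b⟩
  · simp [ee, src]
  · simp only [ee, src, Sum.elim_inr, Option.some.injEq]
    rw [Finset.prod_pow_boole]
    simp

lemma T'_eq (L : ℕ) (w : Fin M → Fin L) (x : XX K M) :
    d.T' L w x = d.C x * ∏ l, rt L (w l) ^ ee x l := by
  rw [prod_ee]
  rcases x with k | ⟨l, b⟩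
  · simp [Data.T', Data.C]
  · simp [Data.T', Data.C]

lemma T_eq (L : ℕ) (s : Fin M → Bool) (w : Fin M → Fin L) (x : XX K M) :
    d.T L s w x = d.Gm s x * d.ka x * ∏ l, tt L (s l) (w l) ^ ee x l := by
  rw [prod_ee (fun l => tt L (s l) (w l))]
  rcases x with k | ⟨l, b⟩
  · simp [Data.T, Data.Gm, Data.ka]
  · simp [Data.T, Data.Gm, Data.ka]

/-- number of the slots in `S` at the source `l` -/
def cnt (S : Finset (Fin N)) (x : Fin N → XX K M) (l : Fin M) : ℕ := ∑ k ∈ S, ee (x k) l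

lemma cnt_le (S : Finset (Fin N)) (x : Fin N → XX K M) (l : Fin M) : cnt S x l ≤ N := by
  unfold cnt
  calc ∑ k ∈ S, ee (x k) l ≤ ∑ _k ∈ S, 1 := Finset.sum_le_sum fun k _ => ee_le _ _
    _ = S.card := by simp
    _ ≤ N := by simpa using Finset.card_le_univ S

lemma prod_T' (S : Finset (Fin N)) (L : ℕ) (w : Fin M → Fin L) (x : Fin N → XX K M) :
    ∏ k ∈ S, d.T' L w (x k) = (∏ k ∈ S, d.C (x k)) * ∏ l, rt L (w l) ^ cnt S x l := by
  simp only [T'_eq, Finset.prod_mul_distrib, cnt]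
  rw [Finset.prod_comm]
  simp only [Finset.prod_pow_eq_pow_sum]

lemma prod_T (S : Finset (Fin N)) (L : ℕ) (s : Fin M → Bool) (w : Fin M → Fin L)
    (x : Fin N → XX K M) :
    ∏ k ∈ S, d.T L s w (x k) = (∏ k ∈ S, d.Gm s (x k)) * (∏ k ∈ S, d.ka (x k)) *
      ∏ l, tt L (s l) (w l) ^ cnt S x l := by
  simp only [T_eq, Finset.prod_mul_distrib, cnt]
  congr 1
  rw [Finset.prod_comm]
  simp only [Finset.prod_pow_eq_pow_sum]

/-- the weights of the grid alone -/
def BB (K M : ℕ) : XX K M → ℂ := Sum.elim (fun _ => (K : ℂ)⁻¹) (fun _ => 0)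

lemma prod_C (S : Finset (Fin N)) (x : Fin N → XX K M) :
    (∏ k ∈ S, d.C (x k)) * ∏ l, (if cnt S x l = 0 then (1 : ℂ) else 0) =
      ∏ k ∈ S, BB K M (x k) := by
  by_cases h : ∃ k ∈ S, ∃ q, x k = Sum.inr q
  · obtain ⟨k, hk, ⟨l, b⟩, hx⟩ := h
    rw [Finset.prod_eq_zero (i := k) hk (f := fun k => BB K M (x k)) (by rw [hx]; simp [BB])]
    rw [Finset.prod_eq_zero (i := l) (Finset.mem_univ l), mul_zero]
    rw [if_neg]
    unfold cnt
    intro h0
    rw [Finset.sum_eq_zero_iff] at h0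
    have := h0 k hk
    rw [hx] at this
    simp [ee, src] at this
  · push Not at h
    have hg : ∀ k ∈ S, ∃ i, x k = Sum.inl i := by
      intro k hk
      rcases hx : x k with i | q
      · exact ⟨i, rfl⟩
      · exact absurd hx (h k hk q)
    rw [Finset.prod_eq_one (s := Finset.univ), mul_one]
    · refine Finset.prod_congr rfl fun k hk => ?_
      obtain ⟨i, hi⟩ := hg k hk
      rw [hi]
      simp [Data.C, BB]
    · intro l _
      rw [if_pos]
      unfold cnt
      refine Finset.sum_eq_zero fun k hk => ?_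
      obtain ⟨i, hi⟩ := hg k hk
      rw [hi]
      simp [ee, src]

/-- the mean of the holomorphic weights -/
lemma EE_T' {L : ℕ} (hL : N < L) (hL2 : 2 < L) (S : Finset (Fin N)) (x : Fin N → XX K M) :
    EE M L (fun _ w => ∏ k ∈ S, d.T' L w (x k)) = ∏ k ∈ S, BB K M (x k) := by
  simp only [prod_T']
  rw [EE_mul, EE_prod (fun l _ w => rt L w ^ cnt S x l), ← prod_C]
  congr 1
  refine Finset.prod_congr rfl fun l _ => ?_
  exact avg0 (by omega) (lt_of_le_of_lt (cnt_le S x l) hL)

/-- the mean of the holomorphic weights against the square of the noise of a source which is not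
used -/
lemma EE_T'2 {L : ℕ} (hL : N < L) (hL2 : 2 < L) (S : Finset (Fin N)) (x : Fin N → XX K M)
    (l0 : Fin M) (h0 : cnt S x l0 = 0) :
    EE M L (fun s w => tt L (s l0) (w l0) ^ 2 * ∏ k ∈ S, d.T' L w (x k)) =
      - ∏ k ∈ S, BB K M (x k) := by
  classical
  simp only [prod_T']
  have e : (fun (s : Fin M → Bool) (w : Fin M → Fin L) => tt L (s l0) (w l0) ^ 2 *
      ((∏ k ∈ S, d.C (x k)) * ∏ l, rt L (w l) ^ cnt S x l)) =
      fun s w => (∏ k ∈ S, d.C (x k)) * ∏ l, (if l = l0 then tt L (s l) (w l) ^ 2 else 1) *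
        rt L (w l) ^ cnt S x l := by
    funext s w
    rw [Finset.prod_mul_distrib, Finset.prod_ite_eq']
    simp only [Finset.mem_univ, if_true]
    ring
  rw [e, EE_mul, EE_prod (fun l b w => (if l = l0 then tt L b w ^ 2 else 1) *
    rt L w ^ cnt S x l), ← prod_C, ← mul_neg]
  congr 1
  rw [← Finset.mul_prod_erase Finset.univ _ (Finset.mem_univ l0),
    ← Finset.mul_prod_erase Finset.univ (fun l => if cnt S x l = 0 then (1 : ℂ) else 0)
      (Finset.mem_univ l0)]
  rw [h0]
  simp only [if_true, pow_zero, mul_one, one_mul]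
  rw [avg2 hL2, neg_one_mul]
  congr 1
  refine Finset.prod_congr rfl fun l hl => ?_
  simp only [if_neg (Finset.ne_of_mem_erase hl), one_mul]
  exact avg0 (by omega) (lt_of_le_of_lt (cnt_le S x l) hL)

/-- the grid is the grid of the roots of unity -/
def Data.Grid : Prop := ∀ k : Fin K, d.g k = Complex.exp (2 * Real.pi * Complex.I / K) ^ (k : ℕ)

lemma BB_mom (hg : d.Grid) {a b : ℕ} (ha : a < K) (hb : b < K) :
    ∑ x, BB K M x * (d.pos x ^ a * (starRingEnd ℂ) (d.pos x ^ b)) = if a = b then 1 else 0 := by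
  rw [Fintype.sum_sum_type]
  simp only [BB, Sum.elim_inl, Sum.elim_inr, zero_mul, Finset.sum_const_zero, add_zero, Data.pos]
  simp only [hg _]
  rw [← Finset.mul_sum, one_disc (by omega) ha hb]
  have : (K : ℂ) ≠ 0 := by
    have : 0 < K := by omega
    exact_mod_cast this.ne'
  split_ifs
  · field_simp
  · simp

/-- the value of the mass of a configuration -/
def Data.W (L : ℕ) (x : Fin N → XX K M) : ℂ := EE M L (fun s w => ∏ k, d.T L s w (x k))

/-- **the exact identity** -/
theorem exact_id (hN : 0 < N) {D R : ℕ} (hD : N + R ≤ D) (hK : D ≤ K) (hg : d.Grid)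
    (hd : d.Match D) {L : ℕ}
    (hL : N < L) (hL2 : 2 < L) (F G : MvPolynomial (Fin N) ℂ) (hF : F.totalDegree ≤ R)
    (hG : G.totalDegree ≤ R) :
    ∑ x : Fin N → XX K M, d.W L x * (V2 (fun k => d.pos (x k)) : ℂ) *
      (eval (fun k => d.pos (x k)) F * (starRingEnd ℂ) (eval (fun k => d.pos (x k)) G)) =
      (N.factorial : ℂ) *
        cue (fun z => eval z F * (starRingEnd ℂ) (eval z G)) := by
  have hdeg : ∀ P : MvPolynomial (Fin N) ℂ, P.totalDegree ≤ R →
      ∀ j, (P * VP N).degreeOf j < D := by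
    intro P hP j
    refine lt_of_le_of_lt (MvPolynomial.degreeOf_mul_le _ _ _) ?_
    have h1 := MvPolynomial.degreeOf_le_totalDegree P j
    have h2 := VP_deg hN j
    omega
  have hPQ : ∀ z : Fin N → ℂ, (V2 z : ℂ) * (eval z F * (starRingEnd ℂ) (eval z G)) =
      eval z (F * VP N) * (starRingEnd ℂ) (eval z (G * VP N)) := by
    intro z
    rw [← VP_eval, map_mul, map_mul, map_mul]
    ring
  have e0 : ∀ x : Fin N → XX K M, d.W L x * (V2 (fun k => d.pos (x k)) : ℂ) *
      (eval (fun k => d.pos (x k)) F * (starRingEnd ℂ) (eval (fun k => d.pos (x k)) G)) =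
      d.W L x * (eval (fun k => d.pos (x k)) (F * VP N) *
        (starRingEnd ℂ) (eval (fun k => d.pos (x k)) (G * VP N))) := by
    intro x
    rw [mul_assoc, hPQ]
  simp only [e0]
  have e1 : ∀ x : Fin N → XX K M, d.W L x *
      (eval (fun k => d.pos (x k)) (F * VP N) *
        (starRingEnd ℂ) (eval (fun k => d.pos (x k)) (G * VP N))) =
      EE M L (fun s w => (∏ k, d.T L s w (x k)) * (eval (fun k => d.pos (x k)) (F * VP N) *
        (starRingEnd ℂ) (eval (fun k => d.pos (x k)) (G * VP N)))) := by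
    intro x
    unfold Data.W
    rw [← EE_mul']
  simp only [e1]
  rw [← EE_sum]
  have e2 : ∀ s w, ∑ x : Fin N → XX K M, (∏ k, d.T L s w (x k)) *
      (eval (fun k => d.pos (x k)) (F * VP N) *
        (starRingEnd ℂ) (eval (fun k => d.pos (x k)) (G * VP N))) =
      ∑ x : Fin N → XX K M, (∏ k, d.T' L w (x k)) *
      (eval (fun k => d.pos (x k)) (F * VP N) *
        (starRingEnd ℂ) (eval (fun k => d.pos (x k)) (G * VP N))) := by
    intro s w
    exact swap d.pos d.pos (fun _ => d.T L s w) (fun _ => d.T' L w)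
      (fun k a ha b hb => T_mom d hd L s w ha hb) _ _ (hdeg F hF) (hdeg G hG)
  simp only [e2]
  rw [EE_sum]
  have e3 : ∀ x : Fin N → XX K M, EE M L (fun _ w => (∏ k, d.T' L w (x k)) *
      (eval (fun k => d.pos (x k)) (F * VP N) *
        (starRingEnd ℂ) (eval (fun k => d.pos (x k)) (G * VP N)))) =
      (∏ k, BB K M (x k)) * (eval (fun k => d.pos (x k)) (F * VP N) *
        (starRingEnd ℂ) (eval (fun k => d.pos (x k)) (G * VP N))) := by
    intro x
    rw [EE_mul' _ (fun _ w => (∏ k, d.T' L w (x k))), EE_T' d hL hL2]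
  simp only [e3]
  have hK0 : 0 < K := by omega
  have e4 := swap (D := D) d.pos (fun k : Fin K => Complex.exp (2 * Real.pi * Complex.I / K) ^ (k : ℕ))
    (fun _ : Fin N => BB K M) (fun _ _ => (K : ℂ)⁻¹) (fun k a ha b hb => by
      rw [BB_mom d hg (by omega) (by omega), ← Finset.mul_sum,
        one_disc (by omega) (by omega) (by omega)]
      have : (K : ℂ) ≠ 0 := by exact_mod_cast hK0.ne'
      split_ifs
      · field_simp
      · simp) (F * VP N) (G * VP N) (hdeg F hF) (hdeg G hG)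
  rw [e4]
  have e5 := torus_eq_grid hK0 (F * VP N) (G * VP N)
    (fun j => lt_of_lt_of_le (hdeg F hF j) hK) (fun j => lt_of_lt_of_le (hdeg G hG j) hK)
  have hNf : (N.factorial : ℂ) ≠ 0 := by exact_mod_cast N.factorial_ne_zero
  have hcue : ∀ I : ℂ, (N.factorial : ℂ) * (((N.factorial : ℂ) * (2 * Real.pi) ^ N)⁻¹ * I) =
      ((2 * Real.pi : ℂ) ^ N)⁻¹ * I := by
    intro I
    rw [mul_inv]
    field_simp
  unfold cue
  rw [hcue]
  have e6 : ∀ θ : Fin N → ℝ, eval (ez θ) F * (starRingEnd ℂ) (eval (ez θ) G) * (V2 (ez θ) : ℂ) =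
      eval (ez θ) (F * VP N) * (starRingEnd ℂ) (eval (ez θ) (G * VP N)) := by
    intro θ
    rw [← hPQ]
    ring
  simp only [e6]
  rw [e5, Finset.mul_sum]
  refine Finset.sum_congr rfl fun x _ => ?_
  rw [Finset.prod_const, Finset.card_univ, Fintype.card_fin, inv_pow]
  rfl

end

end Pool.Agent.H481.SB
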