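import Pool.Agent.H481.SB2

/-!
Two-point noise: the mass of the configurations with a used source.
-/

open MvPolynomial Finset MeasureTheory
open Pool.Agent.R319.UM

namespace Pool.Agent.H481.SB

noncomputable section

variable {N K M : ℕ}

/-- weights with two prescribed slots -/
def two (i j : Fin N) (u v : XX K M) (T : XX K M → ℂ) : Fin N → XX K M → ℂ := fun k x =>
  if k = i then (if x = u then 1 else 0) else if k = j then (if x = v then 1 else 0) else T x

lemma two_prod {i j : Fin N} (hij : i ≠ j) (u v : XX K M) (T : XX K M → ℂ) (x : Fin N → XX K M) :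
    ∏ k, two i j u v T k (x k) = (if x i = u then 1 else 0) * ((if x j = v then 1 else 0) *
      ∏ k ∈ (univ.erase i).erase j, T (x k)) := by
  rw [← Finset.mul_prod_erase univ _ (Finset.mem_univ i),
    ← Finset.mul_prod_erase (univ.erase i) _ (Finset.mem_erase.2 ⟨hij.symm, Finset.mem_univ j⟩)]
  congr 1
  · simp [two]
  congr 1
  · simp [two, hij.symm]
  · refine Finset.prod_congr rfl fun k hk => ?_
    rw [Finset.mem_erase, Finset.mem_erase] at hk
    simp [two, hk.1, hk.2.1]

variable (d : Data K M)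

/-- the mass of the configurations in which the slots `i` and `j` are at the two points of the
source `l` -/
theorem two_id (hN : 0 < N) {D : ℕ} (hD : N ≤ D) (hd : d.Match D) {L : ℕ}
    (hL : N < L) (hL2 : 2 < L) {i j : Fin N} (hij : i ≠ j) (l : Fin M) :
    ∑ x : Fin N → XX K M, (if x i = Sum.inr (l, true) then (1 : ℂ) else 0) *
      (if x j = Sum.inr (l, false) then 1 else 0) *
      (d.W L x * (V2 (fun k => d.pos (x k)) : ℂ)) =
      d.a ^ 2 * ∑ x : Fin N → XX K M,
        (∏ k, two i j (Sum.inr (l, true)) (Sum.inr (l, false)) (BB K M) k (x k)) *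
          (V2 (fun k => d.pos (x k)) : ℂ) := by
  classical
  set u : XX K M := Sum.inr (l, true) with hu
  set v : XX K M := Sum.inr (l, false) with hv
  have hdeg : ∀ j, (VP N).degreeOf j < D := by
    intro j
    have h2 := VP_deg hN j
    omega
  have e1 : ∀ x : Fin N → XX K M, (if x i = u then (1 : ℂ) else 0) *
      (if x j = v then 1 else 0) * (d.W L x * (V2 (fun k => d.pos (x k)) : ℂ)) =
      EE M L (fun s w => (- d.a ^ 2 * tt L (s l) (w l) ^ 2) * ((∏ k, two i j u v (d.T L s w) k (x k)) *
        (V2 (fun k => d.pos (x k)) : ℂ))) := by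
    intro x
    unfold Data.W
    rw [← EE_mul', ← EE_mul]
    congr 1
    funext s w
    rw [two_prod hij]
    by_cases hi : x i = u
    · by_cases hj : x j = v
      · rw [← Finset.mul_prod_erase univ (fun k => d.T L s w (x k)) (Finset.mem_univ i),
          ← Finset.mul_prod_erase (univ.erase i) (fun k => d.T L s w (x k))
            (Finset.mem_erase.2 ⟨hij.symm, Finset.mem_univ j⟩)]
        have t1 : d.T L s w (x i) = d.a * tt L (s l) (w l) := by
          rw [hi, hu]
          simp [Data.T]
        have t2 : d.T L s w (x j) = - d.a * tt L (s l) (w l) := by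
          rw [hj, hv]
          simp [Data.T]
        rw [t1, t2, if_pos hi, if_pos hj]
        ring
      · rw [if_neg hj]
        ring
    · rw [if_neg hi]
      ring
  simp only [e1]
  rw [← EE_sum]
  have e2 : ∀ s w, ∑ x : Fin N → XX K M, (- d.a ^ 2 * tt L (s l) (w l) ^ 2) *
      ((∏ k, two i j u v (d.T L s w) k (x k)) * (V2 (fun k => d.pos (x k)) : ℂ)) =
      ∑ x : Fin N → XX K M, (- d.a ^ 2) * ((tt L (s l) (w l) ^ 2 *
      (∏ k, two i j u v (d.T' L w) k (x k))) * (V2 (fun k => d.pos (x k)) : ℂ)) := by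
    intro s w
    rw [← Finset.mul_sum]
    have h := swap (D := D) d.pos d.pos (two i j u v (d.T L s w)) (two i j u v (d.T' L w))
      (fun k a ha b hb => by
        unfold two
        by_cases hki : k = i
        · simp only [if_pos hki]
        · by_cases hkj : k = j
          · simp only [if_pos hkj, if_neg hki]
          · simp only [if_neg hkj, if_neg hki]
            exact T_mom d hd L s w ha hb) (VP N) (VP N) hdeg hdeg
    simp only [VP_eval] at h
    rw [h, Finset.mul_sum]
    refine Finset.sum_congr rfl fun x _ => ?_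
    ring
  simp only [e2]
  rw [EE_sum, Finset.mul_sum]
  refine Finset.sum_congr rfl fun x _ => ?_
  rw [EE_mul]
  have e3 : EE M L (fun s w => (tt L (s l) (w l) ^ 2 * (∏ k, two i j u v (d.T' L w) k (x k))) *
      (V2 (fun k => d.pos (x k)) : ℂ)) =
      (- ∏ k, two i j u v (BB K M) k (x k)) * (V2 (fun k => d.pos (x k)) : ℂ) := by
    rw [EE_mul' _ (fun s w => tt L (s l) (w l) ^ 2 * (∏ k, two i j u v (d.T' L w) k (x k)))]
    by_cases hinj : Function.Injective x
    · congr 1
      simp only [two_prod hij]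
      by_cases hi : x i = u
      · by_cases hj : x j = v
        · simp only [if_pos hi, if_pos hj, one_mul]
          refine EE_T'2 d hL hL2 _ x l ?_
          unfold cnt
          refine Finset.sum_eq_zero fun k hk => ?_
          rw [Finset.mem_erase, Finset.mem_erase] at hk
          unfold ee
          rw [if_neg]
          intro hs
          rcases hx : x k with q | ⟨l', b⟩
          · rw [hx] at hs
            simp [src] at hs
          · rw [hx] at hs
            simp only [src, Sum.elim_inr, Option.some.injEq] at hs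
            subst hs
            cases b
            · exact hk.1 (hinj (by rw [hx, hj]))
            · exact hk.2.1 (hinj (by rw [hx, hi]))
        · simp only [if_neg hj, mul_zero, zero_mul, neg_zero]
          unfold EE
          simp
      · simp only [if_neg hi, mul_zero, zero_mul, neg_zero]
        unfold EE
        simp
    · rw [V2_zero]
      · simp
      · intro h
        apply hinj
        intro a b hab
        exact h (by simp only [hab])
  rw [e3]
  ring

/-! ### the determinant -/

lemma VP_perm (z : Fin N → ℂ) :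
    eval z (VP N) = ∑ σ : Equiv.Perm (Fin N), ((Equiv.Perm.sign σ : ℤ) : ℂ) *
      ∏ k, z k ^ (σ k : ℕ) := by
  have h : eval z (VP N) = (Matrix.vandermonde z).det := by
    unfold VP
    rw [RingHom.map_det]
    congr 1
    ext a b
    simp [Matrix.vandermonde_apply]
  rw [h, ← Matrix.det_transpose, Matrix.det_apply']
  refine Finset.sum_congr rfl fun σ _ => ?_
  simp [Matrix.vandermonde_apply]

lemma V2_perm (z : Fin N → ℂ) :
    (V2 z : ℂ) = ∑ σ : Equiv.Perm (Fin N), ∑ π : Equiv.Perm (Fin N),
      (((Equiv.Perm.sign σ : ℤ) : ℂ) * ((Equiv.Perm.sign π : ℤ) : ℂ)) *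
        mon (fun k => (σ k : ℕ)) (fun k => (π k : ℕ)) z := by
  rw [← VP_eval, VP_perm, map_sum, Finset.sum_mul_sum]
  refine Finset.sum_congr rfl fun σ _ => Finset.sum_congr rfl fun π _ => ?_
  unfold mon
  rw [map_mul, map_prod, Finset.prod_mul_distrib]
  have : (starRingEnd ℂ) ((Equiv.Perm.sign π : ℤ) : ℂ) = ((Equiv.Perm.sign π : ℤ) : ℂ) := by
    simp
  rw [this]
  ring

/-- product weights against the squared Vandermonde determinant -/
lemma sum_V2 {X : Type*} [Fintype X] (pos : X → ℂ) (T : Fin N → X → ℂ) :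
    ∑ x : Fin N → X, (∏ k, T k (x k)) * (V2 (fun k => pos (x k)) : ℂ) =
      ∑ σ : Equiv.Perm (Fin N), ∑ ρ : Equiv.Perm (Fin N), ((Equiv.Perm.sign ρ : ℤ) : ℂ) *
        ∏ k, ∑ x, T k x * (pos x ^ (σ k : ℕ) * (starRingEnd ℂ) (pos x ^ (σ (ρ k) : ℕ))) := by
  simp only [V2_perm, Finset.mul_sum]
  rw [Finset.sum_comm]
  refine Finset.sum_congr rfl fun σ _ => ?_
  rw [Finset.sum_comm]
  rw [← Equiv.sum_comp (Equiv.mulLeft σ)]
  refine Finset.sum_congr rfl fun ρ _ => ?_
  have h := sum_mon pos T (fun k => (σ k : ℕ)) (fun k => (σ (ρ k) : ℕ))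
  simp only [Equiv.coe_mulLeft, Equiv.Perm.coe_mul, Function.comp_apply, Equiv.Perm.sign_mul]
  rw [← h, Finset.mul_sum]
  refine Finset.sum_congr rfl fun x _ => ?_
  have hs : ((Equiv.Perm.sign σ : ℤ) : ℂ) * ((Equiv.Perm.sign σ : ℤ) : ℂ) = 1 := by
    rcases Int.units_eq_one_or (Equiv.Perm.sign σ) with h | h <;> rw [h] <;> simp
  push_cast
  linear_combination (∏ k, T k (x k)) * ((Equiv.Perm.sign ρ : ℤ) : ℂ) *
    mon (fun k => (σ k : ℕ)) (fun k => (σ (ρ k) : ℕ)) (fun k => pos (x k)) * hs

lemma perm_two {i j : Fin N} {ρ : Equiv.Perm (Fin N)}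
    (h : ∀ k, k ≠ i → k ≠ j → ρ k = k) : ρ = 1 ∨ ρ = Equiv.swap i j := by
  have hi : ρ i = i ∨ ρ i = j := by
    by_contra hc
    push Not at hc
    have := h (ρ i) hc.1 hc.2
    exact hc.1 (ρ.injective this)
  have hj : ρ j = i ∨ ρ j = j := by
    by_contra hc
    push Not at hc
    have := h (ρ j) hc.1 hc.2
    exact hc.2 (ρ.injective this)
  by_cases hij : i = j
  · left
    ext k
    subst hij
    by_cases hk : k = i
    · subst hk
      rcases hi with hi | hi <;> rw [hi] <;> rfl
    · rw [h k hk hk]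
      rfl
  rcases hi with hi | hi
  · left
    have hj' : ρ j = j := by
      rcases hj with hj | hj
      · exact absurd (ρ.injective (hi.trans hj.symm)) hij
      · exact hj
    ext k
    by_cases hk : k = i
    · subst hk
      rw [hi]
      rfl
    · by_cases hk' : k = j
      · subst hk'
        rw [hj']
        rfl
      · rw [h k hk hk']
        rfl
  · right
    have hj' : ρ j = i := by
      rcases hj with hj | hj
      · exact hj
      · exact absurd (ρ.injective (hi.trans hj.symm)) hij
    ext k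
    by_cases hk : k = i
    · subst hk
      rw [hi, Equiv.swap_apply_left]
    · by_cases hk' : k = j
      · subst hk'
        rw [hj', Equiv.swap_apply_right]
      · rw [h k hk hk', Equiv.swap_apply_of_ne_of_ne hk hk']

lemma unit_pow {z : ℂ} (h : ‖z‖ = 1) (n : ℕ) : z ^ n * (starRingEnd ℂ) (z ^ n) = 1 := by
  rw [Complex.mul_conj, Complex.normSq_eq_norm_sq, norm_pow, h]
  simp

/-- the two point function -/
lemma two_det (hg : d.Grid) (hNK : N ≤ K) (hp : ∀ l b, ‖d.p l b‖ = 1) {i j : Fin N}
    (hij : i ≠ j) (l : Fin M) :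
    ∑ x : Fin N → XX K M,
        (∏ k, two i j (Sum.inr (l, true)) (Sum.inr (l, false)) (BB K M) k (x k)) *
          (V2 (fun k => d.pos (x k)) : ℂ) =
      ∑ σ : Equiv.Perm (Fin N), (1 - (d.p l true * (starRingEnd ℂ) (d.p l false)) ^ (σ i : ℕ) *
        (starRingEnd ℂ) ((d.p l true * (starRingEnd ℂ) (d.p l false)) ^ (σ j : ℕ))) := by
  classical
  rw [sum_V2]
  refine Finset.sum_congr rfl fun σ _ => ?_
  set μ : Fin N → ℕ → ℕ → ℂ := fun k α β =>
    ∑ x, two i j (Sum.inr (l, true)) (Sum.inr (l, false)) (BB K M) k x *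
      (d.pos x ^ α * (starRingEnd ℂ) (d.pos x ^ β)) with hμ
  have m1 : ∀ α β, μ i α β = d.p l true ^ α * (starRingEnd ℂ) (d.p l true ^ β) := by
    intro α β
    rw [hμ]
    simp only [two, if_true, ite_mul, one_mul, zero_mul, Finset.sum_ite_eq', Finset.mem_univ]
    simp [Data.pos]
  have m2 : ∀ α β, μ j α β = d.p l false ^ α * (starRingEnd ℂ) (d.p l false ^ β) := by
    intro α β
    rw [hμ]
    simp only [two, if_true, if_neg hij.symm, ite_mul, one_mul, zero_mul, Finset.sum_ite_eq',
      Finset.mem_univ]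
    simp [Data.pos]
  have m3 : ∀ k, k ≠ i → k ≠ j → ∀ α < K, ∀ β < K, μ k α β = if α = β then 1 else 0 := by
    intro k hki hkj α hα β hβ
    rw [hμ]
    simp only [two, if_neg hki, if_neg hkj]
    exact BB_mom d hg hα hβ
  have hlt : ∀ k : Fin N, (k : ℕ) < K := fun k => lt_of_lt_of_le k.2 hNK
  change ∑ ρ : Equiv.Perm (Fin N), ((Equiv.Perm.sign ρ : ℤ) : ℂ) *
    ∏ k, μ k (σ k) (σ (ρ k)) = _
  have hne : (1 : Equiv.Perm (Fin N)) ≠ Equiv.swap i j := by
    intro h
    have := congrArg (fun e : Equiv.Perm (Fin N) => e i) h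
    simp at this
    exact hij this
  rw [← Finset.sum_subset (Finset.subset_univ {(1 : Equiv.Perm (Fin N)), Equiv.swap i j}),
    Finset.sum_pair hne]
  · have hS : ∀ (f : Fin N → ℂ), ∏ k, f k = f i * (f j * ∏ k ∈ (univ.erase i).erase j, f k) := by
      intro f
      rw [← Finset.mul_prod_erase univ _ (Finset.mem_univ i),
        ← Finset.mul_prod_erase (univ.erase i) _
          (Finset.mem_erase.2 ⟨hij.symm, Finset.mem_univ j⟩)]
    have p1 : ∏ k, μ k (σ k) (σ ((1 : Equiv.Perm (Fin N)) k)) = 1 := by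
      rw [hS, m1, m2, Finset.prod_eq_one]
      · simp only [Equiv.Perm.coe_one, id_eq]
        rw [unit_pow (hp _ _), unit_pow (hp _ _)]
        ring
      · intro k hk
        rw [Finset.mem_erase, Finset.mem_erase] at hk
        rw [m3 k hk.2.1 hk.1 _ (hlt _) _ (hlt _)]
        simp
    have p2 : ∏ k, μ k (σ k) (σ ((Equiv.swap i j) k)) =
        (d.p l true * (starRingEnd ℂ) (d.p l false)) ^ (σ i : ℕ) *
        (starRingEnd ℂ) ((d.p l true * (starRingEnd ℂ) (d.p l false)) ^ (σ j : ℕ)) := by
      rw [hS, m1, m2, Finset.prod_eq_one]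
      · rw [Equiv.swap_apply_left, Equiv.swap_apply_right]
        simp only [map_pow, map_mul, Complex.conj_conj]
        ring
      · intro k hk
        rw [Finset.mem_erase, Finset.mem_erase] at hk
        rw [m3 k hk.2.1 hk.1 _ (hlt _) _ (hlt _), Equiv.swap_apply_of_ne_of_ne hk.2.1 hk.1]
        simp
    rw [p1, p2, Equiv.Perm.sign_one, Equiv.Perm.sign_swap hij]
    push_cast
    ring
  · intro ρ _ hρ
    have : ∃ k, k ≠ i ∧ k ≠ j ∧ ρ k ≠ k := by
      by_contra hc
      push Not at hc
      rcases perm_two hc with h | h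
      · exact hρ (by rw [h]; simp)
      · exact hρ (by rw [h]; simp)
    obtain ⟨k, hki, hkj, hk⟩ := this
    rw [Finset.prod_eq_zero (Finset.mem_univ k), mul_zero]
    rw [m3 k hki hkj _ (hlt _) _ (hlt _), if_neg]
    intro h
    exact hk (σ.injective (Fin.ext h)).symm

/-- summation over the slots -/
lemma slots (h : ℕ → ℕ → ℂ) (h0 : ∀ a, h a a = 0) :
    ∑ i : Fin N, ∑ j ∈ univ.erase i, ∑ σ : Equiv.Perm (Fin N), h (σ i) (σ j) =
      (N.factorial : ℂ) * ∑ a : Fin N, ∑ b : Fin N, h a b := by
  have e1 : ∀ i : Fin N, ∑ j ∈ univ.erase i, ∑ σ : Equiv.Perm (Fin N), h (σ i) (σ j) =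
      ∑ j : Fin N, ∑ σ : Equiv.Perm (Fin N), h (σ i) (σ j) := by
    intro i
    rw [← Finset.add_sum_erase univ _ (Finset.mem_univ i)]
    simp [h0]
  simp only [e1]
  have e2 : ∀ i : Fin N, ∑ j : Fin N, ∑ σ : Equiv.Perm (Fin N), h (σ i) (σ j) =
      ∑ σ : Equiv.Perm (Fin N), ∑ j : Fin N, h (σ i) (σ j) := fun i => Finset.sum_comm
  simp only [e2]
  rw [Finset.sum_comm]
  have e3 : ∀ σ : Equiv.Perm (Fin N), ∑ i : Fin N, ∑ j : Fin N, h (σ i) (σ j) =
      ∑ a : Fin N, ∑ b : Fin N, h a b := by
    intro σ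
    rw [Equiv.sum_comp σ (fun a : Fin N => ∑ j : Fin N, h a (σ j))]
    refine Finset.sum_congr rfl fun a _ => ?_
    rw [Equiv.sum_comp σ (fun b : Fin N => h a b)]
  simp only [e3]
  rw [Finset.sum_const, Finset.card_univ, Fintype.card_perm, Fintype.card_fin, nsmul_eq_mul]

end

end Pool.Agent.H481.SB
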