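import Pool.Agent.H481.SB3

/-!
Two-point noise: the masses of the configurations.
-/

open MvPolynomial Finset MeasureTheory
open Pool.Agent.R319.UM

namespace Pool.Agent.H481.SB

noncomputable section

variable {N K M : ℕ}

/-- each source is not used, or both its points are used once -/
def Good (x : Fin N → XX K M) : Prop :=
  Function.Injective x ∧ ∀ l, (∃ k, x k = Sum.inr (l, true)) ↔ (∃ k, x k = Sum.inr (l, false))

/-- the constants of the noise -/
def tau3 (n : ℕ) : ℂ := if n = 0 then 1 else if n = 1 then 0 else -1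

lemma lam_tau {L n : ℕ} (hL : 2 < L) (hn : n ≤ 2) (b : Bool) :
    ∑ w : Fin L, lam L b w * tt L b w ^ n = tau3 n / 2 := by
  interval_cases n
  · simp only [pow_zero, mul_one]
    rw [lam_tt0 hL]
    simp [tau3]
  · simp only [pow_one]
    rw [lam_tt1 hL]
    simp [tau3]
  · rw [lam_tt2 hL]
    simp [tau3]

lemma sum_ind {x : Fin N → XX K M} (hx : Function.Injective x) (u : XX K M) [Decidable (∃ k, x k = u)] :
    ∑ k, (if x k = u then 1 else 0 : ℕ) = if ∃ k, x k = u then 1 else 0 := by
  by_cases h : ∃ k, x k = u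
  · rw [if_pos h]
    obtain ⟨k0, hk0⟩ := h
    rw [Finset.sum_eq_single k0]
    · rw [if_pos hk0]
    · intro k _ hk
      rw [if_neg]
      intro hxk
      exact hk (hx (hxk.trans hk0.symm))
    · simp
  · rw [if_neg h]
    push Not at h
    refine Finset.sum_eq_zero fun k _ => ?_
    rw [if_neg (h k)]

lemma ee_eq (x : XX K M) (l : Fin M) :
    ee x l = (if x = Sum.inr (l, true) then 1 else 0) + (if x = Sum.inr (l, false) then 1 else 0) := by
  rcases x with k | ⟨l', b⟩
  · simp [ee, src]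
  · cases b <;> simp [ee, src]

lemma cnt_eq (x : Fin N → XX K M) (l : Fin M) :
    cnt univ x l = ∑ k, (if x k = Sum.inr (l, true) then 1 else 0 : ℕ) +
      ∑ k, (if x k = Sum.inr (l, false) then 1 else 0 : ℕ) := by
  unfold cnt
  rw [← Finset.sum_add_distrib]
  exact Finset.sum_congr rfl fun k _ => ee_eq _ _

lemma cnt_le2 {x : Fin N → XX K M} (hx : Function.Injective x) (l : Fin M) :
    cnt univ x l ≤ 2 := by
  classical
  rw [cnt_eq, sum_ind hx, sum_ind hx]
  split_ifs <;> omega

lemma cnt_good {x : Fin N → XX K M} (hx : Good x) (l : Fin M) [Decidable (∃ k, x k = Sum.inr (l, true))] :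
    cnt univ x l = if ∃ k, x k = Sum.inr (l, true) then 2 else 0 := by
  classical
  rw [cnt_eq, sum_ind hx.1, sum_ind hx.1]
  by_cases h : ∃ k, x k = Sum.inr (l, true)
  · have h' := (hx.2 l).1 h
    rw [if_pos h, if_pos h', if_pos h]
  · have h' := fun hf => h ((hx.2 l).2 hf)
    rw [if_neg h, if_neg h', if_neg h]

variable (d : Data K M)

lemma W_inj {L : ℕ} (hL2 : 2 < L) {x : Fin N → XX K M} (hx : Function.Injective x) :
    d.W L x = (∑ s : Fin M → Bool, ∏ k, d.Gm s (x k)) / 2 ^ M * (∏ k, d.ka (x k)) *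
      ∏ l, tau3 (cnt univ x l) := by
  unfold Data.W
  simp only [prod_T]
  rw [EE_semi (fun s => (∏ k, d.Gm s (x k)) * ∏ k, d.ka (x k))
    (fun l b w => tt L b w ^ cnt univ x l)]
  have e : ∀ s : Fin M → Bool, ∏ l, ∑ w : Fin L, lam L (s l) w * tt L (s l) w ^ cnt univ x l =
      (∏ l, tau3 (cnt univ x l)) / 2 ^ M := by
    intro s
    rw [Finset.prod_congr rfl fun l _ => lam_tau hL2 (cnt_le2 hx l) (s l)]
    rw [Finset.prod_div_distrib]
    simp
  simp only [e]
  rw [← Finset.sum_mul, ← Finset.sum_mul]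
  ring

/-- the sign of a position -/
def sgn : XX K M → ℂ := Sum.elim (fun _ => 1) (fun q => sg q.2)

/-- the sources get the factor `c` -/
def fac (c : ℂ) : XX K M → ℂ := Sum.elim (fun _ => 1) (fun _ => c)

lemma ka_eq (x : XX K M) : d.ka x = sgn x * fac d.a x := by
  rcases x with k | q <;> simp [Data.ka, sgn, fac]

lemma sgn_eq (x : XX K M) :
    (sgn x : ℂ) = ∏ l : Fin M, if x = Sum.inr (l, false) then -1 else 1 := by
  rcases x with k | ⟨l, b⟩
  · simp [sgn]
  · cases b
    · simp only [sgn, Sum.elim_inr, sg_false, Sum.inr.injEq, Prod.mk.injEq, and_true]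
      rw [Finset.prod_ite_eq]
      simp
    · simp [sgn]

lemma sgn_good {x : Fin N → XX K M} (hx : Good x) :
    (∏ k, sgn (x k)) * ∏ l, tau3 (cnt univ x l) = 1 := by
  classical
  simp only [sgn_eq]
  rw [Finset.prod_comm, ← Finset.prod_mul_distrib]
  refine Finset.prod_eq_one fun l _ => ?_
  rw [cnt_good hx]
  by_cases h : ∃ k, x k = Sum.inr (l, true)
  · rw [if_pos h]
    obtain ⟨k0, hk0⟩ := (hx.2 l).1 h
    have e : ∀ k, (if x k = Sum.inr (l, false) then (-1 : ℂ) else 1) = if k = k0 then -1 else 1 := by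
      intro k
      by_cases hk : k = k0
      · rw [hk, if_pos hk0, if_pos rfl]
      · rw [if_neg, if_neg hk]
        intro h'
        exact hk (hx.1 (h'.trans hk0.symm))
    simp only [e]
    rw [Finset.prod_ite_eq']
    simp [tau3]
  · rw [if_neg h]
    have h' : ¬ ∃ k, x k = Sum.inr (l, false) := fun hf => h ((hx.2 l).2 hf)
    push Not at h'
    rw [Finset.prod_eq_one]
    · simp [tau3]
    · intro k _
      rw [if_neg (h' k)]

lemma bad_zero {x : Fin N → XX K M} (hx : Function.Injective x) (hb : ¬ Good x) :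
    ∏ l, tau3 (cnt univ x l) = 0 := by
  classical
  have : ∃ l, ¬ ((∃ k, x k = Sum.inr (l, true)) ↔ (∃ k, x k = Sum.inr (l, false))) := by
    by_contra hc
    rw [not_exists] at hc
    exact hb ⟨hx, fun l => not_not.1 (hc l)⟩
  obtain ⟨l, hl⟩ := this
  refine Finset.prod_eq_zero (Finset.mem_univ l) ?_
  rw [cnt_eq, sum_ind hx, sum_ind hx]
  by_cases h1 : ∃ k, x k = Sum.inr (l, true)
  · have h2 : ¬ ∃ k, x k = Sum.inr (l, false) := fun h2 => hl ⟨fun _ => h2, fun _ => h1⟩
    rw [if_pos h1, if_neg h2]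
    simp [tau3]
  · have h2 : ∃ k, x k = Sum.inr (l, false) := by
      by_contra h2
      exact hl ⟨fun h => absurd h h1, fun h => absurd h h2⟩
    rw [if_neg h1, if_pos h2]
    simp [tau3]

/-- the partner of a position -/
def par : XX K M → XX K M := Sum.elim Sum.inl (fun q => Sum.inr (q.1, !q.2))

/-- the repulsion factor -/
def Data.r (x y : XX K M) : ℝ := if y = par x then 1 else ‖d.pos x - d.pos y‖

/-- the repulsion factor of the configuration -/
def Data.R (x : Fin N → XX K M) : ℝ := ∏ i, ∏ j ∈ univ.erase i, d.r (x i) (x j)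

lemma V2_off (z : Fin N → ℂ) : V2 z = ∏ i, ∏ j ∈ univ.erase i, ‖z i - z j‖ := by
  have h := Finset.prod_prod_Ioi_mul_eq_prod_prod_off_diag (fun i j : Fin N => ‖z j - z i‖)
  have e : ∀ i : Fin N, (univ.erase i) = ({i} : Finset (Fin N))ᶜ := by
    intro i
    ext j
    simp
  simp only [e]
  rw [← h]
  unfold V2
  refine Finset.prod_congr rfl fun i _ => Finset.prod_congr rfl fun j _ => ?_
  rw [norm_sub_rev (z j) (z i)]
  ring

lemma par_par (x : XX K M) : par (par x) = x := by
  rcases x with k | ⟨l, b⟩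
  · rfl
  · cases b <;> rfl

/-- in a good configuration each used point of a source has its partner -/
lemma good_par {x : Fin N → XX K M} (hx : Good x) {i : Fin N} {q : Fin M × Bool}
    (hi : x i = Sum.inr q) : ∃ j, x j = par (x i) := by
  obtain ⟨l, b⟩ := q
  rw [hi]
  cases b
  · exact (hx.2 l).2 ⟨i, hi⟩
  · exact (hx.2 l).1 ⟨i, hi⟩

lemma row_eq {x : Fin N → XX K M} (hx : Good x) {δ : ℝ}
    (hδ : ∀ l, ‖d.p l true - d.p l false‖ = δ) (i : Fin N) :
    ∏ j ∈ univ.erase i, ‖d.pos (x i) - d.pos (x j)‖ =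
      (∏ j ∈ univ.erase i, d.r (x i) (x j)) *
        Sum.elim (fun _ => (1 : ℝ)) (fun _ => δ) (x i) := by
  rcases hxi : x i with q | ⟨l, b⟩
  · simp only [Sum.elim_inl, mul_one]
    refine Finset.prod_congr rfl fun j hj => ?_
    unfold Data.r
    rw [if_neg]
    intro h
    have : x j = x i := by rw [h, hxi]; rfl
    exact (Finset.ne_of_mem_erase hj) (hx.1 this)
  · simp only [Sum.elim_inr]
    obtain ⟨j0, hj0⟩ := good_par hx hxi
    have hne : j0 ≠ i := by
      intro h
      rw [h, hxi] at hj0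
      cases b <;> simp [par] at hj0
    have hmem : j0 ∈ univ.erase i := Finset.mem_erase.2 ⟨hne, Finset.mem_univ _⟩
    rw [hxi] at hj0
    rw [← Finset.mul_prod_erase _ _ hmem, ← Finset.mul_prod_erase _ _ hmem]
    have h1 : d.r (Sum.inr (l, b)) (x j0) = 1 := by
      unfold Data.r
      rw [if_pos hj0]
    have h2 : ‖d.pos (Sum.inr (l, b)) - d.pos (x j0)‖ = δ := by
      rw [hj0]
      cases b
      · simp only [Data.pos, par, Sum.elim_inr, Bool.not_false]
        rw [norm_sub_rev, hδ]
      · simp only [Data.pos, par, Sum.elim_inr, Bool.not_true]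
        rw [hδ]
    rw [h1, h2, one_mul, mul_comm]
    congr 1
    refine Finset.prod_congr rfl fun j hj => ?_
    unfold Data.r
    rw [if_neg]
    intro h
    exact (Finset.ne_of_mem_erase hj) (hx.1 (h.trans hj0.symm))

lemma V2_good {x : Fin N → XX K M} (hx : Good x) {δ : ℝ}
    (hδ : ∀ l, ‖d.p l true - d.p l false‖ = δ) :
    (V2 (fun k => d.pos (x k)) : ℂ) = (d.R x : ℂ) * ∏ k, fac (δ : ℂ) (x k) := by
  rw [V2_off]
  simp only [row_eq d hx hδ]
  rw [Finset.prod_mul_distrib]
  unfold Data.R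
  rw [Complex.ofReal_mul]
  congr 1
  rw [Complex.ofReal_prod]
  refine Finset.prod_congr rfl fun k _ => ?_
  rcases x k with q | q <;> simp [fac]

open Classical in
/-- the mass of a configuration -/
def Data.Wt (A : ℂ) (x : Fin N → XX K M) : ℂ :=
  if Good x then (∑ s : Fin M → Bool, ∏ k, d.Gm s (x k)) / 2 ^ M * (∏ k, fac A (x k)) * (d.R x : ℂ)
  else 0

theorem W_eq {L : ℕ} (hL2 : 2 < L) {δ : ℝ} (hδ : ∀ l, ‖d.p l true - d.p l false‖ = δ)
    (x : Fin N → XX K M) :
    d.W L x * (V2 (fun k => d.pos (x k)) : ℂ) = d.Wt (d.a * δ) x := by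
  unfold Data.Wt
  by_cases hg : Good x
  · rw [if_pos hg, W_inj d hL2 hg.1, V2_good d hg hδ]
    simp only [ka_eq, Finset.prod_mul_distrib]
    have h1 := sgn_good hg
    have h2 : ∏ k, fac (d.a * δ) (x k) = (∏ k, fac d.a (x k)) * ∏ k, fac (δ : ℂ) (x k) := by
      rw [← Finset.prod_mul_distrib]
      refine Finset.prod_congr rfl fun k _ => ?_
      rcases x k with q | q <;> simp [fac]
    rw [h2]
    linear_combination ((∑ s : Fin M → Bool, ∏ k, d.Gm s (x k)) / 2 ^ M *
      (∏ k, fac d.a (x k)) * (∏ k, fac (δ : ℂ) (x k)) * (d.R x : ℂ)) * h1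
  · rw [if_neg hg]
    by_cases hinj : Function.Injective x
    · rw [W_inj d hL2 hinj, bad_zero hinj hg]
      ring
    · rw [V2_zero]
      · simp
      · intro h
        apply hinj
        intro a b hab
        exact h (by simp only [hab])

end

end Pool.Agent.H481.SB
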