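import Pool.Agent.H481.SB4

/-!
Two-point noise: the concrete data, with the kernel of M. Riesz on the `2D`-th roots of unity.
-/

open MvPolynomial Finset MeasureTheory
open Pool.Agent.R319.UM

namespace Pool.Agent.H481.SB

noncomputable section

variable {D : ℕ}

/-- the grid of the `2D`-th roots of unity -/
def gr (D : ℕ) (k : Fin (2 * D)) : ℂ :=
  Complex.exp (2 * Real.pi * Complex.I / (2 * D : ℕ)) ^ (k : ℕ)

/-- the centres of the sources -/
def ct (D : ℕ) (l : Fin D) : ℂ :=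
  Complex.exp (Real.pi / (2 * D : ℕ) * Complex.I) *
    Complex.exp (2 * Real.pi * Complex.I / (D : ℕ)) ^ (l : ℕ)

/-- the field of a source at the relative position `u` -/
def kern (D : ℕ) (c : ℂ) (u : ℂ) : ℂ :=
  ∑ j ∈ range (2 * D), (Polynomial.Chebyshev.U ℂ ((j : ℤ) - D)).eval c *
    u ^ ((j : ℤ) + 1 - D)

/-- the data -/
def dat (D : ℕ) (A : ℝ) (ε : ℝ) : Data (2 * D) D where
  g := gr D
  p := fun l b => ct D l * Complex.exp (sg b * ε * Complex.I)
  ps := fun l k => A * Complex.I * kern D (Complex.cos ε) (ct D l * (starRingEnd ℂ) (gr D k))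
  a := A / (2 * Complex.sin ε)

lemma gr_norm (k : Fin (2 * D)) : ‖gr D k‖ = 1 := by
  unfold gr
  rw [norm_pow]
  have : (2 * Real.pi * Complex.I / (2 * D : ℕ) : ℂ) =
      ((2 * Real.pi / (2 * D : ℕ) : ℝ) : ℂ) * Complex.I := by
    push_cast
    ring
  rw [this, Complex.norm_exp_ofReal_mul_I, one_pow]

lemma ct_norm (l : Fin D) : ‖ct D l‖ = 1 := by
  unfold ct
  rw [norm_mul, norm_pow]
  have : (2 * Real.pi * Complex.I / (D : ℕ) : ℂ) =
      ((2 * Real.pi / (D : ℕ) : ℝ) : ℂ) * Complex.I := by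
    push_cast
    ring
  rw [this, Complex.norm_exp_ofReal_mul_I, one_pow]
  have : (Real.pi / (2 * D : ℕ) * Complex.I : ℂ) =
      ((Real.pi / (2 * D : ℕ) : ℝ) : ℂ) * Complex.I := by
    push_cast
    ring
  rw [this, Complex.norm_exp_ofReal_mul_I, one_mul]

lemma sg_norm (b : Bool) (ε : ℝ) : ‖Complex.exp (sg b * ε * Complex.I)‖ = 1 := by
  cases b
  · have : (sg false * ε * Complex.I : ℂ) = ((-ε : ℝ) : ℂ) * Complex.I := by
      simp
    rw [this, Complex.norm_exp_ofReal_mul_I]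
  · rw [sg_true, one_mul, Complex.norm_exp_ofReal_mul_I]

lemma unit_zpow {z : ℂ} (h : ‖z‖ = 1) (a b : ℕ) :
    z ^ a * (starRingEnd ℂ) (z ^ b) = z ^ ((a : ℤ) - b) := by
  have hz : z ≠ 0 := by
    intro h0
    rw [h0, norm_zero] at h
    norm_num at h
  have hc : (starRingEnd ℂ) z = z⁻¹ := (Complex.inv_eq_conj h).symm
  rw [map_pow, hc, zpow_sub₀ hz, zpow_natCast, zpow_natCast, inv_pow]
  rfl

lemma gr_orth (hD : 0 < D) {n : ℤ} (h1 : -(2 * D : ℤ) < n) (h2 : n < 2 * D) :
    ∑ k : Fin (2 * D), gr D k ^ n = if n = 0 then ((2 * D : ℕ) : ℂ) else 0 := by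
  have hK : 0 < 2 * D := by omega
  rcases le_or_gt 0 n with h | h
  · obtain ⟨a, rfl⟩ := Int.eq_ofNat_of_zero_le h
    have ha : a < 2 * D := by omega
    have := one_disc hK ha hK
    have e : ∀ k : Fin (2 * D), gr D k ^ (a : ℤ) =
        ((Complex.exp (2 * Real.pi * Complex.I / (2 * D : ℕ)) ^ (k : ℕ)) ^ a *
      (starRingEnd ℂ) ((Complex.exp (2 * Real.pi * Complex.I / (2 * D : ℕ)) ^ (k : ℕ)) ^ 0)) := by
      intro k
      simp [gr]
    simp only [e, this]
    norm_cast
  · obtain ⟨a, ha'⟩ := Int.eq_ofNat_of_zero_le (show 0 ≤ -n by omega)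
    have ha : a < 2 * D := by omega
    have := one_disc hK hK ha
    have e : ∀ k : Fin (2 * D), gr D k ^ n =
        ((Complex.exp (2 * Real.pi * Complex.I / (2 * D : ℕ)) ^ (k : ℕ)) ^ 0 *
      (starRingEnd ℂ) ((Complex.exp (2 * Real.pi * Complex.I / (2 * D : ℕ)) ^ (k : ℕ)) ^ a)) := by
      intro k
      have := unit_zpow (gr_norm k) 0 a
      unfold gr at this ⊢
      rw [this]
      congr 1
      omega
    simp only [e, this]
    split_ifs with h3 h4
    · rfl
    · omega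
    · omega
    · rfl

lemma exp_diff (m : ℤ) (ε : ℝ) :
    Complex.exp (ε * Complex.I) ^ m - Complex.exp (-ε * Complex.I) ^ m =
      2 * Complex.I * Complex.sin (m * ε) := by
  rw [← Complex.exp_int_mul, ← Complex.exp_int_mul]
  rw [Complex.sin]
  have h1 : (m : ℂ) * (ε * Complex.I) = m * ε * Complex.I := by ring
  have h2 : (m : ℂ) * (-ε * Complex.I) = -(m * ε) * Complex.I := by ring
  rw [h1, h2]
  linear_combination (-(Complex.exp (-(m * ε) * Complex.I) - Complex.exp (m * ε * Complex.I))) *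
    Complex.I_sq

lemma cheb (m : ℤ) (ε : ℝ) :
    (Polynomial.Chebyshev.U ℂ (m - 1)).eval (Complex.cos ε) * Complex.sin ε =
      Complex.sin (m * ε) := by
  rw [Polynomial.Chebyshev.U_complex_cos]
  congr 1
  push_cast
  ring

theorem dat_match (hD : 0 < D) (A : ℝ) {ε : ℝ} (hε : Complex.sin ε ≠ 0) :
    (dat D A ε).Match D := by
  intro l a ha b hb
  simp only [dat]
  have hct : ct D l ≠ 0 := by
    intro h0
    have := ct_norm l
    rw [h0, norm_zero] at this
    norm_num at this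
  have hgr : ∀ k, gr D k ≠ 0 := by
    intro k h0
    have := gr_norm k
    rw [h0, norm_zero] at this
    norm_num at this
  have hgc : ∀ k, (starRingEnd ℂ) (gr D k) = (gr D k)⁻¹ :=
    fun k => (Complex.inv_eq_conj (gr_norm k)).symm
  set m : ℤ := (a : ℤ) - b with hm
  have hp : ∀ bb : Bool, ‖ct D l * Complex.exp (sg bb * ε * Complex.I)‖ = 1 := by
    intro bb
    rw [norm_mul, ct_norm, sg_norm, one_mul]
  rw [unit_zpow (hp true), unit_zpow (hp false), ← hm, mul_zpow, mul_zpow, ← mul_sub, sg_true,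
    sg_false, one_mul]
  have e0 : (-1 * (ε : ℂ) * Complex.I) = -ε * Complex.I := by ring
  rw [e0, exp_diff]
  have e1 : ∀ k, A * Complex.I * kern D (Complex.cos ε) (ct D l * (starRingEnd ℂ) (gr D k)) *
      ((2 * D : ℕ) : ℂ)⁻¹ * (gr D k ^ a * (starRingEnd ℂ) (gr D k ^ b)) =
      ∑ j ∈ range (2 * D), (A * Complex.I * ((2 * D : ℕ) : ℂ)⁻¹ *
        (Polynomial.Chebyshev.U ℂ ((j : ℤ) - D)).eval (Complex.cos ε) *
        ct D l ^ ((j : ℤ) + 1 - D)) * gr D k ^ (m - ((j : ℤ) + 1 - D)) := by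
    intro k
    rw [unit_zpow (gr_norm k), ← hm]
    unfold kern
    rw [Finset.mul_sum, Finset.sum_mul, Finset.sum_mul]
    refine Finset.sum_congr rfl fun j _ => ?_
    rw [mul_zpow, hgc, inv_zpow, zpow_sub₀ (hgr k) m ((j : ℤ) + 1 - D), div_eq_mul_inv]
    ring
  simp only [e1]
  rw [Finset.sum_comm]
  simp only [← Finset.mul_sum]
  have e2 : ∀ j ∈ range (2 * D), (A * Complex.I * ((2 * D : ℕ) : ℂ)⁻¹ *
        (Polynomial.Chebyshev.U ℂ ((j : ℤ) - D)).eval (Complex.cos ε) *
        ct D l ^ ((j : ℤ) + 1 - D)) * ∑ k, gr D k ^ (m - ((j : ℤ) + 1 - D)) =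
      if j = (m + D - 1).toNat then A * Complex.I *
        (Polynomial.Chebyshev.U ℂ (m - 1)).eval (Complex.cos ε) * ct D l ^ m else 0 := by
    intro j hj
    rw [Finset.mem_range] at hj
    rw [gr_orth hD (by omega) (by omega)]
    by_cases hjm : j = (m + D - 1).toNat
    · rw [if_pos hjm, if_pos (by omega)]
      have h1 : (j : ℤ) - D = m - 1 := by omega
      have h2 : (j : ℤ) + 1 - D = m := by omega
      rw [h1, h2]
      have : ((2 * D : ℕ) : ℂ) ≠ 0 := by
        have : 0 < 2 * D := by omega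
        exact_mod_cast this.ne'
      field_simp
    · rw [if_neg hjm, if_neg (by omega), mul_zero]
  rw [Finset.sum_congr rfl e2, Finset.sum_ite_eq', if_pos (by rw [Finset.mem_range]; omega),
    ← cheb]
  field_simp

end

end Pool.Agent.H481.SB
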