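import Pool.Agent.H481.SB5

/-!
Two-point noise: the kernel of M. Riesz.
-/

open MvPolynomial Finset MeasureTheory
open Pool.Agent.R319.UM

namespace Pool.Agent.H481.SB

noncomputable section

variable {D : ℕ}

lemma geo2 (u : ℂ) (m : ℕ) : (u - 1) * ∑ j ∈ range m, (j : ℂ) * u ^ j =
    m * u ^ m - u * ∑ j ∈ range m, u ^ j := by
  induction m with
  | zero => simp
  | succ m ih =>
    rw [Finset.sum_range_succ, Finset.sum_range_succ, mul_add, ih]
    push_cast
    ring

lemma kern_one {u : ℂ} (hu0 : u ≠ 0) (hu : u ^ (2 * D) = -1) :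
    kern D 1 u * (u - 1) ^ 2 = 2 * u ^ ((1 : ℤ) - D) := by
  have h1 : kern D 1 u = u ^ ((1 : ℤ) - D) *
      (∑ j ∈ range (2 * D), (j : ℂ) * u ^ j + (1 - (D : ℂ)) * ∑ j ∈ range (2 * D), u ^ j) := by
    unfold kern
    rw [Finset.mul_sum (s := range (2 * D)) (a := (1 - (D : ℂ))), ← Finset.sum_add_distrib,
      Finset.mul_sum]
    refine Finset.sum_congr rfl fun j _ => ?_
    rw [Polynomial.Chebyshev.U_eval_one]
    have : (j : ℤ) + 1 - D = ((1 : ℤ) - D) + j := by ring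
    rw [this, zpow_add₀ hu0, zpow_natCast]
    push_cast
    ring
  have h2 := geo2 u (2 * D)
  have h3 : (u - 1) * ∑ j ∈ range (2 * D), u ^ j = -2 := by
    rw [mul_geom_sum, hu]
    norm_num
  rw [hu] at h2
  rw [h1]
  push_cast at h2
  linear_combination (u ^ ((1 : ℤ) - D) * (u - 1)) * h2 +
    (u ^ ((1 : ℤ) - D) * (-u + (1 - (D : ℂ)) * (u - 1))) * h3

lemma rel_pow (hD : 0 < D) (l : Fin D) (k : Fin (2 * D)) :
    (ct D l * (starRingEnd ℂ) (gr D k)) ^ (2 * D) = -1 := by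
  have h4 : 0 < 2 * D := by omega
  have h2 : 0 < D := by omega
  have h4c : ((2 * D : ℕ) : ℂ) ≠ 0 := by exact_mod_cast h4.ne'
  rw [mul_pow, ← map_pow]
  have e1 : gr D k ^ (2 * D) = 1 := by
    unfold gr
    rw [pow_right_comm, (Complex.isPrimitiveRoot_exp (2 * D) (by omega)).pow_eq_one, one_pow]
  have e2 : ct D l ^ (2 * D) = -1 := by
    unfold ct
    rw [mul_pow, pow_right_comm, show 2 * D = (D) * 2 by ring,
      pow_mul (Complex.exp (2 * Real.pi * Complex.I / (D : ℕ))),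
      (Complex.isPrimitiveRoot_exp (D) (by omega)).pow_eq_one, one_pow, one_pow, mul_one,
      ← Complex.exp_nat_mul]
    have : ((D * 2 : ℕ) : ℂ) * (Real.pi / (D * 2 : ℕ) * Complex.I) =
        Real.pi * Complex.I := by
      have h : ((D * 2 : ℕ) : ℂ) ≠ 0 := by
        rw [show D * 2 = 2 * D by ring]
        exact h4c
      field_simp
    rw [this, Complex.exp_pi_mul_I]
  rw [e1, e2]
  simp

lemma rel_norm (l : Fin D) (k : Fin (2 * D)) :
    ‖ct D l * (starRingEnd ℂ) (gr D k)‖ = 1 := by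
  rw [norm_mul, ct_norm, Complex.norm_conj, gr_norm, one_mul]

/-- the field of a source at the limit -/
def fl (D : ℕ) (l : Fin D) (k : Fin (2 * D)) : ℂ :=
  Complex.I * kern D 1 (ct D l * (starRingEnd ℂ) (gr D k))

lemma fl_eq (hD : 0 < D) (l : Fin D) (k : Fin (2 * D)) :
    fl D l k = Complex.I * (2 * (ct D l * (starRingEnd ℂ) (gr D k)) ^ ((1 : ℤ) - D) /
      (ct D l * (starRingEnd ℂ) (gr D k) - 1) ^ 2) := by
  set u := ct D l * (starRingEnd ℂ) (gr D k) with hu
  have hup := rel_pow hD l k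
  have hn := rel_norm l k
  rw [← hu] at hup hn
  have hu0 : u ≠ 0 := by
    intro h0
    rw [h0, norm_zero] at hn
    norm_num at hn
  have hu1 : u - 1 ≠ 0 := by
    intro h
    have : u = 1 := by linear_combination h
    rw [this, one_pow] at hup
    norm_num at hup
  unfold fl
  rw [← hu, ← kern_one hu0 hup]
  field_simp

/-- the limit fields are real -/
lemma fl_real (hD : 0 < D) (l : Fin D) (k : Fin (2 * D)) :
    (starRingEnd ℂ) (fl D l k) = fl D l k := by
  rw [fl_eq hD]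
  set u := ct D l * (starRingEnd ℂ) (gr D k) with hu
  have hup := rel_pow hD l k
  have hn := rel_norm l k
  rw [← hu] at hup hn
  have hu0 : u ≠ 0 := by
    intro h0
    rw [h0, norm_zero] at hn
    norm_num at hn
  have hu1 : u - 1 ≠ 0 := by
    intro h
    have : u = 1 := by linear_combination h
    rw [this, one_pow] at hup
    norm_num at hup
  have hc : (starRingEnd ℂ) u = u⁻¹ := (Complex.inv_eq_conj hn).symm
  simp only [map_mul, map_div₀, map_pow, map_zpow₀, map_sub, map_one, hc, Complex.conj_I,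
    map_ofNat]
  have h1 : u ^ ((1 : ℤ) - D) * u ^ (2 * D) = u ^ ((1 : ℤ) + D) := by
    rw [← zpow_natCast u (2 * D), ← zpow_add₀ hu0]
    congr 1
    push_cast
    ring
  rw [hup] at h1
  have h2 : u⁻¹ ^ ((1 : ℤ) - D) = u ^ ((1 : ℤ) + D) * (u ^ 2)⁻¹ := by
    rw [inv_zpow, ← zpow_neg, ← zpow_natCast u 2, ← zpow_neg, ← zpow_add₀ hu0]
    congr 1
    push_cast
    ring
  have h3 : u⁻¹ - 1 = -(u - 1) * u⁻¹ := by
    field_simp
    ring
  rw [h2, ← h1, h3]
  field_simp

lemma fl_norm (hD : 0 < D) (l : Fin D) (k : Fin (2 * D)) :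
    ‖fl D l k‖ = 2 / ‖ct D l - gr D k‖ ^ 2 := by
  rw [fl_eq hD]
  have hn := rel_norm l k
  have h1 : ‖ct D l * (starRingEnd ℂ) (gr D k) - 1‖ = ‖ct D l - gr D k‖ := by
    have : ct D l * (starRingEnd ℂ) (gr D k) - 1 =
        (ct D l - gr D k) * (starRingEnd ℂ) (gr D k) := by
      rw [sub_mul, Complex.mul_conj (gr D k), Complex.normSq_eq_norm_sq, gr_norm]
      simp
    rw [this, norm_mul, Complex.norm_conj, gr_norm, mul_one]
  rw [norm_mul, norm_div, norm_mul, norm_pow, norm_zpow, hn, h1]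
  simp

lemma ct_eq (D : ℕ) (l : Fin D) (a : ℕ) :
    ct D l ^ a = Complex.exp (Real.pi / (2 * D : ℕ) * Complex.I) ^ a *
      (Complex.exp (2 * Real.pi * Complex.I / (D : ℕ)) ^ (l : ℕ)) ^ a := by
  unfold ct
  rw [mul_pow]

/-- orthogonality for the centres -/
lemma ct_orth (hD : 0 < D) {a b : ℕ} (ha : a < D) (hb : b < D) :
    ∑ l, ct D l ^ a * (starRingEnd ℂ) (ct D l ^ b) = if a = b then ((D : ℕ) : ℂ) else 0 := by
  set η := Complex.exp (Real.pi / (2 * D : ℕ) * Complex.I) with hη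
  have hη1 : ‖η‖ = 1 := by
    have : (Real.pi / (2 * D : ℕ) * Complex.I : ℂ) =
      ((Real.pi / (2 * D : ℕ) : ℝ) : ℂ) * Complex.I := by
      push_cast
      ring
    rw [hη, this, Complex.norm_exp_ofReal_mul_I]
  have h := one_disc (by omega : 0 < D) ha hb
  have e : ∀ l : Fin D, ct D l ^ a * (starRingEnd ℂ) (ct D l ^ b) =
      (η ^ a * (starRingEnd ℂ) (η ^ b)) *
      ((Complex.exp (2 * Real.pi * Complex.I / (D : ℕ)) ^ (l : ℕ)) ^ a *
      (starRingEnd ℂ) ((Complex.exp (2 * Real.pi * Complex.I / (D : ℕ)) ^ (l : ℕ)) ^ b)) := by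
    intro l
    rw [ct_eq, ct_eq, map_mul]
    ring
  simp only [e]
  rw [← Finset.mul_sum, h]
  split_ifs with hab
  · rw [hab, unit_pow hη1, one_mul]
  · rw [mul_zero]

/-- Parseval -/
lemma parseval (hD : 0 < D) (x : ℂ) (hx : ‖x‖ = 1) :
    ∑ l, ‖∑ j ∈ range D, x ^ j * ct D l ^ (D - 1 - j)‖ ^ 2 = (D : ℝ) ^ 2 := by
  have e : ∀ l, ((‖∑ j ∈ range D, x ^ j * ct D l ^ (D - 1 - j)‖ ^ 2 : ℝ) : ℂ) =
      ∑ j ∈ range D, ∑ j' ∈ range D, (x ^ j * (starRingEnd ℂ) (x ^ j')) *
        (ct D l ^ (D - 1 - j) * (starRingEnd ℂ) (ct D l ^ (D - 1 - j'))) := by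
    intro l
    rw [← Complex.normSq_eq_norm_sq, ← Complex.mul_conj, map_sum, Finset.sum_mul_sum]
    refine Finset.sum_congr rfl fun j _ => Finset.sum_congr rfl fun j' _ => ?_
    rw [map_mul]
    ring
  have key : ((∑ l, ‖∑ j ∈ range D, x ^ j * ct D l ^ (D - 1 - j)‖ ^ 2 : ℝ) : ℂ) =
      ((D : ℕ) : ℂ) ^ 2 := by
    rw [Complex.ofReal_sum]
    simp only [e]
    rw [Finset.sum_comm]
    have e2 : ∀ j ∈ range D, ∑ l, ∑ j' ∈ range D,
        (x ^ j * (starRingEnd ℂ) (x ^ j')) *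
        (ct D l ^ (D - 1 - j) * (starRingEnd ℂ) (ct D l ^ (D - 1 - j'))) =
        ((D : ℕ) : ℂ) := by
      intro j hj
      rw [Finset.mem_range] at hj
      rw [Finset.sum_comm, Finset.sum_eq_single j]
      · rw [← Finset.mul_sum, ct_orth hD (by omega) (by omega), if_pos rfl, unit_pow hx, one_mul]
      · intro j' hj' hne
        rw [Finset.mem_range] at hj'
        rw [← Finset.mul_sum, ct_orth hD (by omega) (by omega), if_neg (by omega), mul_zero]
      · intro h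
        exact absurd (Finset.mem_range.2 hj) h
    rw [Finset.sum_congr rfl e2, Finset.sum_const, Finset.card_range, nsmul_eq_mul]
    ring
  have := congrArg Complex.re key
  rw [Complex.ofReal_re] at this
  rw [this]
  norm_cast

lemma gr_half (hD : 0 < D) (k : Fin (2 * D)) : gr D k ^ D = (-1) ^ (k : ℕ) := by
  unfold gr
  rw [pow_right_comm, ← Complex.exp_nat_mul]
  have h : ((2 * D : ℕ) : ℂ) ≠ 0 := by
    have : 0 < 2 * D := by omega
    exact_mod_cast this.ne'
  have : ((D : ℕ) : ℂ) * (2 * Real.pi * Complex.I / (2 * D : ℕ)) = Real.pi * Complex.I := by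
    rw [mul_div_assoc', div_eq_iff h]
    push_cast
    ring
  rw [this, Complex.exp_pi_mul_I]

lemma ct_half (hD : 0 < D) (l : Fin D) : ct D l ^ D = Complex.I := by
  unfold ct
  rw [mul_pow, pow_right_comm, (Complex.isPrimitiveRoot_exp (D) (by omega)).pow_eq_one,
    one_pow, mul_one, ← Complex.exp_nat_mul]
  have h : ((2 * D : ℕ) : ℂ) ≠ 0 := by
    have : 0 < 2 * D := by omega
    exact_mod_cast this.ne'
  have : ((D : ℕ) : ℂ) * (Real.pi / (2 * D : ℕ) * Complex.I) = Real.pi / 2 * Complex.I := by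
    rw [← mul_assoc, mul_div_assoc', div_mul_eq_mul_div, div_eq_iff h]
    push_cast
    ring
  rw [this, Complex.exp_pi_div_two_mul_I]

lemma half_dist (hD : 0 < D) (l : Fin D) (k : Fin (2 * D)) :
    ‖gr D k ^ D - ct D l ^ D‖ ^ 2 = 2 := by
  rw [gr_half hD, ct_half hD, ← Complex.normSq_eq_norm_sq]
  rcases neg_one_pow_eq_or ℂ (k : ℕ) with h | h <;> rw [h] <;>
    simp [Complex.normSq_apply] <;> norm_num

/-- the sum of the moduli of the limit fields -/
lemma fl_sum (hD : 0 < D) (k : Fin (2 * D)) : ∑ l, ‖fl D l k‖ = (D : ℝ) ^ 2 := by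
  have h := parseval hD (gr D k) (gr_norm k)
  have e : ∀ l, ‖fl D l k‖ = ‖∑ j ∈ range D, gr D k ^ j * ct D l ^ (D - 1 - j)‖ ^ 2 := by
    intro l
    rw [fl_norm hD]
    have h1 : gr D k ^ D - ct D l ^ D =
        (∑ j ∈ range D, gr D k ^ j * ct D l ^ (D - 1 - j)) * (gr D k - ct D l) :=
      (Commute.geom_sum₂_mul (Commute.all _ _) _).symm
    have h2 := half_dist hD l k
    rw [h1, norm_mul, mul_pow] at h2
    have h3 : ‖gr D k - ct D l‖ ^ 2 ≠ 0 := by
      intro h0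
      rw [h0, mul_zero] at h2
      norm_num at h2
    rw [norm_sub_rev (ct D l) (gr D k)]
    rw [div_eq_iff h3]
    exact h2.symm
  simp only [e]
  rw [h]

end

end Pool.Agent.H481.SB
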