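import Pool.Agent.H481.SB6

/-!
Two-point noise: the limit of the dipoles.
-/

open MvPolynomial Finset MeasureTheory
open Pool.Agent.R319.UM

namespace Pool.Agent.H481.SB

noncomputable section

variable {N D : ℕ}

lemma dat_grid (D : ℕ) (A ε : ℝ) : (dat D A ε).Grid := fun _ => rfl

lemma dat_unit (A ε : ℝ) (l : Fin D) (b : Bool) : ‖(dat D A ε).p l b‖ = 1 := by
  simp only [dat]
  rw [norm_mul, ct_norm, sg_norm, one_mul]

lemma dat_delta {A ε : ℝ} (h0 : 0 < ε) (h1 : ε < Real.pi) (l : Fin D) :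
    ‖(dat D A ε).p l true - (dat D A ε).p l false‖ = 2 * Real.sin ε := by
  simp only [dat]
  rw [← mul_sub, norm_mul, ct_norm, one_mul]
  have h := exp_diff 1 ε
  rw [zpow_one, zpow_one] at h
  have e0 : (sg false * (ε : ℂ) * Complex.I) = -ε * Complex.I := by simp
  have e1 : (sg true * (ε : ℂ) * Complex.I) = ε * Complex.I := by simp
  rw [e0, e1, h]
  have e2 : (((1 : ℤ) : ℂ) * (ε : ℂ)) = ((ε : ℝ) : ℂ) := by simp
  rw [e2, ← Complex.ofReal_sin, norm_mul, norm_mul, Complex.norm_I, Complex.norm_real,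
    Real.norm_eq_abs, abs_of_pos (Real.sin_pos_of_pos_of_lt_pi h0 h1)]
  simp

lemma dat_amp {A ε : ℝ} (h0 : 0 < ε) (h1 : ε < Real.pi) :
    (dat D A ε).a * ((2 * Real.sin ε : ℝ) : ℂ) = A := by
  simp only [dat]
  have h : Complex.sin ε ≠ 0 := by
    rw [← Complex.ofReal_sin]
    exact_mod_cast (Real.sin_pos_of_pos_of_lt_pi h0 h1).ne'
  push_cast
  field_simp

/-! ### continuity -/

lemma kern_cont (D : ℕ) (u : ℂ) : Continuous fun ε : ℝ => kern D (Complex.cos ε) u := by
  unfold kern
  refine continuous_finsetSum _ fun j _ => ?_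
  refine Continuous.mul ?_ continuous_const
  exact (Polynomial.continuous _).comp (Complex.continuous_cos.comp Complex.continuous_ofReal)

lemma pos_cont (A : ℝ) (x : XX (2 * D) D) :
    Continuous fun ε : ℝ => (dat D A ε).pos x := by
  rcases x with k | q
  · simp only [Data.pos, Sum.elim_inl, dat]
    exact continuous_const
  · simp only [Data.pos, Sum.elim_inr, dat]
    fun_prop

lemma Gm_cont (A : ℝ) (s : Fin D → Bool) (x : XX (2 * D) D) :
    Continuous fun ε : ℝ => (dat D A ε).Gm s x := by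
  rcases x with k | q
  · simp only [Data.Gm, Sum.elim_inl, dat]
    refine Continuous.mul (Continuous.add continuous_const ?_) continuous_const
    refine continuous_finsetSum _ fun l _ => ?_
    exact continuous_const.mul (continuous_const.mul (kern_cont D _))
  · simp only [Data.Gm, Sum.elim_inr]
    exact continuous_const

lemma R_cont (A : ℝ) (x : Fin N → XX (2 * D) D) :
    Continuous fun ε : ℝ => (dat D A ε).R x := by
  unfold Data.R
  refine continuous_finsetProd _ fun i _ => continuous_finsetProd _ fun j _ => ?_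
  unfold Data.r
  by_cases h : x j = par (x i)
  · simp only [if_pos h]
    exact continuous_const
  · simp only [if_neg h]
    exact ((pos_cont A (x i)).sub (pos_cont A (x j))).norm

lemma Wt_cont (A : ℝ) (x : Fin N → XX (2 * D) D) :
    Continuous fun ε : ℝ => (dat D A ε).Wt (A : ℂ) x := by
  classical
  unfold Data.Wt
  by_cases h : Good x
  · simp only [if_pos h]
    refine Continuous.mul (Continuous.mul ?_ continuous_const)
      (Complex.continuous_ofReal.comp (R_cont A x))
    refine Continuous.div_const ?_ _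
    exact continuous_finsetSum _ fun s _ => continuous_finsetProd _ fun k _ => Gm_cont A s (x k)
  · simp only [if_neg h]
    exact continuous_const

lemma val_cont (A : ℝ) (F : MvPolynomial (Fin N) ℂ) (x : Fin N → XX (2 * D) D) :
    Continuous fun ε : ℝ => eval (fun k => (dat D A ε).pos (x k)) F :=
  (poly_cont F).comp (continuous_pi fun k => pos_cont A (x k))

/-- passage to the limit -/
lemma at_zero {Φ Ψ : ℝ → ℂ} (hΦ : Continuous Φ) (hΨ : Continuous Ψ)
    (h : ∀ ε, 0 < ε → ε < Real.pi → Φ ε = Ψ ε) : Φ 0 = Ψ 0 := by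
  have hc : IsClosed {ε | Φ ε = Ψ ε} := isClosed_eq hΦ hΨ
  have hs : Set.Ioo 0 Real.pi ⊆ {ε | Φ ε = Ψ ε} := fun ε hε => h ε hε.1 hε.2
  have h1 := closure_minimal hs hc
  rw [closure_Ioo Real.pi_pos.ne] at h1
  exact h1 ⟨le_refl _, Real.pi_pos.le⟩

/-- **the limit identity** -/
theorem id_zero (hN : 0 < N) {R : ℕ} (hD : N + R ≤ D) (A : ℝ) (F G : MvPolynomial (Fin N) ℂ)
    (hF : F.totalDegree ≤ R) (hG : G.totalDegree ≤ R) :
    ∑ x : Fin N → XX (2 * D) D, (dat D A 0).Wt (A : ℂ) x *
      (eval (fun k => (dat D A 0).pos (x k)) F *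
        (starRingEnd ℂ) (eval (fun k => (dat D A 0).pos (x k)) G)) =
      (N.factorial : ℂ) * cue (fun z => eval z F * (starRingEnd ℂ) (eval z G)) := by
  refine at_zero (Φ := fun ε => ∑ x : Fin N → XX (2 * D) D, (dat D A ε).Wt (A : ℂ) x *
      (eval (fun k => (dat D A ε).pos (x k)) F *
        (starRingEnd ℂ) (eval (fun k => (dat D A ε).pos (x k)) G)))
    (Ψ := fun _ => (N.factorial : ℂ) * cue (fun z => eval z F * (starRingEnd ℂ) (eval z G)))
    ?_ continuous_const ?_
  · refine continuous_finsetSum _ fun x _ => ?_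
    exact (Wt_cont A x).mul ((val_cont A F x).mul (Complex.continuous_conj.comp (val_cont A G x)))
  · intro ε h0 h1
    have hs : Complex.sin ε ≠ 0 := by
      rw [← Complex.ofReal_sin]
      exact_mod_cast (Real.sin_pos_of_pos_of_lt_pi h0 h1).ne'
    have h := exact_id (dat D A ε) hN hD (by omega) (dat_grid D A ε) (dat_match (by omega) A hs)
      (L := N + 3) (by omega) (by omega) F G hF hG
    rw [← h]
    refine Finset.sum_congr rfl fun x _ => ?_
    rw [W_eq (dat D A ε) (by omega) (fun l => dat_delta h0 h1 l), dat_amp h0 h1]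

/-- sum of sines -/
lemma sine_sum {ε : ℝ} {U : ℂ} (hU : U = Complex.exp (ε * Complex.I) ^ 2) :
    ∑ a : Fin N, ∑ b : Fin N, (1 - U ^ (a : ℕ) * (starRingEnd ℂ) (U ^ (b : ℕ))) =
      ∑ a : Fin N, ∑ b : Fin N, 2 * Complex.sin ((((a : ℕ) : ℤ) - ((b : ℕ) : ℤ) : ℤ) * ε) ^ 2 := by
  set e := Complex.exp (ε * Complex.I) with he
  have hen : ‖e‖ = 1 := by rw [he, Complex.norm_exp_ofReal_mul_I]
  have he0 : e ≠ 0 := Complex.exp_ne_zero _
  have hei : Complex.exp (-ε * Complex.I) = e⁻¹ := by
    rw [he, ← Complex.exp_neg]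
    congr 1
    ring
  have hUn : ‖U‖ = 1 := by rw [hU, norm_pow, hen, one_pow]
  have h1 : ∀ a b : ℕ, U ^ a * (starRingEnd ℂ) (U ^ b) = (e ^ ((a : ℤ) - b)) ^ 2 := by
    intro a b
    rw [unit_zpow hUn, hU, ← zpow_natCast e 2, ← zpow_mul, ← zpow_natCast _ 2, ← zpow_mul,
      mul_comm]
  have h2 : ∀ m : ℤ, (2 * Complex.sin (m * ε) ^ 2) * 2 = (1 - (e ^ m) ^ 2) + (1 - (e ^ (-m)) ^ 2) := by
    intro m
    have h := exp_diff m ε
    rw [hei, ← he, inv_zpow, ← zpow_neg] at h
    have h3 : e ^ m * e ^ (-m) = 1 := by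
      rw [← zpow_add₀ he0]
      simp
    have h4 : (e ^ m - e ^ (-m)) ^ 2 = -4 * Complex.sin (m * ε) ^ 2 := by
      rw [h]
      linear_combination (4 * Complex.sin (m * ε) ^ 2) * Complex.I_sq
    linear_combination h4 + 2 * h3
  have h5 : (∑ a : Fin N, ∑ b : Fin N, (1 - U ^ (a : ℕ) * (starRingEnd ℂ) (U ^ (b : ℕ)))) * 2 =
      (∑ a : Fin N, ∑ b : Fin N,
        2 * Complex.sin ((((a : ℕ) : ℤ) - ((b : ℕ) : ℤ) : ℤ) * ε) ^ 2) * 2 := by
    rw [mul_two]
    nth_rewrite 2 [Finset.sum_comm]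
    rw [← Finset.sum_add_distrib, Finset.sum_mul]
    refine Finset.sum_congr rfl fun a _ => ?_
    rw [← Finset.sum_add_distrib, Finset.sum_mul]
    refine Finset.sum_congr rfl fun b _ => ?_
    rw [h1, h1, h2]
    congr 3
    congr 1
    ring
  exact mul_right_cancel₀ two_ne_zero h5

/-- **the used sources in the limit** -/
theorem count_zero (hN : 0 < N) (hD : N ≤ D) (A : ℝ) (l : Fin D) :
    ∑ i : Fin N, ∑ j ∈ univ.erase i, ∑ x : Fin N → XX (2 * D) D,
      (if x i = Sum.inr (l, true) then (1 : ℂ) else 0) *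
      (if x j = Sum.inr (l, false) then 1 else 0) * (dat D A 0).Wt (A : ℂ) x =
      (N.factorial : ℂ) * (A ^ 2 / 2 * ∑ a : Fin N, ∑ b : Fin N,
        (((a : ℕ) : ℂ) - ((b : ℕ) : ℂ)) ^ 2) := by
  have h := at_zero (Φ := fun ε => ∑ i : Fin N, ∑ j ∈ univ.erase i,
      ∑ x : Fin N → XX (2 * D) D, (if x i = Sum.inr (l, true) then (1 : ℂ) else 0) *
      (if x j = Sum.inr (l, false) then 1 else 0) * (dat D A ε).Wt (A : ℂ) x)
    (Ψ := fun ε => (N.factorial : ℂ) * (A ^ 2 / 2 * ∑ a : Fin N, ∑ b : Fin N,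
      (Polynomial.Chebyshev.U ℂ ((((a : ℕ) : ℤ) - ((b : ℕ) : ℤ)) - 1)).eval (Complex.cos ε) ^ 2))
    ?_ ?_ ?_
  · rw [h]
    congr 2
    refine Finset.sum_congr rfl fun a _ => Finset.sum_congr rfl fun b _ => ?_
    rw [Complex.ofReal_zero, Complex.cos_zero, Polynomial.Chebyshev.U_eval_one]
    push_cast
    ring
  · refine continuous_finsetSum _ fun i _ => continuous_finsetSum _ fun j _ =>
      continuous_finsetSum _ fun x _ => ?_
    exact continuous_const.mul (Wt_cont A x)
  · refine continuous_const.mul (continuous_const.mul ?_)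
    refine continuous_finsetSum _ fun i _ => continuous_finsetSum _ fun j _ => ?_
    exact ((Polynomial.continuous _).comp
      (Complex.continuous_cos.comp Complex.continuous_ofReal)).pow 2
  · intro ε h0 h1
    have hs : Complex.sin ε ≠ 0 := by
      rw [← Complex.ofReal_sin]
      exact_mod_cast (Real.sin_pos_of_pos_of_lt_pi h0 h1).ne'
    have e1 : ∀ i : Fin N, ∀ j ∈ univ.erase i, ∑ x : Fin N → XX (2 * D) D,
        (if x i = Sum.inr (l, true) then (1 : ℂ) else 0) *
        (if x j = Sum.inr (l, false) then 1 else 0) * (dat D A ε).Wt (A : ℂ) x =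
        (dat D A ε).a ^ 2 * ∑ σ : Equiv.Perm (Fin N),
          (1 - ((dat D A ε).p l true * (starRingEnd ℂ) ((dat D A ε).p l false)) ^ (σ i : ℕ) *
          (starRingEnd ℂ) (((dat D A ε).p l true *
            (starRingEnd ℂ) ((dat D A ε).p l false)) ^ (σ j : ℕ))) := by
      intro i j hj
      have hij : i ≠ j := (Finset.ne_of_mem_erase hj).symm
      have h2 := two_id (dat D A ε) hN hD (dat_match (by omega) A hs) (L := N + 3) (by omega) (by omega)
        hij l
      rw [two_det (dat D A ε) (dat_grid D A ε) (by omega) (dat_unit A ε) hij l] at h2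
      rw [← h2]
      refine Finset.sum_congr rfl fun x _ => ?_
      rw [W_eq (dat D A ε) (by omega) (fun l => dat_delta h0 h1 l), dat_amp h0 h1]
    simp only [Finset.sum_congr rfl (e1 _)]
    simp only [← Finset.mul_sum]
    set U := (dat D A ε).p l true * (starRingEnd ℂ) ((dat D A ε).p l false) with hU
    rw [slots (fun a b => 1 - U ^ a * (starRingEnd ℂ) (U ^ b)) (fun a => by
      rw [unit_pow, sub_self]
      rw [hU, norm_mul, Complex.norm_conj, dat_unit, dat_unit, one_mul])]
    have hUe : U = Complex.exp (ε * Complex.I) ^ 2 := by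
      rw [hU]
      simp only [dat, sg_true, sg_false, one_mul]
      have h3 : (starRingEnd ℂ) (ct D l * Complex.exp (-1 * ε * Complex.I)) =
          (starRingEnd ℂ) (ct D l) * Complex.exp (ε * Complex.I) := by
        rw [map_mul, ← Complex.exp_conj]
        congr 2
        simp
      rw [h3]
      have h4 := unit_pow (ct_norm l) 1
      rw [pow_one] at h4
      linear_combination (Complex.exp (ε * Complex.I) ^ 2) * h4
    rw [sine_sum hUe]
    have e3 : ∀ a b : Fin N, 2 * Complex.sin ((((a : ℕ) : ℤ) - ((b : ℕ) : ℤ) : ℤ) * ε) ^ 2 =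
        2 * Complex.sin ε ^ 2 * ((Polynomial.Chebyshev.U ℂ ((((a : ℕ) : ℤ) - ((b : ℕ) : ℤ)) - 1)).eval
          (Complex.cos ε) ^ 2) := by
      intro a b
      rw [← cheb]
      ring
    simp only [e3, ← Finset.mul_sum]
    simp only [dat]
    field_simp
    try ring

end

end Pool.Agent.H481.SB
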