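import Pool.Agent.H481.SB7

/-!
Two-point noise: positivity, and the law with double points.
-/

open MvPolynomial Finset MeasureTheory
open Pool.Agent.R319.UM

namespace Pool.Agent.H481.SB

noncomputable section

variable {N D : ℕ}

/-- real and nonnegative -/
def NN (z : ℂ) : Prop := ∃ r : ℝ, 0 ≤ r ∧ z = r

lemma NN.mul {a b : ℂ} (ha : NN a) (hb : NN b) : NN (a * b) := by
  obtain ⟨r, hr, rfl⟩ := ha
  obtain ⟨s, hs, rfl⟩ := hb
  exact ⟨r * s, mul_nonneg hr hs, by push_cast; ring⟩

lemma NN.sum {ι : Type*} (S : Finset ι) (f : ι → ℂ) (h : ∀ i ∈ S, NN (f i)) :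
    NN (∑ i ∈ S, f i) := by
  classical
  induction S using Finset.induction_on with
  | empty => exact ⟨0, le_refl _, by simp⟩
  | insert a S ha ih =>
    rw [Finset.sum_insert ha]
    obtain ⟨r, hr, h1⟩ := h a (Finset.mem_insert_self _ _)
    obtain ⟨s, hs, h2⟩ := ih fun i hi => h i (Finset.mem_insert_of_mem hi)
    exact ⟨r + s, add_nonneg hr hs, by rw [h1, h2]; push_cast; ring⟩

lemma NN.prod {ι : Type*} (S : Finset ι) (f : ι → ℂ) (h : ∀ i ∈ S, NN (f i)) :
    NN (∏ i ∈ S, f i) := by
  classical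
  induction S using Finset.induction_on with
  | empty => exact ⟨1, zero_le_one, by simp⟩
  | insert a S ha ih =>
    rw [Finset.prod_insert ha]
    exact (h a (Finset.mem_insert_self _ _)).mul
      (ih fun i hi => h i (Finset.mem_insert_of_mem hi))

/-- the amplitude -/
def amp (D : ℕ) : ℝ := ((D : ℝ) ^ 2)⁻¹

lemma Gm_nn (hD : 0 < D) (s : Fin D → Bool) (x : XX (2 * D) D) :
    NN ((dat D (amp D) 0).Gm s x) := by
  have hNr : (0 : ℝ) < D := by exact_mod_cast hD
  rcases x with k | q
  · simp only [Data.Gm, Sum.elim_inl, dat]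
    have e : ∀ l, (amp D : ℂ) * Complex.I * kern D (Complex.cos ((0 : ℝ) : ℂ))
        (ct D l * (starRingEnd ℂ) (gr D k)) = amp D * fl D l k := by
      intro l
      unfold fl
      rw [Complex.ofReal_zero, Complex.cos_zero]
      ring
    simp only [e]
    refine NN.mul ?_ ⟨((2 * D : ℕ) : ℝ)⁻¹, by positivity, by push_cast; rfl⟩
    set z : ℂ := ∑ l, sg (s l) * (amp D * fl D l k) with hz
    have hr : (starRingEnd ℂ) z = z := by
      rw [hz, map_sum]
      refine Finset.sum_congr rfl fun l _ => ?_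
      rw [map_mul, map_mul, fl_real hD, Complex.conj_ofReal]
      cases s l <;> simp
    have hn : ‖z‖ ≤ 1 := by
      calc ‖z‖ ≤ ∑ l, ‖sg (s l) * (amp D * fl D l k)‖ := norm_sum_le _ _
        _ = ∑ l, amp D * ‖fl D l k‖ := by
          refine Finset.sum_congr rfl fun l _ => ?_
          rw [norm_mul, norm_mul, Complex.norm_real, Real.norm_eq_abs,
            abs_of_nonneg (by unfold amp; positivity)]
          cases s l <;> simp
        _ = 1 := by
          rw [← Finset.mul_sum, fl_sum hD]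
          unfold amp
          field_simp
    have hre : z = (z.re : ℂ) := (Complex.conj_eq_iff_re.1 hr).symm
    refine ⟨1 + z.re, ?_, ?_⟩
    · have := Complex.abs_re_le_norm z
      have := neg_abs_le z.re
      linarith
    · rw [hre]
      push_cast
      simp
  · simp only [Data.Gm, Sum.elim_inr]
    exact ⟨1, zero_le_one, by simp⟩

lemma Wt_nn (hD : 0 < D) (x : Fin N → XX (2 * D) D) :
    NN ((dat D (amp D) 0).Wt (amp D : ℂ) x) := by
  classical
  unfold Data.Wt
  by_cases h : Good x
  · rw [if_pos h]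
    refine NN.mul (NN.mul ?_ ?_) ?_
    · rw [div_eq_mul_inv]
      refine NN.mul (NN.sum _ _ fun s _ => NN.prod _ _ fun k _ => Gm_nn hD s (x k)) ?_
      exact ⟨((2 : ℝ) ^ D)⁻¹, by positivity, by push_cast; rfl⟩
    · refine NN.prod _ _ fun k _ => ?_
      rcases x k with q | q
      · exact ⟨1, zero_le_one, by simp [fac]⟩
      · exact ⟨amp D, by unfold amp; positivity, by simp [fac]⟩
    · refine ⟨(dat D (amp D) 0).R x, ?_, rfl⟩
      unfold Data.R
      refine Finset.prod_nonneg fun i _ => Finset.prod_nonneg fun j _ => ?_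
      unfold Data.r
      split_ifs
      · exact zero_le_one
      · exact norm_nonneg _
  · rw [if_neg h]
    exact ⟨0, le_refl _, by simp⟩

/-- the probability of a configuration -/
def wr (N D : ℕ) (x : Fin N → XX (2 * D) D) : ℝ :=
  ((dat D (amp D) 0).Wt (amp D : ℂ) x).re / N.factorial

lemma wr_eq (hD : 0 < D) (x : Fin N → XX (2 * D) D) :
    (wr N D x : ℂ) = (dat D (amp D) 0).Wt (amp D : ℂ) x / N.factorial := by
  obtain ⟨r, _, h⟩ := Wt_nn hD x
  unfold wr
  rw [h, Complex.ofReal_re]
  push_cast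
  rfl

lemma wr_nonneg (hD : 0 < D) (x : Fin N → XX (2 * D) D) : 0 ≤ wr N D x := by
  obtain ⟨r, hr, h⟩ := Wt_nn hD x
  unfold wr
  rw [h, Complex.ofReal_re]
  positivity

lemma wr_good {x : Fin N → XX (2 * D) D} (h : wr N D x ≠ 0) : Good x := by
  by_contra hg
  apply h
  unfold wr Data.Wt
  rw [if_neg hg]
  simp

/-- the positions -/
def ps0 (D : ℕ) : XX (2 * D) D → ℂ := Sum.elim (gr D) (fun q => ct D q.1)

lemma ps0_eq (x : XX (2 * D) D) : (dat D (amp D) 0).pos x = ps0 D x := by
  rcases x with k | q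
  · rfl
  · simp [Data.pos, ps0, dat]

lemma ps0_norm (x : XX (2 * D) D) : ‖ps0 D x‖ = 1 := by
  rcases x with k | q
  · exact gr_norm k
  · exact ct_norm q.1

/-- **the law** -/
def law (N D : ℕ) : Measure (Fin N → ℂ) :=
  ∑ x : Fin N → XX (2 * D) D, ENNReal.ofReal (wr N D x) • Measure.dirac (fun k => ps0 D (x k))

lemma law_int (hD : 0 < D) {E : Type*} [NormedAddCommGroup E] [NormedSpace ℝ E] [CompleteSpace E]
    (f : (Fin N → ℂ) → E) :
    ∫ z, f z ∂(law N D) = ∑ x : Fin N → XX (2 * D) D, wr N D x • f (fun k => ps0 D (x k)) := by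
  unfold law
  have hint : ∀ x : Fin N → XX (2 * D) D,
      Integrable f (ENNReal.ofReal (wr N D x) • Measure.dirac (fun k => ps0 D (x k))) := by
    intro x
    exact (integrable_dirac (by simp)).smul_measure ENNReal.ofReal_ne_top
  rw [integral_finsetSum_measure fun x _ => hint x]
  refine Finset.sum_congr rfl fun x _ => ?_
  rw [integral_smul_measure, integral_dirac, ENNReal.toReal_ofReal (wr_nonneg hD x)]

lemma law_ae {p : (Fin N → ℂ) → Prop}
    (h : ∀ x : Fin N → XX (2 * D) D, Good x → p (fun k => ps0 D (x k))) :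
    ∀ᵐ z ∂(law N D), p z := by
  unfold law
  rw [Filter.Eventually, MeasureTheory.mem_ae_iff]
  rw [Measure.coe_finsetSum, Finset.sum_apply]
  refine Finset.sum_eq_zero fun x _ => ?_
  rw [Measure.smul_apply]
  by_cases hw : wr N D x = 0
  · rw [hw]
    simp
  · have hp := h x (wr_good hw)
    have : (Measure.dirac (fun k => ps0 D (x k))) {z | p z}ᶜ = 0 := by
      rw [Measure.dirac_apply]
      simp [hp]
    rw [this]
    simp

end

end Pool.Agent.H481.SB
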