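import Pool.Graph.R_pool_sql_team_seeded_b0a926ef.R319.UM8

/-!
Partial fractions of `∏ (1 - w z_i t) / (1 - z_i t)` for general `w`, the residues for
`w = exp (-2π i / M)`, and their signs.
-/

open Finset Polynomial

namespace Pool.Agent.H481.SG

open Pool.Agent.R319.UM

noncomputable section

variable {N : ℕ}

/-- the partial fraction identity for polynomials -/
lemma pf_poly' {w : ℂ} {z : Fin N → ℂ} (hN : 0 < N)
    (hz : Function.Injective z) (hz0 : ∀ i, z i ≠ 0) :
    Pr (fun i => w * z i) - C (w ^ N) * Pr z =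
      ∑ j, C (tau w z j) * ∏ i ∈ univ.erase j, lin (z i) := by
  rw [← sub_eq_zero]
  set D := Pr (fun i => w * z i) - C (w ^ N) * Pr z -
    ∑ j, C (tau w z j) * ∏ i ∈ univ.erase j, lin (z i) with hD
  have hinj : Function.Injective fun j => (z j)⁻¹ := fun a b h => hz (inv_injective h)
  refine Polynomial.eq_zero_of_degree_lt_of_eval_finset_eq_zero
    (univ.image fun j => (z j)⁻¹) ?_ ?_
  · rw [Finset.card_image_of_injective _ hinj, Finset.card_univ, Fintype.card_fin]
    have h1 : (Pr (fun i => w * z i) - C (w ^ N) * Pr z).degree < N := by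
      rw [Polynomial.degree_lt_iff_coeff_zero]
      intro m hm
      rw [Polynomial.coeff_sub, Polynomial.coeff_C_mul]
      rcases hm.eq_or_lt with h | h
      · rw [← h, Pr_coeff, Pr_coeff]
        have : ∏ i, (-(w * z i)) = w ^ N * ∏ i, (-z i) := by
          have e1 : w ^ N = ∏ _i : Fin N, w := by
            rw [Finset.prod_const, Finset.card_univ, Fintype.card_fin]
          rw [e1, ← Finset.prod_mul_distrib]
          exact Finset.prod_congr rfl fun i _ => by ring
        rw [this]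
        ring
      · rw [Polynomial.coeff_eq_zero_of_natDegree_lt ((Pr_deg _).trans_lt h),
          Polynomial.coeff_eq_zero_of_natDegree_lt ((Pr_deg _).trans_lt h)]
        ring
    have h2 : (∑ j, C (tau w z j) * ∏ i ∈ univ.erase j, lin (z i)).degree < N := by
      refine lt_of_le_of_lt (Polynomial.degree_sum_le _ _) ?_
      rw [Finset.sup_lt_iff (by exact WithBot.bot_lt_coe N)]
      intro j _
      have h3 : (C (tau w z j) * ∏ i ∈ univ.erase j, lin (z i)).natDegree ≤ N - 1 := by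
        refine (Polynomial.natDegree_C_mul_le _ _).trans ?_
        refine (Polynomial.natDegree_prod_le _ _).trans ?_
        refine (Finset.sum_le_sum fun i _ => lin_deg (z i)).trans ?_
        rw [Finset.sum_const, Finset.card_erase_of_mem (Finset.mem_univ j), Finset.card_univ,
          Fintype.card_fin]
        simp
      refine lt_of_le_of_lt (Polynomial.degree_le_of_natDegree_le h3) ?_
      exact_mod_cast (by omega : N - 1 < N)
    exact lt_of_le_of_lt (Polynomial.degree_sub_le _ _) (max_lt h1 h2)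
  · intro x hx
    obtain ⟨j, -, rfl⟩ := Finset.mem_image.1 hx
    rw [hD]
    simp only [Polynomial.eval_sub, Polynomial.eval_finsetSum,
      Polynomial.eval_mul, Polynomial.eval_C, Pr, Polynomial.eval_prod, lin_eval]
    have h1 : ∏ i, (1 - z i * (z j)⁻¹) = 0 := by
      apply Finset.prod_eq_zero (Finset.mem_univ j)
      rw [mul_inv_cancel₀ (hz0 j), sub_self]
    have h2 : ∀ k, k ≠ j → ∏ i ∈ univ.erase k, (1 - z i * (z j)⁻¹) = 0 := by
      intro k hk
      apply Finset.prod_eq_zero (Finset.mem_erase.2 ⟨hk.symm, Finset.mem_univ j⟩)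
      rw [mul_inv_cancel₀ (hz0 j), sub_self]
    rw [h1, mul_zero, sub_zero, Finset.sum_eq_single j (fun k _ hk => by rw [h2 k hk, mul_zero])
      (fun h => absurd (Finset.mem_univ j) h), sub_eq_zero]
    rw [← Finset.mul_prod_erase univ (fun i => 1 - w * z i * (z j)⁻¹) (Finset.mem_univ j)]
    unfold tau
    rw [mul_assoc w, mul_inv_cancel₀ (hz0 j), mul_one, mul_assoc, ← Finset.prod_mul_distrib]
    congr 1
    refine Finset.prod_congr rfl fun i hi => ?_
    have hne : z j - z i ≠ 0 := sub_ne_zero.2 fun h => (Finset.mem_erase.1 hi).1 (hz h).symm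
    have hj := hz0 j
    field_simp

/-- the power sums with weights `tau` -/
lemma pf' {w : ℂ} {z : Fin N → ℂ} (hN : 0 < N)
    (hz : Function.Injective z) (hz0 : ∀ i, z i ≠ 0) (m : ℕ) :
    ∑ j, tau w z j * z j ^ m =
      PowerSeries.coeff m (Gz w z) - if m = 0 then w ^ N else 0 := by
  have h := congrArg (fun p : ℂ[X] => Hz z * (p : PowerSeries ℂ))
    (pf_poly' (w := w) hN hz hz0)
  simp only [Polynomial.coe_sub, Polynomial.coe_mul, Polynomial.coe_C, mul_sub, ← Gz_eq] at h
  have hc : Hz z * (PowerSeries.C (w ^ N) * (Pr z : PowerSeries ℂ)) = PowerSeries.C (w ^ N) := by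
    rw [mul_left_comm, Hz_Pr, mul_one]
  rw [hc] at h
  have h2 : Hz z * ((∑ j, C (tau w z j) * ∏ i ∈ univ.erase j, lin (z i) : ℂ[X]) : PowerSeries ℂ) =
      ∑ j, PowerSeries.C (tau w z j) * geo (z j) := by
    have e : ((∑ j, C (tau w z j) * ∏ i ∈ univ.erase j, lin (z i) : ℂ[X]) : PowerSeries ℂ) =
        ∑ j, PowerSeries.C (tau w z j) *
          ((∏ i ∈ univ.erase j, lin (z i) : ℂ[X]) : PowerSeries ℂ) := by
      refine (map_sum (Polynomial.coeToPowerSeries.ringHom (R := ℂ))
        (fun j => C (tau w z j) * ∏ i ∈ univ.erase j, lin (z i)) univ).trans ?_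
      refine Finset.sum_congr rfl fun j _ => ?_
      rw [map_mul]
      congr 1
      exact Polynomial.coe_C _
    rw [e, Finset.mul_sum]
    refine Finset.sum_congr rfl fun j _ => ?_
    rw [← Hz_L z j]
    ring
  rw [h2] at h
  have h3 := congrArg (PowerSeries.coeff m) h
  rw [map_sub, PowerSeries.coeff_C, map_sum] at h3
  rw [h3]
  refine Finset.sum_congr rfl fun j _ => ?_
  rw [PowerSeries.coeff_C_mul, geo, PowerSeries.coeff_mk]

/-! ### the rotation -/

/-- `exp (-2π i / M)` -/
def ow (M : ℕ) : ℂ := Complex.exp (-(2 * Real.pi * Complex.I / M))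

/-- `exp (π i / M)` -/
def vw (M : ℕ) : ℂ := Complex.exp (Real.pi * Complex.I / M)

lemma ow_prim {M : ℕ} (hM : 0 < M) : IsPrimitiveRoot (ow M) M := by
  have h := (Complex.isPrimitiveRoot_exp M (by omega)).inv
  have e : (Complex.exp (2 * Real.pi * Complex.I / M))⁻¹ = ow M := by
    rw [← Complex.exp_neg]
    rfl
  rwa [e] at h

lemma ow_eq (M : ℕ) : ow M = Complex.exp ((-(2 * Real.pi / M) : ℝ) * Complex.I) := by
  unfold ow
  congr 1
  push_cast
  ring

lemma vw_eq (M : ℕ) : vw M = Complex.exp ((Real.pi / M : ℝ) * Complex.I) := by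
  unfold vw
  congr 1
  push_cast
  ring

lemma ow_norm (M : ℕ) : ‖ow M‖ = 1 := by
  rw [ow_eq, Complex.norm_exp_ofReal_mul_I]

lemma vw_norm (M : ℕ) : ‖vw M‖ = 1 := by
  rw [vw_eq, Complex.norm_exp_ofReal_mul_I]

lemma ow_ne (M : ℕ) : ow M ≠ 0 := Complex.exp_ne_zero _

lemma vw_ne (M : ℕ) : vw M ≠ 0 := Complex.exp_ne_zero _

lemma ow_ne_one {M : ℕ} (hM : 2 ≤ M) : ow M ≠ 1 := (ow_prim (by omega)).ne_one (by omega)

lemma vw_mul (M : ℕ) : vw M * ow M = (vw M)⁻¹ := by
  unfold vw ow
  rw [← Complex.exp_neg, ← Complex.exp_add]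
  congr 1
  ring

/-- the phase -/
def cph (N M : ℕ) : ℂ := -(Complex.I * vw M ^ N)

/-- the residues with the phase -/
def ta (M : ℕ) (z : Fin N → ℂ) (j : Fin N) : ℂ := cph N M * tau (ow M) z j

lemma cph_ne (N M : ℕ) : cph N M ≠ 0 :=
  neg_ne_zero.2 (mul_ne_zero Complex.I_ne_zero (pow_ne_zero _ (vw_ne M)))

/-- the residues are real -/
lemma ta_real (hN : 0 < N) {M : ℕ} {z : Fin N → ℂ} (h1 : ∀ i, ‖z i‖ = 1)
    (hz : Function.Injective z) (j : Fin N) : (starRingEnd ℂ) (ta M z j) = ta M z j := by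
  unfold ta tau
  have hw := ow_ne M
  have hv := vw_ne M
  rw [map_mul, map_mul, map_prod]
  have e1 : ∏ i ∈ univ.erase j, (starRingEnd ℂ) ((z j - ow M * z i) / (z j - z i)) =
      (ow M)⁻¹ ^ (N - 1) * ∏ i ∈ univ.erase j, (z j - ow M * z i) / (z j - z i) := by
    have : (ow M)⁻¹ ^ (N - 1) = ∏ _i ∈ univ.erase j, (ow M)⁻¹ := by
      rw [Finset.prod_const, Finset.card_erase_of_mem (Finset.mem_univ j), Finset.card_univ,
        Fintype.card_fin]
    rw [this, ← Finset.prod_mul_distrib]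
    refine Finset.prod_congr rfl fun i hi => ?_
    have hne : z j - z i ≠ 0 := sub_ne_zero.2 fun h => (Finset.mem_erase.1 hi).1 (hz h).symm
    have hne' : z i - z j ≠ 0 := fun h => hne (by rw [← neg_sub, h, neg_zero])
    have a1 := ne_of_unit (h1 i)
    have a2 := ne_of_unit (h1 j)
    rw [map_div₀, map_sub, map_sub, map_mul, conj_unit (h1 i), conj_unit (h1 j),
      conj_unit (ow_norm M)]
    have e2 : (z j)⁻¹ - (z i)⁻¹ = (z i - z j) / (z i * z j) := by
      field_simp
    have e3 : (z j)⁻¹ - (ow M)⁻¹ * (z i)⁻¹ = -((ow M)⁻¹ * (z j - ow M * z i)) / (z i * z j) := by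
      field_simp
      ring
    rw [e2, e3]
    have a3 : z i * z j ≠ 0 := mul_ne_zero a1 a2
    rw [div_div_div_cancel_right₀ a3]
    rw [← neg_sub (z j) (z i), neg_div_neg_eq, mul_div_assoc]
  rw [e1, map_sub, map_one, conj_unit (ow_norm M)]
  have e5 : (starRingEnd ℂ) (cph N M) = Complex.I * (vw M)⁻¹ ^ N := by
    unfold cph
    rw [map_neg, map_mul, map_pow, Complex.conj_I, conj_unit (vw_norm M)]
    ring
  rw [e5]
  have e6 : (ow M)⁻¹ = vw M * vw M := by
    have := vw_mul M
    field_simp at this ⊢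
    exact this.symm
  have e7 : Complex.I * (vw M)⁻¹ ^ N * ((1 - (ow M)⁻¹) * (ow M)⁻¹ ^ (N - 1)) =
      cph N M * (1 - ow M) := by
    unfold cph
    have e8 : ow M = ((vw M) * (vw M))⁻¹ := by rw [← e6, inv_inv]
    rw [e8, inv_inv]
    obtain ⟨n, rfl⟩ : ∃ n, N = n + 1 := ⟨N - 1, by omega⟩
    rw [Nat.add_sub_cancel]
    have e9 : (vw M)⁻¹ ^ (n + 1) * (vw M * vw M) ^ n = vw M ^ n * (vw M)⁻¹ := by
      rw [mul_pow, inv_pow, pow_succ]
      field_simp
    calc Complex.I * (vw M)⁻¹ ^ (n + 1) * ((1 - vw M * vw M) * (vw M * vw M) ^ n)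
        = Complex.I * (1 - vw M * vw M) * ((vw M)⁻¹ ^ (n + 1) * (vw M * vw M) ^ n) := by ring
      _ = Complex.I * (1 - vw M * vw M) * (vw M ^ n * (vw M)⁻¹) := by rw [e9]
      _ = _ := by
        rw [pow_succ]
        field_simp
        ring
  linear_combination (∏ i ∈ univ.erase j, (z j - ow M * z i) / (z j - z i)) * e7

/-- separated points have nonnegative residues -/
lemma ta_nonneg (hN : 0 < N) {M : ℕ} (hM : 2 ≤ M) {z : Fin N → ℂ} (h1 : ∀ i, ‖z i‖ = 1)
    (hz : Function.Injective z)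
    (hsep : ∀ i j, i ≠ j → ‖1 - ow M‖ ≤ ‖z i - z j‖) (j : Fin N) :
    ∃ r : ℝ, 0 ≤ r ∧ ta M z j = r := by
  have hMr : (2 : ℝ) ≤ M := by exact_mod_cast hM
  have hMc : (M : ℂ) ≠ 0 := by
    have : M ≠ 0 := by omega
    exact_mod_cast this
  set δ : ℝ := 2 * Real.pi / M with hδ
  have hpi := Real.pi_pos
  have hδ0 : 0 < δ := by rw [hδ]; positivity
  have hδ1 : δ ≤ Real.pi := by
    rw [hδ, div_le_iff₀ (by linarith)]
    nlinarith
  set v : ℂ := vw M with hv
  have hδ2 : Real.pi / M = δ / 2 := by rw [hδ]; ring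
  have hv0 : v ≠ 0 := vw_ne M
  have hvn : ‖v‖ = 1 := vw_norm M
  have hve : v = Complex.exp ((δ / 2 : ℝ) * Complex.I) := by rw [hv, vw_eq, hδ2]
  have hvre : v.re = Real.cos (δ / 2) := by rw [hve, Complex.exp_ofReal_mul_I_re]
  have hvim : v.im = Real.sin (δ / 2) := by rw [hve, Complex.exp_ofReal_mul_I_im]
  have hvw : v * ow M = v⁻¹ := vw_mul M
  have hc0 : 0 ≤ Real.cos (δ / 2) :=
    Real.cos_nonneg_of_mem_Icc ⟨by linarith [Real.pi_pos], by linarith⟩
  have hs0 : 0 ≤ Real.sin (δ / 2) :=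
    Real.sin_nonneg_of_nonneg_of_le_pi (by linarith) (by linarith [Real.pi_pos])
  have howe : ow M = Complex.exp ((-δ : ℝ) * Complex.I) := ow_eq M
  -- the factors
  have key : ∀ i ∈ univ.erase j, ∃ r : ℝ, 0 ≤ r ∧ v * ((z j - ow M * z i) / (z j - z i)) = r := by
    intro i hi
    have hij : i ≠ j := (Finset.mem_erase.1 hi).1
    have hne : z j - z i ≠ 0 := sub_ne_zero.2 fun h => hij (hz h).symm
    set y := z j * (starRingEnd ℂ) (z i) with hy
    have hyn : y.re ^ 2 + y.im ^ 2 = 1 := by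
      have : Complex.normSq y = 1 := by
        rw [Complex.normSq_eq_norm_sq, hy, norm_mul, Complex.norm_conj, h1, h1]
        norm_num
      rw [Complex.normSq_apply] at this
      nlinarith
    have hre : Complex.normSq (z j - z i) = 2 - 2 * y.re := by
      rw [Complex.normSq_sub, Complex.normSq_eq_norm_sq, Complex.normSq_eq_norm_sq, h1, h1]
      show (1 : ℝ) ^ 2 + 1 ^ 2 - 2 * y.re = 2 - 2 * y.re
      ring
    have hre2 : Complex.normSq (1 - ow M) = 2 - 2 * Real.cos δ := by
      rw [Complex.normSq_sub, Complex.normSq_eq_norm_sq, Complex.normSq_eq_norm_sq, ow_norm]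
      have : ((1 : ℂ) * (starRingEnd ℂ) (ow M)).re = Real.cos δ := by
        rw [one_mul, Complex.conj_re, howe, Complex.exp_ofReal_mul_I_re, Real.cos_neg]
      rw [this]
      norm_num
    have hle : y.re ≤ Real.cos δ := by
      have h2 := hsep i j hij
      have h3 : ‖1 - ow M‖ ^ 2 ≤ ‖z j - z i‖ ^ 2 := by
        rw [norm_sub_rev (z j) (z i)]
        exact pow_le_pow_left₀ (norm_nonneg _) h2 2
      rw [← Complex.normSq_eq_norm_sq, ← Complex.normSq_eq_norm_sq, hre, hre2] at h3
      linarith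
    have hcos : Real.cos δ = Real.cos (δ / 2) ^ 2 - Real.sin (δ / 2) ^ 2 := by
      rw [← Real.cos_two_mul']
      congr 1
      ring
    have htr := trig_ineq (a := y.re) (b := y.im) hc0 (Real.cos_sq_add_sin_sq (δ / 2)) hyn
      (hcos ▸ hle)
    have hpos : 0 < Complex.normSq (z j - z i) := Complex.normSq_pos.2 hne
    refine ⟨2 * (Real.cos (δ / 2) - (y.re * Real.cos (δ / 2) - y.im * Real.sin (δ / 2))) /
      Complex.normSq (z j - z i), div_nonneg (by linarith) hpos.le, ?_⟩
    have hvy : (v * y).re = y.re * Real.cos (δ / 2) - y.im * Real.sin (δ / 2) := by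
      rw [Complex.mul_re, hvre, hvim]
      ring
    have hnum : v * (z j - ow M * z i) * (starRingEnd ℂ) (z j - z i) =
        ((2 * (Real.cos (δ / 2) - (v * y).re) : ℝ) : ℂ) := by
      have e1 : v * (z j - ow M * z i) * (starRingEnd ℂ) (z j - z i) =
          v * (z j * (starRingEnd ℂ) (z j)) - v * y - v * ow M * (z i * (starRingEnd ℂ) (z j)) +
            v * ow M * (z i * (starRingEnd ℂ) (z i)) := by
        rw [map_sub, hy]
        ring
      have e2 : ∀ k, z k * (starRingEnd ℂ) (z k) = 1 := by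
        intro k
        rw [conj_unit (h1 k), mul_inv_cancel₀ (ne_of_unit (h1 k))]
      have e3 : v * ow M * (z i * (starRingEnd ℂ) (z j)) = (starRingEnd ℂ) (v * y) := by
        rw [hvw, hy, map_mul, map_mul, Complex.conj_conj, ← conj_unit hvn]
        ring
      rw [e1, e2, e2, e3, hvw, mul_one, mul_one]
      have e4 : v + v⁻¹ = ((2 * Real.cos (δ / 2) : ℝ) : ℂ) := by
        rw [← conj_unit hvn, Complex.add_conj, hvre]
      have e5 : v * y + (starRingEnd ℂ) (v * y) = ((2 * (v * y).re : ℝ) : ℂ) :=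
        Complex.add_conj _
      have e6 : v - v * y - (starRingEnd ℂ) (v * y) + v⁻¹ =
          (v + v⁻¹) - (v * y + (starRingEnd ℂ) (v * y)) := by ring
      rw [e6, e4, e5, ← Complex.ofReal_sub]
      congr 1
      ring
    have hden : (z j - z i) * (starRingEnd ℂ) (z j - z i) =
        ((Complex.normSq (z j - z i) : ℝ) : ℂ) := Complex.mul_conj _
    have hcj : (starRingEnd ℂ) (z j - z i) ≠ 0 := by
      intro h
      apply hne
      have := congrArg (starRingEnd ℂ) h
      rwa [Complex.conj_conj, map_zero] at this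
    rw [← mul_div_assoc, ← mul_div_mul_right _ _ hcj, hnum, hden, hvy]
    push_cast
    ring
  choose! r hr0 hr using key
  refine ⟨2 * Real.sin (δ / 2) * ∏ i ∈ univ.erase j, r i,
    mul_nonneg (by linarith) (Finset.prod_nonneg hr0), ?_⟩
  have hprod : v ^ (N - 1) * ∏ i ∈ univ.erase j, (z j - ow M * z i) / (z j - z i) =
      ∏ i ∈ univ.erase j, (r i : ℂ) := by
    have : v ^ (N - 1) = ∏ _i ∈ univ.erase j, v := by
      rw [Finset.prod_const, Finset.card_erase_of_mem (Finset.mem_univ j), Finset.card_univ,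
        Fintype.card_fin]
    rw [this, ← Finset.prod_mul_distrib]
    exact Finset.prod_congr rfl hr
  have hv1 : v ^ N = v ^ (N - 1) * v := by
    rw [← pow_succ]
    congr 1
    omega
  have hI : (v - v⁻¹) = Complex.I * ((2 * Real.sin (δ / 2) : ℝ) : ℂ) := by
    rw [← conj_unit hvn, Complex.sub_conj, hvim]
    push_cast
    ring
  have e7 : (1 - ow M) * v = v - v⁻¹ := by rw [← hvw]; ring
  have e8 : cph N M * (1 - ow M) = ((2 * Real.sin (δ / 2) : ℝ) : ℂ) * v ^ (N - 1) := by
    unfold cph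
    rw [← hv, hv1]
    have : -(Complex.I * (v ^ (N - 1) * v)) * (1 - ow M) =
        -Complex.I * ((1 - ow M) * v) * v ^ (N - 1) := by ring
    rw [this, e7, hI]
    have hII : Complex.I * Complex.I = -1 := Complex.I_mul_I
    linear_combination (-(((2 * Real.sin (δ / 2) : ℝ) : ℂ) * v ^ (N - 1))) * hII
  unfold ta tau
  rw [← mul_assoc, e8, mul_assoc, hprod]
  push_cast
  ring

end

end Pool.Agent.H481.SG
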