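import Pool.Agent.H481.SG1

/-!
The quadratic form of degree `R`, and the configurations where it vanishes.
-/

open Finset Polynomial

namespace Pool.Agent.H481.SG

open Pool.Agent.R319.UM

noncomputable section

variable {N : ℕ}

/-- the coefficients of the series of the residues -/
def gq (N M k : ℕ) : MvPolynomial (Fin N) ℂ :=
  MvPolynomial.C (cph N M) * (gp N (ow M) k - if k = 0 then MvPolynomial.C (ow M ^ N) else 0)

lemma gq_sym (M k : ℕ) : (gq N M k).IsSymmetric := by
  unfold gq
  refine (MvPolynomial.IsSymmetric.C _).mul ((gp_sym _ _).sub ?_)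
  split_ifs
  · exact MvPolynomial.IsSymmetric.C _
  · exact MvPolynomial.IsSymmetric.zero

lemma gq_hom (M k : ℕ) : (gq N M k).IsHomogeneous k := by
  unfold gq
  have h : (gp N (ow M) k - if k = 0 then MvPolynomial.C (ow M ^ N) else 0).IsHomogeneous k := by
    refine (gp_hom _ _).sub ?_
    split_ifs with h
    · rw [h]
      exact MvPolynomial.isHomogeneous_C _ _
    · exact MvPolynomial.isHomogeneous_zero _ _ _
  have := (MvPolynomial.isHomogeneous_C (Fin N) (cph N M)).mul h
  rwa [zero_add] at this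

lemma gq_eval (hN : 0 < N) (M : ℕ) {z : Fin N → ℂ} (hz : Function.Injective z)
    (hz0 : ∀ i, z i ≠ 0) (m : ℕ) :
    ∑ j, ta M z j * z j ^ m = MvPolynomial.eval z (gq N M m) := by
  unfold gq ta
  rw [map_mul, MvPolynomial.eval_C, map_sub, eval_gp]
  have h : MvPolynomial.eval z
      (if m = 0 then (MvPolynomial.C (ow M ^ N) : MvPolynomial (Fin N) ℂ) else 0) =
      if m = 0 then ow M ^ N else 0 := by
    split_ifs <;> simp
  rw [h, ← pf' hN hz hz0 m, Finset.mul_sum]
  exact Finset.sum_congr rfl fun j _ => by ring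

/-- holomorphic factors -/
def FF (N M k l : ℕ) : MvPolynomial (Fin N) ℂ :=
  if k ≤ l then hp N k * gq N M (l - k) else hp N k

/-- antiholomorphic factors -/
def GG (N M k l : ℕ) : MvPolynomial (Fin N) ℂ :=
  if k ≤ l then hp N l else hp N l * gq N M (k - l)

lemma FF_sym (M k l : ℕ) : (FF N M k l).IsSymmetric := by
  unfold FF
  split_ifs
  · exact (hp_sym k).mul (gq_sym _ _)
  · exact hp_sym k

lemma GG_sym (M k l : ℕ) : (GG N M k l).IsSymmetric := by
  unfold GG
  split_ifs
  · exact hp_sym l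
  · exact (hp_sym l).mul (gq_sym _ _)

lemma FF_hom (M k l : ℕ) : (FF N M k l).IsHomogeneous (max k l) := by
  unfold FF
  split_ifs with h
  · have : max k l = k + (l - k) := by omega
    rw [this]
    exact (hp_hom k).mul (gq_hom _ _)
  · rw [max_eq_left (by omega)]
    exact hp_hom k

lemma GG_hom (M k l : ℕ) : (GG N M k l).IsHomogeneous (max k l) := by
  unfold GG
  split_ifs with h
  · rw [max_eq_right h]
    exact hp_hom l
  · have : max k l = l + (k - l) := by omega
    rw [this]
    exact (hp_hom l).mul (gq_hom _ _)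

/-- the value `A_j` of the truncated series -/
def AA (R : ℕ) (z : Fin N → ℂ) (j : Fin N) : ℂ :=
  ∑ k ∈ range (R + 1), PowerSeries.coeff k (Hz z) * (ow (N + R) * (starRingEnd ℂ) (z j)) ^ k

/-- the quadratic form -/
def Phi (R : ℕ) (z : Fin N → ℂ) : ℂ :=
  ∑ k ∈ range (R + 1), ∑ l ∈ range (R + 1), (ow (N + R) ^ k * (starRingEnd ℂ) (ow (N + R)) ^ l) *
    (MvPolynomial.eval z (FF N (N + R) k l) *
      (starRingEnd ℂ) (MvPolynomial.eval z (GG N (N + R) k l)))

lemma Phi_eq (hN : 0 < N) (R : ℕ) {z : Fin N → ℂ} (h1 : ∀ i, ‖z i‖ = 1)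
    (hz : Function.Injective z) :
    Phi R z = ∑ j, ta (N + R) z j * (AA R z j * (starRingEnd ℂ) (AA R z j)) := by
  have hz0 : ∀ i, z i ≠ 0 := fun i => ne_of_unit (h1 i)
  have hP := gq_eval hN (N + R) hz hz0
  have hconj : ∀ m, ∑ j, ta (N + R) z j * (starRingEnd ℂ) (z j) ^ m =
      (starRingEnd ℂ) (MvPolynomial.eval z (gq N (N + R) m)) := by
    intro m
    rw [← hP m, map_sum]
    refine Finset.sum_congr rfl fun j _ => ?_
    rw [map_mul, ta_real hN h1 hz, map_pow]
  have e1 : ∀ j, ta (N + R) z j * (AA R z j * (starRingEnd ℂ) (AA R z j)) =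
      ∑ k ∈ range (R + 1), ∑ l ∈ range (R + 1),
        (ow (N + R) ^ k * (starRingEnd ℂ) (ow (N + R)) ^ l) *
        (PowerSeries.coeff k (Hz z) * (starRingEnd ℂ) (PowerSeries.coeff l (Hz z)) *
          (ta (N + R) z j * ((starRingEnd ℂ) (z j) ^ k * z j ^ l))) := by
    intro j
    unfold AA
    rw [map_sum, Finset.sum_mul_sum, Finset.mul_sum]
    refine Finset.sum_congr rfl fun k _ => ?_
    rw [Finset.mul_sum]
    refine Finset.sum_congr rfl fun l _ => ?_
    rw [map_mul, map_pow, map_mul, Complex.conj_conj]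
    ring
  simp only [e1]
  rw [Finset.sum_comm]
  unfold Phi
  refine Finset.sum_congr rfl fun k _ => ?_
  rw [Finset.sum_comm]
  refine Finset.sum_congr rfl fun l _ => ?_
  rw [← Finset.mul_sum, ← Finset.mul_sum]
  congr 1
  unfold FF GG
  by_cases h : k ≤ l
  · rw [if_pos h, if_pos h]
    have e2 : ∀ j, (starRingEnd ℂ) (z j) ^ k * z j ^ l = z j ^ (l - k) := by
      intro j
      have : l = k + (l - k) := by omega
      conv_lhs => rw [this]
      rw [pow_add, ← mul_assoc, ← mul_pow, conj_unit (h1 j), inv_mul_cancel₀ (hz0 j), one_pow,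
        one_mul]
    simp only [e2]
    rw [hP, map_mul, eval_hp, eval_hp]
    ring
  · rw [if_neg h, if_neg h]
    have e2 : ∀ j, (starRingEnd ℂ) (z j) ^ k * z j ^ l = (starRingEnd ℂ) (z j) ^ (k - l) := by
      intro j
      have : k = (k - l) + l := by omega
      conv_lhs => rw [this]
      rw [pow_add, mul_assoc, ← mul_pow, conj_unit (h1 j), inv_mul_cancel₀ (hz0 j), one_pow,
        mul_one]
    simp only [e2]
    rw [hconj, map_mul, eval_hp, eval_hp, map_mul]
    ring

/-! ### when it vanishes -/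

/-- the truncated series as a polynomial -/
def Rr (R : ℕ) (z : Fin N → ℂ) : ℂ[X] := PowerSeries.trunc (R + 1) (Hz z)

lemma Rr_coeff (R : ℕ) (z : Fin N → ℂ) {m : ℕ} (hm : m ≤ R) :
    (Rr R z).coeff m = PowerSeries.coeff m (Hz z) := by
  unfold Rr
  rw [PowerSeries.coeff_trunc, if_pos (by omega)]

lemma Rr_deg (R : ℕ) (z : Fin N → ℂ) : (Rr R z).natDegree ≤ R := by
  rw [Polynomial.natDegree_le_iff_coeff_eq_zero]
  intro m hm
  unfold Rr
  rw [PowerSeries.coeff_trunc, if_neg (by omega)]

lemma AA_eq (R : ℕ) (z : Fin N → ℂ) (j : Fin N) :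
    AA R z j = (Rr R z).eval (ow (N + R) * (starRingEnd ℂ) (z j)) := by
  rw [Polynomial.eval_eq_sum_range' (lt_of_le_of_lt (Rr_deg R z) (Nat.lt_succ_self R))]
  unfold AA
  refine Finset.sum_congr rfl fun k hk => ?_
  rw [Rr_coeff R z (by rw [Finset.mem_range] at hk; omega)]

/-- the product -/
def WW (R : ℕ) (z : Fin N → ℂ) : ℂ[X] := Pr z * Rr R z

lemma WW_coeff (R : ℕ) (z : Fin N → ℂ) {m : ℕ} (hm : m ≤ R) :
    (WW R z).coeff m = if m = 0 then 1 else 0 := by
  unfold WW
  have h : PowerSeries.coeff m ((Pr z : PowerSeries ℂ) * Hz z) = if m = 0 then 1 else 0 := by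
    rw [mul_comm, Hz_Pr, PowerSeries.coeff_one]
  rw [← h, PowerSeries.coeff_mul, Polynomial.coeff_mul]
  refine Finset.sum_congr rfl fun p hp' => ?_
  rw [Polynomial.coeff_coe, Rr_coeff R z]
  have := Finset.HasAntidiagonal.mem_antidiagonal.1 hp'
  omega

lemma WW_deg (R : ℕ) (z : Fin N → ℂ) : (WW R z).natDegree ≤ N + R := by
  unfold WW
  refine (Polynomial.natDegree_mul_le).trans ?_
  have := Pr_deg z
  have := Rr_deg R z
  omega

/-- the remainder polynomial -/
def SS (R : ℕ) (z : Fin N → ℂ) : ℂ[X] := ∑ i ∈ range N, C ((WW R z).coeff (N + R - i)) * X ^ i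

lemma SS_coeff (R : ℕ) (z : Fin N → ℂ) (m : ℕ) :
    (SS R z).coeff m = if m < N then (WW R z).coeff (N + R - m) else 0 := by
  unfold SS
  rw [Polynomial.finsetSum_coeff]
  simp only [Polynomial.coeff_C_mul, Polynomial.coeff_X_pow, mul_ite, mul_one, mul_zero]
  rw [Finset.sum_ite_eq]
  simp only [Finset.mem_range]

lemma SS_deg (R : ℕ) (z : Fin N → ℂ) : (SS R z).degree < N := by
  rw [Polynomial.degree_lt_iff_coeff_zero]
  intro m hm
  rw [SS_coeff, if_neg (by omega)]

lemma SS_eval (hN : 0 < N) (R : ℕ) (z : Fin N → ℂ) {x u : ℂ} (hxu : x * u = 1) :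
    x ^ (N + R) * (WW R z).eval u = x ^ (N + R) + (SS R z).eval x := by
  rw [Polynomial.eval_eq_sum_range' (n := N + R + 1) (by have := WW_deg R z; omega)]
  have h1 : x ^ (N + R) * ∑ i ∈ range (N + R + 1), (WW R z).coeff i * u ^ i =
      ∑ i ∈ range (N + R + 1), (WW R z).coeff i * x ^ (N + R - i) := by
    rw [Finset.mul_sum]
    refine Finset.sum_congr rfl fun i hi => ?_
    have hi' : i ≤ N + R := by rw [Finset.mem_range] at hi; omega
    have : x ^ (N + R) = x ^ (N + R - i) * x ^ i := by
      rw [← pow_add]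
      congr 1
      omega
    calc x ^ (N + R) * ((WW R z).coeff i * u ^ i)
        = (WW R z).coeff i * x ^ (N + R - i) * (x * u) ^ i := by rw [this, mul_pow]; ring
      _ = _ := by rw [hxu, one_pow, mul_one]
  rw [h1, ← Finset.sum_range_reflect]
  have h2 : ∑ j ∈ range (N + R + 1), (WW R z).coeff (N + R + 1 - 1 - j) *
      x ^ (N + R - (N + R + 1 - 1 - j)) =
      ∑ j ∈ range (N + R + 1), (WW R z).coeff (N + R - j) * x ^ j := by
    refine Finset.sum_congr rfl fun j hj => ?_
    rw [Finset.mem_range] at hj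
    have e1 : N + R + 1 - 1 - j = N + R - j := by omega
    have e2 : N + R - (N + R - j) = j := by omega
    rw [e1, e2]
  rw [h2]
  have h3 : N + R + 1 = N + (R + 1) := by ring
  rw [h3, Finset.sum_range_add]
  have h4 : ∑ j ∈ range (R + 1), (WW R z).coeff (N + R - (N + j)) * x ^ (N + j) =
      x ^ (N + R) := by
    rw [Finset.sum_eq_single R]
    · have e : N + R - (N + R) = 0 := by omega
      rw [e, WW_coeff R z (by omega), if_pos rfl, one_mul]
    · intro j hj hjN
      rw [Finset.mem_range] at hj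
      rw [WW_coeff R z (by omega), if_neg (by omega), zero_mul]
    · intro h
      exact absurd (Finset.mem_range.2 (by omega)) h
  rw [h4, add_comm]
  congr 1
  rw [Polynomial.eval_eq_sum_range' (n := N) ?_]
  · refine Finset.sum_congr rfl fun j hj => ?_
    rw [SS_coeff, if_pos (Finset.mem_range.1 hj)]
  · by_cases h0 : SS R z = 0
    · rw [h0]
      simpa using hN
    · rw [Polynomial.natDegree_lt_iff_degree_lt h0]
      exact SS_deg R z

lemma Pr_eval_zero_iff {M : ℕ} (hM : 2 ≤ M) {z : Fin N → ℂ} (h1 : ∀ i, ‖z i‖ = 1)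
    (hz : Function.Injective z) (j : Fin N) :
    (Pr z).eval (ow M * (starRingEnd ℂ) (z j)) = 0 ↔ ta M z j = 0 := by
  have hz0 : ∀ i, z i ≠ 0 := fun i => ne_of_unit (h1 i)
  unfold Pr ta tau
  rw [Polynomial.eval_prod, Finset.prod_eq_zero_iff, mul_eq_zero, mul_eq_zero,
    Finset.prod_eq_zero_iff]
  simp only [lin_eval, conj_unit (h1 j)]
  constructor
  · rintro ⟨i, -, hi⟩
    right
    right
    have hi2 : z j = ow M * z i := by
      have h3 : z i * (ow M * (z j)⁻¹) = 1 := (sub_eq_zero.1 hi).symm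
      have h4 := hz0 j
      field_simp at h3
      rw [← h3]
      ring
    have hij : i ≠ j := by
      intro h
      rw [h] at hi2
      apply ow_ne_one hM
      have h4 := hz0 j
      have : ow M * z j = 1 * z j := by rw [one_mul]; exact hi2.symm
      exact mul_right_cancel₀ h4 this
    exact ⟨i, Finset.mem_erase.2 ⟨hij, Finset.mem_univ _⟩, by rw [← hi2, sub_self, zero_div]⟩
  · rintro (h | h | ⟨i, hi, hi2⟩)
    · exact absurd h (cph_ne N M)
    · exact absurd (sub_eq_zero.1 h).symm (ow_ne_one hM)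
    · refine ⟨i, Finset.mem_univ _, ?_⟩
      have hne : z j - z i ≠ 0 := sub_ne_zero.2 fun h => (Finset.mem_erase.1 hi).1 (hz h).symm
      have h3 : z j = ow M * z i := sub_eq_zero.1 ((div_eq_zero_iff.1 hi2).resolve_right hne)
      rw [sub_eq_zero]
      have h4 := hz0 j
      have h5 := hz0 i
      have h6 := ow_ne M
      rw [h3]
      field_simp

/-- **the vanishing criterion** -/
theorem vanish_iff (hN : 0 < N) {R : ℕ} (hR : 2 ≤ N + R) {z : Fin N → ℂ} (h1 : ∀ i, ‖z i‖ = 1)
    (hz : Function.Injective z) :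
    (∀ j, ta (N + R) z j = 0 ∨ AA R z j = 0) ↔ ∀ i j, z i ^ (N + R) = z j ^ (N + R) := by
  have hz0 : ∀ i, z i ≠ 0 := fun i => ne_of_unit (h1 i)
  have hw := ow_ne (N + R)
  have hwp := ow_prim (M := N + R) (by omega)
  have a1 : ∀ j, z j ^ (N + R) + (SS R z).eval (z j) = 0 := by
    intro j
    have hx : z j * (starRingEnd ℂ) (z j) = 1 := by
      rw [conj_unit (h1 j), mul_inv_cancel₀ (hz0 j)]
    rw [← SS_eval hN R z hx]
    unfold WW
    rw [Polynomial.eval_mul]
    have : (Pr z).eval ((starRingEnd ℂ) (z j)) = 0 := by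
      unfold Pr
      rw [Polynomial.eval_prod]
      apply Finset.prod_eq_zero (Finset.mem_univ j)
      rw [lin_eval, hx, sub_self]
    rw [this, zero_mul, mul_zero]
  have a2 : ∀ j, z j ^ (N + R) * (WW R z).eval (ow (N + R) * (starRingEnd ℂ) (z j)) =
      z j ^ (N + R) + (SS R z).eval ((ow (N + R))⁻¹ * z j) := by
    intro j
    have hx : ((ow (N + R))⁻¹ * z j) * (ow (N + R) * (starRingEnd ℂ) (z j)) = 1 := by
      rw [conj_unit (h1 j)]
      have := hz0 j
      field_simp
    have h3 := SS_eval hN R z hx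
    have h4 : ((ow (N + R))⁻¹ * z j) ^ (N + R) = z j ^ (N + R) := by
      rw [mul_pow, inv_pow, hwp.pow_eq_one, inv_one, one_mul]
    rwa [h4] at h3
  have a3 : ∀ j, (ta (N + R) z j = 0 ∨ AA R z j = 0) ↔
      (WW R z).eval (ow (N + R) * (starRingEnd ℂ) (z j)) = 0 := by
    intro j
    unfold WW
    rw [Polynomial.eval_mul, mul_eq_zero, Pr_eval_zero_iff hR h1 hz, AA_eq]
  have hcard : ((univ.image z).card : WithBot ℕ) = N := by
    rw [Finset.card_image_of_injective _ hz, Finset.card_univ, Fintype.card_fin]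
  constructor
  · intro h
    -- the polynomial `S(ω x) - S(x)` vanishes
    set D : ℂ[X] := (SS R z).comp (C (ow (N + R))⁻¹ * X) - SS R z with hD
    have hDc : ∀ m, D.coeff m = (SS R z).coeff m * ((ow (N + R))⁻¹ ^ m - 1) := by
      intro m
      rw [hD, Polynomial.coeff_sub, Polynomial.comp_C_mul_X_coeff]
      ring
    have hD0 : D = 0 := by
      refine Polynomial.eq_zero_of_degree_lt_of_eval_finset_eq_zero (univ.image z) ?_ ?_
      · rw [hcard, Polynomial.degree_lt_iff_coeff_zero]
        intro m hm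
        rw [hDc, SS_coeff, if_neg (by omega), zero_mul]
      · intro x hx
        obtain ⟨j, -, rfl⟩ := Finset.mem_image.1 hx
        have h2 := a2 j
        rw [(a3 j).1 (h j), mul_zero] at h2
        have h3 := a1 j
        rw [hD, Polynomial.eval_sub, Polynomial.eval_comp, Polynomial.eval_mul, Polynomial.eval_C,
          Polynomial.eval_X]
        linear_combination (-1 : ℂ) * h2 - h3
    have hS : ∀ m, 1 ≤ m → (SS R z).coeff m = 0 := by
      intro m hm
      by_cases hmN : m < N
      · have h4 := hDc m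
        rw [hD0, Polynomial.coeff_zero] at h4
        have h5 : (ow (N + R))⁻¹ ^ m - 1 ≠ 0 := by
          intro h6
          have h7 : ow (N + R) ^ m = 1 := by
            rw [inv_pow] at h6
            have := sub_eq_zero.1 h6
            rwa [inv_eq_one] at this
          have := (hwp.pow_eq_one_iff_dvd m).1 h7
          have := Nat.le_of_dvd (by omega) this
          omega
        exact (mul_eq_zero.1 h4.symm).resolve_right h5
      · rw [SS_coeff, if_neg hmN]
    have hSC : SS R z = C ((SS R z).coeff 0) := by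
      ext m
      rw [Polynomial.coeff_C]
      split_ifs with h6
      · rw [h6]
      · exact hS m (by omega)
    intro i j
    have h7 := a1 i
    have h8 := a1 j
    rw [hSC, Polynomial.eval_C] at h7 h8
    linear_combination h7 - h8
  · intro h j
    rw [a3]
    -- `S` is constant
    have hD0 : SS R z + C (z j ^ (N + R)) = 0 := by
      refine Polynomial.eq_zero_of_degree_lt_of_eval_finset_eq_zero (univ.image z) ?_ ?_
      · rw [hcard]
        refine lt_of_le_of_lt (Polynomial.degree_add_le _ _) (max_lt (SS_deg R z) ?_)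
        refine lt_of_le_of_lt Polynomial.degree_C_le ?_
        exact_mod_cast hN
      · intro x hx
        obtain ⟨i, -, rfl⟩ := Finset.mem_image.1 hx
        rw [Polynomial.eval_add, Polynomial.eval_C, ← h i j]
        linear_combination a1 i
    have h2 := a2 j
    have h3 : (SS R z).eval ((ow (N + R))⁻¹ * z j) + z j ^ (N + R) = 0 := by
      have := congrArg (Polynomial.eval ((ow (N + R))⁻¹ * z j)) hD0
      rwa [Polynomial.eval_add, Polynomial.eval_C, Polynomial.eval_zero] at this
    have h4 : z j ^ (N + R) * (WW R z).eval (ow (N + R) * (starRingEnd ℂ) (z j)) = 0 := by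
      rw [h2]
      linear_combination h3
    exact (mul_eq_zero.1 h4).resolve_left (pow_ne_zero _ (hz0 j))

end

end Pool.Agent.H481.SG
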