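import Pool.Agent.H481.SG2

/-!
The mean over the grid of the `M`-th roots of unity, points on a rotated grid.
-/

open Finset MeasureTheory

namespace Pool.Agent.H481.SG

open Pool.Agent.R319.UM

noncomputable section

variable {N : ℕ}

/-- the mean over the grid -/
def gmean (M : ℕ) (f : (Fin N → ℂ) → ℂ) : ℂ :=
  ((N.factorial : ℂ) * (M : ℂ) ^ N)⁻¹ *
    ∑ k : Fin N → Fin M, f (gz M k) * (V2 (gz M k) : ℂ)

/-- the torus mean of a product of polynomials of degree at most `R` is the grid mean -/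
theorem cue_eq_gmean (hN : 0 < N) {M R : ℕ} (hM : N + R ≤ M) (F G : MvPolynomial (Fin N) ℂ)
    (hF : F.totalDegree ≤ R) (hG : G.totalDegree ≤ R) :
    cue (fun z => MvPolynomial.eval z F * (starRingEnd ℂ) (MvPolynomial.eval z G)) =
      gmean M (fun z => MvPolynomial.eval z F * (starRingEnd ℂ) (MvPolynomial.eval z G)) := by
  have hd : ∀ P : MvPolynomial (Fin N) ℂ, P.totalDegree ≤ R →
      ∀ j, (P * VP N).degreeOf j < M := by
    intro P hP j
    refine lt_of_le_of_lt (MvPolynomial.degreeOf_mul_le _ _ _) ?_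
    have h1 := MvPolynomial.degreeOf_le_totalDegree P j
    have h2 := VP_deg hN j
    omega
  have h := torus_eq_grid (M := M) (by omega) (F * VP N) (G * VP N) (hd F hF) (hd G hG)
  have e : ∀ z : Fin N → ℂ, MvPolynomial.eval z (F * VP N) *
      (starRingEnd ℂ) (MvPolynomial.eval z (G * VP N)) =
      MvPolynomial.eval z F * (starRingEnd ℂ) (MvPolynomial.eval z G) * (V2 z : ℂ) := by
    intro z
    rw [map_mul, map_mul, map_mul, ← VP_eval]
    ring
  simp only [e] at h
  unfold cue gmean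
  rw [mul_inv, mul_inv, mul_assoc, mul_assoc, h]

lemma gz_unit' (M : ℕ) (k : Fin N → Fin M) (j : Fin N) : ‖gz M k j‖ = 1 := by
  unfold gz
  rw [norm_pow]
  have : (2 * Real.pi * Complex.I / M : ℂ) = ((2 * Real.pi / M : ℝ) : ℂ) * Complex.I := by
    push_cast
    ring
  rw [this, Complex.norm_exp_ofReal_mul_I, one_pow]

lemma gz_pow' {M : ℕ} (hM : 0 < M) (k : Fin N → Fin M) (j : Fin N) : gz M k j ^ M = 1 := by
  unfold gz
  rw [pow_right_comm, (Complex.isPrimitiveRoot_exp M hM.ne').pow_eq_one, one_pow]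

lemma gmean_sum (M : ℕ) {ι : Type*} (s : Finset ι) (f : ι → (Fin N → ℂ) → ℂ) :
    gmean M (fun z => ∑ i ∈ s, f i z) = ∑ i ∈ s, gmean M (f i) := by
  unfold gmean
  rw [← Finset.mul_sum, Finset.sum_comm]
  congr 1
  refine Finset.sum_congr rfl fun k _ => ?_
  rw [Finset.sum_mul]

lemma gmean_mul (M : ℕ) (c : ℂ) (f : (Fin N → ℂ) → ℂ) :
    gmean M (fun z => c * f z) = c * gmean M f := by
  unfold gmean
  simp only [mul_assoc]
  rw [← Finset.mul_sum]
  ring

lemma Phi_gmean (hN : 0 < N) {R : ℕ} (hR : 2 ≤ N + R) : gmean (N := N) (N + R) (Phi R) = 0 := by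
  unfold gmean
  rw [Finset.sum_eq_zero, mul_zero]
  intro k _
  by_cases h : Function.Injective (gz (N + R) k)
  · have h1 := gz_unit' (N + R) k
    rw [Phi_eq hN R h1 h]
    have h2 := (vanish_iff hN hR h1 h).2
      (fun i j => by rw [gz_pow' (by omega), gz_pow' (by omega)])
    rw [Finset.sum_eq_zero, zero_mul]
    intro j _
    rcases h2 j with h3 | h3
    · rw [h3, zero_mul]
    · rw [h3, zero_mul, mul_zero]
  · rw [V2_zero h]
    simp

/-- the moment hypothesis -/
def Moments (N R : ℕ) (ν : Measure (Fin N → ℂ)) : Prop :=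
  ∀ n ≤ R, ∀ F G : MvPolynomial (Fin N) ℂ, F.IsSymmetric → G.IsSymmetric →
    F.IsHomogeneous n → G.IsHomogeneous n →
    ∫ z, MvPolynomial.eval z F * (starRingEnd ℂ) (MvPolynomial.eval z G) ∂ν =
      cue (fun z => MvPolynomial.eval z F * (starRingEnd ℂ) (MvPolynomial.eval z G))

lemma mom_gmean (hN : 0 < N) {R : ℕ} {ν : Measure (Fin N → ℂ)} (hm : Moments N R ν) {n : ℕ}
    (hn : n ≤ R) {F G : MvPolynomial (Fin N) ℂ} (hF : F.IsSymmetric) (hG : G.IsSymmetric)
    (hF' : F.IsHomogeneous n) (hG' : G.IsHomogeneous n) :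
    ∫ z, MvPolynomial.eval z F * (starRingEnd ℂ) (MvPolynomial.eval z G) ∂ν =
      gmean (N + R) (fun z => MvPolynomial.eval z F * (starRingEnd ℂ) (MvPolynomial.eval z G)) := by
  rw [hm n hn F G hF hG hF' hG']
  exact cue_eq_gmean hN (le_refl _) F G (hF'.totalDegree_le.trans hn) (hG'.totalDegree_le.trans hn)

lemma Phi_int (R : ℕ) {ν : Measure (Fin N → ℂ)} [IsProbabilityMeasure ν]
    (h1 : ∀ᵐ z ∂ν, ∀ i, ‖z i‖ = 1) : Integrable (Phi (N := N) R) ν := by
  unfold Phi
  refine integrable_finset_sum _ fun k _ => integrable_finset_sum _ fun l _ => ?_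
  exact (poly_int h1 _ _).const_mul _

lemma Phi_mean (hN : 0 < N) {R : ℕ} (hR : 2 ≤ N + R) {ν : Measure (Fin N → ℂ)}
    [IsProbabilityMeasure ν] (h1 : ∀ᵐ z ∂ν, ∀ i, ‖z i‖ = 1) (hm : Moments N R ν) :
    ∫ z, Phi R z ∂ν = 0 := by
  rw [← Phi_gmean hN hR]
  unfold Phi
  rw [integral_finset_sum _ fun k _ => integrable_finset_sum _ fun l _ =>
    (poly_int h1 _ _).const_mul _, gmean_sum]
  refine Finset.sum_congr rfl fun k hk => ?_
  rw [integral_finset_sum _ fun l _ => (poly_int h1 _ _).const_mul _, gmean_sum]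
  refine Finset.sum_congr rfl fun l hl => ?_
  rw [integral_const_mul, gmean_mul, mom_gmean hN hm (n := max k l) ?_ (FF_sym _ k l)
    (GG_sym _ k l) (FF_hom _ k l) (GG_hom _ k l)]
  rw [Finset.mem_range] at hk hl
  omega

/-- **rigidity**: separated points with the means of degree at most `R` are on a grid -/
theorem rigid (hN : 0 < N) {R : ℕ} (hR : 2 ≤ N + R) {ν : Measure (Fin N → ℂ)}
    [IsProbabilityMeasure ν] (h1 : ∀ᵐ z ∂ν, ∀ i, ‖z i‖ = 1) (hm : Moments N R ν)
    (hsep : ∀ᵐ z ∂ν, ∀ i j, i ≠ j → ‖1 - ow (N + R)‖ ≤ ‖z i - z j‖) :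
    ∀ᵐ z ∂ν, ∀ i j, z i ^ (N + R) = z j ^ (N + R) := by
  have hpos : 0 < ‖1 - ow (N + R)‖ := norm_pos_iff.2 (sub_ne_zero.2 (ow_ne_one hR).symm)
  have hinj : ∀ᵐ z ∂ν, Function.Injective z := by
    filter_upwards [hsep] with z hz i j hij
    by_contra hne
    have := hz i j hne
    rw [hij, sub_self, norm_zero] at this
    linarith
  have h0 : ∀ᵐ z ∂ν, ∃ r : ℝ, 0 ≤ r ∧ Phi R z = r := by
    filter_upwards [h1, hsep, hinj] with z hz1 hz2 hz3
    have key : ∀ j, ∃ r : ℝ, 0 ≤ r ∧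
        ta (N + R) z j * (AA R z j * (starRingEnd ℂ) (AA R z j)) = r := by
      intro j
      obtain ⟨r, hr, hr2⟩ := ta_nonneg hN hR hz1 hz3 hz2 j
      refine ⟨r * Complex.normSq (AA R z j), mul_nonneg hr (Complex.normSq_nonneg _), ?_⟩
      rw [hr2, Complex.mul_conj]
      push_cast
      ring
    choose r hr hr2 using key
    refine ⟨∑ j, r j, Finset.sum_nonneg fun j _ => hr j, ?_⟩
    rw [Phi_eq hN R hz1 hz3]
    push_cast
    exact Finset.sum_congr rfl fun j _ => hr2 j
  have hz := ae_zero (Phi_int R h1) h0 (Phi_mean hN hR h1 hm)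
  filter_upwards [hz, h1, hsep, hinj] with z hz0 hz1 hz2 hz3
  refine (vanish_iff hN hR hz1 hz3).1 ?_
  rw [Phi_eq hN R hz1 hz3] at hz0
  have key : ∀ j, ∃ r : ℝ, 0 ≤ r ∧ ta (N + R) z j = r := ta_nonneg hN hR hz1 hz3 hz2
  choose r hr hr2 using key
  have hsum : ∑ j, r j * Complex.normSq (AA R z j) = 0 := by
    have : ((∑ j, r j * Complex.normSq (AA R z j) : ℝ) : ℂ) = 0 := by
      rw [← hz0]
      push_cast
      refine Finset.sum_congr rfl fun j _ => ?_
      rw [hr2 j, Complex.mul_conj]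
    exact_mod_cast this
  have hall := (Finset.sum_eq_zero_iff_of_nonneg fun j _ =>
    mul_nonneg (hr j) (Complex.normSq_nonneg (AA R z j))).1 hsum
  intro j
  rcases mul_eq_zero.1 (hall j (Finset.mem_univ j)) with h | h
  · left
    rw [hr2 j, h]
    simp
  · right
    exact Complex.normSq_eq_zero.1 h

/-! ### distances on the grid -/

lemma ns_pow (M m : ℕ) :
    Complex.normSq (1 - ow M ^ m) = 2 - 2 * Real.cos (2 * Real.pi * m / M) := by
  have e : ow M ^ m = Complex.exp ((-(2 * Real.pi * m / M) : ℝ) * Complex.I) := by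
    rw [ow_eq, ← Complex.exp_nat_mul]
    congr 1
    push_cast
    ring
  rw [Complex.normSq_sub, Complex.normSq_eq_norm_sq, Complex.normSq_eq_norm_sq, norm_pow,
    ow_norm]
  have : ((1 : ℂ) * (starRingEnd ℂ) (ow M ^ m)).re = Real.cos (2 * Real.pi * m / M) := by
    rw [one_mul, Complex.conj_re, e, Complex.exp_ofReal_mul_I_re, Real.cos_neg]
  rw [this]
  norm_num

/-- different points of the grid are separated -/
lemma root_dist' {M : ℕ} (hM : 0 < M) {u : ℂ} (hu : u ^ M = 1) (hu1 : u ≠ 1) :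
    ‖1 - ow M‖ ≤ ‖1 - u‖ := by
  have hMr : (0 : ℝ) < M := by exact_mod_cast hM
  haveI : NeZero M := ⟨by omega⟩
  obtain ⟨k, hk, hku⟩ := (ow_prim hM).eq_pow_of_pow_eq_one hu
  have hk0 : k ≠ 0 := by
    rintro rfl
    exact hu1 (by rw [← hku, pow_zero])
  have h1 := ns_pow M 1
  have h2 := ns_pow M k
  rw [pow_one] at h1
  rw [hku] at h2
  have hpi := Real.pi_pos
  have hle : Real.cos (2 * Real.pi * k / M) ≤ Real.cos (2 * Real.pi * (1 : ℕ) / M) := by
    have hk1 : (1 : ℝ) ≤ k := by exact_mod_cast Nat.one_le_iff_ne_zero.2 hk0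
    by_cases hkN : 2 * k ≤ M
    · have hkN' : 2 * (k : ℝ) ≤ M := by exact_mod_cast hkN
      apply Real.cos_le_cos_of_nonneg_of_le_pi
      · positivity
      · rw [div_le_iff₀ hMr]
        nlinarith
      · rw [div_le_div_iff_of_pos_right hMr]
        push_cast
        nlinarith
    · have e : Real.cos (2 * Real.pi * k / M) = Real.cos (2 * Real.pi * (M - k) / M) := by
        rw [← Real.cos_two_pi_sub]
        congr 1
        field_simp
      rw [e]
      have h3 : (k : ℝ) + 1 ≤ M := by exact_mod_cast hk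
      have h4 : (M : ℝ) ≤ 2 * k := by exact_mod_cast (by omega : M ≤ 2 * k)
      apply Real.cos_le_cos_of_nonneg_of_le_pi
      · positivity
      · rw [div_le_iff₀ hMr]
        nlinarith
      · rw [div_le_div_iff_of_pos_right hMr]
        push_cast
        nlinarith
  have h5 : Complex.normSq (1 - ow M) ≤ Complex.normSq (1 - u) := by
    rw [h1, h2]
    linarith
  rw [Complex.normSq_eq_norm_sq, Complex.normSq_eq_norm_sq] at h5
  exact le_of_sq_le_sq h5 (norm_nonneg _) |>.trans le_rfl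

end

end Pool.Agent.H481.SG
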