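import Pool.Agent.H481.SG3
import Pool.Agent.H481.IN2
import Pool.Agent.H481.SB11

/-!
The law on the grid, and the impossibility of a larger separation.
-/

open Finset MeasureTheory

namespace Pool.Agent.H481.SG

open Pool.Agent.R319.UM

noncomputable section

variable {N : ℕ}

/-! ### the law on the grid -/

/-- the weights -/
def gw (N M : ℕ) (k : Fin N → Fin M) : ℝ := V2 (gz M k) / (N.factorial * (M : ℝ) ^ N)

lemma gw_nonneg (M : ℕ) (k : Fin N → Fin M) : 0 ≤ gw N M k := by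
  unfold gw V2
  positivity

/-- the law on the grid -/
def glaw (N M : ℕ) : Measure (Fin N → ℂ) := IN.fl (gw N M) (gz M)

lemma gmean_eq (M : ℕ) (f : (Fin N → ℂ) → ℂ) :
    gmean M f = ∑ k : Fin N → Fin M, (gw N M k : ℂ) * f (gz M k) := by
  unfold gmean gw
  rw [Finset.mul_sum]
  refine Finset.sum_congr rfl fun k _ => ?_
  push_cast
  rw [div_eq_mul_inv]
  ring

lemma gw_sum (hN : 0 < N) {M : ℕ} (hM : N ≤ M) : ∑ k : Fin N → Fin M, gw N M k = 1 := by
  have h := cue_eq_gmean hN (R := 0) (by omega : N + 0 ≤ M) 1 1 (by simp) (by simp)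
  have h2 := SB.cue_one hN
  have hNf : (N.factorial : ℂ) ≠ 0 := by exact_mod_cast N.factorial_ne_zero
  have h3 : cue (N := N) (fun z => MvPolynomial.eval z (1 : MvPolynomial (Fin N) ℂ) *
      (starRingEnd ℂ) (MvPolynomial.eval z (1 : MvPolynomial (Fin N) ℂ))) = 1 := by
    apply mul_left_cancel₀ hNf
    rw [h2, mul_one]
  rw [h3, gmean_eq] at h
  simp only [map_one, mul_one] at h
  exact_mod_cast h.symm

lemma glaw_prob (hN : 0 < N) {M : ℕ} (hM : N ≤ M) : IsProbabilityMeasure (glaw N M) :=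
  IN.fl_prob (gw_nonneg M) (gw_sum hN hM)

lemma glaw_mom (hN : 0 < N) {M R : ℕ} (hM : N + R ≤ M) (F G : MvPolynomial (Fin N) ℂ)
    (hF : F.totalDegree ≤ R) (hG : G.totalDegree ≤ R) :
    ∫ z, MvPolynomial.eval z F * (starRingEnd ℂ) (MvPolynomial.eval z G) ∂(glaw N M) =
      cue (fun z => MvPolynomial.eval z F * (starRingEnd ℂ) (MvPolynomial.eval z G)) := by
  rw [cue_eq_gmean hN hM F G hF hG, gmean_eq]
  unfold glaw
  rw [IN.fl_int (gw_nonneg M)]
  exact Finset.sum_congr rfl fun k _ => Complex.real_smul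

lemma glaw_unit (M : ℕ) : ∀ᵐ z ∂(glaw N M), ∀ i, ‖z i‖ = 1 :=
  IN.fl_ae fun k _ i => gz_unit' M k i

lemma dist_eq {z : Fin N → ℂ} (h1 : ∀ i, ‖z i‖ = 1) (i j : Fin N) :
    ‖z i - z j‖ = ‖1 - z j * (z i)⁻¹‖ := by
  have a1 := ne_of_unit (h1 i)
  have h4 : z i - z j = z i * (1 - z j * (z i)⁻¹) := by
    field_simp
  rw [h4, norm_mul, h1 i, one_mul]

lemma glaw_sep {M : ℕ} (hM : 0 < M) :
    ∀ᵐ z ∂(glaw N M), ∀ i j, i ≠ j → ‖1 - ow M‖ ≤ ‖z i - z j‖ := by
  refine IN.fl_ae fun k hk i j hij => ?_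
  have hinj : Function.Injective (gz M k) := by
    by_contra h
    apply hk
    unfold gw
    rw [V2_zero h, zero_div]
  have h1 := gz_unit' M k
  rw [dist_eq h1]
  have a1 := ne_of_unit (h1 i)
  apply root_dist' hM
  · rw [mul_pow, inv_pow, gz_pow' hM, gz_pow' hM, inv_one, mul_one]
  · intro h
    rw [mul_inv_eq_one₀ a1] at h
    exact hij (hinj h).symm

/-! ### chords -/

/-- the chord of the angle `x` -/
def ch (x : ℝ) : ℝ := ‖1 - Complex.exp (Complex.I * x)‖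

lemma ch_sq (x : ℝ) : ch x ^ 2 = 2 - 2 * Real.cos x := by
  unfold ch
  have e : Complex.exp (Complex.I * x) = Complex.exp ((x : ℝ) * Complex.I) := by
    rw [mul_comm]
  rw [← Complex.normSq_eq_norm_sq, Complex.normSq_sub, Complex.normSq_eq_norm_sq,
    Complex.normSq_eq_norm_sq, e, Complex.norm_exp_ofReal_mul_I]
  have : ((1 : ℂ) * (starRingEnd ℂ) (Complex.exp ((x : ℝ) * Complex.I))).re = Real.cos x := by
    rw [one_mul, Complex.conj_re, Complex.exp_ofReal_mul_I_re]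
  rw [this]
  norm_num

lemma ch_nonneg (x : ℝ) : 0 ≤ ch x := norm_nonneg _

lemma ch_mono {x y : ℝ} (hx : 0 ≤ x) (hxy : x ≤ y) (hy : y ≤ Real.pi) : ch x ≤ ch y := by
  refine le_of_sq_le_sq ?_ (ch_nonneg y)
  rw [ch_sq, ch_sq]
  have := Real.cos_le_cos_of_nonneg_of_le_pi hx hy hxy
  linarith

lemma ch_strict {x y : ℝ} (hx : 0 ≤ x) (hxy : x < y) (hy : y ≤ Real.pi) : ch x < ch y := by
  refine lt_of_pow_lt_pow_left₀ 2 (ch_nonneg y) ?_
  rw [ch_sq, ch_sq]
  have := Real.cos_lt_cos_of_nonneg_of_le_pi hx hy hxy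
  linarith

lemma ow_ch (M : ℕ) : ‖1 - ow M‖ = ch (2 * Real.pi / M) := by
  have h := ns_pow M 1
  rw [pow_one, Complex.normSq_eq_norm_sq] at h
  have h2 := ch_sq (2 * Real.pi / M)
  have h3 : 2 * Real.pi * (1 : ℕ) / M = 2 * Real.pi / M := by push_cast; ring
  rw [h3, ← h2] at h
  exact (pow_left_inj₀ (norm_nonneg _) (ch_nonneg _) two_ne_zero).1 h

/-- a root of unity at distance more than the least one -/
lemma root_dist2 {M : ℕ} (hM : 3 ≤ M) {u : ℂ} (hu : u ^ M = 1) (hu1 : ‖1 - ow M‖ < ‖1 - u‖) :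
    ‖1 - ow (M - 1)‖ ≤ ‖1 - u‖ := by
  have hMr : (3 : ℝ) ≤ M := by exact_mod_cast hM
  have hM0 : (0 : ℝ) < M := by linarith
  have : NeZero M := ⟨by omega⟩
  obtain ⟨k, hk, hku⟩ := (ow_prim (M := M) (by omega)).eq_pow_of_pow_eq_one hu
  have hpi := Real.pi_pos
  have h2 := ns_pow M k
  rw [hku, Complex.normSq_eq_norm_sq] at h2
  have h1 := ns_pow M 1
  rw [pow_one, Complex.normSq_eq_norm_sq] at h1
  have hcast : ((M - 1 : ℕ) : ℝ) = M - 1 := by
    rw [Nat.cast_sub (by omega)]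
    push_cast
    ring
  rw [ow_ch]
  refine le_of_sq_le_sq ?_ (norm_nonneg _)
  rw [ch_sq, h2, hcast]
  have hlt : ‖1 - ow M‖ ^ 2 < ‖1 - u‖ ^ 2 := pow_lt_pow_left₀ hu1 (norm_nonneg _) two_ne_zero
  rw [h1, h2] at hlt
  -- the exponent is neither `0`, `1` nor `M - 1`
  have hk0 : k ≠ 0 := by
    rintro rfl
    rw [Nat.cast_zero, mul_zero, zero_div, Real.cos_zero] at hlt
    have := Real.cos_le_one (2 * Real.pi * ((1 : ℕ) : ℝ) / M)
    linarith
  have hk1 : k ≠ 1 := by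
    rintro rfl
    exact lt_irrefl _ hlt
  have hk2 : k + 1 ≠ M := by
    intro h
    have h3 : (k : ℝ) = M - 1 := by
      have : (k : ℝ) + 1 = M := by exact_mod_cast h
      linarith
    have e : Real.cos (2 * Real.pi * k / M) = Real.cos (2 * Real.pi * (1 : ℕ) / M) := by
      rw [← Real.cos_two_pi_sub, h3]
      congr 1
      push_cast
      field_simp
      ring
    rw [e] at hlt
    exact lt_irrefl _ hlt
  have hkr : (2 : ℝ) ≤ k := by exact_mod_cast (by omega : 2 ≤ k)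
  have hkr2 : (k : ℝ) + 2 ≤ M := by exact_mod_cast (by omega : k + 2 ≤ M)
  have hM1 : (0 : ℝ) < M - 1 := by linarith
  have key : Real.cos (2 * Real.pi * k / M) ≤ Real.cos (2 * Real.pi / (M - 1)) := by
    by_cases hkN : 2 * (k : ℝ) ≤ M
    · apply Real.cos_le_cos_of_nonneg_of_le_pi
      · positivity
      · rw [div_le_iff₀ hM0]
        nlinarith
      · rw [div_le_div_iff₀ hM1 hM0]
        have : (M : ℝ) ≤ k * (M - 1) := by nlinarith
        nlinarith
    · have e : Real.cos (2 * Real.pi * k / M) = Real.cos (2 * Real.pi * (M - k) / M) := by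
        rw [← Real.cos_two_pi_sub]
        congr 1
        field_simp
      rw [e]
      apply Real.cos_le_cos_of_nonneg_of_le_pi
      · positivity
      · rw [div_le_iff₀ hM0]
        nlinarith
      · rw [div_le_div_iff₀ hM1 hM0]
        have : (M : ℝ) ≤ (M - k) * (M - 1) := by nlinarith
        nlinarith
  linarith

lemma mom_mono {R R' : ℕ} (h : R' ≤ R) {ν : Measure (Fin N → ℂ)} (hm : Moments N R ν) :
    Moments N R' ν := fun n hn => hm n (hn.trans h)

/-- **no larger separation** -/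
theorem no_sep (hN : 2 ≤ N) {R : ℕ} (hR : 1 ≤ R) {ν : Measure (Fin N → ℂ)}
    [IsProbabilityMeasure ν] (h1 : ∀ᵐ z ∂ν, ∀ i, ‖z i‖ = 1) (hm : Moments N R ν)
    {x : ℝ} (hx : 2 * Real.pi / ((N : ℝ) + R) < x) (hx2 : x ≤ Real.pi)
    (hsep : ∀ᵐ z ∂ν, ∀ i j, i ≠ j → ch x ≤ ‖z i - z j‖) : False := by
  have hpi := Real.pi_pos
  have hNr : (2 : ℝ) ≤ N := by exact_mod_cast hN
  have hRr : (1 : ℝ) ≤ R := by exact_mod_cast hR
  have hcast : ((N + R : ℕ) : ℝ) = (N : ℝ) + R := by push_cast; rfl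
  have h0 : 0 ≤ 2 * Real.pi / ((N : ℝ) + R) := by positivity
  have hlt : ‖1 - ow (N + R)‖ < ch x := by
    rw [ow_ch, hcast]
    exact ch_strict h0 hx hx2
  have hxpos : 0 < ch x := lt_of_le_of_lt (norm_nonneg _) hlt
  have hs1 : ∀ᵐ z ∂ν, ∀ i j, i ≠ j → ‖1 - ow (N + R)‖ ≤ ‖z i - z j‖ := by
    filter_upwards [hsep] with z hz i j hij
    exact hlt.le.trans (hz i j hij)
  have hl1 := rigid (by omega) (by omega) h1 hm hs1
  obtain ⟨r, rfl⟩ : ∃ r, R = r + 1 := ⟨R - 1, by omega⟩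
  have hs2 : ∀ᵐ z ∂ν, ∀ i j, i ≠ j → ‖1 - ow (N + r)‖ ≤ ‖z i - z j‖ := by
    filter_upwards [hsep, hl1, h1] with z hz hl hz1 i j hij
    have h2 := hz i j hij
    rw [dist_eq hz1] at h2 ⊢
    have a1 := ne_of_unit (hz1 i)
    have hu : (z j * (z i)⁻¹) ^ (N + (r + 1)) = 1 := by
      rw [mul_pow, inv_pow, hl j i, mul_inv_cancel₀ (pow_ne_zero _ a1)]
    have h3 := root_dist2 (M := N + (r + 1)) (by omega) hu (lt_of_lt_of_le hlt h2)
    exact h3
  have hl2 := rigid (R := r) (by omega) (by omega) h1 (mom_mono (by omega) hm) hs2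
  have hfalse : ∀ᵐ z ∂ν, False := by
    filter_upwards [hsep, hl1, hl2, h1] with z hz hl hl' hz1
    have hij : (⟨0, by omega⟩ : Fin N) ≠ ⟨1, by omega⟩ := by
      intro h
      have := congrArg Fin.val h
      simp at this
    have h2 := hz _ _ hij
    set a := z ⟨0, by omega⟩ with ha
    set b := z ⟨1, by omega⟩ with hb
    have h3 : a ^ (N + (r + 1)) = b ^ (N + (r + 1)) := hl _ _
    have h4 : a ^ (N + r) = b ^ (N + r) := hl' _ _
    have hb0 : b ^ (N + r) ≠ 0 := pow_ne_zero _ (ne_of_unit (hz1 _))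
    have h5 : a = b := by
      have e1 : a ^ (N + (r + 1)) = a ^ (N + r) * a := by ring
      have e2 : b ^ (N + (r + 1)) = b ^ (N + r) * b := by ring
      rw [e1, e2, h4] at h3
      exact mul_left_cancel₀ hb0 h3
    rw [h5, sub_self, norm_zero] at h2
    linarith
  exact absurd (Filter.Eventually.exists hfalse) (by simp)

end

end Pool.Agent.H481.SG
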