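import Pool.Agent.H481.SG4

/-!
Coincidences of points on a rotated grid, and the extreme value of the form factor.
-/

open Finset MeasureTheory

namespace Pool.Agent.H481.SG

open Pool.Agent.R319.UM

noncomputable section

variable {N : ℕ}

/-- counts the coincidences on a grid -/
def Psi (R : ℕ) (z : Fin N → ℂ) : ℂ :=
  (∑ k ∈ range (R + 1), UU z k + ∑ k ∈ Ico 1 N, UU z k) - (((N + R : ℕ) : ℂ) / N) * UU z 0

lemma UU_symm' {M : ℕ} {z : Fin N → ℂ} (h1 : ∀ i, ‖z i‖ = 1)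
    (hl : ∀ i j, z i ^ M = z j ^ M) {k : ℕ} (hk : k ≤ M) :
    UU z (M - k) = UU z k := by
  rw [UU_eq, UU_eq, Finset.sum_comm]
  refine Finset.sum_congr rfl fun j _ => Finset.sum_congr rfl fun i _ => ?_
  have a1 := ne_of_unit (h1 i)
  have a2 := ne_of_unit (h1 j)
  rw [conj_unit (h1 j), conj_unit (h1 i)]
  have h2 : (z i * (z j)⁻¹) ^ (M - k) * (z i * (z j)⁻¹) ^ k = 1 := by
    rw [← pow_add, Nat.sub_add_cancel hk, mul_pow, inv_pow, hl i j,
      mul_inv_cancel₀ (pow_ne_zero _ a2)]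
  have h3 : (z j * (z i)⁻¹) ^ k * (z i * (z j)⁻¹) ^ k = 1 := by
    rw [← mul_pow]
    have : z j * (z i)⁻¹ * (z i * (z j)⁻¹) = 1 := by field_simp
    rw [this, one_pow]
  have h4 : (z i * (z j)⁻¹) ^ k ≠ 0 := pow_ne_zero _ (mul_ne_zero a1 (inv_ne_zero a2))
  exact mul_right_cancel₀ h4 (h2.trans h3.symm)

lemma Psi_lat' (hN : 0 < N) {R : ℕ} (hR : 1 ≤ R) {z : Fin N → ℂ} (h1 : ∀ i, ‖z i‖ = 1)
    (hl : ∀ i j, z i ^ (N + R) = z j ^ (N + R)) :
    Psi R z = ((N + R : ℕ) : ℂ) * (∑ i, ∑ j, if z i = z j then (1 : ℂ) else 0) -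
      ((N + R : ℕ) : ℂ) * N := by
  have hNc : (N : ℂ) ≠ 0 := by exact_mod_cast hN.ne'
  have e1 : ∑ k ∈ range (N + R), UU z k =
      ((N + R : ℕ) : ℂ) * (∑ i, ∑ j, if z i = z j then (1 : ℂ) else 0) := by
    simp only [UU_eq]
    rw [Finset.sum_comm, Finset.mul_sum]
    refine Finset.sum_congr rfl fun i _ => ?_
    rw [Finset.sum_comm, Finset.mul_sum]
    refine Finset.sum_congr rfl fun j _ => ?_
    have a2 := ne_of_unit (h1 j)
    rw [conj_unit (h1 j)]
    set u := z i * (z j)⁻¹ with hu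
    have hu1 : u ^ (N + R) = 1 := by
      rw [hu, mul_pow, inv_pow, hl i j, mul_inv_cancel₀ (pow_ne_zero _ a2)]
    split_ifs with h
    · have : u = 1 := by rw [hu, h, mul_inv_cancel₀ a2]
      rw [this]
      simp
    · have hne : u ≠ 1 := by
        intro h3
        apply h
        rw [hu, mul_inv_eq_one₀ a2] at h3
        exact h3
      have := geom_sum_mul u (N + R)
      rw [hu1, sub_self] at this
      rw [(mul_eq_zero.1 this).resolve_right (sub_ne_zero.2 hne), mul_zero]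
  have e2 : ∑ k ∈ range (N + R), UU z k =
      ∑ k ∈ range (R + 1), UU z k + ∑ k ∈ Ico 1 N, UU z k := by
    rw [← Finset.sum_range_add_sum_Ico _ (show R + 1 ≤ N + R by omega)]
    congr 1
    have h2 := Finset.sum_Ico_reflect (fun k => UU z k) 1 (m := N) (n := N + R) (by omega)
    have e3 : N + R + 1 - N = R + 1 := by omega
    have e4 : N + R + 1 - 1 = N + R := by omega
    rw [e3, e4] at h2
    rw [← h2]
    refine Finset.sum_congr rfl fun k hk => ?_
    exact UU_symm' h1 hl (by have := (Finset.mem_Ico.1 hk).2; omega)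
  unfold Psi
  rw [← e2, e1]
  have : UU z 0 = (N : ℂ) ^ 2 := by
    rw [UU_eq]
    simp
    ring
  rw [this]
  field_simp

/-- on a grid the functional is nonnegative, and it vanishes only if the points are different -/
lemma Psi_count' (hN : 0 < N) {R : ℕ} (hR : 1 ≤ R) {z : Fin N → ℂ} (h1 : ∀ i, ‖z i‖ = 1)
    (hl : ∀ i j, z i ^ (N + R) = z j ^ (N + R)) :
    ∃ r : ℝ, 0 ≤ r ∧ Psi R z = r ∧ (r = 0 ↔ Function.Injective z) := by
  have hNr : (0 : ℝ) < N := by exact_mod_cast hN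
  have hMr : (0 : ℝ) < ((N + R : ℕ) : ℝ) := by exact_mod_cast (by omega : 0 < N + R)
  set c : ℝ := ∑ i, ∑ j, if z i = z j then (1 : ℝ) else 0 with hc
  have hrow : ∀ i, 1 ≤ ∑ j, if z i = z j then (1 : ℝ) else 0 := by
    intro i
    have := Finset.single_le_sum (f := fun j => if z i = z j then (1 : ℝ) else 0)
      (fun j _ => by split_ifs <;> norm_num) (Finset.mem_univ i)
    simpa using this
  have hcN : (N : ℝ) ≤ c := by
    have h3 := Finset.sum_le_sum (s := univ) fun i (_ : i ∈ univ) => hrow i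
    have h4 : ∑ _i : Fin N, (1 : ℝ) = N := by simp
    rw [h4] at h3
    exact h3
  refine ⟨((N + R : ℕ) : ℝ) * (c - N), mul_nonneg hMr.le (by linarith), ?_, ?_⟩
  · rw [Psi_lat' hN hR h1 hl]
    have : (∑ i, ∑ j, if z i = z j then (1 : ℂ) else 0) = (c : ℂ) := by
      rw [hc]
      push_cast
      refine Finset.sum_congr rfl fun i _ => Finset.sum_congr rfl fun j _ => ?_
      split_ifs <;> simp
    rw [this]
    push_cast
    ring
  · constructor
    · intro h i j hij
      by_contra hne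
      have hcN' : c = N := by
        rcases mul_eq_zero.1 h with h2 | h2
        · exact absurd h2 hMr.ne'
        · linarith
      have hlt : (N : ℝ) < c := by
        have h3 : ∑ i : Fin N, (1 : ℝ) < ∑ i, ∑ j, if z i = z j then (1 : ℝ) else 0 := by
          refine Finset.sum_lt_sum (fun i _ => hrow i) ⟨i, Finset.mem_univ i, ?_⟩
          have h4 : ∑ k ∈ ({i, j} : Finset (Fin N)), (if z i = z k then (1 : ℝ) else 0) ≤
              ∑ k, if z i = z k then (1 : ℝ) else 0 :=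
            Finset.sum_le_sum_of_subset_of_nonneg (Finset.subset_univ _)
              (fun k _ _ => by split_ifs <;> norm_num)
          rw [Finset.sum_pair hne, if_pos rfl, if_pos hij] at h4
          linarith
        have h4 : ∑ _i : Fin N, (1 : ℝ) = N := by simp
        rw [h4] at h3
        exact h3
      linarith
    · intro hinj
      have : c = N := by
        rw [hc]
        have : ∀ i, (∑ j, if z i = z j then (1 : ℝ) else 0) = 1 := by
          intro i
          rw [Finset.sum_eq_single i]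
          · simp
          · intro j _ hj
            rw [if_neg fun h => hj (hinj h).symm]
          · intro h
            exact absurd (Finset.mem_univ i) h
        simp [this]
      rw [this]
      ring

lemma Psi_gmean (hN : 0 < N) {R : ℕ} (hR : 1 ≤ R) : gmean (N := N) (N + R) (Psi R) = 0 := by
  unfold gmean
  rw [Finset.sum_eq_zero, mul_zero]
  intro k _
  by_cases h : Function.Injective (gz (N + R) k)
  · obtain ⟨r, -, h2, h3⟩ := Psi_count' hN hR (gz_unit' _ k)
      (fun i j => by rw [gz_pow' (by omega), gz_pow' (by omega)])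
    rw [h2, h3.2 h]
    simp
  · rw [V2_zero h]
    simp

lemma gmean_add (M : ℕ) (f g : (Fin N → ℂ) → ℂ) :
    gmean M (fun z => f z + g z) = gmean M f + gmean M g := by
  unfold gmean
  simp only [add_mul]
  rw [Finset.sum_add_distrib]
  ring

lemma gmean_sub (M : ℕ) (f g : (Fin N → ℂ) → ℂ) :
    gmean M (fun z => f z - g z) = gmean M f - gmean M g := by
  unfold gmean
  simp only [sub_mul]
  rw [Finset.sum_sub_distrib]
  ring

lemma UU_mean' (hN : 0 < N) {R : ℕ} {ν : Measure (Fin N → ℂ)} (hm : Moments N R ν) {k : ℕ}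
    (hk : k ≤ R) : ∫ z, UU z k ∂ν = gmean (N + R) (fun z : Fin N → ℂ => UU z k) := by
  unfold UU
  exact mom_gmean hN hm hk (MvPolynomial.psum_isSymmetric _ _ _)
    (MvPolynomial.psum_isSymmetric _ _ _) (psum_hom k) (psum_hom k)

lemma Psi_int' (R : ℕ) {ν : Measure (Fin N → ℂ)} [IsProbabilityMeasure ν]
    (h1 : ∀ᵐ z ∂ν, ∀ i, ‖z i‖ = 1) : Integrable (Psi (N := N) R) ν := by
  unfold Psi UU
  refine ((integrable_finset_sum _ fun k _ => poly_int h1 _ _).add
    (integrable_finset_sum _ fun k _ => poly_int h1 _ _)).sub ?_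
  exact (poly_int h1 _ _).const_mul _

lemma Psi_mean' (hN : 0 < N) {R : ℕ} (hR : 1 ≤ R) (hRN : N ≤ R + 1) {ν : Measure (Fin N → ℂ)}
    [IsProbabilityMeasure ν]
    (h1 : ∀ᵐ z ∂ν, ∀ i, ‖z i‖ = 1) (hm : Moments N R ν) : ∫ z, Psi R z ∂ν = 0 := by
  have hU : ∀ k, Integrable (fun z : Fin N → ℂ => UU z k) ν := fun k => poly_int h1 _ _
  rw [← Psi_gmean hN hR]
  unfold Psi
  have hs : ∀ s : Finset ℕ, Integrable (fun z : Fin N → ℂ => ∑ k ∈ s, UU z k) ν :=
    fun s => integrable_finset_sum _ fun k _ => hU k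
  have ha : Integrable (fun z : Fin N → ℂ =>
      ∑ k ∈ range (R + 1), UU z k + ∑ k ∈ Ico 1 N, UU z k) ν := (hs _).add (hs _)
  rw [integral_sub ha ((hU 0).const_mul _),
    integral_add (hs _) (hs _), integral_finset_sum _ fun k _ => hU k,
    integral_finset_sum _ fun k _ => hU k, integral_const_mul, gmean_sub, gmean_add, gmean_sum,
    gmean_sum, gmean_mul, UU_mean' hN hm (Nat.zero_le R)]
  congr 2
  · refine Finset.sum_congr rfl fun k hk => UU_mean' hN hm ?_
    rw [Finset.mem_range] at hk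
    omega
  · refine Finset.sum_congr rfl fun k hk => UU_mean' hN hm ?_
    rw [Finset.mem_Ico] at hk
    omega

/-- distinct points of a rotated grid are separated -/
lemma lat_sep {M : ℕ} (hM : 0 < M) {z : Fin N → ℂ} (h1 : ∀ i, ‖z i‖ = 1)
    (hl : ∀ i j, z i ^ M = z j ^ M) (hinj : Function.Injective z) :
    ∀ i j, i ≠ j → ‖1 - ow M‖ ≤ ‖z i - z j‖ := by
  intro i j hij
  have a1 := ne_of_unit (h1 i)
  rw [dist_eq h1]
  apply root_dist' hM
  · rw [mul_pow, inv_pow, hl j i, mul_inv_cancel₀ (pow_ne_zero _ a1)]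
  · intro h
    rw [mul_inv_eq_one₀ a1] at h
    exact hij (hinj h).symm

/-- for `R ≥ N - 1` points on a grid are distinct -/
theorem lat_inj (hN : 0 < N) {R : ℕ} (hR : 1 ≤ R) (hRN : N ≤ R + 1) {ν : Measure (Fin N → ℂ)}
    [IsProbabilityMeasure ν] (h1 : ∀ᵐ z ∂ν, ∀ i, ‖z i‖ = 1) (hm : Moments N R ν)
    (hlat : ∀ᵐ z ∂ν, ∀ i j, z i ^ (N + R) = z j ^ (N + R)) :
    ∀ᵐ z ∂ν, Function.Injective z := by
  have h0 : ∀ᵐ z ∂ν, ∃ r : ℝ, 0 ≤ r ∧ Psi R z = r := by
    filter_upwards [h1, hlat] with z hz1 hz2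
    obtain ⟨r, hr, hr2, -⟩ := Psi_count' hN hR hz1 hz2
    exact ⟨r, hr, hr2⟩
  have hz := ae_zero (Psi_int' R h1) h0 (Psi_mean' hN hR hRN h1 hm)
  filter_upwards [hz, h1, hlat] with z hz0 hz1 hz2
  obtain ⟨r, hr, hr2, hr3⟩ := Psi_count' hN hR hz1 hz2
  have hr0 : r = 0 := by
    rw [hr2] at hz0
    exact_mod_cast hz0
  exact hr3.1 hr0

theorem lat_iff_mom' (M : ℕ) {ν : Measure (Fin N → ℂ)} [IsProbabilityMeasure ν]
    (h1 : ∀ᵐ z ∂ν, ∀ i, ‖z i‖ = 1) :
    (∀ᵐ z ∂ν, ∀ i j, z i ^ M = z j ^ M) ↔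
      ∫ z, ‖∑ j, z j ^ M‖ ^ 2 ∂ν = (N : ℝ) ^ 2 := by
  set f : (Fin N → ℂ) → ℝ := fun z => ‖∑ j, z j ^ M‖ ^ 2 with hf
  have hfi : Integrable f ν := by
    refine Integrable.of_bound (C := (N : ℝ) ^ 2) ?_ ?_
    · exact (by fun_prop : Continuous f).aestronglyMeasurable
    · filter_upwards [h1] with z hz
      rw [Real.norm_eq_abs, abs_of_nonneg (sq_nonneg _)]
      refine pow_le_pow_left₀ (norm_nonneg _) ?_ 2
      refine (norm_sum_le _ _).trans ?_
      have : ∀ j, ‖z j ^ M‖ = 1 := fun j => by rw [norm_pow, hz, one_pow]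
      simp [this]
  have hid : ∀ z : Fin N → ℂ, (∀ i, ‖z i‖ = 1) →
      ∑ i, ∑ j, ‖z i ^ M - z j ^ M‖ ^ 2 = 2 * ((N : ℝ) ^ 2 - f z) := by
    intro z hz
    exact sq_ident (u := fun i => z i ^ M) fun i => by rw [norm_pow, hz, one_pow]
  have hnn : 0 ≤ᵐ[ν] fun z => (N : ℝ) ^ 2 - f z := by
    filter_upwards [h1] with z hz
    have h2 := hid z hz
    have h3 : 0 ≤ ∑ i, ∑ j, ‖z i ^ M - z j ^ M‖ ^ 2 :=
      Finset.sum_nonneg fun i _ => Finset.sum_nonneg fun j _ => sq_nonneg _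
    show (0 : ℝ) ≤ (N : ℝ) ^ 2 - f z
    linarith
  have hint : ∫ z, ((N : ℝ) ^ 2 - f z) ∂ν = (N : ℝ) ^ 2 - ∫ z, f z ∂ν := by
    rw [integral_sub (integrable_const _) hfi]
    simp
  have key : (∫ z, f z ∂ν = (N : ℝ) ^ 2) ↔ (fun z => (N : ℝ) ^ 2 - f z) =ᵐ[ν] 0 := by
    rw [← integral_eq_zero_iff_of_nonneg_ae hnn ((integrable_const _).sub hfi), hint]
    constructor <;> intro h <;> linarith
  rw [key]
  constructor
  · intro h
    filter_upwards [h, h1] with z hz hz1
    have h2 := hid z hz1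
    have h3 : ∑ i, ∑ j, ‖z i ^ M - z j ^ M‖ ^ 2 = 0 :=
      Finset.sum_eq_zero fun i _ => Finset.sum_eq_zero fun j _ => by
        rw [hz i j, sub_self, norm_zero]
        norm_num
    show (N : ℝ) ^ 2 - f z = 0
    linarith
  · intro h
    filter_upwards [h, h1] with z hz hz1 i j
    have h2 := hid z hz1
    have h3 : (N : ℝ) ^ 2 - f z = 0 := hz
    rw [h3, mul_zero] at h2
    have h4 := (Finset.sum_eq_zero_iff_of_nonneg fun i _ =>
      Finset.sum_nonneg fun j _ => sq_nonneg _).1 h2 i (Finset.mem_univ i)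
    have h5 := (Finset.sum_eq_zero_iff_of_nonneg fun j _ => sq_nonneg _).1 h4 j
      (Finset.mem_univ j)
    have h6 : ‖z i ^ M - z j ^ M‖ = 0 := by
      rwa [sq_eq_zero_iff] at h5
    exact sub_eq_zero.1 (norm_eq_zero.1 h6)

end

end Pool.Agent.H481.SG
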