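import Pool.Agent.H481.FF4

/-!
The moments of the characteristic polynomial: expansion, the range of the moments.
-/

open MvPolynomial Finset MeasureTheory
open Pool.Agent.R319.UM

namespace Pool.Agent.H481.TM

noncomputable section

variable {N : ℕ}

/-- the rotation averaged moment of the characteristic polynomial -/
def cm (k : ℕ) (z : Fin N → ℂ) : ℝ :=
  (2 * Real.pi)⁻¹ * ∫ θ in Set.Ioc (0 : ℝ) (2 * Real.pi),
    ‖∏ j, (Complex.exp (Complex.I * θ) - z j)‖ ^ (2 * k)

/-- the coefficients -/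
def ca (k : ℕ) (a : Fin N → Fin (k + 1)) : ℂ := ∏ j, ((-1 : ℂ) ^ (a j : ℕ) * (k.choose (a j) : ℂ))

/-- the exponents as a function to `ℕ` -/
def va {k : ℕ} (a : Fin N → Fin (k + 1)) : Fin N → ℕ := fun j => a j

lemma prod_pow_expand (k : ℕ) (z : Fin N → ℂ) (w : ℂ) :
    (∏ j, (w - z j)) ^ k = ∑ a : Fin N → Fin (k + 1),
      ca k a * (∏ j, z j ^ (a j : ℕ)) * w ^ (∑ j, (k - (a j : ℕ))) := by
  classical
  rw [← Finset.prod_pow]
  have h : ∀ j, (w - z j) ^ k = ∑ i : Fin (k + 1),
      ((-1 : ℂ) ^ (i : ℕ) * (k.choose i : ℂ)) * z j ^ (i : ℕ) * w ^ (k - (i : ℕ)) := by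
    intro j
    rw [sub_eq_add_neg, add_comm, add_pow, Finset.sum_range]
    refine Finset.sum_congr rfl fun i _ => ?_
    rw [neg_pow]
    ring
  simp only [h]
  rw [Finset.prod_univ_sum, Fintype.piFinset_univ]
  refine Finset.sum_congr rfl fun a _ => ?_
  rw [Finset.prod_mul_distrib, Finset.prod_mul_distrib, Finset.prod_pow_eq_pow_sum]
  rfl

/-- the moment as a combination of monomials -/
theorem cm_expand (k : ℕ) (z : Fin N → ℂ) :
    (cm k z : ℂ) = ∑ a : Fin N → Fin (k + 1), ∑ b : Fin N → Fin (k + 1),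
      (if ∑ j, (a j : ℕ) = ∑ j, (b j : ℕ) then ca k a * (starRingEnd ℂ) (ca k b) else 0) *
        mon (va a) (va b) z := by
  unfold cm
  have e1 : ∀ θ : ℝ, ((‖∏ j, (Complex.exp (Complex.I * θ) - z j)‖ ^ (2 * k) : ℝ) : ℂ) =
      ∑ a : Fin N → Fin (k + 1), ∑ b : Fin N → Fin (k + 1),
        (ca k a * (starRingEnd ℂ) (ca k b) * mon (va a) (va b) z) *
        (Complex.exp (Complex.I * θ) ^ (∑ j, (k - (a j : ℕ))) *
          (starRingEnd ℂ) (Complex.exp (Complex.I * θ) ^ (∑ j, (k - (b j : ℕ))))) := by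
    intro θ
    rw [pow_mul', ← norm_pow, ← Complex.normSq_eq_norm_sq, ← Complex.mul_conj, prod_pow_expand,
      map_sum, Finset.sum_mul_sum]
    refine Finset.sum_congr rfl fun a _ => Finset.sum_congr rfl fun b _ => ?_
    unfold mon va
    rw [map_mul, map_mul, map_prod, Finset.prod_mul_distrib]
    ring
  rw [Complex.ofReal_mul, ← integral_complex_ofReal]
  simp only [e1]
  have hint : ∀ m n : ℕ, Integrable (fun θ : ℝ => Complex.exp (Complex.I * θ) ^ m *
      (starRingEnd ℂ) (Complex.exp (Complex.I * θ) ^ n))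
      (volume.restrict (Set.Ioc (0 : ℝ) (2 * Real.pi))) := by
    intro m n
    have hc : Continuous fun θ : ℝ => Complex.exp (Complex.I * θ) ^ m *
      (starRingEnd ℂ) (Complex.exp (Complex.I * θ) ^ n) := by
      have h : Continuous fun θ : ℝ => Complex.exp (Complex.I * (θ : ℂ)) := by fun_prop
      exact (h.pow m).mul (Complex.continuous_conj.comp (h.pow n))
    exact (hc.continuousOn.integrableOn_compact isCompact_Icc).mono_set Set.Ioc_subset_Icc_self
  rw [integral_finsetSum _ fun a _ => integrable_finsetSum _ fun b _ => (hint _ _).const_mul _,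
    Finset.mul_sum]
  refine Finset.sum_congr rfl fun a _ => ?_
  rw [integral_finsetSum _ fun b _ => (hint _ _).const_mul _, Finset.mul_sum]
  refine Finset.sum_congr rfl fun b _ => ?_
  rw [integral_const_mul, one_dim]
  have hab : (∑ j, (k - (a j : ℕ)) = ∑ j, (k - (b j : ℕ))) ↔
      (∑ j, (a j : ℕ) = ∑ j, (b j : ℕ)) := by
    have h : ∀ c : Fin N → Fin (k + 1), ∑ j, (k - (c j : ℕ)) + ∑ j, (c j : ℕ) = N * k := by
      intro c
      rw [← Finset.sum_add_distrib]
      have : ∀ j ∈ (univ : Finset (Fin N)), k - (c j : ℕ) + (c j : ℕ) = k := fun j _ => by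
        have := (c j).is_lt
        omega
      rw [Finset.sum_congr rfl this]
      simp
    have h1 := h a
    have h2 := h b
    omega
  simp only [hab]
  have hpi : (2 * Real.pi : ℂ) ≠ 0 := by
    have := Real.pi_ne_zero
    exact_mod_cast (by positivity : (2 * Real.pi : ℝ) ≠ 0)
  by_cases h : ∑ j, (a j : ℕ) = ∑ j, (b j : ℕ)
  · rw [if_pos h, if_pos h]
    push_cast
    field_simp
  · rw [if_neg h, if_neg h]
    simp

lemma mon_reduce {z : Fin N → ℂ} (h1 : ∀ i, ‖z i‖ = 1) (a b : Fin N → ℕ) :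
    mon a b z = mon (fun j => a j - b j) (fun j => b j - a j) z := by
  unfold mon
  refine Finset.prod_congr rfl fun j _ => ?_
  beta_reduce
  rcases le_total (a j) (b j) with h | h
  · rw [Nat.sub_eq_zero_of_le h, pow_zero, one_mul]
    obtain ⟨c, hc⟩ := Nat.exists_eq_add_of_le h
    rw [hc, Nat.add_sub_cancel_left, pow_add, map_mul, ← mul_assoc, SB.unit_pow (h1 j), one_mul]
  · rw [Nat.sub_eq_zero_of_le h, pow_zero, map_one, mul_one]
    obtain ⟨c, hc⟩ := Nat.exists_eq_add_of_le h
    rw [hc, Nat.add_sub_cancel_left, pow_add, mul_comm (z j ^ b j), mul_assoc,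
      SB.unit_pow (h1 j), mul_one]

/-- the monomial as a polynomial -/
def mX (a : Fin N → ℕ) : MvPolynomial (Fin N) ℂ := ∏ j, (X j) ^ a j

lemma mX_eval (a : Fin N → ℕ) (z : Fin N → ℂ) : eval z (mX a) = ∏ j, z j ^ a j := by
  unfold mX
  rw [map_prod]
  simp

lemma mX_deg (a : Fin N → ℕ) : (mX a).totalDegree ≤ ∑ j, a j := by
  unfold mX
  refine (totalDegree_finsetProd _ _).trans (Finset.sum_le_sum fun j _ => ?_)
  exact (totalDegree_X_pow j _).le

lemma mon_eval (a b : Fin N → ℕ) (z : Fin N → ℂ) :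
    mon a b z = eval z (mX a) * (starRingEnd ℂ) (eval z (mX b)) := by
  rw [mX_eval, mX_eval, map_prod, ← Finset.prod_mul_distrib]
  rfl

/-- the size of the reduced exponents -/
lemma diff_le {k : ℕ} {a b : Fin N → ℕ} (ha : ∀ j, a j ≤ k) (hb : ∀ j, b j ≤ k)
    (hab : ∑ j, a j = ∑ j, b j) :
    ∑ j, (a j - b j) ≤ k * (N / 2) ∧ ∑ j, (b j - a j) ≤ k * (N / 2) := by
  classical
  have he : ∑ j, (a j - b j) = ∑ j, (b j - a j) := by
    have h1 : ∑ j, (a j - b j) + ∑ j, b j = ∑ j, (b j - a j) + ∑ j, a j := by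
      rw [← Finset.sum_add_distrib, ← Finset.sum_add_distrib]
      exact Finset.sum_congr rfl fun j _ => by omega
    omega
  set P := univ.filter fun j => b j < a j with hP
  set Q := univ.filter fun j => a j < b j with hQ
  have hdis : Disjoint P Q := by
    rw [Finset.disjoint_left]
    intro j h1 h2
    rw [hP, Finset.mem_filter] at h1
    rw [hQ, Finset.mem_filter] at h2
    omega
  have hc : P.card + Q.card ≤ N := by
    rw [← Finset.card_union_of_disjoint hdis]
    refine (Finset.card_le_univ _).trans ?_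
    rw [Fintype.card_fin]
  have b1 : ∑ j, (a j - b j) ≤ P.card * k := by
    have e : ∑ j, (a j - b j) = ∑ j ∈ P, (a j - b j) := by
      rw [hP, Finset.sum_filter]
      refine Finset.sum_congr rfl fun j _ => ?_
      split_ifs with h
      · rfl
      · omega
    rw [e]
    refine (Finset.sum_le_card_nsmul _ _ k fun j _ => ?_).trans (by rw [smul_eq_mul])
    have := ha j
    omega
  have b2 : ∑ j, (b j - a j) ≤ Q.card * k := by
    have e : ∑ j, (b j - a j) = ∑ j ∈ Q, (b j - a j) := by
      rw [hQ, Finset.sum_filter]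
      refine Finset.sum_congr rfl fun j _ => ?_
      split_ifs with h
      · rfl
      · omega
    rw [e]
    refine (Finset.sum_le_card_nsmul _ _ k fun j _ => ?_).trans (by rw [smul_eq_mul])
    have := hb j
    omega
  have key : ∑ j, (a j - b j) ≤ k * (N / 2) := by
    rcases le_total P.card Q.card with h | h
    · have : P.card ≤ N / 2 := by omega
      calc _ ≤ P.card * k := b1
        _ ≤ (N / 2) * k := Nat.mul_le_mul_right k this
        _ = _ := mul_comm _ _
    · have : Q.card ≤ N / 2 := by omega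
      rw [he]
      calc _ ≤ Q.card * k := b2
        _ ≤ (N / 2) * k := Nat.mul_le_mul_right k this
        _ = _ := mul_comm _ _
  exact ⟨key, he ▸ key⟩

/-- `cue` is linear -/
lemma cue_lin {ι : Type*} (s : Finset ι) (c : ι → ℂ) (F G : ι → MvPolynomial (Fin N) ℂ) :
    cue (fun z => ∑ i ∈ s, c i * (eval z (F i) * (starRingEnd ℂ) (eval z (G i)))) =
      ∑ i ∈ s, c i * cue (fun z => eval z (F i) * (starRingEnd ℂ) (eval z (G i))) := by
  unfold cue
  have hez : Continuous (ez : (Fin N → ℝ) → Fin N → ℂ) := by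
    refine continuous_pi fun j => ?_
    unfold ez
    fun_prop
  have hcont : ∀ P : MvPolynomial (Fin N) ℂ, Continuous fun θ : Fin N → ℝ => eval (ez θ) P :=
    fun P => (MvPolynomial.continuous_eval P).comp hez
  have hV : Continuous fun θ : Fin N → ℝ => (V2 (ez θ) : ℂ) := by
    have e : (fun θ : Fin N → ℝ => (V2 (ez θ) : ℂ)) = fun θ => eval (ez θ) (VP N) *
        (starRingEnd ℂ) (eval (ez θ) (VP N)) := by
      funext θ
      rw [VP_eval]
    rw [e]
    exact (hcont _).mul (Complex.continuous_conj.comp (hcont _))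
  have hi : ∀ i ∈ s, Integrable (fun θ : Fin N → ℝ => c i * ((eval (ez θ) (F i) *
      (starRingEnd ℂ) (eval (ez θ) (G i))) * (V2 (ez θ) : ℂ))) (volume.restrict (box N)) := by
    intro i _
    exact int_box (continuous_const.mul
      (((hcont _).mul (Complex.continuous_conj.comp (hcont _))).mul hV))
  have e : ∀ θ : Fin N → ℝ, (∑ i ∈ s, c i * (eval (ez θ) (F i) *
      (starRingEnd ℂ) (eval (ez θ) (G i)))) * (V2 (ez θ) : ℂ) =
      ∑ i ∈ s, c i * ((eval (ez θ) (F i) *
      (starRingEnd ℂ) (eval (ez θ) (G i))) * (V2 (ez θ) : ℂ)) := by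
    intro θ
    rw [Finset.sum_mul]
    exact Finset.sum_congr rfl fun i _ => by ring
  simp only [e]
  rw [integral_finsetSum _ hi, Finset.mul_sum]
  refine Finset.sum_congr rfl fun i _ => ?_
  rw [integral_const_mul]
  ring

end

end Pool.Agent.H481.TM
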