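import Pool.Agent.H481.TM1

/-!
The moments of the characteristic polynomial: the range `k ⌊N/2⌋` is enough, and necessary.
-/

open MvPolynomial Finset MeasureTheory
open Pool.Agent.R319.UM

namespace Pool.Agent.H481.TM

noncomputable section

variable {N : ℕ}

/-- the coefficient of a pair of exponents -/
def cc {k : ℕ} (p : (Fin N → Fin (k + 1)) × (Fin N → Fin (k + 1))) : ℂ :=
  if ∑ j, (p.1 j : ℕ) = ∑ j, (p.2 j : ℕ) then ca k p.1 * (starRingEnd ℂ) (ca k p.2) else 0

lemma cm_pair (k : ℕ) (z : Fin N → ℂ) :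
    (cm k z : ℂ) = ∑ p : (Fin N → Fin (k + 1)) × (Fin N → Fin (k + 1)),
      cc p * mon (va p.1) (va p.2) z := by
  rw [cm_expand, Fintype.sum_prod_type]
  rfl

/-- the positive part of the difference of the exponents -/
def dp {k : ℕ} (a b : Fin N → Fin (k + 1)) : MvPolynomial (Fin N) ℂ :=
  mX (fun j => (a j : ℕ) - (b j : ℕ))

lemma cm_red (k : ℕ) {z : Fin N → ℂ} (h1 : ∀ i, ‖z i‖ = 1) :
    (cm k z : ℂ) = ∑ p : (Fin N → Fin (k + 1)) × (Fin N → Fin (k + 1)),
      cc p * (eval z (dp p.1 p.2) * (starRingEnd ℂ) (eval z (dp p.2 p.1))) := by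
  rw [cm_pair]
  refine Finset.sum_congr rfl fun p _ => ?_
  rw [mon_reduce h1, mon_eval]
  rfl

lemma cc_deg {k : ℕ} {p : (Fin N → Fin (k + 1)) × (Fin N → Fin (k + 1))} (h : cc p ≠ 0) :
    (dp p.1 p.2).totalDegree ≤ k * (N / 2) ∧ (dp p.2 p.1).totalDegree ≤ k * (N / 2) := by
  have hs : ∑ j, (p.1 j : ℕ) = ∑ j, (p.2 j : ℕ) := by
    by_contra hc
    exact h (if_neg hc)
  obtain ⟨h1, h2⟩ := diff_le (k := k) (a := fun j => (p.1 j : ℕ)) (b := fun j => (p.2 j : ℕ))
    (fun j => by have := (p.1 j).is_lt; omega) (fun j => by have := (p.2 j).is_lt; omega) hs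
  exact ⟨(mX_deg _).trans h1, (mX_deg _).trans h2⟩

lemma ez_unit (θ : Fin N → ℝ) (i : Fin N) : ‖ez θ i‖ = 1 := by
  unfold ez
  rw [mul_comm]
  exact Complex.norm_exp_ofReal_mul_I _

lemma cue_congr {f g : (Fin N → ℂ) → ℂ} (h : ∀ z : Fin N → ℂ, (∀ i, ‖z i‖ = 1) → f z = g z) :
    cue f = cue g := by
  unfold cue
  have : ∀ θ : Fin N → ℝ, f (ez θ) = g (ez θ) := fun θ => h _ (ez_unit θ)
  simp only [this]

variable {R : ℕ} {ν : Measure (Fin N → ℂ)}

/-- the range `k ⌊N/2⌋` determines the moment -/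
theorem determined {k : ℕ} (hR : k * (N / 2) ≤ R) [IsProbabilityMeasure ν]
    (h1 : ∀ᵐ z ∂ν, ∀ i, ‖z i‖ = 1) (hm : FF.Cls N R ν) :
    ((∫ z, cm k z ∂ν : ℝ) : ℂ) = cue (N := N) (fun z => (cm k z : ℂ)) := by
  rw [← integral_complex_ofReal]
  have e : ∫ z, (cm k z : ℂ) ∂ν = ∫ z, ∑ p : (Fin N → Fin (k + 1)) × (Fin N → Fin (k + 1)),
      cc p * (eval z (dp p.1 p.2) * (starRingEnd ℂ) (eval z (dp p.2 p.1))) ∂ν := by
    refine integral_congr_ae ?_
    filter_upwards [h1] with z hz
    exact cm_red k hz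
  rw [e, cue_congr fun z hz => cm_red k hz, cue_lin,
    integral_finsetSum _ fun p _ => (poly_int h1 _ _).const_mul _]
  refine Finset.sum_congr rfl fun p _ => ?_
  rw [integral_const_mul]
  by_cases hp : cc p = 0
  · rw [hp, zero_mul, zero_mul]
  · obtain ⟨d1, d2⟩ := cc_deg hp
    rw [hm _ _ (d1.trans hR) (d2.trans hR)]

/-! ### the grid mean of a monomial -/

lemma gmean_mon {D : ℕ} (hD : 0 < D) {a b : Fin N → ℕ} (ha : ∀ j, a j + N ≤ D)
    (hb : ∀ j, b j + N ≤ D) :
    SG.gmean D (mon a b) = (N.factorial : ℂ)⁻¹ * ∑ σ : Equiv.Perm (Fin N),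
      ∑ π : Equiv.Perm (Fin N), (((Equiv.Perm.sign σ : ℤ) : ℂ) * ((Equiv.Perm.sign π : ℤ) : ℂ)) *
        (if (fun j => a j + (σ j : ℕ)) = (fun j => b j + (π j : ℕ)) then 1 else 0) := by
  unfold SG.gmean
  have e : ∀ x : Fin N → Fin D, mon a b (gz D x) * (V2 (gz D x) : ℂ) =
      ∑ σ : Equiv.Perm (Fin N), ∑ π : Equiv.Perm (Fin N),
      (((Equiv.Perm.sign σ : ℤ) : ℂ) * ((Equiv.Perm.sign π : ℤ) : ℂ)) *
        mon (fun j => a j + (σ j : ℕ)) (fun j => b j + (π j : ℕ)) (gz D x) := by
    intro x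
    rw [SB.V2_perm, Finset.mul_sum]
    refine Finset.sum_congr rfl fun σ _ => ?_
    rw [Finset.mul_sum]
    refine Finset.sum_congr rfl fun π _ => ?_
    have : mon (fun j => a j + (σ j : ℕ)) (fun j => b j + (π j : ℕ)) (gz D x) =
        mon a b (gz D x) * mon (fun j => (σ j : ℕ)) (fun j => (π j : ℕ)) (gz D x) := by
      unfold mon
      rw [← Finset.prod_mul_distrib]
      refine Finset.prod_congr rfl fun j _ => ?_
      rw [pow_add, pow_add, map_mul]
      ring
    rw [this]
    ring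
  simp only [e]
  rw [Finset.sum_comm, mul_inv, mul_assoc]
  congr 1
  rw [Finset.mul_sum]
  refine Finset.sum_congr rfl fun σ _ => ?_
  rw [Finset.sum_comm, Finset.mul_sum]
  refine Finset.sum_congr rfl fun π _ => ?_
  rw [← Finset.mul_sum, mon_disc hD]
  · have hDc : ((D : ℂ) ^ N) ≠ 0 := pow_ne_zero _ (by exact_mod_cast hD.ne')
    split_ifs with h
    · field_simp
    · simp
  · intro j
    have := (σ j).is_lt
    have := ha j
    omega
  · intro j
    have := (π j).is_lt
    have := hb j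
    omega

/-! ### the exponents of the tilt -/

/-- positive exponents -/
def hp (N k : ℕ) (j : Fin N) : ℕ := if (j : ℕ) < N / 2 then k + (N - 1 - 2 * j) else 0

/-- negative exponents -/
def hm (N k : ℕ) (j : Fin N) : ℕ := if N - N / 2 ≤ (j : ℕ) then k + (2 * j - (N - 1)) else 0

lemma hp_le (k : ℕ) (j : Fin N) : hp N k j ≤ k + N := by
  unfold hp
  split_ifs <;> omega

lemma hm_le (k : ℕ) (j : Fin N) : hm N k j ≤ k + N := by
  unfold hm
  have := j.is_lt
  split_ifs <;> omega

lemma range_le_sum (s : Finset ℕ) : ∑ i ∈ range s.card, i ≤ ∑ x ∈ s, x := by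
  induction s using Finset.induction_on_max with
  | empty => simp
  | insert m s hs ih =>
    have hm : m ∉ s := fun h => (hs m h).ne rfl
    rw [Finset.card_insert_of_notMem hm, Finset.sum_range_succ, Finset.sum_insert hm]
    have h1 : s.card ≤ m := by
      have : s ⊆ range m := fun x hx => Finset.mem_range.2 (hs x hx)
      simpa using Finset.card_le_card this
    omega

/-- a sum over distinct values is at least the sum of the first numbers -/
lemma sum_ge_range (s : Finset (Fin N)) (f : Fin N → ℕ) (hf : Set.InjOn f s) :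
    ∑ i ∈ range s.card, i ≤ ∑ j ∈ s, f j := by
  classical
  have h := range_le_sum (s.image f)
  rw [Finset.card_image_of_injOn hf, Finset.sum_image (fun a ha b hb h => hf ha hb h)] at h
  exact h

/-- the first slots -/
def first (N : ℕ) : Finset (Fin N) := univ.filter fun j => (j : ℕ) < N / 2

lemma first_card : (first N).card = N / 2 := by
  unfold first
  rw [Fin.card_filter_val_lt]
  exact min_eq_right (Nat.div_le_self N 2)

lemma first_sum (f : ℕ → ℕ) : ∑ j ∈ first N, f j = ∑ i ∈ range (N / 2), f i := by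
  classical
  have h : (first N).map Fin.valEmbedding = range (N / 2) := by
    ext x
    simp only [first, Finset.mem_map, Finset.mem_filter, Finset.mem_univ, true_and,
      Fin.valEmbedding_apply, Finset.mem_range]
    constructor
    · rintro ⟨j, hj, rfl⟩
      exact hj
    · intro hx
      exact ⟨⟨x, lt_of_lt_of_le hx (Nat.div_le_self N 2)⟩, hx, rfl⟩
  rw [← h, Finset.sum_map]
  rfl

/-- the exponents of the tilt do not occur for low degrees -/
lemma no_low {k : ℕ} {α β : Fin N → ℕ} (hβ : ∑ j, β j < k * (N / 2))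
    (σ π : Equiv.Perm (Fin N))
    (h : (fun j => hp N k j + α j + (σ j : ℕ)) = (fun j => hm N k j + β j + (π j : ℕ))) :
    False := by
  have h1 : ∑ j ∈ first N, (hp N k j + α j + (σ j : ℕ)) =
      ∑ j ∈ first N, (hm N k j + β j + (π j : ℕ)) := by
    exact Finset.sum_congr rfl fun j _ => congrFun h j
  have h2 : ∀ j ∈ first N, hm N k j = 0 := by
    intro j hj
    unfold first at hj
    rw [Finset.mem_filter] at hj
    unfold hm
    rw [if_neg (by omega)]
  have h3 : ∑ j ∈ first N, hp N k j = k * (N / 2) + ∑ i ∈ range (N / 2), (N - 1 - 2 * i) := by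
    have : ∀ j ∈ first N, hp N k j = k + (N - 1 - 2 * (j : ℕ)) := by
      intro j hj
      unfold first at hj
      rw [Finset.mem_filter] at hj
      unfold hp
      rw [if_pos hj.2]
    rw [Finset.sum_congr rfl this, Finset.sum_add_distrib, Finset.sum_const, first_card,
      smul_eq_mul, mul_comm, first_sum (fun i => N - 1 - 2 * i)]
  have h4 : ∑ i ∈ range (N / 2), i ≤ ∑ j ∈ first N, (σ j : ℕ) := by
    have := sum_ge_range (first N) (fun j => (σ j : ℕ))
      (fun a _ b _ hab => σ.injective (Fin.ext hab))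
    rwa [first_card] at this
  have h5 : ∑ i ∈ range (N / 2), i ≤ ∑ j ∈ first N, (N - 1 - (π j : ℕ)) := by
    have := sum_ge_range (first N) (fun j => N - 1 - (π j : ℕ)) (fun a _ b _ hab => by
      have ha := (π a).is_lt
      have hb := (π b).is_lt
      have hab' : N - 1 - (π a : ℕ) = N - 1 - (π b : ℕ) := hab
      exact π.injective (Fin.ext (by omega)))
    rwa [first_card] at this
  have h6 : ∑ j ∈ first N, (N - 1 - (π j : ℕ)) + ∑ j ∈ first N, (π j : ℕ) =
      (N / 2) * (N - 1) := by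
    rw [← Finset.sum_add_distrib]
    have : ∀ j ∈ first N, N - 1 - (π j : ℕ) + (π j : ℕ) = N - 1 := fun j _ => by
      have := (π j).is_lt
      omega
    rw [Finset.sum_congr rfl this, Finset.sum_const, first_card, smul_eq_mul]
  have h7 : ∑ i ∈ range (N / 2), (N - 1 - 2 * i) + 2 * ∑ i ∈ range (N / 2), i =
      (N / 2) * (N - 1) := by
    rw [Finset.mul_sum, ← Finset.sum_add_distrib]
    have : ∀ i ∈ range (N / 2), N - 1 - 2 * i + 2 * i = N - 1 := fun i hi => by
      rw [Finset.mem_range] at hi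
      omega
    rw [Finset.sum_congr rfl this, Finset.sum_const, Finset.card_range, smul_eq_mul]
  have h8 : ∑ j ∈ first N, β j ≤ ∑ j, β j :=
    Finset.sum_le_sum_of_subset (Finset.subset_univ _)
  rw [Finset.sum_add_distrib, Finset.sum_add_distrib, Finset.sum_add_distrib,
    Finset.sum_add_distrib, h3, Finset.sum_eq_zero h2] at h1
  omega

end

end Pool.Agent.H481.TM
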