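import Pool.Agent.H481.TM2

/-!
The tilted laws: below the range `k ⌊N/2⌋` the moment is not determined.
-/

open MvPolynomial Finset MeasureTheory
open Pool.Agent.R319.UM

namespace Pool.Agent.H481.TM

noncomputable section

variable {N : ℕ}

/-- the exponents which are forced -/
lemma forced_first {k : ℕ} {a b : Fin N → ℕ} (hb : ∀ j, b j ≤ k) {σ π : Equiv.Perm (Fin N)}
    (h : (fun j => hp N k j + a j + (σ j : ℕ)) = (fun j => hm N k j + b j + (π j : ℕ))) :
    ∀ n (hn : n < N / 2), (σ ⟨n, by omega⟩ : ℕ) = n ∧ (π ⟨n, by omega⟩ : ℕ) = N - 1 - n := by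
  intro n
  induction n using Nat.strong_induction_on with
  | _ n ih =>
    intro hn
    have hj := congrFun h ⟨n, by omega⟩
    simp only [hp, hm] at hj
    rw [if_pos hn, if_neg (by omega)] at hj
    have s1 : n ≤ (σ ⟨n, by omega⟩ : ℕ) := by
      by_contra hc
      push Not at hc
      obtain ⟨e1, _⟩ := ih _ hc (by omega)
      have : σ ⟨(σ ⟨n, by omega⟩ : ℕ), by omega⟩ = σ ⟨n, by omega⟩ := Fin.ext e1
      have h2 := congrArg Fin.val (σ.injective this)
      simp only at h2
      omega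
    have s2 : (π ⟨n, by omega⟩ : ℕ) ≤ N - 1 - n := by
      by_contra hc
      push Not at hc
      have hlt := (π ⟨n, by omega⟩).is_lt
      obtain ⟨_, e1⟩ := ih (N - 1 - (π ⟨n, by omega⟩ : ℕ)) (by omega) (by omega)
      have : π ⟨N - 1 - (π ⟨n, by omega⟩ : ℕ), by omega⟩ = π ⟨n, by omega⟩ :=
        Fin.ext (by rw [e1]; omega)
      have h2 := congrArg Fin.val (π.injective this)
      simp only at h2
      omega
    have h3 := hb ⟨n, by omega⟩
    omega

lemma forced_last {k : ℕ} {a b : Fin N → ℕ} (ha : ∀ j, a j ≤ k) {σ π : Equiv.Perm (Fin N)}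
    (h : (fun j => hp N k j + a j + (σ j : ℕ)) = (fun j => hm N k j + b j + (π j : ℕ))) :
    ∀ n (hn : n < N / 2), (σ ⟨N - 1 - n, by omega⟩ : ℕ) = N - 1 - n ∧
      (π ⟨N - 1 - n, by omega⟩ : ℕ) = n := by
  intro n
  induction n using Nat.strong_induction_on with
  | _ n ih =>
    intro hn
    have hj := congrFun h ⟨N - 1 - n, by omega⟩
    simp only [hp, hm] at hj
    rw [if_neg (by omega), if_pos (by omega)] at hj
    have s1 : (σ ⟨N - 1 - n, by omega⟩ : ℕ) ≤ N - 1 - n := by
      by_contra hc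
      push Not at hc
      have hlt := (σ ⟨N - 1 - n, by omega⟩).is_lt
      obtain ⟨e1, _⟩ := ih (N - 1 - (σ ⟨N - 1 - n, by omega⟩ : ℕ)) (by omega) (by omega)
      have : σ ⟨N - 1 - (N - 1 - (σ ⟨N - 1 - n, by omega⟩ : ℕ)), by omega⟩ =
          σ ⟨N - 1 - n, by omega⟩ := Fin.ext (by rw [e1]; omega)
      have h2 := congrArg Fin.val (σ.injective this)
      simp only at h2
      omega
    have s2 : n ≤ (π ⟨N - 1 - n, by omega⟩ : ℕ) := by
      by_contra hc
      push Not at hc
      obtain ⟨_, e1⟩ := ih _ hc (by omega)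
      have : π ⟨N - 1 - (π ⟨N - 1 - n, by omega⟩ : ℕ), by omega⟩ = π ⟨N - 1 - n, by omega⟩ :=
        Fin.ext e1
      have h2 := congrArg Fin.val (π.injective this)
      simp only at h2
      omega
    have h3 := ha ⟨N - 1 - n, by omega⟩
    omega

/-- the reversal of the slots -/
def rv (N : ℕ) : Equiv.Perm (Fin N) := Fin.revPerm

/-- a permutation which fixes all slots but one -/
lemma perm_fix {τ : Equiv.Perm (Fin N)} (h : ∀ j : Fin N, 2 * (j : ℕ) + 1 ≠ N → τ j = j) :
    τ = 1 := by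
  ext j
  rw [Equiv.Perm.one_apply]
  by_cases hj : 2 * (j : ℕ) + 1 = N
  · by_contra hc
    have h2 : 2 * ((τ j : Fin N) : ℕ) + 1 ≠ N := by omega
    have h3 := h (τ j) h2
    have h4 := τ.injective h3
    exact hc (congrArg Fin.val h4)
  · rw [h j hj]

lemma forced {k : ℕ} {a b : Fin N → ℕ} (ha : ∀ j, a j ≤ k) (hb : ∀ j, b j ≤ k)
    {σ π : Equiv.Perm (Fin N)}
    (h : (fun j => hp N k j + a j + (σ j : ℕ)) = (fun j => hm N k j + b j + (π j : ℕ))) :
    σ = 1 ∧ π = rv N := by
  have h1 := forced_first hb h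
  have h2 := forced_last ha h
  have key : ∀ j : Fin N, 2 * (j : ℕ) + 1 ≠ N →
      (σ j : ℕ) = j ∧ (π j : ℕ) = N - 1 - j := by
    intro j hj
    have hlt := j.is_lt
    by_cases hc : (j : ℕ) < N / 2
    · exact h1 j hc
    · have h3 := h2 (N - 1 - j) (by omega)
      have e : (⟨N - 1 - (N - 1 - (j : ℕ)), by omega⟩ : Fin N) = j := Fin.ext (by
        simp only
        omega)
      rw [e] at h3
      omega
  constructor
  · refine perm_fix fun j hj => Fin.ext (key j hj).1
  · have : (rv N)⁻¹ * π = 1 := by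
      refine perm_fix fun j hj => ?_
      rw [Equiv.Perm.mul_apply, Equiv.Perm.inv_eq_iff_eq]
      refine Fin.ext ?_
      rw [(key j hj).2]
      unfold rv
      rw [Fin.revPerm_apply, Fin.val_rev]
      omega
    rw [inv_mul_eq_one] at this
    exact this.symm

end

end Pool.Agent.H481.TM
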