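import Pool.Agent.H481.TM3

/-!
The tilted laws, continued.
-/

open MvPolynomial Finset MeasureTheory
open Pool.Agent.R319.UM

namespace Pool.Agent.H481.TM

noncomputable section

variable {N : ℕ}

lemma mon_mul (a b c d : Fin N → ℕ) (z : Fin N → ℂ) :
    mon a b z * mon c d z = mon (fun j => a j + c j) (fun j => b j + d j) z := by
  unfold mon
  rw [← Finset.prod_mul_distrib]
  refine Finset.prod_congr rfl fun j _ => ?_
  rw [pow_add, pow_add, map_mul]
  ring

lemma mon_conj (a b : Fin N → ℕ) (z : Fin N → ℂ) :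
    (starRingEnd ℂ) (mon a b z) = mon b a z := by
  unfold mon
  rw [map_prod]
  refine Finset.prod_congr rfl fun j _ => ?_
  rw [map_mul, Complex.conj_conj, mul_comm]

lemma mon_norm {z : Fin N → ℂ} (h1 : ∀ i, ‖z i‖ = 1) (a b : Fin N → ℕ) : ‖mon a b z‖ = 1 := by
  unfold mon
  rw [norm_prod]
  refine Finset.prod_eq_one fun j _ => ?_
  rw [norm_mul, RCLike.norm_conj, norm_pow, norm_pow, h1 j, one_pow, one_pow, one_mul]

/-- the coefficients are nonnegative -/
lemma cc_real {k : ℕ} (p : (Fin N → Fin (k + 1)) × (Fin N → Fin (k + 1))) :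
    ∃ r : ℝ, 0 ≤ r ∧ cc p = r ∧ (∑ j, (p.1 j : ℕ) = ∑ j, (p.2 j : ℕ) → 1 ≤ r) := by
  by_cases h : ∑ j, (p.1 j : ℕ) = ∑ j, (p.2 j : ℕ)
  · have hch : ∀ a : Fin N → Fin (k + 1), ca k a =
        (-1) ^ (∑ j, (a j : ℕ)) * ((∏ j, k.choose (a j) : ℕ) : ℂ) := by
      intro a
      unfold ca
      rw [Finset.prod_mul_distrib, Finset.prod_pow_eq_pow_sum]
      push_cast
      rfl
    have hpos : ∀ a : Fin N → Fin (k + 1), 1 ≤ ∏ j, k.choose (a j) := by
      intro a
      refine Finset.one_le_prod' fun j _ => ?_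
      exact Nat.choose_pos (by have := (a j).is_lt; omega)
    refine ⟨((∏ j, k.choose (p.1 j) : ℕ) : ℝ) * ((∏ j, k.choose (p.2 j) : ℕ) : ℝ), by positivity,
      ?_, fun _ => ?_⟩
    · unfold cc
      rw [if_pos h, hch, hch, map_mul, map_pow, map_neg, map_one, map_natCast, ← h]
      have : ((-1 : ℂ) ^ (∑ j, (p.1 j : ℕ))) * ((-1 : ℂ) ^ (∑ j, (p.1 j : ℕ))) = 1 := by
        rw [← mul_pow]
        norm_num
      push_cast
      linear_combination ((∏ j, (k.choose (p.1 j) : ℂ)) * ∏ j, (k.choose (p.2 j) : ℂ)) * this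
    · have h1 : (1 : ℝ) ≤ ((∏ j, k.choose (p.1 j) : ℕ) : ℝ) := by exact_mod_cast hpos p.1
      have h2 : (1 : ℝ) ≤ ((∏ j, k.choose (p.2 j) : ℕ) : ℝ) := by exact_mod_cast hpos p.2
      nlinarith
  · exact ⟨0, le_refl _, by unfold cc; rw [if_neg h]; simp, fun h' => absurd h' h⟩

/-- the oscillating factor -/
def qq (N k : ℕ) (z : Fin N → ℂ) : ℂ := mon (hp N k) (hm N k) z

lemma orth_mon {k D : ℕ} {α β : Fin N → ℕ} (hN : 0 < N) (hβ : ∑ j, β j < k * (N / 2))
    (hα : ∀ j, α j + k + 2 * N ≤ D) (hβD : ∀ j, β j + k + 2 * N ≤ D) :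
    SG.gmean D (fun z => qq N k z * mon α β z) = 0 := by
  have e : (fun z : Fin N → ℂ => qq N k z * mon α β z) =
      mon (fun j => hp N k j + α j) (fun j => hm N k j + β j) := by
    funext z
    exact mon_mul _ _ _ _ z
  have hD : 0 < D := by
    have := hα ⟨0, hN⟩
    omega
  rw [e, gmean_mon hD (fun j => by have := hα j; have := hp_le (N := N) k j; omega)
    (fun j => by have := hβD j; have := hm_le (N := N) k j; omega)]
  rw [Finset.sum_eq_zero, mul_zero]
  intro σ _
  refine Finset.sum_eq_zero fun π _ => ?_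
  rw [if_neg, mul_zero]
  exact fun h => no_low hβ σ π h

lemma orth {k D R : ℕ} (hN : 0 < N) (hR : R < k * (N / 2)) (hD : R + k + 2 * N ≤ D)
    (F G : MvPolynomial (Fin N) ℂ) (hF : F.totalDegree ≤ R) (hG : G.totalDegree ≤ R) :
    SG.gmean D (fun z => qq N k z * (eval z F * (starRingEnd ℂ) (eval z G))) = 0 := by
  have e : (fun z : Fin N → ℂ => qq N k z * (eval z F * (starRingEnd ℂ) (eval z G))) =
      fun z => ∑ d ∈ F.support, ∑ e ∈ G.support, (F.coeff d * (starRingEnd ℂ) (G.coeff e)) *
        (qq N k z * mon d e z) := by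
    funext z
    rw [expand, Finset.mul_sum]
    refine Finset.sum_congr rfl fun d _ => ?_
    rw [Finset.mul_sum]
    exact Finset.sum_congr rfl fun e _ => by ring
  rw [e, SG.gmean_sum]
  refine Finset.sum_eq_zero fun d hd => ?_
  rw [SG.gmean_sum]
  refine Finset.sum_eq_zero fun e he => ?_
  have hsum : ∀ (P : MvPolynomial (Fin N) ℂ) (d : Fin N →₀ ℕ), P.totalDegree ≤ R →
      d ∈ P.support → ∑ j, d j ≤ R := by
    intro P d hP hd
    have := le_totalDegree hd
    rw [Finsupp.sum_fintype _ _ fun _ => rfl] at this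
    omega
  have h1 := hsum F d hF hd
  have h2 := hsum G e hG he
  have hle : ∀ (d : Fin N →₀ ℕ) (j : Fin N), d j ≤ ∑ j, d j := fun d j =>
    Finset.single_le_sum (f := fun j => d j) (fun _ _ => Nat.zero_le _) (Finset.mem_univ j)
  rw [SG.gmean_mul, orth_mon hN (by omega) (fun j => by have := hle d j; omega)
    (fun j => by have := hle e j; omega), mul_zero]

lemma gmean_conj (D : ℕ) (f : (Fin N → ℂ) → ℂ) :
    SG.gmean D (fun z => (starRingEnd ℂ) (f z)) = (starRingEnd ℂ) (SG.gmean D f) := by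
  rw [SG.gmean_eq, SG.gmean_eq, map_sum]
  refine Finset.sum_congr rfl fun x _ => ?_
  rw [map_mul, Complex.conj_ofReal]

lemma orth' {k D R : ℕ} (hN : 0 < N) (hR : R < k * (N / 2)) (hD : R + k + 2 * N ≤ D)
    (F G : MvPolynomial (Fin N) ℂ) (hF : F.totalDegree ≤ R) (hG : G.totalDegree ≤ R) :
    SG.gmean D (fun z => (starRingEnd ℂ) (qq N k z) *
      (eval z F * (starRingEnd ℂ) (eval z G))) = 0 := by
  have h := gmean_conj D (fun z => qq N k z * (eval z G * (starRingEnd ℂ) (eval z F)))
  rw [orth hN hR hD G F hG hF, map_zero] at h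
  rw [← h]
  congr 1
  funext z
  rw [map_mul, map_mul, Complex.conj_conj]
  ring

/-- the correlation of the factor with the moment -/
lemma corr {k D : ℕ} (hN : 0 < N) (hD : 2 * k + 2 * N ≤ D) :
    ∃ s κ : ℝ, s * s = 1 ∧ 1 ≤ κ ∧
      SG.gmean D (fun z => qq N k z * (cm k z : ℂ)) = ((s * κ / N.factorial : ℝ) : ℂ) := by
  classical
  choose r hr0 hr1 hr2 using cc_real (N := N) (k := k)
  set δ : (Fin N → Fin (k + 1)) × (Fin N → Fin (k + 1)) → ℝ := fun p =>
    if (fun j => hp N k j + va p.1 j + ((1 : Equiv.Perm (Fin N)) j : ℕ)) =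
      (fun j => hm N k j + va p.2 j + (rv N j : ℕ)) then 1 else 0 with hδ
  have hle : ∀ (a : Fin N → Fin (k + 1)) (j : Fin N), va a j ≤ k := fun a j => by
    unfold va
    have := (a j).is_lt
    omega
  refine ⟨((Equiv.Perm.sign (rv N) : ℤ) : ℝ), ∑ p, r p * δ p, ?_, ?_, ?_⟩
  · rcases Int.units_eq_one_or (Equiv.Perm.sign (rv N)) with h | h <;> rw [h] <;> simp
  · -- the pair with a positive contribution
    set p0 : (Fin N → Fin (k + 1)) × (Fin N → Fin (k + 1)) :=
      (fun j => if N - N / 2 ≤ (j : ℕ) then ⟨k, by omega⟩ else 0,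
        fun j => if (j : ℕ) < N / 2 then ⟨k, by omega⟩ else 0) with hp0
    have hδ0 : δ p0 = 1 := by
      rw [hδ]
      simp only
      rw [if_pos]
      funext j
      have hlt := j.is_lt
      have e1 : (rv N j : ℕ) = N - 1 - j := by
        unfold rv
        rw [Fin.revPerm_apply, Fin.val_rev]
        omega
      rw [e1, Equiv.Perm.one_apply]
      unfold va hp hm
      simp only [hp0]
      by_cases c1 : (j : ℕ) < N / 2
      · rw [if_pos c1, if_neg (by omega : ¬ (N - N / 2 ≤ (j : ℕ))),
          if_neg (by omega : ¬ (N - N / 2 ≤ (j : ℕ))), if_pos c1]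
        simp only [Fin.val_zero]
        omega
      · by_cases c2 : N - N / 2 ≤ (j : ℕ)
        · rw [if_neg c1, if_pos c2, if_pos c2, if_neg c1]
          simp only [Fin.val_zero]
          omega
        · rw [if_neg c1, if_neg c2, if_neg c2, if_neg c1]
          simp only [Fin.val_zero]
          omega
    have hs0 : ∑ j, (p0.1 j : ℕ) = ∑ j, (p0.2 j : ℕ) := by
      rw [← Equiv.sum_comp (Fin.revPerm (n := N)) (fun j => (p0.2 j : ℕ))]
      refine Finset.sum_congr rfl fun j _ => ?_
      have hlt := j.is_lt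
      simp only [hp0, Fin.revPerm_apply, Fin.val_rev]
      by_cases c2 : N - N / 2 ≤ (j : ℕ)
      · rw [if_pos c2, if_pos (by omega)]
      · rw [if_neg c2, if_neg (by omega)]
    have h1 := hr2 p0 hs0
    calc (1 : ℝ) ≤ r p0 * δ p0 := by rw [hδ0, mul_one]; exact h1
      _ ≤ ∑ p, r p * δ p := by
        refine Finset.single_le_sum (f := fun p => r p * δ p) (fun p _ => ?_) (Finset.mem_univ p0)
        refine mul_nonneg (hr0 p) ?_
        rw [hδ]
        simp only
        split_ifs <;> norm_num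
  · have e : (fun z : Fin N → ℂ => qq N k z * (cm k z : ℂ)) = fun z =>
        ∑ p ∈ (univ : Finset ((Fin N → Fin (k + 1)) × (Fin N → Fin (k + 1)))), cc p *
          mon (fun j => hp N k j + va p.1 j) (fun j => hm N k j + va p.2 j) z := by
      funext z
      rw [cm_pair, Finset.mul_sum]
      refine Finset.sum_congr rfl fun p _ => ?_
      rw [← mon_mul]
      unfold qq
      ring
    rw [e, SG.gmean_sum]
    have key : ∀ p : (Fin N → Fin (k + 1)) × (Fin N → Fin (k + 1)),
        SG.gmean D (fun z => cc p *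
          mon (fun j => hp N k j + va p.1 j) (fun j => hm N k j + va p.2 j) z) =
        (((Equiv.Perm.sign (rv N) : ℤ) : ℝ) * (r p * δ p) / N.factorial : ℝ) := by
      intro p
      rw [SG.gmean_mul]
      have hg := gmean_mon (N := N) (D := D) (by omega)
        (a := fun j => hp N k j + va p.1 j) (b := fun j => hm N k j + va p.2 j)
        (fun j => by have := hle p.1 j; have := hp_le (N := N) k j; omega)
        (fun j => by have := hle p.2 j; have := hm_le (N := N) k j; omega)
      rw [show SG.gmean D (fun z => mon (fun j => hp N k j + va p.1 j)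
        (fun j => hm N k j + va p.2 j) z) = SG.gmean D (mon (fun j => hp N k j + va p.1 j)
        (fun j => hm N k j + va p.2 j)) from rfl, hg]
      rw [Finset.sum_eq_single (1 : Equiv.Perm (Fin N)), Finset.sum_eq_single (rv N)]
      · rw [hr1 p, Equiv.Perm.sign_one, hδ]
        simp only
        split_ifs with h
        · push_cast
          ring
        · simp
      · intro π _ hπ
        rw [if_neg, mul_zero]
        exact fun h => hπ (forced (hle p.1) (hle p.2) h).2
      · intro h
        exact absurd (Finset.mem_univ _) h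
      · intro σ _ hσ
        refine Finset.sum_eq_zero fun π _ => ?_
        rw [if_neg, mul_zero]
        exact fun h => hσ (forced (hle p.1) (hle p.2) h).1
      · intro h
        exact absurd (Finset.mem_univ _) h
    simp only [key]
    rw [← Complex.ofReal_sum]
    congr 1
    rw [Finset.mul_sum, Finset.sum_div]

end

end Pool.Agent.H481.TM
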