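import Pool.Agent.H481.TM4

/-!
The tilted laws, end.
-/

open MvPolynomial Finset MeasureTheory
open Pool.Agent.R319.UM

namespace Pool.Agent.H481.TM

noncomputable section

variable {N : ℕ}

/-- the weights of the tilted law -/
def tw (k D : ℕ) (t : ℝ) (x : Fin N → Fin D) : ℝ :=
  SG.gw N D x * (1 + t * (qq N k (gz D x)).re)

/-- the tilted law -/
def tl (N k D : ℕ) (t : ℝ) : Measure (Fin N → ℂ) := IN.fl (tw k D t) (gz D)

lemma tw_nonneg {k D : ℕ} {t : ℝ} (ht : |t| ≤ 1) (x : Fin N → Fin D) : 0 ≤ tw k D t x := by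
  unfold tw
  refine mul_nonneg (SG.gw_nonneg D x) ?_
  have h1 : |(qq N k (gz D x)).re| ≤ 1 := by
    refine (Complex.abs_re_le_norm _).trans ?_
    unfold qq
    rw [mon_norm (SG.gz_unit' D x)]
  have h2 : |t * (qq N k (gz D x)).re| ≤ 1 := by
    rw [abs_mul]
    calc |t| * |(qq N k (gz D x)).re| ≤ 1 * 1 :=
          mul_le_mul ht h1 (abs_nonneg _) zero_le_one
      _ = 1 := one_mul 1
  linarith [(abs_le.1 h2).1]

/-- a sum against the weights -/
lemma tw_sum (k D : ℕ) (t : ℝ) (f : (Fin N → ℂ) → ℂ) :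
    ∑ x : Fin N → Fin D, (tw k D t x : ℂ) * f (gz D x) =
      SG.gmean D f + (t / 2 : ℂ) * (SG.gmean D (fun z => qq N k z * f z) +
        SG.gmean D (fun z => (starRingEnd ℂ) (qq N k z) * f z)) := by
  rw [SG.gmean_eq, SG.gmean_eq, SG.gmean_eq, ← Finset.sum_add_distrib, Finset.mul_sum,
    ← Finset.sum_add_distrib]
  refine Finset.sum_congr rfl fun x _ => ?_
  unfold tw
  have h : (((qq N k (gz D x)).re : ℝ) : ℂ) =
      (qq N k (gz D x) + (starRingEnd ℂ) (qq N k (gz D x))) / 2 := by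
    rw [Complex.add_conj]
    push_cast
    ring
  push_cast
  rw [h]
  ring

lemma tl_mom {k D R : ℕ} (hN : 0 < N) (hR : R < k * (N / 2)) (hD : R + k + 2 * N ≤ D) {t : ℝ}
    (ht : |t| ≤ 1) (F G : MvPolynomial (Fin N) ℂ) (hF : F.totalDegree ≤ R)
    (hG : G.totalDegree ≤ R) :
    ∫ z, eval z F * (starRingEnd ℂ) (eval z G) ∂(tl N k D t) =
      cue (fun z => eval z F * (starRingEnd ℂ) (eval z G)) := by
  unfold tl
  rw [IN.fl_int (fun x => tw_nonneg ht x)]
  have h := tw_sum k D t (fun z : Fin N → ℂ => eval z F * (starRingEnd ℂ) (eval z G))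
  rw [orth hN hR hD F G hF hG, orth' hN hR hD F G hF hG, add_zero, mul_zero, add_zero,
    ← SG.cue_eq_gmean hN (by omega) F G hF hG] at h
  rw [← h]
  exact Finset.sum_congr rfl fun x _ => Complex.real_smul

lemma tw_total {k D R : ℕ} (hN : 0 < N) (hR : R < k * (N / 2)) (hD : R + k + 2 * N ≤ D) {t : ℝ} :
    ∑ x : Fin N → Fin D, tw k D t x = 1 := by
  have h := tw_sum (N := N) k D t (fun _ => 1)
  have h1 := orth (N := N) hN hR hD 1 1 (by simp) (by simp)
  have h2 := orth' (N := N) hN hR hD 1 1 (by simp) (by simp)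
  simp only [map_one, mul_one] at h h1 h2
  rw [h1, h2, add_zero, mul_zero, add_zero, SG.gmean_eq] at h
  simp only [mul_one] at h
  have h3 := SG.gw_sum (N := N) hN (M := D) (by omega)
  have h4 : ((∑ x : Fin N → Fin D, SG.gw N D x : ℝ) : ℂ) = 1 := by
    rw [h3]
    simp
  rw [Complex.ofReal_sum] at h4
  rw [h4] at h
  exact_mod_cast h

lemma cm_cue {k D : ℕ} (hN : 0 < N) (hD : N + k * N ≤ D) :
    cue (N := N) (fun z => (cm k z : ℂ)) = SG.gmean (N := N) D (fun z => (cm k z : ℂ)) := by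
  have e : ∀ z : Fin N → ℂ, (cm k z : ℂ) =
      ∑ p ∈ (univ : Finset ((Fin N → Fin (k + 1)) × (Fin N → Fin (k + 1)))),
      cc p * (eval z (mX (va p.1)) * (starRingEnd ℂ) (eval z (mX (va p.2)))) := by
    intro z
    rw [cm_pair]
    exact Finset.sum_congr rfl fun p _ => by rw [mon_eval]
  simp only [e]
  rw [cue_lin, SG.gmean_sum]
  refine Finset.sum_congr rfl fun p _ => ?_
  have hdeg : ∀ a : Fin N → Fin (k + 1), (mX (va a)).totalDegree ≤ k * N := by
    intro a
    refine (mX_deg _).trans ?_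
    calc ∑ j, va a j ≤ ∑ _j : Fin N, k := Finset.sum_le_sum fun j _ => by
          unfold va
          have := (a j).is_lt
          omega
      _ = k * N := by simp [mul_comm]
  rw [SG.gmean_mul, SG.cue_eq_gmean hN hD _ _ (hdeg _) (hdeg _)]

lemma cue_cm_real (k : ℕ) : cue (N := N) (fun z => (cm k z : ℂ)) =
    ((cue (N := N) (fun z => (cm k z : ℂ))).re : ℂ) := by
  unfold cue
  have e : ∀ θ : Fin N → ℝ, (cm k (ez θ) : ℂ) * (V2 (ez θ) : ℂ) =
      ((cm k (ez θ) * V2 (ez θ) : ℝ) : ℂ) := fun θ => by push_cast; rfl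
  simp only [e]
  rw [integral_complex_ofReal]
  have : ((N.factorial : ℂ) * (2 * Real.pi) ^ N)⁻¹ =
      ((((N.factorial : ℝ) * (2 * Real.pi) ^ N)⁻¹ : ℝ) : ℂ) := by
    push_cast
    rfl
  rw [this, ← Complex.ofReal_mul, Complex.ofReal_re]

/-- below the range `k ⌊N/2⌋` the moment is not determined -/
theorem undetermined {k R : ℕ} (hN : 0 < N) (hR : R < k * (N / 2)) {y : ℝ}
    (hy : |y - (cue (N := N) (fun z => (cm k z : ℂ))).re| ≤ 1 / (N.factorial : ℝ)) :
    ∃ ν : Measure (Fin N → ℂ), IsProbabilityMeasure ν ∧ (∀ᵐ z ∂ν, ∀ i, ‖z i‖ = 1) ∧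
      FF.Cls N R ν ∧ ∫ z, cm k z ∂ν = y := by
  set D := R + 2 * k + 2 * N + k * N with hD
  obtain ⟨s, κ, hs, hκ, hc⟩ := corr (N := N) (k := k) (D := D) hN (by omega)
  have hNf : (0 : ℝ) < N.factorial := by exact_mod_cast N.factorial_pos
  set M := (cue (N := N) (fun z => (cm k z : ℂ))).re with hM
  set t : ℝ := (y - M) * s * N.factorial / κ with ht
  have hsabs : |s| = 1 := by
    have : |s| * |s| = 1 := by rw [← abs_mul, hs, abs_one]
    nlinarith [abs_nonneg s]
  have ht1 : |t| ≤ 1 := by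
    rw [ht, abs_div, abs_mul, abs_mul, hsabs, mul_one, abs_of_pos hNf,
      abs_of_pos (by linarith : 0 < κ), div_le_one (by linarith)]
    calc |y - M| * N.factorial ≤ 1 / (N.factorial : ℝ) * N.factorial :=
          mul_le_mul_of_nonneg_right hy hNf.le
      _ = 1 := by field_simp
      _ ≤ κ := hκ
  refine ⟨tl N k D t, IN.fl_prob (fun x => tw_nonneg ht1 x) (tw_total hN hR (by omega)),
    IN.fl_ae fun x _ i => SG.gz_unit' D x i,
    fun F G hF hG => tl_mom hN hR (by omega) ht1 F G hF hG, ?_⟩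
  have h1 : ((∫ z, cm k z ∂(tl N k D t) : ℝ) : ℂ) = ((y : ℝ) : ℂ) := by
    rw [← integral_complex_ofReal]
    unfold tl
    rw [IN.fl_int (fun x => tw_nonneg ht1 x)]
    have h := tw_sum k D t (fun z : Fin N → ℂ => (cm k z : ℂ))
    have hconj : SG.gmean D (fun z : Fin N → ℂ => (starRingEnd ℂ) (qq N k z) * (cm k z : ℂ)) =
        ((s * κ / N.factorial : ℝ) : ℂ) := by
      have := gmean_conj D (fun z : Fin N → ℂ => qq N k z * (cm k z : ℂ))
      rw [hc, Complex.conj_ofReal] at this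
      rw [← this]
      congr 1
      funext z
      rw [map_mul, Complex.conj_ofReal]
    rw [hc, hconj, ← cm_cue (k := k) (D := D) hN (by omega), cue_cm_real] at h
    rw [show (∑ x : Fin N → Fin D, tw k D t x • ((cm k (gz D x) : ℝ) : ℂ)) =
      ∑ x : Fin N → Fin D, (tw k D t x : ℂ) * ((cm k (gz D x) : ℝ) : ℂ) from
      Finset.sum_congr rfl fun x _ => Complex.real_smul, h, ← hM]
    have : M + t / 2 * (s * κ / N.factorial + s * κ / N.factorial) = y := by
      rw [ht]
      have hκ0 : κ ≠ 0 := by linarith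
      field_simp
      linear_combination 2 * (y - M) * hs
    exact_mod_cast this
  exact_mod_cast h1

end

end Pool.Agent.H481.TM
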